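import Pool.Agent.Lib.MP_2f3286_ag.Gl.SD
import Pool.Agent.Lib.MP_2f3286_ag.Full.ValExt

/-!
# Values in an unramified extension   (module B1)

`Q` is a valuation ring of `L ⊇ K` whose values on `K` are the powers of `Q(τ)`, `τ ∈ K`; `P(z) = 0` with `P` monic, coefficients in `K ∩ Q`, and `Q(P'(z)) = 1`. Then the values of `K(z)` are powers of `Q(τ)`.
PROOF. `O = Q ∩ K`, a discrete valuation ring with uniformizer `τ` (every ideal is generated by a power of `τ`; for a nonzero ideal take an element with the smallest exponent `n : ℕ`), so Noetherian. `B = O[z]`, the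
range of the evaluation of `O[X]` at `z`, a Noetherian domain, contained in `Q` (`z` is integral over `O ⊆ Q`). Use `Gl.dv` (Gl/SD.lean) for `B`, `Q`, `t = τ`: it is enough to show
(*) every `b ∈ B` with `Q(b) < 1` satisfies `s b = τ c` with `s, c ∈ B`, `Q(s) = 1`. PROOF of (*). Let `h ∈ O[X]` be monic of smallest degree with `Q(h(z)) < 1`. A polynomial `R` of smaller degree with `Q(R(z)) < 1`
has all its coefficients in the maximal ideal (drop the top terms which are in it; a top coefficient which is a unit contradicts the choice of `h`), so it is divisible by `τ`. Division by `h`: `P = h g + τ A` and `b = G(z)`,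
`G = h m + τ A'`. So `g(z) h(z) = - τ A(z)` and `g(z) b = τ (g(z) A'(z) - A(z) m(z))`; `s = g(z)` has `Q(s) = 1` because `P'(z) = h'(z) g(z) + h(z) g'(z) + τ A'(z)`.
So every nonzero `b ∈ B` has `Q(b) = Q(τ) ^ n`. Finally every `c ∈ K(z)` is a quotient of two elements of `B`: `c = G₁(z) / G₂(z)` with `G_i ∈ K[X]` (`IntermediateField.mem_adjoin_simple_iff`), and the coefficients become elements of
`O` after multiplication with a power of `τ`.
-/

open Polynomial IntermediateField

namespace Pool.Agent.Lib.MP_2f3286_ag.Pp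

section b1

variable {K L : Type*} [Field K] [Field L] [Algebra K L] (Q : ValuationSubring L) {τ : K}

/-- the valuation ring of the small field -/
private abbrev b1O (K : Type*) {L : Type*} [Field K] [Field L] [Algebra K L]
    (Q : ValuationSubring L) : ValuationSubring K := Q.comap (algebraMap K L)

private theorem b1_pow_nonneg {τ : K} (hτ0 : τ ≠ 0) (hτ1 : Q.valuation (algebraMap K L τ) < 1)
    {n : ℤ} (h : Q.valuation (algebraMap K L τ) ^ n ≤ 1) : 0 ≤ n := by
  by_contra hcon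
  push Not at hcon
  obtain ⟨k, hk⟩ : ∃ k : ℕ, n = -((k : ℤ) + 1) := ⟨(-n - 1).toNat, by omega⟩
  have hpos : 0 < Q.valuation (algebraMap K L τ) :=
    zero_lt_iff.2 ((Valuation.ne_zero_iff _).2 (by
      rwa [Ne, map_eq_zero]))
  have h1 : Q.valuation (algebraMap K L τ) ^ (k + 1) < 1 :=
    pow_lt_one₀ zero_le hτ1 (Nat.succ_ne_zero k)
  rw [hk, zpow_neg] at h
  have h2 : Q.valuation (algebraMap K L τ) ^ ((k : ℤ) + 1) =
      Q.valuation (algebraMap K L τ) ^ (k + 1) := by
    exact_mod_cast rfl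
  rw [h2, inv_le_one₀ (pow_pos hpos _)] at h
  exact absurd h1 (not_lt.2 h)

private theorem b1_pos {τ : K} (hτ0 : τ ≠ 0) (hτ1 : Q.valuation (algebraMap K L τ) < 1)
    {n : ℤ} (h : Q.valuation (algebraMap K L τ) ^ n < 1) : 1 ≤ n := by
  have h0 := b1_pow_nonneg Q hτ0 hτ1 h.le
  rcases h0.eq_or_lt with h1 | h1
  · rw [← h1, zpow_zero] at h
    exact absurd h (lt_irrefl _)
  · omega

private theorem b1_mem (a : K) : a ∈ b1O K Q ↔ Q.valuation (algebraMap K L a) ≤ 1 := by
  rw [Q.valuation_le_one_iff]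
  exact Iff.rfl

/-- elements of the maximal ideal are divisible by `τ` -/
private theorem b1_dvd (hτ0 : τ ≠ 0) (hτ1 : Q.valuation (algebraMap K L τ) < 1)
    (hgen : ∀ a : K, a ≠ 0 → ∃ n : ℤ,
      Q.valuation (algebraMap K L a) = Q.valuation (algebraMap K L τ) ^ n)
    (hτ : τ ∈ b1O K Q) (a : b1O K Q) (ha : Q.valuation (algebraMap K L a) < 1) :
    (⟨τ, hτ⟩ : b1O K Q) ∣ a := by
  by_cases ha0 : (a : K) = 0
  · have : a = 0 := Subtype.ext ha0
    rw [this]
    exact dvd_zero _
  obtain ⟨n, hn⟩ := hgen a ha0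
  have h1 : 1 ≤ n := b1_pos Q hτ0 hτ1 (hn ▸ ha)
  have hτv : Q.valuation (algebraMap K L τ) ≠ 0 := (Valuation.ne_zero_iff _).2 (by
      rwa [Ne, map_eq_zero])
  have h2 : (a : K) / τ ∈ b1O K Q := by
    rw [b1_mem, map_div₀, map_div₀, hn]
    have h3 : Q.valuation (algebraMap K L τ) ^ n / Q.valuation (algebraMap K L τ) =
        Q.valuation (algebraMap K L τ) ^ (n - 1) := by
      rw [zpow_sub_one₀ hτv, div_eq_mul_inv]
    rw [h3]
    obtain ⟨k, hk⟩ : ∃ k : ℕ, n - 1 = (k : ℤ) := ⟨(n - 1).toNat, by omega⟩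
    rw [hk, zpow_natCast]
    exact pow_le_one₀ zero_le hτ1.le
  refine ⟨⟨(a : K) / τ, h2⟩, Subtype.ext ?_⟩
  change (a : K) = τ * ((a : K) / τ)
  rw [mul_div_cancel₀ _ hτ0]

private theorem b1_noeth (hτ0 : τ ≠ 0) (hτ1 : Q.valuation (algebraMap K L τ) < 1)
    (hgen : ∀ a : K, a ≠ 0 → ∃ n : ℤ,
      Q.valuation (algebraMap K L a) = Q.valuation (algebraMap K L τ) ^ n) :
    IsNoetherianRing (b1O K Q) := by
  classical
  have hpir : IsPrincipalIdealRing (b1O K Q) := by
    refine ⟨fun I => ?_⟩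
    by_cases hI : I = ⊥
    · rw [hI]
      exact bot_isPrincipal
    obtain ⟨x, hx, hx0⟩ := Submodule.exists_mem_ne_zero_of_ne_bot hI
    have hnat : ∀ a : b1O K Q, a ≠ 0 → ∃ n : ℕ,
        Q.valuation (algebraMap K L a) = Q.valuation (algebraMap K L τ) ^ n := by
      intro a ha
      have ha0 : (a : K) ≠ 0 := fun h => ha (Subtype.ext h)
      obtain ⟨n, hn⟩ := hgen a ha0
      have h1 := (b1_mem Q (a : K)).1 a.2
      rw [hn] at h1
      have h2 := b1_pow_nonneg Q hτ0 hτ1 h1
      refine ⟨n.toNat, ?_⟩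
      rw [hn, ← zpow_natCast, Int.toNat_of_nonneg h2]
    have hex : ∃ n : ℕ, ∃ a ∈ I, a ≠ 0 ∧
        Q.valuation (algebraMap K L a) = Q.valuation (algebraMap K L τ) ^ n := by
      obtain ⟨n, hn⟩ := hnat x hx0
      exact ⟨n, x, hx, hx0, hn⟩
    obtain ⟨a, haI, ha0, han⟩ := Nat.find_spec hex
    have ha0' : (a : K) ≠ 0 := fun h => ha0 (Subtype.ext h)
    refine ⟨⟨a, ?_⟩⟩
    refine le_antisymm ?_ ((Submodule.span_singleton_le_iff_mem _ _).2 haI)
    intro b hb
    rw [Submodule.mem_span_singleton]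
    by_cases hb0 : b = 0
    · exact ⟨0, by rw [hb0, zero_smul]⟩
    obtain ⟨m, hm⟩ := hnat b hb0
    have hle : Nat.find hex ≤ m := Nat.find_min' hex ⟨b, hb, hb0, hm⟩
    have h3 : (b : K) / a ∈ b1O K Q := by
      have hav : Q.valuation (algebraMap K L (a : K)) ≠ 0 := (Valuation.ne_zero_iff _).2 (by
        rwa [Ne, map_eq_zero])
      rw [b1_mem, map_div₀, map_div₀, div_le_one₀ (zero_lt_iff.2 hav), hm, han]
      obtain ⟨k, hk⟩ : ∃ k, m = Nat.find hex + k := ⟨m - Nat.find hex, by omega⟩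
      rw [hk, pow_add]
      exact mul_le_of_le_one_right' (pow_le_one₀ zero_le hτ1.le)
    refine ⟨⟨(b : K) / a, h3⟩, Subtype.ext ?_⟩
    change ((b : K) / a) * a = b
    rw [div_mul_cancel₀ _ ha0']
  infer_instance

/-- evaluation at `z` -/
private noncomputable def b1ev (K : Type*) {L : Type*} [Field K] [Field L] [Algebra K L]
    (Q : ValuationSubring L) (z : L) : (b1O K Q)[X] →+* L :=
  eval₂RingHom ((algebraMap K L).comp (b1O K Q).subtype) z

private theorem b1ev_map (z : L) (G : (b1O K Q)[X]) :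
    b1ev K Q z G = aeval z (G.map (b1O K Q).subtype) := by
  unfold b1ev
  rw [aeval_def, eval₂_map]
  rfl

private theorem b1ev_C (z : L) (a : b1O K Q) : b1ev K Q z (C a) = algebraMap K L a := by
  unfold b1ev
  rw [coe_eval₂RingHom, eval₂_C]
  rfl

private theorem b1ev_X (z : L) : b1ev K Q z X = z := by
  unfold b1ev
  rw [coe_eval₂RingHom, eval₂_X]

private theorem b1ev_mem {z : L} (hz : z ∈ Q) (G : (b1O K Q)[X]) : b1ev K Q z G ∈ Q := by
  induction G using Polynomial.induction_on' with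
  | add p q hp hq =>
    rw [map_add]
    exact Q.add_mem _ _ hp hq
  | monomial n a =>
    rw [← C_mul_X_pow_eq_monomial, map_mul, map_pow, b1ev_C, b1ev_X]
    refine Q.mul_mem _ _ ?_ ?_
    · exact a.2
    · exact pow_mem hz n

private theorem b1_z_mem {z : L} (P : K[X]) (hP : P.Monic) (hPi : ∀ i, algebraMap K L (P.coeff i) ∈ Q)
    (hz : aeval z P = 0) : z ∈ Q := by
  by_contra hcon
  have hz1 : 1 < Q.valuation z := by
    rw [← not_le, Q.valuation_le_one_iff]
    exact hcon
  have hz0 : z ≠ 0 := by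
    rintro rfl
    exact hcon Q.zero_mem
  rw [aeval_def, eval₂_eq_sum_range, Finset.sum_range_succ, hP.coeff_natDegree, map_one,
    one_mul] at hz
  have h1 : Q.valuation (z ^ P.natDegree) =
      Q.valuation (∑ i ∈ Finset.range P.natDegree, algebraMap K L (P.coeff i) * z ^ i) := by
    rw [eq_neg_of_add_eq_zero_right hz, Valuation.map_neg]
  have h2 : Q.valuation (∑ i ∈ Finset.range P.natDegree, algebraMap K L (P.coeff i) * z ^ i) <
      Q.valuation (z ^ P.natDegree) := by
    refine Valuation.map_sum_lt _ ?_ ?_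
    · exact (Valuation.ne_zero_iff _).2 (pow_ne_zero _ hz0)
    · intro i hi
      have hi' := Finset.mem_range.1 hi
      rw [map_mul, map_pow, map_pow]
      have h3 : Q.valuation (algebraMap K L (P.coeff i)) ≤ 1 := (Q.valuation_le_one_iff _).2 (hPi i)
      calc Q.valuation (algebraMap K L (P.coeff i)) * Q.valuation z ^ i
          ≤ 1 * Q.valuation z ^ i := mul_le_mul_left h3 _
        _ = Q.valuation z ^ i := one_mul _
        _ < Q.valuation z ^ P.natDegree := pow_lt_pow_right₀ hz1 hi'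
  rw [← h1] at h2
  exact lt_irrefl _ h2

/-- small values force small coefficients below the degree of `h` -/
private theorem b1_small {z : L} (hzQ : z ∈ Q) (h : (b1O K Q)[X])
    (hmin : ∀ h' : (b1O K Q)[X], h'.Monic → Q.valuation (b1ev K Q z h') < 1 →
      h.natDegree ≤ h'.natDegree) :
    ∀ n : ℕ, n ≤ h.natDegree → ∀ R : (b1O K Q)[X], (∀ i, n ≤ i → R.coeff i = 0) →
      Q.valuation (b1ev K Q z R) < 1 → ∀ i, Q.valuation (algebraMap K L (R.coeff i : K)) < 1 := by
  intro n
  induction n with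
  | zero =>
    intro _ R hR _ i
    rw [hR i (Nat.zero_le i)]
    simp
  | succ n ih =>
    intro hn R hR hv i
    have hvz : Q.valuation z ≤ 1 := (Q.valuation_le_one_iff z).2 hzQ
    rcases lt_or_eq_of_le ((b1_mem Q ((R.coeff n : b1O K Q) : K)).1 (R.coeff n).2) with ha | ha
    · have hR' : ∀ j, n ≤ j → (R - monomial n (R.coeff n)).coeff j = 0 := by
        intro j hj
        rw [coeff_sub, coeff_monomial]
        rcases hj.eq_or_lt with h1 | h1
        · rw [if_pos h1, ← h1, sub_self]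
        · rw [if_neg h1.ne, hR j h1, sub_zero]
      have hv' : Q.valuation (b1ev K Q z (R - monomial n (R.coeff n))) < 1 := by
        rw [map_sub]
        refine Valuation.map_sub_lt _ hv ?_
        rw [← C_mul_X_pow_eq_monomial, map_mul, map_pow, b1ev_C, b1ev_X, map_mul, map_pow]
        exact mul_lt_one_of_lt_of_le ha (pow_le_one₀ zero_le hvz)
      have h2 := ih (by omega) _ hR' hv' i
      rw [coeff_sub, coeff_monomial] at h2
      by_cases h3 : n = i
      · rw [← h3]
        exact ha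
      · rw [if_neg h3, sub_zero] at h2
        exact h2
    · exfalso
      have ha0 : ((R.coeff n : b1O K Q) : K) ≠ 0 := by
        intro h0
        rw [h0, map_zero, map_zero] at ha
        exact zero_ne_one ha
      have hu : ((R.coeff n : b1O K Q) : K)⁻¹ ∈ b1O K Q := by
        rw [b1_mem, map_inv₀, map_inv₀, ha, inv_one]
      obtain ⟨u, hu'⟩ : ∃ u : b1O K Q, u = ⟨((R.coeff n : b1O K Q) : K)⁻¹, hu⟩ := ⟨_, rfl⟩
      have hua : u * R.coeff n = 1 := by
        rw [hu']
        exact Subtype.ext (inv_mul_cancel₀ ha0)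
      have hco : (C u * R).coeff n = 1 := by rw [coeff_C_mul, hua]
      have hz' : ∀ j, n < j → (C u * R).coeff j = 0 := by
        intro j hj
        rw [coeff_C_mul, hR j hj, mul_zero]
      have hdeg : (C u * R).natDegree ≤ n := by
        rw [natDegree_le_iff_coeff_eq_zero]
        exact fun j hj => hz' j hj
      have hmon : (C u * R).Monic := monic_of_natDegree_le_of_coeff_eq_one n hdeg hco
      have hval : Q.valuation (b1ev K Q z (C u * R)) < 1 := by
        rw [map_mul, map_mul, b1ev_C]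
        exact mul_lt_one_of_nonneg_of_lt_one_right ((b1_mem Q (u : K)).1 u.2) zero_le hv
      have := hmin _ hmon hval
      omega

theorem unr_val {K L : Type*} [Field K] [Field L] [Algebra K L] (Q : ValuationSubring L) {τ : K}
    (hτ0 : τ ≠ 0) (hτ1 : Q.valuation (algebraMap K L τ) < 1)
    (hgen : ∀ a : K, a ≠ 0 → ∃ n : ℤ,
      Q.valuation (algebraMap K L a) = Q.valuation (algebraMap K L τ) ^ n)
    {z : L} (P : K[X]) (hP : P.Monic) (hPi : ∀ i, algebraMap K L (P.coeff i) ∈ Q)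
    (hz : aeval z P = 0) (hd : Q.valuation (aeval z (derivative P)) = 1) {c : L}
    (hc : c ∈ IntermediateField.adjoin K {z}) (hc0 : c ≠ 0) :
    ∃ n : ℤ, Q.valuation c = Q.valuation (algebraMap K L τ) ^ n := by
  have hzQ : z ∈ Q := b1_z_mem Q P hP hPi hz
  have hτ : τ ∈ b1O K Q := (b1_mem Q τ).2 hτ1.le
  have hτv : Q.valuation (algebraMap K L τ) ≠ 0 := (Valuation.ne_zero_iff _).2 (by
      rwa [Ne, map_eq_zero])
  have hle : ∀ G : (b1O K Q)[X], Q.valuation (b1ev K Q z G) ≤ 1 := fun G =>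
    (Q.valuation_le_one_iff _).2 (b1ev_mem Q hzQ G)
  -- lift `P`
  obtain ⟨P', hP1, -, hP3⟩ := lifts_and_natDegree_eq_and_monic (f := (b1O K Q).subtype)
    ((lifts_iff_coeff_lifts P).2 fun i => ⟨⟨P.coeff i, hPi i⟩, rfl⟩) hP
  have hPz : b1ev K Q z P' = 0 := by rw [b1ev_map, hP1, hz]
  have hdz : Q.valuation (b1ev K Q z (derivative P')) = 1 := by
    rw [b1ev_map, ← derivative_map, hP1, hd]
  -- the polynomial `h`
  obtain ⟨h, ⟨hm, hv⟩, hmin0⟩ := WellFounded.has_min
    (measure (fun h : (b1O K Q)[X] => h.natDegree)).wf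
    {h : (b1O K Q)[X] | h.Monic ∧ Q.valuation (b1ev K Q z h) < 1}
    ⟨P', hP3, by rw [hPz, map_zero]; exact zero_lt_one⟩
  have hmin : ∀ h' : (b1O K Q)[X], h'.Monic → Q.valuation (b1ev K Q z h') < 1 →
      h.natDegree ≤ h'.natDegree := by
    intro h' h1 h2
    exact not_lt.1 (hmin0 h' ⟨h1, h2⟩)
  -- division by `h`
  have hdiv : ∀ G : (b1O K Q)[X], Q.valuation (b1ev K Q z G) < 1 → ∃ A : (b1O K Q)[X],
      G = C ⟨τ, hτ⟩ * A + h * (G /ₘ h) := by
    intro G hG
    have hR : ∀ i, h.natDegree ≤ i → (G %ₘ h).coeff i = 0 := by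
      intro i hi
      refine coeff_eq_zero_of_degree_lt ?_
      refine (degree_modByMonic_lt G hm).trans_le ?_
      rw [degree_eq_natDegree hm.ne_zero]
      exact_mod_cast hi
    have e := modByMonic_add_div G h
    have hvR : Q.valuation (b1ev K Q z (G %ₘ h)) < 1 := by
      have e1 : G %ₘ h = G - h * (G /ₘ h) := eq_sub_of_add_eq e
      rw [e1, map_sub, map_mul]
      refine Valuation.map_sub_lt _ hG ?_
      rw [map_mul]
      exact mul_lt_one_of_lt_of_le hv (hle _)
    have hsm := b1_small Q hzQ h hmin h.natDegree le_rfl (G %ₘ h) hR hvR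
    have hdvd : C (⟨τ, hτ⟩ : b1O K Q) ∣ G %ₘ h := by
      rw [C_dvd_iff_dvd_coeff]
      exact fun i => b1_dvd Q hτ0 hτ1 hgen hτ _ (hsm i)
    obtain ⟨A, hA⟩ := hdvd
    exact ⟨A, by rw [← hA]; exact e.symm⟩
  obtain ⟨A, hA⟩ := hdiv P' (by rw [hPz, map_zero]; exact zero_lt_one)
  obtain ⟨g, hg⟩ : ∃ g, g = P' /ₘ h := ⟨_, rfl⟩
  rw [← hg] at hA
  have hgv : Q.valuation (b1ev K Q z g) = 1 := by
    refine le_antisymm (hle g) ?_
    by_contra hcon
    rw [not_le] at hcon
    have e1 : derivative P' = C ⟨τ, hτ⟩ * derivative A + (derivative h * g + h * derivative g) := by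
      conv_lhs => rw [hA]
      rw [derivative_add, derivative_mul, derivative_mul, derivative_C, zero_mul, zero_add]
    have h2 : Q.valuation (b1ev K Q z (derivative P')) < 1 := by
      have e2 : b1ev K Q z (derivative P') = b1ev K Q z (C ⟨τ, hτ⟩) * b1ev K Q z (derivative A) +
          (b1ev K Q z (derivative h) * b1ev K Q z g +
            b1ev K Q z h * b1ev K Q z (derivative g)) := by
        rw [e1]
        simp only [map_add, map_mul]
      rw [e2]
      refine Valuation.map_add_lt _ ?_ (Valuation.map_add_lt _ ?_ ?_)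
      · rw [map_mul, b1ev_C]
        exact mul_lt_one_of_lt_of_le hτ1 (hle _)
      · rw [map_mul]
        exact mul_lt_one_of_nonneg_of_lt_one_right (hle _) zero_le hcon
      · rw [map_mul]
        exact mul_lt_one_of_lt_of_le hv (hle _)
    rw [hdz] at h2
    exact lt_irrefl _ h2
  -- the ring `B`
  have := b1_noeth Q hτ0 hτ1 hgen
  have hB : ∀ b : (b1ev K Q z).range, (b1ev K Q z).range.subtype b ∈ Q := by
    rintro ⟨b, G, rfl⟩
    exact b1ev_mem Q hzQ G
  let t : (b1ev K Q z).range := ⟨algebraMap K L τ, C ⟨τ, hτ⟩, b1ev_C Q z _⟩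
  have hkey : ∀ G : (b1O K Q)[X], b1ev K Q z G ≠ 0 → ∃ n : ℕ,
      Q.valuation (b1ev K Q z G) = Q.valuation (algebraMap K L τ) ^ n := by
    intro G hG0
    refine Gl.dv (B := (b1ev K Q z).range) (b1ev K Q z).range.subtype Subtype.val_injective Q hB
      (t := t) hτ1 ?_ (b := ⟨b1ev K Q z G, G, rfl⟩) (fun h => hG0 (congrArg Subtype.val h))
    rintro ⟨b, G, rfl⟩ hb
    obtain ⟨A', hA'⟩ := hdiv G hb
    refine ⟨⟨b1ev K Q z g, g, rfl⟩, ⟨b1ev K Q z (g * A' - A * (G /ₘ h)), _, rfl⟩, hgv, ?_⟩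
    apply Subtype.ext
    change b1ev K Q z g * b1ev K Q z G = algebraMap K L τ * b1ev K Q z (g * A' - A * (G /ₘ h))
    have e1 : b1ev K Q z P' = algebraMap K L τ * b1ev K Q z A + b1ev K Q z h * b1ev K Q z g := by
      conv_lhs => rw [hA]
      rw [map_add, map_mul, map_mul, b1ev_C]
    rw [hPz] at e1
    have e2 : b1ev K Q z G = algebraMap K L τ * b1ev K Q z A' +
        b1ev K Q z h * b1ev K Q z (G /ₘ h) := by
      conv_lhs => rw [hA']
      rw [map_add, map_mul, map_mul, b1ev_C]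
    rw [e2, map_sub, map_mul, map_mul]
    linear_combination (-(b1ev K Q z (G /ₘ h))) * e1
  -- all polynomials over `K`
  have hscale : ∀ r : K[X], ∃ (N : ℕ) (G : (b1O K Q)[X]),
      G.map (b1O K Q).subtype = C (τ ^ N) * r := by
    intro r
    induction r using Polynomial.induction_on' with
    | add p q hp hq =>
      obtain ⟨N1, G1, h1⟩ := hp
      obtain ⟨N2, G2, h2⟩ := hq
      refine ⟨N1 + N2, C (⟨τ, hτ⟩ ^ N2) * G1 + C (⟨τ, hτ⟩ ^ N1) * G2, ?_⟩
      have e1 : ∀ N : ℕ, (b1O K Q).subtype ((⟨τ, hτ⟩ : b1O K Q) ^ N) = τ ^ N := by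
        intro N
        rw [map_pow]
        rfl
      rw [Polynomial.map_add, Polynomial.map_mul, Polynomial.map_mul, map_C, map_C, e1, e1, h1, h2,
        pow_add, C_mul]
      ring
    | monomial n a =>
      by_cases ha : a = 0
      · exact ⟨0, 0, by simp [ha]⟩
      obtain ⟨m, hm1⟩ := hgen a ha
      have h3 : τ ^ m.natAbs * a ∈ b1O K Q := by
        rw [b1_mem, map_mul, map_mul, map_pow, map_pow, hm1, ← zpow_natCast, ← zpow_add₀ hτv]
        obtain ⟨k, hk⟩ : ∃ k : ℕ, (m.natAbs : ℤ) + m = (k : ℤ) :=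
          ⟨((m.natAbs : ℤ) + m).toNat, by omega⟩
        rw [hk, zpow_natCast]
        exact pow_le_one₀ zero_le hτ1.le
      refine ⟨m.natAbs, monomial n ⟨τ ^ m.natAbs * a, h3⟩, ?_⟩
      rw [map_monomial, C_mul_monomial]
      rfl
  have hall : ∀ r : K[X], aeval z r ≠ 0 → ∃ n : ℤ,
      Q.valuation (aeval z r) = Q.valuation (algebraMap K L τ) ^ n := by
    intro r hr
    obtain ⟨N, G, hG⟩ := hscale r
    have e1 : b1ev K Q z G = algebraMap K L τ ^ N * aeval z r := by
      rw [b1ev_map, hG, map_mul, aeval_C, map_pow]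
    have hτL : algebraMap K L τ ≠ 0 := by rwa [Ne, map_eq_zero]
    obtain ⟨n, hn⟩ := hkey G (by rw [e1]; exact mul_ne_zero (pow_ne_zero _ hτL) hr)
    rw [e1, map_mul, map_pow] at hn
    refine ⟨(n : ℤ) - N, ?_⟩
    rw [zpow_sub₀ hτv, zpow_natCast, zpow_natCast, ← hn,
      mul_div_cancel_left₀ _ (pow_ne_zero _ hτv)]
  obtain ⟨r, s, rfl⟩ := (IntermediateField.mem_adjoin_simple_iff K c).1 hc
  have hr : aeval z r ≠ 0 := by
    intro h0
    rw [h0, zero_div] at hc0
    exact hc0 rfl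
  have hs : aeval z s ≠ 0 := by
    intro h0
    rw [h0, div_zero] at hc0
    exact hc0 rfl
  obtain ⟨n1, h1⟩ := hall r hr
  obtain ⟨n2, h2⟩ := hall s hs
  exact ⟨n1 - n2, by rw [map_div₀, h1, h2, zpow_sub₀ hτv]⟩

end b1

end Pool.Agent.Lib.MP_2f3286_ag.Pp
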