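import Pool.Agent.Lib.MP_2f3286_ag.Pp.BR2
import Pool.Agent.Lib.MP_2f3286_ag.Pt.Ex2
import Pool.Agent.Lib.MP_2f3286_ag.Pt.Cof

/-!
# The places of a function field   (module B2)

PROOF of `ff_val`. `Q₁ = Q.comap (algebraMap E M)`, a place of `E` over `C` (`Q₁ ≠ ⊤` by `hne`). `Pt.Ex2.exists_val` (`FF E`): a valuation `v : Valuation E ℤᵐ⁰` with `Q₁ = v.valuationSubring`, `v ϖ = exp (-1)`, and residues in `C`. For `a ≠ 0`,
`v a = exp (-n) = v (ϖ ^ n)`, so `a / ϖ ^ n` and its inverse are in `Q₁`, so in `Q`. `v (a - c) < 1` means `a = c` or `(a - c)⁻¹ ∉ Q₁`.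
PROOF of `ff_fin`. `{Q₁ : ValuationSubring E | C ⊆ Q₁, Q₁.valuation f ≠ 1}` is finite: `Pt.Cof.finite_notMem` for `f` and for `f⁻¹` (`v f ≠ 1` means `f ∉ Q₁` or `f⁻¹ ∉ Q₁`). For each such `Q₁` (it is not `⊤`) take `ϖ` as above.
-/

open Polynomial IntermediateField

namespace Pool.Agent.Lib.MP_2f3286_ag.Pp

open Pool.Agent.Lib.MP_2f3286_ag.Pt (DivAt IsPlc)
open Pool.Agent.Lib.MP_2f3286_ag

variable {C M : Type*} [Field C] [IsAlgClosed C] [CharZero C] [Field M] [Algebra C M]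
  {E : IntermediateField C M} {p : ℕ}

private theorem b2_one {K : Type*} [Field K] (A : ValuationSubring K) {x : K} (hx0 : x ≠ 0)
    (hx : x ∈ A) (hx' : x⁻¹ ∈ A) : A.valuation x = 1 := by
  have h1 := (A.valuation_le_one_iff x).2 hx
  have h2 := (A.valuation_le_one_iff x⁻¹).2 hx'
  rw [map_inv₀, inv_le_one₀ (zero_lt_iff.2 ((Valuation.ne_zero_iff _).2 hx0))] at h2
  exact le_antisymm h1 h2

private theorem b2_lt {K : Type*} [Field K] (A : ValuationSubring K) {x : K}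
    (hx : x = 0 ∨ x⁻¹ ∉ A) : A.valuation x < 1 := by
  rcases hx with rfl | hx
  · rw [map_zero]
    exact zero_lt_one
  · by_cases h0 : x = 0
    · rw [h0, map_zero]
      exact zero_lt_one
    · have h1 : A.valuation x ≠ 0 := (Valuation.ne_zero_iff _).2 h0
      rw [← A.valuation_le_one_iff, map_inv₀, inv_le_one₀ (zero_lt_iff.mpr h1), not_le] at hx
      exact hx

/-- the uniformizer of a place of the function field `E` -/
private theorem b2_core (hE : FF E) (P : ValuationSubring E)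
    (hP : ∀ a : C, algebraMap C E a ∈ P) (hne : P ≠ ⊤) :
    ∃ ϖ : E, ϖ ≠ 0 ∧ ϖ⁻¹ ∉ P ∧
      (∀ a : E, a ≠ 0 → ∃ n : ℤ, a * (ϖ ^ n)⁻¹ ∈ P ∧ (a * (ϖ ^ n)⁻¹)⁻¹ ∈ P) ∧
      ∀ a : E, a ∈ P → ∃ c : C, a - algebraMap C E c = 0 ∨ (a - algebraMap C E c)⁻¹ ∉ P := by
  obtain ⟨t, ht, hf⟩ := hE
  obtain ⟨v, hv, ⟨ϖ, hϖ⟩, hres⟩ := Pt.Ex2.exists_val t ht P hP hne
  have hmem : ∀ x : E, x ∈ P ↔ v x ≤ 1 := fun x => by rw [hv]; rfl
  have hϖ0 : ϖ ≠ 0 := by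
    rintro rfl
    rw [map_zero] at hϖ
    exact WithZero.exp_ne_zero hϖ.symm
  refine ⟨ϖ, hϖ0, ?_, ?_, ?_⟩
  · rw [hmem, map_inv₀, hϖ, ← WithZero.exp_neg, not_le, ← WithZero.exp_zero, WithZero.exp_lt_exp]
    norm_num
  · intro a ha
    have hva : v a ≠ 0 := (Valuation.ne_zero_iff _).2 ha
    refine ⟨-(WithZero.log (v a)), ?_⟩
    have h1 : v (a * (ϖ ^ (-(WithZero.log (v a))))⁻¹) = 1 := by
      rw [map_mul, map_inv₀, map_zpow₀, hϖ, ← WithZero.exp_zsmul]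
      have e : (-(WithZero.log (v a))) • (-1 : ℤ) = WithZero.log (v a) := by simp
      rw [e, WithZero.exp_log hva, mul_inv_cancel₀ hva]
    constructor
    · rw [hmem, h1]
    · rw [hmem, map_inv₀, h1, inv_one]
  · intro a ha
    obtain ⟨c, hc⟩ := hres a ((hmem a).1 ha)
    refine ⟨c, ?_⟩
    by_cases h0 : a - algebraMap C E c = 0
    · exact Or.inl h0
    · right
      rw [hmem, map_inv₀, not_le]
      exact one_lt_inv_iff₀.2 ⟨zero_lt_iff.2 ((Valuation.ne_zero_iff _).2 h0), hc⟩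

private theorem b2_trans {Q : ValuationSubring M} {P : ValuationSubring E}
    (hPQ : ∀ x : E, x ∈ P ↔ (x : M) ∈ Q) {ϖ : E} (h0 : ϖ ≠ 0) (h1 : ϖ⁻¹ ∉ P)
    (h2 : ∀ a : E, a ≠ 0 → ∃ n : ℤ, a * (ϖ ^ n)⁻¹ ∈ P ∧ (a * (ϖ ^ n)⁻¹)⁻¹ ∈ P) :
    (ϖ : M) ≠ 0 ∧ Q.valuation (ϖ : M) < 1 ∧
      ∀ a ∈ E, a ≠ 0 → ∃ n : ℤ, Q.valuation a = Q.valuation (ϖ : M) ^ n := by
  have h0' : (ϖ : M) ≠ 0 := by
    intro h
    exact h0 (Subtype.ext h)
  refine ⟨h0', b2_lt Q (Or.inr ?_), ?_⟩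
  · intro h
    exact h1 ((hPQ _).2 (by simpa using h))
  · intro a ha ha0
    obtain ⟨n, hn1, hn2⟩ := h2 ⟨a, ha⟩ (fun h => ha0 (congrArg Subtype.val h))
    refine ⟨n, ?_⟩
    have hn1' := (hPQ _).1 hn1
    have hn2' := (hPQ _).1 hn2
    have e1 : (((⟨a, ha⟩ : E) * (ϖ ^ n)⁻¹ : E) : M) = a * ((ϖ : M) ^ n)⁻¹ := by
      push_cast
      rfl
    have e2 : ((((⟨a, ha⟩ : E) * (ϖ ^ n)⁻¹)⁻¹ : E) : M) = (a * ((ϖ : M) ^ n)⁻¹)⁻¹ := by
      push_cast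
      rfl
    rw [e1] at hn1'
    rw [e2] at hn2'
    have hz : (ϖ : M) ^ n ≠ 0 := zpow_ne_zero n h0'
    have h3 := b2_one Q (mul_ne_zero ha0 (inv_ne_zero hz)) hn1' hn2'
    rw [map_mul, map_inv₀, map_zpow₀] at h3
    have hz' : Q.valuation (ϖ : M) ^ n ≠ 0 :=
      zpow_ne_zero n ((Valuation.ne_zero_iff _).2 h0')
    exact eq_of_div_eq_one (by rw [div_eq_mul_inv]; exact h3)

private theorem b2_comap (Q : ValuationSubring M) (x : E) :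
    x ∈ Q.comap (algebraMap E M) ↔ (x : M) ∈ Q := Iff.rfl

theorem ff_val (hE : FF E) (Q : ValuationSubring M) (hQ : ∀ a : C, algebraMap C M a ∈ Q)
    (hne : ∃ f ∈ E, f ∉ Q) :
    (∃ τ ∈ E, τ ≠ 0 ∧ Q.valuation τ < 1 ∧
      ∀ a ∈ E, a ≠ 0 → ∃ n : ℤ, Q.valuation a = Q.valuation τ ^ n) ∧
    ∀ a ∈ E, a ∈ Q → ∃ c : C, Q.valuation (a - algebraMap C M c) < 1 := by
  have hPC : ∀ a : C, algebraMap C E a ∈ Q.comap (algebraMap E M) := fun a => hQ a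
  have hPt : Q.comap (algebraMap E M) ≠ ⊤ := by
    obtain ⟨f, hf, hfQ⟩ := hne
    intro h
    have h1 : (⟨f, hf⟩ : E) ∈ Q.comap (algebraMap E M) := by
      rw [h]
      exact ValuationSubring.mem_top _
    exact hfQ ((b2_comap Q _).1 h1)
  obtain ⟨ϖ, h0, h1, h2, h3⟩ := b2_core hE _ hPC hPt
  obtain ⟨g0, g1, g2⟩ := b2_trans (b2_comap Q) h0 h1 h2
  refine ⟨⟨(ϖ : M), ϖ.2, g0, g1, g2⟩, ?_⟩
  intro a ha haQ
  obtain ⟨c, hc⟩ := h3 ⟨a, ha⟩ ((b2_comap Q _).2 haQ)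
  refine ⟨c, b2_lt Q ?_⟩
  rcases hc with hc | hc
  · left
    have := congrArg Subtype.val hc
    simpa using this
  · right
    intro h
    refine hc ((b2_comap Q _).2 ?_)
    have e : (((⟨a, ha⟩ : E) - algebraMap C E c)⁻¹ : E) = ((a - algebraMap C M c)⁻¹ : M) := by
      push_cast
      rfl
    rw [e]
    exact h

theorem ff_fin (hE : FF E) {f : M} (hf : f ∈ E) (hf0 : f ≠ 0) :
    ∃ T : Finset M, (∀ τ ∈ T, τ ∈ E) ∧ ∀ Q : ValuationSubring M, (∀ a : C, algebraMap C M a ∈ Q) →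
      Q.valuation f ≠ 1 → ∃ τ ∈ T, τ ≠ 0 ∧ Q.valuation τ < 1 ∧
        ∀ a ∈ E, a ≠ 0 → ∃ n : ℤ, Q.valuation a = Q.valuation τ ^ n := by
  classical
  have hE' := hE
  obtain ⟨t, ht, hfd⟩ := hE'
  have f1 := Pt.Cof.finite_notMem (C := C) t ht (⟨f, hf⟩ : E)
  have f2 := Pt.Cof.finite_notMem (C := C) t ht (⟨f, hf⟩ : E)⁻¹
  have hch : ∀ P : ValuationSubring E, ∃ ϖ : E, ((∀ a : C, algebraMap C E a ∈ P) → P ≠ ⊤ →
      ϖ ≠ 0 ∧ ϖ⁻¹ ∉ P ∧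
      (∀ a : E, a ≠ 0 → ∃ n : ℤ, a * (ϖ ^ n)⁻¹ ∈ P ∧ (a * (ϖ ^ n)⁻¹)⁻¹ ∈ P)) := by
    intro P
    by_cases h : (∀ a : C, algebraMap C E a ∈ P) ∧ P ≠ ⊤
    · obtain ⟨ϖ, h0, h1, h2, -⟩ := b2_core hE P h.1 h.2
      exact ⟨ϖ, fun _ _ => ⟨h0, h1, h2⟩⟩
    · exact ⟨0, fun h1 h2 => absurd ⟨h1, h2⟩ h⟩
  choose w hw using hch
  refine ⟨(f1.toFinset ∪ f2.toFinset).image (fun P => (w P : M)), ?_, ?_⟩
  · intro τ hτ
    obtain ⟨P, -, rfl⟩ := Finset.mem_image.1 hτ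
    exact (w P).2
  · intro Q hQ hQf
    have hPC : ∀ a : C, algebraMap C E a ∈ Q.comap (algebraMap E M) := fun a => hQ a
    have hor : (⟨f, hf⟩ : E) ∉ Q.comap (algebraMap E M) ∨
        (⟨f, hf⟩ : E)⁻¹ ∉ Q.comap (algebraMap E M) := by
      by_contra hcon
      push Not at hcon
      refine hQf (b2_one Q hf0 ((b2_comap Q _).1 hcon.1) ?_)
      have := (b2_comap Q _).1 hcon.2
      have e : (((⟨f, hf⟩ : E)⁻¹ : E) : M) = f⁻¹ := by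
        push_cast
        rfl
      rw [e] at this
      exact this
    have hPt : Q.comap (algebraMap E M) ≠ ⊤ := by
      intro h
      rw [h] at hor
      rcases hor with h1 | h1
      · exact h1 (ValuationSubring.mem_top _)
      · exact h1 (ValuationSubring.mem_top _)
    obtain ⟨h0, h1, h2⟩ := hw _ hPC hPt
    obtain ⟨g0, g1, g2⟩ := b2_trans (b2_comap Q) h0 h1 h2
    refine ⟨_, Finset.mem_image.2 ⟨Q.comap (algebraMap E M), ?_, rfl⟩, g0, g1, g2⟩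
    rw [Finset.mem_union, Set.Finite.mem_toFinset, Set.Finite.mem_toFinset]
    rcases hor with h3 | h3
    · exact Or.inl ⟨hPC, h3⟩
    · exact Or.inr ⟨hPC, h3⟩

end Pool.Agent.Lib.MP_2f3286_ag.Pp
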