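import Pool.Agent.Lib.MP_2f3286_ag.Pp.B1
import Pool.Agent.Lib.MP_2f3286_ag.Pp.B2

/-!
# Unramified steps   (module B3)

PROOF of `val_step`. If `E ⊆ Q`: every element of `Ex E β` is algebraic over `E` (`β ^ p ∈ E`), so in `Q` (`Pt.Ex1.alg_mem` with constants `E`), also `c⁻¹`, so `Q(c) = 1`, take `a = 1`. Otherwise `ff_val`: `τ`. `hd Q`: `a ∈ E`, `a ≠ 0`,
`Q(β ^ p (a ^ p)⁻¹) = 1`. Let `z = β / a`, `u = z ^ p ∈ E`, `Q(u) = 1`, `Ex E β = E(z)` (as a subfield of `M`: elements of `Ex E β` are in `IntermediateField.adjoin E {z}`; `IntermediateField.restrictScalars`, or `sup_le`: both `E` and `β` are in the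
restriction of scalars of `adjoin E {z}`). `unr_val` with `K = E`, `L = M`, `P = X ^ p - u`, `P'(z) = p z ^ (p - 1)`, `Q(p) = 1` as `p ≠ 0` is a constant (characteristic zero), `Q(z) = 1`. So `Q(c) = Q(τ) ^ n = Q(τ ^ n)`.
PROOF of `desc`. In `DivE m (Ex E β) g` replace `c ∈ Ex E β` by `a ∈ E` with the same valuation.
PROOF of `ff_step`. `t` for `E`; `E` is finite over `C(t)` and `Ex E β` is finite over `E` (generated by `β`, integral over `E`), so `Ex E β` is finite over `C(t)` (`FiniteDimensional.trans`; the algebra structures: `IntermediateField.adjoin C {t}` with `t : E`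
and with `t : Ex E β` are isomorphic; it may be easier to use a criterion: `Ex E β` is contained in the span of finitely many elements over the subfield `adjoin C {(t : M)}` of `M`: see `Pt.Cof.finDim`; or transport with
`IntermediateField.algebraAdjoin...`).
PROOF of `pre_step`. `A.g` maps `E` onto `E`, constants onto constants and fixes `β`. `{f | A.g f ∈ Ex E β}` is an intermediate field (`Subfield.comap`) which contains `C`, `E`, `β`; the same for `A.g.symm`.
-/

open Polynomial IntermediateField

namespace Pool.Agent.Lib.MP_2f3286_ag.Pp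

open Pool.Agent.Lib.MP_2f3286_ag.Pt (DivAt IsPlc)

variable {C M : Type*} [Field C] [IsAlgClosed C] [CharZero C] [Field M] [Algebra C M]
  {E : IntermediateField C M} {p : ℕ}

omit [IsAlgClosed C] [CharZero C] in
private theorem ex_le {β z : M} (hz : β ∈ IntermediateField.adjoin E {z}) {x : M}
    (hx : x ∈ Ex E β) : x ∈ IntermediateField.adjoin E {z} := by
  have h : Ex E β ≤ (IntermediateField.adjoin E {z}).restrictScalars C := by
    refine sup_le ?_ ?_
    · intro y hy
      rw [IntermediateField.mem_restrictScalars]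
      exact IntermediateField.algebraMap_mem _ (⟨y, hy⟩ : E)
    · rw [IntermediateField.adjoin_simple_le_iff, IntermediateField.mem_restrictScalars]
      exact hz
  exact (IntermediateField.mem_restrictScalars C).1 (h hx)

omit [IsAlgClosed C] [CharZero C] in
private theorem int_pow (hp : p ≠ 0) {z : M} (hz : z ^ p ∈ E) : IsIntegral E z := by
  refine ⟨X ^ p - Polynomial.C ⟨z ^ p, hz⟩, monic_X_pow_sub_C _ hp, ?_⟩
  rw [eval₂_sub, eval₂_X_pow, eval₂_C]
  exact sub_self _

theorem val_step (hp : p.Prime) (hE : FF E) {β : M} (hβ : β ^ p ∈ E) (hd : DivE p E (β ^ p))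
    (Q : ValuationSubring M) (hQ : ∀ a : C, algebraMap C M a ∈ Q) {c : M} (hc : c ∈ Ex E β)
    (hc0 : c ≠ 0) : ∃ a ∈ E, a ≠ 0 ∧ Q.valuation c = Q.valuation a := by
  by_cases hEQ : ∀ f ∈ E, f ∈ Q
  · refine ⟨1, one_mem _, one_ne_zero, ?_⟩
    have hint : IsIntegral E β := int_pow hp.ne_zero hβ
    have halg := IntermediateField.isAlgebraic_adjoin_simple hint
    have hmem : ∀ x ∈ Ex E β, x ∈ Q := by
      intro x hx
      have hx' : x ∈ IntermediateField.adjoin E {β} :=
        ex_le (IntermediateField.mem_adjoin_simple_self E β) hx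
      refine Pt.Ex1.alg_mem Q (fun a : E => hEQ a a.2) x ?_
      have := halg.isAlgebraic (⟨x, hx'⟩ : IntermediateField.adjoin E {β})
      exact this.algebraMap
    rw [map_one]
    refine le_antisymm ((Q.valuation_le_one_iff _).2 (hmem c hc)) ?_
    have h1 := (Q.valuation_le_one_iff _).2 (hmem c⁻¹ (inv_mem hc))
    rw [map_inv₀] at h1
    exact (inv_le_one₀ (zero_lt_iff.2 ((Valuation.ne_zero_iff _).2 hc0))).1 h1
  · push Not at hEQ
    obtain ⟨⟨τ, hτE, hτ0, hτ1, hgen⟩, _⟩ := ff_val hE Q hQ hEQ
    obtain ⟨a, haE, ha0, hav⟩ := hd Q hQ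
    have hzp : (β * a⁻¹) ^ p = β ^ p * (a ^ p)⁻¹ := by
      rw [mul_pow, inv_pow]
    have hzE : (β * a⁻¹) ^ p ∈ E := by
      rw [hzp]
      exact mul_mem hβ (inv_mem (pow_mem haE p))
    have hzv : Q.valuation ((β * a⁻¹) ^ p) = 1 := by
      rw [hzp]
      exact hav
    have hzv1 : Q.valuation (β * a⁻¹) = 1 := by
      rw [map_pow] at hzv
      exact (pow_eq_one_iff.1 hzv).resolve_right hp.ne_zero
    have hpv : Q.valuation (p : M) = 1 := by
      have h1 := Pt.Ex1.val_C Q hQ (p : C) (Nat.cast_ne_zero.2 hp.ne_zero)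
      rwa [map_natCast] at h1
    have hβz : β ∈ IntermediateField.adjoin E {β * a⁻¹} := by
      have h1 : β = (β * a⁻¹) * a := by
        rw [mul_assoc, inv_mul_cancel₀ ha0, mul_one]
      have h2 := mul_mem (IntermediateField.mem_adjoin_simple_self E (β * a⁻¹))
        (IntermediateField.algebraMap_mem (IntermediateField.adjoin E {β * a⁻¹}) (⟨a, haE⟩ : E))
      have h3 : (β * a⁻¹) * algebraMap E M ⟨a, haE⟩ = β := h1.symm
      rw [h3] at h2
      exact h2
    obtain ⟨n, hn⟩ := unr_val (K := E) (L := M) Q (τ := ⟨τ, hτE⟩)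
      (fun h => hτ0 (congrArg Subtype.val h)) hτ1
      (fun b hb => hgen b b.2 (fun h => hb (Subtype.ext h))) (z := β * a⁻¹)
      (X ^ p - Polynomial.C ⟨(β * a⁻¹) ^ p, hzE⟩) (monic_X_pow_sub_C _ hp.ne_zero)
      (by
        intro i
        rw [coeff_sub, map_sub]
        refine sub_mem ?_ ?_
        · rw [coeff_X_pow]
          split_ifs
          · rw [map_one]
            exact one_mem _
          · rw [map_zero]
            exact zero_mem _
        · rw [coeff_C]
          split_ifs
          · exact (Q.valuation_le_one_iff _).1 hzv.le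
          · rw [map_zero]
            exact zero_mem _)
      (by
        rw [map_sub, aeval_X_pow, aeval_C]
        exact sub_self _)
      (by
        rw [derivative_sub, derivative_X_pow, derivative_C, sub_zero, map_mul, aeval_C,
          aeval_X_pow, map_mul, map_pow, hzv1, one_pow, mul_one, map_natCast]
        exact hpv)
      (ex_le hβz hc) hc0
    refine ⟨τ ^ n, zpow_mem hτE n, zpow_ne_zero n hτ0, ?_⟩
    rw [map_zpow₀]
    exact hn

theorem desc (hp : p.Prime) (hE : FF E) {β : M} (hβ : β ^ p ∈ E) (hd : DivE p E (β ^ p)) {m : ℕ}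
    {g : M} (h : DivE m (Ex E β) g) : DivE m E g := by
  intro Q hQ
  obtain ⟨c, hc, hc0, hcv⟩ := h Q hQ
  obtain ⟨a, ha, ha0, hav⟩ := val_step hp hE hβ hd Q hQ hc hc0
  refine ⟨a, ha, ha0, ?_⟩
  rw [← hcv, map_mul, map_mul, map_inv₀, map_inv₀, map_pow, map_pow, hav]

theorem ff_step (hp : p.Prime) (hE : FF E) {β : M} (hβ : β ^ p ∈ E) : FF (Ex E β) := by
  obtain ⟨t, ht, hfin⟩ := hE
  have hEF : E ≤ Ex E β := le_sup_left
  let f : E →ₐ[C] Ex E β := IntermediateField.inclusion hEF
  refine ⟨f t, ?_, ?_⟩
  · intro h
    exact ht ((isAlgebraic_algHom_iff f f.injective).1 h)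
  · have hint : IsIntegral E β := int_pow hp.ne_zero hβ
    have hfd : FiniteDimensional E (IntermediateField.adjoin E {β}) :=
      IntermediateField.adjoin.finiteDimensional hint
    have h0 : Module.Finite (IntermediateField.adjoin C {t}) (IntermediateField.adjoin E {β}) :=
      Module.Finite.trans E _
    have hmap : ∀ x : IntermediateField.adjoin C {t}, f x ∈ IntermediateField.adjoin C {f t} := by
      intro x
      have h1 : (IntermediateField.adjoin C {t}).map f = IntermediateField.adjoin C {f t} := by
        rw [IntermediateField.adjoin_map, Set.image_singleton]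
      rw [← h1]
      exact ⟨x, x.2, rfl⟩
    let g : IntermediateField.adjoin C {t} →+* IntermediateField.adjoin C {f t} :=
      { toFun := fun x => ⟨f x, hmap x⟩
        map_one' := Subtype.ext (by simp)
        map_mul' := fun a b => Subtype.ext (by simp)
        map_zero' := Subtype.ext (by simp)
        map_add' := fun a b => Subtype.ext (by simp) }
    let _ : Algebra (IntermediateField.adjoin C {t}) (IntermediateField.adjoin C {f t}) :=
      g.toAlgebra
    let _ : Algebra (IntermediateField.adjoin C {t}) (Ex E β) :=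
      ((algebraMap (IntermediateField.adjoin C {f t}) (Ex E β)).comp g).toAlgebra
    have : IsScalarTower (IntermediateField.adjoin C {t}) (IntermediateField.adjoin C {f t})
      (Ex E β) := IsScalarTower.of_algebraMap_eq fun _ => rfl
    have hinj : Module.Finite (IntermediateField.adjoin C {t}) (Ex E β) := by
      let j : Ex E β →ₗ[IntermediateField.adjoin C {t}] IntermediateField.adjoin E {β} :=
        { toFun := fun x => ⟨x, ex_le (IntermediateField.mem_adjoin_simple_self E β) x.2⟩
          map_add' := fun a b => rfl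
          map_smul' := fun a b => by
            apply Subtype.ext
            rw [Algebra.smul_def, RingHom.id_apply, Algebra.smul_def]
            rfl }
      exact FiniteDimensional.of_injective j fun a b hab =>
        Subtype.ext (congrArg (fun y : IntermediateField.adjoin E {β} => (y : M)) hab)
    exact Module.Finite.of_restrictScalars_finite (IntermediateField.adjoin C {t})
      (IntermediateField.adjoin C {f t}) (Ex E β)

omit [IsAlgClosed C] [CharZero C] in
private theorem pre_aux (g : M ≃+* M) (gC : C → C)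
    (hC : ∀ c, g (algebraMap C M c) = algebraMap C M (gC c)) (hE : ∀ f ∈ E, g f ∈ E) {β : M}
    (hβ : g β = β) : ∀ f ∈ Ex E β, g f ∈ Ex E β := by
  have h : Ex E β ≤ ((Ex E β).toSubfield.comap (g : M →+* M)).toIntermediateField (fun x => by
      rw [Subfield.mem_comap]
      have h1 : (g : M →+* M) (algebraMap C M x) = algebraMap C M (gC x) := hC x
      rw [h1]
      exact (Ex E β).algebraMap_mem _) := by
    refine sup_le ?_ ?_
    · intro y hy
      exact (le_sup_left : E ≤ Ex E β) (hE y hy)
    · rw [IntermediateField.adjoin_simple_le_iff]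
      have h1 : g β ∈ Ex E β := by
        rw [hβ]
        exact (le_sup_right : IntermediateField.adjoin C {β} ≤ Ex E β)
          (IntermediateField.mem_adjoin_simple_self C β)
      exact h1
  intro f hf
  exact h hf

omit [IsAlgClosed C] [CharZero C] in
theorem pre_step (A : SA C M) (hA : Pre A E) {β : M} (hβ : A.g β = β) : Pre A (Ex E β) := by
  intro f
  constructor
  · intro hf
    have h1 := pre_aux A.g.symm A.gC.symm (E := E) (β := β)
      (fun c => by
        rw [RingEquiv.symm_apply_eq, A.hC, RingEquiv.apply_symm_apply])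
      (fun f hf => (hA _).1 (by rw [RingEquiv.apply_symm_apply]; exact hf))
      (by rw [RingEquiv.symm_apply_eq, hβ]) _ hf
    rwa [RingEquiv.symm_apply_apply] at h1
  · intro hf
    exact pre_aux A.g A.gC A.hC (fun f hf => (hA f).2 hf) hβ f hf

end Pool.Agent.Lib.MP_2f3286_ag.Pp
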