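import Pool.Agent.Lib.MP_2f3286_ag.Pp.Defs
import Pool.Agent.Lib.MP_2f3286_ag.Gl.JD
import Pool.Agent.Lib.MP_2f3286_ag.Full.Gauss

/-!
# Places of a subfield and of the whole field   (module BR1)

PROOF of `exists_ext`. `Full.exists_dominating` (Full/Gauss.lean) for the ring homomorphism `Q → M` (the inclusion) and the maximal ideal of `Q`: a valuation ring `Q'` of `M` which contains `Q`, with
`Q'.valuation x < 1` for non-units `x` of `Q`. If `x ∈ E`, `x ∉ Q` then `x⁻¹ ∈ Q` is not a unit, so `Q'.valuation x⁻¹ < 1`, `x ∉ Q'`.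
PROOF of `divE_iff`. (→) `Q' ` from `exists_ext` contains the constants; `c ∈ E` with `Q'.valuation (f (c ^ m)⁻¹) = 1`; valuation one means: the element and its inverse are in the ring, so the same at
`Q` (`Full.val_comap_eq_one`, or by hand). (←) `Q` a valuation ring of `M` which contains the constants, `Q₁ = Q.comap (algebraMap E M)`. If `Q₁ ≠ ⊤` it is a place of `E`, use the hypothesis. If `Q₁ = ⊤`,
`f` and `f⁻¹` are in `Q`, take `c = 1`.
PROOF of `je_iff`. Unfold `Gl.IsJ` (Gl/JD.lean) and use `divE_iff` for `f = z ^ (p ^ n)`.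
PROOF of `mem_all`, `val_const`: a constant `≠ 0` and its inverse are in `Q`.
-/

open Polynomial IntermediateField

namespace Pool.Agent.Lib.MP_2f3286_ag.Pp

open Pool.Agent.Lib.MP_2f3286_ag.Pt (DivAt IsPlc)

variable {C M : Type*} [Field C] [Field M] [Algebra C M]

private theorem br1_val_iff {L : Type*} [Field L] (Q : ValuationSubring L) (z : L) :
    Q.valuation z = 1 ↔ (z ∈ Q ∧ z⁻¹ ∈ Q) ∧ z ≠ 0 := by
  constructor
  · intro hz
    have hz0 : z ≠ 0 := by
      rintro rfl
      rw [map_zero] at hz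
      exact zero_ne_one hz
    refine ⟨⟨(Q.valuation_le_one_iff z).1 hz.le, (Q.valuation_le_one_iff _).1 ?_⟩, hz0⟩
    rw [map_inv₀, hz, inv_one]
  · rintro ⟨⟨h1, h2⟩, h0⟩
    have h1' := (Q.valuation_le_one_iff z).2 h1
    have h2' := (Q.valuation_le_one_iff _).2 h2
    rw [map_inv₀] at h2'
    have h3 : Q.valuation z ≠ 0 := by
      rw [Ne, map_eq_zero]
      exact h0
    refine le_antisymm h1' ?_
    exact (inv_le_one₀ (zero_lt_iff.2 h3)).1 h2'

private theorem br1_comap {L M : Type*} [Field L] [Field M] (f : L →+* M)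
    (V : ValuationSubring M) (z : L) :
    (V.comap f).valuation z = 1 ↔ V.valuation (f z) = 1 := by
  rw [br1_val_iff, br1_val_iff, ValuationSubring.mem_comap, ValuationSubring.mem_comap, map_inv₀,
    map_ne_zero_iff f f.injective]

theorem val_const (Q : ValuationSubring M) (hQ : ∀ a : C, algebraMap C M a ∈ Q) {c : C}
    (hc : c ≠ 0) : Q.valuation (algebraMap C M c) = 1 := by
  rw [br1_val_iff]
  refine ⟨⟨hQ c, ?_⟩, ?_⟩
  · rw [← map_inv₀]
    exact hQ _
  · exact (map_ne_zero (algebraMap C M)).2 hc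

theorem exists_ext (E : IntermediateField C M) (Q : ValuationSubring E) :
    ∃ Q' : ValuationSubring M, Q'.comap (algebraMap E M) = Q := by
  obtain ⟨W, h1, h2, -⟩ := Full.exists_dominating ((algebraMap E M).comp Q.subtype)
    (IsLocalRing.maximalIdeal Q) (fun a ha => by
      have h3 : algebraMap E M (a : E) = 0 := ha
      have h4 : (a : E) = 0 := (map_eq_zero (algebraMap E M)).1 h3
      have h5 : a = 0 := Subtype.ext h4
      rw [h5]
      exact Ideal.zero_mem _)
  refine ⟨W, ?_⟩
  ext x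
  rw [ValuationSubring.mem_comap]
  constructor
  · intro hx
    by_contra hxQ
    have hinv : x⁻¹ ∈ Q := (Q.mem_or_inv_mem x).resolve_left hxQ
    have hx0 : x ≠ 0 := by
      rintro rfl
      exact hxQ Q.zero_mem
    have hmax : (⟨x⁻¹, hinv⟩ : Q) ∈ IsLocalRing.maximalIdeal Q := by
      rw [IsLocalRing.mem_maximalIdeal, mem_nonunits_iff]
      intro hu
      obtain ⟨b, hb⟩ := hu.exists_right_inv
      have h6 : x⁻¹ * (b : E) = 1 := congrArg Subtype.val hb
      have h7 : (b : E) = x := by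
        field_simp at h6
        exact h6
      exact hxQ (h7 ▸ b.2)
    have h8 := h2 _ hmax
    have h9 : W.valuation (algebraMap E M x⁻¹) < 1 := h8
    rw [map_inv₀, map_inv₀] at h9
    have h10 : W.valuation (algebraMap E M x) ≤ 1 := (W.valuation_le_one_iff _).2 hx
    have h11 : W.valuation (algebraMap E M x) ≠ 0 := by
      rw [Ne, map_eq_zero, map_eq_zero]
      exact hx0
    exact absurd h9 (not_lt.2 ((one_le_inv₀ (zero_lt_iff.2 h11)).2 h10))
  · intro hx
    exact h1 ⟨x, hx⟩

theorem divE_iff {m : ℕ} {E : IntermediateField C M} {f : E} (hf : f ≠ 0) :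
    DivE m E (f : M) ↔ ∀ Q : ValuationSubring E, IsPlc C Q → DivAt m f Q := by
  constructor
  · intro h Q hQ
    obtain ⟨Q', hQ'⟩ := exists_ext E Q
    have hc : ∀ a : C, algebraMap C M a ∈ Q' := by
      intro a
      have h1 := hQ.1 a
      rw [← hQ', ValuationSubring.mem_comap] at h1
      exact h1
    obtain ⟨c, hcE, hc0, hv⟩ := h Q' hc
    refine ⟨⟨c, hcE⟩, fun h0 => hc0 (congrArg Subtype.val h0), ?_⟩
    rw [← hQ', br1_comap]
    exact hv
  · intro h Q hQ
    by_cases htop : Q.comap (algebraMap E M) = ⊤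
    · refine ⟨1, E.one_mem, one_ne_zero, ?_⟩
      rw [one_pow, inv_one, mul_one]
      have h1 : (Q.comap (algebraMap E M)).valuation f = 1 := by
        rw [br1_val_iff, htop]
        exact ⟨⟨ValuationSubring.mem_top _, ValuationSubring.mem_top _⟩, hf⟩
      rw [br1_comap] at h1
      exact h1
    · obtain ⟨c, hc0, hv⟩ := h (Q.comap (algebraMap E M)) ⟨fun a => by
        rw [ValuationSubring.mem_comap]
        exact hQ a, htop⟩
      refine ⟨(c : M), c.2, fun h0 => hc0 (Subtype.ext h0), ?_⟩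
      rw [br1_comap] at hv
      exact hv

theorem je_iff {p : ℕ} {E : IntermediateField C M} {z : M} : JE p E z ↔ Gl.IsJ p C E z := by
  constructor
  · rintro ⟨hz, n, hn, hd⟩
    refine ⟨hz, n, ⟨z ^ p ^ n, hn⟩, rfl, ?_⟩
    refine (divE_iff (f := ⟨z ^ p ^ n, hn⟩) ?_).1 hd
    intro h0
    exact (pow_ne_zero (p ^ n) hz) (congrArg Subtype.val h0)
  · rintro ⟨hz, n, f, hf, hd⟩
    have hf' : z ^ p ^ n = (f : M) := hf
    have hf0 : f ≠ 0 := by
      rintro rfl
      exact (pow_ne_zero (p ^ n) hz) hf'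
    refine ⟨hz, n, ?_, ?_⟩
    · rw [hf']
      exact f.2
    · rw [hf']
      exact (divE_iff hf0).2 hd

end Pool.Agent.Lib.MP_2f3286_ag.Pp
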