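import Pool.Agent.Lib.MP_2f3286_ag.Pp.BR1

/-!
# Elements with divisible orders   (module BR2)

PROOFS. Everything is a computation with `Q.valuation (f * (c ^ m)⁻¹) = 1`, i.e. `Q.valuation f = Q.valuation c ^ m` and `Q.valuation f ≠ 0`. `dvd`: `m = m' k`, replace `c` by `c ^ k`. `root`:
`v (f ^ n) = v c ^ (n m) = (v c ^ m) ^ n`, so `v f = v c ^ m` (`pow_left_injective`-type lemma in a linearly ordered group with zero, or: `(v f / v c ^ m) ^ n = 1`). `map`: for `A : SA C M` and a valuation ring `Q` which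
contains the constants, so does `Q.comap A.g` (`A.gC` is bijective on the constants; use `A.hC`); `DivE` for it gives `c ∈ E`, and `A.g c ∈ E` works for `A.g f` at `Q`. `rad`: `DivAt` with `c ∈ M`.
`JE.mul`, ... : raise both to a common exponent; or use `je_iff` and `Gl.IsJ.mul`, `Gl.IsJ.inv`, `Gl.IsJ.of_mem`, `Gl.IsJ.divAt`, `Gl.IsJ.tower`, `Gl.IsJ.div` (Gl/JD.lean). `JE.div`: `Gl.IsJ.div` with `𝒱` the set of all valuation
rings of `M` which contain the constants. `JE.map`: `(A.g z) ^ (p ^ n) = A.g (z ^ (p ^ n))` and `DivE.map`. `JE.succ`: `z` with `JE`, `z ^ (p ^ (n + 1)) ∈ E`: `JE.divE`.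
-/

open Polynomial IntermediateField

namespace Pool.Agent.Lib.MP_2f3286_ag.Pp

open Pool.Agent.Lib.MP_2f3286_ag.Pt (DivAt IsPlc)

variable {C M : Type*} [Field C] [Field M] [Algebra C M] {E E' : IntermediateField C M}
  {m m' n p : ℕ} {f g : M}

private theorem br2_val_iff {L : Type*} [Field L] (Q : ValuationSubring L) (z : L) :
    Q.valuation z = 1 ↔ (z ∈ Q ∧ z⁻¹ ∈ Q) ∧ z ≠ 0 := by
  constructor
  · intro hz
    have hz0 : z ≠ 0 := by
      rintro rfl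
      rw [map_zero] at hz
      exact zero_ne_one hz
    refine ⟨⟨(Q.valuation_le_one_iff z).1 hz.le, (Q.valuation_le_one_iff _).1 ?_⟩, hz0⟩
    rw [map_inv₀, hz, inv_one]
  · rintro ⟨⟨h1, h2⟩, h0⟩
    have h1' := (Q.valuation_le_one_iff z).2 h1
    have h2' := (Q.valuation_le_one_iff _).2 h2
    rw [map_inv₀] at h2'
    have h3 : Q.valuation z ≠ 0 := by
      rw [Ne, map_eq_zero]
      exact h0
    refine le_antisymm h1' ?_
    exact (inv_le_one₀ (zero_lt_iff.2 h3)).1 h2'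

private theorem br2_comap {L K : Type*} [Field L] [Field K] (φ : L →+* K)
    (V : ValuationSubring K) (z : L) :
    (V.comap φ).valuation z = 1 ↔ V.valuation (φ z) = 1 := by
  rw [br2_val_iff, br2_val_iff, ValuationSubring.mem_comap, ValuationSubring.mem_comap, map_inv₀,
    map_ne_zero_iff φ φ.injective]

theorem DivE.ne_zero (h : DivE m E f) : f ≠ 0 := by

  rintro rfl
  obtain ⟨c, -, -, hv⟩ := h ⊤ (fun a => ValuationSubring.mem_top _)
  rw [zero_mul, map_zero] at hv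
  exact zero_ne_one hv

theorem divE_of_val (h : ∀ Q : ValuationSubring M, (∀ a : C, algebraMap C M a ∈ Q) →
    Q.valuation f = 1) : DivE m E f := by

  intro Q hQ
  refine ⟨1, one_mem _, one_ne_zero, ?_⟩
  rw [one_pow, inv_one, mul_one]
  exact h Q hQ

theorem divE_const {c : C} (hc : c ≠ 0) : DivE m E (algebraMap C M c) := by

  exact divE_of_val (fun Q hQ => val_const Q hQ hc)

theorem divE_pow (hf : f ∈ E) (h0 : f ≠ 0) : DivE m E (f ^ m) := by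

  intro Q _
  refine ⟨f, hf, h0, ?_⟩
  rw [mul_inv_cancel₀ (pow_ne_zero _ h0), map_one]

theorem DivE.mul (h : DivE m E f) (h' : DivE m E g) : DivE m E (f * g) := by

  intro Q hQ
  obtain ⟨c, hc, hc0, hv⟩ := h Q hQ
  obtain ⟨d, hd, hd0, hw⟩ := h' Q hQ
  refine ⟨c * d, mul_mem hc hd, mul_ne_zero hc0 hd0, ?_⟩
  have h1 : f * g * ((c * d) ^ m)⁻¹ = (f * (c ^ m)⁻¹) * (g * (d ^ m)⁻¹) := by
    rw [mul_pow, mul_inv]
    ring
  rw [h1, map_mul, hv, hw, one_mul]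

theorem DivE.inv (h : DivE m E f) : DivE m E f⁻¹ := by

  intro Q hQ
  obtain ⟨c, hc, hc0, hv⟩ := h Q hQ
  refine ⟨c⁻¹, inv_mem hc, inv_ne_zero hc0, ?_⟩
  have h1 : f⁻¹ * (c⁻¹ ^ m)⁻¹ = (f * (c ^ m)⁻¹)⁻¹ := by
    rw [mul_inv, inv_pow]
  rw [h1, map_inv₀, hv, inv_one]

theorem DivE.pow (h : DivE m E f) (n : ℕ) : DivE m E (f ^ n) := by

  intro Q hQ
  obtain ⟨c, hc, hc0, hv⟩ := h Q hQ
  refine ⟨c ^ n, pow_mem hc n, pow_ne_zero _ hc0, ?_⟩
  have h1 : f ^ n * ((c ^ n) ^ m)⁻¹ = (f * (c ^ m)⁻¹) ^ n := by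
    rw [mul_pow, inv_pow, ← pow_mul, ← pow_mul, mul_comm n m]
  rw [h1, map_pow, hv, one_pow]

theorem DivE.mono (hE : E ≤ E') (h : DivE m E f) : DivE m E' f := by

  intro Q hQ
  obtain ⟨c, hc, hc0, hv⟩ := h Q hQ
  exact ⟨c, hE hc, hc0, hv⟩

theorem DivE.dvd (hm : m' ∣ m) (h : DivE m E f) : DivE m' E f := by

  obtain ⟨k, rfl⟩ := hm
  intro Q hQ
  obtain ⟨c, hc, hc0, hv⟩ := h Q hQ
  refine ⟨c ^ k, pow_mem hc k, pow_ne_zero _ hc0, ?_⟩
  rw [← pow_mul, mul_comm k m']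
  exact hv

theorem DivE.root (hn : n ≠ 0) (h : DivE (n * m) E (f ^ n)) : DivE m E f := by

  intro Q hQ
  obtain ⟨c, hc, hc0, hv⟩ := h Q hQ
  refine ⟨c, hc, hc0, ?_⟩
  have h1 : f ^ n * (c ^ (n * m))⁻¹ = (f * (c ^ m)⁻¹) ^ n := by
    rw [mul_pow, inv_pow, ← pow_mul, mul_comm n m]
  rw [h1, map_pow] at hv
  exact (pow_eq_one_iff.1 hv).resolve_right hn

theorem DivE.raise (h : DivE m E f) (n : ℕ) : DivE (n * m) E (f ^ n) := by

  intro Q hQ
  obtain ⟨c, hc, hc0, hv⟩ := h Q hQ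
  refine ⟨c, hc, hc0, ?_⟩
  have h1 : f ^ n * (c ^ (n * m))⁻¹ = (f * (c ^ m)⁻¹) ^ n := by
    rw [mul_pow, inv_pow, ← pow_mul, mul_comm n m]
  rw [h1, map_pow, hv, one_pow]

theorem DivE.map (A : SA C M) (hA : Pre A E) (h : DivE m E f) : DivE m E (A.g f) := by

  intro Q hQ
  have hQ' : ∀ a : C, algebraMap C M a ∈ Q.comap (A.g : M →+* M) := by
    intro a
    rw [ValuationSubring.mem_comap]
    show A.g (algebraMap C M a) ∈ Q
    rw [A.hC]
    exact hQ _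
  obtain ⟨c, hc, hc0, hv⟩ := h _ hQ'
  refine ⟨A.g c, (hA c).2 hc, (map_ne_zero_iff A.g A.g.injective).2 hc0, ?_⟩
  rw [br2_comap] at hv
  have h1 : (A.g : M →+* M) (f * (c ^ m)⁻¹) = A.g f * ((A.g c) ^ m)⁻¹ := by
    rw [map_mul, map_inv₀, map_pow]
    rfl
  rw [h1] at hv
  exact hv

theorem DivE.rad (hRad : Rad p C M) (h : DivE p E f) : ∃ β : M, β ^ p = f := by

  refine hRad f h.ne_zero (fun Q hQ => ?_)
  obtain ⟨c, -, hc0, hv⟩ := h Q hQ
  exact ⟨c, hc0, hv⟩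

theorem JE.of_mem (hf : f ∈ E) (h0 : f ≠ 0) : JE p E f := by

  refine ⟨h0, 0, by rw [pow_zero, pow_one]; exact hf, ?_⟩
  rw [pow_zero, pow_one]
  have h1 := divE_pow (m := 1) hf h0
  rwa [pow_one] at h1

theorem JE.mul (hp : p.Prime) (h : JE p E f) (h' : JE p E g) : JE p E (f * g) := by

  rw [je_iff] at h h' ⊢
  exact h.mul hp h'

theorem JE.inv (h : JE p E f) : JE p E f⁻¹ := by

  rw [je_iff] at h ⊢
  exact h.inv

theorem JE.mono (hE : E ≤ E') (h : JE p E f) : JE p E' f := by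

  obtain ⟨h0, n, h1, h2⟩ := h
  exact ⟨h0, n, hE h1, h2.mono hE⟩

theorem JE.divE (hp : p.Prime) (h : JE p E f) (hn : f ^ p ^ n ∈ E) :
    DivE (p ^ n) E (f ^ p ^ n) := by

  obtain ⟨h0, k, h1, h2⟩ := h
  rcases le_total n k with hnk | hnk
  · obtain ⟨j, rfl⟩ := Nat.exists_eq_add_of_le hnk
    have h3 : f ^ p ^ (n + j) = (f ^ p ^ n) ^ p ^ j := by rw [← pow_mul, ← pow_add]
    rw [h3, pow_add, mul_comm (p ^ n)] at h2
    exact h2.root (pow_ne_zero _ hp.ne_zero)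
  · obtain ⟨j, rfl⟩ := Nat.exists_eq_add_of_le hnk
    have h3 : f ^ p ^ (k + j) = (f ^ p ^ k) ^ p ^ j := by rw [← pow_mul, ← pow_add]
    rw [h3, pow_add, mul_comm (p ^ k)]
    exact h2.raise _

theorem JE.map (A : SA C M) (hA : Pre A E) (h : JE p E f) : JE p E (A.g f) := by

  obtain ⟨h0, n, h1, h2⟩ := h
  refine ⟨(map_ne_zero_iff A.g A.g.injective).2 h0, n, ?_, ?_⟩
  · rw [← map_pow]
    exact (hA _).2 h1
  · rw [← map_pow]
    exact h2.map A hA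

theorem JE.div [IsAlgClosed C] [CharZero C] (hp : p.Prime) (hE : FF E) (hRad : Rad p C M)
    (h : JE p E f) : ∃ w : M, JE p E w ∧ ∃ c ∈ E, c ≠ 0 ∧ w ^ p = f * c := by

  rw [je_iff] at h
  obtain ⟨t, ht, hfin⟩ := hE
  have := hfin
  obtain ⟨w, hw, c, hc, hwc⟩ := h.div (C := C) (L := E) hp t ht
    {Q : ValuationSubring M | ∀ a : C, algebraMap C M a ∈ Q} (fun V hV => hV)
    (fun ρ hρ hd => hRad ρ hρ (fun Q hQ => hd Q hQ))
  refine ⟨w, je_iff.2 hw, (c : M), c.2, ?_, ?_⟩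
  · exact fun h0 => hc (Subtype.ext h0)
  · exact hwc

end Pool.Agent.Lib.MP_2f3286_ag.Pp
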