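import Pool.Agent.Lib.MP_2f3286_ag.Pp.BR2
import Pool.Agent.Lib.MP_2f3286_ag.Kummer

/-!
# The residues of `1, b, ..., b ^ (p - 1)` are linearly independent   (module C1)

PROOF of `unit_res` (roots of unity): `u ^ p` has the residue `1`: `X ^ p - 1 = ∏ (X - ξ)` over the `p`-th roots of unity `ξ` of `C` (`C` algebraically closed of characteristic zero), so `∏ (u - ξ) = u ^ p - 1` has valuation `< 1`, so one factor has.
PROOF of `ind`. Let `𝓀 = IsLocalRing.ResidueField W` and `k_E ⊆ 𝓀` the set of the residues of the elements of `E ∩ W`: a subfield (`Subfield 𝓀`; inverse: `E` is a field and `W` a valuation ring). `b̄` the residue of `b`, `b̄ ^ p ∈ k_E`. Suppose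
`W(∑ a_i b ^ i) < 1` with some `W(a_i) = 1`: so `b̄` is a root of a nonzero polynomial over `k_E` of degree `< p`. So `X ^ p - b̄ ^ p` is not the minimal polynomial of `b̄`, it is reducible over `k_E`, and by `X_pow_sub_C_irreducible_of_prime` (Mathlib)
`b̄ ^ p = ḡ ^ p` with `ḡ ∈ k_E`, the residue of `g ∈ E ∩ W`; `ḡ ≠ 0`, `W(g) = 1`, `W(b ^ p - g ^ p) < 1`. `hri` (`RI`, with `hs.dv`): `b ^ p = u ^ p`, `u ∈ E`, so `b = ξ u` with a `p`-th root of unity `ξ ∈ C ⊆ E` (`root_of_unity_mem`), `b ∈ E`. Contradiction.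
-/

open Polynomial IntermediateField

namespace Pool.Agent.Lib.MP_2f3286_ag.Pp

variable {C M : Type*} [Field C] [IsAlgClosed C] [CharZero C] [Field M] [Algebra C M]
  {E : IntermediateField C M} {p : ℕ} {W : ValuationSubring M} {b : M}

theorem unit_res (hp : p.Prime) {u : M} (h : W.valuation (u ^ p - 1) < 1) :
    ∃ ξ : C, ξ ^ p = 1 ∧ W.valuation (u - algebraMap C M ξ) < 1 := by
  have hm : (X ^ p - Polynomial.C (1 : C)).Monic := monic_X_pow_sub_C 1 hp.ne_zero
  have hs := (IsAlgClosed.splits (X ^ p - Polynomial.C (1 : C))).eq_prod_roots_of_monic hm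
  have h1 := congrArg (aeval u) hs
  rw [map_sub, map_pow, aeval_X, aeval_C, map_one, map_multiset_prod, Multiset.map_map] at h1
  by_contra hc
  push Not at hc
  rw [h1] at h
  have h2 : ∀ s : Multiset C, (∀ ξ ∈ s, ξ ^ p = 1) →
      1 ≤ W.valuation ((s.map (aeval u ∘ fun a => X - Polynomial.C a)).prod) := by
    intro s
    induction s using Multiset.induction_on with
    | empty => intro _; simp
    | cons a s ih =>
      intro hs
      rw [Multiset.map_cons, Multiset.prod_cons, map_mul]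
      have h3 := ih (fun ξ hξ => hs ξ (Multiset.mem_cons_of_mem hξ))
      have h4 := hc a (hs a (Multiset.mem_cons_self a s))
      have h5 : (aeval u ∘ fun a => X - Polynomial.C a) a = u - algebraMap C M a := by simp
      rw [h5]
      exact one_le_mul h4 h3
  refine absurd h (not_lt.2 (h2 _ ?_))
  intro ξ hξ
  have h3 := (mem_roots'.1 hξ).2
  rw [IsRoot.def, eval_sub, eval_pow, eval_X, eval_C] at h3
  exact sub_eq_zero.1 h3

private def resF (W : ValuationSubring M) (E : IntermediateField C M) :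
    Subfield (IsLocalRing.ResidueField W) where
  carrier := {x | ∃ f : W, (f : M) ∈ E ∧ IsLocalRing.residue W f = x}
  mul_mem' := by
    rintro x y ⟨f, hf, rfl⟩ ⟨g, hg, rfl⟩
    exact ⟨f * g, E.mul_mem hf hg, map_mul _ _ _⟩
  one_mem' := ⟨1, E.one_mem, map_one _⟩
  add_mem' := by
    rintro x y ⟨f, hf, rfl⟩ ⟨g, hg, rfl⟩
    exact ⟨f + g, E.add_mem hf hg, map_add _ _ _⟩
  zero_mem' := ⟨0, E.zero_mem, map_zero _⟩
  neg_mem' := by
    rintro x ⟨f, hf, rfl⟩
    exact ⟨-f, E.neg_mem hf, map_neg _ _⟩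
  inv_mem' := by
    rintro x ⟨f, hf, rfl⟩
    by_cases h0 : IsLocalRing.residue W f = 0
    · rw [h0, inv_zero]
      exact ⟨0, E.zero_mem, map_zero _⟩
    · have hv : W.valuation (f : M) = 1 := by
        rw [IsLocalRing.residue_eq_zero_iff, W.valuation_lt_one_iff] at h0
        exact le_antisymm (W.valuation_le_one f) (not_lt.1 h0)
      have hf0 : (f : M) ≠ 0 := by
        intro h
        rw [h, map_zero] at hv
        exact zero_ne_one hv
      have hfi : (f : M)⁻¹ ∈ W := by
        rw [← W.valuation_le_one_iff, map_inv₀, hv, inv_one]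
      refine ⟨⟨(f : M)⁻¹, hfi⟩, E.inv_mem hf, ?_⟩
      apply eq_inv_of_mul_eq_one_left
      rw [← map_mul]
      have h2 : (⟨(f : M)⁻¹, hfi⟩ : W) * f = 1 := Subtype.ext (inv_mul_cancel₀ hf0)
      rw [h2, map_one]

theorem ind (hp : p.Prime) (hW : Wv p C W) (hri : RI p W E) (hs : Sp p W E b) {a : ℕ → M}
    (ha : ∀ i < p, a i ∈ E ∧ a i ∈ W) (h1 : ∃ i < p, W.valuation (a i) = 1) :
    W.valuation (∑ i ∈ Finset.range p, a i * b ^ i) = 1 := by
  classical
  have hρ : ∀ x : W, IsLocalRing.residue W x = 0 ↔ W.valuation (x : M) < 1 := fun x => by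
    rw [← W.valuation_lt_one_iff, IsLocalRing.residue_eq_zero_iff]
  have hbW : b ∈ W := (W.valuation_le_one_iff b).1 hs.one.le
  have hsumW : (∑ i ∈ Finset.range p, a i * b ^ i) ∈ W :=
    sum_mem fun i hi => mul_mem (ha i (Finset.mem_range.1 hi)).2 (pow_mem hbW i)
  by_contra hne
  have hlt : W.valuation (∑ i ∈ Finset.range p, a i * b ^ i) < 1 :=
    lt_of_le_of_ne ((W.valuation_le_one_iff _).2 hsumW) hne
  have hb0 : IsLocalRing.residue W ⟨b, hbW⟩ ≠ 0 := by
    intro h
    rw [hρ] at h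
    exact absurd hs.one h.ne
  let c : resF (C := C) W E :=
    ⟨IsLocalRing.residue W ⟨b, hbW⟩ ^ p, ⟨⟨b, hbW⟩ ^ p, hs.pw, map_pow _ _ _⟩⟩
  let A : ℕ → resF (C := C) W E := fun i =>
    if h : i < p then ⟨IsLocalRing.residue W ⟨a i, (ha i h).2⟩, ⟨⟨a i, (ha i h).2⟩, (ha i h).1, rfl⟩⟩
      else 0
  let P : (resF (C := C) W E)[X] := ∑ i ∈ Finset.range p, Polynomial.C (A i) * X ^ i
  have hPc : ∀ n, P.coeff n = if n < p then A n else 0 := by
    intro n
    simp only [P, finsetSum_coeff, coeff_C_mul, coeff_X_pow, mul_ite, mul_one, mul_zero,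
      Finset.sum_ite_eq, Finset.mem_range]
  have hPd : P.degree < p := by
    rw [Polynomial.degree_lt_iff_coeff_zero]
    intro m hm
    rw [hPc, if_neg (not_lt.2 hm)]
  have hP0 : P ≠ 0 := by
    obtain ⟨i, hi, h2⟩ := h1
    intro h
    have h3 := hPc i
    rw [h, coeff_zero, if_pos hi] at h3
    have h4 : ((A i : resF (C := C) W E) : IsLocalRing.ResidueField W) = 0 := by
      rw [← h3]; rfl
    simp only [A, dif_pos hi] at h4
    rw [hρ] at h4
    exact absurd h2 h4.ne
  have hPb : aeval (IsLocalRing.residue W ⟨b, hbW⟩) P = 0 := by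
    have h2 : aeval (IsLocalRing.residue W ⟨b, hbW⟩) P
        = IsLocalRing.residue W ⟨∑ i ∈ Finset.range p, a i * b ^ i, hsumW⟩ := by
      have h3 : (⟨∑ i ∈ Finset.range p, a i * b ^ i, hsumW⟩ : W) =
          ∑ i ∈ (Finset.range p).attach,
            ⟨a i, (ha i (Finset.mem_range.1 i.2)).2⟩ * (⟨b, hbW⟩ : W) ^ (i : ℕ) := by
        apply Subtype.ext
        push_cast
        exact (Finset.sum_attach (Finset.range p) (fun i => a i * b ^ i)).symm
      rw [h3, map_sum]
      simp only [P, map_sum, map_mul, aeval_C, map_pow, aeval_X]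
      rw [← Finset.sum_attach (Finset.range p)]
      refine Finset.sum_congr rfl fun i _ => ?_
      have hi : (i : ℕ) < p := Finset.mem_range.1 i.2
      simp only [A, dif_pos hi]
      rfl
    rw [h2, hρ]
    exact hlt
  by_cases hirr : ∀ d : resF (C := C) W E, d ^ p ≠ c
  · have h2 : Irreducible (X ^ p - Polynomial.C c) := X_pow_sub_C_irreducible_of_prime hp hirr
    have h3 : aeval (IsLocalRing.residue W ⟨b, hbW⟩) (X ^ p - Polynomial.C c) = 0 := by
      rw [map_sub, map_pow, aeval_X, aeval_C]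
      exact sub_self _
    have h4 := minpoly.eq_of_irreducible_of_monic h2 h3 (monic_X_pow_sub_C c hp.ne_zero)
    have h5 := minpoly.degree_le_of_ne_zero (resF (C := C) W E)
      (IsLocalRing.residue W ⟨b, hbW⟩) hP0 hPb
    rw [← h4, degree_X_pow_sub_C hp.pos] at h5
    exact absurd hPd (not_lt.2 h5)
  · push Not at hirr
    obtain ⟨⟨d, g, hg, rfl⟩, hd⟩ := hirr
    have hd' : IsLocalRing.residue W g ^ p = IsLocalRing.residue W ⟨b, hbW⟩ ^ p :=
      congrArg Subtype.val hd
    have hg1 : W.valuation (g : M) = 1 := by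
      refine le_antisymm (W.valuation_le_one g) (not_lt.1 fun h => ?_)
      rw [← hρ] at h
      rw [h, zero_pow hp.ne_zero] at hd'
      exact hb0 (eq_zero_of_pow_eq_zero hd'.symm)
    have hlt2 : W.valuation (b ^ p - (g : M) ^ p) < 1 := by
      have h2 := hρ (⟨b, hbW⟩ ^ p - g ^ p)
      rw [map_sub, map_pow, map_pow, hd', sub_self] at h2
      exact h2.1 rfl
    obtain ⟨u, hu, hub⟩ := hri (b ^ p) hs.pw g hg hg1 hlt2 hs.dv
    have hb : b ≠ 0 := by
      intro h
      have h2 := hs.one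
      rw [h, map_zero] at h2
      exact zero_ne_one h2
    have hu0 : u ≠ 0 := by
      intro h
      rw [h, zero_pow hp.ne_zero] at hub
      exact pow_ne_zero p hb hub.symm
    have h3 : (b / u) ^ p = 1 := by
      rw [div_pow, hub, div_self (pow_ne_zero p hb)]
    obtain ⟨ξ, hξ⟩ := root_of_unity_mem C M hp.pos h3
    refine hs.nm ?_
    have h4 : b = algebraMap C M ξ * u := by
      rw [hξ, div_mul_cancel₀ _ hu0]
    rw [h4]
    exact E.mul_mem (E.algebraMap_mem ξ) hu

end Pool.Agent.Lib.MP_2f3286_ag.Pp
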