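import Pool.Agent.Lib.MP_2f3286_ag.Pp.C1

/-!
# The field `E(b)`   (module C2)

PROOF of `ex_repr`. The set of all `∑ i < p, a_i b ^ i`, `a_i ∈ E`, is a ring (`b ^ p ∈ E`) which contains `E`, `b`; it is a field because `b` is algebraic over `E`: `Ex E b` is the restriction of scalars of `IntermediateField.adjoin E {b}`, and every element of
`IntermediateField.adjoin E {b}` is a polynomial in `b` (`b` integral over `E`: `IntermediateField.adjoin_simple_toSubalgebra_of_integral`, or the power basis), reduced modulo `X ^ p - b ^ p`.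
PROOF of `ex_mem`. (→) Suppose `f = ∑ a_i b ^ i ∈ W`, not all `a_i ∈ W`. Let `a_j` be one with the largest valuation, `W(a_j) > 1`. `ind` for `a_i / a_j`: `W(f / a_j) = 1`, so `W(f) = W(a_j) > 1`. The other statements: `W(b) = 1`; if all `W(a_i) ≤ 1` and one is
`= 1` then `W(f) = 1`.
PROOF of `ex_unique`. `b ∈ W'` since `b ^ p ∈ E ∩ W ⊆ W'`. If `f ∈ W`: all `a_i ∈ E ∩ W ⊆ W'`, so `f ∈ W'`. If `f ∈ W'`, `f ∉ W`: `f ≠ 0`, `W(f⁻¹) < 1`, `f⁻¹ = ∑ a_i b ^ i` with `W(a_i) < 1`, so `a_i = 0` or `a_i⁻¹ ∉ W`, `a_i⁻¹ ∉ W'`, so `W'(a_i) < 1`,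
`W'(f⁻¹) < 1`, contradiction to `f ∈ W'`.
PROOF of `ex_gamma`. `X ^ p - b ^ p` is irreducible over `E` (`X_pow_sub_C_irreducible_of_prime`: if `b ^ p = u ^ p` with `u ∈ E` then `b = ξ u ∈ E`), so it is the minimal polynomial of `b` over `E`, and `ζ b` is another root; so there is a homomorphism
`Ex E b → Ex E b` over `E` with `b ↦ ζ b` (see Gl/SB.lean, `IsSup.exists_eta`, for the same construction; work with the field `IntermediateField.adjoin E {b}` over `E` or with the type `Ex E b` and `Algebra E (Ex E b)` from `IntermediateField.inclusion`), bijective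
since its `p`-th iterate fixes `E` and `b`. `γ f = f` with `f = ∑ a_i b ^ i`: `∑ (ζ ^ i - 1) a_i b ^ i = 0`, so `a_i = 0` for `0 < i < p` (linear independence of the `b ^ i` over `E`).
-/

open Polynomial IntermediateField

namespace Pool.Agent.Lib.MP_2f3286_ag.Pp

variable {C M : Type*} [Field C] [IsAlgClosed C] [CharZero C] [Field M] [Algebra C M]
  {E : IntermediateField C M} {p : ℕ} {W : ValuationSubring M} {b : M}

omit [IsAlgClosed C] [CharZero C] in
private theorem C2_mem (E : IntermediateField C M) (b : M) (f : M) :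
    f ∈ Ex E b ↔ f ∈ IntermediateField.adjoin E {b} := by
  have h := IntermediateField.restrictScalars_adjoin_eq_sup (F := C) E ({b} : Set M)
  unfold Ex
  rw [← h]
  rfl

omit [IsAlgClosed C] [CharZero C] in
private theorem C2_root (pw : b ^ p ∈ E) {z : M} (hz : z ^ p = b ^ p) :
    aeval z (X ^ p - Polynomial.C (⟨b ^ p, pw⟩ : E) : E[X]) = 0 := by
  rw [map_sub, map_pow, aeval_X, aeval_C, hz]
  exact sub_self _

omit [IsAlgClosed C] [CharZero C] in
private theorem C2_int (hp : p.Prime) (pw : b ^ p ∈ E) : IsIntegral E b :=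
  ⟨X ^ p - Polynomial.C (⟨b ^ p, pw⟩ : E), monic_X_pow_sub_C _ hp.ne_zero, by
    have := C2_root pw (z := b) rfl
    rwa [aeval_def] at this⟩

omit [IsAlgClosed C] [CharZero C] in
theorem ex_repr (hp : p.Prime) (pw : b ^ p ∈ E) {f : M} (hf : f ∈ Ex E b) :
    ∃ a : ℕ → M, (∀ i, a i ∈ E) ∧ f = ∑ i ∈ Finset.range p, a i * b ^ i := by
  rw [C2_mem] at hf
  have hint := C2_int hp pw
  have h1 : f ∈ (IntermediateField.adjoin E {b}).toSubalgebra := hf
  rw [IntermediateField.adjoin_simple_toSubalgebra_of_isAlgebraic hint.isAlgebraic,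
    Algebra.adjoin_singleton_eq_range_aeval] at h1
  obtain ⟨P, hP⟩ := h1
  set q : E[X] := X ^ p - Polynomial.C (⟨b ^ p, pw⟩ : E) with hq
  have hmon : q.Monic := monic_X_pow_sub_C _ hp.ne_zero
  have hq0 : aeval b q = 0 := C2_root pw rfl
  have h2 : aeval b (P %ₘ q) = f := by
    have h3 := congrArg (aeval b) (modByMonic_add_div P q)
    rw [map_add, map_mul, hq0, zero_mul, add_zero] at h3
    rw [h3]; exact hP
  have hdeg : (P %ₘ q).natDegree < p := by
    have := natDegree_modByMonic_lt P hmon (by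
      intro h1
      have h4 := natDegree_X_pow_sub_C (n := p) (r := (⟨b ^ p, pw⟩ : E))
      rw [← hq, h1, natDegree_one] at h4
      exact hp.ne_zero h4.symm)
    rwa [hq, natDegree_X_pow_sub_C] at this
  refine ⟨fun i => ((P %ₘ q).coeff i : M), fun i => ((P %ₘ q).coeff i).2, ?_⟩
  rw [← h2, aeval_eq_sum_range' hdeg]
  refine Finset.sum_congr rfl fun i _ => ?_
  rw [Algebra.smul_def]; rfl

/-- the coefficient of the largest valuation -/
private theorem C2_val (hp : p.Prime) (hW : Wv p C W) (hri : RI p W E) (hs : Sp p W E b)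
    {a : ℕ → M} (ha : ∀ i < p, a i ∈ E) (h0 : ∃ i < p, a i ≠ 0) :
    ∃ j < p, a j ≠ 0 ∧ (∀ i < p, W.valuation (a i) ≤ W.valuation (a j)) ∧
      W.valuation (∑ i ∈ Finset.range p, a i * b ^ i) = W.valuation (a j) := by
  obtain ⟨j, hj, hmax⟩ := Finset.exists_max_image (Finset.range p) (fun i => W.valuation (a i))
    ⟨0, Finset.mem_range.2 hp.pos⟩
  rw [Finset.mem_range] at hj
  have hmax' : ∀ i < p, W.valuation (a i) ≤ W.valuation (a j) :=
    fun i hi => hmax i (Finset.mem_range.2 hi)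
  have hj0 : a j ≠ 0 := by
    obtain ⟨i, hi, hi0⟩ := h0
    intro h
    have h1 := hmax' i hi
    rw [h, map_zero, le_zero_iff, map_eq_zero] at h1
    exact hi0 h1
  refine ⟨j, hj, hj0, hmax', ?_⟩
  have hv : W.valuation (a j) ≠ 0 := (_root_.map_ne_zero _).2 hj0
  have h1 := ind hp hW hri hs (a := fun i => a i / a j)
    (fun i hi => ⟨div_mem (ha i hi) (ha j hj), by
      rw [← ValuationSubring.valuation_le_one_iff, map_div₀]
      exact div_le_one_of_le₀ (hmax' i hi) zero_le⟩)
    ⟨j, hj, by simp [hj0]⟩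
  have h2 : ∑ i ∈ Finset.range p, a i * b ^ i
      = a j * ∑ i ∈ Finset.range p, a i / a j * b ^ i := by
    rw [Finset.mul_sum]
    refine Finset.sum_congr rfl fun i _ => ?_
    field_simp
  rw [h2, map_mul, h1, mul_one]

theorem ex_mem (hp : p.Prime) (hW : Wv p C W) (hri : RI p W E) (hs : Sp p W E b) {a : ℕ → M}
    (ha : ∀ i < p, a i ∈ E) :
    ((∑ i ∈ Finset.range p, a i * b ^ i) ∈ W ↔ ∀ i < p, a i ∈ W) ∧
      (W.valuation (∑ i ∈ Finset.range p, a i * b ^ i) < 1 ↔ ∀ i < p, W.valuation (a i) < 1) := by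
  by_cases h0 : ∃ i < p, a i ≠ 0
  · obtain ⟨j, hj, hj0, hmax, hv⟩ := C2_val hp hW hri hs ha h0
    refine ⟨?_, ?_⟩
    · rw [← ValuationSubring.valuation_le_one_iff, hv]
      constructor
      · intro h i hi
        rw [← ValuationSubring.valuation_le_one_iff]
        exact (hmax i hi).trans h
      · intro h
        rw [ValuationSubring.valuation_le_one_iff]
        exact h j hj
    · rw [hv]
      constructor
      · intro h i hi
        exact (hmax i hi).trans_lt h
      · intro h
        exact h j hj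
  · push Not at h0
    have h1 : ∑ i ∈ Finset.range p, a i * b ^ i = 0 :=
      Finset.sum_eq_zero fun i hi => by rw [h0 i (Finset.mem_range.1 hi), zero_mul]
    rw [h1]
    refine ⟨⟨fun _ i hi => ?_, fun _ => W.zero_mem⟩, ⟨fun _ i hi => ?_, fun _ => ?_⟩⟩
    · rw [h0 i hi]; exact W.zero_mem
    · rw [h0 i hi, map_zero]; exact zero_lt_one
    · rw [map_zero]; exact zero_lt_one

theorem ex_unique (hp : p.Prime) (hW : Wv p C W) (hri : RI p W E) (hs : Sp p W E b)
    (W' : ValuationSubring M) (hE : ∀ f ∈ E, f ∈ W' ↔ f ∈ W) {f : M} (hf : f ∈ Ex E b) :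
    f ∈ W' ↔ f ∈ W := by
  have hb : b ∈ W' := by
    have h1 : b ^ p ∈ W := by
      rw [← ValuationSubring.valuation_le_one_iff, map_pow, hs.one, one_pow]
    have h2 : b ^ p ∈ W' := (hE _ hs.pw).2 h1
    rw [← ValuationSubring.valuation_le_one_iff, map_pow] at h2
    rw [← ValuationSubring.valuation_le_one_iff]
    exact (pow_le_one_iff hp.ne_zero).1 h2
  have hbi : ∀ i, b ^ i ∈ W' := fun i => pow_mem hb i
  constructor
  · intro h
    by_contra hn
    have hf0 : f ≠ 0 := by rintro rfl; exact hn W.zero_mem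
    have hlt : W.valuation f⁻¹ < 1 := by
      rw [map_inv₀]
      have h1 : 1 < W.valuation f := by
        rw [← not_le, ValuationSubring.valuation_le_one_iff]; exact hn
      exact inv_lt_one_of_one_lt₀ h1
    obtain ⟨a, ha, hfa⟩ := ex_repr hp hs.pw (inv_mem hf)
    rw [hfa] at hlt
    have h2 := ((ex_mem hp hW hri hs (fun i _ => ha i)).2).1 hlt
    have h3 : ∀ i < p, W'.valuation (a i) < 1 := by
      intro i hi
      by_cases hz : a i = 0
      · rw [hz, map_zero]; exact zero_lt_one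
      · have h4 : (a i)⁻¹ ∉ W := by
          rw [← ValuationSubring.valuation_le_one_iff, map_inv₀, not_le]
          exact (one_lt_inv₀ (zero_lt_iff.2 ((_root_.map_ne_zero _).2 hz))).2 (h2 i hi)
        have h5 : (a i)⁻¹ ∉ W' := fun h => h4 ((hE _ (inv_mem (ha i))).1 h)
        rw [← ValuationSubring.valuation_le_one_iff, map_inv₀, not_le] at h5
        exact (one_lt_inv₀ (zero_lt_iff.2 ((_root_.map_ne_zero _).2 hz))).1 h5
    have h6 : W'.valuation f⁻¹ < 1 := by
      rw [hfa]
      refine Valuation.map_sum_lt _ one_ne_zero fun i hi => ?_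
      rw [map_mul]
      have h7 := h3 i (Finset.mem_range.1 hi)
      have h8 : W'.valuation (b ^ i) ≤ 1 := (ValuationSubring.valuation_le_one_iff _ _).2 (hbi i)
      exact mul_lt_one_of_lt_of_le h7 h8
    rw [map_inv₀] at h6
    have h9 : W'.valuation f ≤ 1 := (ValuationSubring.valuation_le_one_iff _ _).2 h
    have h10 : 0 < W'.valuation f := zero_lt_iff.2 ((_root_.map_ne_zero _).2 hf0)
    exact absurd ((inv_lt_one₀ h10).1 h6) (not_lt.2 h9)
  · intro h
    obtain ⟨a, ha, hfa⟩ := ex_repr hp hs.pw hf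
    rw [hfa] at h ⊢
    have h2 := ((ex_mem hp hW hri hs (fun i _ => ha i)).1).1 h
    exact sum_mem fun i hi =>
      mul_mem ((hE _ (ha i)).2 (h2 i (Finset.mem_range.1 hi))) (hbi i)

omit [CharZero C] in
private theorem C2_irr (hp : p.Prime) (pw : b ^ p ∈ E) (nm : b ∉ E) :
    Irreducible (X ^ p - Polynomial.C (⟨b ^ p, pw⟩ : E) : E[X]) := by
  refine X_pow_sub_C_irreducible_of_prime hp fun u hu => nm ?_
  have hu' : (u : M) ^ p = b ^ p := by
    have := congrArg (fun z : E => (z : M)) hu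
    simpa using this
  by_cases hb : b = 0
  · rw [hb]; exact E.zero_mem
  have hu0 : (u : M) ≠ 0 := by
    intro h
    rw [h, zero_pow hp.ne_zero] at hu'
    exact hb (pow_eq_zero_iff hp.ne_zero |>.1 hu'.symm)
  obtain ⟨c, hc⟩ := root_of_unity_mem C M (ξ := b / u) hp.pos (by
    rw [div_pow, hu']; exact div_self (pow_ne_zero _ hb))
  have : b = algebraMap C M c * u := by
    rw [hc]; field_simp
  rw [this]
  exact E.mul_mem (E.algebraMap_mem c) u.2

omit [CharZero C] in
private theorem C2_minpoly (hp : p.Prime) (pw : b ^ p ∈ E) (nm : b ∉ E) :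
    minpoly E b = X ^ p - Polynomial.C (⟨b ^ p, pw⟩ : E) :=
  (minpoly.eq_of_irreducible_of_monic (C2_irr hp pw nm) (C2_root pw rfl)
    (monic_X_pow_sub_C _ hp.ne_zero)).symm

omit [CharZero C] in
private theorem C2_indep (hp : p.Prime) (pw : b ^ p ∈ E) (nm : b ∉ E) {a : ℕ → M}
    (ha : ∀ i, a i ∈ E) (h : ∑ i ∈ Finset.range p, a i * b ^ i = 0) : ∀ i < p, a i = 0 := by
  set P : E[X] := ∑ i ∈ Finset.range p, Polynomial.C (⟨a i, ha i⟩ : E) * X ^ i with hP
  have h1 : aeval b P = 0 := by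
    rw [hP, map_sum, ← h]
    refine Finset.sum_congr rfl fun i _ => ?_
    rw [map_mul, map_pow, aeval_X, aeval_C]
    rfl
  have h2 : P.degree < p := by
    rw [hP]
    refine lt_of_le_of_lt (degree_sum_le _ _) ?_
    refine (Finset.sup_lt_iff (WithBot.bot_lt_coe p)).2 fun i hi => ?_
    refine lt_of_le_of_lt (degree_C_mul_X_pow_le i _) ?_
    exact WithBot.coe_lt_coe.2 (Finset.mem_range.1 hi)
  have h3 : P = 0 := by
    by_contra hne
    have h4 := minpoly.degree_le_of_ne_zero E b hne h1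
    rw [C2_minpoly hp pw nm, degree_X_pow_sub_C hp.pos] at h4
    exact absurd h2 (not_lt.2 h4)
  intro i hi
  have h5 : P.coeff i = ⟨a i, ha i⟩ := by
    rw [hP, finsetSum_coeff]
    simp only [coeff_C_mul, coeff_X_pow]
    rw [Finset.sum_eq_single i]
    · simp
    · intro j _ hj
      rw [if_neg (Ne.symm hj), mul_zero]
    · intro h6
      exact absurd (Finset.mem_range.2 hi) h6
  rw [h3, coeff_zero] at h5
  exact (congrArg (fun z : E => (z : M)) h5).symm

theorem ex_gamma (hp : p.Prime) {ζ : C} (hζ : IsPrimitiveRoot ζ p) (pw : b ^ p ∈ E)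
    (nm : b ∉ E) :
    ∃ γ : Ex E b ≃ₐ[C] Ex E b, (∀ f : Ex E b, (f : M) ∈ E → γ f = f) ∧
      (∀ f : Ex E b, (f : M) = b → (γ f : M) = algebraMap C M ζ * b) ∧
      (∀ f, γ^[p] f = f) ∧ ∀ f, γ f = f → (f : M) ∈ E := by
  classical
  set F := IntermediateField.adjoin E {b} with hF
  have hmem : ∀ f : M, f ∈ Ex E b ↔ f ∈ F := C2_mem E b
  have hint := C2_int hp pw
  have hbF : b ∈ F := IntermediateField.mem_adjoin_simple_self E b
  have hζb : algebraMap C M ζ * b ∈ F :=
    F.mul_mem (F.algebraMap_mem (⟨algebraMap C M ζ, E.algebraMap_mem ζ⟩ : E)) hbF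
  have hzp : (algebraMap C M ζ * b) ^ p = b ^ p := by
    rw [mul_pow, ← map_pow, hζ.pow_eq_one, map_one, one_mul]
  have hroot : (⟨algebraMap C M ζ * b, hζb⟩ : F) ∈ (minpoly E b).aroots F := by
    rw [mem_aroots]
    refine ⟨minpoly.ne_zero hint, ?_⟩
    rw [C2_minpoly hp pw nm]
    apply Subtype.ext
    have h1 := C2_root pw hzp
    have h2 := aeval_algHom_apply F.val (⟨algebraMap C M ζ * b, hζb⟩ : F)
      (X ^ p - Polynomial.C (⟨b ^ p, pw⟩ : E) : E[X])
    have h3 : (F.val (⟨algebraMap C M ζ * b, hζb⟩ : F)) = algebraMap C M ζ * b := rfl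
    rw [h3, h1] at h2
    exact h2.symm
  set φ : F →ₐ[E] F := (IntermediateField.algHomAdjoinIntegralEquiv E hint).symm
    ⟨⟨algebraMap C M ζ * b, hζb⟩, hroot⟩ with hφ
  have hφb : φ (IntermediateField.AdjoinSimple.gen E b) = ⟨algebraMap C M ζ * b, hζb⟩ :=
    IntermediateField.algHomAdjoinIntegralEquiv_symm_apply_gen E hint _
  have hfd : FiniteDimensional E F := IntermediateField.adjoin.finiteDimensional hint
  have hbij : Function.Bijective φ := Algebra.IsAlgebraic.algHom_bijective φ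
  set e : F ≃ₐ[E] F := AlgEquiv.ofBijective φ hbij with he
  have heφ : ∀ z, e z = φ z := fun z => rfl
  let γ : Ex E b ≃ₐ[C] Ex E b :=
    { toFun := fun f => ⟨(e ⟨f, (hmem f).1 f.2⟩ : F), (hmem _).2 (e ⟨f, (hmem f).1 f.2⟩).2⟩
      invFun := fun f => ⟨(e.symm ⟨f, (hmem f).1 f.2⟩ : F),
        (hmem _).2 (e.symm ⟨f, (hmem f).1 f.2⟩).2⟩
      left_inv := fun f => by
        apply Subtype.ext
        simp
      right_inv := fun f => by
        apply Subtype.ext
        simp
      map_mul' := fun f g => by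
        apply Subtype.ext
        have h := map_mul e ⟨f, (hmem f).1 f.2⟩ ⟨g, (hmem g).1 g.2⟩
        exact congrArg (fun z : F => (z : M)) h
      map_add' := fun f g => by
        apply Subtype.ext
        have h := map_add e ⟨f, (hmem f).1 f.2⟩ ⟨g, (hmem g).1 g.2⟩
        exact congrArg (fun z : F => (z : M)) h
      commutes' := fun c => by
        apply Subtype.ext
        have h := e.commutes (⟨algebraMap C M c, E.algebraMap_mem c⟩ : E)
        exact congrArg (fun z : F => (z : M)) h }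
  have hγ : ∀ f : Ex E b, (γ f : M) = (e ⟨f, (hmem f).1 f.2⟩ : F) := fun f => rfl
  have hγE : ∀ f : Ex E b, (f : M) ∈ E → γ f = f := by
    intro f hf
    apply Subtype.ext
    rw [hγ]
    have h := e.commutes (⟨(f : M), hf⟩ : E)
    exact congrArg (fun z : F => (z : M)) h
  have hγb : ∀ f : Ex E b, (f : M) = b → (γ f : M) = algebraMap C M ζ * b := by
    intro f hf
    rw [hγ]
    have h1 : (⟨f, (hmem f).1 f.2⟩ : F) = IntermediateField.AdjoinSimple.gen E b := by
      apply Subtype.ext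
      exact hf
    rw [h1, heφ, hφb]
  have hbE : b ∈ Ex E b := (hmem b).2 hbF
  -- the action on a representation
  have hact : ∀ (f : Ex E b) (a : ℕ → M), (∀ i, a i ∈ E) →
      (f : M) = ∑ i ∈ Finset.range p, a i * b ^ i →
      (γ f : M) = ∑ i ∈ Finset.range p, (a i * algebraMap C M ζ ^ i) * b ^ i := by
    intro f a ha hfa
    have haE : ∀ i, a i ∈ Ex E b := fun i => (le_sup_left : E ≤ Ex E b) (ha i)
    have h1 : f = ∑ i ∈ Finset.range p, (⟨a i, haE i⟩ : Ex E b) * (⟨b, hbE⟩ : Ex E b) ^ i := by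
      apply Subtype.ext
      rw [hfa]
      push_cast
      rfl
    have h2 : (γ (⟨b, hbE⟩ : Ex E b) : M) = algebraMap C M ζ * b := hγb _ rfl
    rw [h1, map_sum]
    push_cast
    refine Finset.sum_congr rfl fun i _ => ?_
    rw [map_mul, map_pow, hγE _ (ha i)]
    push_cast
    rw [h2, mul_pow]
    ring
  refine ⟨γ, hγE, hγb, ?_, ?_⟩
  · intro f
    obtain ⟨a, ha, hfa⟩ := ex_repr hp pw f.2
    have h1 : ∀ n : ℕ, ((γ^[n] f : Ex E b) : M)
        = ∑ i ∈ Finset.range p, (a i * algebraMap C M ζ ^ (n * i)) * b ^ i := by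
      intro n
      induction n with
      | zero => simpa using hfa
      | succ n ih =>
        rw [Function.iterate_succ_apply',
          hact _ (fun i => a i * algebraMap C M ζ ^ (n * i))
            (fun i => E.mul_mem (ha i) (pow_mem (E.algebraMap_mem ζ) _)) ih]
        refine Finset.sum_congr rfl fun i _ => ?_
        rw [add_mul, one_mul, pow_add]
        ring
    apply Subtype.ext
    rw [h1 p, hfa]
    refine Finset.sum_congr rfl fun i _ => ?_
    rw [pow_mul, ← map_pow, hζ.pow_eq_one, map_one, one_pow, mul_one]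
  · intro f hf
    obtain ⟨a, ha, hfa⟩ := ex_repr hp pw f.2
    have h1 := hact f a ha hfa
    rw [hf] at h1
    have h2 : ∑ i ∈ Finset.range p, (a i * (algebraMap C M ζ ^ i - 1)) * b ^ i = 0 := by
      have h3 : ∑ i ∈ Finset.range p, (a i * (algebraMap C M ζ ^ i - 1)) * b ^ i
          = ∑ i ∈ Finset.range p, (a i * algebraMap C M ζ ^ i) * b ^ i
            - ∑ i ∈ Finset.range p, a i * b ^ i := by
        rw [← Finset.sum_sub_distrib]
        refine Finset.sum_congr rfl fun i _ => ?_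
        ring
      rw [h3, ← h1, ← hfa, sub_self]
    have h4 := C2_indep hp pw nm (a := fun i => a i * (algebraMap C M ζ ^ i - 1))
      (fun i => E.mul_mem (ha i) (E.sub_mem (pow_mem (E.algebraMap_mem ζ) _) E.one_mem)) h2
    have h5 : ∀ i < p, i ≠ 0 → a i = 0 := by
      intro i hi hi0
      rcases mul_eq_zero.1 (h4 i hi) with h6 | h6
      · exact h6
      · exfalso
        rw [sub_eq_zero, ← map_pow] at h6
        have h7 : ζ ^ i = 1 := (algebraMap C M).injective (by rw [h6, map_one])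
        exact hζ.pow_ne_one_of_pos_of_lt hi0 hi h7
    rw [hfa, Finset.sum_eq_single 0]
    · simpa using ha 0
    · intro i hi hi0
      rw [h5 i (Finset.mem_range.1 hi) hi0, zero_mul]
    · intro h6
      exact absurd (Finset.mem_range.2 hp.pos) h6

end Pool.Agent.Lib.MP_2f3286_ag.Pp
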