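import Pool.Agent.Lib.MP_2f3286_ag.Pp.C2
import Pool.Agent.Lib.MP_2f3286_ag.Pp.B3
import Pool.Agent.Lib.MP_2f3286_ag.Gl.SI

/-!
# The property `RI` for `E(b)`   (module C3)

We write: `E' = Ex E b`, `γ` of `ex_gamma`, `f₀ = b ^ p ∈ E`. `γ` preserves `W ∩ E'` and the valuations at `W` (`ex_mem`: `γ (∑ a_i b ^ i) = ∑ ζ ^ i a_i b ^ i`, `W(ζ) = 1`), and it permutes the places of `E'` over `C`, so `DivE m E' F` implies `DivE m E' (γ F)` for
`F ∈ E'` (through `divE_iff`: `Q.comap γ`).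
Call `F ∈ E'` GOOD if `F ≠ 0`, `DivE p E' F`, and there is `G ∈ E'` with `W(G) = 1`, `W(F - G ^ p) < 1` (so `W(F) = 1`). Products and inverses of good elements are good, and `γ F` is good if `F` is.
CLAIM. If `F` is good and `γ F / F = g ^ p` with `g ∈ E'`, then `F` is a `p`-th power in `E'`. PROOF. (a) `N g = ∏ i < p, γ ^ i g`, `(N g) ^ p = N (γ F / F) = 1` (telescoping, `γ ^ p = 1`), so `N g = ξ`, a `p`-th root of unity in `C` (`root_of_unity_mem`). With
`G` as in the definition: `W(g) = 1` and `g ^ p`, `(γ G / G) ^ p` have the same residue (`γ F - (γ G) ^ p` has valuation `< 1`), so by `unit_res` for `g G / γ G`: `g ≡ ξ' γ G / G` (valuation of the difference `< 1`), with `ξ' ∈ C`, `ξ' ^ p = 1`. So `N g ≡ ξ' ^ p N (γ G / G) = 1`,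
`W(ξ - 1) < 1`, so `ξ = 1` (if `ξ ≠ 1` then `ξ - 1` divides `p = ∏_{0 < i < p} (1 - ξ ^ i)` with integral quotient, but `W(p) = 1`: `hW.vp`). (b) Hilbert 90: `Gl.h90` (Gl/SI.lean) for `L = E'`, `η = γ`: `u ≠ 0` with `g * γ u = u`; put `e = u⁻¹`: `γ e = g e`. Multiply `e`
by a constant (`hW.unit`): `W(e) = 1`. `F' = F / e ^ p` satisfies `γ F' = F'`, so `F' ∈ E` (`ex_gamma`), and `G' = G / e`: `W(G') = 1`, `W(F' - G' ^ p) < 1`. (c) `γ G'`, `G'` have the same `p`-th powers up to valuation `< 1` (`F'` is fixed), so by `unit_res`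
`γ G' ≡ ζ ^ j G'` (mod valuation `< 1`) for some `j < p`. Write `G' = ∑ a_i b ^ i`, `a_i ∈ E ∩ W`: `∑ (ζ ^ i - ζ ^ j) a_i b ^ i` has valuation `< 1`, so `W(a_i) < 1` for `i ≠ j` (`ex_mem`, `W(ζ ^ i - ζ ^ j) = 1`): `G' ≡ a_j b ^ j`, `W(a_j) = 1`. So `F' ≡ a_j ^ p f₀ ^ j`, and
`F'' = F' / f₀ ^ j ∈ E` satisfies `W(F'' - a_j ^ p) < 1`. (d) `DivE p E' F'' ` (`F`, `e ^ p`, `f₀ ^ j = (b ^ j) ^ p`), so `DivE p E F''` by `desc` (B3). `RI p W E`: `F'' = u ^ p`, `u ∈ E`; `F = (u b ^ j e) ^ p`.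
PROOF of `ri_step`. Let `F` be good. `F_0 = F`, `F_{j+1} = γ F_j / F_j`, all good. `F_p` is a `p`-th power in `E'`: `F_n = ∏_{i ≤ n} (γ ^ i F) ^ ((-1) ^ (n - i) * choose n i)` (induction), and for `n = p` all exponents with `0 < i < p` are divisible by `p`, and the product of the factors
`i = 0` and `i = p` is `γ ^ p F * F ^ (± 1) = F * F ^ (-1) = 1` for odd `p`, `F ^ 2` for `p = 2`. By the claim, if `F_{j+1}` is a `p`-th power, `F_j` is. So `F_0 = F` is.
-/

open Polynomial IntermediateField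
open Pool.Agent.Lib.MP_2f3286_ag.Pt (DivAt IsPlc)

namespace Pool.Agent.Lib.MP_2f3286_ag.Pp

open Pool.Agent.Lib.MP_2f3286_ag

variable {C M : Type*} [Field C] [IsAlgClosed C] [CharZero C] [Field M] [Algebra C M]
  {E : IntermediateField C M} {p : ℕ} {W : ValuationSubring M} {b : M}

/-! ### elementary facts on valuations -/

private theorem C3_of_sub {K : Type*} [Field K] {V : ValuationSubring K} {x y : K}
    (hy : V.valuation y = 1) (h : V.valuation (x - y) < 1) : V.valuation x = 1 := by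
  have h2 : V.valuation ((x - y) + y) = V.valuation y :=
    Valuation.map_add_eq_of_lt_right _ (by rw [hy]; exact h)
  rwa [sub_add_cancel, hy] at h2

private theorem C3_sub_mul {K : Type*} [Field K] {V : ValuationSubring K} {x x' y y' : K}
    (hx : V.valuation x' ≤ 1) (hy : V.valuation y ≤ 1)
    (h1 : V.valuation (x - x') < 1) (h2 : V.valuation (y - y') < 1) :
    V.valuation (x * y - x' * y') < 1 := by
  have h3 : x * y - x' * y' = (x - x') * y + x' * (y - y') := by ring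
  rw [h3]
  refine Valuation.map_add_lt _ ?_ ?_
  · rw [map_mul]
    exact mul_lt_one_of_lt_of_le h1 hy
  · rw [map_mul]
    exact lt_of_le_of_lt (mul_le_of_le_one_left' hx) h2

private theorem C3_pow_sub {K : Type*} [Field K] {V : ValuationSubring K} {x y : K}
    (hx : V.valuation x ≤ 1) (hy : V.valuation y ≤ 1) (h : V.valuation (x - y) < 1) (n : ℕ) :
    V.valuation (x ^ n - y ^ n) < 1 := by
  induction n with
  | zero =>
    rw [pow_zero, pow_zero, sub_self, map_zero]
    exact zero_lt_one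
  | succ n ih =>
    rw [pow_succ, pow_succ]
    refine C3_sub_mul ?_ hx ih h
    rw [map_pow]
    exact pow_le_one' hy n

private theorem C3_div {K : Type*} [Field K] {V : ValuationSubring K} {x y : K}
    (hx : V.valuation x < 1) (hy : V.valuation y = 1) : V.valuation (x / y) < 1 := by
  rw [map_div₀, hy, div_one]
  exact hx

private theorem C3_root {K : Type*} [Field K] {V : ValuationSubring K} {ξ : K} {n : ℕ}
    (hn : n ≠ 0) (h : ξ ^ n = 1) : V.valuation ξ = 1 := by
  have h1 : V.valuation ξ ^ n = 1 := by rw [← map_pow, h, map_one]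
  exact (pow_eq_one_iff.1 h1).resolve_right hn

private theorem C3_root_eq {K : Type*} [Field K] {V : ValuationSubring K} {ξ : K} {n : ℕ}
    (hn : n ≠ 0) (hv : V.valuation (n : K) = 1) (h : ξ ^ n = 1) (h1 : V.valuation (ξ - 1) < 1) :
    ξ = 1 := by
  by_contra hne
  have h2 : ∑ i ∈ Finset.range n, ξ ^ i = 0 := by
    have h3 := geom_sum_mul ξ n
    rw [h, sub_self] at h3
    exact (mul_eq_zero.1 h3).resolve_right (sub_ne_zero.2 hne)
  have h4 : (n : K) = -∑ i ∈ Finset.range n, (ξ ^ i - 1 ^ i) := by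
    rw [Finset.sum_sub_distrib, h2]
    simp
  have h5 : V.valuation (n : K) < 1 := by
    rw [h4, Valuation.map_neg]
    refine Valuation.map_sum_lt _ one_ne_zero fun i _ => ?_
    exact C3_pow_sub (C3_root hn h).le (map_one _).le h1 i
  rw [hv] at h5
  exact lt_irrefl _ h5

private theorem C3_root_eq' {K : Type*} [Field K] {V : ValuationSubring K} {ξ ξ' : K} {n : ℕ}
    (hn : n ≠ 0) (hv : V.valuation (n : K) = 1) (h : ξ ^ n = 1) (h' : ξ' ^ n = 1)
    (h1 : V.valuation (ξ - ξ') < 1) : ξ = ξ' := by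
  have h0 : ξ' ≠ 0 := by
    rintro rfl
    rw [zero_pow hn] at h'
    exact zero_ne_one h'
  have h2 : ξ / ξ' = 1 := by
    refine C3_root_eq hn hv (by rw [div_pow, h, h', div_one]) ?_
    have h3 : ξ / ξ' - 1 = (ξ - ξ') / ξ' := by
      field_simp
    rw [h3]
    exact C3_div h1 (C3_root hn h')
  exact (div_eq_one_iff_eq h0).1 h2

private theorem C3_val_iff {L : Type*} [Field L] (Q : ValuationSubring L) (z : L) :
    Q.valuation z = 1 ↔ z ≠ 0 ∧ z ∈ Q ∧ z⁻¹ ∈ Q := by
  constructor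
  · intro h
    refine ⟨?_, ?_, ?_⟩
    · rintro rfl
      rw [map_zero] at h
      exact zero_ne_one h
    · exact (Q.valuation_le_one_iff z).1 h.le
    · refine (Q.valuation_le_one_iff _).1 ?_
      rw [map_inv₀, h, inv_one]
  · rintro ⟨h0, h1, h2⟩
    have h1' := (Q.valuation_le_one_iff z).2 h1
    have h2' := (Q.valuation_le_one_iff _).2 h2
    rw [map_inv₀] at h2'
    have h3 : Q.valuation z ≠ 0 := by
      rw [Ne, map_eq_zero]
      exact h0
    refine le_antisymm h1' ?_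
    exact (inv_le_one₀ (zero_lt_iff.2 h3)).1 h2'

private theorem C3_comap {L M : Type*} [Field L] [Field M] (f : L →+* M)
    (V : ValuationSubring M) (z : L) :
    (V.comap f).valuation z = 1 ↔ V.valuation (f z) = 1 := by
  rw [C3_val_iff, C3_val_iff, ValuationSubring.mem_comap, ValuationSubring.mem_comap, map_inv₀,
    map_ne_zero_iff f f.injective]

/-! ### the automorphism -/

/-- the situation of the module -/
private structure C3G (p : ℕ) (W : ValuationSubring M) (E : IntermediateField C M) (b : M) (ζ : C)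
    (γ : Ex E b ≃ₐ[C] Ex E b) : Prop where
  hp : p.Prime
  hE : FF E
  hW : Wv p C W
  hri : RI p W E
  hs : Sp p W E b
  hζ : IsPrimitiveRoot ζ p
  fE : ∀ f : Ex E b, (f : M) ∈ E → γ f = f
  fb : ∀ f : Ex E b, (f : M) = b → (γ f : M) = algebraMap C M ζ * b
  fp : ∀ f, γ^[p] f = f
  ff : ∀ f, γ f = f → (f : M) ∈ E

variable {ζ : C} {γ : Ex E b ≃ₐ[C] Ex E b}

omit [IsAlgClosed C] [CharZero C] in
private theorem C3_bmem : b ∈ Ex E b :=
  (le_sup_right : IntermediateField.adjoin C {b} ≤ Ex E b)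
    (IntermediateField.mem_adjoin_simple_self C b)

omit [IsAlgClosed C] [CharZero C] in
private theorem C3_emem {a : M} (ha : a ∈ E) : a ∈ Ex E b :=
  (le_sup_left : E ≤ Ex E b) ha

omit [IsAlgClosed C] [CharZero C] in
private theorem C3G.pow_b (D : C3G p W E b ζ γ) (i : ℕ) :
    (((γ ^ i) ⟨b, C3_bmem⟩ : Ex E b) : M) = algebraMap C M ζ ^ i * b := by
  induction i with
  | zero => simp
  | succ i ih =>
    rw [pow_succ, AlgEquiv.mul_apply]
    have h1 : γ ⟨b, C3_bmem⟩ = algebraMap C (Ex E b) ζ * ⟨b, C3_bmem⟩ := by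
      apply Subtype.ext
      rw [D.fb _ rfl]
      rfl
    rw [h1, map_mul, AlgEquiv.commutes]
    have h2 : ((algebraMap C (Ex E b) ζ * (γ ^ i) ⟨b, C3_bmem⟩ : Ex E b) : M) =
        algebraMap C M ζ * ((γ ^ i) ⟨b, C3_bmem⟩ : Ex E b) := rfl
    rw [h2, ih]
    ring

omit [IsAlgClosed C] [CharZero C] in
private theorem C3G.sum (D : C3G p W E b ζ γ) {a : ℕ → M} (ha : ∀ i, a i ∈ E) {f : Ex E b}
    (hf : (f : M) = ∑ i ∈ Finset.range p, a i * b ^ i) :
    (γ f : M) = ∑ i ∈ Finset.range p, (a i * algebraMap C M ζ ^ i) * b ^ i := by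
  have h1 : f = ∑ i ∈ Finset.range p, (⟨a i, C3_emem (ha i)⟩ : Ex E b) * ⟨b, C3_bmem⟩ ^ i := by
    apply Subtype.ext
    rw [hf]
    push_cast
    rfl
  have hb : (γ ⟨b, C3_bmem⟩ : M) = algebraMap C M ζ * b := D.fb _ rfl
  rw [h1, map_sum]
  push_cast
  refine Finset.sum_congr rfl fun i _ => ?_
  rw [map_mul, map_pow, D.fE _ (ha i)]
  push_cast
  rw [hb]
  ring

omit [IsAlgClosed C] [CharZero C] in
private theorem C3G.zeta (D : C3G p W E b ζ γ) (i : ℕ) :
    (algebraMap C M ζ ^ i) ^ p = 1 := by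
  rw [← map_pow, ← map_pow, ← pow_mul, mul_comm, pow_mul, D.hζ.pow_eq_one, one_pow, map_one]

private theorem C3G.mem (D : C3G p W E b ζ γ) {f : Ex E b} (hf : (f : M) ∈ W) :
    (γ f : M) ∈ W := by
  obtain ⟨a, ha, hfa⟩ := ex_repr D.hp D.hs.pw f.2
  rw [D.sum ha hfa]
  rw [hfa, (ex_mem D.hp D.hW D.hri D.hs fun i _ => ha i).1] at hf
  rw [(ex_mem D.hp D.hW D.hri D.hs (a := fun i => a i * algebraMap C M ζ ^ i)
    fun i _ => E.mul_mem (ha i) (pow_mem (E.algebraMap_mem ζ) i)).1]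
  intro i hi
  refine W.mul_mem _ _ (hf i hi) ?_
  rw [← W.valuation_le_one_iff]
  exact (C3_root D.hp.ne_zero (D.zeta i)).le

private theorem C3G.lt (D : C3G p W E b ζ γ) {f : Ex E b} (hf : W.valuation (f : M) < 1) :
    W.valuation (γ f : M) < 1 := by
  obtain ⟨a, ha, hfa⟩ := ex_repr D.hp D.hs.pw f.2
  rw [D.sum ha hfa]
  rw [hfa, (ex_mem D.hp D.hW D.hri D.hs fun i _ => ha i).2] at hf
  rw [(ex_mem D.hp D.hW D.hri D.hs (a := fun i => a i * algebraMap C M ζ ^ i)
    fun i _ => E.mul_mem (ha i) (pow_mem (E.algebraMap_mem ζ) i)).2]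
  intro i hi
  rw [map_mul, C3_root D.hp.ne_zero (D.zeta i), mul_one]
  exact hf i hi

private theorem C3G.one (D : C3G p W E b ζ γ) {f : Ex E b} (hf : W.valuation (f : M) = 1) :
    W.valuation (γ f : M) = 1 := by
  rw [C3_val_iff] at hf ⊢
  refine ⟨?_, D.mem hf.2.1, ?_⟩
  · intro h
    have h3 : γ f = 0 := Subtype.ext h
    rw [map_eq_zero] at h3
    exact hf.1 (by rw [h3]; rfl)
  · have h2 : (γ f⁻¹ : M) ∈ W := D.mem (by push_cast; exact hf.2.2)
    rw [map_inv₀] at h2
    push_cast at h2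
    exact h2

private theorem C3G.ipow (D : C3G p W E b ζ γ) {f : Ex E b} (i : ℕ) :
    (W.valuation (f : M) = 1 → W.valuation ((γ ^ i) f : M) = 1) ∧
      (W.valuation (f : M) < 1 → W.valuation ((γ ^ i) f : M) < 1) := by
  induction i with
  | zero => exact ⟨fun h => h, fun h => h⟩
  | succ i ih =>
    rw [pow_succ', AlgEquiv.mul_apply]
    exact ⟨fun h => D.one (ih.1 h), fun h => D.lt (ih.2 h)⟩

omit [IsAlgClosed C] [CharZero C] in
private theorem C3G.pp (D : C3G p W E b ζ γ) (f : Ex E b) : (γ ^ p) f = f := by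
  rw [AlgEquiv.coe_pow]
  exact D.fp f

private theorem C3G.div (D : C3G p W E b ζ γ) {f : Ex E b} (h : DivE p (Ex E b) (f : M)) :
    DivE p (Ex E b) (γ f : M) := by
  have h0 : f ≠ 0 := fun h1 => h.ne_zero (by rw [h1]; rfl)
  have h0' : γ f ≠ 0 := by rwa [Ne, map_eq_zero]
  rw [divE_iff h0'] 
  rw [divE_iff h0] at h
  intro Q hQ
  have hQ' : IsPlc C (Q.comap (γ : Ex E b →+* Ex E b)) := by
    refine ⟨fun a => ?_, fun h1 => hQ.2 ?_⟩
    · rw [ValuationSubring.mem_comap]
      have : (γ : Ex E b →+* Ex E b) (algebraMap C (Ex E b) a) = algebraMap C (Ex E b) a :=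
        γ.commutes a
      rw [this]
      exact hQ.1 a
    · rw [eq_top_iff]
      intro x _
      have h2 : γ.symm x ∈ Q.comap (γ : Ex E b →+* Ex E b) := by
        rw [h1]
        exact ValuationSubring.mem_top _
      rw [ValuationSubring.mem_comap] at h2
      have h3 : (γ : Ex E b →+* Ex E b) (γ.symm x) = x := γ.apply_symm_apply x
      rwa [h3] at h2
  obtain ⟨c, hc0, hc⟩ := h _ hQ'
  refine ⟨γ c, by rwa [Ne, map_eq_zero], ?_⟩
  rw [C3_comap] at hc
  have h4 : (γ : Ex E b →+* Ex E b) (f * (c ^ p)⁻¹) = γ f * (γ c ^ p)⁻¹ := by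
    show γ (f * (c ^ p)⁻¹) = _
    rw [map_mul, map_inv₀, map_pow]
  rwa [h4] at hc

/-! ### good elements -/

/-- good elements -/
private def C3Good (p : ℕ) (W : ValuationSubring M) (F : Ex E b) : Prop :=
  DivE p (Ex E b) (F : M) ∧ ∃ G : Ex E b, W.valuation (G : M) = 1 ∧
    W.valuation ((F : M) - (G : M) ^ p) < 1

omit [IsAlgClosed C] [CharZero C] in
private theorem C3Good.val {F : Ex E b} (h : C3Good p W F) : W.valuation (F : M) = 1 := by
  obtain ⟨G, hG, hFG⟩ := h.2
  exact C3_of_sub (by rw [map_pow, hG, one_pow]) hFG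

omit [IsAlgClosed C] [CharZero C] in
private theorem C3Good.ne {F : Ex E b} (h : C3Good p W F) : F ≠ 0 := fun h1 =>
  h.1.ne_zero (by rw [h1]; rfl)

omit [IsAlgClosed C] [CharZero C] in
private theorem C3Good.div {F F' : Ex E b} (h : C3Good p W F) (h' : C3Good p W F') :
    C3Good p W (F / F') := by
  have hv := h.val
  have hv' := h'.val
  have hne : (F' : M) ≠ 0 := h'.1.ne_zero
  obtain ⟨hd, G, hG, hFG⟩ := h
  obtain ⟨hd', G', hG', hFG'⟩ := h'
  have hG0 : (G' : M) ≠ 0 := by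
    intro h1
    rw [h1, map_zero] at hG'
    exact zero_ne_one hG'
  refine ⟨?_, G / G', ?_, ?_⟩
  · push_cast
    rw [div_eq_mul_inv]
    exact hd.mul hd'.inv
  · push_cast
    rw [map_div₀, hG, hG', div_one]
  · push_cast
    have h1 : (F : M) / F' - ((G : M) / G') ^ p =
        (((F : M) - (G : M) ^ p) * (G' : M) ^ p - ((F' : M) - (G' : M) ^ p) * (G : M) ^ p) /
          ((F' : M) * (G' : M) ^ p) := by
      rw [div_pow, div_sub_div _ _ hne (pow_ne_zero _ hG0)]
      congr 1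
      ring
    rw [h1]
    refine C3_div ?_ (by rw [map_mul, map_pow, hv', hG', one_pow, one_mul])
    refine Valuation.map_sub_lt _ ?_ ?_
    · rw [map_mul, map_pow, hG', one_pow, mul_one]
      exact hFG
    · rw [map_mul, map_pow, hG, one_pow, mul_one]
      exact hFG'

private theorem C3Good.gam (D : C3G p W E b ζ γ) {F : Ex E b} (h : C3Good p W F) :
    C3Good p W (γ F) := by
  obtain ⟨hd, G, hG, hFG⟩ := h
  refine ⟨D.div hd, γ G, D.one hG, ?_⟩
  have h1 : W.valuation (γ (F - G ^ p) : M) < 1 := by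
    refine D.lt ?_
    push_cast
    exact hFG
  rw [map_sub, map_pow] at h1
  push_cast at h1
  exact h1

/-! ### the claim -/

omit [IsAlgClosed C] [CharZero C] in
private theorem C3G.norm (D : C3G p W E b ζ γ) {f : Ex E b} (hf : f ≠ 0) :
    ∏ i ∈ Finset.range p, (γ ^ i) (γ f) = ∏ i ∈ Finset.range p, (γ ^ i) f := by
  have h2 := Finset.prod_range_succ (fun j => (γ ^ j) f) p
  have h3 := Finset.prod_range_succ' (fun j => (γ ^ j) f) p
  rw [h2, D.pp, pow_zero, AlgEquiv.one_apply] at h3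
  have h4 := mul_right_cancel₀ hf h3
  rw [h4]
  refine Finset.prod_congr rfl fun i _ => ?_
  rw [pow_succ, AlgEquiv.mul_apply]

private theorem C3G.claim (D : C3G p W E b ζ γ) {F : Ex E b} (hF : C3Good p W F) {g : Ex E b}
    (hg : γ F = F * g ^ p) : ∃ u : Ex E b, u ^ p = F := by
  have hp0 := D.hp.ne_zero
  have hFv := hF.val
  have hF0 := hF.ne
  have hFd := hF.1
  obtain ⟨G, hG, hFG⟩ := hF.2
  have hFM : (F : M) ≠ 0 := hFd.ne_zero
  have hGM : (G : M) ≠ 0 := by
    intro h1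
    rw [h1, map_zero] at hG
    exact zero_ne_one hG
  have hG0 : G ≠ 0 := fun h1 => hGM (by rw [h1]; rfl)
  have hγG := D.one hG
  have hγGM : (γ G : M) ≠ 0 := by
    intro h1
    rw [h1, map_zero] at hγG
    exact zero_ne_one hγG
  have hγFv := D.one hFv
  have hgM : (γ F : M) = F * (g : M) ^ p := by
    rw [hg]
    push_cast
    rfl
  have hg1 : W.valuation (g : M) = 1 := by
    have h1 : W.valuation (g : M) ^ p = 1 := by
      rw [hgM, map_mul, hFv, one_mul, map_pow] at hγFv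
      exact hγFv
    exact (pow_eq_one_iff.1 h1).resolve_right hp0
  have hg0 : g ≠ 0 := by
    rintro rfl
    simp at hg1
  -- (a)
  set u : Ex E b := g * G / γ G with hu
  have huM : (u : M) = g * G / (γ G : M) := by
    rw [hu]
    push_cast
    rfl
  have hu1 : W.valuation (u : M) = 1 := by
    rw [huM, map_div₀, map_mul, hg1, hG, hγG, one_mul, div_one]
  have hγFG : W.valuation ((γ F : M) - (γ G : M) ^ p) < 1 := by
    have h1 : W.valuation (γ (F - G ^ p) : M) < 1 := by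
      refine D.lt ?_
      push_cast
      exact hFG
    rw [map_sub, map_pow] at h1
    push_cast at h1
    exact h1
  have hup : W.valuation ((u : M) ^ p - 1) < 1 := by
    have h1 : (u : M) ^ p - 1 =
        (((γ F : M) - (γ G : M) ^ p) * (G : M) ^ p - ((F : M) - (G : M) ^ p) * (γ G : M) ^ p) /
          ((F : M) * (γ G : M) ^ p) := by
      have h3 : (γ G : M) ^ p ≠ 0 := pow_ne_zero _ hγGM
      rw [huM, hgM, div_pow, mul_pow]
      field_simp
      ring
    rw [h1]
    refine C3_div ?_ (by rw [map_mul, map_pow, hFv, hγG, one_pow, one_mul])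
    refine Valuation.map_sub_lt _ ?_ ?_
    · rw [map_mul, map_pow, hG, one_pow, mul_one]
      exact hγFG
    · rw [map_mul, map_pow, hγG, one_pow, mul_one]
      exact hFG
  obtain ⟨ξ, hξ, huξ⟩ := unit_res (C := C) D.hp hup
  have hξM : (algebraMap C M ξ) ^ p = 1 := by rw [← map_pow, hξ, map_one]
  have hξ1 := C3_root (V := W) hp0 hξM
  have hprod : ∀ n : ℕ, W.valuation (((∏ i ∈ Finset.range n, (γ ^ i) u : Ex E b) : M) -
      algebraMap C M ξ ^ n) < 1 := by
    intro n
    induction n with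
    | zero => simp
    | succ n ih =>
      rw [Finset.prod_range_succ, pow_succ]
      push_cast
      push_cast at ih
      refine C3_sub_mul ?_ ((D.ipow n).1 hu1).le ih ?_
      · rw [map_pow, hξ1, one_pow]
      · have h1 : W.valuation (((γ ^ n) (u - algebraMap C (Ex E b) ξ) : Ex E b) : M) < 1 := by
          refine (D.ipow n).2 ?_
          push_cast
          exact huξ
        rw [map_sub, AlgEquiv.commutes] at h1
        push_cast at h1
        exact h1
  have hγG0 : γ G ≠ 0 := by rwa [Ne, map_eq_zero]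
  have hPu : ∏ i ∈ Finset.range p, (γ ^ i) u = ∏ i ∈ Finset.range p, (γ ^ i) g := by
    have h1 : u * γ G = g * G := by
      rw [hu, div_mul_cancel₀ _ hγG0]
    have h2 : ∏ i ∈ Finset.range p, (γ ^ i) (u * γ G) =
        ∏ i ∈ Finset.range p, (γ ^ i) (g * G) := by rw [h1]
    simp only [map_mul, Finset.prod_mul_distrib] at h2
    rw [D.norm hG0] at h2
    refine mul_right_cancel₀ (Finset.prod_ne_zero_iff.2 fun i _ => ?_) h2
    rwa [Ne, map_eq_zero]
  have hNp : (∏ i ∈ Finset.range p, (γ ^ i) g) ^ p = 1 := by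
    have h2 : ∏ i ∈ Finset.range p, (γ ^ i) (γ F) =
        ∏ i ∈ Finset.range p, (γ ^ i) (F * g ^ p) := by rw [hg]
    rw [D.norm hF0] at h2
    simp only [map_mul, map_pow, Finset.prod_mul_distrib, Finset.prod_pow] at h2
    have h3 : ∏ i ∈ Finset.range p, (γ ^ i) F ≠ 0 :=
      Finset.prod_ne_zero_iff.2 fun i _ => by rwa [Ne, map_eq_zero]
    exact (mul_eq_left₀ h3).1 h2.symm
  have hN : ∏ i ∈ Finset.range p, (γ ^ i) g = 1 := by
    apply Subtype.ext
    refine C3_root_eq hp0 D.hW.vp ?_ ?_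
    · have h1 := congrArg (fun x : Ex E b => (x : M)) hNp
      push_cast at h1
      push_cast
      exact h1
    · have h1 := hprod p
      rw [hPu, hξM] at h1
      exact h1
  -- (b)
  obtain ⟨u₀, hu₀, hgu⟩ := Gl.h90 hp0 (η := γ) (by
    intro i hi j hj hij
    have h1 := D.pow_b i
    rw [hij, D.pow_b j] at h1
    have hb0 : b ≠ 0 := by
      intro h
      exact D.hs.nm (h ▸ E.zero_mem)
    have h2 := mul_right_cancel₀ hb0 h1
    rw [← map_pow, ← map_pow] at h2
    exact (D.hζ.pow_inj hj hi ((algebraMap C M).injective h2)).symm) D.pp hN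
  obtain ⟨c, hc0, hc⟩ := D.hW.unit ((u₀⁻¹ : Ex E b) : M) (by
    intro h
    have : (u₀⁻¹ : Ex E b) = 0 := Subtype.ext h
    exact hu₀ (inv_eq_zero.1 this))
  set e : Ex E b := algebraMap C (Ex E b) c * u₀⁻¹ with he
  have heM : W.valuation (e : M) = 1 := by
    rw [he]
    exact hc
  have he0M : (e : M) ≠ 0 := by
    intro h1
    rw [h1, map_zero] at heM
    exact zero_ne_one heM
  have he0 : e ≠ 0 := fun h1 => he0M (by rw [h1]; rfl)
  have hγe : γ e = g * e := by
    have h1 : γ u₀ ≠ 0 := by rwa [Ne, map_eq_zero]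
    rw [he, map_mul, AlgEquiv.commutes, map_inv₀]
    have h2 : (γ u₀)⁻¹ = g * u₀⁻¹ := by
      refine inv_eq_of_mul_eq_one_left ?_
      calc g * u₀⁻¹ * γ u₀ = (g * γ u₀) * u₀⁻¹ := by ring
        _ = 1 := by rw [hgu, mul_inv_cancel₀ hu₀]
    rw [h2]
    ring
  set F' : Ex E b := F / e ^ p with hF'
  have hγF' : γ F' = F' := by
    rw [hF', map_div₀, map_pow, hγe, hg, mul_pow]
    have h1 : g ^ p ≠ 0 := pow_ne_zero _ hg0
    have h2 : e ^ p ≠ 0 := pow_ne_zero _ he0
    field_simp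
  have hF'E : (F' : M) ∈ E := D.ff _ hγF'
  have hF'M : (F' : M) = (F : M) / (e : M) ^ p := by
    rw [hF']
    push_cast
    rfl
  set G₁ : Ex E b := G / e with hG₁
  have hG₁M : (G₁ : M) = (G : M) / e := by
    rw [hG₁]
    push_cast
    rfl
  have hG₁v : W.valuation (G₁ : M) = 1 := by
    rw [hG₁M, map_div₀, hG, heM, div_one]
  have hG₁0 : (G₁ : M) ≠ 0 := by
    intro h1
    rw [h1, map_zero] at hG₁v
    exact zero_ne_one hG₁v
  have hFG₁ : W.valuation ((F' : M) - (G₁ : M) ^ p) < 1 := by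
    have h1 : (F' : M) - (G₁ : M) ^ p = ((F : M) - (G : M) ^ p) / (e : M) ^ p := by
      rw [hF'M, hG₁M, div_pow, sub_div]
    rw [h1]
    exact C3_div hFG (by rw [map_pow, heM, one_pow])
  -- (c)
  have hγG₁ : W.valuation ((F' : M) - (γ G₁ : M) ^ p) < 1 := by
    have h1 : W.valuation (γ (F' - G₁ ^ p) : M) < 1 := by
      refine D.lt ?_
      push_cast
      exact hFG₁
    rw [map_sub, map_pow, hγF'] at h1
    push_cast at h1
    exact h1
  have hu₁ : W.valuation (((γ G₁ : M) / G₁) ^ p - 1) < 1 := by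
    have h1 : ((γ G₁ : M) / G₁) ^ p - 1 =
        (((F' : M) - (G₁ : M) ^ p) - ((F' : M) - (γ G₁ : M) ^ p)) / (G₁ : M) ^ p := by
      have h3 : (G₁ : M) ^ p ≠ 0 := pow_ne_zero _ hG₁0
      rw [div_pow]
      field_simp
      ring
    rw [h1]
    exact C3_div (Valuation.map_sub_lt _ hFG₁ hγG₁) (by rw [map_pow, hG₁v, one_pow])
  obtain ⟨ξ₁, hξ₁, huξ₁⟩ := unit_res (C := C) D.hp hu₁
  haveI : NeZero p := ⟨hp0⟩
  obtain ⟨j, hj, rfl⟩ := D.hζ.eq_pow_of_pow_eq_one hξ₁
  obtain ⟨a, ha, hGa⟩ := ex_repr D.hp D.hs.pw G₁.2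
  have haW : ∀ i < p, a i ∈ W := by
    refine (ex_mem D.hp D.hW D.hri D.hs fun i _ => ha i).1.1 ?_
    rw [← hGa, ← W.valuation_le_one_iff]
    exact hG₁v.le
  have hdiff : ∀ i < p, W.valuation (a i * (algebraMap C M ζ ^ i - algebraMap C M ζ ^ j)) < 1 := by
    refine (ex_mem D.hp D.hW D.hri D.hs
      (a := fun i => a i * (algebraMap C M ζ ^ i - algebraMap C M ζ ^ j)) fun i _ =>
      E.mul_mem (ha i) (E.sub_mem (pow_mem (E.algebraMap_mem ζ) i)
        (pow_mem (E.algebraMap_mem ζ) j))).2.1 ?_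
    have h1 : ∑ i ∈ Finset.range p,
        (a i * (algebraMap C M ζ ^ i - algebraMap C M ζ ^ j)) * b ^ i =
        ((γ G₁ : M) / G₁ - algebraMap C M (ζ ^ j)) * G₁ := by
      rw [sub_mul, div_mul_cancel₀ _ hG₁0, D.sum ha hGa]
      conv_rhs => rw [hGa]
      rw [Finset.mul_sum, ← Finset.sum_sub_distrib]
      refine Finset.sum_congr rfl fun i _ => ?_
      rw [map_pow]
      ring
    rw [h1, map_mul, hG₁v, mul_one]
    exact huξ₁
  have hai : ∀ i < p, i ≠ j → W.valuation (a i) < 1 := by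
    intro i hi hij
    have h1 := hdiff i hi
    have h2 : W.valuation (algebraMap C M ζ ^ i - algebraMap C M ζ ^ j) = 1 := by
      refine le_antisymm ?_ ?_
      · refine W.valuation.map_sub_le ?_ ?_
        · exact (C3_root hp0 (D.zeta i)).le
        · exact (C3_root hp0 (D.zeta j)).le
      · by_contra h3
        push Not at h3
        have h4 := C3_root_eq' hp0 D.hW.vp (D.zeta i) (D.zeta j) h3
        rw [← map_pow, ← map_pow] at h4
        exact hij (D.hζ.pow_inj hi hj ((algebraMap C M).injective h4))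
    rw [map_mul, h2, mul_one] at h1
    exact h1
  have hsub : W.valuation ((G₁ : M) - a j * b ^ j) < 1 := by
    have h1 : (G₁ : M) - a j * b ^ j =
        ∑ i ∈ Finset.range p, (if i = j then 0 else a i) * b ^ i := by
      rw [hGa, ← Finset.sum_erase_add _ _ (Finset.mem_range.2 hj), add_sub_cancel_right]
      rw [← Finset.sum_erase_add (f := fun i => (if i = j then 0 else a i) * b ^ i) _
        (Finset.mem_range.2 hj)]
      rw [if_pos rfl, zero_mul, add_zero]
      refine Finset.sum_congr rfl fun i hi => ?_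
      rw [if_neg (Finset.ne_of_mem_erase hi)]
    rw [h1]
    refine (ex_mem D.hp D.hW D.hri D.hs (a := fun i => if i = j then 0 else a i) ?_).2.2 ?_
    · intro i _
      split_ifs
      · exact E.zero_mem
      · exact ha i
    · intro i hi
      split_ifs with h2
      · rw [map_zero]
        exact zero_lt_one
      · exact hai i hi h2
  have hb1 := D.hs.one
  have hb0 : b ≠ 0 := by
    intro h
    exact D.hs.nm (h ▸ E.zero_mem)
  have hab : W.valuation (a j * b ^ j) = 1 := by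
    refine C3_of_sub hG₁v ?_
    rw [← neg_sub, Valuation.map_neg]
    exact hsub
  have haj : W.valuation (a j) = 1 := by
    rw [map_mul, map_pow, hb1, one_pow, mul_one] at hab
    exact hab
  have hFab : W.valuation ((F' : M) - (a j * b ^ j) ^ p) < 1 := by
    have h1 : (F' : M) - (a j * b ^ j) ^ p =
        ((F' : M) - (G₁ : M) ^ p) + ((G₁ : M) ^ p - (a j * b ^ j) ^ p) := by ring
    rw [h1]
    exact Valuation.map_add_lt _ hFG₁ (C3_pow_sub hG₁v.le hab.le hsub p)
  have hbp : (b ^ j) ^ p = (b ^ p) ^ j := by rw [← pow_mul, ← pow_mul, mul_comm]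
  have hF''E : (F' : M) / (b ^ j) ^ p ∈ E := by
    rw [hbp]
    exact E.div_mem hF'E (pow_mem D.hs.pw j)
  have hF''v : W.valuation ((F' : M) / (b ^ j) ^ p - a j ^ p) < 1 := by
    have h1 : (F' : M) / (b ^ j) ^ p - a j ^ p =
        ((F' : M) - (a j * b ^ j) ^ p) / (b ^ j) ^ p := by
      rw [mul_pow, sub_div, mul_div_cancel_right₀ _ (pow_ne_zero _ (pow_ne_zero _ hb0))]
    rw [h1]
    exact C3_div hFab (by rw [map_pow, map_pow, hb1, one_pow, one_pow])
  -- (d)
  have hF''d : DivE p E ((F' : M) / (b ^ j) ^ p) := by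
    refine desc D.hp D.hE D.hs.pw D.hs.dv ?_
    have h1 : (F' : M) / (b ^ j) ^ p = (F : M) * (((e : M) * b ^ j) ^ p)⁻¹ := by
      rw [hF'M, mul_pow, div_div, div_eq_mul_inv]
    rw [h1]
    refine hFd.mul (DivE.inv (divE_pow ?_ ?_))
    · exact (Ex E b).mul_mem e.2 (pow_mem C3_bmem j)
    · exact mul_ne_zero he0M (pow_ne_zero _ hb0)
  obtain ⟨w, hwE, hw⟩ := D.hri _ hF''E _ (ha j) haj hF''v hF''d
  refine ⟨⟨w, C3_emem hwE⟩ * ⟨b, C3_bmem⟩ ^ j * e, ?_⟩
  apply Subtype.ext
  push_cast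
  rw [mul_pow, mul_pow, hw, div_mul_cancel₀ _ (pow_ne_zero _ (pow_ne_zero _ hb0)), hF'M,
    div_mul_cancel₀ _ (pow_ne_zero _ he0M)]

/-! ### the operator `γ - 1` -/

/-- in an abelian group with an endomorphism `T`, `T ^ p = 1`: `(T - 1) ^ p = p r` -/
private theorem C3_op {A : Type*} [AddCommGroup A] {q : ℕ} (hq : q.Prime)
    (T : AddMonoid.End A) (hT : T ^ q = 1) :
    ∃ r : AddMonoid.End A, (T - 1) ^ q = (q : AddMonoid.End A) * r := by
  obtain ⟨r, hr⟩ := Commute.exists_add_pow_prime_eq hq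
    ((Commute.one_right T).neg_right : Commute T (-1))
  rw [← sub_eq_add_neg, hT] at hr
  rcases hq.eq_two_or_odd' with rfl | ho
  · refine ⟨1 + T * (-1) * r, ?_⟩
    rw [hr]
    push_cast
    noncomm_ring
  · refine ⟨T * (-1) * r, ?_⟩
    rw [hr, ho.neg_one_pow]
    noncomm_ring

theorem ri_step (hp : p.Prime) (hE : FF E) (hW : Wv p C W) (hri : RI p W E) (hs : Sp p W E b) :
    RI p W (Ex E b) := by
  intro f hf g hg hg1 hfg hdf
  haveI : NeZero p := ⟨hp.ne_zero⟩
  haveI : NeZero (p : C) := ⟨Nat.cast_ne_zero.2 hp.ne_zero⟩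
  obtain ⟨ζ, hζ⟩ := HasEnoughRootsOfUnity.exists_primitiveRoot C p
  obtain ⟨γ, h1, h2, h3, h4⟩ := ex_gamma hp hζ hs.pw hs.nm
  have D : C3G p W E b ζ γ := ⟨hp, hE, hW, hri, hs, hζ, h1, h2, h3, h4⟩
  have hgood : C3Good p W (⟨f, hf⟩ : Ex E b) := ⟨hdf, ⟨g, hg⟩, hg1, hfg⟩
  let σ : (Ex E b)ˣ →* (Ex E b)ˣ := Units.map (γ : Ex E b →* Ex E b)
  let T : AddMonoid.End (Additive (Ex E b)ˣ) := MonoidHom.toAdditive σ
  have hTa : ∀ x : (Ex E b)ˣ, ((Additive.toMul (T (Additive.ofMul x)) : (Ex E b)ˣ) : Ex E b) =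
      γ x := fun x => rfl
  have hTp : T ^ p = 1 := by
    have h5 : ∀ (n : ℕ) (x : Additive (Ex E b)ˣ),
        ((Additive.toMul ((T ^ n) x) : (Ex E b)ˣ) : Ex E b) =
          (γ ^ n) ((Additive.toMul x : (Ex E b)ˣ) : Ex E b) := by
      intro n
      induction n with
      | zero => exact fun x => rfl
      | succ n ih =>
        intro x
        rw [pow_succ', pow_succ', AlgEquiv.mul_apply, ← ih]
        rfl
    refine DFunLike.ext _ _ fun x => ?_
    apply Additive.toMul.injective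
    apply Units.ext
    rw [h5, D.pp]
    rfl
  obtain ⟨r, hr⟩ := C3_op hp T hTp
  let F₀ : (Ex E b)ˣ := Units.mk0 ⟨f, hf⟩ hgood.ne
  let s : ℕ → Additive (Ex E b)ˣ := fun j => ((T - 1) ^ j) (Additive.ofMul F₀)
  have hs1 : ∀ j, ((Additive.toMul (s (j + 1)) : (Ex E b)ˣ) : Ex E b) =
      γ ((Additive.toMul (s j) : (Ex E b)ˣ) : Ex E b) /
        ((Additive.toMul (s j) : (Ex E b)ˣ) : Ex E b) := by
    intro j
    have h6 : s (j + 1) = T (s j) - s j := by
      show ((T - 1) ^ (j + 1)) (Additive.ofMul F₀) = _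
      rw [pow_succ']
      rfl
    rw [h6, toMul_sub, Units.val_div_eq_div_val]
    rfl
  have hsg : ∀ j, C3Good p W ((Additive.toMul (s j) : (Ex E b)ˣ) : Ex E b) := by
    intro j
    induction j with
    | zero => exact hgood
    | succ j ih =>
      rw [hs1]
      exact (ih.gam D).div ih
  have hdown : ∀ k ≤ p, ∃ u : Ex E b, u ^ p =
      ((Additive.toMul (s (p - k)) : (Ex E b)ˣ) : Ex E b) := by
    intro k
    induction k with
    | zero =>
      intro _
      refine ⟨((Additive.toMul (r (Additive.ofMul F₀)) : (Ex E b)ˣ) : Ex E b), ?_⟩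
      have h7 : s (p - 0) = p • r (Additive.ofMul F₀) := by
        show ((T - 1) ^ p) (Additive.ofMul F₀) = _
        rw [hr]
        show (p : AddMonoid.End (Additive (Ex E b)ˣ)) (r (Additive.ofMul F₀)) = _
        rw [AddMonoid.End.natCast_apply]
      rw [h7, toMul_nsmul, Units.val_pow_eq_pow_val]
    | succ k ih =>
      intro hk
      obtain ⟨u, hu⟩ := ih (by omega)
      have h8 : p - k = (p - (k + 1)) + 1 := by omega
      rw [h8, hs1] at hu
      have h9 : ((Additive.toMul (s (p - (k + 1))) : (Ex E b)ˣ) : Ex E b) ≠ 0 := Units.ne_zero _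
      refine D.claim (hsg _) (g := u) ?_
      rw [hu, mul_div_cancel₀]
      exact h9
  obtain ⟨u, hu⟩ := hdown p le_rfl
  rw [Nat.sub_self] at hu
  refine ⟨u, u.2, ?_⟩
  have h10 := congrArg (fun x : Ex E b => (x : M)) hu
  push_cast at h10
  exact h10

end Pool.Agent.Lib.MP_2f3286_ag.Pp
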