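import Pool.Agent.Lib.MP_2f3286_ag.Pp.C1

/-!
# Powers of `p`; inertia elements on the roots   (module C4)

PROOF of `ri_pow`. Induction on `n` (as Gl/RIC.lean). `n = 0`: `u = f`. `n + 1`: `f ≡ (g ^ (p ^ n)) ^ p` (valuation of the difference `< 1`), `DivE p E f` (`DivE.dvd`), so `f = u ^ p`, `u ∈ E` (`RI`). `(u / g ^ (p ^ n)) ^ p ≡ 1`, so by `unit_res` `u ≡ ξ g ^ (p ^ n)`,
`ξ ∈ C`, `ξ ^ p = 1`; `ξ = ξ' ^ (p ^ n)` in `C`, `W(ξ') = 1` (a power of it is `1`); `u ≡ (ξ' g) ^ (p ^ n)`. `DivE (p ^ n) E u` (`DivE.root` with `n = p`). Induction: `u = w ^ (p ^ n)`.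
PROOF of `tri`. `z ^ (p ^ n) = f ∈ E`, `DivE (p ^ n) E f`, `f ≠ 0`. `c ∈ C`, `c ≠ 0`, `W(c f) = 1` (`hW.unit`). By `hT` (`Tr`), `A.g (c f) ≡ c f`, so `F = A.g (c f) / (c f) ∈ E` satisfies `W(F - 1) < 1`; `DivE (p ^ n) E F` (`DivE.map`, `mul`, `inv`, `divE_const`). `ri_pow` with `g = 1`:
`F = u ^ (p ^ n)`, `u ∈ E`. `(A.g z / z) ^ (p ^ n) = A.g f / f = F * c / A.gC c = (u c₁) ^ (p ^ n)` with `c₁ ∈ C`, `c₁ ^ (p ^ n) = c / A.gC c`. So `A.g z / z = ξ u c₁`, `ξ` a root of unity, in `C` (`root_of_unity_mem`), so in `E`.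
-/

open Polynomial IntermediateField

namespace Pool.Agent.Lib.MP_2f3286_ag.Pp

variable {C M : Type*} [Field C] [IsAlgClosed C] [CharZero C] [Field M] [Algebra C M]
  {E : IntermediateField C M} {p : ℕ} {W : ValuationSubring M}

private theorem c4_val_one {K : Type*} [Field K] (Q : ValuationSubring K) {u : K} {m : ℕ}
    (hm : m ≠ 0) (h : Q.valuation (u ^ m) = 1) : Q.valuation u = 1 := by
  rw [map_pow] at h
  exact (pow_eq_one_iff_of_nonneg zero_le hm).1 h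

theorem ri_pow (hp : p.Prime) (hri : RI p W E) (n : ℕ) {f g : M} (hf : f ∈ E) (hg : g ∈ E)
    (hg1 : W.valuation g = 1) (h : W.valuation (f - g ^ p ^ n) < 1) (hd : DivE (p ^ n) E f) :
    ∃ u ∈ E, u ^ p ^ n = f := by
  induction n generalizing f g with
  | zero => exact ⟨f, hf, by rw [pow_zero, pow_one]⟩
  | succ n ih =>
    have e1 : g ^ p ^ (n + 1) = (g ^ p ^ n) ^ p := by rw [← pow_mul, pow_succ]
    rw [e1] at h
    have hg' : g ^ p ^ n ∈ E := pow_mem hg _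
    have hg1' : W.valuation (g ^ p ^ n) = 1 := by rw [map_pow, hg1, one_pow]
    have hg0' : g ^ p ^ n ≠ 0 := by
      intro h0
      rw [h0, map_zero] at hg1'
      exact zero_ne_one hg1'
    have hd1 : DivE p E f := hd.dvd (dvd_pow_self p (Nat.succ_ne_zero n))
    obtain ⟨u, hu, huf⟩ := hri f hf (g ^ p ^ n) hg' hg1' h hd1
    -- `u` is a constant times `g ^ p ^ n`, modulo the maximal ideal
    have h2 : W.valuation ((u / g ^ p ^ n) ^ p - 1) < 1 := by
      have e2 : (u / g ^ p ^ n) ^ p - 1 = (f - (g ^ p ^ n) ^ p) / (g ^ p ^ n) ^ p := by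
        rw [div_pow, huf, sub_div, div_self (pow_ne_zero p hg0')]
      rw [e2, map_div₀, map_pow _ _ p, hg1', one_pow, div_one]
      exact h
    obtain ⟨ξ, hξ, hξv⟩ := unit_res (C := C) hp h2
    obtain ⟨ξ', hξ'⟩ := IsAlgClosed.exists_pow_nat_eq ξ (pow_pos hp.pos n)
    have hξ1 : W.valuation (algebraMap C M ξ') = 1 := by
      apply c4_val_one W (m := p ^ n * p) (Nat.mul_ne_zero (pow_ne_zero _ hp.ne_zero) hp.ne_zero)
      rw [← map_pow (algebraMap C M), pow_mul, hξ', hξ, map_one, map_one]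
    have h3 : W.valuation (u - (algebraMap C M ξ' * g) ^ p ^ n) < 1 := by
      have e3 : u - (algebraMap C M ξ' * g) ^ p ^ n
          = (u / g ^ p ^ n - algebraMap C M ξ) * g ^ p ^ n := by
        rw [mul_pow, ← map_pow (algebraMap C M), hξ', sub_mul, div_mul_cancel₀ _ hg0']
      rw [e3, map_mul, hg1', mul_one]
      exact hξv
    have hdu : DivE (p ^ n) E u := by
      apply DivE.root hp.ne_zero
      rw [huf, ← pow_succ']
      exact hd
    obtain ⟨w, hw, hwu⟩ := ih hu (mul_mem (E.algebraMap_mem ξ') hg)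
      (by rw [map_mul, hξ1, hg1, one_mul]) h3 hdu
    exact ⟨w, hw, by rw [pow_succ, pow_mul, hwu, huf]⟩

theorem tri (hp : p.Prime) (hW : Wv p C W) (hri : RI p W E) (A : SA C M) (hA : Pre A E)
    (hT : Tr W A E) {z : M} (hz : JE p E z) : ∃ u ∈ E, A.g z = z * u := by
  obtain ⟨hz0, n, hmem, hdiv⟩ := hz
  have hf0 : z ^ p ^ n ≠ 0 := pow_ne_zero _ hz0
  obtain ⟨c, hc0, hcv⟩ := hW.unit (z ^ p ^ n) hf0
  have hac : algebraMap C M c ≠ 0 := (map_ne_zero_iff _ (algebraMap C M).injective).2 hc0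
  have hgc0 : A.gC c ≠ 0 := (map_ne_zero_iff _ A.gC.injective).2 hc0
  have hagc : algebraMap C M (A.gC c) ≠ 0 :=
    (map_ne_zero_iff _ (algebraMap C M).injective).2 hgc0
  have hcf : algebraMap C M c * z ^ p ^ n ∈ E := mul_mem (E.algebraMap_mem c) hmem
  have hcf0 : algebraMap C M c * z ^ p ^ n ≠ 0 := mul_ne_zero hac hf0
  obtain ⟨-, h2⟩ := hT _ hcf ((W.valuation_le_one_iff _).1 hcv.le)
  have hFE : A.g (algebraMap C M c * z ^ p ^ n) / (algebraMap C M c * z ^ p ^ n) ∈ E :=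
    div_mem ((hA _).2 hcf) hcf
  have hF1 : W.valuation (A.g (algebraMap C M c * z ^ p ^ n) / (algebraMap C M c * z ^ p ^ n)
      - 1 ^ p ^ n) < 1 := by
    rw [one_pow, div_sub_one hcf0, map_div₀, hcv, div_one]
    exact h2
  have hdcf : DivE (p ^ n) E (algebraMap C M c * z ^ p ^ n) := (divE_const hc0).mul hdiv
  have hFd : DivE (p ^ n) E
      (A.g (algebraMap C M c * z ^ p ^ n) / (algebraMap C M c * z ^ p ^ n)) := by
    rw [div_eq_mul_inv]
    exact (hdcf.map A hA).mul hdcf.inv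
  obtain ⟨u, hu, huF⟩ := ri_pow (C := C) hp hri n hFE (one_mem E) (map_one _) hF1 hFd
  obtain ⟨c₁, hc₁⟩ := IsAlgClosed.exists_pow_nat_eq (c / A.gC c) (pow_pos hp.pos n)
  have hu0 : u ≠ 0 := by
    rintro rfl
    rw [zero_pow (pow_ne_zero _ hp.ne_zero)] at huF
    have : A.g (algebraMap C M c * z ^ p ^ n) ≠ 0 := (map_ne_zero_iff _ A.g.injective).2 hcf0
    exact (div_ne_zero this hcf0) huF.symm
  have hc₁0 : c₁ ≠ 0 := by
    rintro rfl
    rw [zero_pow (pow_ne_zero _ hp.ne_zero)] at hc₁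
    exact (div_ne_zero hc0 hgc0) hc₁.symm
  have hac₁ : algebraMap C M c₁ ≠ 0 := (map_ne_zero_iff _ (algebraMap C M).injective).2 hc₁0
  -- the quotient is a root of unity
  have key : (A.g z / (z * (u * algebraMap C M c₁))) ^ p ^ n = 1 := by
    have e1 : (A.g z) ^ p ^ n = A.g (z ^ p ^ n) := (map_pow A.g z _).symm
    have e2 : (algebraMap C M c₁) ^ p ^ n = algebraMap C M c / algebraMap C M (A.gC c) := by
      rw [← map_pow, hc₁, map_div₀]
    have e3 : A.g (z ^ p ^ n) ≠ 0 := (map_ne_zero_iff _ A.g.injective).2 hf0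
    rw [div_pow, mul_pow, mul_pow, e1, huF, e2, map_mul, A.hC]
    field_simp
  obtain ⟨ξ, hξ⟩ := root_of_unity_mem C M (pow_pos hp.pos n) key
  refine ⟨u * algebraMap C M c₁ * algebraMap C M ξ,
    mul_mem (mul_mem hu (E.algebraMap_mem c₁)) (E.algebraMap_mem ξ), ?_⟩
  have hne : z * (u * algebraMap C M c₁) ≠ 0 := mul_ne_zero hz0 (mul_ne_zero hu0 hac₁)
  rw [hξ, ← mul_assoc z, mul_div_cancel₀ _ hne]

end Pool.Agent.Lib.MP_2f3286_ag.Pp
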