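import Pool.Agent.Lib.MP_2f3286_ag.Pp.C4
import Pool.Agent.Lib.MP_2f3286_ag.Gl.AG

/-!
# The weight argument for the residues at `W`   (module C5)

We write: `q = l ^ e`; `A₁ = {z | JE p E z, W(z) = 1}`, a group, stable under `T.g`, `Φ.g`, `S.g` (`JE.map`; `(Φ.g z) ^ (p ^ n) = Φ.g f` with `f = z ^ (p ^ n) ∈ E`, `W(f) = 1`, and `f`, `f⁻¹ ∈ W` so `Φ.g f`, `(Φ.g f)⁻¹ ∈ W` by `h.wF`; for `T`, `S` by `h.tT`, `h.tS`). For `z ∈ A₁`,
`T.g z / z ∈ E` (`tri`), of valuation one, and its `p ^ n`-th power `T.g f / f` is `≡ 1` (valuation of the difference `< 1`), so by `unit_res` and induction on `n` there is `ξ ∈ C`, `ξ ^ (p ^ n) = 1`, `T.g z / z ≡ ξ` (`ξ` is unique: two roots of unity of order a power of `p` which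
are congruent are equal, since `W(p) = 1`): write `τ z = ξ`, multiplicative in `z`, and `τ z = 1` for `z ∈ E` (`h.tT`). The same for `S`: `σ z`.
(1) `σ z = 1` for `z ∈ A₁` (this is `pts`). `S.g^[j] z ≡ (σ z) ^ j z`: `S.g (S.g^[j] z) = S.g^[j] (S.g z)` and `S.g z = z u`, `u ∈ E`, `u ≡ σ z`, `S.g^[j] u ≡ u`. With `k` from `ctx.per z`: `(σ z) ^ k = 1`, `¬ p ∣ k`, so `σ z = 1`.
(2) `τ (Φ.g z) = τ z`. `Φ.g (T.g z) = Φ.g z * Φ.g u` with `u = T.g z / z ≡ τ z =: ξ`; `u - ξ ∈ E` has valuation `< 1`, so `Φ.g u ≡ Φ.gC ξ = ξ ^ q` (`h.wF` for `(u - ξ)⁻¹`; `ctx.mu`). By `ctx.rel` it is `T.g^[q] (S.g (Φ.g z)) ≡ (τ (Φ.g z)) ^ q Φ.g z` (by (1) `S.g (Φ.g z) = Φ.g z * v`, `v ∈ E`,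
`v ≡ 1`, and `T.g^[q] (Φ.g z) ≡ (τ (Φ.g z)) ^ q Φ.g z` as in (1)). So `ξ ^ q = (τ (Φ.g z)) ^ q`; `q = l ^ e` is prime to `p` (`ctx.hpl`), so they are equal.
(3) Surjectivity: for `z ∈ A₁` there are `w`, `JE p E w`, and `c ∈ E`, `c ≠ 0`, with `Φ.g w = w * z * c`: `Gl.ag` (Gl/AG.lean) with `G = Mˣ`, `A = {JE p E}`, `N = {∈ E}`, `hdiv` from `JE.div`, `hfin` from `Gl.IsJ.fin` (Gl/JD.lean, `je_iff`), `hfix` from `hbd`. Multiply `w` by a constant:
`w ∈ A₁`. (4) `Φ.g w / w = z c`, both `z` and `Φ.g w / w` in `A₁`, so `c ∈ A₁ ∩ E`, `τ c = 1`; `τ z = τ (Φ.g w) / τ w = 1`: `T.g z / z ≡ 1`, this is `pt`.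
-/

open Polynomial IntermediateField

namespace Pool.Agent.Lib.MP_2f3286_ag.Pp

variable {C M : Type*} [Field C] [IsAlgClosed C] [CharZero C] [Field M] [Algebra C M]
  {E : IntermediateField C M} {p l e : ℕ} {W : ValuationSubring M} {T Φ S : SA C M} {x : M}


private theorem c5_rt {m : ℕ} (hm : m ≠ 0) {u : M} (h : W.valuation (u ^ m - 1) < 1) :
    ∃ ξ : C, ξ ^ m = 1 ∧ W.valuation (u - algebraMap C M ξ) < 1 := by
  have hmo : (X ^ m - Polynomial.C (1 : C)).Monic := monic_X_pow_sub_C 1 hm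
  have hs := (IsAlgClosed.splits (X ^ m - Polynomial.C (1 : C))).eq_prod_roots_of_monic hmo
  have h1 := congrArg (aeval u) hs
  rw [map_sub, map_pow, aeval_X, aeval_C, map_one, map_multiset_prod, Multiset.map_map] at h1
  by_contra hc
  push Not at hc
  rw [h1] at h
  have h2 : ∀ s : Multiset C, (∀ ξ ∈ s, ξ ^ m = 1) →
      1 ≤ W.valuation ((s.map (aeval u ∘ fun a => X - Polynomial.C a)).prod) := by
    intro s
    induction s using Multiset.induction_on with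
    | empty => intro _; simp
    | cons a s ih =>
      intro hs
      rw [Multiset.map_cons, Multiset.prod_cons, map_mul]
      have h3 := ih (fun ξ hξ => hs ξ (Multiset.mem_cons_of_mem hξ))
      have h4 := hc a (hs a (Multiset.mem_cons_self a s))
      have h5 : (aeval u ∘ fun a => X - Polynomial.C a) a = u - algebraMap C M a := by simp
      rw [h5]
      exact one_le_mul h4 h3
  refine absurd h (not_lt.2 (h2 _ ?_))
  intro ξ hξ
  have h3 := (mem_roots'.1 hξ).2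
  rw [IsRoot.def, eval_sub, eval_pow, eval_X, eval_C] at h3
  exact sub_eq_zero.1 h3

private theorem c5_pw {W : ValuationSubring M} {z : M} {m : ℕ} (hm : m ≠ 0)
    (h : W.valuation (z ^ m) = 1) : W.valuation z = 1 := by
  rw [map_pow] at h
  exact (pow_eq_one_iff.1 h).resolve_right hm

private theorem c5_iff {W : ValuationSubring M} {x : M} :
    W.valuation x = 1 ↔ x ≠ 0 ∧ x ∈ W ∧ x⁻¹ ∈ W := by
  constructor
  · intro h
    refine ⟨?_, ?_, ?_⟩
    · rintro rfl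
      rw [map_zero] at h
      exact zero_ne_one h
    · rw [← W.valuation_le_one_iff, h]
    · rw [← W.valuation_le_one_iff, map_inv₀, h, inv_one]
  · rintro ⟨h0, h1, h2⟩
    rw [← W.valuation_le_one_iff] at h1 h2
    rw [map_inv₀] at h2
    have h3 : W.valuation x ≠ 0 := (Valuation.ne_zero_iff _).mpr h0
    refine le_antisymm h1 ?_
    by_contra h4
    push Not at h4
    have h5 := (one_lt_inv₀ (zero_lt_iff.mpr h3)).mpr h4
    exact absurd h2 (not_le.mpr h5)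

/-- a root of unity has valuation one -/
private theorem c5_ru {W : ValuationSubring M} {ξ : C} {m : ℕ} (hm : m ≠ 0) (h : ξ ^ m = 1) :
    W.valuation (algebraMap C M ξ) = 1 := by
  apply c5_pw hm
  rw [← map_pow, h, map_one, map_one]

/-- congruent roots of unity of `p`-power order are equal -/
private theorem c5_uq0 (hp : p.Prime) (hv : W.valuation (p : M) = 1) (n : ℕ) :
    ∀ ζ : C, ζ ^ p ^ n = 1 → W.valuation (algebraMap C M ζ - 1) < 1 → ζ = 1 := by
  induction n with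
  | zero =>
    intro ζ h _
    rwa [pow_zero, pow_one] at h
  | succ n ih =>
    intro ζ h hlt
    have hζ1 : W.valuation (algebraMap C M ζ) = 1 := c5_ru (pow_ne_zero _ hp.ne_zero) h
    have hpw : ∀ i : ℕ, W.valuation (algebraMap C M ζ ^ i - 1) < 1 := by
      intro i
      induction i with
      | zero => simp
      | succ i ihi =>
        have h1 : algebraMap C M ζ ^ (i + 1) - 1 =
            algebraMap C M ζ * (algebraMap C M ζ ^ i - 1) + (algebraMap C M ζ - 1) := by ring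
        rw [h1]
        apply Valuation.map_add_lt
        · rw [map_mul, hζ1, one_mul]
          exact ihi
        · exact hlt
    have h1 : ζ ^ p = 1 := by
      apply ih
      · rw [← pow_mul, ← pow_succ']
        exact h
      · rw [map_pow]
        exact hpw p
    by_contra hne
    have h2 : (∑ i ∈ Finset.range p, ζ ^ i) = 0 := by
      have h3 := geom_sum_mul ζ p
      rw [h1, sub_self] at h3
      exact (mul_eq_zero.1 h3).resolve_right (sub_ne_zero.2 hne)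
    have h4 : W.valuation (∑ i ∈ Finset.range p, (algebraMap C M ζ ^ i - 1)) < 1 := by
      apply Valuation.map_sum_lt
      · exact one_ne_zero
      · intro i _
        exact hpw i
    rw [Finset.sum_sub_distrib, Finset.sum_const, Finset.card_range, nsmul_eq_mul, mul_one] at h4
    have h5 : (∑ i ∈ Finset.range p, algebraMap C M ζ ^ i) = 0 := by
      rw [← map_zero (algebraMap C M), ← h2, map_sum]
      exact Finset.sum_congr rfl fun i _ => (map_pow _ _ _).symm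
    rw [h5, zero_sub, Valuation.map_neg, hv] at h4
    exact lt_irrefl _ h4

private theorem c5_uq (hp : p.Prime) (hv : W.valuation (p : M) = 1) {ξ η : C} {n m : ℕ}
    (hξ : ξ ^ p ^ n = 1) (hη : η ^ p ^ m = 1) {z : M} (hz : W.valuation z = 1)
    (h : W.valuation (algebraMap C M ξ * z - algebraMap C M η * z) < 1) : ξ = η := by
  have hη0 : η ≠ 0 := by
    rintro rfl
    rw [zero_pow (pow_ne_zero _ hp.ne_zero)] at hη
    exact zero_ne_one hη
  have h1 : ξ / η = 1 := by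
    apply c5_uq0 hp hv (n + m)
    · rw [div_pow]
      have h2 : ξ ^ p ^ (n + m) = 1 := by rw [pow_add, pow_mul, hξ, one_pow]
      have h3 : η ^ p ^ (n + m) = 1 := by rw [add_comm, pow_add, pow_mul, hη, one_pow]
      rw [h2, h3, div_one]
    · have h2 : W.valuation (algebraMap C M η) = 1 := c5_ru (pow_ne_zero _ hp.ne_zero) hη
      have h3 : algebraMap C M (ξ / η) - 1 =
          (algebraMap C M ξ * z - algebraMap C M η * z) * ((algebraMap C M η)⁻¹ * z⁻¹) := by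
        have hz0 : z ≠ 0 := (c5_iff.1 hz).1
        have hη1 : algebraMap C M η ≠ 0 := (map_ne_zero (algebraMap C M)).2 hη0
        rw [map_div₀]
        field_simp
      rw [h3, map_mul, map_mul, map_inv₀, map_inv₀, h2, hz, inv_one, mul_one, mul_one]
      exact h
  exact (div_eq_one_iff_eq hη0).1 h1

private theorem c5_cop {C : Type*} [Field C] {p k n : ℕ} (hp : p.Prime) (hk : ¬ p ∣ k) {x : C}
    (h1 : x ^ k = 1) (h2 : x ^ p ^ n = 1) : x = 1 := by
  have h3 : orderOf x ∣ Nat.gcd k (p ^ n) :=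
    Nat.dvd_gcd (orderOf_dvd_of_pow_eq_one h1) (orderOf_dvd_of_pow_eq_one h2)
  have h4 : Nat.gcd k (p ^ n) = 1 :=
    (Nat.Coprime.pow_left n ((Nat.Prime.coprime_iff_not_dvd hp).2 hk)).symm
  rw [h4, Nat.dvd_one] at h3
  exact orderOf_eq_one_iff.1 h3

/-- `A.g z` is `ξ z` up to valuation less than one, with a root of unity `ξ` -/
private def C5Rt (p : ℕ) (W : ValuationSubring M) (A : SA C M) (z : M) (ξ : C) : Prop :=
  (∃ n : ℕ, ξ ^ p ^ n = 1) ∧ W.valuation (A.g z - algebraMap C M ξ * z) < 1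

private theorem C5Rt.uniq (hp : p.Prime) (hv : W.valuation (p : M) = 1) {A : SA C M} {z : M} {ξ η : C}
    (hz : W.valuation z = 1) (h : C5Rt p W A z ξ) (h' : C5Rt p W A z η) : ξ = η := by
  obtain ⟨⟨n, hn⟩, h1⟩ := h
  obtain ⟨⟨m, hm⟩, h2⟩ := h'
  refine c5_uq hp hv hn hm hz ?_
  have h3 : algebraMap C M ξ * z - algebraMap C M η * z =
      (A.g z - algebraMap C M η * z) - (A.g z - algebraMap C M ξ * z) := by ring
  rw [h3]
  exact Valuation.map_sub_lt _ h2 h1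

private theorem C5Rt.one {A : SA C M} {z : M} {ξ : C} (hp : p.Prime) (hz : W.valuation z = 1)
    (h : C5Rt p W A z ξ) : W.valuation (A.g z) = 1 := by
  obtain ⟨⟨n, hn⟩, h1⟩ := h
  have h2 : W.valuation (algebraMap C M ξ * z) = 1 := by
    rw [map_mul, hz, mul_one]
    exact c5_ru (pow_ne_zero _ hp.ne_zero) hn
  have h3 : A.g z = algebraMap C M ξ * z + (A.g z - algebraMap C M ξ * z) := by ring
  rw [h3, Valuation.map_add_eq_of_lt_left _ (by rw [h2]; exact h1), h2]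

private theorem C5Rt.mul {A : SA C M} {z w : M} {ξ η : C} (hp : p.Prime) (hz : W.valuation z = 1)
    (hw : W.valuation w = 1) (h : C5Rt p W A z ξ) (h' : C5Rt p W A w η) : C5Rt p W A (z * w) (ξ * η) := by
  have hz1 := h.one hp hz
  obtain ⟨⟨n, hn⟩, h1⟩ := h
  obtain ⟨⟨m, hm⟩, h2⟩ := h'
  refine ⟨⟨n + m, ?_⟩, ?_⟩
  · have h3 : ξ ^ p ^ (n + m) = 1 := by rw [pow_add, pow_mul, hn, one_pow]
    have h4 : η ^ p ^ (n + m) = 1 := by rw [add_comm, pow_add, pow_mul, hm, one_pow]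
    rw [mul_pow, h3, h4, one_mul]
  · have h3 : A.g (z * w) - algebraMap C M (ξ * η) * (z * w) =
        A.g z * (A.g w - algebraMap C M η * w) +
          algebraMap C M η * w * (A.g z - algebraMap C M ξ * z) := by
      rw [map_mul, map_mul]
      ring
    rw [h3]
    apply Valuation.map_add_lt
    · rw [map_mul, hz1, one_mul]
      exact h2
    · rw [map_mul, map_mul, hw, c5_ru (pow_ne_zero _ hp.ne_zero) hm, one_mul, one_mul]
      exact h1

private theorem C5Rt.mem {A : SA C M} {z : M} (hT : Tr W A E) (hz : z ∈ E)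
    (hz1 : W.valuation z = 1) : C5Rt p W A z 1 := by
  refine ⟨⟨0, one_pow _⟩, ?_⟩
  rw [map_one, one_mul]
  exact (hT z hz (c5_iff.1 hz1).2.1).2

private theorem C5Rt.shift {A : SA C M} {z u : M} {ξ : C} (hp : p.Prime) (hT : Tr W A E)
    (hz : W.valuation z = 1) (hu : u ∈ E) (hzu : W.valuation (z * u) = 1) (h : C5Rt p W A z ξ) :
    C5Rt p W A (z * u) ξ := by
  have hu1 : W.valuation u = 1 := by rwa [map_mul, hz, one_mul] at hzu
  have h1 := h.mul hp hz hu1 (C5Rt.mem hT hu hu1)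
  rwa [mul_one] at h1

private theorem c5_ex (hp : p.Prime) (hW : Wv p C W) (hri : RI p W E) {A : SA C M} (hA : Pre A E)
    (hT : Tr W A E) {z : M} (hz : JE p E z) (hz1 : W.valuation z = 1) : ∃ ξ : C, C5Rt p W A z ξ := by
  obtain ⟨u, hu, hzu⟩ := tri hp hW hri A hA hT hz
  have hz0 : z ≠ 0 := hz.1
  obtain ⟨-, n, hn, -⟩ := hz
  have hpn : p ^ n ≠ 0 := pow_ne_zero _ hp.ne_zero
  have hf1 : W.valuation (z ^ p ^ n) = 1 := by rw [map_pow, hz1, one_pow]
  have h1 := (hT _ hn (c5_iff.1 hf1).2.1).2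
  have h2 : A.g (z ^ p ^ n) - z ^ p ^ n = z ^ p ^ n * (u ^ p ^ n - 1) := by
    rw [map_pow, hzu]
    ring
  rw [h2, map_mul, hf1, one_mul] at h1
  obtain ⟨ξ, hξ, h3⟩ := c5_rt (C := C) hpn h1
  refine ⟨ξ, ⟨n, hξ⟩, ?_⟩
  have h4 : A.g z - algebraMap C M ξ * z = z * (u - algebraMap C M ξ) := by
    rw [hzu]
    ring
  rw [h4, map_mul, hz1, one_mul]
  exact h3

private theorem c5_it (hp : p.Prime) (hW : Wv p C W) (hri : RI p W E) {A : SA C M} (hA : Pre A E)
    (hT : Tr W A E) {z : M} (hz : JE p E z) (hz1 : W.valuation z = 1) {ξ : C}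
    (h : C5Rt p W A z ξ) (j : ℕ) :
    (∃ u ∈ E, A.g^[j] z = z * u) ∧ W.valuation (A.g^[j] z) = 1 ∧
      W.valuation (A.g^[j] z - algebraMap C M (ξ ^ j) * z) < 1 := by
  induction j with
  | zero =>
    refine ⟨⟨1, E.one_mem, by simp⟩, by simpa using hz1, by simp⟩
  | succ j ih =>
    obtain ⟨⟨u, hu, h1⟩, h2, h3⟩ := ih
    have h4 : C5Rt p W A (A.g^[j] z) ξ := by
      rw [h1]
      rw [h1] at h2
      exact h.shift hp hT hz1 hu h2
    rw [Function.iterate_succ_apply']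
    refine ⟨?_, h4.one hp h2, ?_⟩
    · obtain ⟨v, hv, hzv⟩ := tri hp hW hri A hA hT hz
      refine ⟨v * A.g u, E.mul_mem hv ((hA u).2 hu), ?_⟩
      rw [h1, map_mul, hzv, mul_assoc]
    · obtain ⟨⟨n, hn⟩, h5⟩ := h4
      have h6 : A.g (A.g^[j] z) - algebraMap C M (ξ ^ (j + 1)) * z =
          (A.g (A.g^[j] z) - algebraMap C M ξ * A.g^[j] z) +
            algebraMap C M ξ * (A.g^[j] z - algebraMap C M (ξ ^ j) * z) := by
        rw [pow_succ, map_mul]
        ring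
      rw [h6]
      apply Valuation.map_add_lt _ h5
      rw [map_mul, c5_ru (pow_ne_zero _ hp.ne_zero) hn, one_mul]
      exact h3

theorem pts (ctx : Ctx p l e W T Φ S) (h : Ly p W T Φ S x E) {z : M} (hz : JE p E z)
    (hz1 : W.valuation z = 1) : W.valuation (S.g z - z) < 1 := by
  have hp := ctx.hp
  obtain ⟨ξ, hξ⟩ := c5_ex hp ctx.wv h.ri h.pS h.tS hz hz1
  obtain ⟨k, hk, hk1, -⟩ := ctx.per z 1
  obtain ⟨-, -, h1⟩ := c5_it hp ctx.wv h.ri h.pS h.tS hz hz1 hξ k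
  rw [hk1] at h1
  obtain ⟨⟨n, hn⟩, h2⟩ := hξ
  have h3 : (1 : C) = ξ ^ k := by
    refine c5_uq hp ctx.wv.vp (n := 0) (m := n) (one_pow _) ?_ hz1 ?_
    · rw [← pow_mul, mul_comm, pow_mul, hn, one_pow]
    · rw [map_one, one_mul]
      exact h1
  have h4 : ξ = 1 := c5_cop hp hk h3.symm hn
  rw [h4, map_one, one_mul] at h2
  exact h2

/-- valuations of elements of `E` under `Φ` -/
private theorem c5_F1 (h : Ly p W T Φ S x E) {f : M} (hf : f ∈ E) (h1 : W.valuation f = 1) :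
    W.valuation (Φ.g f) = 1 := by
  obtain ⟨h0, h2, h3⟩ := c5_iff.1 h1
  refine c5_iff.2 ⟨(map_ne_zero_iff Φ.g Φ.g.injective).2 h0, (h.wF f hf).2 h2, ?_⟩
  rw [← map_inv₀]
  exact (h.wF _ (E.inv_mem hf)).2 h3

private theorem c5_F2 (h : Ly p W T Φ S x E) {f : M} (hf : f ∈ E) (h1 : W.valuation f < 1) :
    W.valuation (Φ.g f) < 1 := by
  have hle : W.valuation (Φ.g f) ≤ 1 :=
    (W.valuation_le_one_iff _).2 ((h.wF f hf).2 ((W.valuation_le_one_iff _).1 h1.le))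
  refine lt_of_le_of_ne hle ?_
  intro h2
  obtain ⟨h3, h4, h5⟩ := c5_iff.1 h2
  rw [← map_inv₀] at h5
  have h6 := (h.wF _ (E.inv_mem hf)).1 h5
  have h7 := (h.wF _ hf).1 h4
  have h8 : f ≠ 0 := by
    rintro rfl
    exact h3 (map_zero _)
  exact absurd (c5_iff.2 ⟨h8, h7, h6⟩) h1.ne

private theorem c5_FA (ctx : Ctx p l e W T Φ S) (h : Ly p W T Φ S x E) {z : M} (hz : JE p E z)
    (hz1 : W.valuation z = 1) : W.valuation (Φ.g z) = 1 := by
  obtain ⟨-, n, hn, -⟩ := hz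
  have hpn : p ^ n ≠ 0 := pow_ne_zero _ ctx.hp.ne_zero
  have hf1 : W.valuation (z ^ p ^ n) = 1 := by rw [map_pow, hz1, one_pow]
  have h1 := c5_F1 h hn hf1
  rw [map_pow] at h1
  exact c5_pw hpn h1

private theorem c5_rel (ctx : Ctx p l e W T Φ S) (h : Ly p W T Φ S x E) {z : M} (hz : JE p E z)
    (hz1 : W.valuation z = 1) {ξ η : C} (h1 : C5Rt p W T z ξ) (h2 : C5Rt p W T (Φ.g z) η) : ξ = η := by
  have hp := ctx.hp
  have hpl : ¬ p ∣ l ^ e := by
    intro hd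
    exact ctx.hpl ((Nat.prime_dvd_prime_iff_eq hp ctx.hl).1 (hp.dvd_of_dvd_pow hd)).symm
  have hFz : JE p E (Φ.g z) := hz.map Φ h.pF
  have hFz1 : W.valuation (Φ.g z) = 1 := c5_FA ctx h hz hz1
  obtain ⟨u, hu, hzu⟩ := tri hp ctx.wv h.ri T h.pT h.tT hz
  obtain ⟨v, hv, hzv⟩ := tri hp ctx.wv h.ri S h.pS h.tS hFz
  have hS := pts ctx h hFz hFz1
  have hSz1 : W.valuation (S.g (Φ.g z)) = 1 := by
    have h3 : S.g (Φ.g z) = Φ.g z + (S.g (Φ.g z) - Φ.g z) := by ring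
    rw [h3, Valuation.map_add_eq_of_lt_left _ (by rw [hFz1]; exact hS), hFz1]
  have hSJ : JE p E (S.g (Φ.g z)) := hFz.map S h.pS
  have h3 : C5Rt p W T (S.g (Φ.g z)) η := by
    rw [hzv]
    rw [hzv] at hSz1
    exact h2.shift hp h.tT hFz1 hv hSz1
  obtain ⟨-, -, h4⟩ := c5_it hp ctx.wv h.ri h.pT h.tT hSJ hSz1 h3 (l ^ e)
  rw [← ctx.rel z] at h4
  obtain ⟨⟨n, hn⟩, h5⟩ := h1
  obtain ⟨⟨m, hm⟩, h6⟩ := h2
  have hmu := (ctx.mu n ξ hn).2.1
  -- the left side
  have h7 : W.valuation (u - algebraMap C M ξ) < 1 := by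
    have h8 : T.g z - algebraMap C M ξ * z = z * (u - algebraMap C M ξ) := by
      rw [hzu]
      ring
    rw [h8, map_mul, hz1, one_mul] at h5
    exact h5
  have h9 := c5_F2 h (E.sub_mem hu (E.algebraMap_mem ξ)) h7
  rw [map_sub, Φ.hC, hmu] at h9
  have h10 : W.valuation (Φ.g (T.g z) - algebraMap C M (ξ ^ l ^ e) * Φ.g z) < 1 := by
    have h11 : Φ.g (T.g z) - algebraMap C M (ξ ^ l ^ e) * Φ.g z =
        Φ.g z * (Φ.g u - algebraMap C M (ξ ^ l ^ e)) := by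
      rw [hzu, map_mul]
      ring
    rw [h11, map_mul, hFz1, one_mul]
    exact h9
  have h12 : ξ ^ l ^ e = η ^ l ^ e := by
    refine c5_uq hp ctx.wv.vp (n := n) (m := m) ?_ ?_ hFz1 ?_
    · rw [← pow_mul, mul_comm, pow_mul, hn, one_pow]
    · rw [← pow_mul, mul_comm, pow_mul, hm, one_pow]
    · have h13 : algebraMap C M (ξ ^ l ^ e) * Φ.g z - algebraMap C M (η ^ l ^ e) * Φ.g z =
          (Φ.g (T.g z) - algebraMap C M (η ^ l ^ e) * S.g (Φ.g z)) -
          (Φ.g (T.g z) - algebraMap C M (ξ ^ l ^ e) * Φ.g z) +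
          algebraMap C M (η ^ l ^ e) * (S.g (Φ.g z) - Φ.g z) := by ring
      rw [h13]
      refine Valuation.map_add_lt _ (Valuation.map_sub_lt _ h4 h10) ?_
      rw [map_mul]
      have h14 : W.valuation (algebraMap C M (η ^ l ^ e)) = 1 := by
        rw [map_pow, map_pow, c5_ru (pow_ne_zero _ hp.ne_zero) hm, one_pow]
      rw [h14, one_mul]
      exact hS
  have hη0 : η ≠ 0 := by
    rintro rfl
    rw [zero_pow (pow_ne_zero _ hp.ne_zero)] at hm
    exact zero_ne_one hm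
  have h15 : ξ / η = 1 := by
    apply c5_cop hp hpl (n := n + m)
    · rw [div_pow, h12, div_self (pow_ne_zero _ hη0)]
    · have h3 : ξ ^ p ^ (n + m) = 1 := by rw [pow_add, pow_mul, hn, one_pow]
      have h4 : η ^ p ^ (n + m) = 1 := by rw [add_comm, pow_add, pow_mul, hm, one_pow]
      rw [div_pow, h3, h4, div_one]
  exact (div_eq_one_iff_eq hη0).1 h15

private theorem c5_surj (hp : p.Prime) (hff : FF E) (hRad : Rad p C M) (hF : Pre Φ E)
    (hbd : ∃ a₀ : ℕ, ∀ z, JE p E z → (∃ u ∈ E, Φ.g z = z * u) → z ^ p ^ a₀ ∈ E) {z : M}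
    (hz : JE p E z) : ∃ w, JE p E w ∧ ∃ c ∈ E, c ≠ 0 ∧ Φ.g w = w * z * c := by
  classical
  let A : Subgroup Mˣ :=
    { carrier := {z | JE p E (z : M)}
      one_mem' := by
        show JE p E ((1 : Mˣ) : M)
        rw [Units.val_one]
        exact JE.of_mem E.one_mem one_ne_zero
      mul_mem' := fun {a b} ha hb => by
        show JE p E ((a * b : Mˣ) : M)
        rw [Units.val_mul]
        exact JE.mul hp ha hb
      inv_mem' := fun {a} ha => by
        show JE p E ((a⁻¹ : Mˣ) : M)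
        rw [Units.val_inv_eq_inv_val]
        exact JE.inv ha }
  have hA : ∀ z : Mˣ, z ∈ A ↔ JE p E (z : M) := fun z => Iff.rfl
  let N : Subgroup Mˣ :=
    { carrier := {z | (z : M) ∈ E}
      one_mem' := by
        show ((1 : Mˣ) : M) ∈ E
        rw [Units.val_one]
        exact E.one_mem
      mul_mem' := fun {a b} ha hb => by
        show ((a * b : Mˣ) : M) ∈ E
        rw [Units.val_mul]
        exact E.mul_mem ha hb
      inv_mem' := fun {a} ha => by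
        show ((a⁻¹ : Mˣ) : M) ∈ E
        rw [Units.val_inv_eq_inv_val]
        exact E.inv_mem ha }
  have hN : ∀ z : Mˣ, z ∈ N ↔ (z : M) ∈ E := fun z => Iff.rfl
  have hNA : N ≤ A := fun x hx => JE.of_mem hx x.ne_zero
  let F : Mˣ →* Mˣ := Units.map (Φ.g : M →* M)
  have hFv : ∀ z : Mˣ, ((F z : Mˣ) : M) = Φ.g z := fun z => rfl
  have hFA : ∀ z ∈ A, F z ∈ A := fun z hz => JE.map Φ hF hz
  have hFN : ∀ z ∈ N, F z ∈ N := fun z hz => (hF _).2 hz
  have htor : ∀ z ∈ A, ∃ n : ℕ, z ^ p ^ n ∈ N := by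
    intro z hz
    obtain ⟨-, n, hn, -⟩ := hz
    refine ⟨n, ?_⟩
    rw [hN, Units.val_pow_eq_pow_val]
    exact hn
  obtain ⟨a₀, ha₀⟩ := hbd
  have key := Gl.ag hp A N hNA F hFA hFN htor (a₀ := a₀) ?_ ?_ ?_
    (z := Units.mk0 z hz.1) hz
  · obtain ⟨w, hw, c, hc, h1⟩ := key
    refine ⟨w, hw, c, hc, c.ne_zero, ?_⟩
    have h2 := congrArg Units.val h1
    rw [hFv, Units.val_mul, Units.val_mul, Units.val_mk0] at h2
    exact h2
  · intro y hy
    obtain ⟨w, hw, c', hc', hc0, hwc⟩ := JE.div hp hff hRad hy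
    refine ⟨Units.mk0 w hw.1, hw, Units.mk0 c' hc0, hc', Units.ext ?_⟩
    rw [Units.val_pow_eq_pow_val, Units.val_mul]
    exact hwc
  · obtain ⟨t, ht, hfd⟩ := hff
    have := hfd
    obtain ⟨F', hF', hF2⟩ := Gl.IsJ.fin (p := p) (C := C) (L := E) (M := M) hp t ht
    refine ⟨F'.attach.image (fun r => Units.mk0 r.1 (hF' r.1 r.2)), ?_⟩
    intro y hy hyp
    obtain ⟨r, hr, c', hc'⟩ := hF2 y (je_iff.1 hy) ⟨⟨(y : M) ^ p, by
      rw [hN, Units.val_pow_eq_pow_val] at hyp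
      exact hyp⟩, rfl⟩
    refine ⟨Units.mk0 r (hF' r hr), ?_, ?_⟩
    · rw [Finset.mem_image]
      exact ⟨⟨r, hr⟩, Finset.mem_attach _ _, rfl⟩
    · rw [hN, Units.val_div_eq_div_val, hc', Units.val_mk0, mul_div_cancel_left₀ _ (hF' r hr)]
      exact c'.2
  · intro y hy hyN
    rw [hN, Units.val_pow_eq_pow_val]
    refine ha₀ y hy ⟨_, hyN, ?_⟩
    rw [Units.val_div_eq_div_val, hFv, mul_div_cancel₀ _ y.ne_zero]

theorem pt (ctx : Ctx p l e W T Φ S) (hRad : Rad p C M) (h : Ly p W T Φ S x E)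
    (hbd : ∃ a₀ : ℕ, ∀ z, JE p E z → (∃ u ∈ E, Φ.g z = z * u) → z ^ p ^ a₀ ∈ E) {z : M}
    (hz : JE p E z) (hz1 : W.valuation z = 1) : W.valuation (T.g z - z) < 1 := by
  have hp := ctx.hp
  obtain ⟨w₀, hw₀, c₀, hc₀, hc₀0, h0⟩ := c5_surj hp h.ff hRad h.pF hbd hz
  obtain ⟨a, ha0, ha1⟩ := ctx.wv.unit w₀ hw₀.1
  -- `w = a w₀`, `c = c₀ Φ(a) / a`
  have haM : algebraMap C M a ≠ 0 := (map_ne_zero (algebraMap C M)).2 ha0
  obtain ⟨w, hw, hw1, c, hc, h1⟩ : ∃ w, JE p E w ∧ W.valuation w = 1 ∧ ∃ c ∈ E,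
      Φ.g w = w * z * c := by
    refine ⟨algebraMap C M a * w₀, JE.mul hp (JE.of_mem (E.algebraMap_mem a) haM) hw₀, ha1,
      c₀ * algebraMap C M (Φ.gC a) * (algebraMap C M a)⁻¹,
      E.mul_mem (E.mul_mem hc₀ (E.algebraMap_mem _)) (E.inv_mem (E.algebraMap_mem _)), ?_⟩
    rw [map_mul, Φ.hC, h0]
    field_simp
  obtain ⟨ξ, hξ⟩ := c5_ex hp ctx.wv h.ri h.pT h.tT hw hw1
  obtain ⟨η, hη⟩ := c5_ex hp ctx.wv h.ri h.pT h.tT hz hz1
  have hFw : JE p E (Φ.g w) := hw.map Φ h.pF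
  have hFw1 : W.valuation (Φ.g w) = 1 := c5_FA ctx h hw hw1
  obtain ⟨ζ, hζ⟩ := c5_ex hp ctx.wv h.ri h.pT h.tT hFw hFw1
  have h2 : ξ = ζ := c5_rel ctx h hw hw1 hξ hζ
  have hwz1 : W.valuation (w * z) = 1 := by rw [map_mul, hw1, hz1, one_mul]
  have h3 : C5Rt p W T (Φ.g w) (ξ * η) := by
    rw [h1]
    rw [h1] at hFw1
    exact (hξ.mul hp hw1 hz1 hη).shift hp h.tT hwz1 hc hFw1
  have h4 : ζ = ξ * η := hζ.uniq hp ctx.wv.vp hFw1 h3
  have hξ0 : ξ ≠ 0 := by
    obtain ⟨⟨n, hn⟩, -⟩ := hξ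
    rintro rfl
    rw [zero_pow (pow_ne_zero _ hp.ne_zero)] at hn
    exact zero_ne_one hn
  have h5 : η = 1 := by
    rw [← h2] at h4
    exact (left_eq_mul₀ hξ0).1 h4
  have h6 := hη.2
  rw [h5, map_one, one_mul] at h6
  exact h6

end Pool.Agent.Lib.MP_2f3286_ag.Pp
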