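import Pool.Agent.Lib.MP_2f3286_ag.Pp.C2

/-!
# The basis of `E(b)` over `C(x)`   (module C6)

PROOF of `on_step`. The basis `u_i`, `i < n`, of `E` and the elements `u_i b ^ j`, `i < n`, `j < p` (indexed by `Fin (n * p) ≃ Fin n × Fin p`, `finProdFinEquiv`). They are in `Ex E b ∩ W`, span (`ex_repr`). Let `∑ r_ij u_i b ^ j`, `r_ij ∈ C(x) ∩ W`, one of valuation one,
`r_{i₀ j₀}`: `a_j = ∑_i r_ij u_i ∈ E ∩ W`, `W(a_{j₀}) = 1` (the property for `E`); `ind` (C1).
PROOF of `on_ff`: `E` is spanned by finitely many elements over `C(x)`. PROOF of `on_scale`: if `∑ r_i u_i ∈ W` then all `r_i ∈ W`: otherwise let `r_j` have the largest valuation `> 1` and divide by it: the sum divided by `r_j` has valuation one.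
-/

open Polynomial IntermediateField

namespace Pool.Agent.Lib.MP_2f3286_ag.Pp

variable {C M : Type*} [Field C] [IsAlgClosed C] [CharZero C] [Field M] [Algebra C M]
  {E : IntermediateField C M} {p n : ℕ} {W : ValuationSubring M} {b x : M}

theorem on_step (hp : p.Prime) (hW : Wv p C W) (hri : RI p W E) (hs : Sp p W E b)
    (h : ON W x E n) : ON W x (Ex E b) (n * p) := by
  classical
  obtain ⟨hxE, u, hu, hspan, hunit⟩ := h
  have hle : E ≤ Ex E b := le_sup_left
  have hbE : b ∈ Ex E b := by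
    have h1 : b ∈ IntermediateField.adjoin C {b} := IntermediateField.mem_adjoin_simple_self C b
    exact (le_sup_right : IntermediateField.adjoin C {b} ≤ Ex E b) h1
  have hbW : b ∈ W := (W.valuation_le_one_iff b).1 hs.one.le
  have hxa : IntermediateField.adjoin C {x} ≤ E := by
    rw [IntermediateField.adjoin_le_iff]
    intro y hy
    rw [Set.mem_singleton_iff.1 hy]
    exact hxE
  refine ⟨hle hxE, fun k => u (finProdFinEquiv.symm k).1 * b ^ ((finProdFinEquiv.symm k).2 : ℕ),
    ?_, ?_, ?_⟩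
  · intro k
    exact ⟨mul_mem (hle (hu _).1) (pow_mem hbE _), mul_mem (hu _).2 (pow_mem hbW _)⟩
  · intro f hf
    obtain ⟨a, ha, rfl⟩ := ex_repr hp hs.pw hf
    choose r hr hra using fun j => hspan (a j) (ha j)
    refine ⟨fun k => r ((finProdFinEquiv.symm k).2 : ℕ) (finProdFinEquiv.symm k).1,
      fun k => hr _ _, ?_⟩
    have h1 : ∑ k : Fin (n * p), r ((finProdFinEquiv.symm k).2 : ℕ) (finProdFinEquiv.symm k).1 *
        (u (finProdFinEquiv.symm k).1 * b ^ ((finProdFinEquiv.symm k).2 : ℕ)) =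
        ∑ q : Fin n × Fin p, r (q.2 : ℕ) q.1 * (u q.1 * b ^ (q.2 : ℕ)) :=
      Equiv.sum_comp finProdFinEquiv.symm (fun q : Fin n × Fin p => r (q.2 : ℕ) q.1 * (u q.1 * b ^ (q.2 : ℕ)))
    rw [h1, Fintype.sum_prod_type, Finset.sum_comm]
    have h2 := Fin.sum_univ_eq_sum_range (fun j => ∑ i : Fin n, r j i * (u i * b ^ j)) p
    rw [h2]
    refine Finset.sum_congr rfl (fun j _ => ?_)
    conv_lhs => rw [hra j]
    rw [Finset.sum_mul]
    exact Finset.sum_congr rfl (fun i _ => by ring)
  · intro r hr hk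
    set a : ℕ → M := fun j => if hj : j < p then ∑ i : Fin n, r (finProdFinEquiv (i, ⟨j, hj⟩)) * u i
      else 0 with ha
    have haj : ∀ (j : Fin p), a j = ∑ i : Fin n, r (finProdFinEquiv (i, j)) * u i := by
      intro j
      simp only [ha]
      rw [dif_pos j.2]
    have h1 : ∑ k : Fin (n * p), r k *
        (u (finProdFinEquiv.symm k).1 * b ^ ((finProdFinEquiv.symm k).2 : ℕ)) =
        ∑ j ∈ Finset.range p, a j * b ^ j := by
      have e1 := Equiv.sum_comp finProdFinEquiv (fun k : Fin (n * p) => r k *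
        (u (finProdFinEquiv.symm k).1 * b ^ ((finProdFinEquiv.symm k).2 : ℕ)))
      rw [← e1, Fintype.sum_prod_type, Finset.sum_comm]
      rw [← Fin.sum_univ_eq_sum_range (fun j => a j * b ^ j) p]
      refine Finset.sum_congr rfl (fun j _ => ?_)
      rw [haj j, Finset.sum_mul]
      refine Finset.sum_congr rfl (fun i _ => ?_)
      rw [Equiv.symm_apply_apply]
      ring
    rw [h1]
    refine ind hp hW hri hs ?_ ?_
    · intro j hj
      have := haj ⟨j, hj⟩
      simp only at this
      rw [this]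
      constructor
      · exact sum_mem (fun i _ => mul_mem (hxa (hr _).1) (hu i).1)
      · exact sum_mem (fun i _ => mul_mem (hr _).2 (hu i).2)
    · obtain ⟨k, hk⟩ := hk
      refine ⟨((finProdFinEquiv.symm k).2 : ℕ), (finProdFinEquiv.symm k).2.2, ?_⟩
      rw [haj]
      refine hunit _ (fun i => hr _) ⟨(finProdFinEquiv.symm k).1, ?_⟩
      have : finProdFinEquiv ((finProdFinEquiv.symm k).1, (finProdFinEquiv.symm k).2) = k := by
        rw [Prod.mk.eta, Equiv.apply_symm_apply]
      rw [this]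
      exact hk

omit [IsAlgClosed C] [CharZero C] in
theorem on_scale {u : Fin n → M} (h : ∀ r : Fin n → M,
      (∀ i, r i ∈ IntermediateField.adjoin C {x} ∧ r i ∈ W) → (∃ i, W.valuation (r i) = 1) →
      W.valuation (∑ i, r i * u i) = 1) {r : Fin n → M}
    (hr : ∀ i, r i ∈ IntermediateField.adjoin C {x}) (hs : ∑ i, r i * u i ∈ W) : ∀ i, r i ∈ W := by
  classical
  intro i₀
  by_contra hi₀
  obtain ⟨j, -, hj⟩ := Finset.exists_max_image Finset.univ (fun i => W.valuation (r i))
    ⟨i₀, Finset.mem_univ _⟩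
  have h1 : 1 < W.valuation (r i₀) := by
    rw [← not_le, W.valuation_le_one_iff]
    exact hi₀
  have h2 : 1 < W.valuation (r j) := h1.trans_le (hj i₀ (Finset.mem_univ _))
  have h0 : r j ≠ 0 := by
    intro h3
    rw [h3, map_zero] at h2
    exact absurd h2 (not_lt.2 zero_le_one)
  have hv0 : W.valuation (r j) ≠ 0 := (Valuation.ne_zero_iff _).2 h0
  have h3 := h (fun i => r i * (r j)⁻¹) ?_ ⟨j, ?_⟩
  · have h4 : ∑ i, r i * (r j)⁻¹ * u i = (∑ i, r i * u i) * (r j)⁻¹ := by
      rw [Finset.sum_mul]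
      exact Finset.sum_congr rfl (fun i _ => by ring)
    rw [h4, map_mul, map_inv₀] at h3
    have h5 : W.valuation (∑ i, r i * u i) = W.valuation (r j) := by
      have := (mul_inv_eq_one₀ hv0).1 h3
      exact this
    have h6 := (W.valuation_le_one_iff _).2 hs
    rw [h5] at h6
    exact absurd h2 (not_lt.2 h6)
  · intro i
    refine ⟨mul_mem (hr i) (inv_mem (hr j)), ?_⟩
    rw [← W.valuation_le_one_iff, map_mul, map_inv₀]
    have h4 := hj i (Finset.mem_univ _)
    exact mul_inv_le_one_of_le₀ h4 zero_le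
  · rw [mul_inv_cancel₀ h0, map_one]

end Pool.Agent.Lib.MP_2f3286_ag.Pp
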