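import Pool.Agent.Lib.MP_2f3286_ag.Pp.BR1
import Pool.Agent.Lib.MP_2f3286_ag.Gl.H1

/-!
# A fixed element has a fixed constant multiple of valuation one   (module D1)

We write: `q = l ^ e`, `ψ = Φ.gC`. PROOF of `pfu`. `ctx.wv.unit`: `c₁ ∈ C`, `c₁ ≠ 0`, `W(c₁ f) = 1`. `Φ.g (c₁ f) = ψ(c₁) f` also has valuation one (`wF` for `c₁ f` and its inverse, in `E`), so `W(ψ(c₁)) = W(c₁)`, and `W(ψ^[i] c₁) = W(c₁)` (`ctx.stF` for units). Let `m ≥ 1` with
`ψ^[m] c₁ = c₁` (`ctx.orb` for the image of `c₁` in `M`, `Φ.hC`). `ε_i = ψ^[i] c₁ / c₁`, `i < m`, of valuation one, `ε_0 = 1`. Let `B = {b ∈ C | b ^ (q ^ m) = b}`: zero and the roots of unity of order dividing `q ^ m - 1`, `q ^ m` elements (`C` algebraically closed, characteristic zero), with distinct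
residues at `W` (the difference of two distinct roots of unity of order dividing `N = q ^ m - 1` is a root of unity times `1 - θ`, `θ ≠ 1`, `θ ^ N = 1`, and `1 - θ` divides `N`, which is a unit at `W`: `W(l) < 1`, so `W(N) = W(q ^ m - 1) = 1`), all in `W`. For `b ∈ B`, `b ≠ 0`:
`ψ b = b ^ q`: both have the residue of `b ^ q` (`ctx.cF`), and both are roots of unity of order dividing `N`. So `ψ^[i] b = b ^ (q ^ i)`. The polynomial `∑ i < m, ε̄_i X ^ (q ^ i)` over the residue field of `W` is not zero (`ε̄_0 = 1`) and has degree `≤ q ^ (m - 1) < q ^ m`, so it does not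
vanish at the residue of some `b ∈ B`: `W(∑ i < m, ε_i b ^ (q ^ i)) = 1`. Put `c = ∑ i < m, ψ^[i] (b c₁) = c₁ ∑ i < m, ε_i b ^ (q ^ i)`: `W(c) = W(c₁)`, so `c ≠ 0`, `W(c f) = 1`, and `ψ c = c` since `ψ^[m] (b c₁) = b c₁`.
-/

open Polynomial IntermediateField

namespace Pool.Agent.Lib.MP_2f3286_ag.Pp

variable {C M : Type*} [Field C] [IsAlgClosed C] [CharZero C] [Field M] [Algebra C M]
  {E : IntermediateField C M} {p l e : ℕ} {W : ValuationSubring M} {T Φ S : SA C M}

omit [IsAlgClosed C] [CharZero C] in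
private theorem D1_unit_inv {y : W} (h : IsLocalRing.residue W y ≠ 0) : (y : M)⁻¹ ∈ W := by
  have h1 : IsUnit y := by
    by_contra h2
    exact h ((IsLocalRing.residue_eq_zero_iff y).2 ((IsLocalRing.mem_maximalIdeal y).2 h2))
  have h2 := (W.valuation_eq_one_iff y).1 h1
  rw [← W.valuation_le_one_iff, map_inv₀, h2, inv_one]

/-- the place of the constants at `W` -/
private noncomputable def D1_plc (C : Type*) [Field C] [Algebra C M] (W : ValuationSubring M) :
    Pool.Agent.Lib.MP_2f3286_ag.Fer.Plc C (IsLocalRing.ResidueField W) where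
  A := W.comap (algebraMap C M)
  φ := (IsLocalRing.residue W).comp
    ((algebraMap C M).restrict (W.comap (algebraMap C M)) W (fun _ hx => hx))
  ker := by
    intro x hx
    have h1 := D1_unit_inv hx
    change algebraMap C M (x : C)⁻¹ ∈ W
    rw [map_inv₀]
    exact h1

omit [IsAlgClosed C] [CharZero C] in
private theorem D1_has {c : C} (hc : algebraMap C M c ∈ W) :
    (D1_plc C W).Has c (IsLocalRing.residue W ⟨algebraMap C M c, hc⟩) := ⟨hc, rfl⟩

omit [IsAlgClosed C] [CharZero C] in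
private theorem D1_res_ne {x : M} (hx : x ∈ W) (h1 : W.valuation x = 1) :
    IsLocalRing.residue W ⟨x, hx⟩ ≠ 0 := by
  intro h
  have h2 := (IsLocalRing.residue_eq_zero_iff _).1 h
  rw [IsLocalRing.mem_maximalIdeal, mem_nonunits_iff] at h2
  exact h2 ((W.valuation_eq_one_iff ⟨x, hx⟩).2 h1)

omit [IsAlgClosed C] [CharZero C] in
private theorem D1_val_one {c : C} {z : IsLocalRing.ResidueField W} (h : (D1_plc C W).Has c z)
    (hz : z ≠ 0) : W.valuation (algebraMap C M c) = 1 := by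
  obtain ⟨hc, rfl⟩ := h
  have h1 : IsUnit (⟨algebraMap C M c, hc⟩ : W) := by
    by_contra h2
    exact hz ((IsLocalRing.residue_eq_zero_iff _).2 ((IsLocalRing.mem_maximalIdeal _).2 h2))
  exact (W.valuation_eq_one_iff _).1 h1

omit [IsAlgClosed C] [CharZero C] in
private theorem D1_frob (ctx : Ctx p l e W T Φ S) (c : C) (z : IsLocalRing.ResidueField W)
    (h : (D1_plc C W).Has c z) : (D1_plc C W).Has (Φ.gC c) (z ^ l ^ e) := by
  obtain ⟨hc, rfl⟩ := h
  have hc' : algebraMap C M c ∈ W := hc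
  have h1 : algebraMap C M (Φ.gC c) ∈ W := (ctx.stF c).2 hc'
  refine ⟨h1, ?_⟩
  have h2 := ctx.cF c hc'
  change IsLocalRing.residue W ⟨algebraMap C M (Φ.gC c), h1⟩ =
    (IsLocalRing.residue W ⟨algebraMap C M c, hc'⟩) ^ l ^ e
  rw [← map_pow, ← sub_eq_zero, ← map_sub, IsLocalRing.residue_eq_zero_iff]
  exact (W.valuation_lt_one_iff _).2 h2

omit [IsAlgClosed C] [CharZero C] in
private theorem D1_N (ctx : Ctx p l e W T Φ S) {m : ℕ} (hm : 1 ≤ m) :
    (((l ^ e) ^ m - 1 : ℕ) : IsLocalRing.ResidueField W) ≠ 0 := by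
  have hl0 : (l : IsLocalRing.ResidueField W) = 0 := by
    have h1 : IsLocalRing.residue W (l : W) = 0 := by
      rw [IsLocalRing.residue_eq_zero_iff]
      refine (W.valuation_lt_one_iff _).2 ?_
      have h2 : (((l : W) : M)) = (l : M) := by push_cast; rfl
      rw [h2]
      exact ctx.vl
    rw [map_natCast] at h1
    exact h1
  have h1 : 1 ≤ (l ^ e) ^ m := Nat.one_le_pow _ _ (Nat.pow_pos ctx.hl.pos)
  rw [Nat.cast_sub h1, Nat.cast_pow, Nat.cast_pow, hl0, zero_pow (by have := ctx.he; omega),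
    zero_pow (by omega), Nat.cast_one, zero_sub]
  exact neg_ne_zero.2 one_ne_zero

omit [IsAlgClosed C] [CharZero C] in
/-- roots of unity of order dividing `(l ^ e) ^ m - 1` -/
private theorem D1_root_q (ctx : Ctx p l e W T Φ S) (m : ℕ) (hm : 1 ≤ m) {ξ : C}
    (hξ : ξ ^ ((l ^ e) ^ m - 1) = 1) : Φ.gC ξ = ξ ^ l ^ e :=
  Gl.root_frob (D1_plc C W) (D1_frob ctx) (D1_N ctx hm) hξ

omit [IsAlgClosed C] [CharZero C] in
private theorem D1_geom {θ : C} (hθ : (D1_plc C W).Has θ 1) (n : ℕ) :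
    (D1_plc C W).Has (∑ i ∈ Finset.range n, θ ^ i) (n : IsLocalRing.ResidueField W) := by
  induction n with
  | zero =>
    rw [Finset.sum_range_zero, Nat.cast_zero]
    exact Pool.Agent.Lib.MP_2f3286_ag.Fer.Plc.has_zero
  | succ n ih =>
    rw [Finset.sum_range_succ, Nat.cast_succ]
    have h1 := hθ.pow n
    rw [one_pow] at h1
    exact ih.add h1

omit [IsAlgClosed C] [CharZero C] in
/-- a root of unity of order prime to the residue characteristic with residue one is one -/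
private theorem D1_inj {N : ℕ} (hN : (N : IsLocalRing.ResidueField W) ≠ 0) {θ : C}
    (hθN : θ ^ N = 1) (hθ : (D1_plc C W).Has θ 1) : θ = 1 := by
  by_contra hne
  have h5 := geom_sum_mul θ N
  rw [hθN, sub_self] at h5
  rcases mul_eq_zero.1 h5 with h6 | h6
  · have h7 := D1_geom hθ N
    rw [h6] at h7
    exact hN (h7.unique Pool.Agent.Lib.MP_2f3286_ag.Fer.Plc.has_zero)
  · exact hne (sub_eq_zero.1 h6)

omit [IsAlgClosed C] [CharZero C] in
private theorem D1_sum {ι : Type*} (s : Finset ι) (u : ι → C)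
    (w : ι → IsLocalRing.ResidueField W) (h : ∀ i ∈ s, (D1_plc C W).Has (u i) (w i)) :
    (D1_plc C W).Has (∑ i ∈ s, u i) (∑ i ∈ s, w i) := by
  classical
  induction s using Finset.induction_on with
  | empty =>
    rw [Finset.sum_empty, Finset.sum_empty]
    exact Pool.Agent.Lib.MP_2f3286_ag.Fer.Plc.has_zero
  | insert a s ha ih =>
    rw [Finset.sum_insert ha, Finset.sum_insert ha]
    exact (h a (Finset.mem_insert_self a s)).add
      (ih (fun i hi => h i (Finset.mem_insert_of_mem hi)))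

/-- an additive polynomial does not vanish at all roots of unity -/
private theorem D1_poly {κ : Type*} [Field κ] {q m : ℕ} (hq : 2 ≤ q) (hm : 1 ≤ m) {z : κ}
    (hz : IsPrimitiveRoot z (q ^ m - 1)) (w : ℕ → κ) (hw : w 0 = 1) :
    ∃ j : ℕ, ∑ i ∈ Finset.range m, w i * (z ^ j) ^ q ^ i ≠ 0 := by
  by_contra hcon
  push Not at hcon
  have hqm : 2 ≤ q ^ m := le_trans hq (by
    calc q = q ^ 1 := (pow_one q).symm
      _ ≤ q ^ m := Nat.pow_le_pow_right (by omega) hm)
  have hN : q ^ m - 1 ≠ 0 := by omega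
  have hz0 : z ≠ 0 := hz.ne_zero hN
  obtain ⟨P, hP⟩ : ∃ P : κ[X], P = ∑ i ∈ Finset.range m, Polynomial.C (w i) * X ^ (q ^ i - 1) :=
    ⟨_, rfl⟩
  have hev : ∀ x : κ, P.eval x = ∑ i ∈ Finset.range m, w i * x ^ (q ^ i - 1) := by
    intro x
    rw [hP, Polynomial.eval_finsetSum]
    refine Finset.sum_congr rfl (fun i _ => ?_)
    rw [Polynomial.eval_mul, Polynomial.eval_C, Polynomial.eval_pow, Polynomial.eval_X]
  have hroot : ∀ j : Fin (q ^ m - 1), P.eval (z ^ (j : ℕ)) = 0 := by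
    intro j
    have h1 := hcon j
    have h2 : z ^ (j : ℕ) * P.eval (z ^ (j : ℕ)) = 0 := by
      rw [hev, Finset.mul_sum, ← h1]
      refine Finset.sum_congr rfl (fun i _ => ?_)
      have h3 : q ^ i = (q ^ i - 1) + 1 := by
        have : 1 ≤ q ^ i := Nat.one_le_pow _ _ (by omega)
        omega
      conv_rhs => rw [h3, pow_succ]
      ring
    exact (mul_eq_zero.1 h2).resolve_left (pow_ne_zero _ hz0)
  have hinj : Function.Injective (fun j : Fin (q ^ m - 1) => z ^ (j : ℕ)) := by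
    intro i j hij
    exact Fin.ext (hz.pow_inj i.2 j.2 hij)
  have hdeg : P.natDegree < Fintype.card (Fin (q ^ m - 1)) := by
    rw [Fintype.card_fin]
    refine lt_of_le_of_lt (b := q ^ (m - 1) - 1) ?_ ?_
    · rw [hP]
      refine Polynomial.natDegree_sum_le_of_forall_le _ _ (fun i hi => ?_)
      refine le_trans (Polynomial.natDegree_C_mul_X_pow_le _ _) ?_
      have h1 : i ≤ m - 1 := by have := Finset.mem_range.1 hi; omega
      have h2 : q ^ i ≤ q ^ (m - 1) := Nat.pow_le_pow_right (by omega) h1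
      omega
    · have h1 : q ^ (m - 1) < q ^ m := Nat.pow_lt_pow_right (by omega) (by omega)
      have h2 : 1 ≤ q ^ (m - 1) := Nat.one_le_pow _ _ (by omega)
      omega
  have hP0 := Polynomial.eq_zero_of_natDegree_lt_card_of_eval_eq_zero P hinj hroot hdeg
  have h1 := hev 0
  rw [hP0, Polynomial.eval_zero, Finset.sum_eq_single 0] at h1
  · rw [hw, pow_zero, Nat.sub_self, pow_zero, mul_one] at h1
    exact zero_ne_one h1
  · intro i _ hi
    have h2 : 1 < q ^ i := Nat.one_lt_pow hi (by omega)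
    rw [zero_pow (by omega), mul_zero]
  · intro h2
    exact absurd (Finset.mem_range.2 (by omega)) h2

omit [IsAlgClosed C] [CharZero C] in
private theorem D1_iter (A : SA C M) (c : C) (i : ℕ) :
    A.g^[i] (algebraMap C M c) = algebraMap C M (A.gC^[i] c) := by
  induction i with
  | zero => rfl
  | succ i ih => rw [Function.iterate_succ_apply', Function.iterate_succ_apply', ih, A.hC]

theorem pfu (ctx : Ctx p l e W T Φ S) (wF : ∀ f ∈ E, Φ.g f ∈ W ↔ f ∈ W) {f : M} (hf : f ∈ E)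
    (hf0 : f ≠ 0) (hfix : Φ.g f = f) :
    ∃ c : C, c ≠ 0 ∧ Φ.gC c = c ∧ W.valuation (algebraMap C M c * f) = 1 := by
  obtain ⟨c₁, hc₁, hv₁⟩ := ctx.wv.unit f hf0
  obtain ⟨m, hm, horb⟩ := ctx.orb (algebraMap C M c₁)
  rw [D1_iter] at horb
  have horb' : Φ.gC^[m] c₁ = c₁ := (algebraMap C M).injective horb
  obtain ⟨q, hq⟩ : ∃ q, q = l ^ e := ⟨_, rfl⟩
  have hq2 : 2 ≤ q := by
    rw [hq]
    calc 2 ≤ l := ctx.hl.two_le
      _ = l ^ 1 := (pow_one l).symm
      _ ≤ l ^ e := Nat.pow_le_pow_right ctx.hl.pos ctx.he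
  -- valuation one is preserved
  have hstep : ∀ c : C, W.valuation (algebraMap C M c * f) = 1 →
      W.valuation (algebraMap C M (Φ.gC c) * f) = 1 := by
    intro c hc
    have hmem : algebraMap C M c * f ∈ E := E.mul_mem (E.algebraMap_mem c) hf
    have hW1 : algebraMap C M c * f ∈ W := by
      rw [← W.valuation_le_one_iff, hc]
    have hW2 : (algebraMap C M c * f)⁻¹ ∈ W := by
      rw [← W.valuation_le_one_iff, map_inv₀, hc, inv_one]
    have h1 := (wF _ hmem).2 hW1
    have h2 := (wF _ (E.inv_mem hmem)).2 hW2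
    rw [map_mul, Φ.hC, hfix] at h1
    rw [map_inv₀, map_mul, Φ.hC, hfix] at h2
    rw [← W.valuation_le_one_iff] at h1 h2
    rw [map_inv₀] at h2
    have h3 : W.valuation (algebraMap C M (Φ.gC c) * f) ≠ 0 := by
      intro h4
      rw [Valuation.zero_iff] at h4
      rcases mul_eq_zero.1 h4 with h5 | h5
      · rw [map_eq_zero, map_eq_zero] at h5
        rw [h5, map_zero, zero_mul, map_zero] at hc
        exact zero_ne_one hc
      · exact hf0 h5
    refine le_antisymm h1 ?_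
    rwa [inv_le_one₀ (zero_lt_iff.2 h3)] at h2
  have hit : ∀ i : ℕ, W.valuation (algebraMap C M (Φ.gC^[i] c₁) * f) = 1 := by
    intro i
    induction i with
    | zero => exact hv₁
    | succ i ih =>
      rw [Function.iterate_succ_apply']
      exact hstep _ ih
  -- the units `ε_i`
  have hε1 : ∀ i : ℕ, W.valuation (algebraMap C M (Φ.gC^[i] c₁ / c₁)) = 1 := by
    intro i
    have h1 := hit i
    have hc₁' : algebraMap C M c₁ ≠ 0 := by
      rw [Ne, map_eq_zero]
      exact hc₁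
    have h2 : algebraMap C M (Φ.gC^[i] c₁) * f =
        algebraMap C M (Φ.gC^[i] c₁ / c₁) * (algebraMap C M c₁ * f) := by
      rw [map_div₀]
      field_simp
    rw [h2, map_mul, hv₁, mul_one] at h1
    exact h1
  have hεW : ∀ i : ℕ, algebraMap C M (Φ.gC^[i] c₁ / c₁) ∈ W := by
    intro i
    rw [← W.valuation_le_one_iff, hε1]
  -- the root of unity
  have hqm : 2 ≤ q ^ m := le_trans hq2 (by
    calc q = q ^ 1 := (pow_one q).symm
      _ ≤ q ^ m := Nat.pow_le_pow_right (by omega) hm)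
  have hN0 : q ^ m - 1 ≠ 0 := by omega
  have hNκ : ((q ^ m - 1 : ℕ) : IsLocalRing.ResidueField W) ≠ 0 := by
    rw [hq]
    exact D1_N ctx hm
  obtain ⟨ζ, hζ⟩ : ∃ ζ : C, IsPrimitiveRoot ζ (q ^ m - 1) := by
    haveI : NeZero (((q ^ m - 1 : ℕ)) : C) := ⟨Nat.cast_ne_zero.2 hN0⟩
    exact HasEnoughRootsOfUnity.exists_primitiveRoot C (q ^ m - 1)
  have hζW : algebraMap C M ζ ∈ W := by
    have h1 : W.valuation (algebraMap C M ζ) ^ (q ^ m - 1) = 1 := by
      rw [← map_pow, ← map_pow, hζ.pow_eq_one, map_one, map_one]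
    rw [← W.valuation_le_one_iff]
    by_contra h2
    push Not at h2
    have h3 := one_lt_pow₀ h2 hN0
    rw [h1] at h3
    exact lt_irrefl _ h3
  obtain ⟨z, hz⟩ : ∃ z, (D1_plc C W).Has ζ z := ⟨_, D1_has hζW⟩
  have hzprim : IsPrimitiveRoot z (q ^ m - 1) := by
    refine ⟨?_, ?_⟩
    · have h1 := hz.pow (q ^ m - 1)
      rw [hζ.pow_eq_one] at h1
      exact (h1.unique Pool.Agent.Lib.MP_2f3286_ag.Fer.Plc.has_one)
    · intro k hk
      have h1 := hz.pow k
      rw [hk] at h1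
      refine hζ.dvd_of_pow_eq_one k (D1_inj hNκ ?_ h1)
      rw [← pow_mul, mul_comm, pow_mul, hζ.pow_eq_one, one_pow]
  obtain ⟨w, hw⟩ : ∃ w : ℕ → IsLocalRing.ResidueField W,
      ∀ i, w i = IsLocalRing.residue W ⟨_, hεW i⟩ := ⟨_, fun i => rfl⟩
  have hhas : ∀ i, (D1_plc C W).Has (Φ.gC^[i] c₁ / c₁) (w i) := by
    intro i
    rw [hw i]
    exact D1_has (hεW i)
  have hw0 : w 0 = 1 := by
    have h1 := hhas 0
    rw [Function.iterate_zero_apply, div_self hc₁] at h1
    exact h1.unique Pool.Agent.Lib.MP_2f3286_ag.Fer.Plc.has_one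
  obtain ⟨j, hj⟩ := D1_poly hq2 hm hzprim w hw0
  -- the constant
  obtain ⟨b, hb⟩ : ∃ b, b = ζ ^ j := ⟨_, rfl⟩
  have hbN : b ^ (q ^ m - 1) = 1 := by
    rw [hb, ← pow_mul, mul_comm, pow_mul, hζ.pow_eq_one, one_pow]
  have hb0 : b ≠ 0 := by
    rw [hb]
    exact pow_ne_zero _ (hζ.ne_zero hN0)
  have hbhas : (D1_plc C W).Has b (z ^ j) := by
    rw [hb]
    exact hz.pow j
  have hbit : ∀ i : ℕ, Φ.gC^[i] b = b ^ q ^ i := by
    intro i
    induction i with
    | zero => rw [Function.iterate_zero_apply, pow_zero, pow_one]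
    | succ i ih =>
      have h1 : Φ.gC b = b ^ q := by
        rw [hq]
        refine D1_root_q ctx m hm ?_
        rw [← hq]
        exact hbN
      rw [Function.iterate_succ_apply', ih, map_pow, h1, ← pow_mul, ← pow_succ']
  have hsum := D1_sum (Finset.range m) (fun i => Φ.gC^[i] c₁ / c₁ * b ^ q ^ i)
    (fun i => w i * (z ^ j) ^ q ^ i) (fun i _ => (hhas i).mul (hbhas.pow _))
  have hval := D1_val_one hsum hj
  have hcsum : c₁ * ∑ i ∈ Finset.range m, Φ.gC^[i] c₁ / c₁ * b ^ q ^ i =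
      ∑ i ∈ Finset.range m, Φ.gC^[i] (b * c₁) := by
    rw [Finset.mul_sum]
    refine Finset.sum_congr rfl (fun i _ => ?_)
    have h1 : Φ.gC^[i] (b * c₁) = Φ.gC^[i] b * Φ.gC^[i] c₁ := iterate_map_mul Φ.gC i b c₁
    rw [h1, hbit i]
    field_simp
  refine ⟨c₁ * ∑ i ∈ Finset.range m, Φ.gC^[i] c₁ / c₁ * b ^ q ^ i, ?_, ?_, ?_⟩
  · refine mul_ne_zero hc₁ ?_
    intro h
    rw [h, map_zero, map_zero] at hval
    exact zero_ne_one hval
  · rw [hcsum, map_sum]
    have h1 : ∀ i ∈ Finset.range m, Φ.gC (Φ.gC^[i] (b * c₁)) = Φ.gC^[i + 1] (b * c₁) := by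
      intro i _
      rw [Function.iterate_succ_apply']
    rw [Finset.sum_congr rfl h1]
    have h2 : Φ.gC^[m] (b * c₁) = b * c₁ := by
      have h3 : Φ.gC^[m] (b * c₁) = Φ.gC^[m] b * Φ.gC^[m] c₁ := iterate_map_mul Φ.gC m b c₁
      rw [h3, hbit m, horb']
      have h4 : q ^ m = (q ^ m - 1) + 1 := by omega
      rw [h4, pow_succ, hbN, one_mul]
    have h5 := Finset.sum_range_succ (fun i => Φ.gC^[i] (b * c₁)) m
    have h6 := Finset.sum_range_succ' (fun i => Φ.gC^[i] (b * c₁)) m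
    rw [h6, h2, Function.iterate_zero_apply] at h5
    exact add_right_cancel h5
  · have h1 : algebraMap C M (c₁ * ∑ i ∈ Finset.range m, Φ.gC^[i] c₁ / c₁ * b ^ q ^ i) * f =
        algebraMap C M (∑ i ∈ Finset.range m, Φ.gC^[i] c₁ / c₁ * b ^ q ^ i) *
          (algebraMap C M c₁ * f) := by
      rw [map_mul]
      ring
    rw [h1, map_mul, hv₁, mul_one]
    exact hval

/-- roots of unity of order dividing `(l ^ e) ^ m - 1` -/
theorem root_q (ctx : Ctx p l e W T Φ S) (m : ℕ) (hm : 1 ≤ m) {ξ : C}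
    (hξ : ξ ^ ((l ^ e) ^ m - 1) = 1) : Φ.gC ξ = ξ ^ l ^ e :=
  D1_root_q ctx m hm hξ

end Pool.Agent.Lib.MP_2f3286_ag.Pp
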