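import Mathlib
import Pool.Agent.Lib.MP_2f3286_ag.Full.Pole

/-!
# The ring of the functions without poles outside the poles of `x`, over a finite field   (module D2)

The proof of `d2_cls` is that of the module Gl/F1.
-/

open Polynomial IntermediateField

namespace Pool.Agent.Lib.MP_2f3286_ag.Pp

private theorem d2_cls {κ₀ K₀ : Type*} [Field κ₀] [Finite κ₀] [Field K₀] [Algebra κ₀ K₀] (x : K₀) (tr : Transcendental κ₀ x)
    [FiniteDimensional κ₀⟮x⟯ K₀] [Algebra.IsSeparable κ₀⟮x⟯ K₀] :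
    Finite (ClassGroup (integralClosure (Algebra.adjoin κ₀ {x}) K₀)) := by
  classical
  cases nonempty_fintype κ₀
  letI a1 : Algebra κ₀[X] K₀ := (aeval x : κ₀[X] →ₐ[κ₀] K₀).toRingHom.toAlgebra
  letI a2 : Algebra κ₀[X] κ₀⟮x⟯ := (aeval (AdjoinSimple.gen κ₀ x) : κ₀[X] →ₐ[κ₀] κ₀⟮x⟯).toRingHom.toAlgebra
  letI a3 : Algebra κ₀[X] (Algebra.adjoin κ₀ {x}) :=
    (aeval (⟨x, Algebra.self_mem_adjoin_singleton κ₀ x⟩ : Algebra.adjoin κ₀ {x}) : κ₀[X] →ₐ[κ₀] Algebra.adjoin κ₀ {x}).toRingHom.toAlgebra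
  have e1 : ∀ q : κ₀[X], algebraMap κ₀[X] K₀ q = aeval x q := fun _ => rfl
  have e2 : ∀ q : κ₀[X], algebraMap κ₀[X] κ₀⟮x⟯ q = aeval (AdjoinSimple.gen κ₀ x) q := fun _ => rfl
  have e3 : ∀ q : κ₀[X], algebraMap κ₀[X] (Algebra.adjoin κ₀ {x}) q =
    aeval (⟨x, Algebra.self_mem_adjoin_singleton κ₀ x⟩ : Algebra.adjoin κ₀ {x}) q := fun _ => rfl
  haveI t1 : IsScalarTower κ₀[X] κ₀⟮x⟯ K₀ := IsScalarTower.of_algebraMap_eq fun q => by
    rw [e1, e2, ← aeval_algebraMap_apply, AdjoinSimple.algebraMap_gen]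
  haveI t2 : IsScalarTower κ₀[X] (Algebra.adjoin κ₀ {x}) K₀ := IsScalarTower.of_algebraMap_eq fun q => by
    rw [e1, e3, ← aeval_algebraMap_apply]
    rfl
  have hinj : Function.Injective (algebraMap κ₀[X] κ₀⟮x⟯) := by
    rw [injective_iff_map_eq_zero]
    intro q hq
    have h1 : algebraMap κ₀[X] K₀ q = 0 := by
      rw [IsScalarTower.algebraMap_apply κ₀[X] κ₀⟮x⟯ K₀, hq, map_zero]
    exact transcendental_iff.1 tr q h1
  haveI f1 : FaithfulSMul κ₀[X] κ₀⟮x⟯ := (faithfulSMul_iff_algebraMap_injective _ _).2 hinj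
  haveI fr : IsFractionRing κ₀[X] κ₀⟮x⟯ := by
    refine IsFractionRing.of_field _ _ ?_
    rintro ⟨z, hz⟩
    obtain ⟨r, s, hrs⟩ := (mem_adjoin_simple_iff κ₀ z).1 hz
    refine ⟨r, s, Subtype.ext ?_⟩
    have h1 : ∀ q : κ₀[X], ((algebraMap κ₀[X] κ₀⟮x⟯ q : κ₀⟮x⟯) : K₀) = aeval x q := fun q =>
      (IsScalarTower.algebraMap_apply κ₀[X] κ₀⟮x⟯ K₀ q).symm
    rw [IntermediateField.coe_div, h1, h1]
    exact hrs
  haveI int1 : Algebra.IsIntegral κ₀[X] (Algebra.adjoin κ₀ {x}) := by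
    refine Algebra.isIntegral_of_surjective ?_
    rintro ⟨z, hz⟩
    obtain ⟨q, hq⟩ := (Pool.Agent.Lib.MP_2f3286_ag.Full.Pole.mem_adj x z).1 hz
    refine ⟨q, Subtype.ext ?_⟩
    exact (IsScalarTower.algebraMap_apply κ₀[X] (Algebra.adjoin κ₀ {x}) K₀ q).symm.trans hq
  haveI ic : IsIntegralClosure (integralClosure (Algebra.adjoin κ₀ {x}) K₀) κ₀[X] K₀ := by
    refine ⟨Subtype.val_injective, ?_⟩
    intro z
    constructor
    · intro hz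
      exact ⟨⟨z, hz.tower_top⟩, rfl⟩
    · rintro ⟨w, rfl⟩
      exact isIntegral_trans (R := κ₀[X]) (A := Algebra.adjoin κ₀ {x}) _ w.2
  exact @Finite.of_fintype _ (ClassGroup.fintypeOfAdmissibleOfFinite κ₀⟮x⟯ K₀
    (Polynomial.cardPowDegreeIsAdmissible :
      AbsoluteValue.IsAdmissible (Polynomial.cardPowDegree : AbsoluteValue κ₀[X] ℤ)))

/-- The integral closure of `κ₀[x]` in `K₀`. -/
theorem cls_ok {κ₀ K₀ : Type*} [Field κ₀] [Finite κ₀] [Field K₀] [Algebra κ₀ K₀] (x : K₀)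
    (tr : Transcendental κ₀ x) [FiniteDimensional κ₀⟮x⟯ K₀] [Algebra.IsSeparable κ₀⟮x⟯ K₀] :
    ∃ B : Subalgebra κ₀ K₀, IsDedekindDomain B ∧ IsFractionRing B K₀ ∧ x ∈ B ∧
      (∀ f, f ∈ B ↔ IsIntegral (Algebra.adjoin κ₀ {x}) f) ∧ Finite (ClassGroup B) := by
  obtain ⟨i1, i2, -⟩ := Pool.Agent.Lib.MP_2f3286_ag.Full.Pole.facts (F := κ₀) x
  have i3 := d2_cls (κ₀ := κ₀) x tr
  let B : Subalgebra κ₀ K₀ := (integralClosure (Algebra.adjoin κ₀ {x}) K₀).restrictScalars κ₀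
  have j1 : IsDedekindDomain B := i1
  have j2 : IsFractionRing B K₀ := i2
  have j3 : Finite (ClassGroup B) := i3
  refine ⟨B, j1, j2, ?_, fun f => Iff.rfl, j3⟩
  exact isIntegral_algebraMap (R := Algebra.adjoin κ₀ {x})
    (x := ⟨x, Algebra.self_mem_adjoin_singleton κ₀ x⟩)

end Pool.Agent.Lib.MP_2f3286_ag.Pp
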