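import Mathlib

/-!
# The field of the elements fixed by a Frobenius automorphism   (module D3)

`q = l ^ e`; `κ₀` is the field with `q` elements, `κ` an algebraic closure of it, `φ` an automorphism of `k ⊇ κ`, the `q`-Frobenius on `κ`, with finite orbits; `K₀` the field of the elements fixed by `φ`.
PROOF of `fb_const`. `φ^[m] c = c`, `m ≥ 1`. Let `θ ∈ κ` be a primitive root of unity of order `q ^ m - 1` (prime to the characteristic `l`; `HasEnoughRootsOfUnity` or `IsAlgClosed`), `P` the minimal polynomial of `θ` over `κ₀` (`κ₀` finite, so perfect: `P` separable, `P'(θ) ≠ 0`; `θ` is algebraic over `κ₀` as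
`θ ^ (q ^ m - 1) = 1`). The elements `θ_i = φ^[i] θ = θ ^ (q ^ i)`, `i < m`, are distinct. For `j < m`: `t_j = ∑ i < m, φ^[i] (θ ^ j c) = ∑ i < m, θ_i ^ j φ^[i] c` is fixed by `φ` (`φ^[m] (θ ^ j c) = θ ^ j c`, `φ^[m] θ = θ ^ (q ^ m) = θ`). The matrix `(θ_i ^ j)` is a Vandermonde matrix with entries in
`K₀(θ)`, invertible, so `c = φ^[0] c` is a combination of the `t_j ∈ K₀` with coefficients in `K₀(θ)` (`Matrix.det_vandermonde_ne_zero_iff`, `Matrix.nonsing_inv`, or Lagrange interpolation: there is a polynomial `L` over `K₀(θ)` of degree `< m` with `L(θ_0) = 1`, `L(θ_i) = 0` for `0 < i < m`;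
`∑_j L_j t_j = ∑_i L(θ_i) φ^[i] c = c`).
-/

open Polynomial IntermediateField

namespace Pool.Agent.Lib.MP_2f3286_ag.Pp

variable {κ₀ κ k : Type*} [Field κ₀] [Finite κ₀] [Field κ] [IsAlgClosed κ] [Algebra κ₀ κ]
  [Field k] [Algebra κ k] [Algebra κ₀ k] [IsScalarTower κ₀ κ k] {l e : ℕ}

theorem fb_const (hl : l.Prime) (he : 1 ≤ e) (hlκ : (l : κ) = 0)
    (hκ₀ : ∀ z : κ, z ^ l ^ e = z ↔ ∃ a : κ₀, algebraMap κ₀ κ a = z) (φ : k ≃+* k)
    (hφ : ∀ z : κ, φ (algebraMap κ k z) = algebraMap κ k (z ^ l ^ e))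
    (horb : ∀ z : k, ∃ m, 1 ≤ m ∧ φ^[m] z = z) (K₀ : IntermediateField κ₀ k)
    (hK₀ : ∀ z, z ∈ K₀ ↔ φ z = z) (c : k) :
    ∃ (θ : κ) (P : κ₀[X]), P.Monic ∧ aeval θ P = 0 ∧ aeval θ (derivative P) ≠ 0 ∧
      c ∈ IntermediateField.adjoin K₀ {algebraMap κ k θ} := by
  obtain ⟨m, hm, hmc⟩ := horb c
  set q : ℕ := l ^ e with hq
  have hq2 : 2 ≤ q := by
    calc 2 ≤ l := hl.two_le
      _ = l ^ 1 := (pow_one l).symm
      _ ≤ l ^ e := Nat.pow_le_pow_right hl.pos he
  have hqm2 : 2 ≤ q ^ m := by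
    calc 2 ≤ q := hq2
      _ = q ^ 1 := (pow_one q).symm
      _ ≤ q ^ m := Nat.pow_le_pow_right (by omega) hm
  have hqκ : (q : κ) = 0 := by
    rw [hq, Nat.cast_pow, hlκ, zero_pow (by omega)]
  have hNκ : ((q ^ m - 1 : ℕ) : κ) ≠ 0 := by
    rw [Nat.cast_sub (by omega), Nat.cast_pow, hqκ, zero_pow (by omega)]
    simp
  have : NeZero ((q ^ m - 1 : ℕ) : κ) := ⟨hNκ⟩
  obtain ⟨θ, hθ⟩ := HasEnoughRootsOfUnity.exists_primitiveRoot κ (q ^ m - 1)
  have hNpos : 0 < q ^ m - 1 := by omega
  have hint : IsIntegral κ₀ θ := (hθ.isIntegral hNpos).tower_top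
  refine ⟨θ, minpoly κ₀ θ, minpoly.monic hint, minpoly.aeval κ₀ θ, ?_, ?_⟩
  · exact (PerfectField.separable_of_irreducible (minpoly.irreducible hint)).aeval_derivative_ne_zero
      (minpoly.aeval κ₀ θ)
  -- the Frobenius iterates
  have hφi : ∀ (i : ℕ) (z : κ), φ^[i] (algebraMap κ k z) = algebraMap κ k (z ^ q ^ i) := by
    intro i
    induction i with
    | zero => intro z; simp
    | succ i ih =>
      intro z
      rw [Function.iterate_succ_apply', ih, hφ, ← pow_mul, ← pow_succ]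
  set θ' : k := algebraMap κ k θ with hθ'
  set F := IntermediateField.adjoin K₀ {θ'} with hF
  have hθF : θ' ∈ F := IntermediateField.mem_adjoin_simple_self K₀ θ'
  let v : ℕ → F := fun i => ⟨θ' ^ q ^ i, pow_mem hθF _⟩
  have hinj : Set.InjOn v (Finset.range m : Set ℕ) := by
    intro i hi j hj hij
    have hi' : i < m := by simpa using hi
    have hj' : j < m := by simpa using hj
    have h1 : θ' ^ q ^ i = θ' ^ q ^ j := congrArg Subtype.val hij
    have h2 : θ ^ q ^ i = θ ^ q ^ j := by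
      apply (algebraMap κ k).injective
      rw [map_pow, map_pow]; exact h1
    by_cases hm1 : m = 1
    · omega
    have hlt : ∀ i, i < m → q ^ i < q ^ m - 1 := by
      intro i hi
      have h3 : q ^ i ≤ q ^ (m - 1) := Nat.pow_le_pow_right (by omega) (by omega)
      have h4 : q ^ m = q ^ (m - 1) * q := by
        rw [← pow_succ]; congr 1; omega
      have h5 : 2 ≤ q ^ (m - 1) := by
        calc 2 ≤ q := hq2
          _ = q ^ 1 := (pow_one q).symm
          _ ≤ q ^ (m - 1) := Nat.pow_le_pow_right (by omega) (by omega)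
      have h6 : q ^ (m - 1) * 2 ≤ q ^ (m - 1) * q := Nat.mul_le_mul_left _ hq2
      omega
    have h3 := hθ.pow_inj (hlt i hi') (hlt j hj') h2
    exact Nat.pow_right_injective hq2 h3
  have h0 : 0 ∈ Finset.range m := Finset.mem_range.mpr (by omega)
  set L : F[X] := Lagrange.basis (Finset.range m) v 0 with hL
  have hLdeg : L.natDegree < m := by
    have h1 := Lagrange.degree_basis hinj h0
    rw [Finset.card_range] at h1
    have h2 : L.natDegree = m - 1 := natDegree_eq_of_degree_eq_some h1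
    omega
  have hL0 : L.eval (v 0) = 1 := Lagrange.eval_basis_self hinj h0
  have hLi : ∀ i, i < m → i ≠ 0 → L.eval (v i) = 0 := by
    intro i hi hi0
    exact Lagrange.eval_basis_of_ne (Ne.symm hi0) (by simpa using hi)
  -- traces
  let t : ℕ → k := fun j => ∑ i ∈ Finset.range m, φ^[i] (θ' ^ j * c)
  have hmul : ∀ (i : ℕ) (a b : k), φ^[i] (a * b) = φ^[i] a * φ^[i] b := by
    intro i
    induction i with
    | zero => intro a b; simp
    | succ i ih => intro a b; rw [Function.iterate_succ_apply', ih, map_mul,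
        Function.iterate_succ_apply', Function.iterate_succ_apply']
  have hθj : ∀ (i j : ℕ), φ^[i] (θ' ^ j) = (θ' ^ q ^ i) ^ j := by
    intro i j
    rw [hθ', ← map_pow, hφi, ← map_pow, ← map_pow]
    congr 1
    rw [pow_right_comm]
  have hθm : θ' ^ q ^ m = θ' := by
    have h1 : θ ^ q ^ m = θ := by
      have h2 : q ^ m = (q ^ m - 1) + 1 := by omega
      rw [h2, pow_succ, hθ.pow_eq_one, one_mul]
    rw [hθ', ← map_pow, h1]
  have htK : ∀ j, t j ∈ K₀ := by
    intro j
    rw [hK₀]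
    have h1 : φ (t j) = ∑ i ∈ Finset.range m, φ^[i + 1] (θ' ^ j * c) := by
      simp only [t]
      rw [map_sum]
      refine Finset.sum_congr rfl fun i _ => ?_
      rw [Function.iterate_succ_apply']
    rw [h1]
    have h2 : φ^[m] (θ' ^ j * c) = φ^[0] (θ' ^ j * c) := by
      rw [hmul, hθj, hmc, hθm]; rfl
    have h3 := Finset.sum_range_succ (fun i => φ^[i] (θ' ^ j * c)) m
    have h4 := Finset.sum_range_succ' (fun i => φ^[i] (θ' ^ j * c)) m
    rw [h3, h2] at h4
    exact (add_right_cancel h4).symm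
  have hsum : c = ∑ j ∈ Finset.range m, (L.coeff j : k) * t j := by
    have h1 : ∀ i, i ∈ Finset.range m → ((L.eval (v i) : F) : k)
        = ∑ j ∈ Finset.range m, (L.coeff j : k) * (θ' ^ q ^ i) ^ j := by
      intro i _
      rw [eval_eq_sum_range' hLdeg]
      push_cast
      rfl
    have h2 : ∑ i ∈ Finset.range m, ((L.eval (v i) : F) : k) * φ^[i] c = c := by
      rw [Finset.sum_eq_single 0]
      · rw [hL0]; simp
      · intro i hi hi0
        rw [hLi i (by simpa using hi) hi0]; simp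
      · intro h; exact absurd h0 h
    calc c = ∑ i ∈ Finset.range m, ((L.eval (v i) : F) : k) * φ^[i] c := h2.symm
      _ = ∑ i ∈ Finset.range m, ∑ j ∈ Finset.range m,
            ((L.coeff j : k) * (θ' ^ q ^ i) ^ j) * φ^[i] c := by
          refine Finset.sum_congr rfl fun i hi => ?_
          rw [h1 i hi, Finset.sum_mul]
      _ = ∑ j ∈ Finset.range m, ∑ i ∈ Finset.range m,
            ((L.coeff j : k) * (θ' ^ q ^ i) ^ j) * φ^[i] c := Finset.sum_comm
      _ = ∑ j ∈ Finset.range m, (L.coeff j : k) * t j := by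
          refine Finset.sum_congr rfl fun j _ => ?_
          simp only [t]
          rw [Finset.mul_sum]
          refine Finset.sum_congr rfl fun i _ => ?_
          rw [hmul, hθj, mul_assoc]
  rw [hsum]
  refine sum_mem fun j _ => mul_mem (SetLike.coe_mem _) ?_
  exact F.algebraMap_mem ⟨t j, htK j⟩

end Pool.Agent.Lib.MP_2f3286_ag.Pp
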