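import Mathlib
import Pool.Agent.Lib.MP_2f3286_ag.Pp.D3

/-!
# The field of the elements fixed by a Frobenius automorphism   (module D3b)

`q = l ^ e`; `κ₀` is the field with `q` elements, `κ` an algebraic closure of it, `φ` an automorphism of `k ⊇ κ`, the `q`-Frobenius on `κ`, with finite orbits; `K₀` the field of the elements fixed by `φ`.
PROOF of `fb_ind` (shortest relation). Let `g_i ∈ K₀` be linearly independent over `κ₀(x)`. Let `∑ a_i g_i = 0` be a non-trivial relation over `κ(x)` with the smallest number of non-zero coefficients, one of them equal to `1`.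
`∑ (φ a_i - a_i) g_i = 0` is shorter, so `φ a_i = a_i`. An element of `κ(x)` fixed by `φ` is in `κ₀(x)`: write it as `A(x) / B(x)`, `B` monic of smallest degree; `B - B^φ` has smaller degree, so `B^φ = B`, and then `A^φ = A`; so the coefficients are in `κ₀`. Contradiction.
PROOF of `fb_fin`. By `fb_ind`, a family in `K₀` linearly independent over `κ₀(x)` has at most `[k : κ(x)]` elements: finite dimensional. Separable: for `g ∈ K₀`, `1, g, ..., g ^ (d - 1)` with `d` the degree of the minimal polynomial `P` of `g` over `κ₀(x)` are independent over `κ(x)` (`fb_ind`), so the image of `P` is the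
minimal polynomial of `g` over `κ(x)`, which is separable; so `P` is separable (`Polynomial.separable_map`). (The map `κ₀(x) → κ(x)`; take `κ₀(x)` inside `K₀` and `κ(x)` inside `k`.)
-/

open Polynomial IntermediateField

namespace Pool.Agent.Lib.MP_2f3286_ag.Pp

variable {κ₀ κ k : Type*} [Field κ₀] [Finite κ₀] [Field κ] [IsAlgClosed κ] [Algebra κ₀ κ]
  [Field k] [Algebra κ k] [Algebra κ₀ k] [IsScalarTower κ₀ κ k] {l e : ℕ}

omit [Finite κ₀] [IsAlgClosed κ] in
/-- elements of `κ(x)` fixed by `φ` are in `κ₀(x)` -/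
private theorem d3b_fix (hκ₀ : ∀ z : κ, z ^ l ^ e = z ↔ ∃ a : κ₀, algebraMap κ₀ κ a = z)
    (φ : k ≃+* k) (hφ : ∀ z : κ, φ (algebraMap κ k z) = algebraMap κ k (z ^ l ^ e))
    (K₀ : IntermediateField κ₀ k)
    (hK₀ : ∀ z, z ∈ K₀ ↔ φ z = z) (x : K₀) (htr : Transcendental κ (x : k)) {a : k}
    (ha : a ∈ κ⟮(x : k)⟯) (hfix : φ a = a) : ∃ β : κ₀⟮x⟯, ((β : K₀) : k) = a := by
  classical
  have hinj := (algebraMap κ k).injective
  have hxfix : φ (x : k) = x := (hK₀ _).1 x.2
  -- the Frobenius of `κ`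
  let ψ : κ →+* κ :=
    { toFun := fun z => z ^ l ^ e
      map_one' := one_pow _
      map_mul' := fun z w => mul_pow _ _ _
      map_zero' := by
        apply hinj
        rw [← hφ, map_zero, map_zero]
      map_add' := fun z w => by
        apply hinj
        rw [← hφ, map_add, map_add, map_add, hφ, hφ] }
  have hψ : ∀ z, ψ z = z ^ l ^ e := fun _ => rfl
  have hφa : ∀ B : κ[X], φ (aeval (x : k) B) = aeval (x : k) (B.map ψ) := by
    intro B
    have e1 : (φ : k →+* k).comp (algebraMap κ k) = (algebraMap κ k).comp ψ := by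
      ext z
      exact hφ z
    have e2 := Polynomial.hom_eval₂ B (algebraMap κ k) (φ : k →+* k) (x : k)
    rw [e1] at e2
    rw [aeval_def, aeval_def, eval₂_map]
    have e3 : (φ : k →+* k) (x : k) = x := hxfix
    rw [e3] at e2
    exact e2
  by_cases ha0 : a = 0
  · exact ⟨0, by rw [ha0]; simp⟩
  -- a monic denominator of smallest degree
  have hnorm : ∀ r s : κ[X], s ≠ 0 → a * aeval (x : k) s = aeval (x : k) r →
      ∃ A B : κ[X], B.Monic ∧ B.natDegree = s.natDegree ∧ a * aeval (x : k) B = aeval (x : k) A := by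
    intro r s hs h
    have hlc : s.leadingCoeff ≠ 0 := leadingCoeff_ne_zero.2 hs
    refine ⟨C s.leadingCoeff⁻¹ * r, s * C s.leadingCoeff⁻¹, monic_mul_leadingCoeff_inv hs,
      natDegree_mul_leadingCoeff_inv s hs, ?_⟩
    rw [map_mul, map_mul, ← h]
    ring
  have hex : ∃ d : ℕ, ∃ A B : κ[X], B.Monic ∧ B.natDegree = d ∧
      a * aeval (x : k) B = aeval (x : k) A := by
    obtain ⟨r, s, hrs⟩ := (IntermediateField.mem_adjoin_simple_iff κ a).1 ha
    have hs : aeval (x : k) s ≠ 0 := by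
      intro h
      rw [h, div_zero] at hrs
      exact ha0 hrs
    have hs0 : s ≠ 0 := by
      intro h
      rw [h, map_zero] at hs
      exact hs rfl
    obtain ⟨A, B, h1, h2, h3⟩ := hnorm r s hs0 (by rw [hrs]; field_simp)
    exact ⟨_, A, B, h1, h2, h3⟩
  obtain ⟨A, B, hB1, hB2, hAB⟩ := Nat.find_spec hex
  have hmin : ∀ r s : κ[X], s ≠ 0 → a * aeval (x : k) s = aeval (x : k) r →
      B.natDegree ≤ s.natDegree := by
    intro r s hs h
    obtain ⟨A', B', h1, h2, h3⟩ := hnorm r s hs h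
    rw [hB2, ← h2]
    exact Nat.find_min' hex ⟨A', B', h1, rfl, h3⟩
  have hAB' : a * aeval (x : k) (B.map ψ) = aeval (x : k) (A.map ψ) := by
    rw [← hφa, ← hφa, ← hAB, map_mul, hfix]
  have hBψ : B.map ψ = B := by
    by_contra hne
    have hD0 : B - B.map ψ ≠ 0 := sub_ne_zero.2 (Ne.symm hne)
    have h1 : a * aeval (x : k) (B - B.map ψ) = aeval (x : k) (A - A.map ψ) := by
      rw [map_sub, map_sub, mul_sub, hAB, hAB']
    have h2 := hmin _ _ hD0 h1
    have h3 : (B - B.map ψ).degree < B.degree := by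
      apply degree_sub_lt
      · rw [hB1.degree_map]
      · exact hB1.ne_zero
      · rw [hB1.leadingCoeff, (hB1.map ψ).leadingCoeff]
    have h4 := natDegree_lt_natDegree hD0 h3
    omega
  have hAψ : A.map ψ = A := by
    rw [hBψ, hAB] at hAB'
    have hi := (transcendental_iff_injective (R := κ) (x := (x : k))).1 htr
    exact (hi hAB').symm
  have hlift : ∀ P : κ[X], P.map ψ = P → ∃ P₀ : κ₀[X], P₀.map (algebraMap κ₀ κ) = P := by
    intro P hP
    have h1 : P ∈ lifts (algebraMap κ₀ κ) := by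
      rw [lifts_iff_coeff_lifts]
      intro n
      have h2 : ψ (P.coeff n) = P.coeff n := by
        conv_rhs => rw [← hP]
        rw [coeff_map]
      exact (hκ₀ _).1 h2
    exact (mem_lifts P).1 h1
  obtain ⟨A₀, hA₀⟩ := hlift A hAψ
  obtain ⟨B₀, hB₀⟩ := hlift B hBψ
  have hev : ∀ P₀ : κ₀[X], (((aeval (AdjoinSimple.gen κ₀ x) P₀ : κ₀⟮x⟯) : K₀) : k) =
      aeval (x : k) (P₀.map (algebraMap κ₀ κ)) := by
    intro P₀
    rw [aeval_map_algebraMap]
    have h1 : ((aeval (AdjoinSimple.gen κ₀ x) P₀ : κ₀⟮x⟯) : K₀) = aeval x P₀ := by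
      have := (aeval_algHom_apply (κ₀⟮x⟯).val (AdjoinSimple.gen κ₀ x) P₀).symm
      simpa using this
    rw [h1]
    exact (aeval_algHom_apply K₀.val x P₀).symm
  have hBne : aeval (x : k) B ≠ 0 := by
    intro h
    have hi := (transcendental_iff_injective (R := κ) (x := (x : k))).1 htr
    exact hB1.ne_zero (hi (by rw [h, map_zero]))
  refine ⟨aeval (AdjoinSimple.gen κ₀ x) A₀ / aeval (AdjoinSimple.gen κ₀ x) B₀, ?_⟩
  have e1 : (((aeval (AdjoinSimple.gen κ₀ x) A₀ / aeval (AdjoinSimple.gen κ₀ x) B₀ : κ₀⟮x⟯) : K₀) : k)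
      = (((aeval (AdjoinSimple.gen κ₀ x) A₀ : κ₀⟮x⟯) : K₀) : k) /
        (((aeval (AdjoinSimple.gen κ₀ x) B₀ : κ₀⟮x⟯) : K₀) : k) := by
    push_cast
    rfl
  rw [e1, hev, hev, hA₀, hB₀, ← hAB, mul_div_cancel_right₀ _ hBne]

omit [Finite κ₀] [IsAlgClosed κ] in
/-- `φ` preserves `κ(x)` -/
private theorem d3b_stab (φ : k ≃+* k) (hφ : ∀ z : κ, φ (algebraMap κ k z) = algebraMap κ k (z ^ l ^ e))
    {x : k} (hx : φ x = x) {a : k} (ha : a ∈ κ⟮x⟯) : φ a ∈ κ⟮x⟯ := by
  have hinj := (algebraMap κ k).injective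
  let ψ : κ →+* κ :=
    { toFun := fun z => z ^ l ^ e
      map_one' := one_pow _
      map_mul' := fun z w => mul_pow _ _ _
      map_zero' := by
        apply hinj
        rw [← hφ, map_zero, map_zero]
      map_add' := fun z w => by
        apply hinj
        rw [← hφ, map_add, map_add, map_add, hφ, hφ] }
  have hφa : ∀ B : κ[X], φ (aeval x B) = aeval x (B.map ψ) := by
    intro B
    have e1 : (φ : k →+* k).comp (algebraMap κ k) = (algebraMap κ k).comp ψ := by
      ext z
      exact hφ z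
    have e2 := Polynomial.hom_eval₂ B (algebraMap κ k) (φ : k →+* k) x
    rw [e1] at e2
    rw [aeval_def, aeval_def, eval₂_map]
    have e3 : (φ : k →+* k) x = x := hx
    rw [e3] at e2
    exact e2
  obtain ⟨r, s, hrs⟩ := (IntermediateField.mem_adjoin_simple_iff κ a).1 ha
  rw [IntermediateField.mem_adjoin_simple_iff]
  exact ⟨r.map ψ, s.map ψ, by rw [hrs, map_div₀, hφa, hφa]⟩

omit [Finite κ₀] [IsAlgClosed κ] in
private theorem d3b_ind (hκ₀ : ∀ z : κ, z ^ l ^ e = z ↔ ∃ a : κ₀, algebraMap κ₀ κ a = z) (φ : k ≃+* k)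
    (hφ : ∀ z : κ, φ (algebraMap κ k z) = algebraMap κ k (z ^ l ^ e))
    (K₀ : IntermediateField κ₀ k)
    (hK₀ : ∀ z, z ∈ K₀ ↔ φ z = z) (x : K₀) (htr : Transcendental κ (x : k)) {n : ℕ}
    (g : Fin n → K₀) (hg : LinearIndependent κ₀⟮x⟯ g) :
    LinearIndependent κ⟮(x : k)⟯ (fun i => (g i : k)) := by
  classical
  have hxfix : φ (x : k) = x := (hK₀ _).1 x.2
  have key : ∀ N : ℕ, ∀ a : Fin n → k, (∀ i, a i ∈ κ⟮(x : k)⟯) → ∑ i, a i * (g i : k) = 0 →
      (Finset.univ.filter (fun i => a i ≠ 0)).card ≤ N → ∀ i, a i = 0 := by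
    intro N
    induction N with
    | zero =>
      intro a _ _ hN i
      by_contra hi
      have h1 : i ∈ Finset.univ.filter (fun i => a i ≠ 0) := by simpa using hi
      rw [Finset.card_eq_zero.1 (Nat.le_zero.1 hN)] at h1
      exact absurd h1 (Finset.notMem_empty i)
    | succ N ih =>
      intro a ha hsum hN i₁
      by_contra hi₁
      obtain ⟨b, hb⟩ : ∃ b : Fin n → k, b = fun i => a i / a i₁ := ⟨_, rfl⟩
      have hbm : ∀ i, b i ∈ κ⟮(x : k)⟯ := fun i => by
        rw [hb]
        exact div_mem (ha i) (ha i₁)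
      have hb1 : b i₁ = 1 := by
        rw [hb]
        exact div_self hi₁
      have hbsum : ∑ i, b i * (g i : k) = 0 := by
        have h2 : ∑ i, b i * (g i : k) = (a i₁)⁻¹ * ∑ i, a i * (g i : k) := by
          rw [Finset.mul_sum]
          apply Finset.sum_congr rfl
          intro i _
          rw [hb]
          field_simp
        rw [h2, hsum, mul_zero]
      have hgfix : ∀ i, φ (g i : k) = g i := fun i => (hK₀ _).1 (g i).2
      have hφsum : ∑ i, φ (b i) * (g i : k) = 0 := by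
        have h3 := congrArg φ hbsum
        rw [map_sum, map_zero] at h3
        rw [← h3]
        apply Finset.sum_congr rfl
        intro i _
        rw [map_mul, hgfix]
      have hfix : ∀ i, φ (b i) - b i = 0 := by
        apply ih (fun i => φ (b i) - b i)
        · intro i
          exact sub_mem (d3b_stab φ hφ hxfix (hbm i)) (hbm i)
        · have h4 : ∑ i, (φ (b i) - b i) * (g i : k) =
              ∑ i, φ (b i) * (g i : k) - ∑ i, b i * (g i : k) := by
            rw [← Finset.sum_sub_distrib]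
            exact Finset.sum_congr rfl (fun i _ => by ring)
          rw [h4, hφsum, hbsum, sub_zero]
        · have hsub : Finset.univ.filter (fun i => φ (b i) - b i ≠ 0) ⊆
              (Finset.univ.filter (fun i => a i ≠ 0)).erase i₁ := by
            intro i hi
            rw [Finset.mem_filter] at hi
            rw [Finset.mem_erase, Finset.mem_filter]
            refine ⟨?_, Finset.mem_univ _, ?_⟩
            · intro h
              rw [h, hb1, map_one, sub_self] at hi
              exact hi.2 rfl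
            · intro h
              have h5 : b i = 0 := by rw [hb]; simp [h]
              rw [h5, map_zero, sub_zero] at hi
              exact hi.2 rfl
          have h6 := Finset.card_le_card hsub
          have h7 : i₁ ∈ Finset.univ.filter (fun i => a i ≠ 0) := by simpa using hi₁
          rw [Finset.card_erase_of_mem h7] at h6
          omega
      have hβ : ∀ i, ∃ β : κ₀⟮x⟯, ((β : K₀) : k) = b i := fun i =>
        d3b_fix hκ₀ φ hφ K₀ hK₀ x htr (hbm i) (sub_eq_zero.1 (hfix i))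
      choose β hβ using hβ
      have hrel : ∑ i, β i • g i = 0 := by
        apply Subtype.ext
        have h8 : ((∑ i, β i • g i : K₀) : k) = ∑ i, b i * (g i : k) := by
          have h9 : ((∑ i, β i • g i : K₀) : k) = ∑ i, ((β i • g i : K₀) : k) := by
            exact map_sum (algebraMap K₀ k) _ _
          rw [h9]
          apply Finset.sum_congr rfl
          intro i _
          rw [← hβ i]
          rfl
        rw [h8, hbsum]
        rfl
      have h10 := Fintype.linearIndependent_iff.1 hg β hrel i₁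
      have h11 := hβ i₁
      rw [h10, hb1] at h11
      have h12 : (((0 : κ₀⟮x⟯) : K₀) : k) = 0 := rfl
      rw [h12] at h11
      exact zero_ne_one h11
  rw [Fintype.linearIndependent_iff]
  intro a hsum i
  have h1 := key n (fun i => ((a i : κ⟮(x : k)⟯) : k)) (fun i => (a i).2) (by
    rw [← hsum]
    rfl) (by
    calc (Finset.univ.filter (fun i => ((a i : κ⟮(x : k)⟯) : k) ≠ 0)).card
        ≤ (Finset.univ : Finset (Fin n)).card := Finset.card_filter_le _ _
      _ = n := by simp) i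
  exact Subtype.ext h1

theorem fb_ind (hl : l.Prime) (he : 1 ≤ e) (hlκ : (l : κ) = 0)
    (hκ₀ : ∀ z : κ, z ^ l ^ e = z ↔ ∃ a : κ₀, algebraMap κ₀ κ a = z) (φ : k ≃+* k)
    (hφ : ∀ z : κ, φ (algebraMap κ k z) = algebraMap κ k (z ^ l ^ e))
    (horb : ∀ z : k, ∃ m, 1 ≤ m ∧ φ^[m] z = z) (K₀ : IntermediateField κ₀ k)
    (hK₀ : ∀ z, z ∈ K₀ ↔ φ z = z) (x : K₀) (htr : Transcendental κ (x : k)) {n : ℕ}
    (g : Fin n → K₀) (hg : LinearIndependent κ₀⟮x⟯ g) :
    LinearIndependent κ⟮(x : k)⟯ (fun i => (g i : k)) :=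
  d3b_ind hκ₀ φ hφ K₀ hK₀ x htr g hg

omit [Finite κ₀] [IsAlgClosed κ] in
/-- the embedding `κ₀(x) → κ(x)` -/
private theorem d3b_le (K₀ : IntermediateField κ₀ k) (x : K₀) (β : κ₀⟮x⟯) :
    ((β : K₀) : k) ∈ κ⟮(x : k)⟯ := by
  have h1 : κ₀⟮x⟯ ≤ ((κ⟮(x : k)⟯).restrictScalars κ₀).comap K₀.val := by
    rw [adjoin_simple_le_iff]
    exact mem_adjoin_simple_self κ (x : k)
  exact h1 β.2

private noncomputable def d3bj (K₀ : IntermediateField κ₀ k) (x : K₀) : κ₀⟮x⟯ →+* κ⟮(x : k)⟯ where
  toFun β := ⟨((β : K₀) : k), d3b_le K₀ x β⟩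
  map_one' := rfl
  map_mul' _ _ := rfl
  map_zero' := rfl
  map_add' _ _ := rfl

theorem fb_fin (hl : l.Prime) (he : 1 ≤ e) (hlκ : (l : κ) = 0)
    (hκ₀ : ∀ z : κ, z ^ l ^ e = z ↔ ∃ a : κ₀, algebraMap κ₀ κ a = z) (φ : k ≃+* k)
    (hφ : ∀ z : κ, φ (algebraMap κ k z) = algebraMap κ k (z ^ l ^ e))
    (horb : ∀ z : k, ∃ m, 1 ≤ m ∧ φ^[m] z = z) (K₀ : IntermediateField κ₀ k)
    (hK₀ : ∀ z, z ∈ K₀ ↔ φ z = z) (x : K₀) (htr : Transcendental κ (x : k))
    [FiniteDimensional κ⟮(x : k)⟯ k] [Algebra.IsSeparable κ⟮(x : k)⟯ k] :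
    FiniteDimensional κ₀⟮x⟯ K₀ ∧ Algebra.IsSeparable κ₀⟮x⟯ K₀ := by
  classical
  have hfin : FiniteDimensional κ₀⟮x⟯ K₀ := by
    have h1 : Module.rank κ₀⟮x⟯ K₀ ≤ (Module.finrank κ⟮(x : k)⟯ k : ℕ) := by
      apply rank_le
      intro s hs
      have h2 : LinearIndependent κ₀⟮x⟯ (fun i : Fin s.card => ((s.equivFin.symm i : s) : K₀)) :=
        hs.comp _ s.equivFin.symm.injective
      have h3 := d3b_ind hκ₀ φ hφ K₀ hK₀ x htr _ h2
      have h4 := h3.fintype_card_le_finrank
      simpa using h4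
    have h5 : Module.rank κ₀⟮x⟯ K₀ < Cardinal.aleph0 := lt_of_le_of_lt h1 Cardinal.natCast_lt_aleph0
    exact Module.rank_lt_aleph0_iff.1 h5
  refine ⟨hfin, ⟨fun g => ?_⟩⟩
  have hint : IsIntegral κ₀⟮x⟯ g := Algebra.IsIntegral.isIntegral g
  obtain ⟨P, hP⟩ : ∃ P, P = minpoly κ₀⟮x⟯ g := ⟨_, rfl⟩
  have hPm : P.Monic := by rw [hP]; exact minpoly.monic hint
  have hlin := d3b_ind hκ₀ φ hφ K₀ hK₀ x htr _ (linearIndependent_pow (K := κ₀⟮x⟯) g)
  rw [← hP] at hlin
  have hint' : IsIntegral κ⟮(x : k)⟯ (g : k) := Algebra.IsIntegral.isIntegral _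
  obtain ⟨M, hM⟩ : ∃ M, M = minpoly κ⟮(x : k)⟯ (g : k) := ⟨_, rfl⟩
  have hMm : M.Monic := by rw [hM]; exact minpoly.monic hint'
  have hMa : aeval (g : k) M = 0 := by rw [hM]; exact minpoly.aeval _ _
  have hdeg : P.natDegree ≤ M.natDegree := by
    by_contra hlt
    push Not at hlt
    have h6 : ∑ i : Fin P.natDegree, M.coeff (i : ℕ) • ((g ^ (i : ℕ) : K₀) : k) = 0 := by
      have h7 : ∑ i : Fin P.natDegree, M.coeff (i : ℕ) • ((g ^ (i : ℕ) : K₀) : k) =
          ∑ i ∈ Finset.range P.natDegree, M.coeff i • (g : k) ^ i := by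
        rw [← Fin.sum_univ_eq_sum_range (fun i => M.coeff i • (g : k) ^ i)]
        apply Finset.sum_congr rfl
        intro i _
        congr 1
      rw [h7, ← aeval_eq_sum_range' hlt, hMa]
    have h8 := Fintype.linearIndependent_iff.1 hlin (fun i => M.coeff (i : ℕ)) h6
      ⟨M.natDegree, hlt⟩
    have h9 : M.coeff M.natDegree = 1 := hMm.coeff_natDegree
    simp only at h8
    rw [h9] at h8
    exact one_ne_zero h8
  have hroot : aeval (g : k) (P.map (d3bj (κ := κ) K₀ x)) = 0 := by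
    have h10 : aeval (g : k) (P.map (d3bj (κ := κ) K₀ x)) = ((aeval g P : K₀) : k) := by
      rw [aeval_def, eval₂_map, aeval_def]
      have h11 := Polynomial.hom_eval₂ P (algebraMap κ₀⟮x⟯ K₀) (algebraMap K₀ k) g
      exact h11.symm
    rw [h10, hP, minpoly.aeval]
    rfl
  have hdvd : M ∣ P.map (d3bj (κ := κ) K₀ x) := by
    rw [hM]
    exact minpoly.dvd _ _ hroot
  have heq : P.map (d3bj (κ := κ) K₀ x) = M := by
    apply eq_of_monic_of_dvd_of_natDegree_le hMm (hPm.map _) hdvd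
    rw [hPm.natDegree_map]
    exact hdeg
  have hsep : M.Separable := by
    rw [hM]
    exact Algebra.IsSeparable.isSeparable κ⟮(x : k)⟯ (g : k)
  rw [← heq, separable_map] at hsep
  show (minpoly κ₀⟮x⟯ g).Separable
  rw [← hP]
  exact hsep

end Pool.Agent.Lib.MP_2f3286_ag.Pp
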