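import Pool.Agent.Lib.MP_2f3286_ag.Pp.B1
import Pool.Agent.Lib.MP_2f3286_ag.Pp.D3
import Pool.Agent.Lib.MP_2f3286_ag.Pt.PropDefs
import Pool.Agent.Lib.MP_2f3286_ag.Pt.Ex1
import Pool.Agent.Lib.MP_2f3286_ag.Pt.Ex2
import Pool.Agent.Lib.MP_2f3286_ag.Pt.Ex3
import Pool.Agent.Lib.MP_2f3286_ag.Full.Gauss

/-!
# Orders over the field of the fixed elements   (module D4)

PROOF of `fc`. As `divAt_down` (Gl/F3.lean). `Full.exists_dominating` for the inclusion `B → k` and the prime ideal `v.asIdeal`: a valuation ring `Q` of `k` which contains `B`, elements of `v` have `Q`-valuation `< 1`, elements of `B` outside `v` have `Q`-valuation one. `κ₀ ⊆ B ⊆ Q`, `κ` is algebraic over `κ₀`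
(every `z ∈ κ` has `z ^ (q ^ m) = z` by `horb`, so it is a root of `X ^ (q ^ m) - X`), so `κ ⊆ Q` (`Pt.Ex1.alg_mem`); `Q ≠ ⊤` (`v ≠ ⊥`). Let `τ : K₀` with `v.valuation K₀ τ = exp (-1)` (`HeightOneSpectrum.valuation_exists_uniformizer`). Every nonzero `z : K₀` has `v.valuation K₀ z = exp (-n) = v.valuation K₀ (τ ^ n)`,
and an element of `v`-valuation one is a quotient of two elements of `B` outside `v` (`Pt.Ex2.exists_frac` for it and its inverse), so has `Q`-valuation one; so `Q(z) = Q(τ) ^ n`. `DivAt m f Q`: `c : k`, `c ≠ 0`, `Q(f) = Q(c) ^ m`. `fb_const`: `θ`, `P`, `c ∈ K₀(θ)`. `unr_val` (B1) with `K = K₀`, `L = k`,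
`z = θ`, the image of `P` in `K₀[X]` (coefficients in `κ₀ ⊆ Q`; `aeval θ P' ≠ 0` is a nonzero constant, in `κ`, so of valuation one): `Q(c) = Q(τ) ^ n`. So `Q(f) = Q(τ) ^ (n m)`; `v.valuation K₀ f = exp (-n')`, `Q(f) = Q(τ) ^ n'`, and `Q(τ) ≠ 0`, `< 1`, so `n' = n m`. `Pt.divAt_iff`.
-/

open Polynomial IntermediateField IsDedekindDomain

namespace Pool.Agent.Lib.MP_2f3286_ag.Pp

open Pool.Agent.Lib.MP_2f3286_ag.Pt (DivAt IsPlc)

variable {κ₀ κ k : Type*} [Field κ₀] [Finite κ₀] [Field κ] [IsAlgClosed κ] [Algebra κ₀ κ]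
  [Field k] [Algebra κ k] [Algebra κ₀ k] [IsScalarTower κ₀ κ k] {l e : ℕ}

private theorem d4_val_one (K₀ : IntermediateField κ₀ k)
    (B : Subalgebra κ₀ K₀) [IsDedekindDomain B] [IsFractionRing B K₀] (v : HeightOneSpectrum B)
    (Q : ValuationSubring k)
    (h3 : ∀ a : B, a ∉ v.asIdeal → Q.valuation (((a : K₀)) : k) = 1) (z : K₀)
    (hz : v.valuation K₀ z = 1) : Q.valuation (z : k) = 1 := by
  obtain ⟨c, s, hs, hzs⟩ := Pt.Ex2.exists_frac v z hz.le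
  have hs1 : v.valuation K₀ (algebraMap B K₀ s) = 1 :=
    (HeightOneSpectrum.valuation_eq_one_iff_notMem v).2 hs
  have hc1 : v.valuation K₀ (algebraMap B K₀ c) = 1 := by
    rw [← hzs, map_mul, hz, hs1, one_mul]
  have hc : c ∉ v.asIdeal := (HeightOneSpectrum.valuation_eq_one_iff_notMem v).1 hc1
  have h4 : (z : k) * ((s : K₀) : k) = ((c : K₀) : k) := by
    have := congrArg (algebraMap K₀ k) hzs
    rw [map_mul] at this
    exact this
  have h5 := congrArg Q.valuation h4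
  rw [map_mul, h3 s hs, h3 c hc, mul_one] at h5
  exact h5

private theorem d4_val_lt (K₀ : IntermediateField κ₀ k)
    (B : Subalgebra κ₀ K₀) [IsDedekindDomain B] [IsFractionRing B K₀] (v : HeightOneSpectrum B)
    (Q : ValuationSubring k)
    (h2 : ∀ a : B, a ∈ v.asIdeal → Q.valuation (((a : K₀)) : k) < 1)
    (h3 : ∀ a : B, a ∉ v.asIdeal → Q.valuation (((a : K₀)) : k) = 1) (z : K₀)
    (hz : v.valuation K₀ z < 1) : Q.valuation (z : k) < 1 := by
  obtain ⟨c, s, hs, hzs⟩ := Pt.Ex2.exists_frac v z hz.le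
  have hs1 : v.valuation K₀ (algebraMap B K₀ s) = 1 :=
    (HeightOneSpectrum.valuation_eq_one_iff_notMem v).2 hs
  have hc1 : v.valuation K₀ (algebraMap B K₀ c) < 1 := by
    rw [← hzs, map_mul, hs1, mul_one]
    exact hz
  have hc : c ∈ v.asIdeal := (HeightOneSpectrum.valuation_lt_one_iff_mem v _).1 hc1
  have h4 : (z : k) * ((s : K₀) : k) = ((c : K₀) : k) := by
    have := congrArg (algebraMap K₀ k) hzs
    rw [map_mul] at this
    exact this
  have h5 := congrArg Q.valuation h4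
  rw [map_mul, h3 s hs, mul_one] at h5
  rw [h5]
  exact h2 c hc

omit [Finite κ₀] [IsAlgClosed κ] [IsScalarTower κ₀ κ k] [Algebra κ₀ κ] [Algebra κ₀ k]
  [Field κ₀] in
private theorem d4_iter (φ : k ≃+* k)
    (hφ : ∀ z : κ, φ (algebraMap κ k z) = algebraMap κ k (z ^ l ^ e)) (m : ℕ) (z : κ) :
    φ^[m] (algebraMap κ k z) = algebraMap κ k (z ^ (l ^ e) ^ m) := by
  induction m generalizing z with
  | zero => simp
  | succ m ih =>
    rw [Function.iterate_succ_apply, hφ, ih, ← pow_mul, pow_succ' (l ^ e) m]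

omit [Finite κ₀] [IsAlgClosed κ] [IsScalarTower κ₀ κ k] [Algebra κ₀ k] in
private theorem d4_alg (hl : l.Prime) (he : 1 ≤ e) (φ : k ≃+* k)
    (hφ : ∀ z : κ, φ (algebraMap κ k z) = algebraMap κ k (z ^ l ^ e))
    (horb : ∀ z : k, ∃ m, 1 ≤ m ∧ φ^[m] z = z) (z : κ) : IsAlgebraic κ₀ z := by
  obtain ⟨m, hm, h1⟩ := horb (algebraMap κ k z)
  rw [d4_iter φ hφ] at h1
  have h2 : z ^ (l ^ e) ^ m = z := (algebraMap κ k).injective h1
  have h3 : 1 < (l ^ e) ^ m :=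
    Nat.one_lt_pow (by omega) (Nat.one_lt_pow (by omega) hl.one_lt)
  refine ⟨X ^ (l ^ e) ^ m - X, FiniteField.X_pow_card_sub_X_ne_zero κ₀ h3, ?_⟩
  simp [h2]

theorem fc (hl : l.Prime) (he : 1 ≤ e) (hlκ : (l : κ) = 0)
    (hκ₀ : ∀ z : κ, z ^ l ^ e = z ↔ ∃ a : κ₀, algebraMap κ₀ κ a = z) (φ : k ≃+* k)
    (hφ : ∀ z : κ, φ (algebraMap κ k z) = algebraMap κ k (z ^ l ^ e))
    (horb : ∀ z : k, ∃ m, 1 ≤ m ∧ φ^[m] z = z) (K₀ : IntermediateField κ₀ k)
    (hK₀ : ∀ z, z ∈ K₀ ↔ φ z = z) (B : Subalgebra κ₀ K₀) [IsDedekindDomain B]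
    [IsFractionRing B K₀] {m : ℕ} (hm : 1 ≤ m) {f : K₀} (hf : f ≠ 0)
    (hdiv : ∀ Q : ValuationSubring k, IsPlc κ Q → DivAt m (f : k) Q) (v : HeightOneSpectrum B) :
    DivAt m f (v.valuation K₀).valuationSubring := by
  let ψ : B →+* k := (algebraMap K₀ k).comp (algebraMap B K₀)
  have hψv : ∀ a : B, ψ a = ((a : K₀) : k) := fun a => rfl
  have hψ0 : ∀ a : B, ψ a = 0 → a = 0 := by
    intro a ha
    rw [hψv] at ha
    exact Subtype.ext (Subtype.ext ha)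
  have := v.isPrime
  obtain ⟨Q, h1, h2, h3⟩ := Full.exists_dominating ψ v.asIdeal (fun a ha => by
    rw [hψ0 a ha]; exact v.asIdeal.zero_mem)
  have hκQ : ∀ e : κ₀, algebraMap κ₀ k e ∈ Q := by
    intro e
    exact h1 (algebraMap κ₀ B e)
  have hκ : ∀ c : κ, algebraMap κ k c ∈ Q := by
    intro c
    exact Pt.Ex1.alg_mem (C := κ₀) Q hκQ _ ((d4_alg hl he φ hφ horb c).algebraMap)
  have hQtop : Q ≠ ⊤ := by
    intro htop
    obtain ⟨a, ha, ha0⟩ := (Submodule.ne_bot_iff _).1 v.ne_bot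
    have h4 := h2 a ha
    have h5 : (ψ a)⁻¹ ∈ Q := by rw [htop]; trivial
    rw [← Q.valuation_le_one_iff, map_inv₀] at h5
    have h6 : Q.valuation (ψ a) ≠ 0 := (Valuation.ne_zero_iff _).2 (fun h => ha0 (hψ0 a h))
    exact absurd ((inv_le_one₀ (zero_lt_iff.2 h6)).1 h5) (not_le.2 h4)
  have hQ : IsPlc κ Q := ⟨hκ, hQtop⟩
  obtain ⟨r, hr⟩ := v.valuation_exists_uniformizer K₀
  have hr0 : r ≠ 0 := by
    rintro rfl
    rw [map_zero] at hr
    exact WithZero.exp_ne_zero hr.symm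
  have h2' : ∀ a : B, a ∈ v.asIdeal → Q.valuation (((a : K₀)) : k) < 1 := fun a ha => h2 a ha
  have h3' : ∀ a : B, a ∉ v.asIdeal → Q.valuation (((a : K₀)) : k) = 1 := fun a ha => h3 a ha
  have hr1 : Q.valuation (r : k) < 1 := by
    apply d4_val_lt K₀ B v Q h2' h3'
    rw [hr, ← WithZero.exp_zero, WithZero.exp_lt_exp]
    norm_num
  have hr0' : Q.valuation (r : k) ≠ 0 := (Valuation.ne_zero_iff _).2 (by
    intro h; exact hr0 (Subtype.ext h))
  have hpow : ∀ z : K₀, z ≠ 0 → ∃ n : ℤ, v.valuation K₀ z = WithZero.exp (-n) ∧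
      Q.valuation (z : k) = Q.valuation (r : k) ^ n := by
    intro z hz
    have hvz : v.valuation K₀ z ≠ 0 := (Valuation.ne_zero_iff _).2 hz
    obtain ⟨n, hn⟩ : ∃ n : ℤ, v.valuation K₀ z = WithZero.exp (-n) :=
      ⟨-WithZero.log (v.valuation K₀ z), by rw [neg_neg, WithZero.exp_log hvz]⟩
    refine ⟨n, hn, ?_⟩
    have h4 : v.valuation K₀ (z * (r ^ n)⁻¹) = 1 := by
      rw [map_mul, map_inv₀, map_zpow₀, hr, ← WithZero.exp_zsmul, ← WithZero.exp_neg, hn,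
        ← WithZero.exp_add, ← WithZero.exp_zero]
      congr 1
      simp
    have h5 := d4_val_one K₀ B v Q h3' _ h4
    have h6 : ((z * (r ^ n)⁻¹ : K₀) : k) = (z : k) * ((r : k) ^ n)⁻¹ := by
      push_cast
      rfl
    rw [h6, map_mul, map_inv₀, map_zpow₀] at h5
    exact (mul_inv_eq_one₀ (zpow_ne_zero _ hr0')).1 h5
  obtain ⟨n', hn1, hn2⟩ := hpow f hf
  obtain ⟨c, hc0, hc⟩ := hdiv Q hQ
  obtain ⟨θ, P, hP, hPθ, hPd, hcθ⟩ := fb_const hl he hlκ hκ₀ φ hφ horb K₀ hK₀ c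
  obtain ⟨n, hn⟩ := unr_val (K := K₀) Q hr0 hr1
    (fun a ha => by
      obtain ⟨j, -, hj⟩ := hpow a ha
      exact ⟨j, hj⟩)
    (z := algebraMap κ k θ) (P.map (algebraMap κ₀ K₀)) (hP.map _)
    (fun i => by
      rw [coeff_map]
      exact hκQ (P.coeff i))
    (by rw [aeval_map_algebraMap, aeval_algebraMap_apply, hPθ, map_zero])
    (by
      rw [derivative_map, aeval_map_algebraMap, aeval_algebraMap_apply]
      exact Pt.Ex1.val_C Q hκ _ hPd)
    hcθ hc0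
  have hn' : Q.valuation c = Q.valuation (r : k) ^ n := hn
  have hfc : Q.valuation (r : k) ^ n' = Q.valuation (r : k) ^ (n * m) := by
    rw [map_mul, map_inv₀, map_pow, hn2, hn'] at hc
    have h8 : (Q.valuation (r : k) ^ n) ^ m ≠ 0 := pow_ne_zero _ (zpow_ne_zero _ hr0')
    rw [mul_inv_eq_one₀ h8] at hc
    rw [hc, zpow_mul, zpow_natCast]
  have hnm : n' = n * m :=
    (zpow_right_inj₀ (zero_lt_iff.2 hr0') hr1.ne).1 hfc
  rw [Pt.divAt_iff v m hm f hf]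
  refine ⟨-n, ?_⟩
  rw [hn1, hnm]
  congr 1
  ring

end Pool.Agent.Lib.MP_2f3286_ag.Pp
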