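import Pool.Agent.Lib.MP_2f3286_ag.Pt.PropDefs
import Pool.Agent.Lib.MP_2f3286_ag.Pt.Ex1
import Pool.Agent.Lib.MP_2f3286_ag.Pt.Ex2
import Pool.Agent.Lib.MP_2f3286_ag.Pt.Ex3
import Pool.Agent.Lib.MP_2f3286_ag.Full.Gauss

/-!
# Units whose orders at infinity are divisible by `r`   (module D5)

PROOF of `lattice`. `Q = (ι → ℤ) ⧸ Λ` is a finitely generated abelian group, so its torsion subgroup is finite (`Module.Finite`, a finitely generated torsion abelian group is finite: `Module.finite_of_fg_torsion` or so); `N` its exponent or order: if `r • μ ∈ Λ` with `r ≥ 1`, the class of `μ` is a torsion element,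
so `N • μ ∈ Λ`.
PROOF of `alg_of_mem_all`. Suppose `c` is transcendental over `κ₀`. Then so is `c⁻¹`, and `Full.exists_dominating` for `aeval c⁻¹ : κ₀[X] → K₀` (injective) and the prime ideal `(X)` gives a valuation ring which contains `κ₀`, with `Q(c⁻¹) < 1`, so `c ∉ Q`.
-/

open Polynomial IntermediateField IsDedekindDomain

namespace Pool.Agent.Lib.MP_2f3286_ag.Pp

open Pool.Agent.Lib.MP_2f3286_ag.Pt (DivAt IsPlc)

theorem lattice {ι : Type*} [Finite ι] (Λ : AddSubgroup (ι → ℤ)) :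
    ∃ N : ℕ, 1 ≤ N ∧ ∀ (r : ℕ) (μ : ι → ℤ), 1 ≤ r → r • μ ∈ Λ → N • μ ∈ Λ := by
  classical
  set Λ' : Submodule ℤ (ι → ℤ) := AddSubgroup.toIntSubmodule Λ with hΛ'
  have hmem : ∀ μ : ι → ℤ, μ ∈ Λ' ↔ μ ∈ Λ := fun μ => Iff.rfl
  haveI : Module.Finite ℤ (Submodule.torsion ℤ ((ι → ℤ) ⧸ Λ')) := inferInstance
  have hT : Module.IsTorsion ℤ (Submodule.torsion ℤ ((ι → ℤ) ⧸ Λ')) := Submodule.torsion_isTorsion
  haveI hfin : Finite (Submodule.torsion ℤ ((ι → ℤ) ⧸ Λ')) := Module.finite_of_fg_torsion _ hT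
  refine ⟨Nat.card (Submodule.torsion ℤ ((ι → ℤ) ⧸ Λ')), Nat.card_pos, fun r μ hr h => ?_⟩
  have h1 : (Submodule.Quotient.mk μ : (ι → ℤ) ⧸ Λ') ∈ Submodule.torsion ℤ ((ι → ℤ) ⧸ Λ') := by
    rw [Submodule.mem_torsion_iff]
    refine ⟨⟨(r : ℤ), mem_nonZeroDivisors_of_ne_zero (by exact_mod_cast (by omega : r ≠ 0))⟩, ?_⟩
    change (r : ℤ) • (Submodule.Quotient.mk μ : (ι → ℤ) ⧸ Λ') = 0
    rw [← Submodule.Quotient.mk_smul, Submodule.Quotient.mk_eq_zero, hmem, natCast_zsmul]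
    exact h
  have h2 : Nat.card (Submodule.torsion ℤ ((ι → ℤ) ⧸ Λ')) •
      (⟨Submodule.Quotient.mk μ, h1⟩ : Submodule.torsion ℤ ((ι → ℤ) ⧸ Λ')) = 0 :=
    card_nsmul_eq_zero'
  have h3 := congrArg Subtype.val h2
  rw [Submodule.coe_smul_of_tower] at h3
  change Nat.card (Submodule.torsion ℤ ((ι → ℤ) ⧸ Λ')) • (Submodule.Quotient.mk μ : (ι → ℤ) ⧸ Λ') = 0 at h3
  rw [← Submodule.Quotient.mk_smul, Submodule.Quotient.mk_eq_zero, hmem] at h3
  exact h3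

theorem alg_of_mem_all {κ₀ K₀ : Type*} [Field κ₀] [Field K₀] [Algebra κ₀ K₀] {c : K₀}
    (h : ∀ Q : ValuationSubring K₀, (∀ a : κ₀, algebraMap κ₀ K₀ a ∈ Q) → c ∈ Q) :
    IsAlgebraic κ₀ c := by
  by_contra tr
  have htr : Transcendental κ₀ c⁻¹ := by
    intro h1
    have h2 := h1.inv
    rw [inv_inv] at h2
    exact tr h2
  have hprime : (Ideal.span {(X : κ₀[X])}).IsPrime :=
    (Ideal.span_singleton_prime X_ne_zero).2 prime_X
  obtain ⟨W, h1, h2, -⟩ := Full.exists_dominating (A := κ₀[X])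
    ((aeval c⁻¹ : κ₀[X] →ₐ[κ₀] K₀) : κ₀[X] →+* K₀) (Ideal.span {(X : κ₀[X])}) (by
      intro a ha
      have h3 : a = 0 := (transcendental_iff.1 htr) a ha
      rw [h3]; exact zero_mem _)
  have hlt : W.valuation c⁻¹ < 1 := by
    have h3 := h2 X (Ideal.mem_span_singleton_self X)
    have h4 : ((aeval c⁻¹ : κ₀[X] →ₐ[κ₀] K₀) : κ₀[X] →+* K₀) X = c⁻¹ := aeval_X _
    rwa [h4] at h3
  have hcW : c ∈ W := by
    refine h W (fun a => ?_)
    have h3 := h1 (Polynomial.C a)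
    have h4 : ((aeval c⁻¹ : κ₀[X] →ₐ[κ₀] K₀) : κ₀[X] →+* K₀) (Polynomial.C a) = algebraMap κ₀ K₀ a :=
      aeval_C _ _
    rwa [h4] at h3
  rw [← W.valuation_le_one_iff] at hcW
  rw [map_inv₀] at hlt
  by_cases hx0 : c = 0
  · subst hx0
    exact tr isAlgebraic_zero
  · have h5 : W.valuation c ≠ 0 := (Valuation.ne_zero_iff _).2 hx0
    have h6 : 1 ≤ (W.valuation c)⁻¹ := (one_le_inv₀ (zero_lt_iff.2 h5)).2 hcW
    exact absurd hlt (not_lt.2 h6)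

end Pool.Agent.Lib.MP_2f3286_ag.Pp
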