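import Pool.Agent.Lib.MP_2f3286_ag.Pt.PropDefs
import Pool.Agent.Lib.MP_2f3286_ag.Pt.Ex1
import Pool.Agent.Lib.MP_2f3286_ag.Pt.Ex2
import Pool.Agent.Lib.MP_2f3286_ag.Pt.Ex3
import Pool.Agent.Lib.MP_2f3286_ag.Full.Gauss
import Pool.Agent.Lib.MP_2f3286_ag.Pp.D5

/-!
# Units whose orders at infinity are divisible by `r`   (module D5b)

PROOF of `fd_unit`. `S = {v : HeightOneSpectrum B' | x⁻¹ ∈ v.asIdeal}` is finite (`x⁻¹ ≠ 0`: finitely many prime factors of the ideal generated by it; `Ideal.finite_factors`). `U` = the group of all `u ∈ K₀ˣ` with `u`, `u⁻¹ ∈ B`; `ord : U → (S → ℤ)`, `v.valuation K₀ u = exp (- ord_v u)` (`WithZero.log`), a homomorphism;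
`Λ` its range; `N₁` from `lattice`. Let `u` be as in the statement: `Pt.divAt_iff`: `ord u = r • μ`, so `N₁ • μ = ord u₁`, `u₁ ∈ U`. `c = u ^ N₁ / u₁ ^ r ∈ U`, `ord c = 0`. `alg_of_mem_all`: let `Q` be a valuation ring of `K₀` which contains `κ₀`. If `x ∈ Q`, `c ∈ B` is integral over `κ₀[x] ⊆ Q`, so
`c ∈ Q` (`Pt.Ex1.int_mem`). If `x ∉ Q`: `Q(x⁻¹) < 1`, `B' ⊆ Q`, `Q ≠ ⊤`, `Pt.Ex2.exists_spec`: `Q = (v.valuation K₀).valuationSubring`, `x⁻¹ ∈ v.asIdeal`, `v ∈ S`, `v.valuation K₀ c = 1`, `c ∈ Q`.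
-/

open Polynomial IntermediateField IsDedekindDomain

namespace Pool.Agent.Lib.MP_2f3286_ag.Pp

open Pool.Agent.Lib.MP_2f3286_ag.Pt (DivAt IsPlc)

theorem fd_unit {κ₀ K₀ : Type*} [Field κ₀] [Field K₀] [Algebra κ₀ K₀] {x : K₀} (hx0 : x ≠ 0)
    (B : Subalgebra κ₀ K₀) (hB : ∀ f, f ∈ B ↔ IsIntegral (Algebra.adjoin κ₀ {x}) f)
    (B' : Subalgebra κ₀ K₀) [IsDedekindDomain B'] [IsFractionRing B' K₀] (hx : x⁻¹ ∈ B')
    (hB' : ∀ f, f ∈ B' ↔ IsIntegral (Algebra.adjoin κ₀ {x⁻¹}) f) :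
    ∃ N₁ : ℕ, 1 ≤ N₁ ∧ ∀ (r : ℕ) (u : K₀), 1 ≤ r → u ≠ 0 → u ∈ B → u⁻¹ ∈ B →
      (∀ v : HeightOneSpectrum B', (⟨x⁻¹, hx⟩ : B') ∈ v.asIdeal →
        DivAt r u (v.valuation K₀).valuationSubring) →
      ∃ u₁ c : K₀, u₁ ≠ 0 ∧ c ≠ 0 ∧ IsAlgebraic κ₀ c ∧ u ^ N₁ = c * u₁ ^ r := by
  classical
  have hxi : x⁻¹ ≠ 0 := inv_ne_zero hx0
  have hz0 : (⟨x⁻¹, hx⟩ : B') ≠ 0 := fun h => hxi (congrArg Subtype.val h)
  obtain ⟨S, hS⟩ : ∃ S : Set (HeightOneSpectrum B'), S = {v | (⟨x⁻¹, hx⟩ : B') ∈ v.asIdeal} :=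
    ⟨_, rfl⟩
  have hmS : ∀ v : HeightOneSpectrum B', v ∈ S ↔ (⟨x⁻¹, hx⟩ : B') ∈ v.asIdeal := by
    intro v
    rw [hS]
    rfl
  have hfin : S.Finite := by
    have h1 : (Ideal.span {(⟨x⁻¹, hx⟩ : B')} : Ideal B') ≠ 0 := by
      rw [Ne, Ideal.zero_eq_bot, Ideal.span_singleton_eq_bot]
      exact hz0
    refine (Ideal.finite_factors h1).subset ?_
    intro v hv
    rw [Set.mem_setOf_eq, Ideal.dvd_iff_le, Ideal.span_singleton_le_iff_mem]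
    exact (hmS v).1 hv
  have : Finite S := hfin
  have hv0 : ∀ (v : HeightOneSpectrum B') (z : K₀), z ≠ 0 → v.valuation K₀ z ≠ 0 :=
    fun v z hz => (Valuation.ne_zero_iff _).2 hz
  obtain ⟨Λ, hΛ⟩ : ∃ Λ : AddSubgroup (S → ℤ), ∀ μ : S → ℤ, μ ∈ Λ ↔
      ∃ u : K₀, u ≠ 0 ∧ u ∈ B ∧ u⁻¹ ∈ B ∧ ∀ v : S, μ v = WithZero.log (v.1.valuation K₀ u) := by
    refine ⟨{ carrier := {μ | ∃ u : K₀, u ≠ 0 ∧ u ∈ B ∧ u⁻¹ ∈ B ∧
                ∀ v : S, μ v = WithZero.log (v.1.valuation K₀ u)}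
              add_mem' := ?_
              zero_mem' := ?_
              neg_mem' := ?_ }, fun μ => Iff.rfl⟩
    · rintro μ μ' ⟨u, h1, h2, h3, h4⟩ ⟨u', h1', h2', h3', h4'⟩
      refine ⟨u * u', mul_ne_zero h1 h1', B.mul_mem h2 h2', ?_, fun v => ?_⟩
      · rw [mul_inv]
        exact B.mul_mem h3 h3'
      · rw [Pi.add_apply, h4, h4', map_mul, WithZero.log_mul (hv0 _ _ h1) (hv0 _ _ h1')]
    · refine ⟨1, one_ne_zero, B.one_mem, ?_, fun v => ?_⟩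
      · rw [inv_one]
        exact B.one_mem
      · rw [Pi.zero_apply, map_one, WithZero.log_one]
    · rintro μ ⟨u, h1, h2, h3, h4⟩
      refine ⟨u⁻¹, inv_ne_zero h1, h3, ?_, fun v => ?_⟩
      · rw [inv_inv]
        exact h2
      · rw [Pi.neg_apply, h4, map_inv₀, WithZero.log_inv]
  obtain ⟨N₁, hN₁, hlat⟩ := lattice Λ
  refine ⟨N₁, hN₁, ?_⟩
  intro r u hr hu huB huB' hdiv
  have h1 : ∀ v : S, ∃ m : ℤ, v.1.valuation K₀ u = WithZero.exp ((r : ℤ) * m) := fun v =>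
    (Pt.divAt_iff v.1 r hr u hu).1 (hdiv v.1 ((hmS v.1).1 v.2))
  choose μ hμ using h1
  have h2 : r • μ ∈ Λ := by
    rw [hΛ]
    refine ⟨u, hu, huB, huB', fun v => ?_⟩
    rw [hμ, WithZero.log_exp, Pi.smul_apply, nsmul_eq_mul]
  obtain ⟨u₁, h3, h4, h5, h6⟩ := (hΛ _).1 (hlat r μ hr h2)
  have hu1 : u₁ ^ r ≠ 0 := pow_ne_zero _ h3
  refine ⟨u₁, u ^ N₁ * (u₁ ^ r)⁻¹, h3, mul_ne_zero (pow_ne_zero _ hu) (inv_ne_zero hu1), ?_, ?_⟩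
  · have hcB : u ^ N₁ * (u₁ ^ r)⁻¹ ∈ B := by
      rw [← inv_pow]
      exact B.mul_mem (B.pow_mem huB _) (B.pow_mem h5 _)
    have hcv : ∀ v : S, v.1.valuation K₀ (u ^ N₁ * (u₁ ^ r)⁻¹) = 1 := by
      intro v
      have h7 : v.1.valuation K₀ u₁ = WithZero.exp ((N₁ : ℤ) * μ v) := by
        rw [← WithZero.exp_log (hv0 v.1 u₁ h3), ← h6 v, Pi.smul_apply, nsmul_eq_mul]
      rw [map_mul, map_inv₀, map_pow, map_pow, hμ, h7, ← WithZero.exp_nsmul, ← WithZero.exp_nsmul,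
        ← WithZero.exp_neg, ← WithZero.exp_add, ← WithZero.exp_zero]
      congr 1
      rw [nsmul_eq_mul, nsmul_eq_mul]
      ring
    refine alg_of_mem_all fun Q hQ => ?_
    by_cases hxQ : x ∈ Q
    · exact Pt.Ex1.int_mem Q hQ x hxQ _ ((hB _).1 hcB)
    · have hx1 : x⁻¹ ∈ Q := (Q.mem_or_inv_mem x).resolve_left hxQ
      have hx2 : Q.valuation x⁻¹ < 1 := by
        rw [map_inv₀]
        refine inv_lt_one_of_one_lt₀ ?_
        rw [← not_le]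
        exact fun h => hxQ ((Q.valuation_le_one_iff _).1 h)
      have hBQ : ∀ z : B', algebraMap B' K₀ z ∈ Q := fun z =>
        Pt.Ex1.int_mem Q hQ x⁻¹ hx1 _ ((hB' _).1 z.2)
      have hne : Q ≠ ⊤ := by
        rintro rfl
        exact hxQ (ValuationSubring.mem_top _)
      obtain ⟨v, hv1, hv2⟩ := Pt.Ex2.exists_spec Q hBQ hne
      have hvS : v ∈ S := (hmS v).2 ((hv2 _).2 hx2)
      rw [hv1, Valuation.mem_valuationSubring_iff]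
      exact (hcv ⟨v, hvS⟩).le
  · rw [mul_assoc, inv_mul_cancel₀ hu1, mul_one]

end Pool.Agent.Lib.MP_2f3286_ag.Pp
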