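import Pool.Agent.Lib.MP_2f3286_ag.Pp.D2
import Pool.Agent.Lib.MP_2f3286_ag.Pp.D4
import Pool.Agent.Lib.MP_2f3286_ag.Pp.D5b
import Pool.Agent.Lib.MP_2f3286_ag.Pp.D3b
import Pool.Agent.Lib.MP_2f3286_ag.Gl.F2

/-!
# Frobenius-fixed functions with orders divisible by large powers of `p`   (module D6)

`q = l ^ e`. PROOF of `fbg`. `κ₀ = {z : κ | z ^ q = z}`, a finite subfield of `κ` (`R3_field` in Gl/R3.lean has this construction: closed under addition as `q` is a power of the characteristic `l`, finite as the set of the roots of `X ^ q - X`); `K₀ = {z : k | φ z = z}`, an intermediate field of `k / κ₀`. `x ∈ K₀`.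
`fb_fin` (D3) for `x` and for `x⁻¹` (`κ(x⁻¹) = κ(x)`; the instances for `κ(x⁻¹)` by rewriting with this equality): finite separable over `κ₀(x)`, `κ₀(x⁻¹)`. `cls_ok` (D2) for `x` and for `x⁻¹` (transcendental over `κ₀`): `B`, `B'`. `Gl.cls_pow` (Gl/F2.lean) for `B`: `a`, `N`. `fd_unit` (D5): `N₁ = p ^ b * N₂`, `¬ p ∣ N₂`.
Take `a₀ = a + b`. Let `n > a₀`, `φ f = f`, `f ≠ 0`, i.e. `f ∈ K₀`. `fc` (D4) for `B`: `f ^ (p ^ a N) = u g ^ (p ^ n)`, `u` a unit of `B`, `g ≠ 0` in `K₀`. `fc` for `B'`: `DivAt (p ^ n) f` at all `v : HeightOneSpectrum B'`, so `DivAt (p ^ n) u` at them. `fd_unit` with `r = p ^ n`: `u ^ N₁ = c u₁ ^ (p ^ n)`, `c` algebraic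
over `κ₀`, so (in `k`) `c` is in `κ` (`κ` algebraically closed), `c ≠ 0`, `c = c₁ ^ (p ^ (a + b))` with `c₁ ∈ κ`. So `(f ^ (N N₂)) ^ (p ^ (a + b)) = (c₁ (g ^ N₁ u₁) ^ (p ^ (n - a - b))) ^ (p ^ (a + b))`, and the quotient of the bases is a root of unity, a constant of `κ`: `f ^ (N N₂) = c₂ h ^ p`, `c₂ ∈ κ`, `h ∈ k`,
as `n - a - b ≥ 1`. `c₂` is a `p`-th power, so `f ^ (N N₂) = h' ^ p`; `i N N₂ + j p = 1`: `f = (h' ^ i f ^ j) ^ p`.
-/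

open Polynomial IntermediateField IsDedekindDomain

namespace Pool.Agent.Lib.MP_2f3286_ag.Pp

open Pool.Agent.Lib.MP_2f3286_ag.Pt (DivAt IsPlc)

private theorem d6_field {κ : Type*} [Field κ] {l e : ℕ} (hl : l.Prime) (he : 1 ≤ e) (hlκ : (l : κ) = 0) :
    ∃ S : Subfield κ, Finite S ∧ ∀ z : κ, z ^ l ^ e = z ↔ z ∈ S := by
  classical
  have : Fact l.Prime := ⟨hl⟩
  have : CharP κ l := (CharP.charP_iff_prime_eq_zero hl).2 hlκ
  have hq2 : 2 ≤ l ^ e := hl.two_le.trans (Nat.le_self_pow (by omega) l)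
  have hne : (X ^ (l ^ e) - X : κ[X]) ≠ 0 := by
    intro h
    have h1 := congrArg (fun P : κ[X] => P.coeff (l ^ e)) h
    simp only [coeff_sub, coeff_X_pow, coeff_X, coeff_zero, if_true] at h1
    rw [if_neg (by omega)] at h1
    simp at h1
  refine ⟨(iterateFrobenius κ l e).eqLocusField (RingHom.id κ), ?_, fun z => Iff.rfl⟩
  have hfin : Set.Finite {z : κ | z ^ l ^ e = z} := by
    refine Set.Finite.subset ((X ^ (l ^ e) - X : κ[X]).roots.toFinset.finite_toSet) ?_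
    intro z hz
    rw [Finset.mem_coe, Multiset.mem_toFinset, mem_roots hne]
    simp only [Set.mem_ofPred_eq] at hz
    simp [IsRoot, hz]
  exact hfin.to_subtype

private theorem d6_K {κ₀ κ k : Type*} [Field κ₀] [Field κ] [Algebra κ₀ κ]
    [Field k] [Algebra κ k] [Algebra κ₀ k] [IsScalarTower κ₀ κ k] {l e : ℕ}
    (hκ₀ : ∀ z : κ, z ^ l ^ e = z ↔ ∃ a : κ₀, algebraMap κ₀ κ a = z) (φ : k ≃+* k)
    (hφ : ∀ z : κ, φ (algebraMap κ k z) = algebraMap κ k (z ^ l ^ e)) :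
    ∃ K₀ : IntermediateField κ₀ k, ∀ z, z ∈ K₀ ↔ φ z = z := by
  refine ⟨{ carrier := {z | φ z = z}
            mul_mem' := ?_
            add_mem' := ?_
            algebraMap_mem' := ?_
            inv_mem' := ?_ }, fun z => Iff.rfl⟩
  · intro a b ha hb
    change φ (a * b) = a * b
    rw [map_mul, show φ a = a from ha, show φ b = b from hb]
  · intro a b ha hb
    change φ (a + b) = a + b
    rw [map_add, show φ a = a from ha, show φ b = b from hb]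
  · intro a
    change φ (algebraMap κ₀ k a) = algebraMap κ₀ k a
    rw [IsScalarTower.algebraMap_apply κ₀ κ k, hφ, (hκ₀ _).2 ⟨a, rfl⟩]
  · intro a ha
    change φ a⁻¹ = a⁻¹
    rw [map_inv₀, show φ a = a from ha]

private theorem d6_const {κ k : Type*} [Field κ] [IsAlgClosed κ] [Field k] [Algebra κ k] {c : k}
    (hc : IsAlgebraic κ c) : ∃ z : κ, algebraMap κ k z = c :=
  minpoly.mem_range_of_degree_eq_one κ c
    (IsAlgClosed.degree_eq_one_of_irreducible κ (minpoly.irreducible hc.isIntegral))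

/-- the last step, in the field `k` -/
private theorem d6_last {p : ℕ} (hp : p.Prime) {κ k : Type*} [Field κ] [IsAlgClosed κ] [Field k] [Algebra κ k]
    {a b n N N₂ : ℕ} (hN : ¬ p ∣ N) (hN₂ : ¬ p ∣ N₂) (hn : a + b < n) {f c w : k} (hf : f ≠ 0) (hw : w ≠ 0)
    (hc0 : c ≠ 0) (hc : IsAlgebraic κ c)
    (h : f ^ (p ^ a * N * (p ^ b * N₂)) = c * w ^ p ^ n) : ∃ g : k, g ^ p = f := by
  obtain ⟨c', rfl⟩ := d6_const hc
  have hP : 0 < p ^ (a + b) := pow_pos hp.pos _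
  obtain ⟨c₁, hc₁⟩ := IsAlgClosed.exists_pow_nat_eq c' hP
  obtain ⟨m, rfl⟩ : ∃ m, n = (a + b) + (m + 1) := ⟨n - (a + b) - 1, by omega⟩
  set W : k := w ^ p ^ m with hW
  have hW0 : W ≠ 0 := pow_ne_zero _ hw
  have hc₁0 : algebraMap κ k c₁ ≠ 0 := by
    intro h0
    apply hc0
    rw [← hc₁, map_pow, h0, zero_pow hP.ne']
  have hH0 : algebraMap κ k c₁ * W ^ p ≠ 0 := mul_ne_zero hc₁0 (pow_ne_zero _ hW0)
  have h1 : (f ^ (N * N₂)) ^ p ^ (a + b) = (algebraMap κ k c₁ * W ^ p) ^ p ^ (a + b) := by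
    rw [mul_pow, ← map_pow, hc₁, hW, ← pow_mul, ← pow_mul, ← pow_mul]
    rw [show N * N₂ * p ^ (a + b) = p ^ a * N * (p ^ b * N₂) by rw [pow_add]; ring, h]
    congr 2
    rw [pow_add p (a + b) (m + 1), pow_succ]
    ring
  have h2 : IsAlgebraic κ (f ^ (N * N₂) / (algebraMap κ k c₁ * W ^ p)) := by
    refine ⟨X ^ p ^ (a + b) - 1, ?_, ?_⟩
    · exact X_pow_sub_C_ne_zero hP 1
    · rw [map_sub, map_pow, aeval_X, map_one, div_pow, h1, div_self (pow_ne_zero _ hH0), sub_self]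
  obtain ⟨c₃, hc₃⟩ := d6_const h2
  obtain ⟨c₄, hc₄⟩ := IsAlgClosed.exists_pow_nat_eq (c₃ * c₁) hp.pos
  have h3 : f ^ (N * N₂) = (algebraMap κ k c₄ * W) ^ p := by
    rw [mul_pow, ← map_pow, hc₄, map_mul, hc₃, mul_assoc, div_mul_cancel₀ _ hH0]
  have hcop : IsCoprime ((N * N₂ : ℕ) : ℤ) (p : ℤ) := by
    rw [Nat.isCoprime_iff_coprime, Nat.coprime_comm, hp.coprime_iff_not_dvd]
    intro hd
    rcases hp.dvd_mul.1 hd with h4 | h4
    · exact hN h4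
    · exact hN₂ h4
  obtain ⟨i, j, hij⟩ := hcop
  refine ⟨(algebraMap κ k c₄ * W) ^ i * f ^ j, ?_⟩
  have hh0 : algebraMap κ k c₄ * W ≠ 0 := by
    intro h0
    rw [h0, zero_pow hp.ne_zero] at h3
    exact pow_ne_zero _ hf h3
  calc ((algebraMap κ k c₄ * W) ^ i * f ^ j) ^ p
      = ((algebraMap κ k c₄ * W) ^ p) ^ i * f ^ (j * (p : ℤ)) := by
        rw [mul_pow, ← zpow_natCast, ← zpow_mul, ← zpow_natCast (f ^ j) p, ← zpow_mul,
          ← zpow_natCast (algebraMap κ k c₄ * W) p, ← zpow_mul, mul_comm i]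
    _ = f ^ (i * ((N * N₂ : ℕ) : ℤ) + j * (p : ℤ)) := by
        rw [← h3, zpow_add₀ hf, ← zpow_natCast, ← zpow_mul, mul_comm i]
    _ = f := by rw [hij, zpow_one]

private theorem d6_div {L : Type*} [Field L] {Q : ValuationSubring L} {r M : ℕ} {f u g : L}
    (hg : g ≠ 0) (h : DivAt r f Q) (hu : f ^ M = u * g ^ r) : DivAt r u Q := by
  obtain ⟨c, hc, h1⟩ := h
  refine ⟨c ^ M / g, div_ne_zero (pow_ne_zero _ hc) hg, ?_⟩
  have h2 : u * ((c ^ M / g) ^ r)⁻¹ = (f * (c ^ r)⁻¹) ^ M := by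
    rw [← div_eq_mul_inv, ← div_eq_mul_inv, div_pow, div_pow, hu, ← pow_mul, ← pow_mul, mul_comm r M,
      div_div_eq_mul_div]
  rw [h2, map_pow, h1, one_pow]

private theorem d6_main {p : ℕ} (hp : p.Prime) {κ₀ κ k : Type*} [Field κ₀] [Finite κ₀] [Field κ]
    [IsAlgClosed κ] [Algebra κ₀ κ] [Field k] [Algebra κ k] [Algebra κ₀ k] [IsScalarTower κ₀ κ k]
    {l e : ℕ} (hl : l.Prime) (he : 1 ≤ e) (hlκ : (l : κ) = 0)
    (hκ₀ : ∀ z : κ, z ^ l ^ e = z ↔ ∃ a : κ₀, algebraMap κ₀ κ a = z) (φ : k ≃+* k)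
    (hφ : ∀ z : κ, φ (algebraMap κ k z) = algebraMap κ k (z ^ l ^ e))
    (horb : ∀ z : k, ∃ m, 1 ≤ m ∧ φ^[m] z = z) {x : k} (hx : φ x = x) (htr : Transcendental κ x)
    [hfd : FiniteDimensional κ⟮x⟯ k] [hsep : Algebra.IsSeparable κ⟮x⟯ k] :
    ∃ a₀ : ℕ, ∀ n, a₀ < n → ∀ f : k, φ f = f → f ≠ 0 →
      (∀ Q : ValuationSubring k, IsPlc κ Q → DivAt (p ^ n) f Q) → ∃ g : k, g ^ p = f := by
  obtain ⟨K₀, hK₀⟩ := d6_K (k := k) hκ₀ φ hφ
  obtain ⟨x', hx'⟩ : ∃ x' : K₀, (x' : k) = x := ⟨⟨x, (hK₀ x).2 hx⟩, rfl⟩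
  subst hx'
  have hxne : (x' : k) ≠ 0 := fun h => htr (h ▸ isAlgebraic_zero)
  have hx'0 : x' ≠ 0 := fun h => hxne (by rw [h]; rfl)
  have hcoe : ((x'⁻¹ : K₀) : k) = (x' : k)⁻¹ := rfl
  have htr' : Transcendental κ ((x'⁻¹ : K₀) : k) := by
    intro h
    apply htr
    have h1 := h.inv
    rwa [hcoe, inv_inv] at h1
  have heq : κ⟮((x'⁻¹ : K₀) : k)⟯ = κ⟮(x' : k)⟯ := by
    apply le_antisymm
    · rw [adjoin_simple_le_iff, hcoe]
      exact inv_mem (mem_adjoin_simple_self κ (x' : k))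
    · rw [adjoin_simple_le_iff]
      have h1 : (((x'⁻¹ : K₀) : k))⁻¹ ∈ κ⟮((x'⁻¹ : K₀) : k)⟯ := inv_mem (mem_adjoin_simple_self κ _)
      rwa [hcoe, inv_inv] at h1
  have hfd' : FiniteDimensional κ⟮((x'⁻¹ : K₀) : k)⟯ k := by
    rw [heq]; exact hfd
  have hsep' : Algebra.IsSeparable κ⟮((x'⁻¹ : K₀) : k)⟯ k := by
    rw [heq]; exact hsep
  have htr₀ : ∀ y : K₀, Transcendental κ (y : k) → Transcendental κ₀ y := by
    intro y hy h
    apply hy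
    have h1 : IsAlgebraic κ₀ (y : k) := h.algebraMap
    exact h1.tower_top κ
  obtain ⟨i1, i2⟩ := fb_fin hl he hlκ hκ₀ φ hφ horb K₀ hK₀ x' htr
  obtain ⟨i3, i4⟩ := fb_fin hl he hlκ hκ₀ φ hφ horb K₀ hK₀ x'⁻¹ htr'
  obtain ⟨B, j1, j2, j3, hB, j4⟩ := cls_ok (κ₀ := κ₀) x' (htr₀ _ htr)
  obtain ⟨B', j1', j2', j3', hB', j4'⟩ := cls_ok (κ₀ := κ₀) x'⁻¹ (htr₀ _ htr')
  obtain ⟨a, N, hN, hcls⟩ := Pool.Agent.Lib.MP_2f3286_ag.Gl.cls_pow (B := B) (L := K₀) hp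
  obtain ⟨N₁, hN₁, hfd1⟩ := fd_unit hx'0 B hB B' j3' hB'
  obtain ⟨b, N₂, hN₂, hNe⟩ := Nat.exists_eq_pow_mul_and_not_dvd (by omega : N₁ ≠ 0) p hp.ne_one
  refine ⟨a + b, fun n hn f hf hf0 hdiv => ?_⟩
  obtain ⟨f', hf'⟩ : ∃ f' : K₀, (f' : k) = f := ⟨⟨f, (hK₀ f).2 hf⟩, rfl⟩
  subst hf'
  have hf'0 : f' ≠ 0 := fun h => hf0 (by rw [h]; rfl)
  have hpn : 1 ≤ p ^ n := Nat.one_le_pow _ _ hp.pos
  obtain ⟨u, g, hg, hu⟩ := hcls n f' hf'0
    (fun v => fc hl he hlκ hκ₀ φ hφ horb K₀ hK₀ B hpn hf'0 hdiv v)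
  have hu1 : algebraMap B K₀ (u : B) ∈ B := (u : B).2
  have hu2 : (algebraMap B K₀ (u : B))⁻¹ ∈ B := by
    have h1 : algebraMap B K₀ (u : B) * algebraMap B K₀ ((u⁻¹ : Bˣ) : B) = 1 := by
      rw [← map_mul, Units.mul_inv, map_one]
    rw [inv_eq_of_mul_eq_one_right h1]
    exact ((u⁻¹ : Bˣ) : B).2
  have hu0 : algebraMap B K₀ (u : B) ≠ 0 := by
    intro h0
    rw [h0, zero_mul] at hu
    exact pow_ne_zero _ hf'0 hu
  obtain ⟨u₁, c, hu₁, hc0, hc, huc⟩ := hfd1 (p ^ n) (algebraMap B K₀ (u : B)) hpn hu0 hu1 hu2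
    (fun v _ => d6_div hg (fc hl he hlκ hκ₀ φ hφ horb K₀ hK₀ B' hpn hf'0 hdiv v) hu)
  have h4 : f' ^ (p ^ a * N * (p ^ b * N₂)) = c * (u₁ * g ^ N₁) ^ p ^ n := by
    rw [← hNe, pow_mul, hu, mul_pow, huc, mul_pow, ← pow_mul, ← pow_mul, mul_comm N₁, mul_assoc]
  have h5 : IsAlgebraic κ (c : k) := by
    have h1 : IsAlgebraic κ₀ (c : k) := hc.algebraMap
    exact h1.tower_top κ
  refine d6_last (κ := κ) hp hN hN₂ hn (f := (f' : k)) (c := (c : k)) (w := ((u₁ * g ^ N₁ : K₀) : k)) hf0 ?_ ?_ h5 ?_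
  · intro h0
    have h1 : u₁ * g ^ N₁ = 0 := Subtype.ext h0
    exact mul_ne_zero hu₁ (pow_ne_zero _ hg) h1
  · intro h0
    exact hc0 (Subtype.ext h0)
  · have h6 := congrArg (fun z : K₀ => (z : k)) h4
    simpa using h6

theorem fbg {p : ℕ} (hp : p.Prime) {κ k : Type*} [Field κ] [IsAlgClosed κ] [Field k] [Algebra κ k]
    (hpκ : (p : κ) ≠ 0) {l e : ℕ} (hl : l.Prime) (he : 1 ≤ e) (hlκ : (l : κ) = 0) (φ : k ≃+* k)
    (hφ : ∀ z : κ, φ (algebraMap κ k z) = algebraMap κ k (z ^ l ^ e))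
    (horb : ∀ z : k, ∃ m, 1 ≤ m ∧ φ^[m] z = z) {x : k} (hx : φ x = x) (htr : Transcendental κ x)
    [FiniteDimensional κ⟮x⟯ k] [Algebra.IsSeparable κ⟮x⟯ k] :
    ∃ a₀ : ℕ, ∀ n, a₀ < n → ∀ f : k, φ f = f → f ≠ 0 →
      (∀ Q : ValuationSubring k, IsPlc κ Q → DivAt (p ^ n) f Q) → ∃ g : k, g ^ p = f := by
  obtain ⟨S, hS, hmem⟩ := d6_field (κ := κ) hl he hlκ
  refine d6_main hp (κ₀ := S) hl he hlκ ?_ φ hφ horb hx htr
  intro z
  rw [hmem]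
  constructor
  · intro h
    exact ⟨⟨z, h⟩, rfl⟩
  · rintro ⟨a, rfl⟩
    exact a.2

end Pool.Agent.Lib.MP_2f3286_ag.Pp
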