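import Pool.Agent.Lib.MP_2f3286_ag.Pp.C6
import Pool.Agent.Lib.MP_2f3286_ag.Pp.D6
import Pool.Agent.Lib.MP_2f3286_ag.Gl.GE
import Pool.Agent.Lib.MP_2f3286_ag.Full.GoodRed

/-!
# The residue field of `E`: Frobenius-fixed functions   (module D7)

PROOF of `fbE`. `κ = IsLocalRing.ResidueField (W.comap (algebraMap C M))`, algebraically closed (`Gl.isAlgClosed_residue`, Gl/GE.lean), `k = IsLocalRing.ResidueField (W.comap (algebraMap E M))`, the algebra `κ → k` as in `geAlg` (Gl/GE.lean). `(p : κ) ≠ 0` (`ctx.wv.vp`), `(l : κ) = 0` (`ctx.vl`). `φ : k ≃+* k`, the residue of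
`u ∈ E ∩ W` maps to the residue of `Φ.g u` (`Φ.g` maps `E` onto `E` by `pF`, and `E ∩ W` onto itself by `wF`; e.g. `IsLocalRing.ResidueField.mapEquiv` of the ring automorphism of `W ∩ E`). `hφ`: `ctx.cF`. `horb`: `ctx.orb`. `x̄` the residue of `x` (`x ∈ E` by `ON`, `x ∈ W` by `hG.mem`), `φ x̄ = x̄` by `hx`; transcendental: a
nonzero polynomial over `κ` lifts to `P : C[X]` with coefficients in `W`, one of valuation one (lift zero to zero), `W(P(x)) = 1` by `hG.one`.
Basis: the residues `ū_i` of the `u_i` of `ON` are a basis of `k` over `κ(x̄)`, so the dimension is `p ^ j`. Spanning: `z ∈ k` is the residue of `f = ∑ r_i u_i ∈ E ∩ W`, all `r_i ∈ W` (`on_scale`, C6), and the residue of `r ∈ C(x) ∩ W` is in `κ(x̄)`: `r = A(x) / B(x)`, scale `B` to have coefficients in `W` and one of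
valuation one; then `W(B(x)) = 1`, `W(A(x)) ≤ 1`, so `A` has coefficients in `W` (else scale: `hG.one`). Independence: `∑ s_i ū_i = 0` with `s_i ∈ κ(x̄)` not all zero: multiply by a common denominator, `s_i = S_i(x̄)`, `S_i ∈ κ[X]`, lift `S_i`; one lifted `r_i = A_i(x)` has valuation one, so the sum has valuation one.
Contradiction. Separable: the degree over `κ(x̄)` of every element of `k` divides `p ^ j`, so it is not divisible by the characteristic `l ≠ p`, so its minimal polynomial is separable (an irreducible polynomial which is not separable is a polynomial in `X ^ l`: `Irreducible.separable` criteria,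
`Polynomial.separable_or`, `Irreducible.natDegree...expand`).
`fbg` (D6): `a₀`. Let `n > a₀`, `f ∈ E`, `Φ.g f = f`, `W(f) = 1`, `f̄` its residue. `Q̄` a place of `k` over `κ`: extend it to a valuation ring `Q̃` of `IsLocalRing.ResidueField W` (an overfield of `k`; `Full.exists_dominating` for `Q̄` and its maximal ideal, as in `exists_ext`), and let `R = {u ∈ W | residue of u ∈ Q̃}`, a
valuation ring of `M` (if `u ∉ W` then `u⁻¹ ∈ W` has residue zero; if `u ∈ W`, `W(u) < 1` then `u ∈ R`; otherwise its residue or the inverse is in `Q̃`). `CR W E R`: `ne`: `Q̄ ≠ ⊤`. By hypothesis there is `c ∈ E`, `c ≠ 0`, `R(f (c ^ (p ^ n))⁻¹) = 1`, so `W` of it is one, `W(c) = 1`, and with the residue `c̄`: `f̄ / c̄ ^ (p ^ n)` and its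
inverse are in `Q̃ ∩ k = Q̄`: `DivAt (p ^ n) f̄ Q̄`. So `f̄ = γ ^ p`, `γ` the residue of `g ∈ E ∩ W`, `W(g) = 1` as `f̄ ≠ 0`, `W(f - g ^ p) < 1`.
-/

open Polynomial IntermediateField

namespace Pool.Agent.Lib.MP_2f3286_ag.Pp

open Pool.Agent.Lib.MP_2f3286_ag.Pt (DivAt IsPlc)
open Pool.Agent.Lib.MP_2f3286_ag.Full.GoodRed (incl VV)

namespace D7

section Abs

universe u v

variable {C : Type u} {L : Type v} [Field C] [Field L] [Algebra C L] (𝒲 : ValuationSubring L)

/-- the algebra of the residue fields -/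
noncomputable abbrev rAlg : Algebra (IsLocalRing.ResidueField (VV C 𝒲))
    (IsLocalRing.ResidueField 𝒲) :=
  (IsLocalRing.ResidueField.map (incl (kb := C) 𝒲)).toAlgebra

attribute [local instance] rAlg

theorem rAlg_res (c : VV C 𝒲) : algebraMap (IsLocalRing.ResidueField (VV C 𝒲))
    (IsLocalRing.ResidueField 𝒲) (IsLocalRing.residue _ c) =
      IsLocalRing.residue 𝒲 (incl (kb := C) 𝒲 c) := rfl

/-- the value of an integral polynomial at `x`, with its residue -/
theorem res_poly {x : L} (hx : x ∈ 𝒲) (P : (VV C 𝒲)[X]) :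
    ∃ h : aeval x (P.map (VV C 𝒲).subtype) ∈ 𝒲,
      IsLocalRing.residue 𝒲 ⟨_, h⟩ =
        aeval (IsLocalRing.residue 𝒲 ⟨x, hx⟩) (P.map (IsLocalRing.residue (VV C 𝒲))) := by
  let ev₁ : (VV C 𝒲)[X] →+* 𝒲 := eval₂RingHom (incl 𝒲) ⟨x, hx⟩
  have hev₁ : ((ev₁ P : 𝒲) : L) = aeval x (P.map (VV C 𝒲).subtype) := by
    have : ((algebraMap 𝒲 L).comp ev₁) =
        (aeval x : C[X] →ₐ[C] L).toRingHom.comp (mapRingHom (VV C 𝒲).subtype) := by
      apply Polynomial.ringHom_ext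
      · intro a
        simp only [RingHom.comp_apply, ev₁, coe_eval₂RingHom, eval₂_C, coe_mapRingHom, map_C]
        change algebraMap C L (a : C) = aeval x (Polynomial.C (a : C))
        rw [aeval_C]
      · simp only [RingHom.comp_apply, ev₁, coe_eval₂RingHom, eval₂_X, coe_mapRingHom, map_X]
        change x = aeval x X
        rw [aeval_X]
    exact congrArg (fun φ : (VV C 𝒲)[X] →+* L => φ P) this
  have h1 : aeval x (P.map (VV C 𝒲).subtype) ∈ 𝒲 := by
    rw [← hev₁]; exact (ev₁ P).2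
  refine ⟨h1, ?_⟩
  have e1 : (⟨_, h1⟩ : 𝒲) = ev₁ P := Subtype.ext hev₁.symm
  rw [e1, aeval_def, eval₂_map]
  change IsLocalRing.residue 𝒲 (eval₂ (incl 𝒲) ⟨x, hx⟩ P) = _
  rw [hom_eval₂]
  rfl

/-- lifting of polynomials -/
theorem lift_poly (Q : (IsLocalRing.ResidueField (VV C 𝒲))[X]) :
    ∃ P : (VV C 𝒲)[X], P.map (IsLocalRing.residue (VV C 𝒲)) = Q :=
  Polynomial.map_surjective _ IsLocalRing.residue_surjective Q

/-- integral polynomials -/
theorem lift_poly' {P : C[X]} (h : ∀ i, algebraMap C L (P.coeff i) ∈ 𝒲) :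
    ∃ Q : (VV C 𝒲)[X], Q.map (VV C 𝒲).subtype = P := by
  rw [← Polynomial.mem_lifts, Polynomial.lifts_iff_coeff_lifts]
  intro n
  exact ⟨⟨P.coeff n, h n⟩, rfl⟩

theorem res_ne_zero_iff (u : 𝒲) :
    IsLocalRing.residue 𝒲 u ≠ 0 ↔ 𝒲.valuation (u : L) = 1 := by
  rw [IsLocalRing.residue_ne_zero_iff_isUnit, 𝒲.valuation_eq_one_iff]

theorem res_eq_iff (u v : 𝒲) :
    IsLocalRing.residue 𝒲 u = IsLocalRing.residue 𝒲 v ↔ 𝒲.valuation ((u : L) - v) < 1 := by
  rw [← sub_eq_zero, ← map_sub]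
  have h1 := res_ne_zero_iff 𝒲 (u - v)
  have h2 : 𝒲.valuation ((u - v : 𝒲) : L) ≤ 1 := (𝒲.valuation_le_one_iff _).2 (u - v).2
  have h3 : ((u - v : 𝒲) : L) = (u : L) - v := rfl
  rw [h3] at h1 h2
  constructor
  · intro h
    refine lt_of_le_of_ne h2 fun h4 => ?_
    exact (h1.2 h4) h
  · intro h
    by_contra h4
    exact absurd (h1.1 h4) h.ne

/-- The Gauss property. -/
def GG (C : Type u) {L : Type v} [Field C] [Field L] [Algebra C L] (𝒲 : ValuationSubring L)
    (x : L) : Prop := ∀ f : C[X], (∀ i, 𝒲.valuation (algebraMap C L (f.coeff i)) ≤ 1) →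
      (∃ i, 𝒲.valuation (algebraMap C L (f.coeff i)) = 1) → 𝒲.valuation (aeval x f) = 1

/-- a polynomial with a nonzero reduction has a value of valuation one -/
theorem val_of_red {x : L} (hG : GG C 𝒲 x) (P : (VV C 𝒲)[X])
    (hP : P.map (IsLocalRing.residue (VV C 𝒲)) ≠ 0) :
    𝒲.valuation (aeval x (P.map (VV C 𝒲).subtype)) = 1 := by
  obtain ⟨i, hi⟩ : ∃ i, (P.map (IsLocalRing.residue (VV C 𝒲))).coeff i ≠ 0 := by
    by_contra! h
    exact hP (Polynomial.ext fun i => by rw [h i, coeff_zero])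
  rw [coeff_map] at hi
  have hu : IsUnit (P.coeff i) := by
    by_contra h
    exact hi ((IsLocalRing.residue_eq_zero_iff _).2 ((IsLocalRing.mem_maximalIdeal _).2 h))
  apply hG
  · intro j
    rw [coeff_map]
    exact (𝒲.valuation_le_one_iff _).2 (P.coeff j).2
  · refine ⟨i, ?_⟩
    rw [coeff_map]
    exact Full.GoodRed.val_of_isUnit 𝒲 hu

theorem tr_res {x : L} (hx : x ∈ 𝒲) (hG : GG C 𝒲 x) :
    Transcendental (IsLocalRing.ResidueField (VV C 𝒲)) (IsLocalRing.residue 𝒲 ⟨x, hx⟩) := by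
  rintro ⟨Q, hQ0, hQ⟩
  obtain ⟨P, rfl⟩ := lift_poly 𝒲 Q
  obtain ⟨h1, h2⟩ := res_poly 𝒲 hx P
  rw [hQ] at h2
  have h3 := (res_ne_zero_iff 𝒲 ⟨_, h1⟩).2 (val_of_red 𝒲 hG P hQ0)
  exact h3 h2

/-- the residue of an element of `C(x)` is in `κ(x̄)` -/
theorem res_mem {x : L} (hx : x ∈ 𝒲) (hG : GG C 𝒲 x) (r : 𝒲)
    (hr : (r : L) ∈ IntermediateField.adjoin C {x}) :
    IsLocalRing.residue 𝒲 r ∈ IntermediateField.adjoin (IsLocalRing.ResidueField (VV C 𝒲))
      {IsLocalRing.residue 𝒲 ⟨x, hx⟩} := by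
  obtain ⟨A, B, hAB⟩ := (mem_adjoin_simple_iff C (r : L)).1 hr
  by_cases hB : aeval x B = 0
  · have : r = 0 := Subtype.ext (by rw [hAB, hB, div_zero]; rfl)
    rw [this, map_zero]
    exact zero_mem _
  have hB0 : B ≠ 0 := by
    rintro rfl
    exact hB (map_zero _)
  obtain ⟨m, hm0, hgm, -⟩ := Full.GoodRed.gauss_scale x 𝒲 hG B hB0
  set a := (B.coeff m)⁻¹ with ha
  have ha0 : a ≠ 0 := inv_ne_zero hm0
  have hB1 : 𝒲.valuation (aeval x (Polynomial.C a * B)) = 1 := by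
    rw [map_mul, aeval_C, map_mul, hgm, ha, map_inv₀, map_inv₀]
    apply inv_mul_cancel₀
    rw [Valuation.ne_zero_iff]
    exact (_root_.map_ne_zero _).2 hm0
  have hA1 : aeval x (Polynomial.C a * A) = r * aeval x (Polynomial.C a * B) := by
    rw [hAB, map_mul, map_mul]
    field_simp
  have hA2 : 𝒲.valuation (aeval x (Polynomial.C a * A)) ≤ 1 := by
    rw [hA1, map_mul, hB1, mul_one]
    exact (𝒲.valuation_le_one_iff _).2 r.2
  obtain ⟨P, hP⟩ := lift_poly' 𝒲 (P := Polynomial.C a * A) (fun i =>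
    (𝒲.valuation_le_one_iff _).1 (Full.GoodRed.coeff_val_le x 𝒲 hG _ hA2 i))
  obtain ⟨Q, hQ⟩ := lift_poly' 𝒲 (P := Polynomial.C a * B) (fun i =>
    (𝒲.valuation_le_one_iff _).1 (Full.GoodRed.coeff_val_le x 𝒲 hG _ hB1.le i))
  obtain ⟨h1, h2⟩ := res_poly 𝒲 hx P
  obtain ⟨h3, h4⟩ := res_poly 𝒲 hx Q
  have h5 : IsLocalRing.residue 𝒲 ⟨_, h3⟩ ≠ 0 := by
    rw [res_ne_zero_iff]
    change 𝒲.valuation (aeval x (Q.map _)) = 1
    rw [hQ]; exact hB1
  have h6 : (⟨_, h1⟩ : 𝒲) = r * ⟨_, h3⟩ := by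
    apply Subtype.ext
    change aeval x (P.map _) = (r : L) * aeval x (Q.map _)
    rw [hP, hQ, hA1]
  have h7 := congrArg (IsLocalRing.residue 𝒲) h6
  rw [map_mul] at h7
  rw [mem_adjoin_simple_iff]
  refine ⟨P.map (IsLocalRing.residue _), Q.map (IsLocalRing.residue _), ?_⟩
  rw [← h2, ← h4, h7, mul_div_assoc, div_self h5, mul_one]

/-- linear combinations in the valuation ring have coefficients in it -/
theorem scale' {x : L} {n : ℕ} {u : Fin n → L}
    (h : ∀ r : Fin n → L, (∀ i, r i ∈ IntermediateField.adjoin C {x} ∧ r i ∈ 𝒲) →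
      (∃ i, 𝒲.valuation (r i) = 1) → 𝒲.valuation (∑ i, r i * u i) = 1) {r : Fin n → L}
    (hr : ∀ i, r i ∈ IntermediateField.adjoin C {x}) (hs : ∑ i, r i * u i ∈ 𝒲) :
    ∀ i, r i ∈ 𝒲 := by
  intro i
  by_contra hi
  obtain ⟨j, -, hj⟩ := Finset.exists_max_image Finset.univ (fun i => 𝒲.valuation (r i))
    ⟨i, Finset.mem_univ i⟩
  have hi1 : 1 < 𝒲.valuation (r i) := by
    rw [← 𝒲.valuation_le_one_iff, not_le] at hi
    exact hi
  have hj1 : 1 < 𝒲.valuation (r j) := hi1.trans_le (hj i (Finset.mem_univ i))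
  have hj0 : r j ≠ 0 := by
    intro h0
    rw [h0, map_zero] at hj1
    exact absurd hj1 (not_lt.2 zero_le)
  have hv0 : 𝒲.valuation (r j) ≠ 0 := (Valuation.ne_zero_iff _).2 hj0
  have h1 := h (fun i => r i / r j) (fun i => ⟨div_mem (hr i) (hr j), by
    rw [← 𝒲.valuation_le_one_iff, map_div₀]
    exact div_le_one_of_le₀ (hj i (Finset.mem_univ i)) zero_le⟩) ⟨j, by
    rw [div_self hj0, map_one]⟩
  have h2 : ∑ i, r i * u i = r j * ∑ i, r i / r j * u i := by
    rw [Finset.mul_sum]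
    refine Finset.sum_congr rfl fun i _ => ?_
    field_simp
  rw [← 𝒲.valuation_le_one_iff, h2, map_mul, h1, mul_one] at hs
  exact absurd hj1 (not_lt.2 hs)

theorem basis_res {x : L} (hx : x ∈ 𝒲) (hG : GG C 𝒲 x) {n : ℕ} {u : Fin n → L}
    (hu : ∀ i, u i ∈ 𝒲)
    (hsp : ∀ f : L, ∃ r : Fin n → L, (∀ i, r i ∈ IntermediateField.adjoin C {x}) ∧
      f = ∑ i, r i * u i)
    (hind : ∀ r : Fin n → L, (∀ i, r i ∈ IntermediateField.adjoin C {x} ∧ r i ∈ 𝒲) →
      (∃ i, 𝒲.valuation (r i) = 1) → 𝒲.valuation (∑ i, r i * u i) = 1) :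
    FiniteDimensional (IntermediateField.adjoin (IsLocalRing.ResidueField (VV C 𝒲))
      {IsLocalRing.residue 𝒲 ⟨x, hx⟩}) (IsLocalRing.ResidueField 𝒲) ∧
    Module.finrank (IntermediateField.adjoin (IsLocalRing.ResidueField (VV C 𝒲))
      {IsLocalRing.residue 𝒲 ⟨x, hx⟩}) (IsLocalRing.ResidueField 𝒲) = n := by
  set F := IntermediateField.adjoin (IsLocalRing.ResidueField (VV C 𝒲))
      {IsLocalRing.residue 𝒲 ⟨x, hx⟩} with hF
  set ub : Fin n → IsLocalRing.ResidueField 𝒲 := fun i => IsLocalRing.residue 𝒲 ⟨u i, hu i⟩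
    with hub
  have hli : LinearIndependent F ub := by
    rw [Fintype.linearIndependent_iff]
    intro g hg
    by_contra! hne
    obtain ⟨i₀, hi₀⟩ := hne
    obtain ⟨D, S, hD, hS⟩ := Full.GoodRed.common_denom
      (kb := IsLocalRing.ResidueField (VV C 𝒲)) (IsLocalRing.residue 𝒲 ⟨x, hx⟩) n
      (fun i => (g i : IsLocalRing.ResidueField 𝒲)) (fun i => (g i).2)
    choose P hP using fun i => lift_poly 𝒲 (S i)
    have hres : ∀ i, ∃ h : aeval x ((P i).map (VV C 𝒲).subtype) ∈ 𝒲,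
      IsLocalRing.residue 𝒲 ⟨_, h⟩ = aeval (IsLocalRing.residue 𝒲 ⟨x, hx⟩) (S i) := by
      intro i
      rw [← hP i]
      exact res_poly 𝒲 hx (P i)
    choose hm hres using hres
    have h1 := hind (fun i => aeval x ((P i).map (VV C 𝒲).subtype)) (fun i => ⟨by
      rw [mem_adjoin_simple_iff]
      exact ⟨(P i).map (VV C 𝒲).subtype, 1, by rw [map_one, div_one]⟩, hm i⟩) ⟨i₀, by
      apply val_of_red 𝒲 hG
      rw [hP]
      intro h0
      have h2 := hS i₀
      rw [h0, map_zero] at h2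
      rcases mul_eq_zero.1 h2 with h3 | h3
      · exact hi₀ (Subtype.ext h3)
      · exact hD h3⟩
    have h2 : (∑ i, (⟨_, hm i⟩ : 𝒲) * ⟨u i, hu i⟩ : 𝒲) =
        (∑ i, aeval x ((P i).map (VV C 𝒲).subtype) * u i : L) := by
      rw [AddSubmonoidClass.coe_finsetSum]
      rfl
    rw [← h2, ← res_ne_zero_iff, map_sum] at h1
    apply h1
    have h3 : ∀ i, IsLocalRing.residue 𝒲 ((⟨_, hm i⟩ : 𝒲) * ⟨u i, hu i⟩) =
        aeval (IsLocalRing.residue 𝒲 ⟨x, hx⟩) D * (g i • ub i) := by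
      intro i
      rw [map_mul, hres, ← hS i, IntermediateField.smul_def, smul_eq_mul]
      ring
    rw [Finset.sum_congr rfl fun i _ => h3 i, ← Finset.mul_sum, hg, mul_zero]
  have hspan : ⊤ ≤ Submodule.span F (Set.range ub) := by
    intro z _
    obtain ⟨w, rfl⟩ := IsLocalRing.residue_surjective z
    obtain ⟨r, hr, hw⟩ := hsp (w : L)
    have hr1 := scale' 𝒲 hind hr (by rw [← hw]; exact w.2)
    have h2 : w = ∑ i, (⟨r i, hr1 i⟩ : 𝒲) * ⟨u i, hu i⟩ := by
      apply Subtype.ext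
      rw [AddSubmonoidClass.coe_finsetSum]
      exact hw
    rw [h2, map_sum]
    refine Submodule.sum_mem _ fun i _ => ?_
    rw [map_mul]
    have h3 : IsLocalRing.residue 𝒲 ⟨r i, hr1 i⟩ ∈ F := res_mem 𝒲 hx hG _ (hr i)
    have h4 : IsLocalRing.residue 𝒲 ⟨r i, hr1 i⟩ * IsLocalRing.residue 𝒲 ⟨u i, hu i⟩ =
        (⟨_, h3⟩ : F) • ub i := by
      rw [IntermediateField.smul_def, smul_eq_mul]
    rw [h4]
    exact Submodule.smul_mem _ _ (Submodule.subset_span ⟨i, rfl⟩)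
  let B := Module.Basis.mk hli hspan
  exact ⟨Module.Finite.of_basis B, by rw [Module.finrank_eq_card_basis B, Fintype.card_fin]⟩

theorem sep_of_finrank {F k : Type*} [Field F] [Field k] [Algebra F k] {l p j : ℕ}
    (hl : l.Prime) (hp : p.Prime) (hpl : l ≠ p) (hlF : (l : F) = 0) [FiniteDimensional F k]
    (h : Module.finrank F k = p ^ j) : Algebra.IsSeparable F k := by
  have : CharP F l := (CharP.charP_iff_prime_eq_zero hl).2 hlF
  refine ⟨fun z => ?_⟩
  have hint : IsIntegral F z := Algebra.IsIntegral.isIntegral z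
  rcases separable_or l (minpoly.irreducible hint) with h1 | ⟨-, g, -, hg⟩
  · exact h1
  · exfalso
    have h2 : (minpoly F z).natDegree ∣ Module.finrank F k := minpoly.degree_dvd hint
    rw [← hg, natDegree_expand, h] at h2
    have h3 : l ∣ p ^ j := (dvd_mul_left _ _).trans h2
    exact hpl ((Nat.prime_dvd_prime_iff_eq hl hp).1 (hl.dvd_of_dvd_pow h3))

end Abs

section Places

/-- restriction of an automorphism to a subring -/
def restr {A : Type*} [Ring A] {S : Type*} [SetLike S A] [SubringClass S A] (s : S) (Θ : A ≃+* A)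
    (h : ∀ f, Θ f ∈ s ↔ f ∈ s) : s ≃+* s where
  toFun f := ⟨Θ f, (h _).2 f.2⟩
  invFun f := ⟨Θ.symm f, (h _).1 (by rw [Θ.apply_symm_apply]; exact f.2)⟩
  left_inv f := Subtype.ext (Θ.symm_apply_apply _)
  right_inv f := Subtype.ext (Θ.apply_symm_apply _)
  map_mul' f g := Subtype.ext (map_mul Θ _ _)
  map_add' f g := Subtype.ext (map_add Θ _ _)

theorem restr_coe {A : Type*} [Ring A] {S : Type*} [SetLike S A] [SubringClass S A] (s : S)
    (Θ : A ≃+* A) (h : ∀ f, Θ f ∈ s ↔ f ∈ s) (f : s) : ((restr s Θ h f : s) : A) = Θ f := rfl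

theorem exists_ext' {k K : Type*} [Field k] [Field K] (j : k →+* K) (Q : ValuationSubring k) :
    ∃ Q' : ValuationSubring K, Q'.comap j = Q := by
  obtain ⟨Q', h1, h2, -⟩ := Full.exists_dominating (j.comp Q.subtype)
    (IsLocalRing.maximalIdeal Q) (fun a ha => by
      have h3 : (a : k) = 0 := (map_eq_zero j).1 ha
      have h4 : a = 0 := Subtype.ext h3
      rw [h4]
      exact zero_mem _)
  refine ⟨Q', ?_⟩
  ext z
  constructor
  · intro hz
    by_contra hzQ
    have h3 : z⁻¹ ∈ Q := (Q.mem_or_inv_mem z).resolve_left hzQ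
    have hz0 : z ≠ 0 := by
      rintro rfl
      exact hzQ (zero_mem _)
    have h4 : (⟨z⁻¹, h3⟩ : Q) ∈ IsLocalRing.maximalIdeal Q := by
      rw [IsLocalRing.mem_maximalIdeal, mem_nonunits_iff]
      intro h5
      have h6 := (Q.valuation_eq_one_iff _).1 h5
      rw [map_inv₀, inv_eq_one] at h6
      exact hzQ ((Q.valuation_le_one_iff _).1 h6.le)
    have h5 := h2 _ h4
    have h6 : Q'.valuation (j z⁻¹) < 1 := h5
    have h7 : Q'.valuation (j z) ≤ 1 := (Q'.valuation_le_one_iff _).2 hz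
    have h8 : Q'.valuation (j z) ≠ 0 :=
      (Valuation.ne_zero_iff _).2 ((_root_.map_ne_zero j).2 hz0)
    rw [map_inv₀, map_inv₀] at h6
    exact absurd h7 (not_le.2 ((inv_lt_one₀ (zero_lt_iff.2 h8)).1 h6))
  · intro hz
    exact h1 ⟨z, hz⟩

/-- composition of a valuation ring with a valuation ring of the residue field -/
def compV {M : Type*} [Field M] (W : ValuationSubring M)
    (Q : ValuationSubring (IsLocalRing.ResidueField W)) : ValuationSubring M where
  carrier := {u | ∃ h : u ∈ W, IsLocalRing.residue W ⟨u, h⟩ ∈ Q}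
  mul_mem' := by
    rintro a b ⟨ha, ha'⟩ ⟨hb, hb'⟩
    refine ⟨mul_mem ha hb, ?_⟩
    have := mul_mem ha' hb'
    rw [← map_mul] at this
    exact this
  one_mem' := ⟨one_mem _, by
    have : (⟨1, one_mem W⟩ : W) = 1 := rfl
    rw [this, map_one]
    exact one_mem _⟩
  add_mem' := by
    rintro a b ⟨ha, ha'⟩ ⟨hb, hb'⟩
    refine ⟨add_mem ha hb, ?_⟩
    have := add_mem ha' hb'
    rw [← map_add] at this
    exact this
  zero_mem' := ⟨zero_mem _, by
    have : (⟨0, zero_mem W⟩ : W) = 0 := rfl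
    rw [this, map_zero]
    exact zero_mem _⟩
  neg_mem' := by
    rintro a ⟨ha, ha'⟩
    refine ⟨neg_mem ha, ?_⟩
    have := neg_mem ha'
    rw [← map_neg] at this
    exact this
  mem_or_inv_mem' := by
    intro u
    by_cases hu : u ∈ W
    · by_cases hui : u⁻¹ ∈ W
      · by_cases hu0 : u = 0
        · subst hu0
          refine Or.inl ⟨hu, ?_⟩
          have : (⟨0, hu⟩ : W) = 0 := rfl
          rw [this, map_zero]
          exact zero_mem _
        · have h1 : IsLocalRing.residue W ⟨u, hu⟩ * IsLocalRing.residue W ⟨u⁻¹, hui⟩ = 1 := by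
            rw [← map_mul]
            have : (⟨u, hu⟩ : W) * ⟨u⁻¹, hui⟩ = 1 := Subtype.ext (mul_inv_cancel₀ hu0)
            rw [this, map_one]
          rcases Q.mem_or_inv_mem (IsLocalRing.residue W ⟨u, hu⟩) with h2 | h2
          · exact Or.inl ⟨hu, h2⟩
          · rw [← eq_inv_of_mul_eq_one_right h1] at h2
            exact Or.inr ⟨hui, h2⟩
      · left
        refine ⟨hu, ?_⟩
        have : IsLocalRing.residue W ⟨u, hu⟩ = 0 := by
          by_contra h1
          rw [← Ne, IsLocalRing.residue_ne_zero_iff_isUnit] at h1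
          have h2 := (W.valuation_eq_one_iff _).1 h1
          apply hui
          rw [← W.valuation_le_one_iff, map_inv₀]
          change (W.valuation u)⁻¹ ≤ 1
          have h3 : W.valuation u = 1 := h2
          rw [h3, inv_one]
        rw [this]
        exact zero_mem _
    · right
      have hui : u⁻¹ ∈ W := (W.mem_or_inv_mem u).resolve_left hu
      refine ⟨hui, ?_⟩
      have : IsLocalRing.residue W ⟨u⁻¹, hui⟩ = 0 := by
        by_contra h1
        rw [← Ne, IsLocalRing.residue_ne_zero_iff_isUnit] at h1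
        have h2 := (W.valuation_eq_one_iff _).1 h1
        apply hu
        have h3 : W.valuation u⁻¹ = 1 := h2
        rw [map_inv₀, inv_eq_one] at h3
        rw [← W.valuation_le_one_iff, h3]
      rw [this]
      exact zero_mem _

end Places

section Vals

theorem vone {K : Type*} [Field K] (A : ValuationSubring K) {z : K} (hz : z ≠ 0) :
    A.valuation z = 1 ↔ z ∈ A ∧ z⁻¹ ∈ A := by
  rw [← A.valuation_le_one_iff, ← A.valuation_le_one_iff, map_inv₀]
  have h0 : A.valuation z ≠ 0 := (Valuation.ne_zero_iff _).2 hz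
  constructor
  · intro h
    rw [h, inv_one]
    exact ⟨le_rfl, le_rfl⟩
  · rintro ⟨h1, h2⟩
    refine le_antisymm h1 ?_
    exact (inv_le_one₀ (zero_lt_iff.2 h0)).1 h2

variable {F M : Type*} [Field F] [Field M] [Algebra F M] (W : ValuationSubring M)

theorem comap_one (f : F) : (W.comap (algebraMap F M)).valuation f = 1 ↔
    W.valuation (algebraMap F M f) = 1 := by
  by_cases hf : f = 0
  · subst hf
    rw [map_zero, map_zero, map_zero]
    exact ⟨fun h => absurd h zero_ne_one, fun h => absurd h zero_ne_one⟩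
  · rw [vone _ hf, vone _ ((_root_.map_ne_zero _).2 hf), ← map_inv₀]
    rfl

theorem comap_le (f : F) : (W.comap (algebraMap F M)).valuation f ≤ 1 ↔
    W.valuation (algebraMap F M f) ≤ 1 := by
  rw [ValuationSubring.valuation_le_one_iff, ValuationSubring.valuation_le_one_iff]
  rfl

theorem comap_lt (f : F) : (W.comap (algebraMap F M)).valuation f < 1 ↔
    W.valuation (algebraMap F M f) < 1 := by
  rw [lt_iff_le_and_ne, lt_iff_le_and_ne, comap_le, Ne, comap_one]

end Vals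

end D7

open D7

variable {C M : Type*} [Field C] [IsAlgClosed C] [CharZero C] [Field M] [Algebra C M]
  {E : IntermediateField C M} {p l e : ℕ} {W : ValuationSubring M} {T Φ S : SA C M} {x : M}

omit [IsAlgClosed C] [CharZero C] in
theorem D7.adj (x' r : E) (hx : (x' : M) = x) :
    r ∈ IntermediateField.adjoin C {x'} ↔ (r : M) ∈ IntermediateField.adjoin C {x} := by
  have h1 : ∀ P : C[X], ((aeval x' P : E) : M) = aeval x P := by
    intro P
    rw [← hx]
    exact (Polynomial.aeval_algebraMap_apply M x' P).symm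
  rw [mem_adjoin_simple_iff, mem_adjoin_simple_iff]
  constructor
  · rintro ⟨A, B, h⟩
    refine ⟨A, B, ?_⟩
    rw [h, IntermediateField.coe_div, h1, h1]
  · rintro ⟨A, B, h⟩
    refine ⟨A, B, ?_⟩
    apply Subtype.ext
    rw [IntermediateField.coe_div, h1, h1, h]

theorem fbE (ctx : Ctx p l e W T Φ S) (hG : Gs C W x) (hx : Φ.g x = x) (pF : Pre Φ E)
    (wF : ∀ f ∈ E, Φ.g f ∈ W ↔ f ∈ W) {j : ℕ} (on : ON W x E (p ^ j)) :
    ∃ a₀ : ℕ, ∀ n, a₀ < n → ∀ f ∈ E, Φ.g f = f → W.valuation f = 1 →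
      (∀ R : ValuationSubring M, CR W E R →
        ∃ c ∈ E, c ≠ 0 ∧ R.valuation (f * (c ^ p ^ n)⁻¹) = 1) →
      ∃ g ∈ E, W.valuation g = 1 ∧ W.valuation (f - g ^ p) < 1 := by
  obtain ⟨hxE, u, hu, hsp, hind⟩ := on
  set 𝒲 : ValuationSubring E := W.comap (algebraMap E M) with h𝒲
  let _ := D7.rAlg (C := C) 𝒲
  have hone : ∀ f : E, 𝒲.valuation f = 1 ↔ W.valuation (f : M) = 1 := fun f => comap_one W f
  have hle : ∀ f : E, 𝒲.valuation f ≤ 1 ↔ W.valuation (f : M) ≤ 1 := fun f => comap_le W f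
  have hlt : ∀ f : E, 𝒲.valuation f < 1 ↔ W.valuation (f : M) < 1 := fun f => comap_lt W f
  have hxW : (⟨x, hxE⟩ : E) ∈ 𝒲 := hG.mem
  have hGG : GG C 𝒲 (⟨x, hxE⟩ : E) := by
    intro f h1 h2
    rw [hone]
    have h3 : ((aeval (⟨x, hxE⟩ : E) f : E) : M) = aeval x f :=
      (Polynomial.aeval_algebraMap_apply M (⟨x, hxE⟩ : E) f).symm
    rw [h3]
    apply hG.one
    · intro i
      have := h1 i
      rw [hle] at this
      exact (W.valuation_le_one_iff _).1 this
    · obtain ⟨i, hi⟩ := h2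
      exact ⟨i, (hone _).1 hi⟩
  have hadj : ∀ r : M, r ∈ IntermediateField.adjoin C {x} → r ∈ E := by
    intro r hr
    have : IntermediateField.adjoin C {x} ≤ E := by
      rw [IntermediateField.adjoin_le_iff, Set.singleton_subset_iff]
      exact hxE
    exact this hr
  -- the basis
  obtain ⟨hfd, hfr⟩ := basis_res 𝒲 hxW hGG (n := p ^ j) (u := fun i => ⟨u i, (hu i).1⟩)
    (fun i => (hu i).2) (fun f => by
      obtain ⟨r, hr, hf⟩ := hsp f f.2
      refine ⟨fun i => ⟨r i, hadj _ (hr i)⟩, fun i => ?_, ?_⟩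
      · exact (D7.adj (x := x) _ _ rfl).2 (hr i)
      · apply Subtype.ext
        rw [AddSubmonoidClass.coe_finsetSum]
        exact hf) (fun r hr h1 => by
      rw [hone]
      have h2 : ((∑ i, r i * (⟨u i, (hu i).1⟩ : E) : E) : M) = ∑ i, (r i : M) * u i := by
        rw [AddSubmonoidClass.coe_finsetSum]
        rfl
      rw [h2]
      apply hind
      · intro i
        exact ⟨(D7.adj (x := x) _ _ rfl).1 (hr i).1, (hr i).2⟩
      · obtain ⟨i, hi⟩ := h1
        exact ⟨i, (hone _).1 hi⟩)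
  have hlκ : (l : IsLocalRing.ResidueField (VV C 𝒲)) = 0 := by
    have h1 : (l : IsLocalRing.ResidueField 𝒲) = 0 := by
      have h2 : IsLocalRing.residue 𝒲 (l : 𝒲) = 0 := by
        by_contra h3
        rw [← Ne, res_ne_zero_iff, hone] at h3
        exact absurd h3 ctx.vl.ne
      rw [← h2, map_natCast]
    apply (algebraMap (IsLocalRing.ResidueField (VV C 𝒲)) (IsLocalRing.ResidueField 𝒲)).injective
    rw [map_natCast, map_zero, h1]
  have hpκ : (p : IsLocalRing.ResidueField (VV C 𝒲)) ≠ 0 := by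
    intro h1
    have h2 : (p : IsLocalRing.ResidueField 𝒲) = 0 := by
      have := congrArg
        (algebraMap (IsLocalRing.ResidueField (VV C 𝒲)) (IsLocalRing.ResidueField 𝒲)) h1
      rwa [map_natCast, map_zero] at this
    have h3 : IsLocalRing.residue 𝒲 (p : 𝒲) ≠ 0 := by
      rw [res_ne_zero_iff, hone]
      exact ctx.wv.vp
    rw [map_natCast] at h3
    exact h3 h2
  have hsep : Algebra.IsSeparable (IntermediateField.adjoin (IsLocalRing.ResidueField (VV C 𝒲))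
      {IsLocalRing.residue 𝒲 ⟨⟨x, hxE⟩, hxW⟩}) (IsLocalRing.ResidueField 𝒲) := by
    refine sep_of_finrank ctx.hl ctx.hp ctx.hpl ?_ hfr
    have := congrArg (algebraMap (IsLocalRing.ResidueField (VV C 𝒲))
      (IntermediateField.adjoin (IsLocalRing.ResidueField (VV C 𝒲))
      {IsLocalRing.residue 𝒲 ⟨⟨x, hxE⟩, hxW⟩})) hlκ
    rwa [map_natCast, map_zero] at this
  -- the Frobenius
  let ΘE : E ≃+* E := restr E Φ.g pF
  have hΘE : ∀ f : E, ((ΘE f : E) : M) = Φ.g f := fun f => rfl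
  let ΘW : 𝒲 ≃+* 𝒲 := restr 𝒲 ΘE (fun f => wF f f.2)
  have hΘW : ∀ f : 𝒲, ((ΘW f : 𝒲) : E) = ΘE f := fun f => rfl
  let φ : IsLocalRing.ResidueField 𝒲 ≃+* IsLocalRing.ResidueField 𝒲 :=
    IsLocalRing.ResidueField.mapEquiv ΘW
  have hφr : ∀ f : 𝒲, φ (IsLocalRing.residue 𝒲 f) = IsLocalRing.residue 𝒲 (ΘW f) := fun f => rfl
  have hφ : ∀ z : IsLocalRing.ResidueField (VV C 𝒲),
      φ (algebraMap _ (IsLocalRing.ResidueField 𝒲) z) =
        algebraMap _ (IsLocalRing.ResidueField 𝒲) (z ^ l ^ e) := by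
    intro z
    obtain ⟨c, rfl⟩ := IsLocalRing.residue_surjective z
    rw [rAlg_res, hφr, ← map_pow, rAlg_res, res_eq_iff, hlt]
    have h1 : (((ΘW (incl (kb := C) 𝒲 c) : 𝒲) : E) : M) = algebraMap C M (Φ.gC (c : C)) :=
      Φ.hC (c : C)
    have h2 : (((incl (kb := C) 𝒲 (c ^ l ^ e) : 𝒲) : E) : M) = algebraMap C M (c : C) ^ l ^ e := by
      rw [← map_pow]
      rfl
    have h3 : (((((ΘW (incl (kb := C) 𝒲 c) : 𝒲) : E) - ((incl (kb := C) 𝒲 (c ^ l ^ e) : 𝒲) : E) :
        E)) : M) = algebraMap C M (Φ.gC (c : C)) - algebraMap C M (c : C) ^ l ^ e := by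
      rw [← h1, ← h2]
      rfl
    rw [h3]
    exact ctx.cF c c.2
  have horb : ∀ z : IsLocalRing.ResidueField 𝒲, ∃ m, 1 ≤ m ∧ φ^[m] z = z := by
    intro z
    obtain ⟨c, rfl⟩ := IsLocalRing.residue_surjective z
    obtain ⟨m, hm, h1⟩ := ctx.orb ((c : E) : M)
    refine ⟨m, hm, ?_⟩
    have h2 : ∀ (m : ℕ) (c : 𝒲), φ^[m] (IsLocalRing.residue 𝒲 c) =
        IsLocalRing.residue 𝒲 (ΘW^[m] c) := by
      intro m
      induction m with
      | zero => intro c; rfl
      | succ m ih =>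
        intro c
        rw [Function.iterate_succ_apply, Function.iterate_succ_apply, hφr, ih]
    have h3 : ∀ (m : ℕ) (c : 𝒲), (((ΘW^[m] c : 𝒲) : E) : M) = Φ.g^[m] ((c : E) : M) := by
      intro m
      induction m with
      | zero => intro c; rfl
      | succ m ih =>
        intro c
        rw [Function.iterate_succ_apply, Function.iterate_succ_apply, ih]
        rfl
    rw [h2]
    congr 1
    apply Subtype.ext
    apply Subtype.ext
    rw [h3, h1]
  have hφx : φ (IsLocalRing.residue 𝒲 ⟨⟨x, hxE⟩, hxW⟩) =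
      IsLocalRing.residue 𝒲 ⟨⟨x, hxE⟩, hxW⟩ := by
    rw [hφr]
    congr 1
    apply Subtype.ext
    apply Subtype.ext
    exact hx
  have : IsAlgClosed (IsLocalRing.ResidueField (VV C 𝒲)) := Gl.isAlgClosed_residue _
  obtain ⟨a₀, H⟩ := fbg ctx.hp hpκ ctx.hl ctx.he hlκ φ hφ horb hφx (tr_res 𝒲 hxW hGG)
  refine ⟨a₀, fun n hn f hfE hff hf1 hR => ?_⟩
  have hfW : (⟨f, hfE⟩ : E) ∈ 𝒲 := (W.valuation_le_one_iff _).1 hf1.le
  have hf0 : f ≠ 0 := by
    rintro rfl
    rw [map_zero] at hf1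
    exact zero_ne_one hf1
  have hfb : IsLocalRing.residue 𝒲 ⟨⟨f, hfE⟩, hfW⟩ ≠ 0 := by
    rw [res_ne_zero_iff, hone]
    exact hf1
  obtain ⟨g, hg⟩ := H n hn (IsLocalRing.residue 𝒲 ⟨⟨f, hfE⟩, hfW⟩) (by
    rw [hφr]
    congr 1
    apply Subtype.ext
    apply Subtype.ext
    exact hff) hfb (by
    intro Q hQ
    obtain ⟨Q', hQ'⟩ := exists_ext' (IsLocalRing.ResidueField.map (incl (kb := E) W)) Q
    have hRmem : ∀ v : 𝒲, ((v : E) : M) ∈ compV W Q' ↔ IsLocalRing.residue 𝒲 v ∈ Q := by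
      intro v
      rw [← hQ']
      constructor
      · rintro ⟨h1, h2⟩
        exact h2
      · intro h1
        exact ⟨v.2, h1⟩
    have hCR : CR W E (compV W Q') := by
      refine ⟨?_, ?_, ?_⟩
      · rintro v ⟨h1, -⟩
        exact h1
      · intro c hc
        have h1 := (hRmem (incl (kb := C) 𝒲 ⟨c, hc⟩)).2 (by
          rw [← rAlg_res]
          exact hQ.1 _)
        exact h1
      · have h1 : ∃ z, z ∉ Q := by
          by_contra! h2
          exact hQ.2 (eq_top_iff.2 fun z _ => h2 z)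
        obtain ⟨z, hz⟩ := h1
        obtain ⟨v, rfl⟩ := IsLocalRing.residue_surjective z
        exact ⟨v, (v : E).2, v.2, fun h2 => hz ((hRmem v).1 h2)⟩
    obtain ⟨c, hcE, hc0, hc1⟩ := hR _ hCR
    have hcn : c ^ p ^ n ≠ 0 := pow_ne_zero _ hc0
    have hq0 : f * (c ^ p ^ n)⁻¹ ≠ 0 := mul_ne_zero hf0 (inv_ne_zero hcn)
    obtain ⟨h1, h2⟩ := (vone _ hq0).1 hc1
    have h3 : W.valuation (f * (c ^ p ^ n)⁻¹) = 1 := (vone _ hq0).2 ⟨hCR.le h1, hCR.le h2⟩
    have h4 : W.valuation c = 1 := by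
      rw [map_mul, hf1, one_mul, map_inv₀, inv_eq_one, map_pow] at h3
      exact (pow_eq_one_iff_of_nonneg zero_le (pow_ne_zero _ ctx.hp.ne_zero)).1 h3
    have hcW : (⟨c, hcE⟩ : E) ∈ 𝒲 := (W.valuation_le_one_iff _).1 h4.le
    have hcb : IsLocalRing.residue 𝒲 ⟨⟨c, hcE⟩, hcW⟩ ≠ 0 := by
      rw [res_ne_zero_iff, hone]
      exact h4
    have hqE : f * (c ^ p ^ n)⁻¹ ∈ E := mul_mem hfE (inv_mem (pow_mem hcE _))
    have hqi : (f * (c ^ p ^ n)⁻¹)⁻¹ ∈ E := inv_mem hqE
    set a : 𝒲 := ⟨⟨_, hqE⟩, hCR.le h1⟩ with ha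
    set b : 𝒲 := ⟨⟨_, hqi⟩, hCR.le h2⟩ with hb
    have h5 : a * (⟨⟨c, hcE⟩, hcW⟩ : 𝒲) ^ p ^ n = ⟨⟨f, hfE⟩, hfW⟩ := by
      apply Subtype.ext
      apply Subtype.ext
      change f * (c ^ p ^ n)⁻¹ * c ^ p ^ n = f
      rw [inv_mul_cancel_right₀ hcn]
    have h6 : a * b = 1 := by
      apply Subtype.ext
      apply Subtype.ext
      exact mul_inv_cancel₀ hq0
    have h7 := congrArg (IsLocalRing.residue 𝒲) h5
    rw [map_mul, map_pow] at h7
    have h8 := congrArg (IsLocalRing.residue 𝒲) h6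
    rw [map_mul, map_one] at h8
    have h9 : IsLocalRing.residue 𝒲 a ≠ 0 := left_ne_zero_of_mul_eq_one h8
    refine ⟨_, hcb, ?_⟩
    rw [← h7, mul_inv_cancel_right₀ (pow_ne_zero _ hcb), vone _ h9]
    refine ⟨(hRmem a).1 h1, ?_⟩
    rw [← eq_inv_of_mul_eq_one_right h8]
    exact (hRmem b).1 h2)
  obtain ⟨v, rfl⟩ := IsLocalRing.residue_surjective g
  have hv : IsLocalRing.residue 𝒲 v ≠ 0 := by
    intro h0
    rw [h0, zero_pow ctx.hp.ne_zero] at hg
    exact hfb hg.symm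
  refine ⟨v, (v : E).2, ?_, ?_⟩
  · rw [res_ne_zero_iff, hone] at hv
    exact hv
  · rw [← map_pow] at hg
    have := (res_eq_iff 𝒲 _ _).1 hg.symm
    rw [hlt] at this
    exact this

end Pool.Agent.Lib.MP_2f3286_ag.Pp
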