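import Pool.Agent.Lib.MP_2f3286_ag.Pp.B2
import Pool.Agent.Lib.MP_2f3286_ag.Gl.U1
import Pool.Agent.Lib.MP_2f3286_ag.Gl.U3

/-!
# Elements with divisible orders in the local rings of the special fibre   (module E1)

PROOF of `pow_pi`. `S` is a Noetherian local domain, `π` not a unit (`R(π) < 1`: `W(π) < 1` and `R ≤ W`), so the intersection of the ideals `(π ^ n)` is zero (Krull: `Ideal.iInf_pow_eq_bot_of_isDomain` or so): `u = π ^ n u'` with `u' ∈ S`, not divisible by `π` in `S`; by `h.div` `W(u') = 1`.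
PROOF of `ur`. Let `T₁ = T ∪ {f} ∪ (the set of ff_fin (B2) for f)`; `hlm` gives `S`, `π`, `t` with `LocM` and `Fr S τ` for `τ ∈ T₁`. Facts. (a) `S` is a local ring: the non-units are the `u` with `R(u) < 1` (`h.inv`), closed under addition; its maximal ideal is `(π, t)` (`h.gen`; `R(π), R(t) < 1`). (b) `π` is a prime
element of `S`: `π ∣ u` iff `W(u) < 1` (`h.div`). So `Gl.ufd_of_two`: `S` is a factorial domain. (c) `f b = a`, `a, b ∈ S`, `b ≠ 0`; `f' = f b ^ m = a b ^ (m - 1) ∈ S`, `f' ≠ 0`. (d) `Gl.ufd_pow` for `f'`: let `r ∈ S` be prime, not associated to `π`, `r ^ n ∣ f'`, `¬ r ^ (n + 1) ∣ f'`; show `m ∣ n`. `Gl.exists_prime_place`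
with `L = M`, `F₁ = ℚ`, `φ` the inclusion `S → M`: `hF`: `e = a / b`, integers, `b ≠ 0`; integers are in `S`; `b = π ^ i b'` with `b' ∈ S`, `W(b') = 1` (`pow_pi`); `b'` is a constant (the quotient of two constants), so in `R` with its inverse (`CR.const`), so a unit of `S`; `r` does not divide `b` (it would divide `π`, or a
unit). So there is a valuation ring `Q` of `M` which contains `C` and `S`, with `Q(a) < 1` if `r ∣ a`, `Q(a) = 1` if not. So for `a ∈ S`, `a ≠ 0`: `Q(a) = Q(r) ^ i` if `r ^ i` divides `a` exactly (`Gl.val_prime`'s proof, u3_val); for a quotient `z = a / b` of elements of `S`: `Q(z) = Q(r) ^ (i - i')`. With `f = a / b`: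
`Q(f) = Q(r) ^ (i - i')` and `n = i + (m - 1) i' = (i - i') + m i'`, so it is enough to show `m ∣ i - i'`. If `Q(f) = 1` then `i = i'`. If `Q(f) ≠ 1`, there is `τ ∈ T₁`, a uniformizer for `Q` (`ff_fin`), `Q(τ) = Q(r) ^ j` as `Fr S τ`. `hd Q`: `c ∈ E`, `Q(f) = Q(c) ^ m`, `Q(c) = Q(τ) ^ j' = Q(r) ^ (j j')`, so `i - i' = j j' m`
(`Q(r) ≠ 0`, `< 1`). (e) So `f' = π ^ j ε g ^ m`, `ε` a unit of `S`, `g ∈ S`. `W(f) = 1`, `W(ε) = 1`; `b = π ^ i b'`, `g = π ^ i' g'` with `W(b') = W(g') = 1` (`pow_pi`): `1 = W(f) = W(π) ^ (j + m i' - m i)`, so `j = m (i - i')`. So `f = ε (π ^ (i - i') g / b) ^ m`; `h = π ^ (i - i') g / b` is a quotient of elements of `S`.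
`R(ε) = 1` (`ε`, `ε⁻¹ ∈ S ⊆ R`).
-/

open Polynomial IntermediateField

namespace Pool.Agent.Lib.MP_2f3286_ag.Pp

variable {C M : Type*} [Field C] [IsAlgClosed C] [CharZero C] [Field M] [Algebra C M]
  {E : IntermediateField C M} {W R : ValuationSubring M}

section
variable {S : Subring M} {π t : M}

omit [IsAlgClosed C] [CharZero C] in
private theorem e1_R1 (h : LocM W E R S π t) {u : M} (hu : u ∈ S) : R.valuation u ≤ 1 :=
  (R.valuation_le_one_iff u).2 (h.le u hu).2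

omit [IsAlgClosed C] [CharZero C] in
private theorem e1_W1 (hR : R ≤ W) (h : LocM W E R S π t) {u : M} (hu : u ∈ S) :
    W.valuation u ≤ 1 :=
  (W.valuation_le_one_iff u).2 (hR (h.le u hu).2)

omit [IsAlgClosed C] [CharZero C] in
private theorem e1_unit (h : LocM W E R S π t) (u : S) : IsUnit u ↔ R.valuation (u : M) = 1 := by
  constructor
  · intro hu
    obtain ⟨v, hv⟩ := hu.exists_right_inv
    have h0 : (u : M) * (v : M) = 1 := by
      have := congrArg Subtype.val hv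
      simpa using this
    have h1 : R.valuation (u : M) * R.valuation (v : M) = 1 := by
      rw [← map_mul, h0, map_one]
    refine le_antisymm (e1_R1 h u.2) ?_
    calc (1 : _) = R.valuation (u : M) * R.valuation (v : M) := h1.symm
      _ ≤ R.valuation (u : M) := mul_le_of_le_one_right' (e1_R1 h v.2)
  · intro hu
    have hu0 : (u : M) ≠ 0 := by
      intro h0
      rw [h0, map_zero] at hu
      exact zero_ne_one hu
    exact ⟨⟨u, ⟨(u : M)⁻¹, h.inv u u.2 hu⟩, Subtype.ext (mul_inv_cancel₀ hu0),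
      Subtype.ext (inv_mul_cancel₀ hu0)⟩, rfl⟩

omit [IsAlgClosed C] [CharZero C] in
private theorem e1_piR (hR : R ≤ W) (h : LocM W E R S π t) : R.valuation π < 1 := by
  refine lt_of_le_of_ne (e1_R1 h h.piS) fun h1 => ?_
  have h2 : π⁻¹ ∈ S := h.inv π h.piS h1
  have h3 := e1_W1 hR h h2
  have h4 : W.valuation π * W.valuation π⁻¹ = 1 := by
    rw [← map_mul, mul_inv_cancel₀ h.pi0, map_one]
  have h5 : W.valuation π * W.valuation π⁻¹ ≤ W.valuation π := mul_le_of_le_one_right' h3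
  rw [h4] at h5
  exact absurd h.pi1 (not_lt.2 h5)

omit [IsAlgClosed C] [CharZero C] in
private theorem e1_dvd (hR : R ≤ W) (h : LocM W E R S π t) (u : S) :
    (⟨π, h.piS⟩ : S) ∣ u ↔ W.valuation (u : M) < 1 := by
  constructor
  · rintro ⟨v, hv⟩
    have h0 : (u : M) = π * (v : M) := by
      have := congrArg Subtype.val hv
      simpa using this
    rw [h0, map_mul]
    exact lt_of_le_of_lt (mul_le_of_le_one_right' (e1_W1 hR h v.2)) h.pi1
  · intro hu
    refine ⟨⟨(u : M) * π⁻¹, h.div u u.2 hu⟩, Subtype.ext ?_⟩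
    change (u : M) = π * ((u : M) * π⁻¹)
    field_simp [h.pi0]

omit [IsAlgClosed C] [CharZero C] in
private theorem e1_prime (hR : R ≤ W) (h : LocM W E R S π t) : Prime (⟨π, h.piS⟩ : S) := by
  refine ⟨fun h0 => h.pi0 (congrArg Subtype.val h0), fun hu => ?_, fun a b hab => ?_⟩
  · rw [e1_unit h] at hu
    exact absurd hu (e1_piR hR h).ne
  · rw [e1_dvd hR h] at hab ⊢
    rw [e1_dvd hR h]
    by_contra hcon
    push Not at hcon
    have h1 : W.valuation (a : M) = 1 := le_antisymm (e1_W1 hR h a.2) hcon.1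
    have h2 : W.valuation (b : M) = 1 := le_antisymm (e1_W1 hR h b.2) hcon.2
    have h3 : W.valuation ((a * b : S) : M) = 1 := by
      rw [Subring.coe_mul, map_mul, h1, h2, mul_one]
    exact absurd hab (by rw [h3]; exact lt_irrefl _)

omit [IsAlgClosed C] [CharZero C] in
private theorem e1_local (h : LocM W E R S π t) : IsLocalRing S := by
  refine IsLocalRing.of_nonunits_add fun a b ha hb => ?_
  rw [mem_nonunits_iff, e1_unit h] at ha hb ⊢
  have h1 : R.valuation (a : M) < 1 := lt_of_le_of_ne (e1_R1 h a.2) ha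
  have h2 : R.valuation (b : M) < 1 := lt_of_le_of_ne (e1_R1 h b.2) hb
  have h3 : R.valuation ((a + b : S) : M) < 1 := by
    rw [Subring.coe_add]
    exact lt_of_le_of_lt (R.valuation.map_add _ _) (max_lt h1 h2)
  exact h3.ne

omit [IsAlgClosed C] [CharZero C] in
private theorem e1_max (hR : R ≤ W) (h : LocM W E R S π t) [IsLocalRing S] :
    IsLocalRing.maximalIdeal S = Ideal.span {(⟨π, h.piS⟩ : S), (⟨t, h.tS⟩ : S)} := by
  apply le_antisymm
  · intro x hx
    rw [IsLocalRing.mem_maximalIdeal, mem_nonunits_iff, e1_unit h] at hx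
    have h1 : R.valuation (x : M) < 1 := lt_of_le_of_ne (e1_R1 h x.2) hx
    obtain ⟨a, ha, b, hb, hab⟩ := h.gen x x.2 h1
    rw [Ideal.mem_span_pair]
    refine ⟨⟨a, ha⟩, ⟨b, hb⟩, Subtype.ext ?_⟩
    exact hab.symm
  · rw [Ideal.span_le]
    intro x hx
    rw [SetLike.mem_coe, IsLocalRing.mem_maximalIdeal, mem_nonunits_iff, e1_unit h]
    rcases hx with hx | hx
    · rw [hx]
      exact (e1_piR hR h).ne
    · rw [Set.mem_singleton_iff.1 hx]
      exact h.t1.ne

end

omit [IsAlgClosed C] [CharZero C] in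
theorem pow_pi (hR : R ≤ W) {S : Subring M} {π t : M} (h : LocM W E R S π t) {u : M} (hu : u ∈ S)
    (hu0 : u ≠ 0) : ∃ (n : ℕ) (u' : M), u' ∈ S ∧ W.valuation u' = 1 ∧ u = π ^ n * u' := by
  haveI := h.noeth
  have hπ := e1_prime hR h
  have hu1 : (⟨u, hu⟩ : S) ≠ 0 := fun h0 => hu0 (congrArg Subtype.val h0)
  have hfm : FiniteMultiplicity (⟨π, h.piS⟩ : S) (⟨u, hu⟩ : S) :=
    FiniteMultiplicity.of_not_isUnit hπ.not_unit hu1
  obtain ⟨c, hc, hcd⟩ := hfm.exists_eq_pow_mul_and_not_dvd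
  refine ⟨_, c, c.2, ?_, by simpa using congrArg Subtype.val hc⟩
  rw [e1_dvd hR h] at hcd
  exact le_antisymm (e1_W1 hR h c.2) (not_lt.1 hcd)

/-- a natural number is not divisible by a prime element which is not associated to `π` -/
private theorem e1_nat (hR : CR W E R) {S : Subring M} {π t : M} (h : LocM W E R S π t) {r : S}
    (hr : Prime r) (hrπ : ¬ Associated r (⟨π, h.piS⟩ : S)) {N : ℕ} (hN : N ≠ 0) :
    ¬ r ∣ ((N : ℕ) : S) := by
  haveI : CharZero M := charZero_of_injective_algebraMap (algebraMap C M).injective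
  have hN0 : (N : M) ≠ 0 := Nat.cast_ne_zero.2 hN
  obtain ⟨i, b', hb'S, hb'1, hb⟩ := pow_pi hR.le h (natCast_mem S N) hN0
  obtain ⟨c, hc⟩ := h.piC
  have hπ0 := h.pi0
  have hb'c : algebraMap C M ((N : C) / c ^ i) = b' := by
    rw [map_div₀, map_pow, map_natCast, hc, hb]
    field_simp
  have hb'0 : b' ≠ 0 := by
    rintro rfl
    rw [map_zero] at hb'1
    exact zero_ne_one hb'1
  have k1 : b' ∈ R := by
    rw [← hb'c]
    apply hR.const
    rw [hb'c, ← W.valuation_le_one_iff]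
    exact hb'1.le
  have k2 : b'⁻¹ ∈ R := by
    rw [← hb'c, ← map_inv₀]
    apply hR.const
    rw [map_inv₀, hb'c, ← W.valuation_le_one_iff, map_inv₀, hb'1, inv_one]
  have k3 : R.valuation b' = 1 := by
    rw [← R.valuation_le_one_iff] at k1 k2
    refine le_antisymm k1 ?_
    have h1 : R.valuation b' * R.valuation b'⁻¹ = 1 := by
      rw [← map_mul, mul_inv_cancel₀ hb'0, map_one]
    calc (1 : _) = R.valuation b' * R.valuation b'⁻¹ := h1.symm
      _ ≤ R.valuation b' := mul_le_of_le_one_right' k2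
  have k4 : IsUnit (⟨b', hb'S⟩ : S) := (e1_unit h _).2 k3
  have k5 : ((N : ℕ) : S) = (⟨π, h.piS⟩ : S) ^ i * ⟨b', hb'S⟩ := by
    apply Subtype.ext
    simpa using hb
  intro hd
  rw [k5] at hd
  rcases hr.dvd_or_dvd hd with h1 | h1
  · have h2 := hr.dvd_of_dvd_pow h1
    exact hrπ ((hr.dvd_prime_iff_associated (e1_prime hR.le h)).1 h2)
  · exact hr.not_unit (isUnit_of_dvd_unit h1 k4)

private theorem e1_val {S : Subring M} [IsNoetherianRing S] {r : S} (hr : Prime r)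
    (Q : ValuationSubring M) (hQ2 : ∀ a : S, ¬ r ∣ a → Q.valuation (a : M) = 1) {a : S}
    (ha : a ≠ 0) : ∃ i : ℕ, Q.valuation (a : M) = Q.valuation (r : M) ^ i := by
  have hfm : FiniteMultiplicity r a := FiniteMultiplicity.of_not_isUnit hr.not_unit ha
  obtain ⟨c, hc, hcd⟩ := hfm.exists_eq_pow_mul_and_not_dvd
  refine ⟨multiplicity r a, ?_⟩
  conv_lhs => rw [hc]
  rw [Subring.coe_mul, map_mul, Subring.coe_pow, map_pow, hQ2 c hcd, mul_one]

/-- the order of a quotient of elements of `S` -/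
private theorem e1_fr {S : Subring M} [IsNoetherianRing S] {r : S} (hr : Prime r)
    (Q : ValuationSubring M) (hQ2 : ∀ a : S, ¬ r ∣ a → Q.valuation (a : M) = 1)
    (hr0 : Q.valuation (r : M) ≠ 0) {τ : M} (hτ : Fr S τ) (hτ0 : τ ≠ 0) :
    ∃ i : ℤ, Q.valuation τ = Q.valuation (r : M) ^ i := by
  obtain ⟨a, ha, b, hb, hb0, hab⟩ := hτ
  have ha0 : a ≠ 0 := by
    rw [← hab]
    exact mul_ne_zero hτ0 hb0
  obtain ⟨i, hi⟩ := e1_val hr Q hQ2 (a := ⟨a, ha⟩) (fun h0 => ha0 (congrArg Subtype.val h0))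
  obtain ⟨j, hj⟩ := e1_val hr Q hQ2 (a := ⟨b, hb⟩) (fun h0 => hb0 (congrArg Subtype.val h0))
  refine ⟨(i : ℤ) - j, ?_⟩
  have h3 : Q.valuation τ * Q.valuation (r : M) ^ j = Q.valuation (r : M) ^ i := by
    rw [← hi, ← hj, ← map_mul]
    exact congrArg _ hab
  rw [zpow_sub₀ hr0, zpow_natCast, zpow_natCast, ← h3,
    mul_div_cancel_right₀ _ (pow_ne_zero _ hr0)]

theorem ur [Algebra.IsAlgebraic ℚ C] (hE : FF E) (hlm : LM W E) (hR : CR W E R) {m : ℕ}
    (hm : 1 ≤ m) {f : M} (hf : f ∈ E) (hf1 : W.valuation f = 1) (hd : DivE m E f) (T : Finset M)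
    (hT : ∀ τ ∈ T, τ ∈ E) :
    ∃ (S : Subring M) (π t : M), LocM W E R S π t ∧ (∀ τ ∈ T, Fr S τ) ∧
      ∃ ε ∈ S, ∃ h : M, R.valuation ε = 1 ∧ Fr S h ∧ h ≠ 0 ∧ f = ε * h ^ m := by
  classical
  haveI : CharZero M := charZero_of_injective_algebraMap (algebraMap C M).injective
  have hf0 : f ≠ 0 := by
    rintro rfl
    rw [map_zero] at hf1
    exact zero_ne_one hf1
  obtain ⟨T₂, hT₂, hT₂'⟩ := ff_fin hE hf hf0
  obtain ⟨S, π, t, hS, hFr⟩ := hlm R hR (insert f (T ∪ T₂)) (by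
    intro τ hτ
    rcases Finset.mem_insert.1 hτ with h | h
    · rw [h]; exact hf
    · rcases Finset.mem_union.1 h with h | h
      · exact hT τ h
      · exact hT₂ τ h)
  have hFT : ∀ τ ∈ T, Fr S τ := fun τ hτ =>
    hFr τ (Finset.mem_insert_of_mem (Finset.mem_union_left _ hτ))
  have hFT₂ : ∀ τ ∈ T₂, Fr S τ := fun τ hτ =>
    hFr τ (Finset.mem_insert_of_mem (Finset.mem_union_right _ hτ))
  have hFf : Fr S f := hFr f (Finset.mem_insert_self _ _)
  haveI := hS.noeth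
  haveI := e1_local hS
  have hπ := e1_prime hR.le hS
  haveI := Gl.ufd_of_two hπ (e1_max hR.le hS)
  obtain ⟨a, ha, b, hb, hb0, hab⟩ := hFf
  have ha0 : a ≠ 0 := by
    rw [← hab]
    exact mul_ne_zero hf0 hb0
  have hbm : f * b ^ m = a * b ^ (m - 1) := by
    obtain ⟨k, rfl⟩ : ∃ k, m = k + 1 := ⟨m - 1, by omega⟩
    rw [Nat.add_sub_cancel, pow_succ, ← hab]
    ring
  obtain ⟨f', hf'⟩ : ∃ f' : S, (f' : M) = f * b ^ m :=
    ⟨⟨a * b ^ (m - 1), S.mul_mem ha (S.pow_mem hb _)⟩, hbm.symm⟩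
  have hf'0 : f' ≠ 0 := by
    intro h0
    have h1 : (f' : M) = 0 := by rw [h0]; rfl
    rw [hf'] at h1
    exact mul_ne_zero hf0 (pow_ne_zero _ hb0) h1
  obtain ⟨j, ε, g, hg⟩ := Gl.ufd_pow hπ hm hf'0 (by
    intro r hr hrπ n hn1 hn2
    obtain ⟨Q, hQC, -, hQS, hQ1, hQ2⟩ := Gl.exists_prime_place (F₁ := ℚ) (C := C) S.subtype
      S.subtype_injective hr (by
        intro e
        refine ⟨((e.num : ℤ) : S), ((e.den : ℕ) : S), e1_nat hR hS hr hrπ e.den_nz, ?_⟩
        rw [eq_ratCast, map_ratCast, map_natCast, map_intCast]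
        have h1 : ((e.den : ℕ) : M) ≠ 0 := Nat.cast_ne_zero.2 e.den_nz
        rw [Rat.cast_def, div_mul_cancel₀ _ h1])
    have hQ1' : Q.valuation (r : M) < 1 := hQ1 r dvd_rfl
    have hQ2' : ∀ a : S, ¬ r ∣ a → Q.valuation (a : M) = 1 := hQ2
    have hr0 : (r : M) ≠ 0 := fun h0 => hr.ne_zero (Subtype.ext h0)
    have hrv : Q.valuation (r : M) ≠ 0 := (Valuation.ne_zero_iff _).mpr hr0
    have hinj := zpow_right_injective₀ (zero_lt_iff.2 hrv) hQ1'.ne
    obtain ⟨i, hi⟩ := e1_fr hr Q hQ2' hrv ⟨a, ha, b, hb, hb0, hab⟩ hf0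
    obtain ⟨k, hk⟩ := e1_val hr Q hQ2' (a := ⟨b, hb⟩) (fun h0 => hb0 (congrArg Subtype.val h0))
    have hk' : Q.valuation b = Q.valuation (r : M) ^ k := hk
    -- the order of `f'`
    obtain ⟨c, hc⟩ := hn1
    have hcd : ¬ r ∣ c := by
      rintro ⟨d, rfl⟩
      apply hn2
      exact ⟨d, by rw [hc]; ring⟩
    have hfv : Q.valuation (f' : M) = Q.valuation (r : M) ^ (n : ℤ) := by
      rw [hc, Subring.coe_mul, map_mul, Subring.coe_pow, map_pow, hQ2' c hcd, mul_one,
        zpow_natCast]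
    have hn : (n : ℤ) = i + k * m := by
      apply hinj
      change Q.valuation (r : M) ^ (n : ℤ) = Q.valuation (r : M) ^ (i + (k : ℤ) * m)
      rw [← hfv, hf', map_mul, map_pow, hi, hk', zpow_add₀ hrv, zpow_mul, zpow_natCast,
        zpow_natCast]
    have him : (m : ℤ) ∣ i := by
      by_cases hfQ : Q.valuation f = 1
      · have : i = 0 := by
          apply hinj
          change Q.valuation (r : M) ^ i = Q.valuation (r : M) ^ (0 : ℤ)
          rw [← hi, hfQ, zpow_zero]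
        rw [this]
        exact dvd_zero _
      · obtain ⟨τ, hτ, hτ0, hτ1, hτ2⟩ := hT₂' Q hQC hfQ
        obtain ⟨l, hl⟩ := e1_fr hr Q hQ2' hrv (hFT₂ τ hτ) hτ0
        obtain ⟨c₁, hc₁, hc₁0, hc₁1⟩ := hd Q hQC
        obtain ⟨k₁, hk₁⟩ := hτ2 c₁ hc₁ hc₁0
        have h1 : Q.valuation f = Q.valuation c₁ ^ m := by
          rw [map_mul, map_inv₀, map_pow] at hc₁1
          have h3 : Q.valuation c₁ ^ m ≠ 0 := pow_ne_zero _ ((Valuation.ne_zero_iff _).mpr hc₁0)
          exact (mul_inv_eq_one₀ h3).mp hc₁1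
        have h2 : i = l * k₁ * m := by
          apply hinj
          change Q.valuation (r : M) ^ i = Q.valuation (r : M) ^ (l * k₁ * (m : ℤ))
          rw [← hi, h1, hk₁, hl, zpow_mul, zpow_natCast, zpow_mul]
        rw [h2]
        exact dvd_mul_left _ _
    have h3 : (m : ℤ) ∣ (n : ℤ) := by
      rw [hn]
      exact dvd_add him (dvd_mul_left _ _)
    exact_mod_cast h3)
  -- the exponent of `π`
  have hg' : f * b ^ m = π ^ j * ((ε : S) : M) * (g : M) ^ m := by
    rw [← hf', hg]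
    simp
  have hg0 : (g : M) ≠ 0 := by
    intro h0
    rw [h0, zero_pow (by omega), mul_zero] at hg'
    exact mul_ne_zero hf0 (pow_ne_zero _ hb0) hg'
  have hε1 : R.valuation ((ε : S) : M) = 1 := (e1_unit hS _).1 ε.isUnit
  have hεW : W.valuation ((ε : S) : M) = 1 := by
    have h1 : ((ε : S) : M)⁻¹ ∈ S := hS.inv _ (ε : S).2 hε1
    have h0 : ((ε : S) : M) ≠ 0 := by
      intro h0
      rw [h0, map_zero] at hε1
      exact zero_ne_one hε1
    refine le_antisymm (e1_W1 hR.le hS (ε : S).2) ?_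
    have h2 : W.valuation ((ε : S) : M) * W.valuation ((ε : S) : M)⁻¹ = 1 := by
      rw [← map_mul, mul_inv_cancel₀ h0, map_one]
    calc (1 : _) = W.valuation ((ε : S) : M) * W.valuation ((ε : S) : M)⁻¹ := h2.symm
      _ ≤ _ := mul_le_of_le_one_right' (e1_W1 hR.le hS h1)
  obtain ⟨i, b', hb'S, hb'1, hbi⟩ := pow_pi hR.le hS hb hb0
  obtain ⟨i', g', hg'S, hg'1, hgi⟩ := pow_pi hR.le hS g.2 hg0
  have hπv : W.valuation π ≠ 0 := (Valuation.ne_zero_iff _).mpr hS.pi0
  have hexp : i * m = j + i' * m := by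
    have h1 := congrArg W.valuation hg'
    rw [hbi, hgi, map_mul, map_mul, map_mul, map_pow, map_pow, map_pow, map_mul, map_mul, map_pow,
      map_pow, hf1, hb'1, hg'1, hεW, one_mul, mul_one, mul_one, mul_one, ← pow_mul, ← pow_mul,
      ← pow_add] at h1
    have hinj := pow_right_injective₀ (zero_lt_iff.2 hπv) hS.pi1.ne
    exact hinj h1
  have hii : i' ≤ i := by
    by_contra hcon
    push Not at hcon
    have : i * m < i' * m := Nat.mul_lt_mul_of_pos_right hcon (by omega)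
    omega
  have hj : j = (i - i') * m := by
    rw [Nat.sub_mul]
    omega
  refine ⟨S, π, t, hS, hFT, ε, (ε : S).2, π ^ (i - i') * g / b, hε1, ?_, ?_, ?_⟩
  · exact ⟨π ^ (i - i') * g, S.mul_mem (S.pow_mem hS.piS _) g.2, b, hb, hb0,
      div_mul_cancel₀ _ hb0⟩
  · exact div_ne_zero (mul_ne_zero (pow_ne_zero _ hS.pi0) hg0) hb0
  · have hbm0 : b ^ m ≠ 0 := pow_ne_zero _ hb0
    rw [div_pow, mul_pow, ← pow_mul, ← hj, ← mul_div_assoc, eq_div_iff hbm0, hg']
    ring

end Pool.Agent.Lib.MP_2f3286_ag.Pp
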