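import Pool.Agent.Lib.MP_2f3286_ag.Pp.C4
import Pool.Agent.Lib.MP_2f3286_ag.Pp.D1
import Pool.Agent.Lib.MP_2f3286_ag.Pp.D7
import Pool.Agent.Lib.MP_2f3286_ag.Pp.E1

/-!
# The classes fixed by a Frobenius element have bounded order   (module D8)

PROOF of `r3E` (the proof of `GRed.r3`, Gl/R3.lean, in this language). `q = l ^ e`, `ψ = Φ.gC`. `fbE` (D7): `a₀`. We show by induction on `n`: if `z ≠ 0`, `z ^ (p ^ n) ∈ E`, `DivE (p ^ n) E (z ^ (p ^ n))` and `Φ.g z = z u`, `u ∈ E`, then `z ^ (p ^ a₀) ∈ E`. If `n ≤ a₀` clear. Let `n = n' + 1 > a₀`. It is enough to show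
`z ^ (p ^ n') ∈ E` (then `DivE (p ^ n') E` of it: `DivE.root`). (a) `ctx.orb`: `Φ.g^[m] z = z`. `Gl.exists_trace` (Gl/H1.lean) for `M`, `ψ`, `Ψ = Φ.g`, `hroot` from `root_q` (D1): `c ∈ C` with `z' = ∑ i < m, ψ^[i] c • Φ.g^[i] z ≠ 0`, `Φ.g z' = z'`. `Φ.g^[i] z = z u_i` with `u_i ∈ E` (`u_{i+1} = u Φ.g u_i`), so `z' = z u'`, `u' ∈ E`,
`u' ≠ 0`. `f' = z' ^ (p ^ n) = z ^ (p ^ n) u' ^ (p ^ n) ∈ E`, `Φ.g f' = f'`, `DivE (p ^ n) E f'`. (b) `pfu` (D1): `c ≠ 0`, `ψ c = c`, `W(c f') = 1`; `f'' = c f'`, `Φ.g f'' = f''`, `DivE (p ^ n) E f''`. (c) for every `R` with `CR W E R`: `ur` (E1) with `m = p ^ n`, `T = ∅`: `f'' = ε h ^ (p ^ n)`, `R(ε) = 1`, `h ∈ E` (a quotient of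
elements of `S ⊆ E`), so `R(f'' (h ^ (p ^ n))⁻¹) = 1`. (d) `fbE`: `g ∈ E`, `W(g) = 1`, `W(f'' - g ^ p) < 1`. `h.ri` with `DivE p E f''` (`DivE.dvd`): `f'' = w ^ p`, `w ∈ E`. With `c₁ ^ p = c`: `(z' ^ (p ^ n')) ^ p = f' = (w / c₁) ^ p`, so `z' ^ (p ^ n') = ξ w / c₁` with `ξ ^ p = 1`, `ξ ∈ C` (`root_of_unity_mem`), so in `E`,
and `z ^ (p ^ n') = z' ^ (p ^ n') / u' ^ (p ^ n') ∈ E`.
-/

open Polynomial IntermediateField

namespace Pool.Agent.Lib.MP_2f3286_ag.Pp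

variable {C M : Type*} [Field C] [IsAlgClosed C] [CharZero C] [Algebra.IsAlgebraic ℚ C] [Field M]
  [Algebra C M] {E : IntermediateField C M} {p l e : ℕ} {W : ValuationSubring M}
  {T Φ S : SA C M} {x : M}

/-- a root of unity of order dividing `p` is a constant -/
private theorem D8_root {C M : Type*} [Field C] [IsAlgClosed C] [Field M] [Algebra C M] {p : ℕ}
    (hp : p ≠ 0) {ξ : M} (h : ξ ^ p = 1) : ∃ c : C, algebraMap C M c = ξ := by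
  have hint : IsIntegral C ξ := by
    refine ⟨X ^ p - Polynomial.C 1, monic_X_pow_sub_C 1 hp, ?_⟩
    simp [h]
  exact minpoly.mem_range_of_degree_eq_one C ξ
    (IsAlgClosed.degree_eq_one_of_irreducible C (minpoly.irreducible hint))

/-- a fixed element in the class of `z` -/
private theorem D8_trace (ctx : Ctx p l e W T Φ S) (pF : Pre Φ E) {z u : M} (hz : z ≠ 0)
    (hu : u ∈ E) (hzu : Φ.g z = z * u) :
    ∃ u' ∈ E, u' ≠ 0 ∧ Φ.g (z * u') = z * u' := by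
  have hq : 2 ≤ l ^ e := ctx.hl.two_le.trans (Nat.le_self_pow (by have := ctx.he; omega) l)
  obtain ⟨m, hm, hzm⟩ := ctx.orb z
  obtain ⟨c, -, h1, h2⟩ := Gl.exists_trace (ψ := Φ.gC) (Ψ := Φ.g) Φ.hC hq
    (fun m ξ hm hξ => root_q ctx m hm hξ) hz hm hzm
  have hi : ∀ i : ℕ, ∃ v ∈ E, Φ.g^[i] z = z * v := by
    intro i
    induction i with
    | zero => exact ⟨1, one_mem E, by rw [mul_one]; rfl⟩
    | succ i ih =>
      obtain ⟨v, hvE, hv⟩ := ih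
      refine ⟨u * Φ.g v, mul_mem hu ((pF v).2 hvE), ?_⟩
      rw [Function.iterate_succ_apply', hv, map_mul, hzu, mul_assoc]
  choose v hvE hv using hi
  have h3 : ∑ i ∈ Finset.range m, Φ.gC^[i] c • Φ.g^[i] z =
      z * ∑ i ∈ Finset.range m, algebraMap C M (Φ.gC^[i] c) * v i := by
    rw [Finset.mul_sum]
    refine Finset.sum_congr rfl fun i _ => ?_
    rw [hv, Algebra.smul_def]
    ring
  rw [h3] at h1 h2
  refine ⟨_, sum_mem fun i _ => mul_mem (E.algebraMap_mem _) (hvE i), ?_, h2⟩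
  intro h0
  exact h1 (by rw [h0, mul_zero])

/-- a quotient of elements of `S` is in `E` -/
private theorem D8_fr {R : ValuationSubring M} {S : Subring M} {π t : M} (h : LocM W E R S π t)
    {τ : M} (hτ : Fr S τ) : τ ∈ E := by
  obtain ⟨a, ha, b, hb, hb0, hab⟩ := hτ
  have h1 : τ = a / b := by rw [← hab, mul_div_cancel_right₀ _ hb0]
  rw [h1]
  exact div_mem (h.le a ha).1 (h.le b hb).1

/-- the step -/
private theorem D8_step (ctx : Ctx p l e W T Φ S) (h : Ly p W T Φ S x E) {n : ℕ}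
    (hfb : ∀ f ∈ E, Φ.g f = f → W.valuation f = 1 →
      (∀ R : ValuationSubring M, CR W E R →
        ∃ c ∈ E, c ≠ 0 ∧ R.valuation (f * (c ^ p ^ (n + 1))⁻¹) = 1) →
      ∃ g ∈ E, W.valuation g = 1 ∧ W.valuation (f - g ^ p) < 1)
    {z u : M} (hz : z ≠ 0) (hzE : z ^ p ^ (n + 1) ∈ E)
    (hd : DivE (p ^ (n + 1)) E (z ^ p ^ (n + 1))) (hu : u ∈ E) (hzu : Φ.g z = z * u) :
    z ^ p ^ n ∈ E := by
  have hp := ctx.hp
  have hN : p ^ (n + 1) ≠ 0 := pow_ne_zero _ hp.ne_zero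
  obtain ⟨u', hu'E, hu'0, hfix⟩ := D8_trace ctx h.pF hz hu hzu
  have hf'E : (z * u') ^ p ^ (n + 1) ∈ E := by
    rw [mul_pow]
    exact mul_mem hzE (pow_mem hu'E _)
  have hz'0 : z * u' ≠ 0 := mul_ne_zero hz hu'0
  have hf'0 : (z * u') ^ p ^ (n + 1) ≠ 0 := pow_ne_zero _ hz'0
  have hf'fix : Φ.g ((z * u') ^ p ^ (n + 1)) = (z * u') ^ p ^ (n + 1) := by
    rw [map_pow, hfix]
  have hdf' : DivE (p ^ (n + 1)) E ((z * u') ^ p ^ (n + 1)) := by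
    rw [mul_pow]
    exact hd.mul (divE_pow hu'E hu'0)
  obtain ⟨c, hc0, hc, hc1⟩ := pfu ctx h.wF hf'E hf'0 hf'fix
  have hf''E : algebraMap C M c * (z * u') ^ p ^ (n + 1) ∈ E := mul_mem (E.algebraMap_mem _) hf'E
  have hf''fix : Φ.g (algebraMap C M c * (z * u') ^ p ^ (n + 1)) =
      algebraMap C M c * (z * u') ^ p ^ (n + 1) := by
    rw [map_mul, Φ.hC, hc, hf'fix]
  have hdf'' : DivE (p ^ (n + 1)) E (algebraMap C M c * (z * u') ^ p ^ (n + 1)) :=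
    (divE_const hc0).mul hdf'
  obtain ⟨g, hgE, hg1, hg⟩ := hfb _ hf''E hf''fix hc1 (by
    intro R hR
    obtain ⟨S', π, t, hS', -, ε, hε, k, hRε, hk, hk0, hfk⟩ :=
      ur h.ff h.lm hR (Nat.one_le_iff_ne_zero.2 hN) hf''E hc1 hdf'' ∅ (by simp)
    refine ⟨k, D8_fr hS' hk, hk0, ?_⟩
    rw [hfk, mul_assoc, mul_inv_cancel₀ (pow_ne_zero _ hk0), mul_one, hRε])
  obtain ⟨w, hwE, hw⟩ := h.ri _ hf''E g hgE hg1 hg (hdf''.dvd (dvd_pow_self p (Nat.succ_ne_zero n)))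
  obtain ⟨c₁, hc₁⟩ := IsAlgClosed.exists_pow_nat_eq c hp.pos
  have hc₁0 : c₁ ≠ 0 := by
    rintro rfl
    rw [zero_pow hp.ne_zero] at hc₁
    exact hc0 hc₁.symm
  have hcM : algebraMap C M c ≠ 0 := fun h0 =>
    hc0 ((algebraMap C M).injective (by rw [h0, map_zero]))
  have hc₁M : algebraMap C M c₁ ≠ 0 := fun h0 =>
    hc₁0 ((algebraMap C M).injective (by rw [h0, map_zero]))
  have hw0 : w ≠ 0 := by
    rintro rfl
    rw [zero_pow hp.ne_zero] at hw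
    exact mul_ne_zero hcM hf'0 hw.symm
  have hwc0 : w / algebraMap C M c₁ ≠ 0 := div_ne_zero hw0 hc₁M
  have hwf : (w / algebraMap C M c₁) ^ p = (z * u') ^ p ^ (n + 1) := by
    rw [div_pow, hw, ← map_pow, hc₁, mul_div_cancel_left₀ _ hcM]
  have hξ : ((z * u') ^ p ^ n / (w / algebraMap C M c₁)) ^ p = 1 := by
    rw [div_pow, ← pow_mul, ← pow_succ, hwf, div_self hf'0]
  obtain ⟨ξ, hξ'⟩ := D8_root (C := C) hp.ne_zero hξ
  rw [eq_div_iff hwc0] at hξ'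
  have h5 : z ^ p ^ n = algebraMap C M ξ * (w / algebraMap C M c₁) / u' ^ p ^ n := by
    rw [hξ', mul_pow, mul_div_cancel_right₀ _ (pow_ne_zero _ hu'0)]
  rw [h5]
  exact div_mem (mul_mem (E.algebraMap_mem _) (div_mem hwE (E.algebraMap_mem _)))
    (pow_mem hu'E _)

theorem r3E (ctx : Ctx p l e W T Φ S) (hG : Gs C W x) (hx : Φ.g x = x)
    (h : Ly p W T Φ S x E) :
    ∃ a₀ : ℕ, ∀ z, JE p E z → (∃ u ∈ E, Φ.g z = z * u) → z ^ p ^ a₀ ∈ E := by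
  obtain ⟨a₀, ha₀⟩ := fbE ctx hG hx h.pF h.wF h.on.choose_spec
  refine ⟨a₀, ?_⟩
  have key : ∀ n : ℕ, ∀ z u : M, z ≠ 0 → z ^ p ^ n ∈ E → DivE (p ^ n) E (z ^ p ^ n) → u ∈ E →
      Φ.g z = z * u → z ^ p ^ a₀ ∈ E := by
    intro n
    induction n with
    | zero =>
      intro z u _ hzE _ _ _
      rw [pow_zero, pow_one] at hzE
      exact pow_mem hzE _
    | succ n ih =>
      intro z u hz hzE hd hu hzu
      rcases Nat.lt_or_ge a₀ (n + 1) with hn | hn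
      · have h1 := D8_step ctx h (ha₀ (n + 1) hn) hz hzE hd hu hzu
        refine ih z u hz h1 ?_ hu hzu
        refine DivE.root (n := p) ctx.hp.ne_zero ?_
        rw [← pow_mul, ← pow_succ, ← pow_succ']
        exact hd
      · obtain ⟨d, hd'⟩ := Nat.exists_eq_add_of_le hn
        rw [hd', pow_add, pow_mul]
        exact pow_mem hzE _
  rintro z ⟨hz, n, hzE, hd⟩ ⟨u, hu, hzu⟩
  exact key n z u hz hzE hd hu hzu

end Pool.Agent.Lib.MP_2f3286_ag.Pp
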