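import Pool.Agent.Lib.MP_2f3286_ag.Fer.LocExt
import Pool.Agent.Lib.MP_2f3286_ag.Fer.FDef
import Pool.Agent.Lib.MP_2f3286_ag.Fer.CycP

/-!
# The decomposition group at the prime above `p` of a subfield of the cyclotomic field   (module DV)

`F = CyclotomicField p ℚ ⊇ k`, `v` the prime of `k` above `p`, `k_v` the completion. PROOF of `ram_cyc`. The prime `P` of `F` above `v` lies above `p`; the ramification index of `P` over `p` is `p - 1 = [F : ℚ]` (`IsCyclotomicExtension.Rat.ramificationIdx_eq_of_prime`), it is `e(v/p) e(P/v)` (multiplicativity, `Ideal.ramificationIdx_algebra_tower` or so),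
`e(v/p) ≤ [k : ℚ]`, `e(P/v) ≤ [F : k]` (`Ideal.sum_ramification_inertia`), `[k : ℚ] [F : k] = p - 1`, so `e(P/v) = [F : k]`.
PROOF of `dv_all`. There is a prime `P` of `F` above `v` (`Fer.exists_prime_over` or the one used in Gl/FullK.lean; `P.asIdeal.LiesOver v.asIdeal`). `Fer.exists_j_tower_val` (Fer/LocExt.lean): `j₀ : k_v → F_P`, `j`, `ρ`, with `v_P (j₀ y) = v_v (y) ^ n`, `n = [F : k]` (`ram_cyc`). Let `D ⊆ Gal(kb/k)` be the subgroup of all `δ` for which there is `τ` with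
`ι ∘ δ = τ ∘ ι`; for every `τ` there is such a `δ` (`Full`/`PD.exists_restrict`). Let `H ⊆ Gal(F/k)` be its image (`F / k` is Galois, `AlgEquiv.restrictNormalHom F`), `L = F ^ H` the fixed field. Claim: `H = ⊤`, which is the statement. (1) for `x ∈ L`, `ι(x)` is fixed by all `τ`, so it is in `k_v` (`k̄_v / k_v` is Galois, characteristic zero:
`mem_of_fixed` as in PD/Loc.lean). (2) `Gal(F/k)` is abelian, so `ρ` maps `L` to `L`. For `x ∈ L`: `j(ι(ρ x))` is the image of `x ∈ F` in `F_P`, and `ι(ρ x) = y ∈ k_v`, so `x = j₀ y` in `F_P` and the valuation of `x ≠ 0` at `P` is an `n`-th power: `exp(- n m)`. (3) Let `x = ∏_{h ∈ H} h(1 - ζ) ∈ L`; `h(1 - ζ) = 1 - ζ ^ a` with `a` prime to `p` has the same valuation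
`exp(-1)` at `P` as `1 - ζ` (`(1 - ζ ^ a) / (1 - ζ)` is a unit: `IsPrimitiveRoot.associated_sub_one...` or so; `1 - ζ` generates the prime above `p`: the ramification index of `P` over `p` is `p - 1` and `∏_{0 < a < p} (1 - ζ ^ a) = p`). So the valuation of `x` is `exp(- |H|)`, `n ∣ |H|`, and `1 ≤ |H| ≤ |Gal(F/k)| = n`, so `H = ⊤`.
-/

open IsDedekindDomain NumberField

namespace Pool.Agent.Lib.MP_2f3286_ag.Pp

private theorem lies_over_p {p : ℕ} (hp : p.Prime) {k : Type*} [Field k] [NumberField k]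
    (v : HeightOneSpectrum (𝓞 k)) (hv : (p : 𝓞 k) ∈ v.asIdeal) :
    v.asIdeal.LiesOver (Ideal.span {(p : ℤ)}) := by
  have h0 : Prime (p : ℤ) := Nat.prime_iff_prime_int.1 hp
  have h1 : (Ideal.span {(p : ℤ)}).IsPrime := (Ideal.span_singleton_prime h0.ne_zero).2 h0
  have h2 : Ideal.span {(p : ℤ)} ≠ ⊥ := by
    rw [Ne, Ideal.span_singleton_eq_bot]
    exact h0.ne_zero
  have h3 : (Ideal.span {(p : ℤ)}).IsMaximal := h1.isMaximal h2
  refine ⟨h3.eq_of_le (Ideal.comap_ne_top _ v.isPrime.ne_top) ?_⟩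
  rw [Ideal.span_singleton_le_iff_mem]
  show algebraMap ℤ (𝓞 k) (p : ℤ) ∈ v.asIdeal
  rw [map_natCast]
  exact hv

theorem ram_cyc {p : ℕ} (hp : p.Prime) {k : Type*} [Field k] [NumberField k]
    [Algebra k (CyclotomicField p ℚ)] (v : HeightOneSpectrum (𝓞 k)) (hv : (p : 𝓞 k) ∈ v.asIdeal)
    (P : HeightOneSpectrum (𝓞 (CyclotomicField p ℚ))) [P.asIdeal.LiesOver v.asIdeal] :
    v.asIdeal.ramificationIdx' P.asIdeal = Module.finrank k (CyclotomicField p ℚ) := by
  have : Fact p.Prime := ⟨hp⟩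
  have : NeZero p := ⟨hp.ne_zero⟩
  have hcyc : IsCyclotomicExtension {p} ℚ (CyclotomicField p ℚ) :=
    CyclotomicField.isCyclotomicExtension p ℚ
  have h1 : v.asIdeal.LiesOver (Ideal.span {(p : ℤ)}) := lies_over_p hp v hv
  have h2 : P.asIdeal.LiesOver (Ideal.span {(p : ℤ)}) := Ideal.LiesOver.trans P.asIdeal v.asIdeal _
  have h0 : (Ideal.span {(p : ℤ)}) ≠ ⊥ := by
    rw [Ne, Ideal.span_singleton_eq_bot]
    exact_mod_cast hp.ne_zero
  have h3 := Ideal.ramificationIdx'_algebra_tower' (Ideal.span {(p : ℤ)}) v.asIdeal P.asIdeal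
  have h4 : (Ideal.span {(p : ℤ)}).ramificationIdx' P.asIdeal = p - 1 := by
    rw [Ideal.ramificationIdx'_eq_ramificationIdx _ _ h0]
    exact IsCyclotomicExtension.Rat.ramificationIdx_eq_of_prime p (CyclotomicField p ℚ) P.asIdeal
  have h5 : (Ideal.span {(p : ℤ)}).ramificationIdx' v.asIdeal ≤ Module.finrank ℚ k := by
    have : (Ideal.span {(p : ℤ)}).IsMaximal := by
      have h0' : Prime (p : ℤ) := Nat.prime_iff_prime_int.1 hp
      exact ((Ideal.span_singleton_prime h0'.ne_zero).2 h0').isMaximal h0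
    exact Ideal.ramificationIdx_le_finrank (𝓞 k) ℚ k v.asIdeal
  have h6 : v.asIdeal.ramificationIdx' P.asIdeal ≤ Module.finrank k (CyclotomicField p ℚ) := by
    have := v.isMaximal
    have : NoZeroSMulDivisors (𝓞 k) (𝓞 (CyclotomicField p ℚ)) := ⟨fun {a b} h => smul_eq_zero.1 h⟩
    exact Ideal.ramificationIdx_le_finrank (𝓞 (CyclotomicField p ℚ)) k (CyclotomicField p ℚ) P.asIdeal
  have h7 : Module.finrank ℚ k * Module.finrank k (CyclotomicField p ℚ) = p - 1 := by
    rw [Module.finrank_mul_finrank ℚ k (CyclotomicField p ℚ)]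
    rw [IsCyclotomicExtension.finrank (n := p) (CyclotomicField p ℚ)
      (Polynomial.cyclotomic.irreducible_rat hp.pos), Nat.totient_prime hp]
  have h8 : 0 < Module.finrank ℚ k := Module.finrank_pos
  rw [h4, ← h7] at h3
  refine le_antisymm h6 ?_
  by_contra h9
  push Not at h9
  have h10 := Nat.mul_lt_mul_of_le_of_lt h5 h9 h8
  omega

private theorem val_root {p : ℕ} (hp : p.Prime) {F : Type*} [Field F] [NumberField F]
    [IsCyclotomicExtension {p} ℚ F] (P : HeightOneSpectrum (𝓞 F)) (hP : (p : 𝓞 F) ∈ P.asIdeal)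
    {ζ : F} (hζ : IsPrimitiveRoot ζ p) : P.valuation F (ζ - 1) = WithZero.exp (-1 : ℤ) := by
  obtain ⟨P', -, -, h1, h2⟩ := Fer.exists_prime hp hζ
  by_cases h : P = P'
  · rw [h]
    exact h1
  · exact absurd hP (h2 P h)

theorem dv_all {p : ℕ} (hp : p.Prime) {k : Type*} [Field k] [NumberField k]
    [Algebra k (CyclotomicField p ℚ)] {kb : Type*} [Field kb] [Algebra k kb] [IsGalois k kb]
    [Algebra (CyclotomicField p ℚ) kb] [IsScalarTower k (CyclotomicField p ℚ) kb]
    (v : HeightOneSpectrum (𝓞 k)) (hv : (p : 𝓞 k) ∈ v.asIdeal)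
    (ι : kb →ₐ[k] AlgebraicClosure (v.adicCompletion k)) (σ : Gal(kb/k)) :
    ∃ (δ : Gal(kb/k)) (τ : Gal(AlgebraicClosure (v.adicCompletion k)/v.adicCompletion k)),
      (∀ a : kb, ι (δ a) = τ (ι a)) ∧
      ∀ x : CyclotomicField p ℚ, δ (algebraMap _ kb x) = σ (algebraMap _ kb x) := by
  classical
  have : Fact p.Prime := ⟨hp⟩
  have : NeZero p := ⟨hp.ne_zero⟩
  have hcyc : IsCyclotomicExtension {p} ℚ (CyclotomicField p ℚ) :=
    CyclotomicField.isCyclotomicExtension p ℚ
  have : CharZero (v.adicCompletion k) := charZero_of_injective_algebraMap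
    (algebraMap k (v.adicCompletion k)).injective
  have hgal : IsGalois ℚ (CyclotomicField p ℚ) := IsCyclotomicExtension.isGalois {p} ℚ _
  have hgal' : IsGalois k (CyclotomicField p ℚ) := IsGalois.tower_top_of_isGalois ℚ k _
  have hζ := IsCyclotomicExtension.zeta_spec p ℚ (CyclotomicField p ℚ)
  obtain ⟨P, hPv⟩ := exists_prime_over (E := CyclotomicField p ℚ) v
  have hPp : (p : 𝓞 (CyclotomicField p ℚ)) ∈ P.asIdeal := by
    have h1 := hPv.over
    rw [h1, Ideal.mem_comap, map_natCast] at hv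
    exact hv
  obtain ⟨j₀, j, ρ, hj₀v, hj₀, hj, -⟩ := Fer.exists_j_tower_val (F := CyclotomicField p ℚ) v P ι
  rw [ram_cyc hp v hv P] at hj₀v
  let D : Subgroup Gal(kb/k) :=
    { carrier := {δ | ∃ τ : Gal(AlgebraicClosure (v.adicCompletion k)/v.adicCompletion k),
        ∀ a : kb, ι (δ a) = τ (ι a)}
      mul_mem' := by
        rintro a b ⟨τ, hτ⟩ ⟨τ', hτ'⟩
        exact ⟨τ * τ', fun x => by rw [AlgEquiv.mul_apply, hτ, hτ', AlgEquiv.mul_apply]⟩
      one_mem' := ⟨1, fun x => rfl⟩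
      inv_mem' := by
        rintro a ⟨τ, hτ⟩
        refine ⟨τ⁻¹, fun x => ?_⟩
        apply τ.injective
        rw [← hτ, ← AlgEquiv.mul_apply, ← AlgEquiv.mul_apply, mul_inv_cancel, mul_inv_cancel]
        rfl }
  let R : Gal(kb/k) →* Gal(CyclotomicField p ℚ/k) := AlgEquiv.restrictNormalHom (CyclotomicField p ℚ)
  have hR : ∀ (δ : Gal(kb/k)) (x : CyclotomicField p ℚ),
      algebraMap (CyclotomicField p ℚ) kb (R δ x) = δ (algebraMap _ kb x) :=
    fun δ x => AlgEquiv.restrictNormal_commutes δ (CyclotomicField p ℚ) x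
  let H : Subgroup Gal(CyclotomicField p ℚ/k) := D.map R
  set ζ := IsCyclotomicExtension.zeta p ℚ (CyclotomicField p ℚ) with hζdef
  set z : CyclotomicField p ℚ := ∏ h : H, (h : Gal(CyclotomicField p ℚ/k)) (ζ - 1) with hz
  have hzH : ∀ g : H, (g : Gal(CyclotomicField p ℚ/k)) z = z := by
    intro g
    rw [hz, map_prod]
    exact Fintype.prod_equiv (Equiv.mulLeft g) _ _ fun h => rfl
  -- the product is in the local field
  obtain ⟨y, hy⟩ := mem_of_fixed (F := v.adicCompletion k)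
    (y := ι (algebraMap (CyclotomicField p ℚ) kb z)) (by
    intro τ
    obtain ⟨δ, hδ⟩ := exists_restrict ι τ
    rw [← hδ, ← hR]
    have h1 : R δ ∈ H := ⟨δ, ⟨τ, hδ⟩, rfl⟩
    rw [hzH ⟨R δ, h1⟩])
  set x : CyclotomicField p ℚ := (R ρ)⁻¹ z with hx
  have hx1 : j₀ y = algebraMap (CyclotomicField p ℚ) (P.adicCompletion (CyclotomicField p ℚ)) x := by
    apply (algebraMap (P.adicCompletion (CyclotomicField p ℚ))
      (AlgebraicClosure (P.adicCompletion (CyclotomicField p ℚ)))).injective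
    rw [← hj₀, hy, ← hj x, ← hR, hx, ← AlgEquiv.mul_apply, mul_inv_cancel]
    rfl
  have hx2 : P.valuation (CyclotomicField p ℚ) x = WithZero.exp (-(Nat.card H : ℤ)) := by
    rw [hx, hz, map_prod, map_prod]
    have h1 : ∀ h : H, P.valuation (CyclotomicField p ℚ) ((R ρ)⁻¹ ((h : Gal(CyclotomicField p ℚ/k)) (ζ - 1))) =
        WithZero.exp (-1 : ℤ) := by
      intro h
      rw [map_sub, map_sub, map_one, map_one]
      exact val_root hp P hPp
        ((hζ.map_of_injective (h : Gal(CyclotomicField p ℚ/k)).injective).map_of_injective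
          ((R ρ)⁻¹).injective)
    rw [Finset.prod_congr rfl fun h _ => h1 h, Finset.prod_const, Finset.card_univ,
      ← WithZero.exp_nsmul, Nat.card_eq_fintype_card]
    congr 1
    simp
  have hx3 : Valued.v (j₀ y) = WithZero.exp (-(Nat.card H : ℤ)) := by
    rw [hx1, ← hx2]
    exact HeightOneSpectrum.valuedAdicCompletion_eq_valuation' P x
  have hdvd : (Module.finrank k (CyclotomicField p ℚ)) ∣ Nat.card H := by
    rw [hj₀v] at hx3
    have h1 : Valued.v y ≠ 0 := by
      intro h0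
      rw [h0, zero_pow Module.finrank_pos.ne'] at hx3
      exact WithZero.exp_ne_zero hx3.symm
    rw [← WithZero.exp_log h1, ← WithZero.exp_nsmul] at hx3
    have h2 := WithZero.exp_injective hx3
    rw [nsmul_eq_mul] at h2
    rw [← Int.natCast_dvd_natCast]
    exact ⟨-WithZero.log (Valued.v y), by linear_combination h2⟩
  have hcard : Module.finrank k (CyclotomicField p ℚ) ≤ Nat.card H :=
    Nat.le_of_dvd Nat.card_pos hdvd
  have htop : H = ⊤ := by
    apply Subgroup.eq_top_of_le_card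
    rw [IsGalois.card_aut_eq_finrank]
    exact hcard
  have h1 : R σ ∈ H := by
    rw [htop]
    exact Subgroup.mem_top _
  obtain ⟨δ, ⟨τ, hτ⟩, hδ⟩ := h1
  refine ⟨δ, τ, hτ, fun x => ?_⟩
  rw [← hR, ← hR, hδ]

end Pool.Agent.Lib.MP_2f3286_ag.Pp
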