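import Mathlib
import Pool.Agent.Lib.MP_2f3286_ag.Pt.PropDefs

/-!
# The geometrically pro-`p` fundamental group: the definitions

`C` is the field of constants, `M` a field over `C`; `E` are subfields of `M` which contain `C`. Everything is expressed with valuation rings of `M`.
-/

open Polynomial IntermediateField

namespace Pool.Agent.Lib.MP_2f3286_ag.Pp

open Pool.Agent.Lib.MP_2f3286_ag.Pt (DivAt IsPlc)

section
variable {C M : Type*} [Field C] [Field M] [Algebra C M]

/-- The orders of `f` at all places over `C` are divisible by `m`, as orders of elements of `E`. -/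
def DivE (m : ℕ) (E : IntermediateField C M) (f : M) : Prop :=
  ∀ Q : ValuationSubring M, (∀ a : C, algebraMap C M a ∈ Q) →
    ∃ c ∈ E, c ≠ 0 ∧ Q.valuation (f * (c ^ m)⁻¹) = 1

/-- `z` is a root of order a power of `p` of an element of `E` with divisible orders. -/
def JE (p : ℕ) (E : IntermediateField C M) (z : M) : Prop :=
  z ≠ 0 ∧ ∃ n : ℕ, z ^ p ^ n ∈ E ∧ DivE (p ^ n) E (z ^ p ^ n)

/-- `E` is a function field of one variable over `C`. -/
def FF (E : IntermediateField C M) : Prop :=
  ∃ t : E, Transcendental C t ∧ FiniteDimensional (IntermediateField.adjoin C {t}) E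

/-- `M` has the `p`-th roots of all elements whose orders at all places are divisible by `p`. -/
def Rad (p : ℕ) (C M : Type*) [Field C] [Field M] [Algebra C M] : Prop :=
  ∀ ρ : M, ρ ≠ 0 → (∀ Q : ValuationSubring M, (∀ a : C, algebraMap C M a ∈ Q) → DivAt p ρ Q) →
    ∃ β : M, β ^ p = ρ

/-- The field `E(b)`. -/
abbrev Ex (E : IntermediateField C M) (b : M) : IntermediateField C M :=
  E ⊔ IntermediateField.adjoin C {b}

/-- `b` is a `p`-th root of an element of `E` with divisible orders, not in `E`, a unit at `W`. -/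
structure Sp (p : ℕ) (W : ValuationSubring M) (E : IntermediateField C M) (b : M) : Prop where
  pw : b ^ p ∈ E
  nm : b ∉ E
  one : W.valuation b = 1
  dv : DivE p E (b ^ p)

/-- An automorphism of `M` which preserves the constants. -/
structure SA (C M : Type*) [Field C] [Field M] [Algebra C M] where
  /-- the automorphism -/
  g : M ≃+* M
  /-- its restriction to the constants -/
  gC : C ≃+* C
  hC : ∀ c, g (algebraMap C M c) = algebraMap C M (gC c)

/-- The valuation ring `W` has the values of the constants; `p` is a unit. -/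
structure Wv (p : ℕ) (C : Type*) {M : Type*} [Field C] [Field M] [Algebra C M]
    (W : ValuationSubring M) : Prop where
  unit : ∀ y : M, y ≠ 0 → ∃ c : C, c ≠ 0 ∧ W.valuation (algebraMap C M c * y) = 1
  vp : W.valuation (p : M) = 1

/-- An element of `E` with orders divisible by `p` whose residue is a `p`-th power of a residue of an
element of `E` is a `p`-th power in `E`. -/
def RI (p : ℕ) (W : ValuationSubring M) (E : IntermediateField C M) : Prop :=
  ∀ f ∈ E, ∀ g ∈ E, W.valuation g = 1 → W.valuation (f - g ^ p) < 1 → DivE p E f →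
    ∃ u ∈ E, u ^ p = f

/-- `x` is in `W` and has a transcendental residue. -/
structure Gs (C : Type*) {M : Type*} [Field C] [Field M] [Algebra C M] (W : ValuationSubring M)
    (x : M) : Prop where
  tr : Transcendental C x
  mem : x ∈ W
  one : ∀ P : C[X], (∀ i, algebraMap C M (P.coeff i) ∈ W) →
    (∃ i, W.valuation (algebraMap C M (P.coeff i)) = 1) → W.valuation (aeval x P) = 1

/-- `E` has a basis of `n` elements over `C(x)` whose residues are linearly independent. -/
def ON (W : ValuationSubring M) (x : M) (E : IntermediateField C M) (n : ℕ) : Prop :=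
  x ∈ E ∧ ∃ u : Fin n → M, (∀ i, u i ∈ E ∧ u i ∈ W) ∧
    (∀ f ∈ E, ∃ r : Fin n → M, (∀ i, r i ∈ IntermediateField.adjoin C {x}) ∧
      f = ∑ i, r i * u i) ∧
    ∀ r : Fin n → M, (∀ i, r i ∈ IntermediateField.adjoin C {x} ∧ r i ∈ W) →
      (∃ i, W.valuation (r i) = 1) → W.valuation (∑ i, r i * u i) = 1

/-- `y ^ p = h(x)` has good reduction at `W`. -/
structure Bs (p : ℕ) (W : ValuationSubring M) (x y : M) (h : C[X]) : Prop where
  gs : Gs C W x
  eq : y ^ p = aeval x h
  dg : p.Coprime h.natDegree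
  sep : h.Separable
  int : ∀ i, algebraMap C M (h.coeff i) ∈ W
  lead : W.valuation (algebraMap C M h.leadingCoeff) = 1
  df : ∀ α β : C, h.eval α = 0 → h.eval β = 0 → α ≠ β →
    W.valuation (algebraMap C M (α - β)) = 1

/-- `R` is the valuation ring composed of `W` and a place of the residue field of `E`. -/
structure CR (W : ValuationSubring M) (E : IntermediateField C M) (R : ValuationSubring M) :
    Prop where
  le : R ≤ W
  const : ∀ c : C, algebraMap C M c ∈ W → algebraMap C M c ∈ R
  ne : ∃ g ∈ E, g ∈ W ∧ g ∉ R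

/-- `S` is a Noetherian ring, local, dominated by `R`, with maximal ideal `(π, t)`, with `π` a constant
which generates the ideal of the elements of `S` with residue zero at `W`. -/
structure LocM (W : ValuationSubring M) (E : IntermediateField C M) (R : ValuationSubring M)
    (S : Subring M) (π t : M) : Prop where
  le : ∀ u ∈ S, u ∈ E ∧ u ∈ R
  noeth : IsNoetherianRing S
  inv : ∀ u ∈ S, R.valuation u = 1 → u⁻¹ ∈ S
  piS : π ∈ S
  piC : ∃ c : C, algebraMap C M c = π
  pi0 : π ≠ 0
  pi1 : W.valuation π < 1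
  div : ∀ u ∈ S, W.valuation u < 1 → u * π⁻¹ ∈ S
  tS : t ∈ S
  t1 : R.valuation t < 1
  gen : ∀ u ∈ S, R.valuation u < 1 → ∃ a ∈ S, ∃ b ∈ S, u = a * π + b * t

/-- `τ` is a quotient of two elements of `S`. -/
def Fr (S : Subring M) (τ : M) : Prop := ∃ a ∈ S, ∃ b ∈ S, b ≠ 0 ∧ τ * b = a

/-- `E` has regular local rings at the points of the special fibre. -/
def LM (W : ValuationSubring M) (E : IntermediateField C M) : Prop :=
  ∀ R : ValuationSubring M, CR W E R → ∀ T : Finset M, (∀ τ ∈ T, τ ∈ E) →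
    ∃ (S : Subring M) (π t : M), LocM W E R S π t ∧ ∀ τ ∈ T, Fr S τ

/-- The local situation at a place that does not divide `p`: an inertia element `T`, a Frobenius
element `Φ` with `Φ T = T ^ q S Φ`, `S` an inertia element whose action has orders prime to `p`. -/
structure Ctx (p l e : ℕ) (W : ValuationSubring M) (T Φ S : SA C M) : Prop where
  hp : p.Prime
  hl : l.Prime
  hpl : l ≠ p
  he : 1 ≤ e
  wv : Wv p C W
  vl : W.valuation (l : M) < 1
  stT : ∀ c : C, algebraMap C M (T.gC c) ∈ W ↔ algebraMap C M c ∈ W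
  stF : ∀ c : C, algebraMap C M (Φ.gC c) ∈ W ↔ algebraMap C M c ∈ W
  stS : ∀ c : C, algebraMap C M (S.gC c) ∈ W ↔ algebraMap C M c ∈ W
  cT : ∀ c : C, algebraMap C M c ∈ W →
    W.valuation (algebraMap C M (T.gC c) - algebraMap C M c) < 1
  cF : ∀ c : C, algebraMap C M c ∈ W →
    W.valuation (algebraMap C M (Φ.gC c) - algebraMap C M c ^ l ^ e) < 1
  cS : ∀ c : C, algebraMap C M c ∈ W →
    W.valuation (algebraMap C M (S.gC c) - algebraMap C M c) < 1
  mu : ∀ (n : ℕ) (ξ : C), ξ ^ p ^ n = 1 → T.gC ξ = ξ ∧ Φ.gC ξ = ξ ^ l ^ e ∧ S.gC ξ = ξ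
  rel : ∀ z : M, Φ.g (T.g z) = T.g^[l ^ e] (S.g (Φ.g z))
  relC : ∀ c : C, Φ.gC (T.gC c) = T.gC^[l ^ e] (S.gC (Φ.gC c))
  per : ∀ (z : M) (c : C), ∃ k : ℕ, ¬ p ∣ k ∧ S.g^[k] z = z ∧ S.gC^[k] c = c
  orb : ∀ z : M, ∃ m, 1 ≤ m ∧ Φ.g^[m] z = z

/-- `A` preserves `E`. -/
def Pre (A : SA C M) (E : IntermediateField C M) : Prop := ∀ f : M, A.g f ∈ E ↔ f ∈ E

/-- `A` acts trivially on the residues of the elements of `E` at `W`. -/
def Tr (W : ValuationSubring M) (A : SA C M) (E : IntermediateField C M) : Prop :=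
  ∀ f ∈ E, f ∈ W → A.g f ∈ W ∧ W.valuation (A.g f - f) < 1

/-- The properties of the subfields `E` which are shown by induction. -/
structure Ly (p : ℕ) (W : ValuationSubring M) (T Φ S : SA C M) (x : M)
    (E : IntermediateField C M) : Prop where
  ff : FF E
  pT : Pre T E
  pF : Pre Φ E
  pS : Pre S E
  tT : Tr W T E
  tS : Tr W S E
  wF : ∀ f ∈ E, Φ.g f ∈ W ↔ f ∈ W
  ri : RI p W E
  on : ∃ j, ON W x E (p ^ j)
  lm : LM W E

end

end Pool.Agent.Lib.MP_2f3286_ag.Pp
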