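import Mathlib

/-!
# An etale extension of a local ring   (module E2)

`S` is a Noetherian ring, local, dominated by `R`, with maximal ideal `(π, t)`; `b ^ p = ε` is a unit of `S`, `p` is a unit at `R`. PROOF. `S₁ = {∑ i < p, a_i b ^ i | a_i ∈ S}` is a ring (`b ^ p ∈ S`), finitely generated as an `S`-module, so Noetherian, contained in `R` (`b ^ p ∈ R` gives `b ∈ R`).
`S' = {x / y | x, y ∈ S₁, R(y) = 1}`, the localization of `S₁` at the prime ideal `{x | R(x) < 1}`, Noetherian (`Localization.AtPrime` is Noetherian; `S'` is its image in `M`, or show it directly: every ideal of `S'` is generated by its intersection with `S₁`). All claims are clear except the last one, which follows from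
(*) for `x ∈ S₁` with `R(x) < 1` there are `y ∈ S₁` with `R(y) = 1`, and `c, d ∈ S₁` with `x y = c π + d t`.
PROOF of (*). `x = G(b)`, `G ∈ S[X]`. Let `𝓀` be the residue field of `R`, `κ ⊆ 𝓀` the image of `S`, a field (`hinv`), the quotient of `S` by its maximal ideal, which is `(π, t)` by `gen`. `b̄ ∈ 𝓀` the residue of `b`, `h̄ ∈ κ[X]` its minimal polynomial. `X ^ p - ε̄ = h̄ ḡ`; it is separable over `κ` (`p ≠ 0`, `ε̄ ≠ 0`), so
`ḡ(b̄) ≠ 0`. `Ḡ(b̄) = 0`, so `Ḡ = h̄ m̄`. Lift `h̄`, `ḡ`, `m̄` to `h`, `g`, `m ∈ S[X]`: the coefficients of `X ^ p - ε - h g` and of `G - h m` are in `S` with residue zero, so of the form `c π + d t` with `c, d ∈ S`: `X ^ p - ε = h g + π A + t B`, `G = h m + π A' + t B'`. At `b`: `h(b) g(b) = - π A(b) - t B(b)`, and with `y = g(b)`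
(`R(y) = 1`): `y x = m(b) h(b) g(b) + y (π A'(b) + t B'(b))` is of the form `c π + d t`, `c, d ∈ S₁`.
-/

open Polynomial

namespace Pool.Agent.Lib.MP_2f3286_ag.Pp

section
variable {M : Type*} [Field M]

/-- the ring generated by `b` over `S` -/
private abbrev E2A (S : Subring M) (b : M) : Subalgebra S M :=
  Algebra.adjoin S ((({b} : Finset M)) : Set M)

private theorem E2_mem {S : Subring M} {b x : M} : x ∈ E2A S b ↔ ∃ P : S[X], aeval b P = x := by
  unfold E2A
  rw [Finset.coe_singleton, Algebra.adjoin_singleton_eq_range_aeval]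
  exact AlgHom.mem_range _

private theorem E2_b (S : Subring M) (b : M) : b ∈ E2A S b := E2_mem.2 ⟨X, aeval_X b⟩

private theorem E2_S {S : Subring M} (b : M) {u : M} (hu : u ∈ S) : u ∈ E2A S b :=
  E2_mem.2 ⟨C ⟨u, hu⟩, by rw [aeval_C]; rfl⟩

private theorem E2_repr {p : ℕ} (hp : p.Prime) {S : Subring M} {ε b : M} (hε : ε ∈ S)
    (hb : b ^ p = ε) {x : M} (hx : x ∈ E2A S b) :
    ∃ a : ℕ → M, (∀ i, a i ∈ S) ∧ x = ∑ i ∈ Finset.range p, a i * b ^ i := by
  obtain ⟨P, rfl⟩ := E2_mem.1 hx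
  set Q : S[X] := X ^ p - C ⟨ε, hε⟩ with hQ
  have hQm : Q.Monic := monic_X_pow_sub_C _ hp.ne_zero
  have hQd : Q.natDegree = p := natDegree_X_pow_sub_C
  have hQ1 : Q ≠ 1 := by
    intro h
    rw [h, natDegree_one] at hQd
    exact hp.ne_zero hQd.symm
  have hQ0 : aeval b Q = 0 := by
    rw [hQ, map_sub, map_pow, aeval_X, aeval_C, hb]
    exact sub_self _
  have h1 : aeval b (P %ₘ Q) = aeval b P := aeval_modByMonic_eq_self_of_root hQ0
  have h2 : (P %ₘ Q).natDegree < p := by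
    have := natDegree_modByMonic_lt P hQm hQ1
    rwa [hQd] at this
  refine ⟨fun i => ((P %ₘ Q).coeff i : M), fun i => ((P %ₘ Q).coeff i).2, ?_⟩
  rw [← h1, aeval_eq_sum_range' h2]
  rfl

/-- the statement (*) -/
private theorem E2_star {p : ℕ} (hp : p.Prime) (S : Subring M)
    (R : ValuationSubring M) (hS : ∀ u ∈ S, u ∈ R) (hinv : ∀ u ∈ S, R.valuation u = 1 → u⁻¹ ∈ S)
    {π t : M} (gen : ∀ u ∈ S, R.valuation u < 1 → ∃ a ∈ S, ∃ b ∈ S, u = a * π + b * t)
    (vp : R.valuation (p : M) = 1) {ε b : M} (hε : ε ∈ S) (hbR : b ∈ R)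
    (hb1 : R.valuation b = 1) (hb : b ^ p = ε) {x : M} (hx : x ∈ E2A S b)
    (hx1 : R.valuation x < 1) :
    ∃ y ∈ E2A S b, R.valuation y = 1 ∧ ∃ c ∈ E2A S b, ∃ d ∈ E2A S b, x * y = c * π + d * t := by
  classical
  let ι : S →+* R :=
    { toFun := fun u => ⟨u, hS u u.2⟩
      map_one' := rfl
      map_mul' := fun _ _ => rfl
      map_zero' := rfl
      map_add' := fun _ _ => rfl }
  let bR : R := ⟨b, hbR⟩
  let res : R →+* IsLocalRing.ResidueField R := IsLocalRing.residue R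
  have hres : ∀ u : R, res u = 0 ↔ R.valuation (u : M) < 1 := fun u => by
    change IsLocalRing.residue R u = 0 ↔ _
    rw [IsLocalRing.residue_eq_zero_iff, ValuationSubring.valuation_lt_one_iff]
  let φ : S →+* IsLocalRing.ResidueField R := res.comp ι
  have hφ0 : ∀ u : S, φ u = 0 ↔ R.valuation (u : M) < 1 := fun u => hres (ι u)
  have hE : ∀ G : S[X], ((eval₂ ι bR G : R) : M) = aeval b G := by
    intro G
    rw [aeval_def]
    exact hom_eval₂ G ι R.subtype bR
  have hEφ : ∀ G : S[X], res (eval₂ ι bR G) = eval₂ φ (res bR) G := fun G => hom_eval₂ G ι res bR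
  have hEv : ∀ G : S[X], eval₂ φ (res bR) G = 0 ↔ R.valuation (aeval b G) < 1 := by
    intro G
    rw [← hEφ, hres, hE]
  let P : Ideal S := RingHom.ker φ
  have hPm : ∀ u : S, u ∈ P ↔ R.valuation (u : M) < 1 := fun u => by
    rw [← hφ0]
    exact RingHom.mem_ker
  have hPmax : P.IsMaximal := by
    rw [Ideal.isMaximal_iff]
    refine ⟨fun h1 => ?_, fun J u hPJ hu huJ => ?_⟩
    · rw [hPm] at h1
      have h2 : R.valuation (((1 : S) : M)) = 1 := by
        rw [show ((1 : S) : M) = 1 from rfl, map_one]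
      rw [h2] at h1
      exact lt_irrefl _ h1
    · have hu1 : R.valuation (u : M) = 1 := by
        by_contra hne
        exact hu ((hPm u).2 (lt_of_le_of_ne ((R.valuation_le_one_iff _).2 (hS u u.2)) hne))
      have hu0 : (u : M) ≠ 0 := by
        intro h0
        rw [h0, map_zero] at hu1
        exact zero_ne_one hu1
      have hone : (1 : S) = ⟨(u : M)⁻¹, hinv u u.2 hu1⟩ * u := by
        apply Subtype.ext
        change (1 : M) = (u : M)⁻¹ * u
        rw [inv_mul_cancel₀ hu0]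
      rw [hone]
      exact J.mul_mem_left _ huJ
  let _ : Field (S ⧸ P) := Ideal.Quotient.field P
  let ψ : S ⧸ P →+* IsLocalRing.ResidueField R := Ideal.Quotient.lift P φ (fun a ha => ha)
  have hψ : ψ.comp (Ideal.Quotient.mk P) = φ := by
    ext a
    rfl
  have hev : ∀ G : S[X], eval₂ ψ (res bR) (G.map (Ideal.Quotient.mk P)) = eval₂ φ (res bR) G := by
    intro G
    rw [eval₂_map, hψ]
  let I : Ideal (S ⧸ P)[X] := RingHom.ker (eval₂RingHom ψ (res bR))
  set hb' : (S ⧸ P)[X] := Submodule.IsPrincipal.generator I with hhb'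
  have hb'0 : eval₂ ψ (res bR) hb' = 0 := by
    have : hb' ∈ I := Submodule.IsPrincipal.generator_mem I
    exact this
  have hdvd : ∀ G : (S ⧸ P)[X], eval₂ ψ (res bR) G = 0 → hb' ∣ G := by
    intro G hG
    rw [hhb', ← Submodule.IsPrincipal.mem_iff_generator_dvd]
    exact hG
  -- the polynomial `X ^ p - ε`
  set f : S[X] := X ^ p - C ⟨ε, hε⟩ with hf
  have hf0 : aeval b f = 0 := by
    rw [hf, map_sub, map_pow, aeval_X, aeval_C, hb]
    exact sub_self _
  obtain ⟨gb, hgb⟩ := hdvd (f.map (Ideal.Quotient.mk P)) (by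
    rw [hev, hEv, hf0, map_zero]
    exact zero_lt_one)
  obtain ⟨hL, hhL⟩ := map_surjective (Ideal.Quotient.mk P) Ideal.Quotient.mk_surjective hb'
  obtain ⟨g, hg⟩ := map_surjective (Ideal.Quotient.mk P) Ideal.Quotient.mk_surjective gb
  -- the submodule
  let N : Submodule (E2A S b) M := Submodule.span (E2A S b) {π, t}
  have hN1 : ∀ c d : M, c ∈ E2A S b → d ∈ E2A S b → c * π + d * t ∈ N := by
    intro c d hc hd
    exact Submodule.mem_span_pair.2 ⟨⟨c, hc⟩, ⟨d, hd⟩, rfl⟩
  have hN : ∀ F : S[X], F.map (Ideal.Quotient.mk P) = 0 → aeval b F ∈ N := by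
    intro F hF
    rw [aeval_eq_sum_range]
    refine Submodule.sum_mem _ (fun i _ => ?_)
    have h1 : F.coeff i ∈ P := by
      rw [← Ideal.Quotient.eq_zero_iff_mem, ← coeff_map, hF, coeff_zero]
    obtain ⟨a, ha, a', ha', haa⟩ := gen _ (F.coeff i).2 ((hPm _).1 h1)
    have h2 : F.coeff i • b ^ i = (a * b ^ i) * π + (a' * b ^ i) * t := by
      change (F.coeff i : M) * b ^ i = _
      rw [haa]
      ring
    rw [h2]
    have hbi : b ^ i ∈ E2A S b := Subalgebra.pow_mem _ (E2_b S b) i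
    exact hN1 _ _ (Subalgebra.mul_mem _ (E2_S b ha) hbi) (Subalgebra.mul_mem _ (E2_S b ha') hbi)
  -- the element
  obtain ⟨G, rfl⟩ := E2_mem.1 hx
  obtain ⟨mb, hmb⟩ := hdvd (G.map (Ideal.Quotient.mk P)) (by
    rw [hev, hEv]
    exact hx1)
  obtain ⟨m, hm⟩ := map_surjective (Ideal.Quotient.mk P) Ideal.Quotient.mk_surjective mb
  have hF1 : aeval b (f - hL * g) ∈ N := hN _ (by
    rw [Polynomial.map_sub, Polynomial.map_mul, hhL, hg, hgb, sub_self])
  have hF2 : aeval b (G - hL * m) ∈ N := hN _ (by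
    rw [Polynomial.map_sub, Polynomial.map_mul, hhL, hm, hmb, sub_self])
  have hgA : aeval b g ∈ E2A S b := E2_mem.2 ⟨g, rfl⟩
  have hmA : aeval b m ∈ E2A S b := E2_mem.2 ⟨m, rfl⟩
  have hgR : aeval b g ∈ R := by
    rw [← hE]
    exact (eval₂ ι bR g).2
  refine ⟨aeval b g, hgA, ?_, ?_⟩
  · by_contra hne
    have hlt : R.valuation (aeval b g) < 1 :=
      lt_of_le_of_ne ((R.valuation_le_one_iff _).2 hgR) hne
    have hg0 : eval₂ ψ (res bR) gb = 0 := by
      rw [← hg, hev, hEv]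
      exact hlt
    have hd1 : eval₂ ψ (res bR) (derivative (f.map (Ideal.Quotient.mk P))) = 0 := by
      rw [hgb, derivative_mul, eval₂_add, eval₂_mul, eval₂_mul, hb'0, hg0, mul_zero, zero_mul,
        add_zero]
    have hd2 : eval₂ ψ (res bR) (derivative (f.map (Ideal.Quotient.mk P))) =
        (p : IsLocalRing.ResidueField R) * (res bR) ^ (p - 1) := by
      rw [derivative_map, hev, hf, derivative_sub, derivative_C, sub_zero, derivative_X_pow,
        eval₂_mul, eval₂_pow, eval₂_X, eval₂_C, map_natCast]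
    rw [hd2] at hd1
    rcases mul_eq_zero.1 hd1 with h1 | h1
    · have h2 : res ((p : ℕ) : R) = 0 := by
        rw [map_natCast]
        exact h1
      rw [hres] at h2
      have h3 : (((p : ℕ) : R) : M) = (p : M) := by
        exact map_natCast R.subtype p
      rw [h3, vp] at h2
      exact lt_irrefl _ h2
    · have hp1 : p - 1 ≠ 0 := by
        have := hp.two_le
        omega
      have h2 : res bR = 0 := (pow_eq_zero_iff hp1).1 h1
      rw [hres] at h2
      change R.valuation b < 1 at h2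
      rw [hb1] at h2
      exact lt_irrefl _ h2
  · have hfin : aeval b G * aeval b g ∈ N := by
      have h1 : aeval b G * aeval b g =
          (⟨aeval b g, hgA⟩ : E2A S b) • aeval b (G - hL * m) -
            (⟨aeval b m, hmA⟩ : E2A S b) • aeval b (f - hL * g) := by
        change aeval b G * aeval b g = aeval b g * aeval b (G - hL * m) -
            aeval b m * aeval b (f - hL * g)
        rw [map_sub, map_sub, map_mul, map_mul, hf0]
        ring
      rw [h1]
      exact Submodule.sub_mem _ (Submodule.smul_mem _ _ hF2) (Submodule.smul_mem _ _ hF1)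
    obtain ⟨c, d, hcd⟩ := Submodule.mem_span_pair.1 hfin
    exact ⟨c, c.2, d, d.2, hcd.symm⟩

private theorem E2_int {p : ℕ} (hp : p.Prime) {S : Subring M} {ε b : M} (hε : ε ∈ S)
    (hb : b ^ p = ε) : IsIntegral S b := by
  refine ⟨X ^ p - C (⟨ε, hε⟩ : S), monic_X_pow_sub_C _ hp.ne_zero, ?_⟩
  rw [eval₂_sub, eval₂_X_pow, eval₂_C, hb]
  exact sub_self _

private theorem E2_noe {S : Subring M} [IsNoetherianRing S] {b : M} (h : IsIntegral S b) :
    IsNoetherianRing (E2A S b) := by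
  have h1 : IsNoetherian S (E2A S b) := isNoetherian_adjoin_finset {b} (fun x hx => by
    rw [Finset.mem_singleton] at hx
    rw [hx]
    exact h)
  exact isNoetherian_of_tower S h1

/-- localization as a subring of a field -/
private theorem E2_loc {A : Type*} [CommRing A] [IsNoetherianRing A] (g : A →+* M)
    (T : Submonoid A) (hT : ∀ y ∈ T, g y ≠ 0) :
    ∃ S' : Subring M, IsNoetherianRing S' ∧
      ∀ u : M, u ∈ S' ↔ ∃ x y : A, y ∈ T ∧ u * g y = g x := by
  have hg : ∀ y : T, IsUnit (g y) := fun y => IsUnit.mk0 _ (hT y y.2)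
  have hnl : IsNoetherianRing (Localization T) :=
    IsLocalization.isNoetherianRing T (Localization T) inferInstance
  refine ⟨(IsLocalization.lift (S := Localization T) hg).range, isNoetherianRing_range _,
    fun u => ?_⟩
  constructor
  · rintro ⟨z, rfl⟩
    obtain ⟨x, y, rfl⟩ := IsLocalization.exists_mk'_eq T z
    refine ⟨x, y, y.2, ?_⟩
    have h1 := (IsLocalization.lift_mk'_spec (S := Localization T) (g := g) (hg := hg) x
      _ y).1 rfl
    rw [mul_comm]
    exact h1.symm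
  · rintro ⟨x, y, hy, hu⟩
    refine ⟨IsLocalization.mk' (Localization T) x (⟨y, hy⟩ : T), ?_⟩
    refine (IsLocalization.lift_mk'_spec (S := Localization T) (g := g) (hg := hg) _ _ _).2 ?_
    rw [← hu, mul_comm]

end

theorem eta {p : ℕ} (hp : p.Prime) {M : Type*} [Field M] (S : Subring M) [IsNoetherianRing S]
    (R : ValuationSubring M) (hS : ∀ u ∈ S, u ∈ R) (hinv : ∀ u ∈ S, R.valuation u = 1 → u⁻¹ ∈ S)
    {π t : M} (hπ : π ∈ S) (ht : t ∈ S) (hπ1 : R.valuation π < 1) (ht1 : R.valuation t < 1)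
    (gen : ∀ u ∈ S, R.valuation u < 1 → ∃ a ∈ S, ∃ b ∈ S, u = a * π + b * t)
    (vp : R.valuation (p : M) = 1) {ε b : M} (hε : ε ∈ S) (hε1 : R.valuation ε = 1)
    (hb : b ^ p = ε) :
    ∃ S' : Subring M, IsNoetherianRing S' ∧ S ≤ S' ∧ b ∈ S' ∧ (∀ u ∈ S', u ∈ R) ∧
      (∀ u ∈ S', R.valuation u = 1 → u⁻¹ ∈ S') ∧
      (∀ u ∈ S', ∃ a a' : ℕ → M, (∀ i, a i ∈ S ∧ a' i ∈ S) ∧
        R.valuation (∑ i ∈ Finset.range p, a' i * b ^ i) = 1 ∧
        u * ∑ i ∈ Finset.range p, a' i * b ^ i = ∑ i ∈ Finset.range p, a i * b ^ i) ∧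
      ∀ u ∈ S', R.valuation u < 1 → ∃ c ∈ S', ∃ d ∈ S', u = c * π + d * t := by
  have hb1 : R.valuation b = 1 := by
    have h1 : R.valuation b ^ p = 1 := by rw [← map_pow, hb, hε1]
    exact (pow_eq_one_iff_of_nonneg zero_le hp.ne_zero).1 h1
  have hbR : b ∈ R := (R.valuation_le_one_iff b).1 hb1.le
  have hAR : ∀ x ∈ E2A S b, x ∈ R := by
    intro x hx
    obtain ⟨P, rfl⟩ := E2_mem.1 hx
    rw [aeval_eq_sum_range]
    refine sum_mem (fun i _ => ?_)
    change (P.coeff i : M) * b ^ i ∈ R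
    exact mul_mem (hS _ (P.coeff i).2) (pow_mem hbR i)
  have hnoe : IsNoetherianRing (E2A S b) := E2_noe (E2_int hp hε hb)
  obtain ⟨S', hS'n, hS'm⟩ := E2_loc (A := E2A S b) (E2A S b).val.toRingHom
    { carrier := {y | R.valuation (y : M) = 1}
      one_mem' := by
        change R.valuation ((1 : M)) = 1
        rw [map_one]
      mul_mem' := fun {a c} ha hc => by
        change R.valuation ((a : M) * (c : M)) = 1
        rw [map_mul, ha, hc, one_mul] } (fun y hy h0 => by
      have h1 : R.valuation (y : M) = 1 := hy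
      have h2 : (y : M) = 0 := h0
      rw [h2, map_zero] at h1
      exact zero_ne_one h1)
  have hmem : ∀ u : M, u ∈ S' ↔
      ∃ x ∈ E2A S b, ∃ y ∈ E2A S b, R.valuation y = 1 ∧ u * y = x := by
    intro u
    rw [hS'm]
    constructor
    · rintro ⟨x, y, hy, h⟩
      exact ⟨x, x.2, y, y.2, hy, h⟩
    · rintro ⟨x, hx, y, hy, hy1, h⟩
      exact ⟨⟨x, hx⟩, ⟨y, hy⟩, hy1, h⟩
  have hSL : ∀ u ∈ E2A S b, u ∈ S' := fun u hu =>
    (hmem u).2 ⟨u, hu, 1, Subalgebra.one_mem _, map_one _, mul_one _⟩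
  refine ⟨S', hS'n, fun u hu => hSL u (E2_S b hu), hSL b (E2_b S b), ?_,
    ?_, ?_, ?_⟩
  · intro u hu
    obtain ⟨x, hx, y, hy, hy1, hxy⟩ := (hmem u).1 hu
    rw [← R.valuation_le_one_iff]
    have h1 : R.valuation u = R.valuation x := by
      rw [← hxy, map_mul, hy1, mul_one]
    rw [h1, R.valuation_le_one_iff]
    exact hAR x hx
  · intro u hu hu1
    obtain ⟨x, hx, y, hy, hy1, hxy⟩ := (hmem u).1 hu
    have h1 : R.valuation x = 1 := by
      rw [← hxy, map_mul, hy1, hu1, one_mul]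
    have hu0 : u ≠ 0 := by
      intro h0
      rw [h0, map_zero] at hu1
      exact zero_ne_one hu1
    refine (hmem _).2 ⟨y, hy, x, hx, h1, ?_⟩
    rw [← hxy, ← mul_assoc, inv_mul_cancel₀ hu0, one_mul]
  · intro u hu
    obtain ⟨x, hx, y, hy, hy1, hxy⟩ := (hmem u).1 hu
    obtain ⟨a, ha, hxa⟩ := E2_repr hp hε hb hx
    obtain ⟨a', ha', hya⟩ := E2_repr hp hε hb hy
    refine ⟨a, a', fun i => ⟨ha i, ha' i⟩, ?_, ?_⟩
    · rw [← hya]
      exact hy1
    · rw [← hya, ← hxa]
      exact hxy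
  · intro u hu hu1
    obtain ⟨x, hx, y, hy, hy1, hxy⟩ := (hmem u).1 hu
    have h1 : R.valuation x < 1 := by
      rw [← hxy, map_mul, hy1, mul_one]
      exact hu1
    obtain ⟨z, hz, hz1, c, hc, d, hd, hcd⟩ := E2_star hp S R hS hinv gen vp hε hbR hb1 hb hx h1
    have hyz : R.valuation (y * z) = 1 := by rw [map_mul, hy1, hz1, one_mul]
    have hyz0 : y * z ≠ 0 := by
      intro h0
      rw [h0, map_zero] at hyz
      exact zero_ne_one hyz
    have hyzA : y * z ∈ E2A S b := Subalgebra.mul_mem _ hy hz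
    refine ⟨c * (y * z)⁻¹, (hmem _).2 ⟨c, hc, y * z, hyzA, hyz, ?_⟩,
      d * (y * z)⁻¹, (hmem _).2 ⟨d, hd, y * z, hyzA, hyz, ?_⟩, ?_⟩
    · rw [mul_assoc, inv_mul_cancel₀ hyz0, mul_one]
    · rw [mul_assoc, inv_mul_cancel₀ hyz0, mul_one]
    · have h2 : u * (y * z) = c * π + d * t := by
        rw [← hcd, ← hxy, mul_assoc]
      have h3 : u = (c * π + d * t) * (y * z)⁻¹ := by
        rw [← h2, mul_assoc, mul_inv_cancel₀ hyz0, mul_one]
      rw [h3]
      ring

end Pool.Agent.Lib.MP_2f3286_ag.Pp
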