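import Pool.Agent.Lib.MP_2f3286_ag.Pp.C2
import Pool.Agent.Lib.MP_2f3286_ag.Pp.E1
import Pool.Agent.Lib.MP_2f3286_ag.Pp.E2

/-!
# The local rings of `E(b)`   (module E3)

PROOF of `lm_step`. Let `R` with `CR W (Ex E b) R` and a finite `T' ⊆ Ex E b`. (1) `CR W E R`: if all elements of `E ∩ W` were in `R`: `g ∈ Ex E b ∩ W`, `g ∉ R`; `g = ∑ a_i b ^ i` (`ex_repr`), `a_i ∈ W` (`ex_mem`), so `a_i ∈ R`, and `b ^ p ∈ E ∩ W ⊆ R`, `b ∈ R`, `g ∈ R`. Contradiction. (2) Write every `τ ∈ T'` as `∑ a_i b ^ i`,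
`T` the set of all these `a_i ∈ E`. `ur` (E1) with `m = p`, `f = b ^ p` (`W(f) = 1`, `hs.dv`), `T`: `S`, `π`, `t`, `f = ε h ^ p`, `Fr S h`, `h ∈ E` (quotient of elements of `S`), `W(ε) = 1` (`ε`, `ε⁻¹ ∈ S ⊆ R ⊆ W`), `W(h) = 1`. `b₁ = b / h`, `b₁ ^ p = ε`. (3) `eta` (E2) for `S`, `R`, `b₁` (`R(p) = 1`: `p` is a constant,
`W(p) = 1`, `CR.const` for `p⁻¹`): `S'`. `LocM W (Ex E b) R S' π t`: `le`: elements of `S'` are quotients of elements of `Ex E b`. `div`: let `u ∈ S'`, `W(u) < 1`; `u y = x`, `y = ∑ a'_i b₁ ^ i`, `R(y) = 1` so `W(y) = 1` (`R ≤ W`), `x = ∑ a_i b₁ ^ i`, `W(x) < 1`; `ex_mem` for `b₁` (`Sp p W E b₁`: `b₁ ^ p = ε ∈ E`,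
`b₁ ∉ E` as `b = b₁ h ∉ E`, `W(b₁) = 1`, `DivE p E ε` as `ε = b ^ p / h ^ p`): `W(a_i) < 1`, so `a_i / π ∈ S` (`h.div`), so `u / π = (∑ (a_i / π) b₁ ^ i) / y ∈ S'` (`y⁻¹ ∈ S'`). The others are clear. (4) `Fr S' τ`: `τ = ∑ a_i b ^ i`, `a_i` and `b = b₁ h` are quotients of elements of `S'`; the quotients of elements of `S'` form
a field.
-/

open Polynomial IntermediateField

namespace Pool.Agent.Lib.MP_2f3286_ag.Pp

section e3aux

variable {M : Type*} [Field M]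

theorem e3_mem_pow {R : ValuationSubring M} {z : M} {n : ℕ} (hn : n ≠ 0) (h : z ^ n ∈ R) :
    z ∈ R := by
  rw [← ValuationSubring.valuation_le_one_iff] at h ⊢
  rw [map_pow] at h
  exact (pow_le_one_iff hn).1 h

theorem e3_pow_one {W : ValuationSubring M} {u : M} {n : ℕ} (hn : n ≠ 0)
    (h : W.valuation u ^ n = 1) : W.valuation u = 1 := by
  rcases lt_trichotomy (W.valuation u) 1 with h1 | h1 | h1
  · exact absurd h (ne_of_lt (pow_lt_one₀ zero_le h1 hn))
  · exact h1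
  · exact absurd h (ne_of_gt (one_lt_pow₀ h1 hn))

theorem e3_val_one {R W : ValuationSubring M} (hRW : R ≤ W) {u : M} (h : R.valuation u = 1) :
    W.valuation u = 1 := by
  have h0 : u ≠ 0 := by
    rintro rfl
    simp at h
  have h1 : u ∈ R := (ValuationSubring.valuation_le_one_iff _ _).1 h.le
  have h2 : u⁻¹ ∈ R := by
    rw [← ValuationSubring.valuation_le_one_iff, map_inv₀, h, inv_one]
  have h3 := (ValuationSubring.valuation_le_one_iff _ _).2 (hRW h1)
  have h4 := (ValuationSubring.valuation_le_one_iff _ _).2 (hRW h2)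
  rw [map_inv₀] at h4
  refine le_antisymm h3 ?_
  have h5 : W.valuation u ≠ 0 := (Valuation.ne_zero_iff _).2 h0
  exact (inv_le_one₀ (zero_lt_iff.2 h5)).1 h4

theorem e3_val_lt {R W : ValuationSubring M} (hRW : R ≤ W) {u : M} (h : W.valuation u < 1) :
    R.valuation u < 1 := by
  by_contra h1
  have h1' : 1 ≤ R.valuation u := not_lt.1 h1
  have h0 : u ≠ 0 := by
    rintro rfl
    simp at h1'
  have h2 : u⁻¹ ∈ R := by
    rw [← ValuationSubring.valuation_le_one_iff, map_inv₀]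
    exact inv_le_one_of_one_le₀ h1'
  have h4 := (ValuationSubring.valuation_le_one_iff _ _).2 (hRW h2)
  rw [map_inv₀] at h4
  have h5 : W.valuation u ≠ 0 := (Valuation.ne_zero_iff _).2 h0
  exact absurd h (not_lt.2 ((inv_le_one₀ (zero_lt_iff.2 h5)).1 h4))

theorem e3_fr_mono {S S' : Subring M} (h : S ≤ S') {τ : M} (ht : Fr S τ) : Fr S' τ := by
  obtain ⟨a, ha, b, hb, hb0, e⟩ := ht
  exact ⟨a, h ha, b, h hb, hb0, e⟩

theorem e3_fr_of_mem {S : Subring M} {τ : M} (h : τ ∈ S) : Fr S τ :=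
  ⟨τ, h, 1, S.one_mem, one_ne_zero, mul_one τ⟩

theorem e3_fr_add {S : Subring M} {τ σ : M} (h : Fr S τ) (h' : Fr S σ) : Fr S (τ + σ) := by
  obtain ⟨a, ha, b, hb, hb0, e⟩ := h
  obtain ⟨a', ha', b', hb', hb0', e'⟩ := h'
  refine ⟨a * b' + a' * b, S.add_mem (S.mul_mem ha hb') (S.mul_mem ha' hb), b * b',
    S.mul_mem hb hb', mul_ne_zero hb0 hb0', ?_⟩
  rw [← e, ← e']
  ring

theorem e3_fr_mul {S : Subring M} {τ σ : M} (h : Fr S τ) (h' : Fr S σ) : Fr S (τ * σ) := by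
  obtain ⟨a, ha, b, hb, hb0, e⟩ := h
  obtain ⟨a', ha', b', hb', hb0', e'⟩ := h'
  refine ⟨a * a', S.mul_mem ha ha', b * b', S.mul_mem hb hb', mul_ne_zero hb0 hb0', ?_⟩
  rw [← e, ← e']
  ring

theorem e3_fr_pow {S : Subring M} {τ : M} (h : Fr S τ) (n : ℕ) : Fr S (τ ^ n) := by
  induction n with
  | zero => rw [pow_zero]; exact e3_fr_of_mem S.one_mem
  | succ n ih => rw [pow_succ]; exact e3_fr_mul ih h

theorem e3_fr_sum {S : Subring M} {ι : Type*} (s : Finset ι) {g : ι → M}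
    (h : ∀ i ∈ s, Fr S (g i)) : Fr S (∑ i ∈ s, g i) := by
  classical
  induction s using Finset.induction_on with
  | empty => rw [Finset.sum_empty]; exact e3_fr_of_mem S.zero_mem
  | insert a s ha ih =>
    rw [Finset.sum_insert ha]
    exact e3_fr_add (h a (Finset.mem_insert_self a s))
      (ih fun i hi => h i (Finset.mem_insert_of_mem hi))

end e3aux

variable {C M : Type*} [Field C] [IsAlgClosed C] [CharZero C] [Algebra.IsAlgebraic ℚ C] [Field M]
  [Algebra C M] {E : IntermediateField C M} {p : ℕ} {W : ValuationSubring M} {b : M}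

omit [Algebra.IsAlgebraic ℚ C] in
/-- the composed valuation ring, restricted to `E` -/
theorem e3_cr (hp : p.Prime) (hW : Wv p C W) (hri : RI p W E) (hs : Sp p W E b)
    {R : ValuationSubring M} (hR : CR W (Ex E b) R) : CR W E R := by
  refine ⟨hR.le, hR.const, ?_⟩
  by_contra hcon
  push Not at hcon
  obtain ⟨g, hgE, hgW, hgR⟩ := hR.ne
  obtain ⟨a, ha, rfl⟩ := ex_repr hp hs.pw hgE
  have h1 := ((ex_mem hp hW hri hs (a := a) fun i _ => ha i).1).1 hgW
  have hbp : b ^ p ∈ R := by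
    refine hcon _ hs.pw ?_
    rw [← ValuationSubring.valuation_le_one_iff, map_pow, hs.one, one_pow]
  have hb : b ∈ R := e3_mem_pow hp.ne_zero hbp
  apply hgR
  refine sum_mem fun i hi => ?_
  exact mul_mem (hcon _ (ha i) (h1 i (Finset.mem_range.1 hi))) (pow_mem hb i)

theorem lm_step (hp : p.Prime) (hE : FF E) (hW : Wv p C W) (hri : RI p W E) (hs : Sp p W E b)
    (hlm : LM W E) : LM W (Ex E b) := by
  classical
  intro R hR T' hT'
  have hCR : CR W E R := e3_cr hp hW hri hs hR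
  have hEx : E ≤ Ex E b := le_sup_left
  -- representations
  have hrepr : ∀ τ : M, ∃ a : ℕ → M, τ ∈ T' → (∀ i, a i ∈ E) ∧
      τ = ∑ i ∈ Finset.range p, a i * b ^ i := by
    intro τ
    by_cases h : τ ∈ T'
    · obtain ⟨a, ha⟩ := ex_repr hp hs.pw (hT' τ h)
      exact ⟨a, fun _ => ha⟩
    · exact ⟨fun _ => 0, fun h' => absurd h' h⟩
  choose A hA using hrepr
  set T : Finset M := T'.biUnion fun τ => (Finset.range p).image (A τ) with hTdef
  have hT : ∀ τ ∈ T, τ ∈ E := by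
    intro τ hτ
    rw [hTdef, Finset.mem_biUnion] at hτ
    obtain ⟨σ, hσ, hτ⟩ := hτ
    rw [Finset.mem_image] at hτ
    obtain ⟨i, -, rfl⟩ := hτ
    exact (hA σ hσ).1 i
  have hbp1 : W.valuation (b ^ p) = 1 := by rw [map_pow, hs.one, one_pow]
  obtain ⟨S, π, t, hL, hFr, ε, hε, h, hε1, hFh, hh0, hbe⟩ :=
    ur hE hlm hCR hp.one_lt.le hs.pw hbp1 hs.dv T hT
  have hSE : ∀ u ∈ S, u ∈ E := fun u hu => (hL.le u hu).1
  have hSR : ∀ u ∈ S, u ∈ R := fun u hu => (hL.le u hu).2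
  have hhE : h ∈ E := by
    obtain ⟨a, ha, c, hc, hc0, e⟩ := hFh
    have : h = a / c := by rw [eq_div_iff hc0, e]
    rw [this]
    exact div_mem (hSE a ha) (hSE c hc)
  have hWε : W.valuation ε = 1 := e3_val_one hR.le hε1
  have hWh : W.valuation h = 1 := by
    have h1 : W.valuation (b ^ p) = W.valuation ε * W.valuation h ^ p := by
      rw [hbe, map_mul, map_pow]
    rw [hbp1, hWε, one_mul] at h1
    exact e3_pow_one hp.ne_zero h1.symm
  set b₁ : M := b * h⁻¹ with hb₁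
  have hb : b = b₁ * h := by rw [hb₁, inv_mul_cancel_right₀ hh0]
  have hb₁p : b₁ ^ p = ε := by
    have hhp : h ^ p ≠ 0 := pow_ne_zero _ hh0
    rw [hb₁, mul_pow, inv_pow, hbe, mul_inv_cancel_right₀ hhp]
  have hWb₁ : W.valuation b₁ = 1 := by
    rw [hb₁, map_mul, map_inv₀, hs.one, hWh, inv_one, one_mul]
  have hs₁ : Sp p W E b₁ := by
    refine ⟨?_, ?_, hWb₁, ?_⟩
    · rw [hb₁p]; exact hSE ε hε
    · intro hmem
      apply hs.nm
      rw [hb]
      exact mul_mem hmem hhE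
    · intro Q hQ
      obtain ⟨c, hcE, hc0, hc⟩ := hs.dv Q hQ
      refine ⟨c * h⁻¹, mul_mem hcE (inv_mem hhE), mul_ne_zero hc0 (inv_ne_zero hh0), ?_⟩
      have hhp : h ^ p ≠ 0 := pow_ne_zero _ hh0
      have e1 : b₁ ^ p * ((c * h⁻¹) ^ p)⁻¹ = b ^ p * (c ^ p)⁻¹ := by
        rw [hb₁, mul_pow, mul_pow, mul_inv, inv_pow, inv_inv]
        field_simp
      rw [e1]
      exact hc
  have hb₁Ex : b₁ ∈ Ex E b := by
    rw [hb₁]
    refine mul_mem ?_ (inv_mem (hEx hhE))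
    exact (le_sup_right : IntermediateField.adjoin C {b} ≤ Ex E b)
      (IntermediateField.mem_adjoin_simple_self C b)
  have hπR : R.valuation π < 1 := e3_val_lt hR.le hL.pi1
  have hvp : R.valuation (p : M) = 1 := by
    have h1 : algebraMap C M (p : C) ∈ R := by
      rw [map_natCast]
      exact natCast_mem R p
    have h2 : algebraMap C M ((p : C)⁻¹) ∈ R := by
      apply hR.const
      rw [← ValuationSubring.valuation_le_one_iff, map_inv₀, map_natCast, map_inv₀, hW.vp, inv_one]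
    rw [map_natCast] at h1
    rw [map_inv₀, map_natCast] at h2
    have hp0 : (p : M) ≠ 0 := by
      intro h0
      have := hW.vp
      rw [h0, map_zero] at this
      exact zero_ne_one this
    have h3 := (ValuationSubring.valuation_le_one_iff _ _).2 h1
    have h4 := (ValuationSubring.valuation_le_one_iff _ _).2 h2
    rw [map_inv₀] at h4
    refine le_antisymm h3 ?_
    have h5 : R.valuation (p : M) ≠ 0 := (Valuation.ne_zero_iff _).2 hp0
    exact (inv_le_one₀ (zero_lt_iff.2 h5)).1 h4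
  have := hL.noeth
  obtain ⟨S', hS'n, hSS', hb₁S', hS'R, hS'inv, hrep, hgen⟩ :=
    eta hp S R hSR hL.inv hL.piS hL.tS hπR hL.t1 hL.gen hvp hε hε1 hb₁p
  have hsumS' : ∀ a : ℕ → M, (∀ i ∈ Finset.range p, a i ∈ S') →
      (∑ i ∈ Finset.range p, a i * b₁ ^ i) ∈ S' := by
    intro a ha
    exact sum_mem fun i hi => mul_mem (ha i hi) (pow_mem hb₁S' i)
  have hsumEx : ∀ a : ℕ → M, (∀ i, a i ∈ S) →
      (∑ i ∈ Finset.range p, a i * b₁ ^ i) ∈ Ex E b := by
    intro a ha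
    exact sum_mem fun i _ => mul_mem (hEx (hSE _ (ha i))) (pow_mem hb₁Ex i)
  refine ⟨S', π, t, ?_, ?_⟩
  · refine ⟨?_, hS'n, hS'inv, hSS' hL.piS, hL.piC, hL.pi0, hL.pi1, ?_, hSS' hL.tS, hL.t1, hgen⟩
    · intro u hu
      refine ⟨?_, hS'R u hu⟩
      obtain ⟨a, a', haa, hy, hxy⟩ := hrep u hu
      have hy0 : (∑ i ∈ Finset.range p, a' i * b₁ ^ i) ≠ 0 := by
        intro h0
        rw [h0, map_zero] at hy
        exact zero_ne_one hy
      have e1 : u = (∑ i ∈ Finset.range p, a i * b₁ ^ i) /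
          (∑ i ∈ Finset.range p, a' i * b₁ ^ i) := by
        rw [eq_div_iff hy0, hxy]
      rw [e1]
      exact div_mem (hsumEx a fun i => (haa i).1) (hsumEx a' fun i => (haa i).2)
    · intro u hu hWu
      obtain ⟨a, a', haa, hy, hxy⟩ := hrep u hu
      have hy0 : (∑ i ∈ Finset.range p, a' i * b₁ ^ i) ≠ 0 := by
        intro h0
        rw [h0, map_zero] at hy
        exact zero_ne_one hy
      have hWy := e3_val_one hR.le hy
      have hWx : W.valuation (∑ i ∈ Finset.range p, a i * b₁ ^ i) < 1 := by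
        rw [← hxy, map_mul, hWy, mul_one]
        exact hWu
      have hWa := ((ex_mem hp hW hri hs₁ (a := a) fun i _ => hSE _ (haa i).1).2).1 hWx
      have hyS' : (∑ i ∈ Finset.range p, a' i * b₁ ^ i)⁻¹ ∈ S' :=
        hS'inv _ (hsumS' a' fun i _ => hSS' (haa i).2) hy
      have hxS' : (∑ i ∈ Finset.range p, (a i * π⁻¹) * b₁ ^ i) ∈ S' :=
        hsumS' _ fun i hi => hSS' (hL.div _ (haa i).1 (hWa i (Finset.mem_range.1 hi)))
      have e1 : u * π⁻¹ = (∑ i ∈ Finset.range p, (a i * π⁻¹) * b₁ ^ i) *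
          (∑ i ∈ Finset.range p, a' i * b₁ ^ i)⁻¹ := by
        rw [eq_mul_inv_iff_mul_eq₀ hy0, mul_right_comm, hxy, Finset.sum_mul]
        exact Finset.sum_congr rfl fun i _ => by ring
      rw [e1]
      exact mul_mem hxS' hyS'
  · intro τ hτ
    obtain ⟨hAE, hτe⟩ := hA τ hτ
    rw [hτe]
    have hFb : Fr S' b := by
      rw [hb]
      exact e3_fr_mul (e3_fr_of_mem hb₁S') (e3_fr_mono hSS' hFh)
    refine e3_fr_sum _ fun i hi => e3_fr_mul (e3_fr_mono hSS' (hFr _ ?_)) (e3_fr_pow hFb i)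
    rw [hTdef, Finset.mem_biUnion]
    exact ⟨τ, hτ, Finset.mem_image.2 ⟨i, hi, rfl⟩⟩

end Pool.Agent.Lib.MP_2f3286_ag.Pp
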