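import Pool.Agent.Lib.MP_2f3286_ag.Gl.SE

/-!
# The local ring of `O[x, y]` at a point of the special fibre   (module E4)

`A = O[x, y] ⊆ R ≤ W`. PROOF. `S = {f / g | f, g ∈ A, R(g) = 1}`, the localization of `A` at the prime ideal `{f | R(f) < 1}`; `A` is Noetherian (finitely generated over `O`), so `S` is (`Localization.AtPrime`, `IsLocalization.isNoetherianRing`; `S` is the image of the localization in `M`). `div`: `u = f / g`, `W(g) = 1` as
`R(g) = 1`, so `W(f) < 1`, `f / π ∈ A` (`hdiv`). `gen`: let `u = f / g`, `R(f) < 1`. `Gl.loc_key` (Gl/SE.lean, for the algebra `A` over `O`, generated by `x`, `y`): `s f = s c + t u'` with `c ∈ O`, `u' ∈ A`. So `R(c) < 1` (`R(s) = 1`, `R(t) < 1`, `u' ∈ R`), `c = c' π`, `c' ∈ O` (`hO`), `f = c' π + (u' / s) t`, and divide by `g`.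
-/

open Polynomial

namespace Pool.Agent.Lib.MP_2f3286_ag.Pp

private theorem E4_key {M : Type*} [Field M] (O : Subring M) {x y s t a b : M}
    (ha : a ∈ O) (hb : b ∈ O) (hx : ∃ u ∈ Algebra.adjoin O ({x, y} : Set M), s * (x - a) = t * u)
    (hy : ∃ u ∈ Algebra.adjoin O ({x, y} : Set M), s * (y - b) = t * u) (f : M)
    (hf : f ∈ Algebra.adjoin O ({x, y} : Set M)) :
    ∃ c ∈ O, ∃ u ∈ Algebra.adjoin O ({x, y} : Set M), s * f = s * c + t * u := by
  have hOA : ∀ c ∈ O, c ∈ Algebra.adjoin O ({x, y} : Set M) := fun c hc =>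
    Subalgebra.algebraMap_mem (Algebra.adjoin O ({x, y} : Set M)) (⟨c, hc⟩ : O)
  induction hf using Algebra.adjoin_induction with
  | mem z hz =>
    rcases hz with rfl | hz
    · obtain ⟨u, hu, hu2⟩ := hx
      exact ⟨a, ha, u, hu, by linear_combination hu2⟩
    · rw [Set.mem_singleton_iff] at hz
      subst hz
      obtain ⟨u, hu, hu2⟩ := hy
      exact ⟨b, hb, u, hu, by linear_combination hu2⟩
  | algebraMap r => exact ⟨r, r.2, 0, Subalgebra.zero_mem _, by
      rw [mul_zero, add_zero]; rfl⟩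
  | add f g _ _ hf hg =>
    obtain ⟨c, hc0, u, hu, hc⟩ := hf
    obtain ⟨c', hc0', u', hu', hc'⟩ := hg
    exact ⟨c + c', O.add_mem hc0 hc0', u + u', Subalgebra.add_mem _ hu hu', by
      linear_combination hc + hc'⟩
  | mul f g _ hg0 hf hg =>
    obtain ⟨c, hc0, u, hu, hc⟩ := hf
    obtain ⟨c', hc0', u', hu', hc'⟩ := hg
    exact ⟨c * c', O.mul_mem hc0 hc0', g * u + c * u', Subalgebra.add_mem _
      (Subalgebra.mul_mem _ hg0 hu) (Subalgebra.mul_mem _ (hOA c hc0) hu'), by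
      linear_combination g * hc + c * hc'⟩

private theorem E4_noe {M : Type*} [Field M] (O : Subring M) [IsNoetherianRing O] (x y : M) :
    IsNoetherianRing (Algebra.adjoin O ({x, y} : Set M)) := by
  have hfg : (Algebra.adjoin O ({x, y} : Set M)).FG :=
    Subalgebra.fg_def.2 ⟨{x, y}, Set.toFinite _, rfl⟩
  have : Algebra.FiniteType O (Algebra.adjoin O ({x, y} : Set M)) :=
    (Subalgebra.fg_iff_finiteType _).1 hfg
  exact Algebra.FiniteType.isNoetherianRing O _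

private theorem E4_aux {A M : Type*} (L : Type*) [CommRing A] [IsNoetherianRing A] [Field M]
    [CommRing L] [Algebra A L] (N : Submonoid A) [IsLocalization N L] (j : A →+* M)
    (hunit : ∀ g : N, IsUnit (j g)) :
    ∃ S : Subring M, IsNoetherianRing S ∧ ∀ u, u ∈ S ↔ ∃ f : A, ∃ g : N, u * j g = j f := by
  obtain ⟨φ, hφ⟩ : ∃ φ : L →+* M, φ = IsLocalization.lift hunit := ⟨_, rfl⟩
  have hloc : IsNoetherianRing L := IsLocalization.isNoetherianRing N _ inferInstance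
  refine ⟨φ.range, inferInstance, fun u => ?_⟩
  constructor
  · rintro ⟨v, rfl⟩
    obtain ⟨f, g, rfl⟩ := IsLocalization.exists_mk'_eq N v
    refine ⟨f, g, ?_⟩
    have h1 : φ (IsLocalization.mk' L f g) =
        IsLocalization.lift hunit (IsLocalization.mk' L f g) := by rw [hφ]
    have h2 := (IsLocalization.lift_mk'_spec hunit f _ g).1 h1.symm
    rw [mul_comm]
    exact h2.symm
  · rintro ⟨f, g, h⟩
    refine ⟨IsLocalization.mk' L f g, ?_⟩
    rw [hφ]
    refine (IsLocalization.lift_mk'_spec hunit _ _ _).2 ?_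
    rw [mul_comm]
    exact h.symm

private theorem E4_loc {M : Type*} [Field M] {O : Subring M} (A : Subalgebra O M)
    [IsNoetherianRing A] {R : ValuationSubring M} (hA : ∀ u ∈ A, u ∈ R) :
    ∃ S : Subring M, IsNoetherianRing S ∧
      ∀ u, u ∈ S ↔ ∃ f ∈ A, ∃ g ∈ A, R.valuation g = 1 ∧ u * g = f := by
  obtain ⟨ι, hι⟩ : ∃ ι : A →+* R, ∀ f : A, ((ι f : R) : M) = f :=
    ⟨(A.val.toRingHom).codRestrict R.toSubring (fun f => hA f f.2), fun f => rfl⟩
  obtain ⟨P, hP⟩ : ∃ P : Ideal A, P = (IsLocalRing.maximalIdeal R).comap ι := ⟨_, rfl⟩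
  have hPp : P.IsPrime := by
    rw [hP]
    exact Ideal.comap_isPrime ι _
  have hmem : ∀ f : A, f ∈ P ↔ R.valuation (f : M) < 1 := by
    intro f
    rw [hP, Ideal.mem_comap, ValuationSubring.valuation_lt_one_iff, hι]
  have hmem' : ∀ f : A, f ∈ P.primeCompl ↔ R.valuation (f : M) = 1 := by
    intro f
    have h1 : R.valuation (f : M) ≤ 1 := (R.valuation_le_one_iff _).2 (hA f f.2)
    constructor
    · intro h
      have h2 : ¬ f ∈ P := h
      rw [hmem] at h2
      exact le_antisymm h1 (not_lt.1 h2)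
    · intro h
      show ¬ f ∈ P
      rw [hmem, h]
      exact lt_irrefl _
  have hunit : ∀ g : P.primeCompl, IsUnit (A.val.toRingHom (g : A)) := by
    intro g
    have h1 := (hmem' g).1 g.2
    refine IsUnit.mk0 _ ?_
    intro h0
    have h2 : ((g : A) : M) = 0 := h0
    rw [h2, map_zero] at h1
    exact zero_ne_one h1
  obtain ⟨S, hS, hSm⟩ := E4_aux (Localization.AtPrime P) P.primeCompl A.val.toRingHom hunit
  refine ⟨S, hS, fun u => (hSm u).trans ?_⟩
  constructor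
  · rintro ⟨f, g, h⟩
    exact ⟨f, f.2, g, (g : A).2, (hmem' g).1 g.2, h⟩
  · rintro ⟨f, hf, g, hg, hg1, h⟩
    exact ⟨⟨f, hf⟩, ⟨⟨g, hg⟩, (hmem' ⟨g, hg⟩).2 hg1⟩, h⟩

theorem lb1 {M : Type*} [Field M] (O : Subring M) [IsNoetherianRing O] {x y : M}
    {R W : ValuationSubring M} (hRW : R ≤ W)
    (hA : ∀ u ∈ Algebra.adjoin O ({x, y} : Set M), u ∈ R) {π : M} (hπ : π ∈ O) (hπ0 : π ≠ 0)
    (hdiv : ∀ u ∈ Algebra.adjoin O ({x, y} : Set M), W.valuation u < 1 →
      u * π⁻¹ ∈ Algebra.adjoin O ({x, y} : Set M))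
    (hO : ∀ c ∈ O, R.valuation c < 1 → c * π⁻¹ ∈ O) {s t a b : M}
    (hs : s ∈ Algebra.adjoin O ({x, y} : Set M)) (hs1 : R.valuation s = 1)
    (ht : t ∈ Algebra.adjoin O ({x, y} : Set M)) (ht1 : R.valuation t < 1) (ha : a ∈ O)
    (hb : b ∈ O) (hx : ∃ u ∈ Algebra.adjoin O ({x, y} : Set M), s * (x - a) = t * u)
    (hy : ∃ u ∈ Algebra.adjoin O ({x, y} : Set M), s * (y - b) = t * u) :
    ∃ S : Subring M, IsNoetherianRing S ∧ (∀ u ∈ Algebra.adjoin O ({x, y} : Set M), u ∈ S) ∧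
      (∀ u ∈ S, u ∈ R) ∧ (∀ u ∈ S, R.valuation u = 1 → u⁻¹ ∈ S) ∧
      (∀ u ∈ S, W.valuation u < 1 → u * π⁻¹ ∈ S) ∧
      (∀ u ∈ S, R.valuation u < 1 → ∃ c ∈ S, ∃ d ∈ S, u = c * π + d * t) ∧
      ∀ u ∈ S, ∃ f ∈ Algebra.adjoin O ({x, y} : Set M),
        ∃ g ∈ Algebra.adjoin O ({x, y} : Set M), R.valuation g = 1 ∧ u * g = f := by
  have hOA : ∀ c ∈ O, c ∈ Algebra.adjoin O ({x, y} : Set M) := fun c hc =>
    Subalgebra.algebraMap_mem (Algebra.adjoin O ({x, y} : Set M)) (⟨c, hc⟩ : O)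
  have hnoe := E4_noe O x y
  obtain ⟨S, hS, hSm⟩ := E4_loc (Algebra.adjoin O ({x, y} : Set M)) (R := R) hA
  have hv : ∀ g : M, R.valuation g = 1 → g ≠ 0 := by
    rintro g hg rfl
    rw [map_zero] at hg
    exact zero_ne_one hg
  have hle : ∀ u : M, u ∈ R ↔ R.valuation u ≤ 1 := fun u => (R.valuation_le_one_iff u).symm
  have hW : ∀ g : M, R.valuation g = 1 → W.valuation g = 1 := by
    intro g hg
    have h1 : g ∈ W := hRW ((hle g).2 hg.le)
    have h2 : g⁻¹ ∈ W := by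
      refine hRW ((hle _).2 ?_)
      rw [map_inv₀, hg, inv_one]
    have h3 := (W.valuation_le_one_iff g).2 h1
    have h4 := (W.valuation_le_one_iff g⁻¹).2 h2
    rw [map_inv₀] at h4
    have h5 : W.valuation g ≠ 0 := (Valuation.ne_zero_iff _).2 (hv g hg)
    refine le_antisymm h3 ?_
    exact (inv_le_one₀ (zero_lt_iff.2 h5)).1 h4
  refine ⟨S, hS, ?_, ?_, ?_, ?_, ?_, fun u hu => (hSm u).1 hu⟩
  · intro u hu
    exact (hSm u).2 ⟨u, hu, 1, Subalgebra.one_mem _, map_one _, mul_one u⟩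
  · intro u hu
    obtain ⟨f, hf, g, hg, hg1, h⟩ := (hSm u).1 hu
    have h1 : R.valuation u * R.valuation g = R.valuation f := by rw [← map_mul, h]
    rw [hg1, mul_one] at h1
    rw [hle, h1, ← hle]
    exact hA f hf
  · intro u hu hu1
    obtain ⟨f, hf, g, hg, hg1, h⟩ := (hSm u).1 hu
    have h1 : R.valuation u * R.valuation g = R.valuation f := by rw [← map_mul, h]
    rw [hg1, hu1, mul_one] at h1
    refine (hSm _).2 ⟨g, hg, f, hf, h1.symm, ?_⟩
    rw [← h, inv_mul_cancel_left₀ (hv u hu1)]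
  · intro u hu hu1
    obtain ⟨f, hf, g, hg, hg1, h⟩ := (hSm u).1 hu
    have h1 : W.valuation u * W.valuation g = W.valuation f := by rw [← map_mul, h]
    rw [hW g hg1, mul_one] at h1
    refine (hSm _).2 ⟨f * π⁻¹, hdiv f hf (by rw [← h1]; exact hu1), g, hg, hg1, ?_⟩
    rw [← h]
    ring
  · intro u hu hu1
    obtain ⟨f, hf, g, hg, hg1, h⟩ := (hSm u).1 hu
    have h1 : R.valuation u * R.valuation g = R.valuation f := by rw [← map_mul, h]
    rw [hg1, mul_one] at h1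
    obtain ⟨c, hc, v, hv0, hcv⟩ := E4_key O ha hb hx hy f hf
    have hsn := hv s hs1
    have hgn := hv g hg1
    have hvR : R.valuation v ≤ 1 := (hle v).1 (hA v hv0)
    have h2 : R.valuation c < 1 := by
      have h3 : s * c = s * f - t * v := by rw [hcv]; ring
      have h4 : R.valuation (s * c) < 1 := by
        rw [h3]
        refine lt_of_le_of_lt (R.valuation.map_sub _ _) (max_lt ?_ ?_)
        · rw [map_mul, hs1, one_mul, ← h1]
          exact hu1
        · rw [map_mul]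
          exact mul_lt_one_of_lt_of_le ht1 hvR
      rwa [map_mul, hs1, one_mul] at h4
    have h5 := hO c hc h2
    refine ⟨c * π⁻¹ * g⁻¹, (hSm _).2 ⟨c * π⁻¹, hOA _ h5, g, hg, hg1, ?_⟩, v * (s * g)⁻¹,
      (hSm _).2 ⟨v, hv0, s * g, Subalgebra.mul_mem _ hs hg, ?_, ?_⟩, ?_⟩
    · rw [inv_mul_cancel_right₀ hgn]
    · rw [map_mul, hs1, hg1, one_mul]
    · rw [inv_mul_cancel_right₀ (mul_ne_zero hsn hgn)]
    · have h6 : u = f * g⁻¹ := by rw [← h, mul_inv_cancel_right₀ hgn]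
      rw [h6]
      field_simp
      linear_combination hcv

end Pool.Agent.Lib.MP_2f3286_ag.Pp
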