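import Pool.Agent.Lib.MP_2f3286_ag.Pp.Defs
import Pool.Agent.Lib.MP_2f3286_ag.Gl.GE
import Pool.Agent.Lib.MP_2f3286_ag.Gl.GC
import Pool.Agent.Lib.MP_2f3286_ag.Gl.RIC
import Pool.Agent.Lib.MP_2f3286_ag.Pp.BR2

/-!
# The first field: good reduction   (module E5)

We write: `L = IntermediateField.adjoin C {x, y}`. PROOF of `bs_sup`: `IsSup`: `gen`: the intermediate field of `L` generated by `x`, `y` is `⊤` (`IntermediateField.adjoin_...`, `lift`/`map` along the inclusion; see Gl/PQ.lean where the same is done).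
PROOF of `bs_gred`. The proof of `exists_gred` (Gl/GE.lean) with the valuation ring `𝒲 = W.comap (algebraMap L M)` instead of the one of `exists_gauss`: the Gauss property is `hB.gs.one` (for elements of `L`; `Gs` is stated in `M`), `𝒲.comap (algebraMap C L) = W.comap (algebraMap C M)`. The private lemmas `gePlc`, `geAlg`, `geRed`, `ge_sepb`,
`ge_dg`, ... of that file may be copied (with new names). `κ = IsLocalRing.ResidueField (𝒲.comap (algebraMap C L))`, algebraically closed (`Gl.isAlgClosed_residue`).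
PROOF of `bs_ff`: `IsSup.finDim` (Gl/SA.lean).
-/

open Polynomial IntermediateField

namespace Pool.Agent.Lib.MP_2f3286_ag.Pp

open Pool.Agent.Lib.MP_2f3286_ag.Gl (IsSup Red GRed)
open Pool.Agent.Lib.MP_2f3286_ag.Gl (PHas exists_PHas has_of_val_eq has_of_val_le has_val_lt has_val_eq)
open Pool.Agent.Lib.MP_2f3286_ag.Fer (Plc)

universe u v

private theorem e5_mem_of_root {C : Type*} [Field C] (V : ValuationSubring C) {Q : V[X]}
    (hQ : Q.Monic) {α : C} (h : (Q.map V.subtype).eval α = 0) : α ∈ V := by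
  have hi : IsIntegral V α := ⟨Q, hQ, by rw [eval_map] at h; exact h⟩
  obtain ⟨y, hy⟩ := IsIntegrallyClosed.isIntegral_iff.mp hi
  rw [← hy]
  exact y.2

private theorem e5_lift {C : Type*} [Field C] (V : ValuationSubring C) {P : C[X]}
    (h : ∀ i, P.coeff i ∈ V) : ∃ Q : V[X], Q.map V.subtype = P := by
  rw [← Polynomial.mem_lifts, Polynomial.lifts_iff_coeff_lifts]
  intro n
  exact ⟨⟨P.coeff n, h n⟩, rfl⟩

private theorem e5_unit {L : Type*} [Field L] (A : ValuationSubring L) (x : A)
    (hx : IsLocalRing.residue A x ≠ 0) : (x : L)⁻¹ ∈ A := by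
  have h1 : IsUnit x := IsLocalRing.residue_ne_zero_iff_isUnit x |>.mp hx
  have h2 := (A.valuation_eq_one_iff x).mp h1
  rw [← A.valuation_le_one_iff, map_inv₀, h2, inv_one]

/-- the place of a valuation ring -/
private noncomputable def e5Plc {L : Type*} [Field L] (A : ValuationSubring L) :
    Plc L (IsLocalRing.ResidueField A) where
  A := A
  φ := IsLocalRing.residue A
  ker := e5_unit A

private theorem e5Plc_has {L : Type*} [Field L] (A : ValuationSubring L) {x : L} (h : x ∈ A) :
    (e5Plc A).Has x (IsLocalRing.residue A ⟨x, h⟩) := ⟨h, rfl⟩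

private theorem e5Plc_surj {L : Type*} [Field L] (A : ValuationSubring L)
    (z : IsLocalRing.ResidueField A) : ∃ c, (e5Plc A).Has c z := by
  obtain ⟨a, rfl⟩ := IsLocalRing.residue_surjective z
  exact ⟨a, a.2, rfl⟩

/-- the algebra of the residue fields -/
private noncomputable abbrev e5Alg {C : Type u} {L : Type v} [Field C] [Field L] [Algebra C L]
    (𝒲 : ValuationSubring L) :
    Algebra (IsLocalRing.ResidueField (𝒲.comap (algebraMap C L))) (IsLocalRing.ResidueField 𝒲) :=
  (IsLocalRing.ResidueField.map (Full.GoodRed.incl (kb := C) 𝒲)).toAlgebra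

private noncomputable def e5Red {C : Type u} {L : Type v} [Field C] [Field L] [Algebra C L]
    (𝒲 : ValuationSubring L) :
    letI := e5Alg (C := C) 𝒲
    Red C L (IsLocalRing.ResidueField (𝒲.comap (algebraMap C L))) (IsLocalRing.ResidueField 𝒲) :=
  letI := e5Alg (C := C) 𝒲
  { V := e5Plc (𝒲.comap (algebraMap C L))
    W := e5Plc 𝒲
    base := by
      rintro c z ⟨h, rfl⟩
      exact ⟨h, rfl⟩
    surjV := e5Plc_surj _
    surjW := e5Plc_surj _ }

section Sep

variable {E κ : Type*} [Field E] [Field κ]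

private theorem e5_sepb [IsAlgClosed E] (V : Plc E κ) {h : E[X]} {hb : κ[X]} (hs : h.Separable)
    (hh : PHas V h hb) (hlead : V.A.valuation h.leadingCoeff = 1)
    (hsep : ∀ α β : E, h.eval α = 0 → h.eval β = 0 → α ≠ β → V.A.valuation (α - β) = 1) :
    hb.Separable := by
  classical
  have h0 : h ≠ 0 := hs.ne_zero
  have hl0 : h.leadingCoeff ≠ 0 := leadingCoeff_ne_zero.mpr h0
  have hcoef : ∀ i, h.coeff i ∈ V.A := fun i => (hh i).1
  -- roots are integral
  have hroot : ∀ α : E, h.eval α = 0 → α ∈ V.A := by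
    intro α hα
    have hP : ∀ i, (C (h.leadingCoeff)⁻¹ * h).coeff i ∈ V.A := by
      intro i
      rw [coeff_C_mul]
      apply mul_mem _ (hcoef i)
      rw [← V.A.valuation_le_one_iff, map_inv₀, hlead, inv_one]
    obtain ⟨Q, hQ⟩ := e5_lift V.A hP
    have hQm : Q.Monic := by
      apply Polynomial.monic_of_injective (f := V.A.subtype) Subtype.val_injective
      rw [hQ]
      rw [mul_comm]
      exact Polynomial.monic_mul_leadingCoeff_inv h0
    apply e5_mem_of_root V.A hQm
    rw [hQ, eval_mul, hα, mul_zero]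
  have hnd : h.roots.Nodup := Polynomial.nodup_roots hs
  have hfac : h = C h.leadingCoeff * ∏ α ∈ h.roots.toFinset, (X - C α) := by
    have h1 := (IsAlgClosed.splits h).eq_prod_roots
    have h2 : (h.roots.map fun a => X - C a).prod = ∏ α ∈ h.roots.toFinset, (X - C α) := by
      rw [Finset.prod_multiset_map_count]
      refine Finset.prod_congr rfl fun α hα => ?_
      rw [Multiset.count_eq_one_of_mem hnd (Multiset.mem_toFinset.mp hα), pow_one]
    rw [h2] at h1
    exact h1
  have hmem : ∀ α ∈ h.roots.toFinset, h.eval α = 0 := fun α hα =>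
    (Polynomial.mem_roots h0).mp (Multiset.mem_toFinset.mp hα)
  obtain ⟨lb, hlb0, hlb⟩ := has_of_val_eq V hlead
  have hex : ∀ α : E, ∃ z, h.eval α = 0 → V.Has α z := by
    intro α
    by_cases hα : h.eval α = 0
    · obtain ⟨z, hz⟩ := has_of_val_le V ((V.A.valuation_le_one_iff _).mpr (hroot α hα))
      exact ⟨z, fun _ => hz⟩
    · exact ⟨0, fun h' => absurd h' hα⟩
  choose ρ hρ using hex
  have h3 : PHas V h (C lb * ∏ α ∈ h.roots.toFinset, (X - C (ρ α))) := by
    conv_lhs => rw [hfac]
    exact (PHas.const hlb).mul (PHas.prod _ fun α hα => PHas.sub_C (hρ α (hmem α hα)))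
  rw [hh.unique h3]
  apply Polynomial.Separable.unit_mul
  · exact Polynomial.isUnit_C.mpr (isUnit_iff_ne_zero.mpr hlb0)
  · rw [Polynomial.separable_prod_X_sub_C_iff']
    intro α hα β hβ hαβ
    by_contra hne
    have h4 := hsep α β (hmem α hα) (hmem β hβ) hne
    have h5 := (hρ α (hmem α hα)).sub (hρ β (hmem β hβ))
    rw [hαβ, sub_self, has_val_lt] at h5
    rw [h4] at h5
    exact lt_irrefl _ h5

private theorem e5_dg (V : Plc E κ) {h : E[X]} {hb : κ[X]} (hh : PHas V h hb)
    (hlead : V.A.valuation h.leadingCoeff = 1) : hb.natDegree = h.natDegree := by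
  apply Polynomial.natDegree_eq_of_le_of_coeff_ne_zero
  · rw [Polynomial.natDegree_le_iff_coeff_eq_zero]
    intro N hN
    have h1 := hh N
    rw [Polynomial.coeff_eq_zero_of_natDegree_lt hN] at h1
    exact h1.unique Fer.Plc.has_zero
  · intro h0
    have h1 := hh h.natDegree
    rw [h0, has_val_lt] at h1
    have h2 : V.A.valuation (h.coeff h.natDegree) = 1 := hlead
    rw [h2] at h1
    exact lt_irrefl _ h1

end Sep

private theorem e5_one {K : Type*} [Field K] (A : ValuationSubring K) {z : K} (hz : z ≠ 0) :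
    A.valuation z = 1 ↔ z ∈ A ∧ z⁻¹ ∈ A := by
  rw [← A.valuation_le_one_iff, ← A.valuation_le_one_iff z⁻¹, map_inv₀]
  have h0 : A.valuation z ≠ 0 := (Valuation.ne_zero_iff _).2 hz
  constructor
  · intro h1
    rw [h1, inv_one]
    exact ⟨le_rfl, le_rfl⟩
  · rintro ⟨h1, h2⟩
    exact le_antisymm h1 ((inv_le_one₀ (zero_lt_iff.2 h0)).1 h2)

private theorem e5_val {E M : Type*} [Field E] [Field M] (f : E →+* M) (W : ValuationSubring M)
    (z : E) : (W.comap f).valuation z = 1 ↔ W.valuation (f z) = 1 := by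
  by_cases hz : z = 0
  · rw [hz, map_zero, map_zero, map_zero]
    exact iff_of_false zero_ne_one zero_ne_one
  · rw [e5_one _ hz, e5_one _ ((_root_.map_ne_zero f).2 hz), ValuationSubring.mem_comap,
      ValuationSubring.mem_comap, map_inv₀]

variable {C : Type u} {M : Type v} [Field C] [IsAlgClosed C] [CharZero C] [Field M] [Algebra C M]
  {p : ℕ} {W : ValuationSubring M} {x y : M} {h : C[X]}

omit [IsAlgClosed C] [CharZero C] in
/-- the Gauss property of the restriction of `W` -/
private theorem e5_gauss (hB : Bs p W x y h) (E : IntermediateField C M) (x' : E)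
    (hx' : (x' : M) = x) : Full.IsGauss C x' (W.comap (algebraMap E M)) := by
  intro P h1 h2
  rw [e5_val]
  have h3 : algebraMap E M (aeval x' P) = aeval x P := by
    rw [← Polynomial.aeval_algebraMap_apply]
    exact congrArg (fun z => aeval z P) hx'
  rw [h3]
  refine hB.gs.one P (fun i => ?_) ?_
  · have h4 := h1 i
    rw [ValuationSubring.valuation_le_one_iff] at h4
    exact h4
  · obtain ⟨i, hi⟩ := h2
    refine ⟨i, ?_⟩
    rw [e5_val] at hi
    exact hi

omit [IsAlgClosed C] [CharZero C] in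
theorem bs_sup (hB : Bs p W x y h) (x' y' : IntermediateField.adjoin C {x, y})
    (hx' : (x' : M) = x) (hy' : (y' : M) = y) : IsSup p x' y' h := by
  refine ⟨?_, ?_, ?_, hB.dg, hB.sep⟩
  · intro h1
    have h2 : IsAlgebraic C (x' : M) := h1.algebraMap (A := M)
    rw [hx'] at h2
    exact hB.gs.tr h2
  · apply Subtype.ext
    have h3 : ((aeval x' h : IntermediateField.adjoin C {x, y}) : M) = aeval x h := by
      have h4 := (Polynomial.aeval_algebraMap_apply M x' h).symm
      exact h4.trans (congrArg (fun z => aeval z h) hx')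
    change (y' : M) ^ p = ((aeval x' h : IntermediateField.adjoin C {x, y}) : M)
    rw [h3]
    exact (congrArg (fun z : M => z ^ p) hy').trans hB.eq
  · have hx'' : x' = ⟨x, IntermediateField.subset_adjoin C _ (by simp)⟩ := Subtype.ext hx'
    have hy'' : y' = ⟨y, IntermediateField.subset_adjoin C _ (by simp)⟩ := Subtype.ext hy'
    rw [hx'', hy'']
    apply IntermediateField.lift_injective (IntermediateField.adjoin C ({x, y} : Set M))
    rw [IntermediateField.lift_adjoin, IntermediateField.lift_top]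
    congr 1
    rw [Set.image_insert_eq, Set.image_singleton]

theorem bs_gred (hp : p.Prime) (hB : Bs p W x y h) (x' y' : IntermediateField.adjoin C {x, y})
    (hx' : (x' : M) = x) (hy' : (y' : M) = y) :
    ∃ (κ : Type u) (_ : Field κ) (k : Type v) (_ : Field k) (_ : Algebra κ k)
      (D : Red C (IntermediateField.adjoin C {x, y}) κ k) (xb yb : k) (hb : κ[X]),
      IsAlgClosed κ ∧ D.V.A = W.comap (algebraMap C M) ∧
      D.W.A = W.comap (algebraMap (IntermediateField.adjoin C {x, y}) M) ∧
      GRed p D x' y' h xb yb hb := by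
  have H := bs_sup hB x' y' hx' hy'
  have hG := e5_gauss hB _ x' hx'
  set 𝒲 : ValuationSubring (IntermediateField.adjoin C {x, y}) :=
    W.comap (algebraMap (IntermediateField.adjoin C {x, y}) M) with h𝒲
  letI := e5Alg (C := C) 𝒲
  have hint : ∀ i, h.coeff i ∈ 𝒲.comap (algebraMap C (IntermediateField.adjoin C {x, y})) :=
    fun i => hB.int i
  have hlead : (𝒲.comap (algebraMap C (IntermediateField.adjoin C {x, y}))).valuation
      h.leadingCoeff = 1 := by
    rw [e5_val, h𝒲, e5_val]
    exact hB.lead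
  have hsep : ∀ α β : C, h.eval α = 0 → h.eval β = 0 → α ≠ β →
      (𝒲.comap (algebraMap C (IntermediateField.adjoin C {x, y}))).valuation (α - β) = 1 := by
    intro α β hα hβ hαβ
    rw [e5_val, h𝒲, e5_val]
    exact hB.df α β hα hβ hαβ
  have hxW : x' ∈ 𝒲 := Full.GoodRed.t_mem x' 𝒲 hG
  have hv1 : ∀ c : C, (𝒲.comap (algebraMap C (IntermediateField.adjoin C {x, y}))).valuation c = 1 →
      𝒲.valuation (algebraMap C (IntermediateField.adjoin C {x, y}) c) = 1 := by
    intro c hc
    exact (e5_val _ _ _).1 hc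
  have hyv : 𝒲.valuation y' ^ p = 1 := by
    rw [← map_pow, H.eq]
    exact hG h (fun i => (𝒲.valuation_le_one_iff _).mpr (hint i)) ⟨h.natDegree, hv1 _ hlead⟩
  have hyW : y' ∈ 𝒲 := by
    rw [← 𝒲.valuation_le_one_iff]
    by_contra hcon
    push Not at hcon
    have := one_lt_pow₀ hcon hp.ne_zero
    rw [hyv] at this
    exact lt_irrefl _ this
  obtain ⟨hb, hhb⟩ := exists_PHas (V := (e5Red (C := C) 𝒲).V) (P := h) hint
  refine ⟨IsLocalRing.ResidueField (𝒲.comap (algebraMap C (IntermediateField.adjoin C {x, y}))),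
    inferInstance, IsLocalRing.ResidueField 𝒲, inferInstance, e5Alg (C := C) 𝒲, e5Red 𝒲,
    IsLocalRing.residue 𝒲 ⟨x', hxW⟩, IsLocalRing.residue 𝒲 ⟨y', hyW⟩, hb,
    Gl.isAlgClosed_residue _, rfl, rfl, ?_⟩
  have hxH : (e5Red (C := C) 𝒲).W.Has x' (IsLocalRing.residue 𝒲 ⟨x', hxW⟩) := ⟨hxW, rfl⟩
  refine ⟨H, hxH, ⟨hyW, rfl⟩, ?_, hhb, e5_dg (e5Red (C := C) 𝒲).V hhb hlead,
    e5_sepb (e5Red (C := C) 𝒲).V H.sep hhb hlead hsep⟩
  -- transcendence
  intro halg
  obtain ⟨Pb, hPb0, hPb⟩ := halg
  obtain ⟨P0, hP0⟩ : ∃ P0 : (𝒲.comap (algebraMap C (IntermediateField.adjoin C {x, y})))[X],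
      P0.map (IsLocalRing.residue
        (𝒲.comap (algebraMap C (IntermediateField.adjoin C {x, y})))) = Pb := by
    rw [← Polynomial.mem_lifts, Polynomial.lifts_iff_coeff_lifts]
    intro n
    exact IsLocalRing.residue_surjective _
  have hPH : PHas (e5Red (C := C) 𝒲).V
      (P0.map (𝒲.comap (algebraMap C (IntermediateField.adjoin C {x, y}))).subtype) Pb := by
    intro i
    rw [coeff_map, ← hP0, coeff_map]
    exact ⟨(P0.coeff i).2, rfl⟩
  have h1 := hPH.aeval hxH
  rw [hPb, has_val_lt] at h1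
  obtain ⟨i, hi⟩ : ∃ i, Pb.coeff i ≠ 0 := by
    by_contra hcon
    push Not at hcon
    exact hPb0 (Polynomial.ext hcon)
  have h2 : 𝒲.valuation (aeval x'
      (P0.map (𝒲.comap (algebraMap C (IntermediateField.adjoin C {x, y}))).subtype)) = 1 := by
    apply hG
    · intro j
      rw [𝒲.valuation_le_one_iff]
      exact (hPH j).1
    · exact ⟨i, hv1 _ (has_val_eq _ (hPH i) hi)⟩
  have h3 : 𝒲.valuation (aeval x'
      (P0.map (𝒲.comap (algebraMap C (IntermediateField.adjoin C {x, y}))).subtype)) < 1 := h1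
  rw [h2] at h3
  exact lt_irrefl _ h3

omit [IsAlgClosed C] [CharZero C] in
theorem bs_ff (hp : p.Prime) (hB : Bs p W x y h) : FF (IntermediateField.adjoin C {x, y}) := by
  have H := bs_sup hB ⟨x, IntermediateField.subset_adjoin C _ (by simp)⟩
    ⟨y, IntermediateField.subset_adjoin C _ (by simp)⟩ rfl rfl
  exact ⟨_, H.tr, Gl.IsSup.finDim hp H⟩

end Pool.Agent.Lib.MP_2f3286_ag.Pp
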