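import Pool.Agent.Lib.MP_2f3286_ag.Pp.Defs
import Pool.Agent.Lib.MP_2f3286_ag.Gl.GE
import Pool.Agent.Lib.MP_2f3286_ag.Gl.GC
import Pool.Agent.Lib.MP_2f3286_ag.Gl.RIC
import Pool.Agent.Lib.MP_2f3286_ag.Pp.BR2
import Pool.Agent.Lib.MP_2f3286_ag.Pp.E5

/-!
# The first field: good reduction   (module E5b)

We write: `L = IntermediateField.adjoin C {x, y}`. PROOF of `bs_ri`. `GRed.ri` (Gl/RIC.lean) with `n = 1`: `f ∈ L`, `g ∈ L`, `W(g) = 1`, `W(f - g ^ p) < 1`: `D.W.Has f (ḡ ^ p)`, `ḡ` the residue of `g`. `DivE` gives `DivAt` at the places of `L` (`divE_iff`, BR1). `(p : κ) ≠ 0` from `hW.vp`.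
PROOF of `bs_tr`. `IsSemi x y A.gC τ` with `τ` the restriction of `A.g` to `L` (`A.g` maps `L` onto `L`: it fixes `x`, `y` and preserves the constants). `GRed.semi` (Gl/GC.lean): `D.W.Has f g → D.W.Has (τ f) g`.
PROOF of `bs_on`. Basis `1, y, ..., y ^ (p - 1)` over `C(x)`: `IsSup.repr`; let `r_i ∈ C(x) ∩ W`, one of valuation one: common denominator `b(x)`, scaled so that `W(b(x)) = 1`: `r_i b(x) = a_i(x)` with coefficients in `W` (`Gs.one`), one of them of valuation one; `GRed.ev_unit` (or `ev_has` and `ev_zero`).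
-/

open Polynomial IntermediateField

namespace Pool.Agent.Lib.MP_2f3286_ag.Pp

open Pool.Agent.Lib.MP_2f3286_ag.Gl (IsSup Red GRed)

universe u v

variable {C : Type u} {M : Type v} [Field C] [IsAlgClosed C] [CharZero C] [Field M] [Algebra C M]
  {p : ℕ} {W : ValuationSubring M} {x y : M} {h : C[X]}

section

private theorem e5b_inv {K : Type*} [Field K] (A : ValuationSubring K) {z : K} (hz : z ≠ 0) :
    A.valuation z < 1 ↔ z⁻¹ ∉ A := by
  rw [← A.valuation_le_one_iff, map_inv₀,
    inv_le_one₀ (zero_lt_iff.2 ((Valuation.ne_zero_iff _).2 hz)), not_le]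

private theorem e5b_lt {K N : Type*} [Field K] [Field N] (φ : K →+* N) (W : ValuationSubring N)
    (A : ValuationSubring K) (hA : A = W.comap φ) (z : K) :
    A.valuation z < 1 ↔ W.valuation (φ z) < 1 := by
  subst hA
  rcases eq_or_ne z 0 with rfl | hz
  · simp
  · rw [e5b_inv _ hz, e5b_inv _ ((map_ne_zero φ).2 hz), ValuationSubring.mem_comap, map_inv₀]

private theorem e5b_le {K N : Type*} [Field K] [Field N] (φ : K →+* N) (W : ValuationSubring N)
    (A : ValuationSubring K) (hA : A = W.comap φ) (z : K) :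
    A.valuation z ≤ 1 ↔ W.valuation (φ z) ≤ 1 := by
  subst hA
  rw [ValuationSubring.valuation_le_one_iff, ValuationSubring.valuation_le_one_iff,
    ValuationSubring.mem_comap]

private theorem e5b_one {K N : Type*} [Field K] [Field N] (φ : K →+* N) (W : ValuationSubring N)
    (A : ValuationSubring K) (hA : A = W.comap φ) (z : K) :
    A.valuation z = 1 ↔ W.valuation (φ z) = 1 := by
  have h1 := e5b_lt φ W A hA z
  have h2 := e5b_le φ W A hA z
  constructor
  · intro h
    exact le_antisymm (h2.1 h.le) (not_lt.1 fun h3 => absurd h (ne_of_lt (h1.2 h3)))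
  · intro h
    exact le_antisymm (h2.2 h.le) (not_lt.1 fun h3 => absurd h (ne_of_lt (h1.1 h3)))

private theorem e5b_mx {C M : Type*} [Field C] [Field M] [Algebra C M] (x y : M) :
    x ∈ IntermediateField.adjoin C {x, y} :=
  IntermediateField.subset_adjoin C _ (Set.mem_insert x {y})

private theorem e5b_my {C M : Type*} [Field C] [Field M] [Algebra C M] (x y : M) :
    y ∈ IntermediateField.adjoin C {x, y} :=
  IntermediateField.subset_adjoin C _ (Set.mem_insert_of_mem x (Set.mem_singleton y))

/-- `A.g` preserves `C(x, y)` -/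
private theorem e5b_pre {C M : Type*} [Field C] [Field M] [Algebra C M] {x y : M} (A : SA C M)
    (hx : A.g x = x) (hy : A.g y = y) (f : M) (hf : f ∈ IntermediateField.adjoin C {x, y}) :
    A.g f ∈ IntermediateField.adjoin C {x, y} ∧ A.g.symm f ∈ IntermediateField.adjoin C {x, y} := by
  constructor
  · let K1 : IntermediateField C M :=
      ((IntermediateField.adjoin C {x, y}).toSubfield.comap (A.g : M →+* M)).toIntermediateField
        (fun c => by
          change A.g (algebraMap C M c) ∈ IntermediateField.adjoin C {x, y}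
          rw [A.hC]
          exact IntermediateField.algebraMap_mem _ _)
    have h1 : IntermediateField.adjoin C {x, y} ≤ K1 := by
      rw [IntermediateField.adjoin_le_iff]
      rintro z (rfl | rfl)
      · change A.g z ∈ IntermediateField.adjoin C {z, y}
        rw [hx]
        exact e5b_mx z y
      · change A.g z ∈ IntermediateField.adjoin C {x, z}
        rw [hy]
        exact e5b_my x z
    exact h1 hf
  · let K2 : IntermediateField C M :=
      ((IntermediateField.adjoin C {x, y}).toSubfield.comap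
        (A.g.symm : M →+* M)).toIntermediateField
        (fun c => by
          change A.g.symm (algebraMap C M c) ∈ IntermediateField.adjoin C {x, y}
          have h2 : A.g.symm (algebraMap C M c) = algebraMap C M (A.gC.symm c) := by
            rw [RingEquiv.symm_apply_eq, A.hC, RingEquiv.apply_symm_apply]
          rw [h2]
          exact IntermediateField.algebraMap_mem _ _)
    have h1 : IntermediateField.adjoin C {x, y} ≤ K2 := by
      rw [IntermediateField.adjoin_le_iff]
      rintro z (rfl | rfl)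
      · change A.g.symm z ∈ IntermediateField.adjoin C {z, y}
        rw [RingEquiv.symm_apply_eq A.g |>.2 hx.symm]
        exact e5b_mx z y
      · change A.g.symm z ∈ IntermediateField.adjoin C {x, z}
        rw [RingEquiv.symm_apply_eq A.g |>.2 hy.symm]
        exact e5b_my x z
    exact h1 hf

/-- the restriction of `A.g` -/
private noncomputable def e5b_tau {C M : Type*} [Field C] [Field M] [Algebra C M] {x y : M}
    (A : SA C M) (hx : A.g x = x) (hy : A.g y = y) :
    IntermediateField.adjoin C {x, y} ≃+* IntermediateField.adjoin C {x, y} where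
  toFun f := ⟨A.g f, (e5b_pre A hx hy f f.2).1⟩
  invFun f := ⟨A.g.symm f, (e5b_pre A hx hy f f.2).2⟩
  left_inv f := by
    apply Subtype.ext
    exact A.g.symm_apply_apply f
  right_inv f := by
    apply Subtype.ext
    exact A.g.apply_symm_apply f
  map_mul' f g := by
    apply Subtype.ext
    exact map_mul A.g (f : M) (g : M)
  map_add' f g := by
    apply Subtype.ext
    exact map_add A.g (f : M) (g : M)

end

section

open Pool.Agent.Lib.MP_2f3286_ag.Fer (Plc)
open Pool.Agent.Lib.MP_2f3286_ag.Pt (IsPlc DivAt)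
open Pool.Agent.Lib.MP_2f3286_ag.Gl

theorem bs_ri (hp : p.Prime) (hW : Wv p C W) (hB : Bs p W x y h) :
    RI p W (IntermediateField.adjoin C {x, y}) := by
  intro f hf g hg hg1 hfg hd
  obtain ⟨κ, _, k, _, _, D, xb, yb, hb, hκ, hVA, hWA, G⟩ :=
    bs_gred hp hB ⟨x, e5b_mx x y⟩ ⟨y, e5b_my x y⟩ rfl rfl
  have hvg : D.W.A.valuation (⟨g, hg⟩ : IntermediateField.adjoin C {x, y}) = 1 :=
    (e5b_one _ W _ hWA _).2 hg1
  obtain ⟨gb, hgb0, hgb⟩ := has_of_val_eq D.W hvg
  have hsub : D.W.Has ((⟨f, hf⟩ : IntermediateField.adjoin C {x, y}) - ⟨g, hg⟩ ^ p) 0 := by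
    rw [has_val_lt, e5b_lt _ W _ hWA]
    exact hfg
  have hf' : D.W.Has (⟨f, hf⟩ : IntermediateField.adjoin C {x, y}) (gb ^ p ^ 1) := by
    have h1 := hsub.add (hgb.pow p)
    rw [sub_add_cancel, zero_add] at h1
    rw [pow_one]
    exact h1
  have hpκ : (p : κ) ≠ 0 := by
    intro h0
    have h1 := has_natCast D.V p
    rw [h0, has_val_lt, e5b_lt _ W _ hVA, map_natCast] at h1
    exact absurd hW.vp (ne_of_lt h1)
  have hf0 : (⟨f, hf⟩ : IntermediateField.adjoin C {x, y}) ≠ 0 := by
    intro h0
    exact hd.ne_zero (congrArg Subtype.val h0)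
  obtain ⟨u, hu⟩ := G.ri hp hpκ 1 hgb0 hf' (by
    rw [pow_one]
    exact (divE_iff hf0).1 hd)
  refine ⟨u, u.2, ?_⟩
  rw [pow_one] at hu
  exact congrArg Subtype.val hu

theorem bs_tr (hp : p.Prime) (hB : Bs p W x y h) (A : SA C M) (hx : A.g x = x) (hy : A.g y = y)
    (st : ∀ c : C, algebraMap C M (A.gC c) ∈ W ↔ algebraMap C M c ∈ W)
    (cA : ∀ c : C, algebraMap C M c ∈ W →
      W.valuation (algebraMap C M (A.gC c) - algebraMap C M c) < 1) :
    Tr W A (IntermediateField.adjoin C {x, y}) := by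
  intro f hf hfW
  obtain ⟨κ, _, k, _, _, D, xb, yb, hb, hκ, hVA, hWA, G⟩ :=
    bs_gred hp hB ⟨x, e5b_mx x y⟩ ⟨y, e5b_my x y⟩ rfl rfl
  have hτ : IsSemi (⟨x, e5b_mx x y⟩ : IntermediateField.adjoin C {x, y}) ⟨y, e5b_my x y⟩ A.gC
      (e5b_tau A hx hy) := by
    refine ⟨fun c => ?_, ?_, ?_⟩
    · apply Subtype.ext
      exact A.hC c
    · apply Subtype.ext
      exact hx
    · apply Subtype.ext
      exact hy
  have hδ : ∀ c z, D.V.Has c z → D.V.Has (A.gC c) z := by
    intro c z hc
    have h1 : algebraMap C M c ∈ W := by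
      obtain ⟨h2, _⟩ := hc
      rw [hVA, ValuationSubring.mem_comap] at h2
      exact h2
    have h2 : D.V.Has (A.gC c - c) 0 := by
      rw [has_val_lt, e5b_lt _ W _ hVA, map_sub]
      exact cA c h1
    have h3 := h2.add hc
    rwa [sub_add_cancel, zero_add] at h3
  have hfA : (⟨f, hf⟩ : IntermediateField.adjoin C {x, y}) ∈ D.W.A := by
    rw [hWA, ValuationSubring.mem_comap]
    exact hfW
  have h1 : D.W.Has (⟨f, hf⟩ : IntermediateField.adjoin C {x, y}) (D.W.φ ⟨_, hfA⟩) := ⟨hfA, rfl⟩
  have h2 := G.semi hp hτ hδ h1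
  constructor
  · obtain ⟨h3, _⟩ := h2
    rw [hWA, ValuationSubring.mem_comap] at h3
    exact h3
  · have h3 := h2.sub h1
    rw [sub_self, has_val_lt, e5b_lt _ W _ hWA] at h3
    exact h3

private theorem e5b_ev {C M : Type*} [Field C] [Field M] [Algebra C M]
    {E : IntermediateField C M} (p : ℕ) (x y : E) (a : ℕ → C[X]) :
    ((ev p x y a : E) : M) = ev p (x : M) (y : M) a := by
  unfold ev
  change algebraMap E M _ = _
  rw [map_sum]
  refine Finset.sum_congr rfl fun i _ => ?_
  rw [map_mul, map_pow, ← aeval_algebraMap_apply]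
  rfl

private theorem e5b_mul {C M : Type*} [Field C] [Field M] [Algebra C M]
    {E : IntermediateField C M} (f x : E) (b : C[X]) :
    ((f * aeval x b : E) : M) = (f : M) * aeval (x : M) b := by
  change algebraMap E M (f * aeval x b) = _
  rw [map_mul, ← aeval_algebraMap_apply]
  rfl

private theorem e5b_evC {C M : Type*} [Field C] [Field M] [Algebra C M] (p : ℕ) (x y : M) (c : C)
    (a : ℕ → C[X]) :
    ev p x y (fun i => Polynomial.C c * a i) = algebraMap C M c * ev p x y a := by
  unfold ev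
  rw [Finset.mul_sum]
  refine Finset.sum_congr rfl (fun i _ => ?_)
  rw [map_mul, aeval_C, mul_assoc]

/-- a polynomial with integral coefficients is integral at `x` -/
private theorem e5b_int {C M : Type*} [Field C] [Field M] [Algebra C M] {W : ValuationSubring M}
    {x : M} (hx : x ∈ W) (P : C[X]) (hP : ∀ i, algebraMap C M (P.coeff i) ∈ W) :
    aeval x P ∈ W := by
  rw [aeval_eq_sum_range]
  refine sum_mem fun i _ => ?_
  rw [Algebra.smul_def]
  exact mul_mem (hP i) (pow_mem hx i)

/-- common denominators -/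
private theorem e5b_common {C M : Type*} [Field C] [Field M] [Algebra C M] {x : M}
    {p : ℕ} (r : Fin p → M) (hr : ∀ i, r i ∈ IntermediateField.adjoin C {x}) :
    ∃ (b : C[X]) (a : Fin p → C[X]), aeval x b ≠ 0 ∧ ∀ i, r i * aeval x b = aeval x (a i) := by
  classical
  have h1 : ∀ i, ∃ n d : C[X], aeval x d ≠ 0 ∧ r i * aeval x d = aeval x n := by
    intro i
    obtain ⟨n, d, hnd⟩ := (IntermediateField.mem_adjoin_simple_iff C (r i)).1 (hr i)
    by_cases hd : aeval x d = 0
    · refine ⟨0, 1, by rw [map_one]; exact one_ne_zero, ?_⟩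
      rw [hnd, hd, div_zero, zero_mul, map_zero]
    · refine ⟨n, d, hd, ?_⟩
      rw [hnd, div_mul_cancel₀ _ hd]
  choose n d hd hnd using h1
  refine ⟨∏ i, d i, fun i => n i * ∏ j ∈ Finset.univ.erase i, d j, ?_, fun i => ?_⟩
  · rw [map_prod]
    exact Finset.prod_ne_zero_iff.2 fun i _ => hd i
  · rw [← Finset.mul_prod_erase Finset.univ d (Finset.mem_univ i), map_mul, map_mul, ← mul_assoc,
      hnd i]

/-- scaling of polynomials -/
private theorem e5b_scale {C M : Type*} [Field C] [Field M] [Algebra C M] {W : ValuationSubring M}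
    {x : M} (hx : Gs C W x) {b : C[X]} (hb : aeval x b ≠ 0) :
    ∃ c : C, c ≠ 0 ∧ W.valuation (aeval x (Polynomial.C c * b)) = 1 := by
  have hb0 : b ≠ 0 := by
    rintro rfl
    exact hb (map_zero _)
  obtain ⟨c, hc0, hc, i, hi, j, hij⟩ := exists_norm (W.comap (algebraMap C M))
    (a := fun _ => b) (p := 1) ⟨0, one_pos, hb0⟩
  refine ⟨c, hc0, hx.one _ (fun j => ?_) ⟨j, ?_⟩⟩
  · rw [coeff_C_mul]
    exact hc 0 one_pos j
  · rw [coeff_C_mul, hij, map_one, map_one]

theorem bs_on (hp : p.Prime) (hB : Bs p W x y h) :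
    ON W x (IntermediateField.adjoin C {x, y}) p := by
  obtain ⟨κ, _, k, _, _, D, xb, yb, hb, hκ, hVA, hWA, G⟩ :=
    bs_gred hp hB ⟨x, e5b_mx x y⟩ ⟨y, e5b_my x y⟩ rfl rfl
  have hyW : y ∈ W := by
    obtain ⟨h1, _⟩ := G.hy
    rw [hWA, ValuationSubring.mem_comap] at h1
    exact h1
  have hax : ∀ P : C[X], aeval x P ∈ IntermediateField.adjoin C {x} := fun P => by
    rw [aeval_eq_sum_range]
    refine sum_mem fun i _ => ?_
    rw [Algebra.smul_def]
    exact mul_mem (IntermediateField.algebraMap_mem _ _)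
      (pow_mem (IntermediateField.mem_adjoin_simple_self C x) i)
  refine ⟨e5b_mx x y, fun i => y ^ (i : ℕ), fun i => ⟨pow_mem (e5b_my x y) _, pow_mem hyW _⟩,
    ?_, ?_⟩
  · intro f hf
    obtain ⟨a, b, hb0, hab⟩ := G.sup.repr hp ⟨f, hf⟩
    have hbx : aeval x b ≠ 0 := fun h0 => hb0 ((transcendental_iff.1 hB.gs.tr) b h0)
    refine ⟨fun i => aeval x (a i) / aeval x b, fun i => div_mem (hax _) (hax _), ?_⟩
    have h1 := congrArg (fun z : IntermediateField.adjoin C {x, y} => (z : M)) hab
    rw [e5b_ev] at h1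
    rw [e5b_mul] at h1
    have h3 : f = (f * aeval x b) / aeval x b := by rw [mul_div_cancel_right₀ _ hbx]
    rw [h3, h1, ev, Finset.sum_div, Finset.sum_range]
    exact Finset.sum_congr rfl fun i _ => by ring
  · intro r hr hr1
    obtain ⟨b, a, hb0, hab⟩ := e5b_common r fun i => (hr i).1
    obtain ⟨d, hd0, hd⟩ := e5b_scale hB.gs hb0
    -- the polynomials after scaling
    set a' : ℕ → C[X] := fun i => if hi : i < p then Polynomial.C d * a ⟨i, hi⟩ else 0 with ha'
    have ha'i : ∀ i : Fin p, a' i = Polynomial.C d * a i := by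
      intro i
      simp only [ha', i.2, dif_pos]
    have hra : ∀ i : Fin p, r i * aeval x (Polynomial.C d * b) = aeval x (a' i) := by
      intro i
      rw [ha'i, map_mul, map_mul, ← hab i]
      ring
    have hva : ∀ i : Fin p, W.valuation (aeval x (a' i)) = W.valuation (r i) := by
      intro i
      rw [← hra i, map_mul, hd, mul_one]
    obtain ⟨i₀, hi₀⟩ := hr1
    have hne : ∃ i < p, a' i ≠ 0 := by
      refine ⟨i₀, i₀.2, fun h0 => ?_⟩
      have h1 := hva i₀
      rw [h0, map_zero, map_zero, hi₀] at h1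
      exact zero_ne_one h1
    obtain ⟨c, hc0, hc, i₁, hi₁, j₁, hij⟩ := exists_norm D.V.A hne
    have hcW : ∀ i < p, ∀ j, algebraMap C M ((Polynomial.C c * a' i).coeff j) ∈ W := by
      intro i hi j
      have h1 := hc i hi j
      rw [hVA, ValuationSubring.mem_comap] at h1
      rw [coeff_C_mul]
      exact h1
    have hcv : W.valuation (algebraMap C M c) = 1 := by
      apply le_antisymm
      · have h1 := e5b_int hB.gs.mem _ (hcW i₀ i₀.2)
        rw [← W.valuation_le_one_iff, map_mul, aeval_C, map_mul, hva i₀, hi₀, mul_one] at h1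
        exact h1
      · have h1 := hB.gs.one _ (hcW i₁ hi₁) ⟨j₁, by rw [coeff_C_mul, hij, map_one, map_one]⟩
        rw [map_mul, aeval_C, map_mul] at h1
        have h2 : W.valuation (aeval x (a' i₁)) ≤ 1 := by
          have h3 := hva ⟨i₁, hi₁⟩
          simp only at h3
          rw [h3, W.valuation_le_one_iff]
          exact (hr ⟨i₁, hi₁⟩).2
        calc (1 : W.ValueGroup) = W.valuation (algebraMap C M c) * W.valuation (aeval x (a' i₁)) :=
              h1.symm
          _ ≤ W.valuation (algebraMap C M c) * 1 := mul_le_mul_right h2 _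
          _ = W.valuation (algebraMap C M c) := mul_one _
    obtain ⟨z, hz0, hz⟩ := G.ev_unit hp (a := fun i => Polynomial.C c * a' i)
      (fun i hi j => by
        show (Polynomial.C c * a' i).coeff j ∈ D.V.A
        rw [coeff_C_mul]
        exact hc i hi j)
      ⟨i₁, hi₁, j₁, by
        show (Polynomial.C c * a' i₁).coeff j₁ = 1
        rw [coeff_C_mul]
        exact hij⟩
    have hv := has_val_eq D.W hz hz0
    rw [e5b_one _ W _ hWA] at hv
    have hv2 : W.valuation (ev p x y (fun i => Polynomial.C c * a' i)) = 1 := by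
      rw [← hv]
      congr 1
      exact (e5b_ev p (⟨x, e5b_mx x y⟩ : IntermediateField.adjoin C {x, y}) ⟨y, e5b_my x y⟩
        (fun i => Polynomial.C c * a' i)).symm
    rw [e5b_evC, map_mul, hcv, one_mul] at hv2
    have hsum : (∑ i, r i * y ^ (i : ℕ)) * aeval x (Polynomial.C d * b) = ev p x y a' := by
      rw [ev, Finset.sum_range, Finset.sum_mul]
      refine Finset.sum_congr rfl fun i _ => ?_
      rw [← hra i]
      ring
    rw [← hsum, map_mul, hd, mul_one] at hv2
    exact hv2

end

end Pool.Agent.Lib.MP_2f3286_ag.Pp
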