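import Pool.Agent.Lib.MP_2f3286_ag.Pp.Defs
import Pool.Agent.Lib.MP_2f3286_ag.Gl.GE
import Pool.Agent.Lib.MP_2f3286_ag.Gl.GC
import Pool.Agent.Lib.MP_2f3286_ag.Gl.RIC
import Pool.Agent.Lib.MP_2f3286_ag.Pp.BR2
import Pool.Agent.Lib.MP_2f3286_ag.Pp.E5b

/-!
# The first field: good reduction   (module E5c)

We write: `L = IntermediateField.adjoin C {x, y}`. PROOF of `bs_wF`. Let `W' = W.comap A.g`: a valuation ring of `M`; `c ∈ W' ↔ c ∈ W` for constants. For `P : C[X]` with coefficients in `W`, one of valuation one, `A.g (P(x)) = P^A(x)` (coefficients `A.gC`) has valuation one at `W`, so `Gs C W' x`. The elements `1, y, ..., y ^ (p - 1)` (`bs_on`): by `Full.val_unique_of_deg`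
(Full/ValExt.lean), or directly: `f ∈ L`, `f b(x) = ∑ i < p, a_i(x) y ^ i` (`IsSup.repr`), scale `b` (`W(b(x)) = 1`, also after applying `A.g`); `f ∈ W` iff all coefficients of the `a_i` are in `W` (`GRed.ev_mem`, `ev_has`), iff all coefficients `A.gC (..)` are, iff `A.g f ∈ W` (`A.g f * b^A(x) = ∑ a_i^A(x) y ^ i`).
-/

open Polynomial IntermediateField

namespace Pool.Agent.Lib.MP_2f3286_ag.Pp

open Pool.Agent.Lib.MP_2f3286_ag.Gl (IsSup Red GRed)

universe u v

variable {C : Type u} {M : Type v} [Field C] [IsAlgClosed C] [CharZero C] [Field M] [Algebra C M]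
  {p : ℕ} {W : ValuationSubring M} {x y : M} {h : C[X]}

/-- the inverse of an automorphism -/
def e5cInv (A : SA C M) : SA C M where
  g := A.g.symm
  gC := A.gC.symm
  hC := fun c => by
    rw [RingEquiv.symm_apply_eq, A.hC, RingEquiv.apply_symm_apply]

omit [IsAlgClosed C] [CharZero C] in
theorem e5c_aeval (A : SA C M) (hx : A.g x = x) (P : C[X]) :
    A.g (aeval x P) = aeval x (P.map (A.gC : C →+* C)) := by
  induction P using Polynomial.induction_on' with
  | add P Q hP hQ => rw [map_add, map_add, hP, hQ, Polynomial.map_add, map_add]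
  | monomial n c =>
    rw [aeval_monomial, map_mul, map_pow, hx, A.hC, map_monomial, aeval_monomial]
    rfl

omit [IsAlgClosed C] [CharZero C] in
theorem e5c_aeval_mem {z : M} (hz : z ∈ W) {P : C[X]} (hP : ∀ i, algebraMap C M (P.coeff i) ∈ W) :
    aeval z P ∈ W := by
  rw [aeval_eq_sum_range]
  refine sum_mem fun i _ => ?_
  rw [Algebra.smul_def]
  exact mul_mem (hP i) (pow_mem hz i)

theorem e5c_le (hp : p.Prime) (hB : Bs p W x y h) (A : SA C M) (hx : A.g x = x) (hy : A.g y = y)
    (st : ∀ c : C, algebraMap C M (A.gC c) ∈ W ↔ algebraMap C M c ∈ W) :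
    ∀ f ∈ IntermediateField.adjoin C {x, y}, f ∈ W → A.g f ∈ W := by
  intro f hf hfW
  have hxL : x ∈ IntermediateField.adjoin C {x, y} :=
    IntermediateField.subset_adjoin C _ (by simp)
  have hyL : y ∈ IntermediateField.adjoin C {x, y} :=
    IntermediateField.subset_adjoin C _ (by simp)
  obtain ⟨κ, _, k, _, _, D, xb, yb, hb, -, hV, hWA, G⟩ :=
    bs_gred hp hB ⟨x, hxL⟩ ⟨y, hyL⟩ rfl rfl
  have hmemV : ∀ c : C, c ∈ D.V.A ↔ algebraMap C M c ∈ W := fun c => by
    rw [hV, ValuationSubring.mem_comap]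
  have hfA : (⟨f, hf⟩ : IntermediateField.adjoin C {x, y}) ∈ D.W.A := by
    rw [hWA, ValuationSubring.mem_comap]
    exact hfW
  obtain ⟨a, b, ab, bb, hab, hbb, hbb0, h1, -⟩ :=
    G.repr_red hp (f := (⟨f, hf⟩ : IntermediateField.adjoin C {x, y})) ⟨hfA, rfl⟩
  -- in `M`
  have hval : ∀ P : C[X], ((aeval (⟨x, hxL⟩ : IntermediateField.adjoin C {x, y}) P :
      IntermediateField.adjoin C {x, y}) : M) = aeval x P := by
    intro P
    have := Polynomial.aeval_algebraMap_apply M (⟨x, hxL⟩ : IntermediateField.adjoin C {x, y}) P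
    exact this.symm
  have h2 : f * aeval x b = ∑ i ∈ Finset.range p, aeval x (a i) * y ^ i := by
    have h3 := congrArg (fun z : IntermediateField.adjoin C {x, y} => (z : M)) h1
    simp only [Gl.ev] at h3
    push_cast at h3
    rw [hval] at h3
    simpa [hval] using h3
  have hyW : y ∈ W := by
    have h3 : y ^ p ∈ W := by
      rw [hB.eq]
      exact e5c_aeval_mem hB.gs.mem hB.int
    rw [← ValuationSubring.valuation_le_one_iff, map_pow] at h3
    rw [← ValuationSubring.valuation_le_one_iff]
    exact (pow_le_one_iff hp.ne_zero).1 h3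
  have hnum : A.g (∑ i ∈ Finset.range p, aeval x (a i) * y ^ i) ∈ W := by
    rw [map_sum]
    refine sum_mem fun i hi => ?_
    rw [map_mul, map_pow, hy, e5c_aeval A hx]
    refine mul_mem (e5c_aeval_mem hB.gs.mem fun j => ?_) (pow_mem hyW i)
    rw [coeff_map]
    refine (st _).2 ((hmemV _).1 ?_)
    exact (hab i (Finset.mem_range.1 hi) j).1
  have hden : W.valuation (A.g (aeval x b)) = 1 := by
    rw [e5c_aeval A hx]
    refine hB.gs.one _ (fun j => ?_) ?_
    · rw [coeff_map]
      exact (st _).2 ((hmemV _).1 (hbb j).1)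
    · obtain ⟨j, hj⟩ : ∃ j, bb.coeff j ≠ 0 := by
        by_contra hcon
        push Not at hcon
        exact hbb0 (Polynomial.ext fun j => by rw [hcon j, coeff_zero])
      refine ⟨j, ?_⟩
      have h4 : b.coeff j ≠ 0 := (hbb j).ne_zero hj
      have h5 : (b.coeff j)⁻¹ ∈ D.V.A := ((hbb j).inv hj).1
      have h6 : algebraMap C M (A.gC (b.coeff j)) ∈ W := (st _).2 ((hmemV _).1 (hbb j).1)
      have h7 : algebraMap C M (A.gC (b.coeff j)⁻¹) ∈ W := (st _).2 ((hmemV _).1 h5)
      rw [map_inv₀, map_inv₀] at h7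
      have h8 : algebraMap C M (A.gC (b.coeff j)) ≠ 0 := by
        rw [Ne, map_eq_zero, map_eq_zero]
        exact h4
      rw [coeff_map]
      have h9 := (ValuationSubring.valuation_le_one_iff _ _).2 h6
      have h10 := (ValuationSubring.valuation_le_one_iff _ _).2 h7
      rw [map_inv₀] at h10
      exact le_antisymm h9 ((inv_le_one₀ (zero_lt_iff.2 ((Valuation.ne_zero_iff _).2 h8))).1 h10)
  have h3 : A.g f * A.g (aeval x b) ∈ W := by
    rw [← map_mul, h2]
    exact hnum
  rw [← ValuationSubring.valuation_le_one_iff, map_mul, hden, mul_one] at h3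
  exact (ValuationSubring.valuation_le_one_iff _ _).1 h3

theorem bs_wF (hp : p.Prime) (hB : Bs p W x y h) (A : SA C M) (hx : A.g x = x) (hy : A.g y = y)
    (st : ∀ c : C, algebraMap C M (A.gC c) ∈ W ↔ algebraMap C M c ∈ W) :
    ∀ f ∈ IntermediateField.adjoin C {x, y}, A.g f ∈ W ↔ f ∈ W := by
  intro f hf
  refine ⟨fun h1 => ?_, e5c_le hp hB A hx hy st f hf⟩
  have hgf : A.g f ∈ IntermediateField.adjoin C {x, y} := by
    have key : ∀ z ∈ IntermediateField.adjoin C {x, y},
        A.g z ∈ IntermediateField.adjoin C {x, y} := by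
      intro z hz
      induction hz using IntermediateField.adjoin_induction with
      | mem z hz =>
        rcases hz with rfl | hz
        · rw [hx]; exact IntermediateField.subset_adjoin C _ (by simp)
        · rw [Set.mem_singleton_iff] at hz
          subst hz
          rw [hy]; exact IntermediateField.subset_adjoin C _ (by simp)
      | algebraMap c => rw [A.hC]; exact IntermediateField.algebraMap_mem _ _
      | add z w _ _ hz hw => rw [map_add]; exact add_mem hz hw
      | inv z _ hz => rw [map_inv₀]; exact inv_mem hz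
      | mul z w _ _ hz hw => rw [map_mul]; exact mul_mem hz hw
    exact key f hf
  have h2 := e5c_le hp hB (e5cInv A) (show A.g.symm x = x by
    rw [RingEquiv.symm_apply_eq]; exact hx.symm) (show A.g.symm y = y by
    rw [RingEquiv.symm_apply_eq]; exact hy.symm) (fun c => by
      change algebraMap C M (A.gC.symm c) ∈ W ↔ algebraMap C M c ∈ W
      have h3 := st (A.gC.symm c)
      rw [RingEquiv.apply_symm_apply] at h3
      exact h3.symm) (A.g f) hgf h1
  change A.g.symm (A.g f) ∈ W at h2
  rwa [RingEquiv.symm_apply_apply] at h2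

end Pool.Agent.Lib.MP_2f3286_ag.Pp
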