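import Pool.Agent.Lib.MP_2f3286_ag.Pp.E4
import Pool.Agent.Lib.MP_2f3286_ag.Pp.E5
import Pool.Agent.Lib.MP_2f3286_ag.Gl.U7

/-!
# The local rings of the first field at the points with `x` finite   (module E6)

PROOF of `lm_fin` (the steps (1) - (7) of `GRed.ur` in Gl/U7.lean, read that file first; many of its private lemmas can be copied). `L = adjoin C {x, y}`, `bs_gred` (E5): `D`, `G : GRed ...`, `V = D.V.A = W ∩ C`. Let `R` with `CR W L R`, `x ∈ R`. `Qb = {z : k | ∃ u : L, D.W.Has u z ∧ (u : M) ∈ R}` is a place of `k` over `κ`: if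
`D.W.Has u z`, `D.W.Has u' z`, `u ∈ R`, then `W(u - u') < 1`, so `u - u' ∈ R` (`R ≤ W` implies `{W < 1} ⊆ {R < 1}`), `u' ∈ R`; `z ≠ 0`: `u` or `u⁻¹` is in `R`; constants: `CR.const`; `Qb ≠ ⊤`: `CR.ne`. `xb ∈ Qb`. For `u : L` with `D.W.Has u z`: `R(u) < 1` iff `Qb.valuation z < 1`.
(1) `IsSup p xb yb hb` (`GRed.supb`); `IsSup.exists_center`, `IsSup.fin_place` (Gl/SF.lean) for `Qb`: `z : κ` with `v̄ (xb - z) < 1`, and (1a) `hb(z) ≠ 0`, `w ^ p = hb(z)`, `v̄ (yb - w) < 1`, or (1b) `hb(z) = 0`, `v̄ yb < 1` (`w = 0`). (2) Lifts: (1a) `a : C` with `V.Has a z` (`D.surjV`), `b ^ p = h(a)`, `V.Has b w` (`Gl.root_lift`);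
(1b) `h(a) = 0`, `V.Has a z` (`GRed.roots_red`), `h = (X - C a) * h₁`, `b = 0`, `h₁` integral, the reduction of `h₁` does not vanish at `z`. So `R(x - a) < 1`, `R(y - b) < 1`. (3) Every `τ ∈ T` (in `L`): `τ * b_τ(x) = ∑ i < p, (a_τ)_i(x) y ^ i` (`IsSup.repr`). `T_C` = the finite set of `a`, `b` and all coefficients of
`h`, `h₁`, `b_τ`, `(a_τ)_i`. `Gl.exists_dvr` (Gl/U4.lean) for `V` (`V(l) < 1`), `T_C`: a number field `F ⊆ C`, `π`; `O = V ∩ F` (as a subring `O_M` of `M`: its image), Noetherian, contains `π`, `a`, `b`, the coefficients of `h`, `h₁`; `c ∈ O`, `V(c) < 1` gives `c / π ∈ O`; for `e ∈ F`, `e π ^ n ∈ O` for large `n`.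
(4) `A = Algebra.adjoin O {x, y}`: `u ∈ A` has a residue in `Algebra.adjoin κ {xb, yb} ⊆ Qb` (`GRed.adjoin_has`, Gl/UA.lean), so `u ∈ R`; `u ∈ A`, `W(u) < 1` gives `u / π ∈ A` (`GRed.adjoin_ker`). `hO`: `c ∈ O`, `R(c) < 1`: then `V(c) < 1` (a constant of valuation one at `W` has valuation one at `R`), `c / π ∈ O`. (5) `s`, `t`:
(1a) `t = x - a`, `s = ∑ i < p, y ^ i b ^ (p - 1 - i)` (`Gl.loc_unit`), residue `p w ^ (p - 1) ≠ 0` modulo `v̄ < 1`; (1b) `t = y`, `s = h₁(x)` (`Gl.loc_root`). (6) `lb1` (E4): `S`; `LocM W L R S π t`: `le`: elements of `S` are quotients of elements of `A ⊆ L`. (7) `Fr S τ`: multiply `b_τ`, `(a_τ)_i` by a power of `π` to have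
coefficients in `O`: numerator and denominator in `A ⊆ S` (`Gl.ev_adjoin`).
The statement is about `M`, the lemmas of Gl are about the field `L`; transport along `algebraMap L M` (`Subring.map`, `Algebra.adjoin` is mapped to `Algebra.adjoin`).
-/

open Polynomial IntermediateField

namespace Pool.Agent.Lib.MP_2f3286_ag.Pp

section e6

open Pool.Agent.Lib.MP_2f3286_ag.Gl (IsSup Red GRed ev PHas loc_unit loc_root has_val_lt has_val_eq
  has_of_val_eq has_natCast root_lift exists_dvr ev_adjoin)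
open Pool.Agent.Lib.MP_2f3286_ag.Fer (Plc)
open Pool.Agent.Lib.MP_2f3286_ag.Pt (IsPlc)

private theorem e6_lt_iff {K : Type*} [Field K] (A : ValuationSubring K) {u : K} (hu : u ≠ 0) :
    A.valuation u < 1 ↔ u⁻¹ ∉ A := by
  rw [← A.valuation_le_one_iff, map_inv₀, not_le,
    one_lt_inv₀ (zero_lt_iff.2 ((Valuation.ne_zero_iff _).2 hu))]

private theorem e6_tr {K K' : Type*} [Field K] [Field K'] (f : K →+* K') {A : ValuationSubring K}
    {B : ValuationSubring K'} (hA : ∀ u, u ∈ A ↔ f u ∈ B) (u : K) :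
    A.valuation u < 1 ↔ B.valuation (f u) < 1 := by
  by_cases hu : u = 0
  · subst hu
    rw [map_zero, map_zero, map_zero]
    exact ⟨fun _ => zero_lt_one, fun _ => zero_lt_one⟩
  · rw [e6_lt_iff A hu, e6_lt_iff B ((_root_.map_ne_zero f).2 hu), hA, map_inv₀]

private theorem e6_one_iff {K : Type*} [Field K] (A : ValuationSubring K) (u : K) :
    A.valuation u = 1 ↔ u ∈ A ∧ ¬ A.valuation u < 1 := by
  rw [← A.valuation_le_one_iff]
  constructor
  · intro h
    exact ⟨h.le, by rw [h]; exact lt_irrefl _⟩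
  · rintro ⟨h1, h2⟩
    exact le_antisymm h1 (not_lt.1 h2)

private theorem e6_tr1 {K K' : Type*} [Field K] [Field K'] (f : K →+* K') {A : ValuationSubring K}
    {B : ValuationSubring K'} (hA : ∀ u, u ∈ A ↔ f u ∈ B) (u : K) :
    A.valuation u = 1 ↔ B.valuation (f u) = 1 := by
  rw [e6_one_iff, e6_one_iff, hA, e6_tr f hA]

private theorem e6_le {K : Type*} [Field K] {A R : ValuationSubring K} (hR : R ≤ A) {u : K}
    (hu : A.valuation u < 1) : R.valuation u < 1 := by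
  by_cases h0 : u = 0
  · rw [h0, map_zero]
    exact zero_lt_one
  · rw [e6_lt_iff _ h0] at hu ⊢
    exact fun h => hu (hR h)

/-- the image of `R` in the residue field -/
private def e6_Q {L k : Type*} [Field L] [Field k] (P : Plc L k) (R : ValuationSubring L)
    (hs : ∀ g, ∃ f, P.Has f g) : ValuationSubring k where
  carrier := {z | ∃ u ∈ R, P.Has u z}
  mul_mem' := by
    rintro a b ⟨u, hu, hu'⟩ ⟨v, hv, hv'⟩
    exact ⟨u * v, mul_mem hu hv, hu'.mul hv'⟩
  one_mem' := ⟨1, one_mem _, Plc.has_one⟩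
  add_mem' := by
    rintro a b ⟨u, hu, hu'⟩ ⟨v, hv, hv'⟩
    exact ⟨u + v, add_mem hu hv, hu'.add hv'⟩
  zero_mem' := ⟨0, zero_mem _, Plc.has_zero⟩
  neg_mem' := by
    rintro a ⟨u, hu, hu'⟩
    exact ⟨-u, neg_mem hu, hu'.neg⟩
  mem_or_inv_mem' := by
    intro z
    obtain ⟨u, hu⟩ := hs z
    rcases R.mem_or_inv_mem u with h | h
    · exact Or.inl ⟨u, h, hu⟩
    · by_cases hz : z = 0
      · left
        rw [hz]
        exact ⟨0, zero_mem _, Plc.has_zero⟩
      · exact Or.inr ⟨u⁻¹, h, hu.inv hz⟩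

section
variable {L k : Type*} [Field L] [Field k] {P : Plc L k} {R : ValuationSubring L}
  {hs : ∀ g, ∃ f, P.Has f g}

private theorem e6_Q_mem : ∀ {z : k}, z ∈ e6_Q P R hs ↔ ∃ u ∈ R, P.Has u z := Iff.rfl

private theorem e6_Q_iff (hR : R ≤ P.A) {u : L} {z : k} (hu : P.Has u z) :
    z ∈ e6_Q P R hs ↔ u ∈ R := by
  constructor
  · rintro ⟨v, hv, hv'⟩
    have h1 : P.Has (u - v) 0 := by
      rw [← sub_self z]
      exact hu.sub hv'
    have h2 : u - v ∈ R :=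
      (R.valuation_le_one_iff _).1 (e6_le hR ((has_val_lt P).1 h1)).le
    have h3 := add_mem h2 hv
    rwa [sub_add_cancel] at h3
  · intro h
    exact ⟨u, h, hu⟩

private theorem e6_Q_lt (hR : R ≤ P.A) {u : L} {z : k} (hu : P.Has u z) :
    (e6_Q P R hs).valuation z < 1 ↔ R.valuation u < 1 := by
  by_cases hz : z = 0
  · subst hz
    rw [map_zero]
    exact ⟨fun _ => e6_le hR ((has_val_lt P).1 hu), fun _ => zero_lt_one⟩
  · have hu0 : u ≠ 0 := hu.ne_zero hz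
    rw [e6_lt_iff _ hz, e6_lt_iff _ hu0, e6_Q_iff hR (hu.inv hz)]

private theorem e6_Q_one (hR : R ≤ P.A) {u : L} {z : k} (hu : P.Has u z) :
    (e6_Q P R hs).valuation z = 1 ↔ R.valuation u = 1 := by
  rw [e6_one_iff, e6_one_iff, e6_Q_iff hR hu, e6_Q_lt hR hu]

end

private theorem e6_pow {C : Type*} [Field C] [CharZero C] (V : ValuationSubring C)
    (F : IntermediateField ℚ C) {π : C} (hπF : π ∈ F) (hπ0 : π ≠ 0) (hπ1 : V.valuation π < 1)
    (hval : ∀ c ∈ F, c ≠ 0 → ∃ n : ℤ, V.valuation c = V.valuation π ^ n) {e : C} (he : e ∈ F) :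
    ∃ n : ℕ, ∀ N, n ≤ N → e * π ^ N ∈ (V.toSubring ⊓ F.toSubalgebra.toSubring : Subring C) := by
  by_cases h0 : e = 0
  · refine ⟨0, fun N _ => ?_⟩
    rw [h0, zero_mul]
    exact zero_mem _
  · obtain ⟨i, hi⟩ := hval e he h0
    refine ⟨(-i).toNat, fun N hN => ?_⟩
    have hvπ : V.valuation π ≠ 0 := (Valuation.ne_zero_iff _).2 hπ0
    obtain ⟨M, hM⟩ : ∃ M : ℕ, i + N = M := Int.eq_ofNat_of_zero_le (by omega)
    refine Subring.mem_inf.2 ⟨?_, ?_⟩
    · show e * π ^ N ∈ V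
      rw [← V.valuation_le_one_iff, map_mul, map_pow, hi, ← zpow_natCast, ← zpow_add₀ hvπ, hM,
        zpow_natCast]
      exact pow_le_one' hπ1.le M
    · show e * π ^ N ∈ F
      exact mul_mem he (pow_mem hπF N)

private theorem e6_div {C : Type*} [Field C] [CharZero C] (V : ValuationSubring C)
    (F : IntermediateField ℚ C) {π : C} (hπF : π ∈ F) (hπ0 : π ≠ 0) (hπ1 : V.valuation π < 1)
    (hval : ∀ c ∈ F, c ≠ 0 → ∃ n : ℤ, V.valuation c = V.valuation π ^ n) {c : C}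
    (hc : c ∈ (V.toSubring ⊓ F.toSubalgebra.toSubring : Subring C)) (hc1 : V.valuation c < 1) :
    c / π ∈ (V.toSubring ⊓ F.toSubalgebra.toSubring : Subring C) := by
  have hcF : c ∈ F := (Subring.mem_inf.1 hc).2
  by_cases h0 : c = 0
  · rw [h0, zero_div]
    exact zero_mem _
  · obtain ⟨i, hi⟩ := hval c hcF h0
    have hvπ : V.valuation π ≠ 0 := (Valuation.ne_zero_iff _).2 hπ0
    have hi1 : 1 ≤ i := by
      by_contra hcon
      push Not at hcon
      obtain ⟨M, hM⟩ : ∃ M : ℕ, -i = M := Int.eq_ofNat_of_zero_le (by omega)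
      have h1 : V.valuation c * V.valuation π ^ M = 1 := by
        rw [hi, ← zpow_natCast, ← hM, ← zpow_add₀ hvπ, add_neg_cancel, zpow_zero]
      have h2 : V.valuation c * V.valuation π ^ M < 1 :=
        mul_lt_one_of_lt_of_le hc1 (pow_le_one' hπ1.le M)
      exact absurd h1 h2.ne
    obtain ⟨M, hM⟩ : ∃ M : ℕ, i - 1 = M := Int.eq_ofNat_of_zero_le (by omega)
    refine Subring.mem_inf.2 ⟨?_, ?_⟩
    · show c / π ∈ V
      have h1 : V.valuation (c / π) = V.valuation π ^ M := by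
        rw [map_div₀, hi, ← zpow_natCast, ← hM, zpow_sub_one₀ hvπ, div_eq_mul_inv]
      rw [← V.valuation_le_one_iff, h1]
      exact pow_le_one' hπ1.le M
    · show c / π ∈ F
      exact div_mem hcF hπF

private theorem e6_st {p : ℕ} (hp : p.Prime) {C L κ k : Type*} [Field C] [IsAlgClosed C]
    [CharZero C] [Field L] [Algebra C L] [Field κ] [Field k]
    [Algebra κ k] {D : Red C L κ k} {x y : L} {h : C[X]} {xb yb : k} {hb : κ[X]}
    (hpκ : (p : κ) ≠ 0) (G : GRed p D x y h xb yb hb)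
    (Qb : ValuationSubring k) (hQb : IsPlc κ Qb) (hxb : xb ∈ Qb)
    {O : Subring C} (hOV : ∀ c ∈ O, c ∈ D.V.A) (hO : ∀ i, h.coeff i ∈ O)
    {a b : C} {z w : κ} (haO : a ∈ O) (hbO : b ∈ O) (ha : D.V.Has a z) (hbw : D.V.Has b w)
    (hxz : Qb.valuation (xb - algebraMap κ k z) < 1)
    (hyw : Qb.valuation (yb - algebraMap κ k w) < 1)
    (hcase : (b ^ p = h.eval a ∧ w ≠ 0) ∨ (h.eval a = 0 ∧ b = 0)) :
    ∃ s ∈ Algebra.adjoin O ({x, y} : Set L), ∃ t ∈ Algebra.adjoin O ({x, y} : Set L),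
      (∃ z', D.W.Has s z' ∧ Qb.valuation z' = 1) ∧ (∃ z', D.W.Has t z' ∧ Qb.valuation z' < 1) ∧
      (∃ u ∈ Algebra.adjoin O ({x, y} : Set L), s * (x - algebraMap C L a) = t * u) ∧
      (∃ u ∈ Algebra.adjoin O ({x, y} : Set L), s * (y - algebraMap C L b) = t * u) := by
  have hxA : x ∈ Algebra.adjoin O ({x, y} : Set L) := Algebra.subset_adjoin (Set.mem_insert x {y})
  have hyA : y ∈ Algebra.adjoin O ({x, y} : Set L) :=
    Algebra.subset_adjoin (Set.mem_insert_of_mem x rfl)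
  -- the residue homomorphism
  have hmemW : ∀ u : Algebra.adjoin O ({x, y} : Set L), (u : L) ∈ D.W.A := by
    intro u
    obtain ⟨z, _, hz⟩ := G.adjoin_has hOV u.2
    exact hz.1
  obtain ⟨ρ, hρ⟩ : ∃ ρ : Algebra.adjoin O ({x, y} : Set L) →+* k,
      ∀ u : Algebra.adjoin O ({x, y} : Set L), D.W.Has (u : L) (ρ u) :=
    ⟨D.W.φ.comp ((algebraMap (Algebra.adjoin O ({x, y} : Set L)) L).codRestrict D.W.A hmemW),
      fun u => ⟨hmemW u, rfl⟩⟩
  have hwQ : algebraMap κ k w ∈ Qb := hQb.1 w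
  have hyb : yb ∈ Qb := by
    have h1 : yb - algebraMap κ k w ∈ Qb := (Qb.valuation_le_one_iff _).1 hyw.le
    have h2 := add_mem h1 hwQ
    rwa [sub_add_cancel] at h2
  have hadj : ∀ v ∈ Algebra.adjoin κ ({xb, yb} : Set k), v ∈ Qb := by
    intro v hv
    refine Algebra.adjoin_induction (p := fun v _ => v ∈ Qb) ?_ ?_ ?_ ?_ hv
    · rintro u (rfl | rfl)
      · exact hxb
      · exact hyb
    · exact hQb.1
    · intro u v _ _ h1 h2
      exact add_mem h1 h2
    · intro u v _ _ h1 h2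
      exact mul_mem h1 h2
  have hρQ : ∀ u, ρ u ∈ Qb := by
    intro u
    obtain ⟨z', hz', hz''⟩ := G.adjoin_has hOV u.2
    rw [(hρ u).unique hz'']
    exact hadj z' hz'
  obtain ⟨σ, hσ⟩ : ∃ σ : Algebra.adjoin O ({x, y} : Set L) →+* IsLocalRing.ResidueField Qb,
      ∀ u, σ u = IsLocalRing.residue Qb ⟨ρ u, hρQ u⟩ :=
    ⟨(IsLocalRing.residue Qb).comp (ρ.codRestrict Qb hρQ), fun u => rfl⟩
  obtain ⟨rκ, hrκ⟩ : ∃ rκ : κ →+* IsLocalRing.ResidueField Qb,
      ∀ c, rκ c = IsLocalRing.residue Qb ⟨algebraMap κ k c, hQb.1 c⟩ :=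
    ⟨(IsLocalRing.residue Qb).comp ((algebraMap κ k).codRestrict Qb hQb.1), fun u => rfl⟩
  obtain ⟨redO, hred⟩ : ∃ redO : O →+* κ, ∀ c : O, D.V.Has (c : C) (redO c) :=
    ⟨D.V.φ.comp ((O.subtype).codRestrict D.V.A fun c => hOV c c.2), fun c => ⟨hOV c c.2, rfl⟩⟩
  have hσO : ∀ c : O, σ (algebraMap O _ c) = rκ (redO c) := by
    intro c
    rw [hσ, hrκ]
    congr 1
    apply Subtype.ext
    exact (hρ (algebraMap O _ c)).unique (D.base _ _ (hred c))
  have hσ1 : ∀ u c, Qb.valuation (ρ u - algebraMap κ k c) < 1 → σ u = rκ c := by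
    intro u c hu
    rw [hσ, hrκ, ← sub_eq_zero, ← map_sub, IsLocalRing.residue_eq_zero_iff,
      ValuationSubring.valuation_lt_one_iff]
    exact hu
  have hρx : ρ ⟨x, hxA⟩ = xb := (hρ _).unique G.hx
  have hρy : ρ ⟨y, hyA⟩ = yb := (hρ _).unique G.hy
  have hσx : σ ⟨x, hxA⟩ = rκ z := hσ1 _ _ (by rw [hρx]; exact hxz)
  have hσy : σ ⟨y, hyA⟩ = rκ w := hσ1 _ _ (by rw [hρy]; exact hyw)
  have hval1 : ∀ u, σ u ≠ 0 → Qb.valuation (ρ u) = 1 := by
    intro u hu
    rw [hσ, Ne, IsLocalRing.residue_eq_zero_iff, ValuationSubring.valuation_lt_one_iff] at hu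
    exact le_antisymm ((Qb.valuation_le_one_iff _).2 (hρQ u)) (not_lt.1 hu)
  have hval0 : ∀ u, σ u = 0 → Qb.valuation (ρ u) < 1 := by
    intro u hu
    rw [hσ, IsLocalRing.residue_eq_zero_iff, ValuationSubring.valuation_lt_one_iff] at hu
    exact hu
  -- the polynomial over `O`
  have hco : (↑h.coeffs : Set C) ⊆ O := by
    intro c hc
    rw [Finset.mem_coe, Polynomial.mem_coeffs_iff] at hc
    obtain ⟨n, _, rfl⟩ := hc
    exact hO n
  obtain ⟨hOp, hmap⟩ : ∃ hOp : O[X], hOp.map O.subtype = h := ⟨h.toSubring O hco, map_toSubring _ _ _⟩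
  have hyx : (⟨y, hyA⟩ : Algebra.adjoin O ({x, y} : Set L)) ^ p = aeval ⟨x, hxA⟩ hOp := by
    apply Subtype.ext
    have h1 : ((aeval (⟨x, hxA⟩ : Algebra.adjoin O ({x, y} : Set L)) hOp :
        Algebra.adjoin O ({x, y} : Set L)) : L) = aeval x hOp :=
      (aeval_algHom_apply (Algebra.adjoin O ({x, y} : Set L)).val
        (⟨x, hxA⟩ : Algebra.adjoin O ({x, y} : Set L)) hOp).symm
    rw [h1]
    show y ^ p = _
    rw [G.sup.eq, ← hmap, aeval_def, aeval_def, eval₂_map]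
    rfl
  have heval : ∀ c : O, ((hOp.eval c : O) : C) = h.eval (c : C) := by
    intro c
    rw [← hmap]
    exact (eval_map_apply O.subtype c).symm
  have hmapr : hOp.map redO = hb := by
    ext i
    rw [coeff_map]
    have h1 := hred (hOp.coeff i)
    have h2 := G.hh i
    rw [← hmap, coeff_map] at h2
    exact h1.unique h2
  -- the elements `s` and `t`
  obtain ⟨s, t, hs, ht, ⟨u₁, hsx⟩, ⟨u₂, hsy⟩⟩ : ∃ s t : Algebra.adjoin O ({x, y} : Set L),
      σ s ≠ 0 ∧ σ t = 0 ∧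
      (∃ u, s * (⟨x, hxA⟩ - algebraMap O _ ⟨a, haO⟩) = t * u) ∧
      (∃ u, s * (⟨y, hyA⟩ - algebraMap O _ ⟨b, hbO⟩) = t * u) := by
    have hra : redO ⟨a, haO⟩ = z := (hred ⟨a, haO⟩).unique ha
    have hrb : redO ⟨b, hbO⟩ = w := (hred ⟨b, hbO⟩).unique hbw
    rcases hcase with ⟨h1, h2⟩ | ⟨h1, h2⟩
    · refine ⟨∑ i ∈ Finset.range p, ⟨y, hyA⟩ ^ i * algebraMap O _ ⟨b, hbO⟩ ^ (p - 1 - i),
        ⟨x, hxA⟩ - algebraMap O _ ⟨a, haO⟩, ?_, ?_, ⟨_, mul_comm _ _⟩, ?_⟩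
      · rw [Ne, map_sum]
        have h3 : ∀ i ∈ Finset.range p, σ (⟨y, hyA⟩ ^ i *
            algebraMap O _ ⟨b, hbO⟩ ^ (p - 1 - i)) = rκ w ^ (p - 1) := by
          intro i hi
          have hi' := Finset.mem_range.1 hi
          rw [map_mul, map_pow, map_pow, hσO, hσy, hrb, ← pow_add]
          congr 1
          omega
        rw [Finset.sum_congr rfl h3, Finset.sum_const, Finset.card_range, nsmul_eq_mul,
          ← map_natCast rκ, ← map_pow, ← map_mul, _root_.map_eq_zero]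
        exact mul_ne_zero hpκ (pow_ne_zero _ h2)
      · rw [map_sub, hσO, hσx, hra, sub_self]
      · refine loc_unit hyx ?_
        apply Subtype.ext
        rw [heval]
        exact h1
    · have h3 : hOp.eval ⟨a, haO⟩ = 0 := by
        apply Subtype.ext
        rw [heval]
        exact h1
      obtain ⟨h₁, hh₁⟩ := (dvd_iff_isRoot (a := (⟨a, haO⟩ : O))).2 h3
      refine ⟨aeval ⟨x, hxA⟩ h₁, ⟨y, hyA⟩, ?_, ?_, loc_root hp.ne_zero hyx hh₁, ?_⟩
      · have h4 : σ (aeval ⟨x, hxA⟩ h₁) = rκ ((h₁.map redO).eval z) := by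
          rw [aeval_def, hom_eval₂, hσx, eval_map, hom_eval₂]
          congr 1
          ext c
          exact hσO c
        rw [h4, Ne, _root_.map_eq_zero]
        intro h5
        have h6 : hb = (X - Polynomial.C z) * h₁.map redO := by
          rw [← hmapr, hh₁, Polynomial.map_mul, Polynomial.map_sub, map_X, map_C, hra]
        have h7 : hb.eval z = 0 := by
          rw [h6, eval_mul, eval_sub, eval_X, eval_C, sub_self, zero_mul]
        have h8 : (derivative hb).eval z = 0 := by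
          rw [h6, derivative_mul, derivative_sub, derivative_X, derivative_C, eval_add, eval_mul,
            eval_mul, h5, mul_zero, zero_add, eval_sub, eval_X, eval_C, sub_self, zero_mul]
        exact G.sepb.eval₂_derivative_ne_zero (RingHom.id κ) h7 h8
      · rw [hσy, ← hrb]
        have h4 : (⟨b, hbO⟩ : O) = 0 := Subtype.ext h2
        rw [h4, map_zero, map_zero]
      · refine ⟨aeval ⟨x, hxA⟩ h₁, ?_⟩
        have h4 : (⟨b, hbO⟩ : O) = 0 := Subtype.ext h2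
        rw [h4, map_zero, sub_zero, mul_comm]
  refine ⟨s, s.2, t, t.2, ⟨ρ s, hρ s, hval1 s hs⟩, ⟨ρ t, hρ t, hval0 t ht⟩, ⟨u₁, u₁.2, ?_⟩,
    ⟨u₂, u₂.2, ?_⟩⟩
  · exact congrArg Subtype.val hsx
  · exact congrArg Subtype.val hsy

/-- the image of `O` in `L` -/
private def e6_O {C L : Type*} [Field C] [Field L] [Algebra C L] (O : Subring C) : Subring L :=
  ((algebraMap C L).comp O.subtype).range

private theorem e6_O_mem {C L : Type*} [Field C] [Field L] [Algebra C L] {O : Subring C} {u : L} :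
    u ∈ (e6_O O : Subring L) ↔ ∃ c ∈ O, algebraMap C L c = u := by
  constructor
  · rintro ⟨c, rfl⟩
    exact ⟨c, c.2, rfl⟩
  · rintro ⟨c, hc, rfl⟩
    exact ⟨⟨c, hc⟩, rfl⟩

private theorem e6_adj {C L : Type*} [Field C] [Field L] [Algebra C L] {O : Subring C} {x y u : L} :
    u ∈ Algebra.adjoin (e6_O O : Subring L) ({x, y} : Set L) ↔
      u ∈ Algebra.adjoin O ({x, y} : Set L) := by
  constructor
  · intro hu
    refine Algebra.adjoin_induction (p := fun u _ => u ∈ Algebra.adjoin O ({x, y} : Set L))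
      ?_ ?_ ?_ ?_ hu
    · intro v hv
      exact Algebra.subset_adjoin hv
    · intro r
      obtain ⟨c, hc, hcr⟩ := e6_O_mem.1 r.2
      have h1 : algebraMap (e6_O O : Subring L) L r = algebraMap O L ⟨c, hc⟩ := hcr.symm
      rw [h1]
      exact Subalgebra.algebraMap_mem _ _
    · intro v w _ _ h1 h2
      exact add_mem h1 h2
    · intro v w _ _ h1 h2
      exact mul_mem h1 h2
  · intro hu
    refine Algebra.adjoin_induction
      (p := fun u _ => u ∈ Algebra.adjoin (e6_O O : Subring L) ({x, y} : Set L)) ?_ ?_ ?_ ?_ hu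
    · intro v hv
      exact Algebra.subset_adjoin hv
    · intro r
      have h1 : algebraMap O L r = algebraMap (e6_O O : Subring L) L
          ⟨algebraMap C L r, e6_O_mem.2 ⟨r, r.2, rfl⟩⟩ := rfl
      rw [h1]
      exact Subalgebra.algebraMap_mem _ _
    · intro v w _ _ h1 h2
      exact add_mem h1 h2
    · intro v w _ _ h1 h2
      exact mul_mem h1 h2

private theorem e6_core {p : ℕ} (hp : p.Prime) {C L κ k : Type*} [Field C] [IsAlgClosed C]
    [CharZero C] [Algebra.IsAlgebraic ℚ C] [Field L] [Algebra C L] [Field κ] [IsAlgClosed κ]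
    [Field k] [Algebra κ k] {D : Red C L κ k} {x y : L} {h : C[X]} {xb yb : k} {hb : κ[X]}
    (hpκ : (p : κ) ≠ 0) {l : ℕ} (hl : l.Prime) (hlκ : (l : κ) = 0) (G : GRed p D x y h xb yb hb)
    (R : ValuationSubring L) (hR : R ≤ D.W.A) (hconst : ∀ c : C, c ∈ D.V.A → algebraMap C L c ∈ R)
    (hne : ∃ g ∈ D.W.A, g ∉ R) (hx : x ∈ R) (T : Finset L) :
    ∃ (S : Subring L) (π : C) (t : L), (∀ u ∈ S, u ∈ R) ∧ IsNoetherianRing S ∧
      (∀ u ∈ S, R.valuation u = 1 → u⁻¹ ∈ S) ∧ algebraMap C L π ∈ S ∧ π ≠ 0 ∧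
      D.V.A.valuation π < 1 ∧ (∀ u ∈ S, D.W.A.valuation u < 1 → u * (algebraMap C L π)⁻¹ ∈ S) ∧
      t ∈ S ∧ R.valuation t < 1 ∧
      (∀ u ∈ S, R.valuation u < 1 → ∃ a ∈ S, ∃ b ∈ S, u = a * algebraMap C L π + b * t) ∧
      ∀ τ ∈ T, Fr S τ := by
  classical
  -- the place of the residue field
  obtain ⟨Qb, hQiff, hQlt, hQone⟩ : ∃ Qb : ValuationSubring k,
      (∀ u z, D.W.Has u z → (z ∈ Qb ↔ u ∈ R)) ∧
      (∀ u z, D.W.Has u z → (Qb.valuation z < 1 ↔ R.valuation u < 1)) ∧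
      (∀ u z, D.W.Has u z → (Qb.valuation z = 1 ↔ R.valuation u = 1)) :=
    ⟨e6_Q D.W R D.surjW, fun u z hu => e6_Q_iff hR hu, fun u z hu => e6_Q_lt hR hu,
      fun u z hu => e6_Q_one hR hu⟩
  have hQb : IsPlc κ Qb := by
    constructor
    · intro c
      obtain ⟨c', hc'⟩ := D.surjV c
      exact (hQiff _ _ (D.base _ _ hc')).2 (hconst c' hc'.1)
    · intro htop
      obtain ⟨g, hg, hgR⟩ := hne
      refine hgR ((hQiff g (D.W.φ ⟨g, hg⟩) ⟨hg, rfl⟩).1 ?_)
      rw [htop]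
      trivial
  have hxb : xb ∈ Qb := (hQiff _ _ G.hx).2 hx
  have Hb : IsSup p xb yb hb := G.supb hp
  obtain ⟨z, hz⟩ := Hb.exists_center hp hQb hxb
  -- the lifts
  obtain ⟨a, b, w, ha, hbw, hyw, hcase⟩ : ∃ (a b : C) (w : κ), D.V.Has a z ∧ D.V.Has b w ∧
      Qb.valuation (yb - algebraMap κ k w) < 1 ∧
      ((b ^ p = h.eval a ∧ w ≠ 0) ∨ (h.eval a = 0 ∧ b = 0)) := by
    rcases Hb.fin_place hp hpκ hQb hxb hz with ⟨h1, ⟨w, hw, hyw⟩, _⟩ | ⟨h1, h2, _⟩
    · obtain ⟨a, ha⟩ := D.surjV z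
      have h3 : D.V.Has (h.eval a) (w ^ p) := by
        rw [hw]
        exact PHas.eval (P := h) (Pb := hb) G.hh ha
      obtain ⟨b, hb1, hb2⟩ := root_lift hp hpκ D.V h3
      refine ⟨a, b, w, ha, hb2, hyw, Or.inl ⟨hb1, ?_⟩⟩
      rintro rfl
      rw [zero_pow hp.ne_zero] at hw
      exact h1 hw.symm
    · obtain ⟨a, ha1, ha2⟩ := G.roots_red.2 z h1
      refine ⟨a, 0, 0, ha2, Plc.has_zero, ?_, Or.inr ⟨ha1, rfl⟩⟩
      rw [map_zero, sub_zero]
      exact h2
  -- the elements of `T`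
  choose a₀ b₀ hb₀0 hab using fun f : L => G.sup.repr hp f
  -- the number field
  have hV : D.V.A.valuation (l : C) < 1 := by
    rw [← has_val_lt, ← hlκ]
    exact has_natCast D.V l
  obtain ⟨F, hT, hnoeth, π, hπF, hπ0, hπ1, hval⟩ := exists_dvr D.V.A hl hV
    (insert a (insert b (h.coeffs ∪ T.biUnion fun τ => ((b₀ τ).coeffs ∪
      (Finset.range p).biUnion fun i => (a₀ τ i).coeffs))))
  have hcoef : ∀ (P : C[X]), (∀ c ∈ P.coeffs, c ∈ F) → ∀ j, P.coeff j ∈ F := by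
    intro P hP j
    by_cases h0 : P.coeff j = 0
    · rw [h0]
      exact zero_mem _
    · exact hP _ (Polynomial.coeff_mem_coeffs h0)
  have haF : a ∈ F := hT a (Finset.mem_insert_self _ _)
  have hbF : b ∈ F := hT b (Finset.mem_insert_of_mem (Finset.mem_insert_self _ _))
  have hhF : ∀ j, h.coeff j ∈ F := hcoef h fun c hc => hT c (by
    simp only [Finset.mem_insert, Finset.mem_union]
    exact Or.inr (Or.inr (Or.inl hc)))
  have hpow : ∀ e : F, ∃ n : ℕ, ∀ N, n ≤ N → algebraMap F C e * π ^ N ∈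
      (D.V.A.toSubring ⊓ F.toSubalgebra.toSubring : Subring C) := fun e =>
    e6_pow D.V.A F hπF hπ0 hπ1 hval e.2
  have hmem : ∀ c ∈ F, c ∈ D.V.A → c ∈ (D.V.A.toSubring ⊓ F.toSubalgebra.toSubring : Subring C) :=
    fun c h1 h2 => Subring.mem_inf.2 ⟨h2, h1⟩
  have hOV : ∀ c ∈ (D.V.A.toSubring ⊓ F.toSubalgebra.toSubring : Subring C), c ∈ D.V.A :=
    fun c hc => (Subring.mem_inf.1 hc).1
  have hπO : π ∈ (D.V.A.toSubring ⊓ F.toSubalgebra.toSubring : Subring C) :=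
    hmem π hπF ((D.V.A.valuation_le_one_iff _).1 hπ1.le)
  -- a common power of `π`
  have hall : ∀ S : Finset C, (∀ c ∈ S, c ∈ F) → ∃ N : ℕ, ∀ c ∈ S,
      c * π ^ N ∈ (D.V.A.toSubring ⊓ F.toSubalgebra.toSubring : Subring C) := by
    intro S hS
    have h1 : ∀ c : C, ∃ n : ℕ, c ∈ S → ∀ N, n ≤ N → c * π ^ N ∈
        (D.V.A.toSubring ⊓ F.toSubalgebra.toSubring : Subring C) := by
      intro c
      by_cases hc : c ∈ S
      · obtain ⟨n, hn⟩ := hpow ⟨c, hS c hc⟩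
        exact ⟨n, fun _ => hn⟩
      · exact ⟨0, fun h => absurd h hc⟩
    choose n hn using h1
    exact ⟨S.sup n, fun c hc => hn c hc _ (Finset.le_sup hc)⟩
  have hdiv : ∀ c ∈ (D.V.A.toSubring ⊓ F.toSubalgebra.toSubring : Subring C),
      D.V.Has c 0 → c / π ∈ (D.V.A.toSubring ⊓ F.toSubalgebra.toSubring : Subring C) := fun c hc h0 =>
    e6_div D.V.A F hπF hπ0 hπ1 hval hc ((has_val_lt D.V).1 h0)
  have hhO : ∀ i, h.coeff i ∈ (D.V.A.toSubring ⊓ F.toSubalgebra.toSubring : Subring C) :=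
    fun i => hmem _ (hhF i) (G.hh i).1
  have haO : a ∈ (D.V.A.toSubring ⊓ F.toSubalgebra.toSubring : Subring C) := hmem a haF ha.1
  have hbO : b ∈ (D.V.A.toSubring ⊓ F.toSubalgebra.toSubring : Subring C) := hmem b hbF hbw.1
  have hpick : ∀ τ ∈ T, ∃ u ∈ Algebra.adjoin
      (D.V.A.toSubring ⊓ F.toSubalgebra.toSubring : Subring C) ({x, y} : Set L),
      ∃ v ∈ Algebra.adjoin
      (D.V.A.toSubring ⊓ F.toSubalgebra.toSubring : Subring C) ({x, y} : Set L),
      v ≠ 0 ∧ τ * v = u := by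
    intro τ hτ
    have hTτ : ∀ c ∈ (b₀ τ).coeffs ∪ (Finset.range p).biUnion fun i => (a₀ τ i).coeffs, c ∈ F := by
      intro c hc
      refine hT c ?_
      simp only [Finset.mem_insert]
      refine Or.inr (Or.inr (Finset.mem_union_right _ (Finset.mem_biUnion.2 ⟨τ, hτ, hc⟩)))
    obtain ⟨N, hN⟩ := hall _ hTτ
    have hπN : π ^ N ≠ 0 := pow_ne_zero _ hπ0
    refine ⟨ev p x y (fun i => Polynomial.C (π ^ N) * a₀ τ i), ?_,
      aeval x (Polynomial.C (π ^ N) * b₀ τ), ?_, ?_, ?_⟩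
    · refine ev_adjoin fun i hi j => ?_
      show (Polynomial.C (π ^ N) * a₀ τ i).coeff j ∈ _
      rw [coeff_C_mul]
      by_cases h0 : (a₀ τ i).coeff j = 0
      · rw [h0, mul_zero]
        exact zero_mem _
      · rw [mul_comm]
        exact hN _ (Finset.mem_union_right _ (Finset.mem_biUnion.2 ⟨i, Finset.mem_range.2 hi,
          Polynomial.coeff_mem_coeffs h0⟩))
    · have h1 : ev p x y (fun i => if i = 0 then Polynomial.C (π ^ N) * b₀ τ else 0) ∈
          Algebra.adjoin (D.V.A.toSubring ⊓ F.toSubalgebra.toSubring : Subring C)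
            ({x, y} : Set L) := by
        refine ev_adjoin fun i _ j => ?_
        by_cases hi : i = 0
        · rw [if_pos hi, coeff_C_mul]
          by_cases h0 : (b₀ τ).coeff j = 0
          · rw [h0, mul_zero]
            exact zero_mem _
          · rw [mul_comm]
            exact hN _ (Finset.mem_union_left _ (Polynomial.coeff_mem_coeffs h0))
        · rw [if_neg hi, coeff_zero]
          exact zero_mem _
      have h2 : ev p x y (fun i => if i = 0 then Polynomial.C (π ^ N) * b₀ τ else 0) =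
          aeval x (Polynomial.C (π ^ N) * b₀ τ) := by
        unfold ev
        rw [Finset.sum_eq_single_of_mem 0 (Finset.mem_range.2 hp.pos)]
        · simp only [if_true, pow_zero, mul_one]
        · intro i _ hi
          simp only [if_neg hi, map_zero, zero_mul]
      rw [← h2]
      exact h1
    · intro h0
      exact (mul_ne_zero (Polynomial.C_ne_zero.2 hπN) (hb₀0 τ))
        ((transcendental_iff.mp G.sup.tr) _ h0)
    · unfold ev
      rw [map_mul, aeval_C]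
      have h1 : ∀ i ∈ Finset.range p, aeval x (Polynomial.C (π ^ N) * a₀ τ i) * y ^ i =
          algebraMap C L (π ^ N) * (aeval x (a₀ τ i) * y ^ i) := by
        intro i _
        rw [map_mul, aeval_C, mul_assoc]
      rw [Finset.sum_congr rfl h1, ← Finset.mul_sum]
      have h2 : τ * aeval x (b₀ τ) = ∑ i ∈ Finset.range p, aeval x (a₀ τ i) * y ^ i := hab τ
      rw [← h2]
      ring
  have : IsNoetherianRing (D.V.A.toSubring ⊓ F.toSubalgebra.toSubring : Subring C) := hnoeth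
  obtain ⟨O, hOeq⟩ : ∃ O : Subring C, O = D.V.A.toSubring ⊓ F.toSubalgebra.toSubring := ⟨_, rfl⟩
  rw [← hOeq] at this hpick hbO haO hhO hdiv hπO hOV
  clear hnoeth hmem hall hpow hcoef hOeq
  obtain ⟨s, hs, t, ht, ⟨s', hs', hs1⟩, ⟨t', ht', ht1⟩, hsx, hsy⟩ :=
    e6_st hp hpκ G Qb hQb hxb hOV hhO haO hbO ha hbw hz hyw hcase
  have hNo : IsNoetherianRing (e6_O O : Subring L) :=
    inferInstanceAs (IsNoetherianRing ((algebraMap C L).comp O.subtype).range)
  have hyb : yb ∈ Qb := by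
    have h1 : yb - algebraMap κ k w ∈ Qb := (Qb.valuation_le_one_iff _).1 hyw.le
    have h2 := add_mem h1 (hQb.1 w)
    rwa [sub_add_cancel] at h2
  have hadj : ∀ v ∈ Algebra.adjoin κ ({xb, yb} : Set k), v ∈ Qb := by
    intro v hv
    refine Algebra.adjoin_induction (p := fun v _ => v ∈ Qb) ?_ ?_ ?_ ?_ hv
    · rintro u (rfl | rfl)
      · exact hxb
      · exact hyb
    · exact hQb.1
    · intro u v _ _ h1 h2
      exact add_mem h1 h2
    · intro u v _ _ h1 h2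
      exact mul_mem h1 h2
  have hπL : algebraMap C L π ≠ 0 := (_root_.map_ne_zero _).2 hπ0
  obtain ⟨S, hS1, hS2, hS3, hS4, hS5, hS6, -⟩ := lb1 (e6_O O : Subring L) (x := x) (y := y)
    (R := R) (W := D.W.A) hR (π := algebraMap C L π) (s := s) (t := t) (a := algebraMap C L a)
    (b := algebraMap C L b)
    (by
      intro u hu
      obtain ⟨z', hz', hz''⟩ := G.adjoin_has hOV (e6_adj.1 hu)
      exact (hQiff _ _ hz'').1 (hadj z' hz'))
    (e6_O_mem.2 ⟨π, hπO, rfl⟩) hπL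
    (by
      intro u hu hu1
      rw [← div_eq_mul_inv]
      exact e6_adj.2 (G.adjoin_ker hp hOV hhO hπ0 hdiv (e6_adj.1 hu) ((has_val_lt D.W).2 hu1)))
    (by
      intro c hc hc1
      obtain ⟨c', hc', rfl⟩ := e6_O_mem.1 hc
      refine e6_O_mem.2 ⟨c' / π, hdiv c' hc' ((has_val_lt D.V).2 ?_), ?_⟩
      · by_cases h0 : c' = 0
        · rw [h0, map_zero]
          exact zero_lt_one
        · rw [e6_lt_iff _ h0]
          intro h1
          have h2 := hconst _ h1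
          rw [map_inv₀] at h2
          exact (e6_lt_iff R ((_root_.map_ne_zero (algebraMap C L)).2 h0)).1 hc1 h2
      · rw [map_div₀, div_eq_mul_inv])
    (e6_adj.2 hs) ((hQone _ _ hs').1 hs1) (e6_adj.2 ht) ((hQlt _ _ ht').1 ht1)
    (e6_O_mem.2 ⟨a, haO, rfl⟩) (e6_O_mem.2 ⟨b, hbO, rfl⟩)
    (by
      obtain ⟨u, hu, hu'⟩ := hsx
      exact ⟨u, e6_adj.2 hu, hu'⟩)
    (by
      obtain ⟨u, hu, hu'⟩ := hsy
      exact ⟨u, e6_adj.2 hu, hu'⟩)
  refine ⟨S, π, t, hS3, hS1, hS4, hS2 _ ?_, hπ0, hπ1, hS5, hS2 t (e6_adj.2 ht),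
    (hQlt _ _ ht').1 ht1, hS6, ?_⟩
  · exact Subalgebra.algebraMap_mem _ (⟨algebraMap C L π, e6_O_mem.2 ⟨π, hπO, rfl⟩⟩ :
      (e6_O O : Subring L))
  · intro τ hτ
    obtain ⟨u, hu, v, hv, hv0, huv⟩ := hpick τ hτ
    exact ⟨u, hS2 u (e6_adj.2 hu), v, hS2 v (e6_adj.2 hv), hv0, huv⟩

end e6

variable {C M : Type*} [Field C] [IsAlgClosed C] [CharZero C] [Algebra.IsAlgebraic ℚ C] [Field M]
  [Algebra C M] {p l : ℕ} {W : ValuationSubring M} {x y : M} {h : C[X]}

theorem lm_fin (hp : p.Prime) (hW : Wv p C W) (hl : l.Prime) (vl : W.valuation (l : M) < 1)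
    (hB : Bs p W x y h) (R : ValuationSubring M)
    (hR : CR W (IntermediateField.adjoin C {x, y}) R) (hx : x ∈ R) (T : Finset M)
    (hT : ∀ τ ∈ T, τ ∈ IntermediateField.adjoin C {x, y}) :
    ∃ (S : Subring M) (π t : M), LocM W (IntermediateField.adjoin C {x, y}) R S π t ∧
      ∀ τ ∈ T, Fr S τ := by
  classical
  have hxE : x ∈ IntermediateField.adjoin C ({x, y} : Set M) :=
    IntermediateField.subset_adjoin C _ (Set.mem_insert x {y})
  have hyE : y ∈ IntermediateField.adjoin C ({x, y} : Set M) :=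
    IntermediateField.subset_adjoin C _ (Set.mem_insert_of_mem x rfl)
  obtain ⟨κ, _, k, _, _, D, xb, yb, hb, hκ, hVA, hWA, G⟩ := bs_gred hp hB ⟨x, hxE⟩ ⟨y, hyE⟩ rfl rfl
  have hV : ∀ c : C, c ∈ D.V.A ↔ algebraMap C M c ∈ W := by
    intro c
    rw [hVA]
    rfl
  have hWm : ∀ u : IntermediateField.adjoin C ({x, y} : Set M), u ∈ D.W.A ↔ (u : M) ∈ W := by
    intro u
    rw [hWA]
    rfl
  have hVlt := e6_tr (algebraMap C M) hV
  have hWlt := e6_tr (algebraMap (IntermediateField.adjoin C ({x, y} : Set M)) M) hWm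
  obtain ⟨RL, hRL⟩ : ∃ RL : ValuationSubring (IntermediateField.adjoin C ({x, y} : Set M)),
      ∀ u, u ∈ RL ↔ (u : M) ∈ R :=
    ⟨R.comap (algebraMap (IntermediateField.adjoin C ({x, y} : Set M)) M), fun u => Iff.rfl⟩
  have hRlt := e6_tr (algebraMap (IntermediateField.adjoin C ({x, y} : Set M)) M) hRL
  have hR1 := e6_tr1 (algebraMap (IntermediateField.adjoin C ({x, y} : Set M)) M) hRL
  obtain ⟨T', hT'⟩ : ∃ T' : Finset (IntermediateField.adjoin C ({x, y} : Set M)),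
      ∀ (τ : M) (hτ : τ ∈ T), (⟨τ, hT τ hτ⟩ : IntermediateField.adjoin C ({x, y} : Set M)) ∈ T' :=
    ⟨T.attach.image fun τ => ⟨τ.1, hT τ.1 τ.2⟩, fun τ hτ =>
      Finset.mem_image.2 ⟨⟨τ, hτ⟩, Finset.mem_attach _ _, rfl⟩⟩
  have hpκ : (p : κ) ≠ 0 := by
    intro h0
    have h1 := Gl.has_natCast D.V p
    rw [h0, Gl.has_val_lt, hVlt, map_natCast, hW.vp] at h1
    exact lt_irrefl _ h1
  have hlκ : (l : κ) = 0 := by
    have h1 : D.V.Has (l : C) 0 := by
      rw [Gl.has_val_lt, hVlt, map_natCast]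
      exact vl
    exact (Gl.has_natCast D.V l).unique h1
  obtain ⟨S, π, t, h1, h2, h3, h4, h5, h6, h7, h8, h9, h10, h11⟩ := e6_core hp hpκ hl hlκ G RL
    (by
      intro u hu
      exact (hWm u).2 (hR.le ((hRL u).1 hu)))
    (by
      intro c hc
      exact (hRL _).2 (hR.const c ((hV c).1 hc)))
    (by
      obtain ⟨g, hgE, hgW, hgR⟩ := hR.ne
      exact ⟨⟨g, hgE⟩, (hWm _).2 hgW, fun h0 => hgR ((hRL _).1 h0)⟩)
    ((hRL _).2 hx)
    T'
  have hmem : ∀ u : M, u ∈ ((algebraMap (IntermediateField.adjoin C ({x, y} : Set M)) M).comp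
      S.subtype).range ↔ ∃ v ∈ S, (v : M) = u := by
    intro u
    constructor
    · rintro ⟨v, rfl⟩
      exact ⟨v, v.2, rfl⟩
    · rintro ⟨v, hv, rfl⟩
      exact ⟨⟨v, hv⟩, rfl⟩
  refine ⟨((algebraMap (IntermediateField.adjoin C ({x, y} : Set M)) M).comp S.subtype).range,
    algebraMap C M π, t, ?_, ?_⟩
  · constructor
    · intro u hu
      obtain ⟨v, hv, rfl⟩ := (hmem u).1 hu
      exact ⟨v.2, (hRL v).1 (h1 v hv)⟩
    · infer_instance
    · intro u hu hu1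
      obtain ⟨v, hv, rfl⟩ := (hmem u).1 hu
      refine (hmem _).2 ⟨v⁻¹, h3 v hv ((hR1 v).2 hu1), ?_⟩
      push_cast
      rfl
    · exact (hmem _).2 ⟨_, h4, rfl⟩
    · exact ⟨π, rfl⟩
    · exact (_root_.map_ne_zero _).2 h5
    · exact (hVlt π).1 h6
    · intro u hu hu1
      obtain ⟨v, hv, rfl⟩ := (hmem u).1 hu
      refine (hmem _).2 ⟨_, h7 v hv ((hWlt v).2 hu1), ?_⟩
      push_cast
      rfl
    · exact (hmem _).2 ⟨t, h8, rfl⟩
    · exact (hRlt t).1 h9
    · intro u hu hu1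
      obtain ⟨v, hv, rfl⟩ := (hmem u).1 hu
      obtain ⟨a, ha, b, hb', hab⟩ := h10 v hv ((hRlt v).2 hu1)
      refine ⟨a, (hmem _).2 ⟨a, ha, rfl⟩, b, (hmem _).2 ⟨b, hb', rfl⟩, ?_⟩
      rw [hab]
      push_cast
      rfl
  · intro τ hτ
    obtain ⟨a, ha, b, hb', hb0, hab⟩ := h11 ⟨τ, hT τ hτ⟩ (hT' τ hτ)
    refine ⟨a, (hmem _).2 ⟨a, ha, rfl⟩, b, (hmem _).2 ⟨b, hb', rfl⟩, ?_, ?_⟩
    · intro h0
      exact hb0 (Subtype.ext h0)
    · exact congrArg Subtype.val hab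

end Pool.Agent.Lib.MP_2f3286_ag.Pp
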