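import Pool.Agent.Lib.MP_2f3286_ag.Pp.Defs
import Pool.Agent.Lib.MP_2f3286_ag.Gl.HX
import Pool.Agent.Lib.MP_2f3286_ag.Full.ValExt

/-!
# The Fermat curve has good reduction   (module E7)

`r ^ p + 1 = q ^ p`, `X = (r + ζ ^ l)⁻¹`, `Y = q * X`, `h = hpol ζ p l` (Gl/HX.lean).
PROOF of `gs_add`. `P(x + a) = (P.comp (X + C a))(x)`; with the coefficients of `P` in `W` (one of valuation one) and `a ∈ W` the coefficients of `Q = P.comp (X + C a)` are in `W`; one has valuation one: `P = Q.comp (X - C a)`, so if all coefficients of `Q` had valuation `< 1`, the coefficients of `P` would too (work in the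
valuation ring `V = W.comap (algebraMap C M)` of `C` and its residue field: the reduction of `P` is nonzero, and `P ↦ P.comp (X + C ā)` is injective over a field; or directly with the ideal of the elements of valuation `< 1`). Transcendental: `x = (x + a) - a`. PROOF of `gs_inv`. `W(x) = 1` (`Gs.one` for `P = X`). `P(x⁻¹) = (P.reverse or the
sum ∑ p_i x ^ (n - i))(x) / x ^ n`, `n = P.natDegree` (`Polynomial.eval₂_reverse_mul_pow`, or `Polynomial.reflect n`), the polynomial `Polynomial.reflect n P` has the same coefficients.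
PROOF of `zeta_unit`. `∏_{0 < j < p} (1 - ζ ^ j) = p` (`IsPrimitiveRoot.prod_one_sub_pow_eq_order`), all factors are in `W` (`ζ ∈ W`, a root of unity), `W(p) = 1`, so each factor with `¬ p ∣ j` has valuation one; `ζ ^ i - 1` with `¬ p ∣ i` is up to sign such a factor (`i` modulo `p`).
PROOF of `fer_bs`. `gs`: `gs_add`, `gs_inv` (`W(ζ ^ l) = 1`). `r + ζ ^ l ≠ 0` (`r` transcendental). `eq`: `Y ^ p = q ^ p X ^ p = (r ^ p + 1) X ^ p`; `Gl.hx_eq` in the field `M` with the image of `ζ` (a primitive root in `M`), `hpol_map`, `eval_map`, `aeval_def`. `dg`: `hpol_natDegree`, `p - 1` is prime to `p`. `sep`: `hpol_separable`.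
`int`, `lead`, `df`: `Gl.hx_val` for the valuation `v = W.valuation.comap (algebraMap C M)` (`Valuation.comap`; `v c = W.valuation (algebraMap C M c)`), `h1` is `zeta_unit`. PROOF of `fer_adj`. `X, Y ∈ adjoin C {r, q}`; `r = X⁻¹ - ζ ^ l`, `q = Y X⁻¹` (`X ≠ 0`).
-/

open Polynomial IntermediateField

namespace Pool.Agent.Lib.MP_2f3286_ag.Pp

open Pool.Agent.Lib.MP_2f3286_ag.Gl (hpol)

variable {C M : Type*} [Field C] [IsAlgClosed C] [CharZero C] [Field M] [Algebra C M]
  {p : ℕ} {W : ValuationSubring M}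

/-- the Taylor shift preserves coefficient conditions -/
private theorem E7_taylor {F : Type*} [Field F] {Γ : Type*} [LinearOrderedCommGroupWithZero Γ]
    (v : Valuation F Γ) (I : AddSubmonoid F) (hI : ∀ c ∈ I, ∀ b, v b ≤ 1 → c * b ∈ I)
    {P : F[X]} (hP : ∀ i, P.coeff i ∈ I) {a : F} (ha : v a ≤ 1) (i : ℕ) :
    (taylor a P).coeff i ∈ I := by
  rw [taylor_coeff, eval_eq_sum_range]
  refine sum_mem fun j _ => ?_
  rw [hasseDeriv_coeff]
  have h1 : v (((j + i).choose i : ℕ) : F) ≤ 1 := by
    have h2 : (((j + i).choose i : ℕ) : F) ∈ v.integer := natCast_mem _ _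
    exact h2
  have h3 : (((j + i).choose i : ℕ) : F) * P.coeff (j + i) * a ^ j
      = P.coeff (j + i) * ((((j + i).choose i : ℕ) : F) * a ^ j) := by ring
  rw [h3]
  refine hI _ (hP _) _ ?_
  rw [map_mul, map_pow]
  exact mul_le_one' h1 (pow_le_one₀ zero_le ha)

omit [IsAlgClosed C] [CharZero C] in
theorem gs_add {x : M} (h : Gs C W x) {a : C} (ha : algebraMap C M a ∈ W) :
    Gs C W (x + algebraMap C M a) := by
  refine ⟨?_, W.add_mem _ _ h.mem ha, ?_⟩
  · intro h1
    apply h.tr
    have h2 := h1.sub (isAlgebraic_algebraMap (A := M) a)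
    rwa [add_sub_cancel_right] at h2
  · intro P hP hi
    set v := W.valuation.comap (algebraMap C M) with hv
    have hva : v a ≤ 1 := by
      rw [hv, Valuation.comap_apply]
      exact (W.valuation_le_one_iff _).2 ha
    have hvn : v (-a) ≤ 1 := by rwa [Valuation.map_neg]
    -- the integers and the maximal ideal
    let I1 : AddSubmonoid C :=
      { carrier := {c | v c ≤ 1}
        zero_mem' := by simp
        add_mem' := by
          intro b c hb hc
          have hb' : v b ≤ 1 := hb
          have hc' : v c ≤ 1 := hc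
          show v (b + c) ≤ 1
          exact (v.map_add b c).trans (max_le hb' hc') }
    let I2 : AddSubmonoid C :=
      { carrier := {c | v c < 1}
        zero_mem' := by simp
        add_mem' := by
          intro b c hb hc
          have hb' : v b < 1 := hb
          have hc' : v c < 1 := hc
          show v (b + c) < 1
          exact (v.map_add b c).trans_lt (max_lt hb' hc') }
    have hI1 : ∀ c ∈ I1, ∀ b, v b ≤ 1 → c * b ∈ I1 := fun c hc b hb => by
      show v (c * b) ≤ 1
      rw [map_mul]
      exact mul_le_one' hc hb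
    have hI2 : ∀ c ∈ I2, ∀ b, v b ≤ 1 → c * b ∈ I2 := fun c hc b hb => by
      show v (c * b) < 1
      rw [map_mul]
      exact lt_of_le_of_lt (mul_le_of_le_one_right' hb) hc
    have hP1 : ∀ i, P.coeff i ∈ I1 := fun i => (W.valuation_le_one_iff _).2 (hP i)
    have hQ1 := E7_taylor v I1 hI1 hP1 hva
    have hex : ∃ i, W.valuation (algebraMap C M ((taylor a P).coeff i)) = 1 := by
      by_contra hcon
      push Not at hcon
      have hlt : ∀ i, (taylor a P).coeff i ∈ I2 := fun i =>
        lt_of_le_of_ne (hQ1 i) (hcon i)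
      have h3 := E7_taylor v I2 hI2 hlt hvn
      rw [taylor_taylor, neg_add_cancel, taylor_zero] at h3
      obtain ⟨i, hi⟩ := hi
      exact (ne_of_lt (h3 i)) hi
    have h4 := h.one (taylor a P) (fun i => (W.valuation_le_one_iff _).1 (hQ1 i)) hex
    have h5 : aeval x (taylor a P) = aeval (x + algebraMap C M a) P := by
      rw [taylor_apply, aeval_comp]
      simp
    rwa [h5] at h4

omit [IsAlgClosed C] [CharZero C] in
private theorem E7_unit {x : M} (h : Gs C W x) : W.valuation x = 1 := by
  have h1 := h.one X (fun i => by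
    rw [coeff_X]
    split_ifs
    · rw [map_one]
      exact W.one_mem
    · rw [map_zero]
      exact W.zero_mem) ⟨1, by rw [coeff_X_one, map_one, map_one]⟩
  rwa [aeval_X] at h1

omit [IsAlgClosed C] [CharZero C] in
theorem gs_inv {x : M} (h : Gs C W x) : Gs C W x⁻¹ := by
  have hx1 := E7_unit h
  have hx0 : x ≠ 0 := by
    intro h0
    rw [h0, map_zero] at hx1
    exact zero_ne_one hx1
  refine ⟨?_, ?_, ?_⟩
  · intro h1
    apply h.tr
    have h2 := h1.inv
    rwa [inv_inv] at h2
  · rw [← W.valuation_le_one_iff, map_inv₀, hx1, inv_one]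
  · intro P hP hi
    let _ : Invertible x⁻¹ := invertibleOfNonzero (inv_ne_zero hx0)
    have h1 := eval₂_reverse_mul_pow (algebraMap C M) (x⁻¹) P
    rw [invOf_eq_inv, inv_inv] at h1
    rw [aeval_def, ← h1, map_mul, map_pow, map_inv₀, hx1, inv_one, one_pow, mul_one, ← aeval_def]
    refine h.one P.reverse (fun i => ?_) ?_
    · rw [coeff_reverse]
      exact hP _
    · obtain ⟨i, hi⟩ := hi
      have h2 : i ≤ P.natDegree := by
        by_contra h3
        rw [coeff_eq_zero_of_natDegree_lt (not_le.1 h3), map_zero, map_zero] at hi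
        exact zero_ne_one hi
      refine ⟨P.natDegree - i, ?_⟩
      rw [coeff_reverse, revAt_le (Nat.sub_le _ _), Nat.sub_sub_self h2]
      exact hi

omit [IsAlgClosed C] [CharZero C] in
private theorem E7_root (hp : p.Prime) {ζ : C} (hζ : IsPrimitiveRoot ζ p) (i : ℕ) :
    W.valuation (algebraMap C M (ζ ^ i)) = 1 := by
  have h1 : W.valuation (algebraMap C M ζ) ^ p = 1 := by
    rw [← map_pow, ← map_pow, hζ.pow_eq_one, map_one, map_one]
  have h2 : W.valuation (algebraMap C M ζ) = 1 := by
    rcases lt_trichotomy (W.valuation (algebraMap C M ζ)) 1 with h | h | h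
    · exact absurd h1 (pow_lt_one₀ zero_le h hp.ne_zero).ne
    · exact h
    · exact absurd h1 (one_lt_pow₀ h hp.ne_zero).ne'
  rw [map_pow, map_pow, h2, one_pow]

omit [IsAlgClosed C] [CharZero C] in
theorem zeta_unit (hp : p.Prime) (hW : Wv p C W) {ζ : C} (hζ : IsPrimitiveRoot ζ p) {i : ℕ}
    (hi : ¬ p ∣ i) : W.valuation (algebraMap C M (ζ ^ i - 1)) = 1 := by
  obtain ⟨n, hn⟩ : ∃ n, p = n + 1 := ⟨p - 1, by have := hp.pos; omega⟩
  have hζ' : IsPrimitiveRoot ζ (n + 1) := by rwa [hn] at hζ
  have h1 := hζ'.prod_one_sub_pow_eq_order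
  set v := W.valuation.comap (algebraMap C M) with hv
  have hle : ∀ k ∈ Finset.range n, v (1 - ζ ^ (k + 1)) ≤ 1 := by
    intro k _
    refine (v.map_sub _ _).trans (max_le (by rw [map_one]) ?_)
    rw [hv, Valuation.comap_apply, E7_root hp hζ]
  have h2 : ∏ k ∈ Finset.range n, v (1 - ζ ^ (k + 1)) = 1 := by
    rw [← map_prod, h1, hv, Valuation.comap_apply]
    have h3 : algebraMap C M ((n : C) + 1) = (p : M) := by
      rw [hn]
      push_cast
      simp
    rw [h3]
    exact hW.vp
  have h4 := (Finset.prod_eq_one_iff_of_le_one' hle).1 h2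
  have hi0 : i % p ≠ 0 := fun h => hi (Nat.dvd_of_mod_eq_zero h)
  have hip : i % p < p := Nat.mod_lt _ hp.pos
  obtain ⟨k, hk⟩ : ∃ k, i % p = k + 1 := ⟨i % p - 1, by omega⟩
  have h5 := h4 k (Finset.mem_range.2 (by omega))
  have h6 : ζ ^ i = ζ ^ (k + 1) := by
    rw [← hk]
    conv_lhs => rw [← Nat.div_add_mod i p, pow_add, pow_mul, hζ.pow_eq_one, one_pow, one_mul]
  rw [h6]
  have h7 : v (ζ ^ (k + 1) - 1) = 1 := by rw [Valuation.map_sub_swap]; exact h5
  exact h7

theorem fer_bs (hp : p.Prime) (h2 : p ≠ 2) (hW : Wv p C W) {ζ : C} (hζ : IsPrimitiveRoot ζ p)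
    {l : ℕ} (hl : l < p) {r q : M} (hG : Gs C W r) (hrq : r ^ p + 1 = q ^ p) :
    Bs p W (r + algebraMap C M (ζ ^ l))⁻¹ (q * (r + algebraMap C M (ζ ^ l))⁻¹) (hpol ζ p l) := by
  have hinj : Function.Injective (algebraMap C M) := (algebraMap C M).injective
  have hζM : IsPrimitiveRoot (algebraMap C M ζ) p := hζ.map_of_injective hinj
  have hr0 : r + algebraMap C M ζ ^ l ≠ 0 := by
    intro h0
    apply hG.tr
    have h1 : r = algebraMap C M (-(ζ ^ l)) := by
      rw [map_neg, map_pow]
      exact eq_neg_of_add_eq_zero_left h0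
    rw [h1]
    exact isAlgebraic_algebraMap _
  obtain ⟨v1, v2, v3⟩ := Gl.hx_val hp hζ hl (W.valuation.comap (algebraMap C M))
    (fun i hi => zeta_unit hp hW hζ hi)
  refine ⟨?_, ?_, ?_, Gl.hpol_separable hp hζ hl, ?_, v2, ?_⟩
  · exact gs_inv (gs_add hG ((W.valuation_le_one_iff _).1 (E7_root hp hζ l).le))
  · have h3 := Gl.hx_eq hp hζM hl h2 hr0
    rw [mul_pow, ← hrq, map_pow, h3, ← Gl.hpol_map, eval_map, ← aeval_def]
  · rw [Gl.hpol_natDegree hp hζ hl]
    refine (Nat.Prime.coprime_iff_not_dvd hp).2 fun h => ?_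
    have := Nat.le_of_dvd (by have := hp.two_le; omega) h
    have := hp.pos
    omega
  · intro i
    exact (W.valuation_le_one_iff _).1 (v1 i)
  · intro α β ha hb hab
    exact v3 α β ha hb hab

omit [IsAlgClosed C] [CharZero C] in
theorem fer_adj {r q : M} (hr : Transcendental C r) (a : C) :
    IntermediateField.adjoin C {(r + algebraMap C M a)⁻¹, q * (r + algebraMap C M a)⁻¹} =
      IntermediateField.adjoin C {r, q} := by
  have hr0 : r + algebraMap C M a ≠ 0 := by
    intro h0
    apply hr
    have h1 : r = algebraMap C M (-a) := by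
      rw [map_neg]
      exact eq_neg_of_add_eq_zero_left h0
    rw [h1]
    exact isAlgebraic_algebraMap _
  refine le_antisymm ?_ ?_
  · rw [adjoin_le_iff]
    have hr1 : r ∈ IntermediateField.adjoin C {r, q} := subset_adjoin C _ (by simp)
    have hq1 : q ∈ IntermediateField.adjoin C {r, q} := subset_adjoin C _ (by simp)
    have h1 : (r + algebraMap C M a)⁻¹ ∈ IntermediateField.adjoin C {r, q} :=
      inv_mem (add_mem hr1 (IntermediateField.algebraMap_mem _ a))
    rintro z (rfl | hz)
    · exact h1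
    · rw [Set.mem_singleton_iff] at hz
      rw [hz]
      exact mul_mem hq1 h1
  · rw [adjoin_le_iff]
    set L := IntermediateField.adjoin C
      {(r + algebraMap C M a)⁻¹, q * (r + algebraMap C M a)⁻¹} with hL
    have h1 : (r + algebraMap C M a)⁻¹ ∈ L := subset_adjoin C _ (by simp)
    have h2 : q * (r + algebraMap C M a)⁻¹ ∈ L := subset_adjoin C _ (by simp)
    have h3 : r + algebraMap C M a ∈ L := by
      have := inv_mem h1
      rwa [inv_inv] at this
    have h4 : r ∈ L := by
      have := sub_mem h3 (IntermediateField.algebraMap_mem L a)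
      rwa [add_sub_cancel_right] at this
    have h5 : q ∈ L := by
      have := mul_mem h2 h3
      rwa [mul_assoc, inv_mul_cancel₀ hr0, mul_one] at this
    rintro z (rfl | hz)
    · exact h4
    · rw [Set.mem_singleton_iff] at hz
      rw [hz]
      exact h5

end Pool.Agent.Lib.MP_2f3286_ag.Pp
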