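import Pool.Agent.Lib.MP_2f3286_ag.Pp.E6
import Pool.Agent.Lib.MP_2f3286_ag.Pp.E5c
import Pool.Agent.Lib.MP_2f3286_ag.Pp.E7

/-!
# The first field of the tower   (module E8)

PROOF of `pre_adjoin`. `{f | A.g f ∈ adjoin C {r, q}}` is an intermediate field (`Subfield.comap`; it contains the constants by `A.hC`) which contains `r`, `q`; the same for `A.g.symm` (`A.g.symm r = r`, `A.g.symm` maps constants to constants since `A.gC` is bijective).
PROOF of `fer_lm`. Let `CR W (adjoin C {r, q}) R`, `T` finite. There is `l < p` with `X_l = (r + ζ ^ l)⁻¹ ∈ R`: otherwise `R(r + ζ ^ l) < 1` for `l = 0, 1`, so `R(ζ - 1) < 1`; but `W(ζ - 1) = 1` (`zeta_unit`), so the constant `ζ - 1` and its inverse are in `W`, so in `R` (`CR.const`), contradiction. `fer_bs`, `fer_adj` for this `l`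
and `lm_fin` (E6).
PROOF of `fer_ly`. `x = (r + 1)⁻¹`, `y = q (r + 1)⁻¹`: `fer_bs`, `fer_adj` with `l = 0`: `hB : Bs p W x y (hpol ζ p 0)`. All of `T.g`, `Φ.g`, `S.g` fix `x` and `y`. `ff`: `bs_ff`; `pT`, `pF`, `pS`: `pre_adjoin`; `tT`, `tS`: `bs_tr` with `ctx.stT`, `ctx.cT`, `ctx.stS`, `ctx.cS`; `wF`: `bs_wF` with `ctx.stF`; `ri`: `bs_ri`; `on`: `bs_on`
(`p = p ^ 1`); `lm`: `fer_lm`.
-/

open Polynomial IntermediateField

namespace Pool.Agent.Lib.MP_2f3286_ag.Pp

variable {C M : Type*} [Field C] [IsAlgClosed C] [CharZero C] [Field M] [Algebra C M]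
  {p l e : ℕ} {W : ValuationSubring M} {T Φ S : SA C M}

omit [IsAlgClosed C] [CharZero C] in
private theorem e8_fwd (A : SA C M) {r q : M} (hr : A.g r = r) (hq : A.g q = q) {f : M}
    (hf : f ∈ IntermediateField.adjoin C {r, q}) :
    A.g f ∈ IntermediateField.adjoin C {r, q} := by
  refine IntermediateField.adjoin_induction (F := C) (s := {r, q})
    (p := fun z _ => A.g z ∈ IntermediateField.adjoin C {r, q}) ?_ ?_ ?_ ?_ ?_ hf
  · intro z hz
    rcases hz with rfl | hz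
    · rw [hr]
      exact IntermediateField.subset_adjoin _ _ (Set.mem_insert _ _)
    · have hz' : z = q := hz
      rw [hz', hq]
      exact IntermediateField.subset_adjoin _ _ (Set.mem_insert_of_mem _ rfl)
  · intro c
    rw [A.hC]
    exact IntermediateField.algebraMap_mem _ _
  · intro a b _ _ ha hb
    rw [map_add]
    exact add_mem ha hb
  · intro a _ ha
    rw [map_inv₀]
    exact inv_mem ha
  · intro a b _ _ ha hb
    rw [map_mul]
    exact mul_mem ha hb

/-- the inverse automorphism -/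
private def e8_symm (A : SA C M) : SA C M where
  g := A.g.symm
  gC := A.gC.symm
  hC := by
    intro c
    apply A.g.injective
    rw [RingEquiv.apply_symm_apply, A.hC, RingEquiv.apply_symm_apply]

omit [IsAlgClosed C] [CharZero C] in
theorem pre_adjoin (A : SA C M) {r q : M} (hr : A.g r = r) (hq : A.g q = q) :
    Pre A (IntermediateField.adjoin C {r, q}) := by
  intro f
  refine ⟨fun h => ?_, e8_fwd A hr hq⟩
  have hr' : A.g.symm r = r := by rw [RingEquiv.symm_apply_eq, hr]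
  have hq' : A.g.symm q = q := by rw [RingEquiv.symm_apply_eq, hq]
  have h1 : A.g.symm (A.g f) ∈ IntermediateField.adjoin C {r, q} :=
    e8_fwd (e8_symm A) (r := r) (q := q) hr' hq' h
  rwa [RingEquiv.symm_apply_apply] at h1

omit [IsAlgClosed C] [CharZero C] in
private theorem e8_lt {R : ValuationSubring M} {z : M} (hz : z⁻¹ ∉ R) : R.valuation z < 1 := by
  rw [← ValuationSubring.valuation_le_one_iff, map_inv₀, not_le] at hz
  by_contra hcon
  rw [not_lt] at hcon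
  have h1 : (R.valuation z)⁻¹ ≤ 1 := inv_le_one_of_one_le₀ hcon
  exact absurd hz (not_lt.2 h1)

theorem fer_lm [Algebra.IsAlgebraic ℚ C] (hp : p.Prime) (h2 : p ≠ 2) (hW : Wv p C W)
    (hl : l.Prime) (vl : W.valuation (l : M) < 1) {ζ : C} (hζ : IsPrimitiveRoot ζ p) {r q : M}
    (hG : Gs C W r) (hrq : r ^ p + 1 = q ^ p) : LM W (IntermediateField.adjoin C {r, q}) := by
  intro R hR T hT
  obtain ⟨i, hi, hiR⟩ : ∃ i, i < p ∧ (r + algebraMap C M (ζ ^ i))⁻¹ ∈ R := by
    by_contra hcon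
    push Not at hcon
    have h0 := e8_lt (hcon 0 hp.pos)
    have h1 := e8_lt (hcon 1 hp.one_lt)
    have h3 : R.valuation (algebraMap C M (ζ ^ 1 - 1)) < 1 := by
      have e : algebraMap C M (ζ ^ 1 - 1) =
          (r + algebraMap C M (ζ ^ 1)) - (r + algebraMap C M (ζ ^ 0)) := by
        rw [map_sub, map_one, pow_zero, map_one]
        ring
      rw [e]
      exact (Valuation.map_sub _ _ _).trans_lt (max_lt h1 h0)
    have h4 := zeta_unit hp hW hζ (i := 1) (fun h => hp.one_lt.ne' (Nat.dvd_one.1 h))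
    set c : C := ζ ^ 1 - 1 with hc
    have h5 : algebraMap C M c⁻¹ ∈ R := by
      apply hR.const
      rw [← ValuationSubring.valuation_le_one_iff, map_inv₀, map_inv₀, h4, inv_one]
    have hne : algebraMap C M c ≠ 0 := by
      intro h0
      rw [h0, map_zero] at h4
      exact zero_ne_one h4
    rw [← ValuationSubring.valuation_le_one_iff, map_inv₀, map_inv₀] at h5
    have hne' : R.valuation (algebraMap C M c) ≠ 0 := (Valuation.ne_zero_iff _).2 hne
    have h6 : R.valuation (algebraMap C M c) * (R.valuation (algebraMap C M c))⁻¹ < 1 :=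
      mul_lt_one_of_lt_of_le h3 h5
    rw [mul_inv_cancel₀ hne'] at h6
    exact lt_irrefl _ h6
  have hB := fer_bs hp h2 hW hζ hi hG hrq
  have hadj := fer_adj (C := C) (r := r) (q := q) hG.tr (ζ ^ i)
  have h3 := lm_fin hp hW hl vl hB R (by rw [hadj]; exact hR) hiR T (by rw [hadj]; exact hT)
  rwa [hadj] at h3

theorem fer_ly [Algebra.IsAlgebraic ℚ C] (ctx : Ctx p l e W T Φ S) (h2 : p ≠ 2) {ζ : C}
    (hζ : IsPrimitiveRoot ζ p) {r q : M} (hG : Gs C W r) (hrq : r ^ p + 1 = q ^ p)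
    (hT : T.g r = r ∧ T.g q = q) (hF : Φ.g r = r ∧ Φ.g q = q) (hS : S.g r = r ∧ S.g q = q) :
    Gs C W (r + 1)⁻¹ ∧ Φ.g (r + 1)⁻¹ = (r + 1)⁻¹ ∧
      Ly p W T Φ S (r + 1)⁻¹ (IntermediateField.adjoin C {r, q}) := by
  have hB := fer_bs ctx.hp h2 ctx.wv hζ ctx.hp.pos hG hrq
  have hadj := fer_adj (C := C) (r := r) (q := q) hG.tr (ζ ^ 0)
  rw [pow_zero, map_one] at hB hadj
  have hx : ∀ A : SA C M, A.g r = r → A.g (r + 1)⁻¹ = (r + 1)⁻¹ := by
    intro A hA
    rw [map_inv₀, map_add, map_one, hA]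
  have hy : ∀ A : SA C M, A.g r = r → A.g q = q → A.g (q * (r + 1)⁻¹) = q * (r + 1)⁻¹ := by
    intro A hA hA'
    rw [map_mul, hx A hA, hA']
  refine ⟨hB.gs, hx Φ hF.1, ?_⟩
  refine ⟨?_, pre_adjoin T hT.1 hT.2, pre_adjoin Φ hF.1 hF.2, pre_adjoin S hS.1 hS.2, ?_, ?_, ?_,
    ?_, ⟨1, ?_⟩, fer_lm ctx.hp h2 ctx.wv ctx.hl ctx.vl hζ hG hrq⟩
  · rw [← hadj]
    exact bs_ff ctx.hp hB
  · rw [← hadj]
    exact bs_tr ctx.hp hB T (hx T hT.1) (hy T hT.1 hT.2) ctx.stT ctx.cT
  · rw [← hadj]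
    exact bs_tr ctx.hp hB S (hx S hS.1) (hy S hS.1 hS.2) ctx.stS ctx.cS
  · rw [← hadj]
    exact bs_wF ctx.hp hB Φ (hx Φ hF.1) (hy Φ hF.1 hF.2) ctx.stF
  · rw [← hadj]
    exact bs_ri ctx.hp ctx.wv hB
  · rw [← hadj, pow_one]
    exact bs_on ctx.hp hB

end Pool.Agent.Lib.MP_2f3286_ag.Pp
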