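import Pool.Agent.Lib.MP_2f3286_ag.Pp.C5
import Pool.Agent.Lib.MP_2f3286_ag.Pp.C3
import Pool.Agent.Lib.MP_2f3286_ag.Pp.C6
import Pool.Agent.Lib.MP_2f3286_ag.Pp.D8
import Pool.Agent.Lib.MP_2f3286_ag.Pp.E3

/-!
# The inductive step   (module F1)

PROOF of `ly_step`. `c ∈ C`, `c ≠ 0`, `W(c β) = 1` (`ctx.wv.unit`, `β ≠ 0` as `β ∉ E`), `b = c β`: `Sp p W E b` (`b ^ p = c ^ p β ^ p`, `DivE.mul`, `divE_const` for `c ^ p`), and `Ex E b = Ex E β` (`c` is a constant; both are `≤`). `ff`: `ff_step` (B3). `pT`, `pF`, `pS`: `pre_step`. `hbd` from `r3E` (D8): `pt`, `pts` (C5) for `b` (`JE p E b`: `n = 1`):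
`W(T.g b - b) < 1`, `W(S.g b - b) < 1`. `tT`: `f ∈ Ex E b`, `f ∈ W`: `f = ∑ a_i b ^ i` (`ex_repr`), `a_i ∈ W` (`ex_mem`), `T.g f = ∑ T.g (a_i) (T.g b) ^ i`, `T.g (a_i) ∈ W` and `≡ a_i` (`h.tT`), `T.g b ≡ b`, so `T.g f ∈ W`, `T.g f ≡ f`. `tS` the same. `wF`: `ex_unique` with `W' = W.comap Φ.g` (as a ring homomorphism; `f ∈ W' ↔ Φ.g f ∈ W`)
and `hE` from `h.wF`. `ri`: `ri_step`. `on`: `on_step` (`p ^ j * p = p ^ (j + 1)`). `lm`: `lm_step`.
-/

open Polynomial IntermediateField

namespace Pool.Agent.Lib.MP_2f3286_ag.Pp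

variable {C M : Type*} [Field C] [IsAlgClosed C] [CharZero C] [Algebra.IsAlgebraic ℚ C] [Field M]
  [Algebra C M] {E : IntermediateField C M} {p l e : ℕ} {W : ValuationSubring M}
  {T Φ S : SA C M} {x : M}

private theorem F1_mul {x y x' y' : M} (hx : x ∈ W) (hy' : y' ∈ W)
    (h : W.valuation (x - y) < 1) (h' : W.valuation (x' - y') < 1) :
    W.valuation (x * x' - y * y') < 1 := by
  have e : x * x' - y * y' = x * (x' - y') + (x - y) * y' := by ring
  rw [e]
  refine Valuation.map_add_lt _ ?_ ?_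
  · rw [map_mul]
    calc W.valuation x * W.valuation (x' - y') ≤ 1 * W.valuation (x' - y') := by
          gcongr
          exact (W.valuation_le_one_iff x).2 hx
      _ = W.valuation (x' - y') := one_mul _
      _ < 1 := h'
  · rw [map_mul]
    calc W.valuation (x - y) * W.valuation y' ≤ W.valuation (x - y) * 1 := by
          gcongr
          exact (W.valuation_le_one_iff y').2 hy'
      _ = W.valuation (x - y) := mul_one _
      _ < 1 := h

private theorem F1_mem {x y : M} (hy : y ∈ W) (h : W.valuation (x - y) < 1) : x ∈ W := by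
  have h1 : x - y ∈ W := (W.valuation_le_one_iff _).1 h.le
  have h2 := add_mem h1 hy
  rwa [sub_add_cancel] at h2

private theorem F1_pow {x y : M} (hy : y ∈ W) (h : W.valuation (x - y) < 1) (n : ℕ) :
    W.valuation (x ^ n - y ^ n) < 1 := by
  induction n with
  | zero =>
    rw [pow_zero, pow_zero, sub_self, map_zero]
    exact zero_lt_one
  | succ n ih =>
    rw [pow_succ, pow_succ]
    exact F1_mul (pow_mem (F1_mem hy h) n) hy ih h

omit [Algebra.IsAlgebraic ℚ C] in
private theorem F1_tr (hp : p.Prime) (hW : Wv p C W) (hri : RI p W E) {b : M}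
    (hs : Sp p W E b) (A : SA C M) (hA : Tr W A E) (hb : W.valuation (A.g b - b) < 1) :
    Tr W A (Ex E b) := by
  intro f hf hfW
  obtain ⟨a, ha, rfl⟩ := ex_repr hp hs.pw hf
  have ha' := (ex_mem hp hW hri hs (fun i _ => ha i)).1.1 hfW
  have hbW : b ∈ W := (W.valuation_le_one_iff b).1 hs.one.le
  have key : W.valuation (A.g (∑ i ∈ Finset.range p, a i * b ^ i) -
      ∑ i ∈ Finset.range p, a i * b ^ i) < 1 := by
    rw [map_sum, ← Finset.sum_sub_distrib]
    refine Valuation.map_sum_lt _ one_ne_zero fun i hi => ?_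
    rw [map_mul, map_pow]
    have h1 := hA (a i) (ha i) (ha' i (Finset.mem_range.1 hi))
    exact F1_mul h1.1 (pow_mem hbW i) h1.2 (F1_pow hbW hb i)
  exact ⟨F1_mem hfW key, key⟩

theorem ly_step (ctx : Ctx p l e W T Φ S) (hRad : Rad p C M) (hG : Gs C W x) (hx : Φ.g x = x)
    (h : Ly p W T Φ S x E) {β : M} (hβ : β ^ p ∈ E) (hn : β ∉ E) (hd : DivE p E (β ^ p))
    (hT : T.g β = β) (hF : Φ.g β = β) (hS : S.g β = β) : Ly p W T Φ S x (Ex E β) := by
  have hβ0 : β ≠ 0 := by
    rintro rfl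
    exact hn (zero_mem E)
  obtain ⟨c, hc0, hc⟩ := ctx.wv.unit β hβ0
  obtain ⟨b, hb⟩ : ∃ b : M, b = algebraMap C M c * β := ⟨_, rfl⟩
  rw [← hb] at hc
  have hcM : algebraMap C M c ≠ 0 := (_root_.map_ne_zero (algebraMap C M)).2 hc0
  have hβb : β = algebraMap C M c⁻¹ * b := by
    rw [hb, map_inv₀, ← mul_assoc, inv_mul_cancel₀ hcM, one_mul]
  have hb0 : b ≠ 0 := by
    rw [hb]
    exact mul_ne_zero hcM hβ0
  have hbp : b ^ p = algebraMap C M (c ^ p) * β ^ p := by
    rw [hb, mul_pow, map_pow]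
  have sp : Sp p W E b :=
    { pw := by
        rw [hbp]
        exact mul_mem (E.algebraMap_mem _) hβ
      nm := fun hbE => hn (by
        rw [hβb]
        exact mul_mem (E.algebraMap_mem _) hbE)
      one := hc
      dv := by
        rw [hbp]
        exact (divE_const (pow_ne_zero p hc0)).mul hd }
  have hEx : Ex E b = Ex E β := by
    apply le_antisymm
    · refine sup_le le_sup_left ?_
      rw [IntermediateField.adjoin_le_iff, Set.singleton_subset_iff]
      show b ∈ Ex E β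
      rw [hb]
      exact mul_mem (IntermediateField.algebraMap_mem _ _)
        ((le_sup_right : IntermediateField.adjoin C {β} ≤ Ex E β)
          (IntermediateField.mem_adjoin_simple_self C β))
    · refine sup_le le_sup_left ?_
      rw [IntermediateField.adjoin_le_iff, Set.singleton_subset_iff]
      show β ∈ Ex E b
      rw [hβb]
      exact mul_mem (IntermediateField.algebraMap_mem _ _)
        ((le_sup_right : IntermediateField.adjoin C {b} ≤ Ex E b)
          (IntermediateField.mem_adjoin_simple_self C b))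
  have hJ : JE p E b := ⟨hb0, 1, by
    rw [pow_one]
    exact ⟨sp.pw, sp.dv⟩⟩
  have hbd := r3E ctx hG hx h
  have hTb := pt ctx hRad h hbd hJ hc
  have hSb := pts ctx h hJ hc
  have pT := pre_step T h.pT hT
  have pF := pre_step Φ h.pF hF
  have pS := pre_step S h.pS hS
  rw [← hEx] at pT pF pS ⊢
  obtain ⟨j, hj⟩ := h.on
  exact
    { ff := ff_step ctx.hp h.ff sp.pw
      pT := pT
      pF := pF
      pS := pS
      tT := F1_tr ctx.hp ctx.wv h.ri sp T h.tT hTb
      tS := F1_tr ctx.hp ctx.wv h.ri sp S h.tS hSb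
      wF := fun f hf => ex_unique ctx.hp ctx.wv h.ri sp (W.comap (Φ.g : M →+* M))
        (fun g hg => h.wF g hg) hf
      ri := ri_step ctx.hp h.ff ctx.wv h.ri sp
      on := ⟨j + 1, by
        rw [pow_succ]
        exact on_step ctx.hp ctx.wv h.ri sp hj⟩
      lm := lm_step ctx.hp h.ff ctx.wv h.ri sp h.lm }

end Pool.Agent.Lib.MP_2f3286_ag.Pp
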