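import Pool.Agent.Lib.MP_2f3286_ag.Pp.C4
import Pool.Agent.Lib.MP_2f3286_ag.Pp.D8
import Pool.Agent.Lib.MP_2f3286_ag.Pp.BR1
import Pool.Agent.Lib.MP_2f3286_ag.Gl.GLM

/-!
# Inertia elements and values at places with a stable restriction to `E`   (module F3)

PROOF of `gly`. `Gl.glm` (Gl/GLM.lean) with `L = E`, `q = l ^ e` (`¬ p ∣ q` by `ctx.hpl`), `t` from `h.ff`, `𝒱` = the set of all valuation rings which contain the constants (`hrad` is `hRad`), `T`, `Φ`, `S` as `Gl.SAut C E M` (`gL` the restriction to `E`: `h.pT`, `h.pF`, `h.pS`; see `glt_res` in Gl/GLT.lean).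
`hTJ`, `hSJ`: `tri` (C4) with `ctx.wv`, `h.ri`, `h.pT`, `h.tT` (`je_iff`, BR1, translates `JE` and `Gl.IsJ`); `hΦJ`: `r3E` (D8); `hμ`: `ctx.mu`; `hrel`: `ctx.rel`; `hrelC`: `ctx.relC`; `hper`: `ctx.per`; `h𝒪L`: `hne`; `hst`: `hst`.
-/

open Polynomial IntermediateField

namespace Pool.Agent.Lib.MP_2f3286_ag.Pp

/-- an automorphism which preserves `E` as a `Gl.SAut` -/
private theorem f3_saut {C M : Type*} [Field C] [Field M] [Algebra C M]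
    {E : IntermediateField C M} (A : SA C M) (hA : Pre A E) :
    ∃ B : Gl.SAut C E M, B.g = A.g ∧ B.gC = A.gC ∧
      ∀ f : E, algebraMap E M (B.gL f) = A.g (f : M) := by
  have h2 : ∀ f : E, A.g.symm (f : M) ∈ E := fun f => by
    have h3 := hA (A.g.symm (f : M))
    rw [RingEquiv.apply_symm_apply] at h3
    exact h3.1 f.2
  refine ⟨⟨A.g,
    { toFun := fun f => ⟨A.g (f : M), (hA _).2 f.2⟩
      invFun := fun f => ⟨A.g.symm (f : M), h2 f⟩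
      left_inv := fun f => Subtype.ext (A.g.symm_apply_apply (f : M))
      right_inv := fun f => Subtype.ext (A.g.apply_symm_apply (f : M))
      map_mul' := fun a b => Subtype.ext (map_mul A.g (a : M) (b : M))
      map_add' := fun a b => Subtype.ext (map_add A.g (a : M) (b : M)) },
    A.gC, fun f => rfl, fun c => Subtype.ext (A.hC c)⟩, rfl, rfl, fun f => rfl⟩

variable {C M : Type*} [Field C] [IsAlgClosed C] [CharZero C] [Algebra.IsAlgebraic ℚ C] [Field M]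
  [Algebra C M] {E : IntermediateField C M} {p l e : ℕ} {W : ValuationSubring M}
  {T Φ S : SA C M} {x : M}

theorem gly (ctx : Ctx p l e W T Φ S) (hRad : Rad p C M) (hG : Gs C W x) (hx : Φ.g x = x)
    (h : Ly p W T Φ S x E) (𝒪 : ValuationSubring M) (h𝒪 : ∀ a : C, algebraMap C M a ∈ 𝒪)
    (hne : ∃ f ∈ E, f ∉ 𝒪)
    (hst : ∀ f ∈ E, (T.g f ∈ 𝒪 ↔ f ∈ 𝒪) ∧ (Φ.g f ∈ 𝒪 ↔ f ∈ 𝒪) ∧ (S.g f ∈ 𝒪 ↔ f ∈ 𝒪)) {z : M}
    (hz : JE p E z) {c : C} (hc : c ≠ 0) (hzc : 𝒪.valuation (z - algebraMap C M c) < 1) :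
    𝒪.valuation (T.g z - algebraMap C M (T.gC c)) < 1 := by
  have hq : ¬ p ∣ l ^ e := fun h1 =>
    ctx.hpl (((Nat.prime_dvd_prime_iff_eq ctx.hp ctx.hl).1 (ctx.hp.dvd_of_dvd_pow h1)).symm)
  obtain ⟨t, ht, hfd⟩ := h.ff
  obtain ⟨T', hT1, hT2, hT3⟩ := f3_saut T h.pT
  obtain ⟨Φ', hΦ1, hΦ2, hΦ3⟩ := f3_saut Φ h.pF
  obtain ⟨S', hS1, hS2, hS3⟩ := f3_saut S h.pS
  have hfin := Gl.glm (M := M) ctx.hp hq t ht {Q : ValuationSubring M | ∀ a : C, algebraMap C M a ∈ Q}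
    (fun V hV => hV) (fun ρ hρ h1 => hRad ρ hρ (fun Q hQ => h1 Q hQ)) T' Φ' S'
    (fun z hz => by
      obtain ⟨u, hu, h1⟩ := tri ctx.hp ctx.wv h.ri T h.pT h.tT (je_iff.2 hz)
      exact ⟨⟨u, hu⟩, by rw [hT1]; exact h1⟩)
    (fun z hz => by
      obtain ⟨u, hu, h1⟩ := tri ctx.hp ctx.wv h.ri S h.pS h.tS (je_iff.2 hz)
      exact ⟨⟨u, hu⟩, by rw [hS1]; exact h1⟩)
    (by
      obtain ⟨a₀, ha₀⟩ := r3E ctx hG hx h
      refine ⟨a₀, fun z hz h1 => ?_⟩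
      obtain ⟨u, hu⟩ := h1
      rw [hΦ1] at hu
      exact ⟨⟨z ^ p ^ a₀, ha₀ z (je_iff.2 hz) ⟨u, u.2, hu⟩⟩, rfl⟩)
    (fun n ξ hξ => by rw [hT2, hΦ2, hS2]; exact ctx.mu n ξ hξ)
    (fun z _ => by rw [hT1, hΦ1, hS1]; exact ctx.rel z)
    (fun c => by rw [hT2, hΦ2, hS2]; exact ctx.relC c)
    (fun z _ c => by rw [hS1, hS2]; exact ctx.per z c)
    𝒪 h𝒪
    (by
      obtain ⟨f, hf, hf'⟩ := hne
      exact ⟨⟨f, hf⟩, hf'⟩)
    (fun f => by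
      rw [hT3, hΦ3, hS3]
      exact hst f f.2)
    (je_iff.1 hz) hc hzc
  rw [hT1, hT2] at hfin
  exact hfin

end Pool.Agent.Lib.MP_2f3286_ag.Pp
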