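import Pool.Agent.Lib.MP_2f3286_ag.Pp.SaOf
import Pool.Agent.Lib.MP_2f3286_ag.Gl.LPX
import Pool.Agent.Lib.MP_2f3286_ag.Full.Gauss
import Pool.Agent.Lib.MP_2f3286_ag.Fer.Ty.LC

/-!
# The local situation at a place of the number field   (module F4)

PROOF of `exists_ctx` (most of it is in the proof of `glt`, Gl/GLT.lean, steps (1), (3); its private lemmas `glt_mul_stab`, `glt_mul`, `glt_inv`, `glt_pow`, `glt_conj`, `glt_iter` may be copied with new names). `Gl.local_pair2` (Gl/LPX.lean): `V`, `δ`, `Φ`, `l`, `e`. `Full.exists_gauss` with `t = r`: `W` with `W.comap (algebraMap kb M) = V`,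
`IsGauss kb r W`. `ω = (δ ^ (l ^ e))⁻¹ * (Φ * δ * Φ⁻¹)`, so `Φ * δ = δ ^ (l ^ e) * (ω * Φ)`. `Gs kb W r`: `tr`: `hr`; `one`: the Gauss property (`IsGauss`, see `Full.IsGauss.valuation_aeval`); `mem`: `one` for `P = X`. `Ctx`: `wv.unit`: `Full.exists_unit_mul` with `halg`; `wv.vp`, `vl`: `V (p) = 1`, `V (l) < 1` (`W.valuation` of a constant is
one or less than one iff `V.valuation` is: `Full.val_comap_eq_one`, `Full.val_lt_one_comap`). `stT`, `stF`, `stS`, `cT`, `cF`, `cS`: the same for `V` (`hωV`, `hω1` of `glt`). `mu`: `hμ` of `glt`. `rel`, `relC`: `s (Φ * δ) = s (δ ^ (l ^ e) * (ω * Φ))`, and iterates are powers. `per`: `hper` of `glt` (`inert_order`). `orb`: `exists_pow_fix` for `s Φ`.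
-/

open Polynomial IntermediateField IsDedekindDomain NumberField

namespace Pool.Agent.Lib.MP_2f3286_ag.Pp

open Pool.Agent.Lib.MP_2f3286_ag.Fer (PV)

open Pool.Agent.Lib.MP_2f3286_ag.Fer.Ty

private theorem f4_iter {K M : Type*} [Field K] [Field M] [Algebra K M] (g : Gal(M/K)) (n : ℕ)
    (x : M) : (g ^ n) x = (⇑g)^[n] x := by
  induction n generalizing x with
  | zero => rfl
  | succ n ih => rw [pow_succ, AlgEquiv.mul_apply, ih, Function.iterate_succ_apply]

section inert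

variable {F kb : Type*} [Field F] [Field kb] [Algebra F kb] [Algebra.IsAlgebraic F kb]
  {V : ValuationSubring kb}

omit [Algebra.IsAlgebraic F kb] in
private theorem f4_mul_stab {g g' : Gal(kb/F)} (hg : ∀ x, g x ∈ V ↔ x ∈ V)
    (hg' : ∀ x, g' x ∈ V ↔ x ∈ V) (x : kb) : (g * g') x ∈ V ↔ x ∈ V := by
  rw [AlgEquiv.mul_apply, hg, hg']

omit [Algebra.IsAlgebraic F kb] in
private theorem f4_mul {g g' : Gal(kb/F)} (hg1 : ∀ x ∈ V, V.valuation (g x - x) < 1)
    (hg' : ∀ x, g' x ∈ V ↔ x ∈ V) (hg1' : ∀ x ∈ V, V.valuation (g' x - x) < 1) :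
    ∀ x ∈ V, V.valuation ((g * g') x - x) < 1 := by
  intro x hx
  have h1 : (g * g') x - x = (g (g' x) - g' x) + (g' x - x) := by
    rw [AlgEquiv.mul_apply]; ring
  rw [h1]
  exact V.valuation.map_add_lt (hg1 _ ((hg' x).2 hx)) (hg1' x hx)

private theorem f4_inv {g : Gal(kb/F)} (hg : ∀ x, g x ∈ V ↔ x ∈ V)
    (hg1 : ∀ x ∈ V, V.valuation (g x - x) < 1) :
    ∀ x ∈ V, V.valuation (g⁻¹ x - x) < 1 := by
  intro x hx
  have h0 : g (g⁻¹ x) = x := g.apply_symm_apply x
  have h1 : g (g⁻¹ x - x) = x - g x := by rw [map_sub, h0]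
  rw [← stab_val hg, h1, Valuation.map_sub_swap]
  exact hg1 x hx

omit [Algebra.IsAlgebraic F kb] in
private theorem f4_pow {g : Gal(kb/F)} (hg : ∀ x, g x ∈ V ↔ x ∈ V)
    (hg1 : ∀ x ∈ V, V.valuation (g x - x) < 1) (n : ℕ) :
    ∀ x ∈ V, V.valuation ((g ^ n) x - x) < 1 := by
  induction n with
  | zero =>
    intro x _
    rw [pow_zero, AlgEquiv.one_apply, sub_self, map_zero]
    exact zero_lt_one
  | succ n ih =>
    rw [pow_succ]
    exact f4_mul ih hg hg1

private theorem f4_conj {g Φ : Gal(kb/F)} (hΦ : ∀ x, Φ x ∈ V ↔ x ∈ V)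
    (hg1 : ∀ x ∈ V, V.valuation (g x - x) < 1) :
    ∀ x ∈ V, V.valuation ((Φ * g * Φ⁻¹) x - x) < 1 := by
  intro x hx
  have h0 : Φ (Φ⁻¹ x) = x := Φ.apply_symm_apply x
  have h1 : (Φ * g * Φ⁻¹) x - x = Φ (g (Φ⁻¹ x) - Φ⁻¹ x) := by
    rw [map_sub, h0, AlgEquiv.mul_apply, AlgEquiv.mul_apply]
  rw [h1, stab_val hΦ]
  exact hg1 _ ((stab_inv hΦ x).2 hx)

end inert

private theorem f4_lt_iff {K : Type*} [Field K] (A : ValuationSubring K) (x : K) :
    A.valuation x < 1 ↔ x = 0 ∨ x⁻¹ ∉ A := by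
  by_cases hx : x = 0
  · subst hx
    simp
  · have h0 : 0 < A.valuation x := zero_lt_iff.2 ((Valuation.ne_zero_iff _).2 hx)
    rw [← A.valuation_le_one_iff, map_inv₀, not_le, one_lt_inv₀ h0]
    simp [hx]

private theorem f4_mem {kb M : Type*} [Field kb] [Field M] [Algebra kb M] {V : ValuationSubring kb}
    {W : ValuationSubring M} (h : W.comap (algebraMap kb M) = V) (c : kb) :
    algebraMap kb M c ∈ W ↔ c ∈ V := by
  rw [← h, ValuationSubring.mem_comap]

private theorem f4_lt {kb M : Type*} [Field kb] [Field M] [Algebra kb M] {V : ValuationSubring kb}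
    {W : ValuationSubring M} (h : W.comap (algebraMap kb M) = V) (c : kb) :
    W.valuation (algebraMap kb M c) < 1 ↔ V.valuation c < 1 := by
  rw [f4_lt_iff, f4_lt_iff, ← map_inv₀, f4_mem h, map_eq_zero]

private theorem f4_one {kb M : Type*} [Field kb] [Field M] [Algebra kb M] {V : ValuationSubring kb}
    {W : ValuationSubring M} (h : W.comap (algebraMap kb M) = V) (c : kb) :
    W.valuation (algebraMap kb M c) = 1 ↔ V.valuation c = 1 := by
  have h1 := f4_lt h c
  have h2 := f4_mem h c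
  rw [← W.valuation_le_one_iff, ← V.valuation_le_one_iff] at h2
  constructor
  · intro h3
    refine le_antisymm (h2.1 h3.le) (not_lt.1 fun h4 => ?_)
    exact absurd (h1.2 h4) (by rw [h3]; exact lt_irrefl _)
  · intro h3
    refine le_antisymm (h2.2 h3.le) (not_lt.1 fun h4 => ?_)
    exact absurd (h1.1 h4) (by rw [h3]; exact lt_irrefl _)

theorem exists_ctx {F kb K M : Type*} [Field F] [NumberField F] [Field kb] [Algebra F kb]
    [IsGalois F kb] [IsAlgClosed kb] [Field K] [Field M] [Algebra K M] [Algebra kb M]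
    [Algebra.IsAlgebraic K M] (s : Gal(kb/F) →* Gal(M/K)) (hs : Continuous s)
    (hsec : ∀ σ a, s σ (algebraMap kb M a) = algebraMap kb M (σ a)) {p : ℕ} (hp : p.Prime)
    {ζ : F} (hζ : IsPrimitiveRoot ζ p) (w : HeightOneSpectrum (𝓞 F)) (hpw : (p : 𝓞 F) ∉ w.asIdeal)
    {c : F} (hc0 : c ≠ 0) (hc : ¬ PV p w c) {γ : kb} (hγ : γ ^ p = algebraMap F kb c) {r : M}
    (hr : Transcendental kb r)
    (halg : ∀ y : M, IsAlgebraic (IntermediateField.adjoin kb {r}) y) :
    ∃ (W : ValuationSubring M) (δ Φ ω : Gal(kb/F)) (l e : ℕ), δ γ ≠ γ ∧ Gs kb W r ∧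
      Ctx p l e W (saOf s hsec δ) (saOf s hsec Φ) (saOf s hsec ω) := by
  have : CharZero kb := charZero_of_injective_algebraMap (algebraMap F kb).injective
  have : Algebra.IsAlgebraic ℚ kb := Algebra.IsAlgebraic.trans ℚ F kb
  obtain ⟨V, δ, Φ, l, e, hl, hlp, he, hVl, hVp, hwle, hwu, hδV, hΦV, hδ1, hΦq, hδγ, hrel0⟩ :=
    Gl.local_pair2 hp hζ w hpw hc0 hc hγ
  obtain ⟨W, hWV, hG⟩ := Full.exists_gauss (L := M) r hr V
  -- the element `ω`
  obtain ⟨ω, hω⟩ : ∃ ω : Gal(kb/F), ω = (δ ^ l ^ e)⁻¹ * (Φ * δ * Φ⁻¹) := ⟨_, rfl⟩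
  have hrelG : Φ * δ = δ ^ l ^ e * (ω * Φ) := by
    rw [hω]
    group
  have hδqV : ∀ x, (δ ^ l ^ e) x ∈ V ↔ x ∈ V := stab_pow hδV _
  have hδiV : ∀ x, (δ ^ l ^ e)⁻¹ x ∈ V ↔ x ∈ V := stab_inv hδqV
  have hΦiV : ∀ x, Φ⁻¹ x ∈ V ↔ x ∈ V := stab_inv hΦV
  have hcV : ∀ x, (Φ * δ * Φ⁻¹) x ∈ V ↔ x ∈ V :=
    f4_mul_stab (f4_mul_stab hΦV hδV) hΦiV
  have hωV : ∀ x, ω x ∈ V ↔ x ∈ V := by
    rw [hω]
    exact f4_mul_stab hδiV hcV
  have hω1 : ∀ x ∈ V, V.valuation (ω x - x) < 1 := by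
    rw [hω]
    exact f4_mul (f4_inv hδqV (f4_pow hδV hδ1 _)) hcV (f4_conj hΦV hδ1)
  have hωpcl : ∀ t ∈ pcl p F kb, ω t = t := by
    intro t ht
    have h1 := hrel0 (Φ⁻¹ t) (pcl_map Φ⁻¹ ht)
    have h2 : Φ (Φ⁻¹ t) = t := Φ.apply_symm_apply t
    rw [h2] at h1
    rw [hω, AlgEquiv.mul_apply, AlgEquiv.mul_apply, AlgEquiv.mul_apply, h1]
    exact (δ ^ l ^ e).symm_apply_apply t
  -- roots of unity
  have hμ : ∀ (n : ℕ) (ξ : kb), ξ ^ p ^ n = 1 → δ ξ = ξ ∧ Φ ξ = ξ ^ l ^ e ∧ ω ξ = ξ := by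
    intro n ξ hξ
    refine ⟨Gl.inert_root hp hVp hδ1 (map_one _) (map_one δ) hξ, ?_,
      Gl.inert_root hp hVp hω1 (map_one _) (map_one ω) hξ⟩
    have hn : p ^ n ≠ 0 := pow_ne_zero _ hp.ne_zero
    have hξV := mem_of_root V hn hξ
    have hvξ : V.valuation ξ = 1 := by
      have h1 : V.valuation ξ ^ p ^ n = 1 := by rw [← map_pow, hξ, map_one]
      exact (pow_eq_one_iff.1 h1).resolve_right hn
    have hξ0 : ξ ≠ 0 := by
      rintro rfl
      rw [map_zero] at hvξ
      exact zero_ne_one hvξ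
    have h1 := one_unit_of_sub V (by rw [map_pow, hvξ, one_pow]) (hΦq ξ hξV)
    have h2 : (Φ ξ / ξ ^ l ^ e) ^ p ^ n = 1 := by
      rw [div_pow, ← map_pow, hξ, map_one, ← pow_mul, mul_comm, pow_mul, hξ, one_pow, div_one]
    exact (div_eq_one_iff_eq (pow_ne_zero _ hξ0)).1 (root_eq_one hp V hVp h2 h1)
  -- `ω` has finite orbits of order prime to `p`
  have hper : ∀ z : M, ∀ c : kb, ∃ k : ℕ, ¬ p ∣ k ∧ (s ω ^ k) z = z ∧ (ω ^ k) c = c := by
    intro z c
    have hU : {σ : Gal(kb/F) | s σ z = z} ∈ nhds (1 : Gal(kb/F)) := by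
      have hop : IsOpen {g : Gal(M/K) | g z = z} :=
        stabilizer_isOpen_of_isIntegral (K := K) (L := M) z
      apply IsOpen.mem_nhds (hop.preimage hs)
      show s 1 z = z
      rw [map_one]
      rfl
    obtain ⟨E, hE, hEU⟩ := (krullTopology_mem_nhds_one_iff F kb _).1 hU
    have hint : IsIntegral F c := Algebra.IsIntegral.isIntegral c
    have hfd : FiniteDimensional F F⟮c⟯ := IntermediateField.adjoin.finiteDimensional hint
    obtain ⟨N, hN, hNE⟩ := Gl.inert_order hp hζ hVp hωV hω1 hωpcl (E ⊔ F⟮c⟯)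
    refine ⟨N, hN, ?_, hNE c ((le_sup_right : F⟮c⟯ ≤ E ⊔ F⟮c⟯)
      (IntermediateField.mem_adjoin_simple_self F c))⟩
    have h1 : ω ^ N ∈ E.fixingSubgroup := by
      rw [IntermediateField.mem_fixingSubgroup_iff]
      intro x hx
      exact hNE x ((le_sup_left : E ≤ E ⊔ F⟮c⟯) hx)
    have h2 : s (ω ^ N) z = z := hEU h1
    rw [map_pow] at h2
    exact h2
  have hone : ∀ P : kb[X], (∀ i, algebraMap kb M (P.coeff i) ∈ W) →
      (∃ i, W.valuation (algebraMap kb M (P.coeff i)) = 1) → W.valuation (aeval r P) = 1 :=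
    fun P h1 h2 => hG P (fun i => (W.valuation_le_one_iff _).2 (h1 i)) h2
  refine ⟨W, δ, Φ, ω, l, e, hδγ, ⟨hr, ?_, hone⟩, ?_⟩
  · have h1 := hone X (fun i => ?_) ⟨1, ?_⟩
    · rw [aeval_X] at h1
      exact (W.valuation_le_one_iff _).1 h1.le
    · rw [coeff_X]
      split_ifs
      · rw [map_one]
        exact W.one_mem
      · rw [map_zero]
        exact W.zero_mem
    · rw [coeff_X_one, map_one, map_one]
  · exact
      { hp := hp
        hl := hl
        hpl := hlp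
        he := he
        wv :=
          { unit := fun y hy => Full.exists_unit_mul r halg W hG y hy
            vp := by
              have h1 := (f4_one hWV (p : kb)).2 hVp
              rwa [map_natCast] at h1 }
        vl := by
          have h1 := (f4_lt hWV (l : kb)).2 hVl
          rwa [map_natCast] at h1
        stT := fun c => by rw [saOf_gC, f4_mem hWV, f4_mem hWV]; exact hδV c
        stF := fun c => by rw [saOf_gC, f4_mem hWV, f4_mem hWV]; exact hΦV c
        stS := fun c => by rw [saOf_gC, f4_mem hWV, f4_mem hWV]; exact hωV c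
        cT := fun c hc => by
          rw [saOf_gC, ← map_sub, f4_lt hWV]
          exact hδ1 c ((f4_mem hWV c).1 hc)
        cF := fun c hc => by
          rw [saOf_gC, ← map_pow, ← map_sub, f4_lt hWV]
          exact hΦq c ((f4_mem hWV c).1 hc)
        cS := fun c hc => by
          rw [saOf_gC, ← map_sub, f4_lt hWV]
          exact hω1 c ((f4_mem hWV c).1 hc)
        mu := fun n ξ hξ => hμ n ξ hξ
        rel := fun z => by
          rw [saOf_coe, saOf_coe, saOf_coe, ← f4_iter, ← map_pow]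
          have h1 := congrArg (fun σ => s σ z) hrelG
          simp only [map_mul, AlgEquiv.mul_apply] at h1
          exact h1
        relC := fun c => by
          rw [saOf_coeC, saOf_coeC, saOf_coeC, ← f4_iter]
          have h1 := congrArg (fun σ : Gal(kb/F) => σ c) hrelG
          simp only [AlgEquiv.mul_apply] at h1
          exact h1
        per := fun z c => by
          rw [saOf_coe, saOf_coeC]
          obtain ⟨k, hk, h1, h2⟩ := hper z c
          refine ⟨k, hk, ?_, ?_⟩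
          · rw [← f4_iter]
            exact h1
          · rw [← f4_iter]
            exact h2
        orb := fun z => by
          rw [saOf_coe]
          obtain ⟨m, hm, hm'⟩ := exists_pow_fix (s Φ) z
          refine ⟨m, hm, ?_⟩
          rw [← f4_iter]
          exact hm' }

end Pool.Agent.Lib.MP_2f3286_ag.Pp
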