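import Pool.Agent.Lib.MP_2f3286_ag.Pp.SaOf
import Pool.Agent.Lib.MP_2f3286_ag.Pp.B3

/-!
# Towers   (module G1)

PROOFS. `le`: induction. `ff`: `ff_step` (B3). `sup`: induction on `hE'`: `E ⊔ B = E` (`le`), `E ⊔ Ex E' β = Ex (E ⊔ E') β` (`sup_assoc`), `β ^ p ∈ E' ≤ E ⊔ E'`, `DivE.mono`. `val`: induction on `hE'` (for all `c`): `E' = B`: `c ∈ E`. Step: `c ∈ Ex (E ⊔ E') β`; `val_step` (B3) for `E ⊔ E'` (`ff` of the tower `sup`): `c' ∈ E ⊔ E'` with the
same valuation; induction. `pre`: induction, `pre_step`; `A.g β = β` for `β ∈ P`. `map`: let `N = NN p Set.univ B`; if `Tow p univ B E` then the image `A(E) = {f | A.g.symm f ∈ E}` (an intermediate field as `A` preserves the constants) satisfies `Tow p univ B (A(E))`: induction; `A(B) = B` (`hA`), `A(Ex E β) = Ex (A(E)) (A.g β)`, and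
`DivE p E (β ^ p)` gives `DivE p (A(E)) (A.g (β ^ p))` (for `Q` take `Q.comap A.g`). So `f ∈ N → A.g f ∈ N`; the same for the inverse of `A` (`⟨A.g.symm, A.gC.symm, _⟩`).
`NN.cl_univ`: `f ^ p ∈ E`, `Tow p univ B E`, `DivE p E (f ^ p)` by `NN.div`, so `Tow p univ B (Ex E f)`. `NN.le_of_cl`: by induction `E ≤ N`: step: `β ^ p ∈ E ≤ N`, `DivE.mono`, `hN`. `NN` is defined by its elements: closed under the field operations by `sup`. `NN.fin`: induction on the finite set with `sup`. `NN.div`: let `Q`, `c ∈ NN` as in `DivE`; `c ∈ E'`, `Tow p P B E'`; `val` for `c ∈ E ⊔ E'`: `a ∈ E`, `a ≠ 0`, the same valuation.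
-/

open Polynomial IntermediateField

namespace Pool.Agent.Lib.MP_2f3286_ag.Pp

section
variable {C M : Type*} [Field C] [Field M] [Algebra C M] {p : ℕ} {P : Set M}
  {B E E' : IntermediateField C M}

theorem Tow.le (hE : Tow p P B E) : B ≤ E := by
  induction hE with
  | base => exact le_rfl
  | step E β hE hP hβ hd ih => exact ih.trans le_sup_left

theorem Tow.sup (hE : Tow p P B E) (hE' : Tow p P B E') : Tow p P B (E ⊔ E') := by
  induction hE' with
  | base =>
    rw [sup_eq_left.2 hE.le]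
    exact hE
  | step E1 β hE1 hP hβ hd ih =>
    have h1 : E ⊔ Ex E1 β = Ex (E ⊔ E1) β :=
      (sup_assoc E E1 (IntermediateField.adjoin C {β})).symm
    rw [h1]
    exact Tow.step (E ⊔ E1) β ih hP ((le_sup_right : E1 ≤ E ⊔ E1) hβ) (hd.mono le_sup_right)

/-- the union of the tower -/
def NN (p : ℕ) (P : Set M) (B : IntermediateField C M) : IntermediateField C M where
  carrier := {f | ∃ E, Tow p P B E ∧ f ∈ E}
  mul_mem' := by
    rintro a b ⟨E, hE, ha⟩ ⟨E', hE', hb⟩
    exact ⟨_, hE.sup hE', mul_mem ((le_sup_left : E ≤ E ⊔ E') ha)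
      ((le_sup_right : E' ≤ E ⊔ E') hb)⟩
  add_mem' := by
    rintro a b ⟨E, hE, ha⟩ ⟨E', hE', hb⟩
    exact ⟨_, hE.sup hE', add_mem ((le_sup_left : E ≤ E ⊔ E') ha)
      ((le_sup_right : E' ≤ E ⊔ E') hb)⟩
  algebraMap_mem' := fun a => ⟨B, Tow.base, B.algebraMap_mem a⟩
  inv_mem' := by
    rintro a ⟨E, hE, ha⟩
    exact ⟨E, hE, inv_mem ha⟩

theorem mem_NN {f : M} : f ∈ NN p P B ↔ ∃ E, Tow p P B E ∧ f ∈ E := Iff.rfl

theorem Tow.le_NN (hE : Tow p P B E) : E ≤ NN p P B := fun _ hf => ⟨E, hE, hf⟩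

theorem NN.fin {T : Set M} (hT : T.Finite) (h : ∀ f ∈ T, f ∈ NN p P B) :
    ∃ E, Tow p P B E ∧ ∀ f ∈ T, f ∈ E := by
  classical
  obtain ⟨S, rfl⟩ := hT.exists_finset_coe
  clear hT
  induction S using Finset.induction_on with
  | empty => exact ⟨B, Tow.base, fun f hf => absurd hf (by simp)⟩
  | insert a S ha ih =>
    obtain ⟨E1, hE1, h1⟩ := ih (fun f hf => h f (by
      rw [Finset.coe_insert]
      exact Set.mem_insert_of_mem _ hf))
    obtain ⟨E2, hE2, h2⟩ := h a (by
      rw [Finset.coe_insert]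
      exact Set.mem_insert _ _)
    refine ⟨E1 ⊔ E2, hE1.sup hE2, fun f hf => ?_⟩
    rw [Finset.coe_insert, Set.mem_insert_iff] at hf
    rcases hf with rfl | hf
    · exact (le_sup_right : E2 ≤ E1 ⊔ E2) h2
    · exact (le_sup_left : E1 ≤ E1 ⊔ E2) (h1 f hf)

theorem Tow.pre (A : SA C M) (hA : Pre A B) (hP : ∀ β ∈ P, A.g β = β) (hE : Tow p P B E) :
    Pre A E := by
  induction hE with
  | base => exact hA
  | step E β hE hβP hβ hd ih => exact pre_step A ih (hP β hβP)

/-! ### the image of a tower -/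

private theorem G1_val (Q : ValuationSubring M) (x : M) :
    Q.valuation x = 1 ↔ x ≠ 0 ∧ x ∈ Q ∧ x⁻¹ ∈ Q := by
  constructor
  · intro h
    refine ⟨?_, ?_, ?_⟩
    · rintro rfl
      rw [map_zero] at h
      exact zero_ne_one h
    · rw [← Q.valuation_le_one_iff, h]
    · rw [← Q.valuation_le_one_iff, map_inv₀, h, inv_one]
  · rintro ⟨h0, h1, h2⟩
    rw [← Q.valuation_le_one_iff] at h1 h2
    rw [map_inv₀] at h2
    refine le_antisymm h1 ?_
    have h3 : Q.valuation x ≠ 0 := (_root_.map_ne_zero Q.valuation).2 h0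
    calc (1 : Q.ValueGroup) = Q.valuation x * (Q.valuation x)⁻¹ := (mul_inv_cancel₀ h3).symm
      _ ≤ Q.valuation x * 1 := by gcongr
      _ = Q.valuation x := mul_one _

/-- the inverse automorphism -/
private def G1inv (A : SA C M) : SA C M where
  g := A.g.symm
  gC := A.gC.symm
  hC := fun c => by
    rw [RingEquiv.symm_apply_eq, A.hC, RingEquiv.apply_symm_apply]

/-- the image of a subfield -/
private def G1im (A : SA C M) (E : IntermediateField C M) : IntermediateField C M where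
  carrier := {f | A.g.symm f ∈ E}
  mul_mem' := by
    intro a b ha hb
    show A.g.symm (a * b) ∈ E
    rw [map_mul]
    exact mul_mem ha hb
  add_mem' := by
    intro a b ha hb
    show A.g.symm (a + b) ∈ E
    rw [map_add]
    exact add_mem ha hb
  algebraMap_mem' := by
    intro c
    show A.g.symm (algebraMap C M c) ∈ E
    have h := (G1inv A).hC c
    have h2 : A.g.symm (algebraMap C M c) = algebraMap C M (A.gC.symm c) := h
    rw [h2]
    exact E.algebraMap_mem _
  inv_mem' := by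
    intro a ha
    show A.g.symm a⁻¹ ∈ E
    rw [map_inv₀]
    exact inv_mem ha

private theorem G1_mem_im {A : SA C M} {E : IntermediateField C M} {f : M} :
    f ∈ G1im A E ↔ A.g.symm f ∈ E := Iff.rfl

private theorem G1_im_mono (A : SA C M) {E F : IntermediateField C M} (h : E ≤ F) :
    G1im A E ≤ G1im A F := fun _ hf => h hf

private theorem G1_divE (A : SA C M) {m : ℕ} {f : M} (h : DivE m E f) :
    DivE m (G1im A E) (A.g f) := by
  intro Q hQ
  obtain ⟨c, hc, hc0, hv⟩ := h (Q.comap (A.g : M →+* M)) (fun a => by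
    rw [ValuationSubring.mem_comap]
    show A.g (algebraMap C M a) ∈ Q
    rw [A.hC]
    exact hQ _)
  refine ⟨A.g c, ?_, (_root_.map_ne_zero A.g).2 hc0, ?_⟩
  · rw [G1_mem_im, RingEquiv.symm_apply_apply]
    exact hc
  · rw [G1_val] at hv ⊢
    obtain ⟨h0, h1, h2⟩ := hv
    rw [ValuationSubring.mem_comap] at h1 h2
    have e1 : A.g (f * (c ^ m)⁻¹) = A.g f * ((A.g c) ^ m)⁻¹ := by
      rw [map_mul, map_inv₀, map_pow]
    have h1' : A.g (f * (c ^ m)⁻¹) ∈ Q := h1
    have h2' : A.g (f * (c ^ m)⁻¹)⁻¹ ∈ Q := h2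
    rw [map_inv₀, e1] at h2'
    rw [e1] at h1'
    refine ⟨?_, h1', h2'⟩
    rw [← e1]
    exact (_root_.map_ne_zero A.g).2 h0

private theorem G1_im_Ex (A : SA C M) (E : IntermediateField C M) (β : M) :
    G1im A (Ex E β) = Ex (G1im A E) (A.g β) := by
  apply le_antisymm
  · have h1 : Ex E β ≤ G1im (G1inv A) (Ex (G1im A E) (A.g β)) := by
      refine sup_le ?_ ?_
      · intro f hf
        rw [G1_mem_im]
        show A.g f ∈ Ex (G1im A E) (A.g β)
        refine (le_sup_left : G1im A E ≤ Ex (G1im A E) (A.g β)) ?_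
        rw [G1_mem_im, RingEquiv.symm_apply_apply]
        exact hf
      · rw [IntermediateField.adjoin_le_iff, Set.singleton_subset_iff]
        show A.g β ∈ Ex (G1im A E) (A.g β)
        exact (le_sup_right : IntermediateField.adjoin C {A.g β} ≤ Ex (G1im A E) (A.g β))
          (IntermediateField.mem_adjoin_simple_self C (A.g β))
    intro f hf
    rw [G1_mem_im] at hf
    have h2 := h1 hf
    rw [G1_mem_im] at h2
    have h3 : A.g (A.g.symm f) ∈ Ex (G1im A E) (A.g β) := h2
    rw [RingEquiv.apply_symm_apply] at h3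
    exact h3
  · refine sup_le (G1_im_mono A le_sup_left) ?_
    rw [IntermediateField.adjoin_le_iff, Set.singleton_subset_iff]
    show A.g.symm (A.g β) ∈ Ex E β
    rw [RingEquiv.symm_apply_apply]
    exact (le_sup_right : IntermediateField.adjoin C {β} ≤ Ex E β)
      (IntermediateField.mem_adjoin_simple_self C β)

private theorem G1_im_tow (A : SA C M) (hA : Pre A B) (hE : Tow p Set.univ B E) :
    Tow p Set.univ B (G1im A E) := by
  induction hE with
  | base =>
    have h1 : G1im A B = B := by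
      ext f
      rw [G1_mem_im, ← hA (A.g.symm f), RingEquiv.apply_symm_apply]
    rw [h1]
    exact Tow.base
  | step E β hE hβP hβ hd ih =>
    rw [G1_im_Ex]
    refine Tow.step _ _ ih (Set.mem_univ _) ?_ ?_
    · rw [← map_pow, G1_mem_im, RingEquiv.symm_apply_apply]
      exact hβ
    · rw [← map_pow]
      exact G1_divE A hd

theorem NN.map (A : SA C M) (hA : Pre A B) {f : M} :
    A.g f ∈ NN p Set.univ B ↔ f ∈ NN p Set.univ B := by
  constructor
  · rintro ⟨E, hE, hf⟩
    have hA' : Pre (G1inv A) B := by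
      intro x
      show A.g.symm x ∈ B ↔ x ∈ B
      rw [← hA (A.g.symm x), RingEquiv.apply_symm_apply]
    exact ⟨_, G1_im_tow (G1inv A) hA' hE, hf⟩
  · rintro ⟨E, hE, hf⟩
    refine ⟨_, G1_im_tow A hA hE, ?_⟩
    rw [G1_mem_im, RingEquiv.symm_apply_apply]
    exact hf

end

section
variable {C M : Type*} [Field C] [IsAlgClosed C] [CharZero C] [Field M] [Algebra C M] {p : ℕ}
  {P : Set M} {B E E' : IntermediateField C M}

theorem Tow.ff (hp : p.Prime) (hB : FF B) (hE : Tow p P B E) : FF E := by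
  induction hE with
  | base => exact hB
  | step E β hE hP hβ hd ih => exact ff_step hp ih hβ

theorem Tow.val (hp : p.Prime) (hB : FF B) (hE : Tow p P B E) (hE' : Tow p P B E')
    (Q : ValuationSubring M) (hQ : ∀ a : C, algebraMap C M a ∈ Q) {c : M} (hc : c ∈ E ⊔ E')
    (hc0 : c ≠ 0) : ∃ a ∈ E, a ≠ 0 ∧ Q.valuation c = Q.valuation a := by
  induction hE' generalizing c with
  | base =>
    rw [sup_eq_left.2 hE.le] at hc
    exact ⟨c, hc, hc0, rfl⟩
  | step E1 β hE1 hP hβ hd ih =>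
    have h1 : E ⊔ Ex E1 β = Ex (E ⊔ E1) β :=
      (sup_assoc E E1 (IntermediateField.adjoin C {β})).symm
    rw [h1] at hc
    obtain ⟨a, ha, ha0, hv⟩ := val_step hp (Tow.ff hp hB (hE.sup hE1))
      ((le_sup_right : E1 ≤ E ⊔ E1) hβ) (hd.mono le_sup_right) Q hQ hc hc0
    obtain ⟨b, hb, hb0, hw⟩ := ih ha ha0
    exact ⟨b, hb, hb0, hv.trans hw⟩

theorem NN.div (hp : p.Prime) (hB : FF B) (hE : Tow p P B E) {m : ℕ} {g : M}
    (h : DivE m (NN p P B) g) : DivE m E g := by
  intro Q hQ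
  obtain ⟨c, ⟨E', hE', hc⟩, hc0, hv⟩ := h Q hQ
  obtain ⟨a, ha, ha0, hw⟩ := Tow.val hp hB hE hE' Q hQ ((le_sup_right : E' ≤ E ⊔ E') hc) hc0
  refine ⟨a, ha, ha0, ?_⟩
  rw [map_mul, map_inv₀, map_pow] at hv ⊢
  rw [← hw]
  exact hv

theorem NN.cl_univ (hp : p.Prime) (hB : FF B) : Cl p (NN p Set.univ B) := by
  rintro f ⟨E, hE, hf⟩ hd
  exact ⟨Ex E f, Tow.step E f hE (Set.mem_univ _) hf (NN.div hp hB hE hd),
    (le_sup_right : IntermediateField.adjoin C {f} ≤ Ex E f)
      (IntermediateField.mem_adjoin_simple_self C f)⟩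

omit [IsAlgClosed C] [CharZero C] in
/-- `N` contains a field which is closed under `p`-th roots as soon as it is itself closed -/
theorem NN.le_of_cl {N : IntermediateField C M} (hBN : B ≤ N) (hN : Cl p N) :
    NN p Set.univ B ≤ N := by
  rintro f ⟨E, hE, hf⟩
  have key : E ≤ N := by
    clear hf
    induction hE with
    | base => exact hBN
    | step E β hE hP hβ hd ih =>
      refine sup_le ih ?_
      rw [IntermediateField.adjoin_le_iff, Set.singleton_subset_iff]
      exact hN β (ih hβ) (hd.mono ih)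
  exact key hf

end

end Pool.Agent.Lib.MP_2f3286_ag.Pp
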