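import Pool.Agent.Lib.MP_2f3286_ag.Pp.F1
import Pool.Agent.Lib.MP_2f3286_ag.Pp.F3
import Pool.Agent.Lib.MP_2f3286_ag.Pp.F4
import Pool.Agent.Lib.MP_2f3286_ag.Pp.E8
import Pool.Agent.Lib.MP_2f3286_ag.Pp.G1

/-!
# Sections at the places which do not divide `p`   (module F5)

PROOF of `t3`. `exists_ctx` (F4): `W`, `δ`, `Φ`, `ω`, `l`, `e`, `ctx`, `hG : Gs kb W r`. `fer_ly` (E8): `x = (r + 1)⁻¹`, `Gs kb W x`, `Φ` fixes `x`, `Ly ... (adjoin kb {r, q})`. (`Algebra.IsAlgebraic ℚ kb`, `CharZero kb` as in `glt`.) By induction on the tower every `E` satisfies `Ly`: step: if `β ∈ E` then `Ex E β = E`; otherwise `ly_step` (F1)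
(`β ∈ Fx s` is fixed by `s δ`, `s Φ`, `s ω`). Then `gly` (F3), with `hst` for `σ = δ, Φ, ω`.
-/

open Polynomial IntermediateField IsDedekindDomain NumberField

namespace Pool.Agent.Lib.MP_2f3286_ag.Pp

open Pool.Agent.Lib.MP_2f3286_ag.Fer (PV)

theorem t3 {F kb K M : Type*} [Field F] [NumberField F] [Field kb] [Algebra F kb]
    [IsGalois F kb] [IsAlgClosed kb] [Field K] [Field M] [Algebra K M] [Algebra kb M]
    [Algebra.IsAlgebraic K M] (s : Gal(kb/F) →* Gal(M/K)) (hs : Continuous s)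
    (hsec : ∀ σ a, s σ (algebraMap kb M a) = algebraMap kb M (σ a)) {p : ℕ} (hp : p.Prime)
    (h2 : p ≠ 2) (hRad : Rad p kb M) {ζ : F} (hζ : IsPrimitiveRoot ζ p)
    (w : HeightOneSpectrum (𝓞 F)) (hpw : (p : 𝓞 F) ∉ w.asIdeal)
    {c : F} (hc0 : c ≠ 0) (hc : ¬ PV p w c) {γ : kb} (hγ : γ ^ p = algebraMap F kb c) {r q : M}
    (hr : Transcendental kb r)
    (halg : ∀ y : M, IsAlgebraic (IntermediateField.adjoin kb {r}) y)
    (hrq : r ^ p + 1 = q ^ p) (hrs : r ∈ Fx s) (hqs : q ∈ Fx s) :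
    ∃ δ : Gal(kb/F), δ γ ≠ γ ∧
      ∀ E, Tow p (Fx s) (IntermediateField.adjoin kb {r, q}) E →
        ∀ 𝒪 : ValuationSubring M, (∀ a : kb, algebraMap kb M a ∈ 𝒪) → (∃ f ∈ E, f ∉ 𝒪) →
          St s 𝒪 E → ∀ z : M, JE p E z → ∀ c : kb, c ≠ 0 →
            𝒪.valuation (z - algebraMap kb M c) < 1 →
            𝒪.valuation (s δ z - algebraMap kb M (δ c)) < 1 := by
  haveI : CharZero kb := charZero_of_injective_algebraMap (algebraMap F kb).injective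
  haveI : Algebra.IsAlgebraic ℚ kb := Algebra.IsAlgebraic.trans ℚ F kb
  obtain ⟨W, δ, Φ, ω, l, e, hδ, hG, ctx⟩ :=
    exists_ctx s hs hsec hp hζ w hpw hc0 hc hγ hr halg
  have hζ' : IsPrimitiveRoot (algebraMap F kb ζ) p :=
    hζ.map_of_injective (algebraMap F kb).injective
  have hfix : ∀ (σ : Gal(kb/F)) (β : M), β ∈ Fx s → (saOf s hsec σ).g β = β :=
    fun σ β hβ => hβ σ
  obtain ⟨hGx, hΦx, hLy⟩ := fer_ly ctx h2 hζ' hG hrq ⟨hfix δ r hrs, hfix δ q hqs⟩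
    ⟨hfix Φ r hrs, hfix Φ q hqs⟩ ⟨hfix ω r hrs, hfix ω q hqs⟩
  refine ⟨δ, hδ, fun E hE => ?_⟩
  have hLyE : Ly p W (saOf s hsec δ) (saOf s hsec Φ) (saOf s hsec ω) (r + 1)⁻¹ E := by
    induction hE with
    | base => exact hLy
    | step E β hE hP hβ hd ih =>
      by_cases hn : β ∈ E
      · have h1 : Ex E β = E := by
          refine sup_eq_left.2 ?_
          rw [IntermediateField.adjoin_le_iff, Set.singleton_subset_iff]
          exact hn
        rw [h1]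
        exact ih
      · exact ly_step ctx hRad hGx hΦx ih hβ hn hd (hfix δ β hP) (hfix Φ β hP) (hfix ω β hP)
  intro 𝒪 h𝒪 hne hst z hz c hc hzc
  exact gly ctx hRad hGx hΦx hLyE 𝒪 h𝒪 hne
    (fun f hf => ⟨hst δ f hf, hst Φ f hf, hst ω f hf⟩) hz hc hzc

end Pool.Agent.Lib.MP_2f3286_ag.Pp
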