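import Mathlib

/-!
# Commuting automorphisms modulo a subgroup   (module FIL)

PROOF of `fil`. `V = A ⧸ N` (`N.subgroupOf A`), written additively a vector space over the field with `p` elements; `η`, `τ` induce commuting additive endomorphisms `η`, `τ` of `V` with `η ^ p = 1`. In characteristic `p`: `(η - 1) ^ p = η ^ p - 1 = 0` (`sub_pow_char`-type lemma in the commutative ring generated by `η`; or
`Commute.sub_pow_prime...`, `add_pow_char_of_commute` in `Module.End (ZMod p) V`). We show by induction on `i`: if `(η - 1) ^ i v = 0` then `τ ^ (p ^ n) v = v` for some `n`. `i = 0`: `v = 0`. Let `(η - 1) ^ (i + 1) v = 0`, `w = (η - 1) ^ i v`, `η w = w`, so `τ ^ (p ^ n) w = w` by hypothesis (`w` is the class of an element of `A`),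
i.e. `(η - 1) ^ i v' = 0` for `v' = (τ ^ (p ^ n) - 1) v`. By induction `(τ ^ (p ^ m) - 1) v' = 0`. `τ ^ (p ^ n) - 1 = (τ - 1) ^ (p ^ n)` in characteristic `p`. So `(τ - 1) ^ (p ^ m + p ^ n) v = 0`, so `(τ - 1) ^ (p ^ N) v = 0` for `p ^ N ≥ p ^ m + p ^ n`, i.e. `τ ^ (p ^ N) v = v`.
PROOF of `tau_lift` (`a₁ = τ a / a`, `τ^[p ^ n] a₁ / a₁ ∈ N`): in `V`, `τ` induces an endomorphism with `(τ ^ (p ^ n) - 1) (τ - 1) v = 0` and `τ ^ (p ^ n) - 1 = (τ - 1) ^ (p ^ n)` in characteristic `p`; so `(τ - 1) ^ (p ^ (n + 1)) v = 0` as `p ^ (n + 1) ≥ p ^ n + 1`.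
-/

namespace Pool.Agent.Lib.MP_2f3286_ag.Pp

section
variable {V : Type*} [AddCommGroup V] {p : ℕ}

private theorem fil_frob (hp : p.Prime) (hpV : ∀ v : V, p • v = 0) (τ : AddMonoid.End V) (n : ℕ) :
    τ ^ p ^ n = (τ - 1) ^ p ^ n + 1 := by
  obtain ⟨r, hr⟩ := (Commute.one_right (τ - 1)).exists_add_pow_prime_pow_eq hp n
  rw [sub_add_cancel, one_pow] at hr
  have hp0 : ((p : ℕ) : AddMonoid.End V) = 0 := by
    ext v
    rw [AddMonoid.End.natCast_apply, hpV]
    rfl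
  rw [hr, hp0, zero_mul, zero_mul, zero_mul, add_zero]

private theorem fil_pow_zero {σ : AddMonoid.End V} {v : V} {a b : ℕ} (hab : a ≤ b)
    (h : (σ ^ a) v = 0) : (σ ^ b) v = 0 := by
  obtain ⟨c, rfl⟩ := Nat.exists_eq_add_of_le hab
  rw [add_comm, pow_add]
  show (σ ^ c) ((σ ^ a) v) = 0
  rw [h, map_zero]

private theorem fil_core (hp : p.Prime) (hpV : ∀ v : V, p • v = 0) (η τ : AddMonoid.End V)
    (hc : Commute η τ) (hηp : η ^ p = 1)
    (hfix : ∀ v, η v = v → ∃ n : ℕ, (τ ^ p ^ n) v = v) (v : V) : ∃ n : ℕ, (τ ^ p ^ n) v = v := by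
  have key : ∀ i : ℕ, ∀ v : V, ((η - 1) ^ i) v = 0 → ∃ n : ℕ, (τ ^ p ^ n) v = v := by
    intro i
    induction i with
    | zero =>
      intro v hv
      have hv' : v = 0 := hv
      exact ⟨0, by rw [hv', map_zero]⟩
    | succ i ih =>
      intro v hv
      obtain ⟨w, hw⟩ : ∃ w : V, w = ((η - 1) ^ i) v := ⟨_, rfl⟩
      have hw1 : η w = w := by
        have h1 : (η - 1) w = 0 := by
          rw [hw]
          rw [pow_succ'] at hv
          exact hv
        have h2 : η w - w = 0 := h1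
        exact sub_eq_zero.1 h2
      obtain ⟨n, hn⟩ := hfix w hw1
      have hcom : Commute ((η - 1) ^ i) (τ ^ p ^ n - 1) :=
        ((hc.sub_left (Commute.one_left τ)).pow_pow i (p ^ n)).sub_right (Commute.one_right _)
      have hv' : ((η - 1) ^ i) ((τ ^ p ^ n - 1) v) = 0 := by
        have h3 : ((η - 1) ^ i * (τ ^ p ^ n - 1)) v = ((τ ^ p ^ n - 1) * (η - 1) ^ i) v := by
          rw [hcom.eq]
        have h4 : ((τ ^ p ^ n - 1) * (η - 1) ^ i) v = (τ ^ p ^ n) w - w := by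
          rw [hw]
          rfl
        rw [hn, sub_self] at h4
        rw [h4] at h3
        exact h3
      obtain ⟨m, hm⟩ := ih _ hv'
      refine ⟨m + n + 1, ?_⟩
      have h5 : ((τ - 1) ^ (p ^ m + p ^ n)) v = 0 := by
        have e1 : (τ - 1) ^ p ^ m = τ ^ p ^ m - 1 := by rw [fil_frob hp hpV τ m, add_sub_cancel_right]
        have e2 : (τ - 1) ^ p ^ n = τ ^ p ^ n - 1 := by rw [fil_frob hp hpV τ n, add_sub_cancel_right]
        rw [pow_add, e1, e2]
        show (τ ^ p ^ m) ((τ ^ p ^ n - 1) v) - (τ ^ p ^ n - 1) v = 0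
        rw [hm, sub_self]
      have hle : p ^ m + p ^ n ≤ p ^ (m + n + 1) := by
        have h2 := hp.two_le
        have h6 : p ^ m ≤ p ^ (m + n) := Nat.pow_le_pow_right (by omega) (by omega)
        have h7 : p ^ n ≤ p ^ (m + n) := Nat.pow_le_pow_right (by omega) (by omega)
        calc p ^ m + p ^ n ≤ p ^ (m + n) * 2 := by omega
          _ ≤ p ^ (m + n) * p := Nat.mul_le_mul_left _ h2
          _ = p ^ (m + n + 1) := (pow_succ _ _).symm
      have h8 := fil_pow_zero hle h5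
      rw [fil_frob hp hpV τ]
      show ((τ - 1) ^ p ^ (m + n + 1)) v + v = v
      rw [h8, zero_add]
  apply key p v
  have e := fil_frob hp hpV η 1
  rw [pow_one, hηp] at e
  have e' : (η - 1) ^ p = 0 := by
    have := e.symm
    rwa [add_eq_right] at this
  rw [e']
  rfl

private theorem fil_core2 (hp : p.Prime) (hpV : ∀ v : V, p • v = 0) (τ : AddMonoid.End V) {v : V}
    {n : ℕ} (h : (τ ^ p ^ n) (τ v - v) = τ v - v) : (τ ^ p ^ (n + 1)) v = v := by
  have h5 : ((τ - 1) ^ (p ^ n + 1)) v = 0 := by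
    have e1 : (τ - 1) ^ p ^ n = τ ^ p ^ n - 1 := by rw [fil_frob hp hpV τ n, add_sub_cancel_right]
    rw [pow_succ, e1]
    show (τ ^ p ^ n) (τ v - v) - (τ v - v) = 0
    rw [h, sub_self]
  have hle : p ^ n + 1 ≤ p ^ (n + 1) := by
    have h2 := hp.two_le
    have h6 : 1 ≤ p ^ n := Nat.one_le_pow _ _ (by omega)
    calc p ^ n + 1 ≤ p ^ n * 2 := by omega
      _ ≤ p ^ n * p := Nat.mul_le_mul_left _ h2
      _ = p ^ (n + 1) := (pow_succ _ _).symm
  have h8 := fil_pow_zero hle h5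
  rw [fil_frob hp hpV τ]
  show ((τ - 1) ^ p ^ (n + 1)) v + v = v
  rw [h8, zero_add]

end

section
variable {G : Type*} [CommGroup G] (A N : Subgroup G) (η : G →* G) (hηA : ∀ a ∈ A, η a ∈ A)
  (hηN : ∀ a ∈ N, η a ∈ N)

private def resA : A →* A where
  toFun a := ⟨η a, hηA a a.2⟩
  map_one' := Subtype.ext (map_one η)
  map_mul' a b := Subtype.ext (map_mul η (a : G) (b : G))

private theorem resA_iter (n : ℕ) (a : A) : (((resA A η hηA)^[n] a : A) : G) = (η : G → G)^[n] (a : G) := by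
  induction n generalizing a with
  | zero => rfl
  | succ n ih =>
    rw [Function.iterate_succ_apply, Function.iterate_succ_apply, ih]
    rfl

private def indV : AddMonoid.End (Additive (A ⧸ N.subgroupOf A)) :=
  MonoidHom.toAdditive (QuotientGroup.map (N.subgroupOf A) (N.subgroupOf A) (resA A η hηA)
    (fun a ha => by
      rw [Subgroup.mem_comap]
      rw [Subgroup.mem_subgroupOf] at ha ⊢
      exact hηN _ ha))

private def toV (a : A) : Additive (A ⧸ N.subgroupOf A) := Additive.ofMul (QuotientGroup.mk a)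

private theorem toV_surj (v : Additive (A ⧸ N.subgroupOf A)) : ∃ a : A, toV A N a = v := by
  obtain ⟨a, ha⟩ := QuotientGroup.mk_surjective (Additive.toMul v)
  exact ⟨a, by unfold toV; rw [ha]; rfl⟩

private theorem toV_eq {a b : A} : toV A N a = toV A N b ↔ (a : G) / b ∈ N := by
  have h1 : toV A N a = toV A N b ↔ (QuotientGroup.mk a : A ⧸ N.subgroupOf A) = QuotientGroup.mk b :=
    Iff.rfl
  rw [h1, QuotientGroup.eq_iff_div_mem, Subgroup.mem_subgroupOf]
  rfl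

private theorem indV_iter (n : ℕ) (a : A) :
    (indV A N η hηA hηN ^ n) (toV A N a) = toV A N ((resA A η hηA)^[n] a) := by
  rw [AddMonoid.End.coe_pow]
  induction n generalizing a with
  | zero => rfl
  | succ n ih =>
    rw [Function.iterate_succ_apply, Function.iterate_succ_apply]
    exact ih _

private theorem fil_pV {p : ℕ} (hpN : ∀ a ∈ A, a ^ p ∈ N) (v : Additive (A ⧸ N.subgroupOf A)) :
    p • v = 0 := by
  obtain ⟨a, rfl⟩ := toV_surj A N v
  have h1 : p • toV A N a = toV A N (a ^ p) := rfl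
  have h2 : (0 : Additive (A ⧸ N.subgroupOf A)) = toV A N 1 := rfl
  rw [h1, h2, toV_eq]
  simpa using hpN a a.2

end

theorem fil {G : Type*} [CommGroup G] {p : ℕ} (hp : p.Prime) (A N : Subgroup G) (hNA : N ≤ A)
    (hpN : ∀ a ∈ A, a ^ p ∈ N) (η τ : G →* G) (hηA : ∀ a ∈ A, η a ∈ A) (hηN : ∀ a ∈ N, η a ∈ N)
    (hτA : ∀ a ∈ A, τ a ∈ A) (hτN : ∀ a ∈ N, τ a ∈ N) (hcomm : ∀ a ∈ A, η (τ a) = τ (η a))
    (hηp : ∀ a ∈ A, η^[p] a = a) (hfix : ∀ a ∈ A, η a / a ∈ N → ∃ n : ℕ, τ^[p ^ n] a / a ∈ N)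
    {a : G} (ha : a ∈ A) : ∃ n : ℕ, τ^[p ^ n] a / a ∈ N := by
  have hpV := fil_pV A N hpN
  have hc : Commute (indV A N η hηA hηN) (indV A N τ hτA hτN) := by
    refine DFunLike.ext _ _ fun v => ?_
    obtain ⟨b, rfl⟩ := toV_surj A N v
    show toV A N (resA A η hηA (resA A τ hτA b)) = toV A N (resA A τ hτA (resA A η hηA b))
    congr 1
    exact Subtype.ext (hcomm b b.2)
  have hηp' : indV A N η hηA hηN ^ p = 1 := by
    refine DFunLike.ext _ _ fun v => ?_
    obtain ⟨b, rfl⟩ := toV_surj A N v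
    rw [indV_iter]
    show toV A N _ = toV A N b
    congr 1
    apply Subtype.ext
    rw [resA_iter]
    exact hηp b b.2
  obtain ⟨n, hn⟩ := fil_core hp hpV _ _ hc hηp' (by
    intro v hv
    obtain ⟨b, rfl⟩ := toV_surj A N v
    have h1 : toV A N (resA A η hηA b) = toV A N b := hv
    rw [toV_eq] at h1
    obtain ⟨n, hn⟩ := hfix b b.2 h1
    refine ⟨n, ?_⟩
    rw [indV_iter, toV_eq, resA_iter]
    exact hn) (toV A N ⟨a, ha⟩)
  refine ⟨n, ?_⟩
  rw [indV_iter, toV_eq, resA_iter] at hn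
  exact hn

theorem tau_lift {G : Type*} [CommGroup G] {p : ℕ} (hp : p.Prime) (A N : Subgroup G)
    (hNA : N ≤ A) (hpN : ∀ a ∈ A, a ^ p ∈ N) (τ : G →* G) (hτA : ∀ a ∈ A, τ a ∈ A)
    (hτN : ∀ a ∈ N, τ a ∈ N) {a : G} (ha : a ∈ A) {n : ℕ}
    (h : τ^[p ^ n] (τ a / a) / (τ a / a) ∈ N) : τ^[p ^ (n + 1)] a / a ∈ N := by
  have hpV := fil_pV A N hpN
  have h1 : (indV A N τ hτA hτN ^ p ^ n) (indV A N τ hτA hτN (toV A N ⟨a, ha⟩) - toV A N ⟨a, ha⟩) =
      indV A N τ hτA hτN (toV A N ⟨a, ha⟩) - toV A N ⟨a, ha⟩ := by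
    have e1 : indV A N τ hτA hτN (toV A N ⟨a, ha⟩) - toV A N ⟨a, ha⟩ =
        toV A N (resA A τ hτA ⟨a, ha⟩ / ⟨a, ha⟩) := rfl
    rw [e1, indV_iter, toV_eq, resA_iter]
    exact h
  have h2 := fil_core2 hp hpV _ h1
  rw [indV_iter, toV_eq, resA_iter] at h2
  exact h2

end Pool.Agent.Lib.MP_2f3286_ag.Pp
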