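import Mathlib

/-!
# Fixed vectors modulo a subgroup   (module FXV)

PROOF of `fxv`. Let `a ∈ A`, `V = A ⧸ N` (`N.subgroupOf A`), `v` the class of `a`. The subgroup `W` of `V` generated by the classes of the (finitely many, `horb`) elements `ρ g a` is finite (finitely generated, of exponent `p`), stable under all `ρ g`. Let `G'` be the image of `Γ` in the (finite) group of the automorphisms of `W`. Every
`g' ∈ G'` has an order which is a power of `p`: the classes of the finitely many generators are fixed by `g' ^ (p ^ n)` for large `n` (`hpow` for `ρ g a`, and if it is fixed by `g' ^ (p ^ n)` then by `g' ^ (p ^ m)`, `m ≥ n`). So `G'` is a `p`-group (`IsPGroup`). If `v ≠ 0` then `W` has order divisible by `p`, and the fixed point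
`0` of `G'` on `W` is not the only one (`IsPGroup.exists_fixed_point_of_prime_dvd_card_of_fixed_point`): a fixed `w ≠ 0`, the class of `b ∈ A`, `ρ g b / b ∈ N` for all `g`, so `b ∈ N` by `hfix`, `w = 0`. Contradiction.
-/

namespace Pool.Agent.Lib.MP_2f3286_ag.Pp

theorem fxv {G Γ : Type*} [CommGroup G] [Group Γ] {p : ℕ} (hp : p.Prime) (A N : Subgroup G)
    (hNA : N ≤ A) (hpN : ∀ a ∈ A, a ^ p ∈ N) (ρ : Γ →* MulAut G) (hA : ∀ g, ∀ a ∈ A, ρ g a ∈ A)
    (hN : ∀ g, ∀ a ∈ N, ρ g a ∈ N) (horb : ∀ a ∈ A, {b | ∃ g, ρ g a = b}.Finite)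
    (hpow : ∀ g, ∀ a ∈ A, ∃ n : ℕ, (ρ g)^[p ^ n] a / a ∈ N)
    (hfix : ∀ a ∈ A, (∀ g, ρ g a / a ∈ N) → a ∈ N) {a : G} (ha : a ∈ A) : a ∈ N := by
  classical
  haveI : Fact p.Prime := ⟨hp⟩
  by_contra haN
  -- the action on `V = G ⧸ N`
  let act : Γ → (G ⧸ N) →* (G ⧸ N) := fun g =>
    QuotientGroup.map N N (ρ g).toMonoidHom (fun b hb => hN g b hb)
  have hact : ∀ g (b : G), act g (b : G ⧸ N) = ((ρ g b : G) : G ⧸ N) := fun g b => rfl
  letI : MulAction Γ (G ⧸ N) :=
    { smul := fun g v => act g v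
      one_smul := fun v => by
        induction v using QuotientGroup.induction_on with
        | H b =>
          show act 1 (b : G ⧸ N) = (b : G ⧸ N)
          rw [hact, map_one]
          rfl
      mul_smul := fun g h v => by
        induction v using QuotientGroup.induction_on with
        | H b =>
          show act (g * h) (b : G ⧸ N) = act g (act h (b : G ⧸ N))
          rw [hact, hact, hact, map_mul]
          rfl }
  have hsm : ∀ (g : Γ) (b : G), g • (b : G ⧸ N) = ((ρ g b : G) : G ⧸ N) := fun g b => hact g b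
  have hsmul : ∀ (g : Γ) (v w : G ⧸ N), g • (v * w) = g • v * g • w := fun g v w =>
    (act g).map_mul v w
  -- the finite subgroup `W`
  let S : Set (G ⧸ N) := (fun b : G => (b : G ⧸ N)) '' {b | ∃ g, ρ g a = b}
  have hSf : S.Finite := (horb a ha).image _
  let W : Subgroup (G ⧸ N) := Subgroup.closure S
  have hWA : ∀ w ∈ W, ∃ b ∈ A, (b : G ⧸ N) = w := by
    have h1 : W ≤ A.map (QuotientGroup.mk' N) := by
      rw [Subgroup.closure_le]
      rintro _ ⟨b, ⟨g, rfl⟩, rfl⟩
      exact ⟨ρ g a, hA g a ha, rfl⟩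
    intro w hw
    obtain ⟨b, hb, h⟩ := h1 hw
    exact ⟨b, hb, h⟩
  have hWp : ∀ w ∈ W, w ^ p = 1 := by
    intro w hw
    obtain ⟨b, hb, rfl⟩ := hWA w hw
    rw [← QuotientGroup.mk_pow]
    exact (QuotientGroup.eq_one_iff _).2 (hpN b hb)
  haveI hWfg : Group.FG W := by
    rw [Group.fg_iff_subgroup_fg]
    exact ⟨hSf.toFinset, by rw [Set.Finite.coe_toFinset]⟩
  haveI hWfin : Finite W := by
    refine CommGroup.finite_of_fg_torsion W ?_
    intro w
    rw [isOfFinOrder_iff_pow_eq_one]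
    refine ⟨p, hp.pos, ?_⟩
    ext
    exact hWp w.1 w.2
  have hWst : ∀ (g : Γ) (w : G ⧸ N), w ∈ W → g • w ∈ W := by
    intro g
    have h1 : W ≤ W.comap (act g) := by
      rw [Subgroup.closure_le]
      rintro _ ⟨b, ⟨h, rfl⟩, rfl⟩
      show act g _ ∈ W
      rw [hact]
      refine Subgroup.subset_closure ⟨ρ g (ρ h a), ⟨g * h, ?_⟩, rfl⟩
      rw [map_mul]
      rfl
    intro w hw
    exact h1 hw
  -- the action on `W`
  let WS : SubMulAction Γ (G ⧸ N) := ⟨(W : Set (G ⧸ N)), fun g {w} hw => hWst g w hw⟩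
  haveI : Finite WS := hWfin
  let Φ : Γ →* Equiv.Perm WS := MulAction.toPermHom Γ WS
  have hpg : IsPGroup p Φ.range := by
    rintro ⟨_, g, rfl⟩
    have h1 : ∀ w : WS, ∃ n : ℕ, g ^ p ^ n • w = w := by
      rintro ⟨w, hw⟩
      obtain ⟨b, hb, hbw⟩ := hWA w hw
      obtain ⟨n, hn⟩ := hpow g b hb
      refine ⟨n, Subtype.ext ?_⟩
      show g ^ p ^ n • w = w
      rw [← hbw, hsm, map_pow]
      have h2 : ∀ k : ℕ, ((ρ g) ^ k) b = (ρ g)^[k] b := by
        intro k
        induction k with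
        | zero => rfl
        | succ k ih =>
          rw [pow_succ', Function.iterate_succ_apply', ← ih]
          rfl
      rw [h2]
      rw [QuotientGroup.eq, ← inv_mem_iff]
      rw [div_eq_mul_inv] at hn
      have h3 : (((ρ g)^[p ^ n] b)⁻¹ * b)⁻¹ = (ρ g)^[p ^ n] b * b⁻¹ := by
        rw [mul_inv_rev, inv_inv, mul_comm]
      rw [h3]
      exact hn
    choose n hn using h1
    haveI : Fintype WS := Fintype.ofFinite _
    refine ⟨Finset.univ.sup n, ?_⟩
    apply Subtype.ext
    show Φ g ^ p ^ (Finset.univ.sup n) = 1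
    rw [← map_pow]
    ext1 w
    show g ^ p ^ (Finset.univ.sup n) • w = w
    obtain ⟨k, hk⟩ := Nat.exists_eq_add_of_le (Finset.le_sup (f := n) (Finset.mem_univ w))
    rw [hk, pow_add, pow_mul]
    have h4 : ∀ j : ℕ, (g ^ p ^ n w) ^ j • w = w := by
      intro j
      induction j with
      | zero => rw [pow_zero, one_smul]
      | succ j ih => rw [pow_succ, mul_smul, hn, ih]
    exact h4 _
  have hav : ((a : G) : G ⧸ N) ∈ W :=
    Subgroup.subset_closure ⟨a, ⟨1, by rw [map_one]; rfl⟩, rfl⟩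
  have hcard : p ∣ Nat.card WS := by
    have h1 : orderOf (⟨(a : G ⧸ N), hav⟩ : W) = p := by
      refine orderOf_eq_prime (Subtype.ext (hWp _ hav)) ?_
      intro h
      have h2 : (a : G ⧸ N) = 1 := congrArg Subtype.val h
      exact haN ((QuotientGroup.eq_one_iff a).1 h2)
    have h2 := orderOf_dvd_natCard (⟨(a : G ⧸ N), hav⟩ : W)
    rw [h1] at h2
    exact h2
  have h1f : (⟨1, W.one_mem⟩ : WS) ∈ MulAction.fixedPoints Φ.range WS := by
    rintro ⟨_, g, rfl⟩
    apply Subtype.ext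
    show act g 1 = 1
    exact map_one _
  obtain ⟨⟨w, hw⟩, hwf, hne⟩ :=
    hpg.exists_fixed_point_of_prime_dvd_card_of_fixed_point WS hcard h1f
  obtain ⟨b, hb, hbw⟩ := hWA w hw
  have hbN : b ∈ N := by
    refine hfix b hb fun g => ?_
    have h3 := hwf ⟨Φ g, g, rfl⟩
    have h4 : g • w = w := congrArg Subtype.val h3
    rw [← hbw, hsm, QuotientGroup.eq, ← inv_mem_iff] at h4
    have h5 : ((ρ g b)⁻¹ * b)⁻¹ = ρ g b / b := by
      rw [mul_inv_rev, inv_inv, mul_comm, div_eq_mul_inv]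
    rwa [h5] at h4
  apply hne
  apply Subtype.ext
  show 1 = w
  rw [← hbw]
  exact ((QuotientGroup.eq_one_iff b).2 hbN).symm

end Pool.Agent.Lib.MP_2f3286_ag.Pp
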