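import Pool.Agent.Lib.MP_2f3286_ag.Pp.Defs
import Pool.Agent.Lib.MP_2f3286_ag.Gl.HX
import Pool.Agent.Lib.MP_2f3286_ag.Gl.SA
import Pool.Agent.Lib.MP_2f3286_ag.Top.FF

/-!
# The first field: transcendence
-/

open Polynomial IntermediateField

namespace Pool.Agent.Lib.MP_2f3286_ag.Pp

theorem alg_of_trdeg {k kb M : Type*} [Field k] [Field kb] [Algebra k kb]
    [Algebra.IsAlgebraic k kb] [Field M] [Algebra kb M] [Algebra k M] [IsScalarTower k kb M]
    (htr : Algebra.trdeg k M = 1) {r : M} (hr : Transcendental kb r) (y : M) :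
    IsAlgebraic (IntermediateField.adjoin kb {r}) y := by
  have h1 := lift_trdeg_add_eq k kb M
  rw [htr, trdeg_eq_zero (R := k) (A := kb)] at h1
  have h2 : Algebra.trdeg kb M = 1 := by
    simp only [Cardinal.lift_one, Cardinal.lift_zero, zero_add] at h1
    exact Cardinal.lift_eq_one.mp h1
  exact Top.isAlgebraic_of_trdeg h2 hr y

theorem ff_rq {p : ℕ} (hp : p.Prime) (h2 : p ≠ 2) {C M : Type*} [Field C] [Field M] [Algebra C M]
    {ζ : C} (hζ : IsPrimitiveRoot ζ p) {r q : M} (hr : Transcendental C r)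
    (hrq : r ^ p + 1 = q ^ p) : FF (IntermediateField.adjoin C {r, q}) := by
  have hr' : r ∈ IntermediateField.adjoin C {r, q} :=
    IntermediateField.subset_adjoin _ _ (Set.mem_insert _ _)
  have hq' : q ∈ IntermediateField.adjoin C {r, q} :=
    IntermediateField.subset_adjoin _ _ (Set.mem_insert_of_mem _ (Set.mem_singleton _))
  have htr : Transcendental C (⟨r, hr'⟩ : IntermediateField.adjoin C {r, q}) := by
    intro h
    apply hr
    exact (isAlgebraic_algebraMap_iff
      (algebraMap (IntermediateField.adjoin C {r, q}) M).injective).2 h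
  have gen : IntermediateField.adjoin C {(⟨r, hr'⟩ : IntermediateField.adjoin C {r, q}),
      ⟨q, hq'⟩} = ⊤ := by
    apply IntermediateField.lift_injective
    rw [IntermediateField.lift_adjoin, IntermediateField.lift_top, Set.image_insert_eq,
      Set.image_singleton]
  have H := Gl.hx_sup hp h2 hζ hp.pos htr (Subtype.ext hrq) gen
  exact ⟨_, H.tr, H.finDim hp⟩

end Pool.Agent.Lib.MP_2f3286_ag.Pp
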