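import Pool.Agent.Lib.MP_2f3286_ag.Gl.FullK

/-!
# The functions `x`, `y` with `x ^ p = A`, `y ^ p = 1 - A`   (module K1)
-/

open IsDedekindDomain NumberField
open scoped WithZero
open Pool.Agent.Lib.MP_2f3286_bir (IsPlaceOf)

namespace Pool.Agent.Lib.MP_2f3286_ag.Pp

open Pool.Agent.Lib.MP_2f3286_ag.Fer
open Pool.Agent.Lib.MP_2f3286_ag.Gl
open Pool.Agent.Lib.MP_2f3286_ag.Fer.Tp (k_pow_F z0_place exists_plc)
open Pool.Agent.Lib.MP_2f3286_ag.Pt (DivAt)

theorem exists_xy {p : ℕ} {F : Type*} [Field F] [NumberField F] (X : Stp p F)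
    {k : Type*} [Field k] [NumberField k] [Algebra k F] (hm : ¬ p ∣ Module.finrank k F)
    {K : Type*} [Field K] [Algebra k K]
    {M : Type*} [Field M] [Algebra K M] [Algebra.IsAlgebraic K M]
    [Algebra (AlgebraicClosure k) M] [Algebra k M]
    [IsScalarTower k K M] [IsScalarTower k (AlgebraicClosure k) M]
    [Algebra F (AlgebraicClosure k)] [IsScalarTower k F (AlgebraicClosure k)]
    (𝒱 : Set (ValuationSubring M))
    (h𝒱 : ∀ V ∈ 𝒱, ∀ a : AlgebraicClosure k, algebraMap (AlgebraicClosure k) M a ∈ V)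
    (hrad : ∀ ρ : M, ρ ≠ 0 → (∀ V ∈ 𝒱, DivAt p ρ V) → ∃ β : M, β ^ p = ρ)
    (s : Gal(AlgebraicClosure k/k) →* Gal(M/K)) (hs : Continuous s)
    (hsec : ∀ σ a, s σ (algebraMap (AlgebraicClosure k) M a) =
      algebraMap (AlgebraicClosure k) M (σ a))
    (v : HeightOneSpectrum (𝓞 k)) (hv : (p : 𝓞 k) ∈ v.asIdeal)
    (ι : AlgebraicClosure k →ₐ[k] AlgebraicClosure (v.adicCompletion k))
    (A' : ValuationSubring M)
    (φ : A' →+* AlgebraicClosure (v.adicCompletion k))
    (hφ : IsPlaceOf s (v.adicCompletion k)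
      (ι : _ →+* AlgebraicClosure (v.adicCompletion k)) A' φ)
    (A : K) (hA : ∀ c : k, A ≠ algebraMap k K c)
    (h : (∃ x y : K, x ^ p = A ∧ y ^ p = 1 - A) ∨
      ((∀ u : (𝓞 k)ˣ, ∃ v : (𝓞 k)ˣ, v ^ p = u) ∧ ∃ (a b : ℤ) (B : K), ¬ (p : ℤ) ∣ a ∧
        ¬ (p : ℤ) ∣ b ∧ ¬ (p : ℤ) ∣ a + b ∧ A ^ a * (1 - A) ^ b = B ^ p)) :
    ∃ x y : M, (∀ σ, s σ x = x) ∧ (∀ σ, s σ y = y) ∧ x ^ p = algebraMap K M A ∧
      y ^ p = algebraMap K M (1 - A) := by
  classical
  have hp := X.hp
  have hp0 : p ≠ 0 := hp.ne_zero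
  have hodd : Odd p := hp.odd_of_ne_two X.h2
  have hfin : FiniteDimensional k F := FiniteDimensional.right ℚ k F
  have hkF : Algebra.IsAlgebraic k F := inferInstance
  have hFk : Algebra.IsAlgebraic F (AlgebraicClosure k) :=
    Algebra.IsAlgebraic.tower_top (K := k) F
  have : IsAlgClosure F (AlgebraicClosure k) := ⟨inferInstance, inferInstance⟩
  let e : AlgebraicClosure F ≃ₐ[F] AlgebraicClosure k :=
    IsAlgClosure.equiv F (AlgebraicClosure F) (AlgebraicClosure k)
  letI iFb : Algebra (AlgebraicClosure F) M :=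
    ((algebraMap (AlgebraicClosure k) M).comp (e : _ →+* AlgebraicClosure k)).toAlgebra
  letI iFM : Algebra F M :=
    ((algebraMap (AlgebraicClosure k) M).comp (algebraMap F (AlgebraicClosure k))).toAlgebra
  have t0 : IsScalarTower F (AlgebraicClosure k) M := IsScalarTower.of_algebraMap_eq fun _ => rfl
  have he : ∀ a : AlgebraicClosure F, algebraMap (AlgebraicClosure F) M a =
      algebraMap (AlgebraicClosure k) M (e a) := fun _ => rfl
  have t1 : IsScalarTower F (AlgebraicClosure F) M := IsScalarTower.of_algebraMap_eq fun a => by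
    rw [he, AlgEquiv.commutes, ← IsScalarTower.algebraMap_apply]
  have t3 : IsScalarTower k F M := IsScalarTower.of_algebraMap_eq fun a => by
    rw [IsScalarTower.algebraMap_apply F (AlgebraicClosure k) M,
      ← IsScalarTower.algebraMap_apply k F (AlgebraicClosure k),
      ← IsScalarTower.algebraMap_apply k (AlgebraicClosure k) M]
  letI iFL : Algebra F (Koe.fixF s F) := (Koe.toFixF s F hsec).toAlgebra
  have t2 : IsScalarTower F (Koe.fixF s F) M := IsScalarTower.of_algebraMap_eq fun a => by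
    rw [IsScalarTower.algebraMap_apply F (AlgebraicClosure k) M]
    rfl
  have hLM : Algebra.IsAlgebraic (Koe.fixF s F) M :=
    Algebra.IsAlgebraic.tower_top (K := K) (Koe.fixF s F)
  have hL : ∀ σ : Gal(AlgebraicClosure k/k),
      (∀ a : F, σ (algebraMap F _ a) = algebraMap F _ a) →
      ∀ x : Koe.fixF s F, s σ (algebraMap (Koe.fixF s F) M x) = algebraMap (Koe.fixF s F) M x :=
    fun σ hσ x => x.2 σ hσ
  have hs' := Koe.resS_continuous s e hL hs
  have hsec' : ∀ (σ : Gal(AlgebraicClosure F/F)) (a : AlgebraicClosure F),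
      Koe.resS s e hL σ (algebraMap (AlgebraicClosure F) M a) =
        algebraMap (AlgebraicClosure F) M (σ a) := by
    intro σ a
    rw [Koe.resS_apply, he, hsec, Koe.resG_apply, e.symm_apply_apply, he]
  have h𝒱' : ∀ V ∈ 𝒱, ∀ a : AlgebraicClosure F, algebraMap (AlgebraicClosure F) M a ∈ V :=
    fun V hV a => h𝒱 V hV _
  -- the place over the cyclotomic field
  have hgal : IsGalois k (AlgebraicClosure k) := IsAlgClosure.isGalois k _
  have hgalF : IsGalois F (AlgebraicClosure F) := IsAlgClosure.isGalois F _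
  obtain ⟨w, hwv⟩ := exists_prime_over (E := F) v
  have hwP : w = X.P := by
    by_contra hne
    apply X.away w hne
    have h1 := (Ideal.mem_of_liesOver w.asIdeal v.asIdeal ((p : 𝓞 k))).1 hv
    rwa [map_natCast] at h1
  subst hwP
  obtain ⟨ι', B', φ', hB', j₀, -, hj₀⟩ := exists_local_val s hsec e he hL v X.P _ _ _ hφ
  -- the functions `x` and `y`
  have hsA : ∀ σ, s σ (algebraMap K M A) = algebraMap K M A := fun σ => (s σ).commutes A
  have hA1 : ∀ c : k, 1 - A ≠ algebraMap k K c := by
    intro c hc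
    apply hA (1 - c)
    rw [map_sub, map_one, ← hc, sub_sub_cancel]
  have hAM : algebraMap K M A ≠ 0 :=
    (_root_.map_ne_zero _).2 fun h0 => hA 0 (by rw [h0, map_zero])
  have hAM' : algebraMap K M (1 - A) ≠ 0 :=
    (_root_.map_ne_zero _).2 fun h0 => hA1 0 (by rw [h0, map_zero])
  rcases h with ⟨x, y, hx, hy⟩ | ⟨hu, a, b, B, ha, hb, hab, hB⟩
  · exact ⟨algebraMap K M x, algebraMap K M y, fun σ => (s σ).commutes x,
      fun σ => (s σ).commutes y, by rw [← map_pow, hx], by rw [← map_pow, hy]⟩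
  · have h1A : algebraMap K M (1 - A) = 1 - algebraMap K M A := by rw [map_sub, map_one]
    have hBM : (algebraMap K M A) ^ a * (1 - algebraMap K M A) ^ b = (algebraMap K M B) ^ p := by
      rw [← map_one (algebraMap K M), ← map_sub, ← map_zpow₀, ← map_zpow₀, ← map_mul, hB,
        map_pow]
    have hdv := fun V : ValuationSubring M =>
      divAt_int hp V hAM (by rw [← h1A]; exact hAM') ha hb hab hBM
    obtain ⟨β, hβ⟩ := hrad _ hAM fun V _ => (hdv V).1
    obtain ⟨β', hβ'⟩ := hrad _ hAM' fun V _ => by rw [h1A]; exact (hdv V).2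
    obtain ⟨c, hc, x, hx, hx0, hxA⟩ := kum_root s hs hsec hsA hAM
      (Nat.one_le_iff_ne_zero.2 hp0) hβ
    obtain ⟨c', hc', y, hy, hy0, hyA⟩ := kum_root s hs hsec (fun σ => (s σ).commutes (1 - A))
      hAM' (Nat.one_le_iff_ne_zero.2 hp0) hβ'
    have hcF : algebraMap k F c ≠ 0 := (_root_.map_ne_zero _).2 hc
    have hcF' : algebraMap k F c' ≠ 0 := (_root_.map_ne_zero _).2 hc'
    have hkFM : ∀ c : k, algebraMap (AlgebraicClosure F) M
        (algebraMap F (AlgebraicClosure F) (algebraMap k F c)) =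
        algebraMap (AlgebraicClosure k) M (algebraMap k (AlgebraicClosure k) c) := by
      intro c
      rw [← IsScalarTower.algebraMap_apply F (AlgebraicClosure F) M,
        ← IsScalarTower.algebraMap_apply k F M,
        ← IsScalarTower.algebraMap_apply k (AlgebraicClosure k) M]
    have hAt : Transcendental (AlgebraicClosure F) (algebraMap K M A) := by
      refine const_of_fixed (Koe.resS s e hL) hsec' (fun σ => hsA _) fun d hd => ?_
      exact not_const_M s hsec hA _ (hd.trans (he _))
    -- away from `p`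
    have haway : ∀ w : HeightOneSpectrum (𝓞 F), w ≠ X.P →
        PV p w (algebraMap k F c) ∧ PV p w (algebraMap k F c') := by
      intro w hw
      refine pv_zero3 (Koe.resS s e hL) hs' hsec' hp X.h2 𝒱 h𝒱' hrad X.hζ w (X.away w hw)
        (A := algebraMap K M A) (B := algebraMap K M B) (x₀ := x) (y₀ := y) hAt
        (fun σ => hsA _) (fun σ => (s _).commutes B) (fun σ => hx _) (fun σ => hy _)
        hcF hcF' ?_ ?_ ha hb hab hBM
      · rw [hkFM]
        exact hxA
      · rw [hkFM, ← h1A]
        exact hyA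
    -- the prime above `p`
    have hPl : PV p X.P (algebraMap k F c) ∧ PV p X.P (algebraMap k F c') := by
      obtain ⟨Q, hQb, -⟩ := exists_plc (Koe.resS s e hL) (L := Koe.fixF s F)
        (fun x σ => (Koe.resS s e hL σ).commutes x) ι' B' φ' hB'
      let xL : Koe.fixF s F := ⟨x, fun σ _ => hx σ⟩
      let yL : Koe.fixF s F := ⟨y, fun σ _ => hy σ⟩
      refine z0_place hp X.P Q hQb (A := algebraMap K (Koe.fixF s F) A)
        (B := algebraMap K (Koe.fixF s F) B) (x := xL) (y := yL) ?_ ?_ hcF hcF' ?_ ?_ ha hb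
        hab ?_
      · intro h0
        exact hAM (congrArg (algebraMap (Koe.fixF s F) M) h0 |>.trans (map_zero _))
      · intro h0
        apply hAM'
        have h4 := congrArg (algebraMap (Koe.fixF s F) M) h0
        rw [map_sub, map_one, map_zero] at h4
        rw [h1A]
        exact h4
      · apply (algebraMap (Koe.fixF s F) M).injective
        rw [map_mul, map_pow, ← IsScalarTower.algebraMap_apply F (Koe.fixF s F) M,
          ← IsScalarTower.algebraMap_apply k F M,
          IsScalarTower.algebraMap_apply k (AlgebraicClosure k) M]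
        exact hxA
      · apply (algebraMap (Koe.fixF s F) M).injective
        rw [map_mul, map_pow, ← IsScalarTower.algebraMap_apply F (Koe.fixF s F) M,
          ← IsScalarTower.algebraMap_apply k F M,
          IsScalarTower.algebraMap_apply k (AlgebraicClosure k) M, map_sub, map_one]
        change 1 - algebraMap K M A = _
        rw [← h1A]
        exact hyA
      · rw [← map_one (algebraMap K (Koe.fixF s F)), ← map_sub, ← map_zpow₀, ← map_zpow₀,
          ← map_mul, hB, map_pow]
    have hall : ∀ w : HeightOneSpectrum (𝓞 F),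
        PV p w (algebraMap k F c) ∧ PV p w (algebraMap k F c') := by
      intro w
      by_cases hw : w = X.P
      · rw [hw]
        exact hPl
      · exact haway w hw
    obtain ⟨d, hd⟩ := k_pow_F hp X.cls hm hu hc fun w => (hall w).1
    obtain ⟨d', hd'⟩ := k_pow_F hp X.cls hm hu hc' fun w => (hall w).2
    refine ⟨algebraMap (AlgebraicClosure k) M (algebraMap k (AlgebraicClosure k) d) * x,
      algebraMap (AlgebraicClosure k) M (algebraMap k (AlgebraicClosure k) d') * y,
      fun σ => ?_, fun σ => ?_, ?_, ?_⟩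
    · rw [map_mul, hsec, AlgEquiv.commutes, hx]
    · rw [map_mul, hsec, AlgEquiv.commutes, hy]
    · rw [mul_pow, ← map_pow, ← map_pow, hd, ← hxA]
    · rw [mul_pow, ← map_pow, ← map_pow, hd', ← hyA]

end Pool.Agent.Lib.MP_2f3286_ag.Pp
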