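import Pool.Agent.Lib.MP_2f3286_ag.Pp.G11
import Pool.Agent.Lib.MP_2f3286_ag.Pp.K1
import Pool.Agent.Lib.MP_2f3286_ag.Pp.DV
import Pool.Agent.Lib.MP_2f3286_ag.Pp.Fin0
import Pool.Agent.Lib.MP_2f3286_ag.Gl.FullM

/-!
# The geometrically pro-`p` section is the section of a rational point
-/

open IsDedekindDomain NumberField
open scoped WithZero
open Pool.Agent.Lib.MP_2f3286_bir (IsPlaceOf)

namespace Pool.Agent.Lib.MP_2f3286_ag.Pp

open Pool.Agent.Lib.MP_2f3286_ag.Fer
open Pool.Agent.Lib.MP_2f3286_ag.Pt (DivAt)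

/-- Two pairs of generators. -/
theorem adj_eq {C M : Type*} [Field C] [Field M] [Algebra C M] {r q x y : M}
    (hr : r ∈ IntermediateField.adjoin C {x, y}) (hq : q ∈ IntermediateField.adjoin C {x, y})
    (hx : x ∈ IntermediateField.adjoin C {r, q}) (hy : y ∈ IntermediateField.adjoin C {r, q}) :
    IntermediateField.adjoin C {r, q} = IntermediateField.adjoin C {x, y} := by
  apply le_antisymm
  · rw [IntermediateField.adjoin_le_iff]
    rintro z (rfl | rfl)
    · exact hr
    · exact hq
  · rw [IntermediateField.adjoin_le_iff]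
    rintro z (rfl | rfl)
    · exact hx
    · exact hy

/-- **The pro-`p` section of a section with a place over the completion at the prime above `p`.** -/
theorem fermat_pp {p : ℕ} (hp : p.Prime) (h2 : p ≠ 2)
    (hh : ¬ p ∣ classNumber (CyclotomicField p ℚ))
    {k : Type*} [Field k] [NumberField k] [Algebra k (CyclotomicField p ℚ)]
    {K : Type*} [Field K] [Algebra k K] (htr : Algebra.trdeg k K = 1)
    {M : Type*} [Field M] [Algebra K M] [Algebra.IsAlgebraic K M]
    [Algebra (AlgebraicClosure k) M] [Algebra k M]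
    [IsScalarTower k K M] [IsScalarTower k (AlgebraicClosure k) M]
    (hRad : Rad p (AlgebraicClosure k) M)
    (A : K) (hA : ∀ c : k, A ≠ algebraMap k K c)
    (h : (∃ x y : K, x ^ p = A ∧ y ^ p = 1 - A) ∨
      ((∀ u : (𝓞 k)ˣ, ∃ v : (𝓞 k)ˣ, v ^ p = u) ∧ ∃ (a b : ℤ) (B : K), ¬ (p : ℤ) ∣ a ∧
        ¬ (p : ℤ) ∣ b ∧ ¬ (p : ℤ) ∣ a + b ∧ A ^ a * (1 - A) ^ b = B ^ p))
    (s : Gal(AlgebraicClosure k/k) →* Gal(M/K)) (hs : Continuous s)
    (hsec : ∀ σ a, s σ (algebraMap (AlgebraicClosure k) M a) =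
      algebraMap (AlgebraicClosure k) M (σ a))
    (v : HeightOneSpectrum (𝓞 k)) (hv : (p : 𝓞 k) ∈ v.asIdeal)
    (ι : AlgebraicClosure k →ₐ[k] AlgebraicClosure (v.adicCompletion k))
    (A' : ValuationSubring M) (φ : A' →+* AlgebraicClosure (v.adicCompletion k))
    (hφ : IsPlaceOf s (v.adicCompletion k)
      (ι : _ →+* AlgebraicClosure (v.adicCompletion k)) A' φ) :
    ∃ x y : M, (∀ σ, s σ x = x) ∧ (∀ σ, s σ y = y) ∧ x ^ p = algebraMap K M A ∧
      y ^ p = algebraMap K M (1 - A) ∧
      FF (IntermediateField.adjoin (AlgebraicClosure k) {x, y}) ∧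
      ∀ f ∈ NN p Set.univ (IntermediateField.adjoin (AlgebraicClosure k) {x, y}), f ∈ A' →
        ∃ c, ∀ σ, ∃ h : s σ f ∈ A', φ ⟨s σ f, h⟩ = ι (σ c) := by
  classical
  have : NeZero p := ⟨hp.ne_zero⟩
  have hcyc := cycl p
  have hodd : Odd p := hp.odd_of_ne_two h2
  obtain ⟨X⟩ := exists_stp (F := CyclotomicField p ℚ) hp h2 hh
  have hdeg : Module.finrank ℚ (CyclotomicField p ℚ) = p - 1 := by
    rw [IsCyclotomicExtension.Rat.finrank p, Nat.totient_prime hp]
  have hm : ¬ p ∣ Module.finrank k (CyclotomicField p ℚ) := by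
    intro hd
    have h4 : Module.finrank ℚ k * Module.finrank k (CyclotomicField p ℚ) = p - 1 := by
      rw [Module.finrank_mul_finrank, hdeg]
    have h5 : p ∣ p - 1 := h4 ▸ Dvd.dvd.mul_left hd _
    have h6 := hp.two_le
    exact absurd (Nat.le_of_dvd (by omega) h5) (by omega)
  have hfd : FiniteDimensional k (CyclotomicField p ℚ) := FiniteDimensional.right ℚ k _
  let e : CyclotomicField p ℚ →ₐ[k] AlgebraicClosure k := IsAlgClosed.lift
  let iF : Algebra (CyclotomicField p ℚ) (AlgebraicClosure k) := (e : _ →+* _).toAlgebra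
  have t1 : IsScalarTower k (CyclotomicField p ℚ) (AlgebraicClosure k) :=
    IsScalarTower.of_algebraMap_eq fun a => (e.commutes a).symm
  have hgal : IsGalois k (AlgebraicClosure k) := IsAlgClosure.isGalois k _
  have hnor : Normal k (CyclotomicField p ℚ) := by
    have h1 : IsGalois ℚ (CyclotomicField p ℚ) := IsCyclotomicExtension.isGalois {p} ℚ _
    have h3 : IsGalois k (CyclotomicField p ℚ) :=
      IsGalois.tower_top_of_isGalois ℚ k (CyclotomicField p ℚ)
    infer_instance
  -- the set of the valuation rings which contain the constants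
  have hrad : ∀ ρ : M, ρ ≠ 0 → (∀ V ∈ {V : ValuationSubring M |
      ∀ a : AlgebraicClosure k, algebraMap (AlgebraicClosure k) M a ∈ V}, DivAt p ρ V) →
      ∃ β : M, β ^ p = ρ := fun ρ hρ h => hRad ρ hρ fun Q hQ => h Q hQ
  obtain ⟨x, y, hsx, hsy, hxA, hyA⟩ := exists_xy X hm
    {V : ValuationSubring M | ∀ a : AlgebraicClosure k, algebraMap (AlgebraicClosure k) M a ∈ V}
    (fun V hV => hV) hrad s hs hsec v hv ι A' φ hφ A hA h
  obtain ⟨B, hBA, hBm, hB1⟩ := Gl.locp_k X hm
    {V : ValuationSubring M | ∀ a : AlgebraicClosure k, algebraMap (AlgebraicClosure k) M a ∈ V}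
    (fun V hV => hV) hrad s hs hsec v hv ι A' φ hφ A hA h
  -- the functions are not constant
  have hA0 : A ≠ 0 := fun h0 => hA 0 (by rw [h0, map_zero])
  have hAM : algebraMap K M A ≠ 0 := (_root_.map_ne_zero _).2 hA0
  have hx0 : x ≠ 0 := by
    rintro rfl
    rw [zero_pow hp.ne_zero] at hxA
    exact hAM hxA.symm
  have hxy : x ^ p + y ^ p = 1 := by rw [hxA, hyA, map_sub, map_one]; ring
  have htrA : Transcendental (AlgebraicClosure k) (algebraMap K M A) := by
    refine Gl.const_of_fixed s hsec (fun σ => (s σ).commutes A) fun c hc => ?_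
    exact not_const_M s hsec hA _ hc
  have htrx : Transcendental (AlgebraicClosure k) x := fun h0 => htrA (hxA ▸ h0.pow p)
  have htry : Transcendental (AlgebraicClosure k) y := by
    intro h0
    apply htrA
    have h1 : algebraMap K M A = 1 - y ^ p := by rw [← hxA]; linear_combination hxy
    rw [h1]
    exact (isAlgebraic_one).sub (h0.pow p)
  have htryx : Transcendental (AlgebraicClosure k) (y / x) := by
    intro h0
    apply htrA
    have h1 : algebraMap K M A = ((y / x) ^ p + 1)⁻¹ := by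
      have h3 : (y / x) ^ p + 1 = (x ^ p)⁻¹ := by
        rw [div_pow]
        field_simp
        linear_combination hxy
      rw [h3, inv_inv, hxA]
    rw [h1]
    exact ((h0.pow p).add isAlgebraic_one).inv
  -- the choice of the function `r`
  have hrq : ∃ r q : M, Transcendental (AlgebraicClosure k) r ∧ r ^ p + 1 = q ^ p ∧
      (∀ σ, s σ r = r) ∧ (∀ σ, s σ q = q) ∧ -(r ^ p) = algebraMap K M B ∧
      IntermediateField.adjoin (AlgebraicClosure k) {r, q} =
        IntermediateField.adjoin (AlgebraicClosure k) {x, y} := by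
    have mx : x ∈ IntermediateField.adjoin (AlgebraicClosure k) {x, y} :=
      IntermediateField.subset_adjoin _ _ (Set.mem_insert _ _)
    have my : y ∈ IntermediateField.adjoin (AlgebraicClosure k) {x, y} :=
      IntermediateField.subset_adjoin _ _ (Set.mem_insert_of_mem _ (Set.mem_singleton _))
    have mem1 : ∀ r q : M, r ∈ IntermediateField.adjoin (AlgebraicClosure k) {r, q} := fun r q =>
      IntermediateField.subset_adjoin _ _ (Set.mem_insert _ _)
    have mem2 : ∀ r q : M, q ∈ IntermediateField.adjoin (AlgebraicClosure k) {r, q} := fun r q =>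
      IntermediateField.subset_adjoin _ _ (Set.mem_insert_of_mem _ (Set.mem_singleton _))
    rcases hBA with rfl | rfl | rfl
    · refine ⟨-x, y, ?_, ?_, fun σ => by rw [map_neg, hsx], hsy, ?_,
        adj_eq (neg_mem mx) my ?_ (mem2 _ _)⟩
      · intro h0
        exact htrx (by simpa using h0.neg)
      · rw [hodd.neg_pow]; linear_combination -hxy
      · rw [hodd.neg_pow, neg_neg, hxA]
      · have := neg_mem (mem1 (-x) y)
        rwa [neg_neg] at this
    · refine ⟨-y, x, ?_, ?_, fun σ => by rw [map_neg, hsy], hsx, ?_,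
        adj_eq (neg_mem my) mx (mem2 _ _) ?_⟩
      · intro h0
        exact htry (by simpa using h0.neg)
      · rw [hodd.neg_pow]; linear_combination -hxy
      · rw [hodd.neg_pow, neg_neg, hyA]
      · have := neg_mem (mem1 (-y) x)
        rwa [neg_neg] at this
    · have hxi : (x⁻¹ : M) ∈ IntermediateField.adjoin (AlgebraicClosure k) {y / x, x⁻¹} :=
        mem2 _ _
      have hxm : x ∈ IntermediateField.adjoin (AlgebraicClosure k) {y / x, x⁻¹} := by
        have := inv_mem hxi
        rwa [inv_inv] at this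
      refine ⟨y / x, x⁻¹, htryx, ?_, fun σ => by rw [map_div₀, hsx, hsy],
        fun σ => by rw [map_inv₀, hsx], ?_, adj_eq (div_mem my mx) (inv_mem mx) hxm ?_⟩
      · rw [div_pow, inv_pow]
        field_simp
        linear_combination hxy
      · rw [map_sub, map_one, map_inv₀, ← hxA, div_pow]
        field_simp
        linear_combination -hxy
      · have := mul_mem (mem1 (y / x) x⁻¹) hxm
        rwa [div_mul_cancel₀ _ hx0] at this
  obtain ⟨r, q, htrr, hrq1, hsr, hsq, hrB, hadj⟩ := hrq
  -- the prime above `p`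
  obtain ⟨w, hwv⟩ := exists_prime_over (E := CyclotomicField p ℚ) v
  have hwP : w = X.P := by
    by_contra hne
    apply X.away w hne
    have h1 := (Ideal.mem_of_liesOver w.asIdeal v.asIdeal ((p : 𝓞 k))).1 hv
    rwa [map_natCast] at h1
  subst hwP
  have hζ' : IsPrimitiveRoot (algebraMap (CyclotomicField p ℚ) (AlgebraicClosure k) X.ζ) p :=
    X.hζ.map_of_injective (algebraMap (CyclotomicField p ℚ) (AlgebraicClosure k)).injective
  have hFF := ff_rq hp h2 hζ' htrr hrq1
  have hφr : ∃ h : -(r ^ p) ∈ A', φ ⟨_, h⟩ = 1 := by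
    have h1 : -(r ^ p) ∈ A' := by rw [hrB]; exact hBm
    refine ⟨h1, ?_⟩
    rw [← hB1]
    congr 1
    exact Subtype.ext hrB
  refine ⟨x, y, hsx, hsy, hxA, hyA, hadj ▸ hFF, fun f hf hfA => ?_⟩
  rw [← hadj] at hf
  exact k_level X s hs hsec hRad htrr (fun z => alg_of_trdeg (trdeg_top htr) htrr z) hFF hrq1
    hsr hsq v ι A' φ hφ hφr (fun σ => dv_all hp v hv ι σ) hf hfA

end Pool.Agent.Lib.MP_2f3286_ag.Pp
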