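import Pool.Agent.Lib.MP_2f3286_ag.Pp.Fin

/-!
# The geometrically pro-`p` section is the section of a rational point: the place
-/

open IsDedekindDomain NumberField
open scoped WithZero
open Pool.Agent.Lib.MP_2f3286_bir (IsPlaceOf)

namespace Pool.Agent.Lib.MP_2f3286_ag.Pp

open Pool.Agent.Lib.MP_2f3286_ag.Fer
open Pool.Agent.Lib.MP_2f3286_ag.Pt (DivAt)

/-- The restriction of a section to a stable subfield. -/
theorem exists_res {k kb K M : Type*} [Field k] [Field kb] [Algebra k kb] [Field K] [Algebra k K]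
    [Field M] [Algebra K M] [Algebra kb M] [Algebra k M] [IsScalarTower k K M]
    [IsScalarTower k kb M] (s : Gal(kb/k) →* Gal(M/K)) (N : IntermediateField kb M)
    (hN : ∀ σ, ∀ f ∈ N, s σ f ∈ N) :
    ∃ sN : Gal(kb/k) →* Gal(N/k), ∀ σ (f : N), ((sN σ f : N) : M) = s σ f := by
  have hkN : ∀ a : k, ((algebraMap k N a : N) : M) = algebraMap k M a := fun a => rfl
  let f1 : Gal(kb/k) → (N →ₐ[k] N) := fun σ =>
    { toFun := fun f => ⟨s σ f, hN σ f f.2⟩
      map_one' := Subtype.ext (map_one (s σ))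
      map_mul' := fun a b => Subtype.ext (map_mul (s σ) _ _)
      map_zero' := Subtype.ext (map_zero (s σ))
      map_add' := fun a b => Subtype.ext (map_add (s σ) _ _)
      commutes' := fun a => by
        apply Subtype.ext
        change s σ ((algebraMap k N a : N) : M) = ((algebraMap k N a : N) : M)
        rw [hkN, IsScalarTower.algebraMap_apply k K M]
        exact (s σ).commutes _ }
  have hf1 : ∀ σ (f : N), ((f1 σ f : N) : M) = s σ f := fun _ _ => rfl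
  have hcomp : ∀ σ τ (f : N), f1 σ (f1 τ f) = f1 (σ * τ) f := by
    intro σ τ f
    apply Subtype.ext
    rw [hf1, hf1, hf1, map_mul]
    rfl
  have hone : ∀ f : N, f1 1 f = f := by
    intro f
    apply Subtype.ext
    rw [hf1, map_one]
    rfl
  let f2 : Gal(kb/k) → Gal(N/k) := fun σ =>
    AlgEquiv.ofAlgHom (f1 σ) (f1 σ⁻¹)
      (by ext f; change ((f1 σ (f1 σ⁻¹ f) : N) : M) = f; rw [hcomp, mul_inv_cancel, hone])
      (by ext f; change ((f1 σ⁻¹ (f1 σ f) : N) : M) = f; rw [hcomp, inv_mul_cancel, hone])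
  have hf2 : ∀ σ (f : N), f2 σ f = f1 σ f := fun _ _ => rfl
  refine ⟨{ toFun := f2, map_one' := ?_, map_mul' := ?_ }, fun σ f => rfl⟩
  · ext f
    rw [hf2, hone]
    rfl
  · intro σ τ
    ext f
    rw [AlgEquiv.mul_apply, hf2, hf2, hf2, hcomp]

/-- **The pro-`p` section of a section with a place over the completion at the prime above `p`
is the section of a place over the base field.** -/
theorem fermat_pp2 {p : ℕ} (hp : p.Prime) (h2 : p ≠ 2)
    (hh : ¬ p ∣ classNumber (CyclotomicField p ℚ))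
    {k : Type*} [Field k] [NumberField k] [Algebra k (CyclotomicField p ℚ)]
    {K : Type*} [Field K] [Algebra k K] (htr : Algebra.trdeg k K = 1)
    {M : Type*} [Field M] [Algebra K M] [Algebra.IsAlgebraic K M]
    [Algebra (AlgebraicClosure k) M] [Algebra k M]
    [IsScalarTower k K M] [IsScalarTower k (AlgebraicClosure k) M]
    (hRad : Rad p (AlgebraicClosure k) M)
    (A : K) (hA : ∀ c : k, A ≠ algebraMap k K c)
    (h : (∃ x y : K, x ^ p = A ∧ y ^ p = 1 - A) ∨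
      ((∀ u : (𝓞 k)ˣ, ∃ v : (𝓞 k)ˣ, v ^ p = u) ∧ ∃ (a b : ℤ) (B : K), ¬ (p : ℤ) ∣ a ∧
        ¬ (p : ℤ) ∣ b ∧ ¬ (p : ℤ) ∣ a + b ∧ A ^ a * (1 - A) ^ b = B ^ p))
    (s : Gal(AlgebraicClosure k/k) →* Gal(M/K)) (hs : Continuous s)
    (hsec : ∀ σ a, s σ (algebraMap (AlgebraicClosure k) M a) =
      algebraMap (AlgebraicClosure k) M (σ a))
    (v : HeightOneSpectrum (𝓞 k)) (hv : (p : 𝓞 k) ∈ v.asIdeal)
    (ι : AlgebraicClosure k →ₐ[k] AlgebraicClosure (v.adicCompletion k))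
    (A' : ValuationSubring M) (φ : A' →+* AlgebraicClosure (v.adicCompletion k))
    (hφ : IsPlaceOf s (v.adicCompletion k)
      (ι : _ →+* AlgebraicClosure (v.adicCompletion k)) A' φ) :
    ∃ x y : M, (∀ σ, s σ x = x ∧ s σ y = y) ∧ x ^ p = algebraMap K M A ∧
      y ^ p = 1 - algebraMap K M A ∧
      ∃ N : IntermediateField (AlgebraicClosure k) M,
        IsLeast {E : IntermediateField (AlgebraicClosure k) M | x ∈ E ∧ y ∈ E ∧
          ∀ f : M, f ^ p ∈ E → (∀ Q : ValuationSubring M,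
            (∀ a, algebraMap (AlgebraicClosure k) M a ∈ Q) →
            ∃ c ∈ E, c ≠ 0 ∧ Q.valuation (f ^ p * (c ^ p)⁻¹) = 1) → f ∈ E} N ∧
        ∃ (sN : Gal(AlgebraicClosure k/k) →* Gal(N/k)) (A₀ : ValuationSubring N)
          (ψ₀ : A₀ →+* AlgebraicClosure k), (∀ σ (f : N), ((sN σ f : N) : M) = s σ f) ∧
          IsPlaceOf sN k (RingHom.id _) A₀ ψ₀ ∧ ∀ f : N, (f ∈ A₀ ↔ (f : M) ∈ A') ∧
          ∀ (h₀ : f ∈ A₀) (h' : (f : M) ∈ A'), φ ⟨f, h'⟩ = ι (ψ₀ ⟨f, h₀⟩) := by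
  obtain ⟨x, y, hsx, hsy, hxA, hyA, hFF, hmain⟩ := fermat_pp hp h2 hh htr hRad A hA h s hs hsec v hv
    ι A' φ hφ
  have hCZ : CharZero (AlgebraicClosure k) :=
    charZero_of_injective_algebraMap (algebraMap k (AlgebraicClosure k)).injective
  obtain ⟨N, hNdef⟩ : ∃ N, N = NN p Set.univ
    (IntermediateField.adjoin (AlgebraicClosure k) {x, y}) := ⟨_, rfl⟩
  have mx : x ∈ IntermediateField.adjoin (AlgebraicClosure k) {x, y} :=
    IntermediateField.subset_adjoin _ _ (Set.mem_insert _ _)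
  have my : y ∈ IntermediateField.adjoin (AlgebraicClosure k) {x, y} :=
    IntermediateField.subset_adjoin _ _ (Set.mem_insert_of_mem _ (Set.mem_singleton _))
  have hBN : IntermediateField.adjoin (AlgebraicClosure k) {x, y} ≤ N := by
    rw [hNdef]
    exact Tow.base.le_NN
  have hleast : IsLeast {E : IntermediateField (AlgebraicClosure k) M | x ∈ E ∧ y ∈ E ∧
      ∀ f : M, f ^ p ∈ E → (∀ Q : ValuationSubring M,
        (∀ a, algebraMap (AlgebraicClosure k) M a ∈ Q) →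
        ∃ c ∈ E, c ≠ 0 ∧ Q.valuation (f ^ p * (c ^ p)⁻¹) = 1) → f ∈ E} N := by
    refine ⟨⟨hBN mx, hBN my, ?_⟩, ?_⟩
    · rw [hNdef]
      exact NN.cl_univ hp hFF
    · rintro E ⟨hxE, hyE, hE⟩
      rw [hNdef]
      refine NN.le_of_cl ?_ hE
      rw [IntermediateField.adjoin_le_iff]
      rintro z (rfl | rfl)
      · exact hxE
      · exact hyE
  have hsN : ∀ σ, ∀ f ∈ N, s σ f ∈ N := by
    intro σ f hf
    rw [hNdef] at hf ⊢
    exact (NN.map (saOf s hsec σ) (pre_adjoin (saOf s hsec σ) (hsx σ) (hsy σ))).2 hf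
  obtain ⟨sN, hsN'⟩ := exists_res s N hsN
  have hval : ∀ f : N, (f : M) ∈ A' → ∃ c, ∀ σ, ∃ h : s σ (f : M) ∈ A',
      φ ⟨s σ f, h⟩ = ι (σ c) := fun f hf => hmain f (hNdef ▸ f.2) hf
  -- the place
  let A₀ : ValuationSubring N := A'.comap (algebraMap N M)
  have hA₀ : ∀ f : N, f ∈ A₀ ↔ (f : M) ∈ A' := fun f => Iff.rfl
  have hval1 : ∀ f : A₀, ∃ c, φ ⟨((f : N) : M), (hA₀ f).1 f.2⟩ = ι c := by
    intro f
    obtain ⟨c, hc⟩ := hval f ((hA₀ f).1 f.2)
    obtain ⟨h1, h3⟩ := hc 1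
    refine ⟨c, ?_⟩
    have h4 : (⟨s 1 ((f : N) : M), h1⟩ : A') = ⟨((f : N) : M), (hA₀ f).1 f.2⟩ := Subtype.ext (by
      change s 1 ((f : N) : M) = _
      rw [map_one]
      rfl)
    rw [← h4, h3]
    rfl
  choose ψ hψ using hval1
  have hιi : Function.Injective ι :=
    RingHom.injective (ι : AlgebraicClosure k →+* AlgebraicClosure (v.adicCompletion k))
  let ψ₀ : A₀ →+* AlgebraicClosure k :=
    { toFun := ψ
      map_one' := hιi (by rw [← hψ, map_one]; exact map_one φ)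
      map_zero' := hιi (by rw [← hψ, map_zero]; exact map_zero φ)
      map_mul' := fun a b => hιi (by rw [map_mul, ← hψ, ← hψ, ← hψ, ← map_mul]; rfl)
      map_add' := fun a b => hιi (by rw [map_add, ← hψ, ← hψ, ← hψ, ← map_add]; rfl) }
  have hψ₀ : ∀ f : A₀, φ ⟨((f : N) : M), (hA₀ f).1 f.2⟩ = ι (ψ₀ f) := hψ
  refine ⟨x, y, fun σ => ⟨hsx σ, hsy σ⟩, hxA, by rw [hyA, map_sub, map_one], N, hleast, sN, A₀,
    ψ₀, hsN', ⟨fun a => ?_, fun f hf => ?_, fun σ τ hστ f => ?_⟩, fun f => ⟨hA₀ f, fun h₀ h' =>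
      hψ₀ ⟨f, h₀⟩⟩⟩
  · obtain ⟨h1, h3⟩ := hφ.1 a
    have h4 : algebraMap (AlgebraicClosure k) N a ∈ A₀ := h1
    refine ⟨h4, hιi ?_⟩
    rw [← hψ₀ ⟨_, h4⟩]
    exact h3
  · have h1 : φ ⟨((f : N) : M), (hA₀ f).1 f.2⟩ ≠ 0 := by
      rw [hψ₀]
      exact fun h0 => hf (hιi (h0.trans (map_zero ι).symm))
    exact hφ.2.1 _ h1
  · have hστ' : σ = τ := AlgEquiv.ext fun a => hστ a
    subst hστ'
    obtain ⟨c, hc⟩ := hval f ((hA₀ f).1 f.2)
    obtain ⟨h1, h3⟩ := hc σ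
    obtain ⟨h1', h3'⟩ := hc 1
    have h5 : sN σ f ∈ A₀ := by
      rw [hA₀, hsN']
      exact h1
    refine ⟨h5, hιi ?_⟩
    rw [← hψ₀ ⟨_, h5⟩]
    have h6 : (⟨((sN σ f : N) : M), (hA₀ _).1 h5⟩ : A') = ⟨s σ ((f : N) : M), h1⟩ :=
      Subtype.ext (hsN' σ f)
    have h7 : ψ₀ f = c := by
      apply hιi
      rw [← hψ₀]
      have h8 : (⟨s 1 ((f : N) : M), h1'⟩ : A') = ⟨((f : N) : M), (hA₀ f).1 f.2⟩ :=
        Subtype.ext (by
          change s 1 ((f : N) : M) = _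
          rw [map_one]
          rfl)
      rw [← h8, h3']
      rfl
    rw [h7]
    change φ ⟨((sN σ f : N) : M), (hA₀ _).1 h5⟩ = _
    rw [h6]
    exact h3

end Pool.Agent.Lib.MP_2f3286_ag.Pp
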