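import Pool.Agent.Lib.MP_2f3286_ag.Pp.G9
import Pool.Agent.Lib.MP_2f3286_ag.Pp.G11a

/-!
# Sections over a subfield of the cyclotomic field   (module G11)
-/

open Polynomial IntermediateField IsDedekindDomain NumberField

namespace Pool.Agent.Lib.MP_2f3286_ag.Pp

open Pool.Agent.Lib.MP_2f3286_bir (IsPlaceOf)
open Pool.Agent.Lib.MP_2f3286_ag.Fer (Stp)
open Pool.Agent.Lib.MP_2f3286_ag.Koe (resS resG)

theorem k_level {p : ℕ} {F : Type*} [Field F] [NumberField F] (X : Stp p F) {k : Type*} [Field k]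
    [NumberField k] [Algebra k F] [Normal k F] {kb K M : Type*} [Field kb] [Algebra k kb]
    [IsGalois k kb] [IsAlgClosed kb] [Algebra F kb] [IsScalarTower k F kb] [Field K] [Field M]
    [Algebra K M] [Algebra kb M] [Algebra.IsAlgebraic K M] (s : Gal(kb/k) →* Gal(M/K))
    (hs : Continuous s)
    (hsec : ∀ σ a, s σ (algebraMap kb M a) = algebraMap kb M (σ a)) (hRad : Rad p kb M) {r q : M}
    (hr : Transcendental kb r)
    (halg : ∀ y : M, IsAlgebraic (IntermediateField.adjoin kb {r}) y)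
    (hB : FF (IntermediateField.adjoin kb {r, q}))
    (hrq : r ^ p + 1 = q ^ p) (hrs : r ∈ Fx s) (hqs : q ∈ Fx s)
    (v : HeightOneSpectrum (𝓞 k)) [X.P.asIdeal.LiesOver v.asIdeal]
    (ι : kb →ₐ[k] AlgebraicClosure (v.adicCompletion k)) (A : ValuationSubring M)
    (φ : A →+* AlgebraicClosure (v.adicCompletion k))
    (hφ : IsPlaceOf s (v.adicCompletion k)
      (ι : _ →+* AlgebraicClosure (v.adicCompletion k)) A φ)
    (hφr : ∃ h : -(r ^ p) ∈ A, φ ⟨_, h⟩ = 1)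
    (hdv : ∀ σ : Gal(kb/k), ∃ (δ : Gal(kb/k))
      (τ : Gal(AlgebraicClosure (v.adicCompletion k)/v.adicCompletion k)),
      (∀ a : kb, ι (δ a) = τ (ι a)) ∧ ∀ x : F, δ (algebraMap F kb x) = σ (algebraMap F kb x))
    {f : M} (hf : f ∈ NN p Set.univ (IntermediateField.adjoin kb {r, q})) (hfA : f ∈ A) :
    ∃ c : kb, ∀ σ, ∃ h : s σ f ∈ A, φ ⟨s σ f, h⟩ = ι (σ c) := by
  have hkF : Algebra.IsAlgebraic k F := inferInstance
  have hFk : Algebra.IsAlgebraic F kb := Algebra.IsAlgebraic.tower_top (K := k) F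
  have hgF : IsGalois F kb := IsGalois.tower_top_of_isGalois k F kb
  have hLM : Algebra.IsAlgebraic (Koe.fixF s F) M :=
    Algebra.IsAlgebraic.tower_top (K := K) (Koe.fixF s F)
  have hL : ∀ σ : Gal(kb/k),
      (∀ a : F, σ (algebraMap F _ a) = algebraMap F _ a) →
      ∀ x : Koe.fixF s F, s σ (algebraMap (Koe.fixF s F) M x) = algebraMap (Koe.fixF s F) M x :=
    fun σ hσ x => x.2 σ hσ
  -- elements of `F` are mapped to elements of `F`
  have hnorm : ∀ (ρ : Gal(kb/k)) (x : F), ∃ y : F,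
      ρ (algebraMap F kb x) = algebraMap F kb y := fun ρ x =>
    ⟨AlgEquiv.restrictNormal ρ F x, (AlgEquiv.restrictNormal_commutes ρ F x).symm⟩
  have hs' := Koe.resS_continuous s (AlgEquiv.refl : kb ≃ₐ[F] kb) hL hs
  have hsec' : ∀ (σ : Gal(kb/F)) (a : kb),
      resS s (AlgEquiv.refl : kb ≃ₐ[F] kb) hL σ (algebraMap kb M a) =
        algebraMap kb M (σ a) := fun σ a => hsec _ a
  obtain ⟨ι', B', φ', ρ, j, hB', hmem, hι', hφ'⟩ := exists_local_expl s hsec hL v X.P ι A φ hφ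
  have hpre : ∀ σ : Gal(kb/k), Pre (saOf s hsec σ) (IntermediateField.adjoin kb {r, q}) :=
    fun σ => pre_adjoin (saOf s hsec σ) (hrs σ) (hqs σ)
  have hNN : ∀ (σ : Gal(kb/k)) {g : M},
      g ∈ NN p Set.univ (IntermediateField.adjoin kb {r, q}) →
      s σ g ∈ NN p Set.univ (IntermediateField.adjoin kb {r, q}) := fun σ g hg =>
    (NN.map (saOf s hsec σ) (hpre σ)).2 hg
  have hφr' : ∃ h : -(r ^ p) ∈ B', φ' ⟨_, h⟩ = 1 := by
    obtain ⟨h1, h2⟩ := hφr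
    have h3 : s ρ (-(r ^ p)) = -(r ^ p) := by rw [map_neg, map_pow, hrs ρ]
    have h4 : s ρ (-(r ^ p)) ∈ A := by rw [h3]; exact h1
    refine ⟨(hmem _).2 h4, ?_⟩
    rw [hφ' _ _ h4]
    have h5 : (⟨s ρ (-(r ^ p)), h4⟩ : A) = ⟨_, h1⟩ := Subtype.ext h3
    rw [h5, h2, map_one]
  have hFl := fun {g : M} (hg : g ∈ NN p Set.univ (IntermediateField.adjoin kb {r, q}))
      (hgB : g ∈ B') => f_level X (resS s (AlgEquiv.refl : kb ≃ₐ[F] kb) hL) hs' hsec' hRad hr halg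
    hB hrq (fun σ => hrs _) (fun σ => hqs _) ι' B' φ' hB' hφr' hg hgB
  -- elements which are trivial on `F`
  have key : ∀ {g : M}, g ∈ NN p Set.univ (IntermediateField.adjoin kb {r, q}) → g ∈ A →
      ∃ c : kb, ∀ σ : Gal(kb/k), (∀ a : F, σ (algebraMap F kb a) = algebraMap F kb a) →
        ∃ h : s σ g ∈ A, φ ⟨s σ g, h⟩ = ι (σ c) := by
    intro g hg hgA
    have e1 : s ρ (s ρ⁻¹ g) = g := by
      rw [← AlgEquiv.mul_apply, ← map_mul, mul_inv_cancel, map_one]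
      rfl
    obtain ⟨c, hc⟩ := hFl (hNN ρ⁻¹ hg) ((hmem _).2 (by rw [e1]; exact hgA))
    refine ⟨ρ c, fun σ hσ => ?_⟩
    have hσ' : ∀ a : F, (ρ⁻¹ * σ * ρ) (algebraMap F kb a) = algebraMap F kb a := by
      intro a
      obtain ⟨b, hb⟩ := hnorm ρ a
      rw [AlgEquiv.mul_apply, AlgEquiv.mul_apply, hb, hσ b, ← hb]
      exact ρ.symm_apply_apply _
    obtain ⟨τ, hτ, hτ'⟩ := Koe.resG_surj (AlgEquiv.refl : kb ≃ₐ[F] kb) _ hσ'
    obtain ⟨h1, h2⟩ := hc τ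
    have e2 : s ρ (resS s (AlgEquiv.refl : kb ≃ₐ[F] kb) hL τ (s ρ⁻¹ g)) = s σ g := by
      rw [Koe.resS_apply, hτ, ← AlgEquiv.mul_apply, ← AlgEquiv.mul_apply, ← map_mul, ← map_mul]
      congr 2
      group
    have h3 : s ρ (resS s (AlgEquiv.refl : kb ≃ₐ[F] kb) hL τ (s ρ⁻¹ g)) ∈ A := (hmem _).1 h1
    have h4 : s σ g ∈ A := by rw [← e2]; exact h3
    refine ⟨h4, j.injective ?_⟩
    have h5 : (⟨s σ g, h4⟩ : A) = ⟨_, h3⟩ := Subtype.ext e2.symm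
    rw [h5, ← hφ' _ h1 h3, h2, hι', hτ' c]
    congr 2
    change ρ ((ρ⁻¹ * σ * ρ) c) = σ (ρ c)
    rw [← AlgEquiv.mul_apply, ← AlgEquiv.mul_apply]
    congr 1
    group
  obtain ⟨c, hc⟩ := key hf hfA
  refine ⟨c, fun σ => ?_⟩
  obtain ⟨δ, τ, hδ, hδσ⟩ := hdv σ
  obtain ⟨h1, h2⟩ := hφ.2.2 δ τ hδ ⟨f, hfA⟩
  have h1' : s δ f ∈ A := h1
  obtain ⟨c₁, hc₁⟩ := key (hNN δ hf) h1'
  -- the two constants
  have h0 : φ ⟨f, hfA⟩ = ι c := by
    obtain ⟨h3, h4⟩ := hc 1 (fun a => rfl)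
    have h5 : (⟨s 1 f, h3⟩ : A) = ⟨f, hfA⟩ := Subtype.ext (by
      change s 1 f = f
      rw [map_one]
      rfl)
    rw [h5] at h4
    exact h4
  have h3 : c₁ = δ c := by
    apply (ι : kb →+* AlgebraicClosure (v.adicCompletion k)).injective
    change ι c₁ = ι (δ c)
    obtain ⟨h4, h5⟩ := hc₁ 1 (fun a => rfl)
    have h6 : (⟨s 1 (s δ f), h4⟩ : A) = ⟨s δ f, h1'⟩ := Subtype.ext (by
      change s 1 (s δ f) = s δ f
      rw [map_one]
      rfl)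
    rw [h6] at h5
    have h7 : φ ⟨s δ f, h1'⟩ = τ (φ ⟨f, hfA⟩) := h2
    rw [hδ, ← h0, ← h7, h5]
    rfl
  have hσ₁ : ∀ a : F, (σ * δ⁻¹) (algebraMap F kb a) = algebraMap F kb a := by
    intro a
    obtain ⟨b, hb⟩ := hnorm δ⁻¹ a
    rw [AlgEquiv.mul_apply, hb, ← hδσ, ← hb]
    exact δ.apply_symm_apply _
  obtain ⟨h4, h5⟩ := hc₁ _ hσ₁
  have e3 : s (σ * δ⁻¹) (s δ f) = s σ f := by
    rw [← AlgEquiv.mul_apply, ← map_mul]
    congr 2
    group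
  have h6 : s σ f ∈ A := by rw [← e3]; exact h4
  refine ⟨h6, ?_⟩
  have h7 : (⟨s σ f, h6⟩ : A) = ⟨_, h4⟩ := Subtype.ext e3.symm
  rw [h7, h5, h3]
  congr 1
  rw [← AlgEquiv.mul_apply]
  congr 1
  group

end Pool.Agent.Lib.MP_2f3286_ag.Pp
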