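import Pool.Agent.Lib.MP_2f3286_ag.Pp.SaOf
import Pool.Agent.Lib.MP_2f3286_ag.Pp.B2
import Pool.Agent.Lib.MP_2f3286_ag.Koe.Restrict

/-!
# Fixed elements of a stable subfield   (module G2)

PROOF of `fix_span`. The set of `σ` with `s σ f = f` is an open subgroup (`Koe.fix_mem_nhds`, Koe/Restrict.lean, and `krullTopology_mem_nhds_one_iff`): there is a finite extension `F'` of `F` in `kb`, which we may take to be Galois (its normal closure), with `s σ f = f` for all `σ` which are trivial on `F'`. `Γ = Gal(F'/F)`, finite of order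
`n = [F' : F]`; for `γ ∈ Γ` choose an extension `γ̃ ∈ Gal(kb/F)`, and let `f_γ = s γ̃ f` (it does not depend on the choice), `f_1 = f`. Let `c_1, ..., c_n` be a basis of `F'` over `F`. The matrix `(γ c_i)_{γ, i}` is invertible (linear independence of the automorphisms: `linearIndependent_monoidHom`; or the trace form of a separable
extension: `Algebra.traceForm_nondegenerate`, dual basis `c*_i` with `∑_i c_i γ(c*_i) = 1` for `γ = 1` and `0` otherwise). `g_i = ∑_γ γ(c*_i) f_γ`: it is fixed by all `s σ` (`s σ (γ(c*_i) f_γ) = (σ γ)(c*_i) f_{σ γ}`), in `V`, and `∑_i c_i g_i = ∑_γ (∑_i c_i γ(c*_i)) f_γ = f`.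
PROOF of `fixed_line`. `fix_span` for the subspace `V = {β e | e ∈ E}` and `f = β`: some `g_i ≠ 0`, `g_i = β e`.
PROOF of `st_res`. `ff_val` (B2) for `𝒪 = A`: `c : kb` with `A(g - c) < 1`. For every `σ`: `g - c ∈ E`, and `St` for it and its inverse gives `A(s σ (g - c)) < 1`, i.e. `A(g - σ c) < 1`; so the constant `c - σ c` has valuation `< 1`, so it is zero. So `c` is fixed by `Gal(kb/F)`, `c ∈ F` (`IsGalois`).
PROOF of `st_val`. `fix_span` for `V = E` (`E.toSubalgebra.toSubmodule`) and `f`: `f = ∑ c_i g_i` with `c_i` linearly independent over `F`. Some `g_i ≠ 0`; let `g_1` have the largest valuation among the `g_i`; `g_1 ≠ 0`. `g_i / g_1 ∈ A` is fixed, in `E`, so by `st_res` `A(g_i / g_1 - a_i) < 1` with `a_i ∈ F`, `a_1 = 1`. So `A(f / g_1 - ∑ c_i a_i) < 1`, and `∑ c_i a_i ∈ kb`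
is not zero (linear independence), so it has valuation one, so `A(f / g_1) = 1`, `A(f) = A(g_1)`.
-/

open Polynomial IntermediateField

namespace Pool.Agent.Lib.MP_2f3286_ag.Pp

/-- the dual basis of a finite Galois extension -/
theorem g2_dual (F L : Type*) [Field F] [Field L] [Algebra F L] [FiniteDimensional F L]
    [IsGalois F L] : ∃ (n : ℕ) (b : Module.Basis (Fin n) F L) (d : Fin n → L),
      ∀ γ : Gal(L/F), (γ = 1 → ∑ i, b i * γ (d i) = 1) ∧ (γ ≠ 1 → ∑ i, b i * γ (d i) = 0) := by
  classical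
  let b := Module.finBasis F L
  let d := b.traceDual
  refine ⟨_, b, d, fun γ => ?_⟩
  let A : Matrix Gal(L/F) (Fin (Module.finrank F L)) L := fun γ i => γ (d i)
  let B : Matrix (Fin (Module.finrank F L)) Gal(L/F) L := fun i γ => γ (b i)
  have h1 : B * A = 1 := by
    ext i j
    rw [Matrix.mul_apply]
    have h2 : ∀ γ : Gal(L/F), B i γ * A γ j = γ (b i * d j) := fun γ => (map_mul γ _ _).symm
    rw [Finset.sum_congr rfl fun γ _ => h2 γ, ← trace_eq_sum_automorphisms,
      Module.Basis.trace_mul_traceDual, Matrix.one_apply]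
    split_ifs <;> simp
  have hcard : Fintype.card Gal(L/F) = Fintype.card (Fin (Module.finrank F L)) := by
    rw [Fintype.card_fin, ← IsGalois.card_aut_eq_finrank F L, Nat.card_eq_fintype_card]
  have h3 : A * B = 1 := (Matrix.mul_eq_one_comm_of_equiv (Fintype.card_eq.mp hcard).some).2 h1
  have h4 := congrFun (congrFun h3 γ) 1
  rw [Matrix.mul_apply, Matrix.one_apply] at h4
  have h5 : ∑ i, b i * γ (d i) = if γ = 1 then 1 else 0 := by
    rw [← h4]
    refine Finset.sum_congr rfl fun i _ => ?_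
    show b i * γ (d i) = γ (d i) * (1 : Gal(L/F)) (b i)
    rw [AlgEquiv.one_apply, mul_comm]
  exact ⟨fun h => by rw [h5, if_pos h], fun h => by rw [h5, if_neg h]⟩

variable {F kb K M : Type*} [Field F] [Field kb] [Algebra F kb] [IsGalois F kb] [Field K] [Field M]
  [Algebra K M] [Algebra kb M] [Algebra.IsAlgebraic K M] (s : Gal(kb/F) →* Gal(M/K))
  (hs : Continuous s) (hsec : ∀ σ a, s σ (algebraMap kb M a) = algebraMap kb M (σ a))
  {E : IntermediateField kb M} {A : ValuationSubring M}

include hs hsec in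
theorem fix_span (V : Submodule kb M) (hV : ∀ σ, ∀ f ∈ V, s σ f ∈ V) {f : M} (hf : f ∈ V) :
    ∃ (n : ℕ) (c : Fin n → kb) (g : Fin n → M), LinearIndependent F c ∧
      (∀ i, g i ∈ V ∧ g i ∈ Fx s) ∧ f = ∑ i, algebraMap kb M (c i) * g i := by
  classical
  obtain ⟨L, hL⟩ := (InfiniteGalois.krullTopology_mem_nhds_one_iff_of_isGalois _).1
    (Koe.fix_mem_nhds s hs f)
  have hfix : ∀ σ : Gal(kb/F), AlgEquiv.restrictNormalHom L.toIntermediateField σ = 1 →
      s σ f = f := by
    intro σ hσ
    apply hL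
    rw [SetLike.mem_coe, IntermediateField.mem_fixingSubgroup_iff]
    intro x hx
    have h1 := AlgEquiv.restrictNormalHom_apply L.toIntermediateField σ ⟨x, hx⟩
    rw [hσ] at h1
    exact h1.symm
  have hsurj := AlgEquiv.restrictNormalHom_surjective (F := F) (K₁ := L.toIntermediateField) kb
  choose lift hlift using hsurj
  let φ : Gal(L.toIntermediateField/F) → M := fun γ => s (lift γ) f
  have hφ : ∀ σ, s σ f = φ (AlgEquiv.restrictNormalHom L.toIntermediateField σ) := by
    intro σ
    set γ := AlgEquiv.restrictNormalHom L.toIntermediateField σ with hγ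
    have h1 := hfix ((lift γ)⁻¹ * σ) (by rw [map_mul, map_inv, hlift, ← hγ, inv_mul_cancel])
    have h2 : s σ f = s (lift γ) (s ((lift γ)⁻¹ * σ) f) := by
      rw [← AlgEquiv.mul_apply, ← map_mul, mul_inv_cancel_left]
    rw [h2, h1]
  have hφ1 : φ 1 = f := by
    have h1 := hφ 1
    rw [map_one, map_one, AlgEquiv.one_apply] at h1
    exact h1.symm
  have hφm : ∀ σ γ, s σ (φ γ) = φ (AlgEquiv.restrictNormalHom L.toIntermediateField σ * γ) := by
    intro σ γ
    have h1 : s σ (φ γ) = s (σ * lift γ) f := by rw [map_mul, AlgEquiv.mul_apply]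
    rw [h1, hφ, map_mul, hlift]
  obtain ⟨n, b, d, hd⟩ := g2_dual F L.toIntermediateField
  refine ⟨n, fun i => (b i : kb), fun i => ∑ γ : Gal(L.toIntermediateField/F),
    algebraMap kb M ((γ (d i) : L.toIntermediateField) : kb) * φ γ, ?_, fun i => ⟨?_, ?_⟩, ?_⟩
  · exact b.linearIndependent.map' L.toIntermediateField.val.toLinearMap
      (LinearMap.ker_eq_bot.2 Subtype.val_injective)
  · apply V.sum_mem
    intro γ _
    rw [← Algebra.smul_def]
    exact V.smul_mem _ (hV _ _ hf)
  · intro σ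
    rw [map_sum]
    refine Fintype.sum_equiv
      (Equiv.mulLeft (AlgEquiv.restrictNormalHom L.toIntermediateField σ)) _ _ fun γ => ?_
    rw [map_mul, hsec, hφm, Equiv.coe_mulLeft]
    congr 2
    rw [AlgEquiv.mul_apply, AlgEquiv.restrictNormalHom_apply]
  · have h1 : ∀ i, algebraMap kb M (b i : kb) * ∑ γ : Gal(L.toIntermediateField/F),
        algebraMap kb M ((γ (d i) : L.toIntermediateField) : kb) * φ γ
        = ∑ γ : Gal(L.toIntermediateField/F),
          algebraMap kb M ((b i * γ (d i) : L.toIntermediateField) : kb) * φ γ := by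
      intro i
      rw [Finset.mul_sum]
      refine Finset.sum_congr rfl fun γ _ => ?_
      rw [← mul_assoc, ← map_mul]
      rfl
    rw [Finset.sum_congr rfl fun i _ => h1 i, Finset.sum_comm]
    have h2 : ∀ γ : Gal(L.toIntermediateField/F), ∑ i,
        algebraMap kb M ((b i * γ (d i) : L.toIntermediateField) : kb) * φ γ
        = if γ = 1 then f else 0 := by
      intro γ
      rw [← Finset.sum_mul, ← map_sum]
      have h3 : ∑ i, ((b i * γ (d i) : L.toIntermediateField) : kb)
          = ((∑ i, b i * γ (d i) : L.toIntermediateField) : kb) := by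
        rw [← IntermediateField.coe_val, map_sum]
      rw [h3]
      split_ifs with h
      · rw [(hd γ).1 h, h, hφ1, IntermediateField.coe_one, map_one, one_mul]
      · rw [(hd γ).2 h, IntermediateField.coe_zero, map_zero, zero_mul]
    rw [Finset.sum_congr rfl fun γ _ => h2 γ, Finset.sum_ite_eq' Finset.univ (1 : Gal(_/F)),
      if_pos (Finset.mem_univ _)]

include hs hsec in
theorem fixed_line (hE : ∀ σ, ∀ f ∈ E, s σ f ∈ E) {β : M} (hβ0 : β ≠ 0)
    (hβ : ∀ σ, ∃ u ∈ E, s σ β = β * u) : ∃ e ∈ E, e ≠ 0 ∧ β * e ∈ Fx s := by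
  let V : Submodule kb M := E.toSubalgebra.toSubmodule.map (LinearMap.mulLeft kb β)
  have hmem : ∀ x, x ∈ V ↔ ∃ e ∈ E, β * e = x := fun x => Iff.rfl
  obtain ⟨n, c, g, -, hg, hsum⟩ := fix_span s hs hsec V (fun σ f hf => by
    rw [hmem] at hf ⊢
    obtain ⟨e, he, rfl⟩ := hf
    obtain ⟨u, hu, h⟩ := hβ σ
    exact ⟨u * s σ e, E.mul_mem hu (hE σ e he), by rw [map_mul, h, mul_assoc]⟩) (f := β)
    ((hmem β).2 ⟨1, E.one_mem, mul_one β⟩)
  have hex : ∃ i, g i ≠ 0 := by
    by_contra hcon
    push Not at hcon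
    apply hβ0
    rw [hsum]
    exact Finset.sum_eq_zero fun i _ => by rw [hcon i, mul_zero]
  obtain ⟨i, hi⟩ := hex
  obtain ⟨e, he, hee⟩ := (hmem _).1 (hg i).1
  refine ⟨e, he, ?_, ?_⟩
  · rintro rfl
    rw [mul_zero] at hee
    exact hi hee.symm
  · rw [hee]
    exact (hg i).2

theorem g2_const {C M : Type*} [Field C] [Field M] [Algebra C M] {A : ValuationSubring M}
    (hA : ∀ a : C, algebraMap C M a ∈ A) {c : C} (hc : c ≠ 0) :
    A.valuation (algebraMap C M c) = 1 := by
  have h0 : algebraMap C M c ≠ 0 := by simpa using hc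
  have h1 : A.valuation (algebraMap C M c) ≤ 1 := (A.valuation_le_one_iff _).2 (hA c)
  have h2 : A.valuation (algebraMap C M c)⁻¹ ≤ 1 := by
    rw [← map_inv₀ (algebraMap C M)]
    exact (A.valuation_le_one_iff _).2 (hA _)
  rw [map_inv₀] at h2
  have h3 : 0 < A.valuation (algebraMap C M c) := zero_lt_iff.2 ((_root_.map_ne_zero _).2 h0)
  exact le_antisymm h1 ((inv_le_one₀ h3).1 h2)

include hsec in
theorem st_res [IsAlgClosed kb] [CharZero kb] (hFF : FF E)
    (hA : ∀ a : kb, algebraMap kb M a ∈ A) (hne : ∃ f ∈ E, f ∉ A) (hSt : St s A E) {g : M}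
    (hg : g ∈ E) (hfix : g ∈ Fx s) (hgA : g ∈ A) :
    ∃ a : F, A.valuation (g - algebraMap kb M (algebraMap F kb a)) < 1 := by
  obtain ⟨c, hc⟩ := (ff_val hFF A hA hne).2 g hg hgA
  have hcE : algebraMap kb M c ∈ E := E.algebraMap_mem c
  have hh : g - algebraMap kb M c ∈ E := E.sub_mem hg hcE
  have key : ∀ σ : Gal(kb/F), σ c = c := by
    intro σ
    by_contra hne2
    have h1 : A.valuation (s σ (g - algebraMap kb M c)) < 1 := by
      rcases eq_or_ne (g - algebraMap kb M c) 0 with h0 | h0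
      · rw [h0, map_zero, map_zero]
        exact zero_lt_one
      · have h2 : (g - algebraMap kb M c)⁻¹ ∉ A := by
          intro h3
          have h4 := (A.valuation_le_one_iff _).2 h3
          rw [map_inv₀] at h4
          have h5 : 0 < A.valuation (g - algebraMap kb M c) := zero_lt_iff.2 ((_root_.map_ne_zero _).2 h0)
          rw [inv_le_one₀ h5] at h4
          exact absurd hc (not_lt.2 h4)
        have h3 : s σ (g - algebraMap kb M c)⁻¹ ∉ A := fun h => h2 ((hSt σ _ (E.inv_mem hh)).1 h)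
        rw [map_inv₀] at h3
        have h6 : s σ (g - algebraMap kb M c) ≠ 0 := by
          rw [Ne, map_eq_zero]
          exact h0
        by_contra h4
        push Not at h4
        apply h3
        rw [← A.valuation_le_one_iff, map_inv₀]
        exact (inv_le_one₀ (zero_lt_iff.2 ((_root_.map_ne_zero _).2 h6))).2 h4
    rw [map_sub, hsec, hfix σ] at h1
    have h2 : A.valuation (algebraMap kb M (c - σ c)) < 1 := by
      have h3 : algebraMap kb M (c - σ c)
          = (g - algebraMap kb M (σ c)) - (g - algebraMap kb M c) := by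
        rw [map_sub]
        ring
      rw [h3]
      exact lt_of_le_of_lt (A.valuation.map_sub _ _) (max_lt h1 hc)
    rw [g2_const hA (sub_ne_zero.2 (Ne.symm hne2))] at h2
    exact lt_irrefl _ h2
  obtain ⟨a, ha⟩ := (InfiniteGalois.mem_range_algebraMap_iff_fixed c).2 key
  exact ⟨a, by rw [ha]; exact hc⟩

include hs hsec in
theorem st_val [IsAlgClosed kb] [CharZero kb] (hFF : FF E) (hE : ∀ σ, ∀ f ∈ E, s σ f ∈ E)
    (hA : ∀ a : kb, algebraMap kb M a ∈ A) (hne : ∃ f ∈ E, f ∉ A) (hSt : St s A E) {f : M}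
    (hf : f ∈ E) (hf0 : f ≠ 0) :
    ∃ g ∈ E, g ≠ 0 ∧ g ∈ Fx s ∧ A.valuation f = A.valuation g := by
  classical
  obtain ⟨n, c, g, hind, hg, hsum⟩ := fix_span s hs hsec E.toSubalgebra.toSubmodule
    (fun σ f hf => hE σ f hf) hf
  have hgE : ∀ i, g i ∈ E := fun i => (hg i).1
  have hex : ∃ i, g i ≠ 0 := by
    by_contra hcon
    push Not at hcon
    apply hf0
    rw [hsum]
    exact Finset.sum_eq_zero fun i _ => by rw [hcon i, mul_zero]
  obtain ⟨i0, hi0⟩ := hex
  obtain ⟨j, -, hj⟩ := Finset.exists_max_image Finset.univ (fun i => A.valuation (g i))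
    ⟨i0, Finset.mem_univ _⟩
  have hv0 : 0 < A.valuation (g j) :=
    lt_of_lt_of_le (zero_lt_iff.2 ((_root_.map_ne_zero _).2 hi0)) (hj i0 (Finset.mem_univ _))
  have hgj : g j ≠ 0 := fun h => by
    rw [h, map_zero] at hv0
    exact lt_irrefl _ hv0
  have hres : ∀ i, ∃ a : F,
      A.valuation (g i * (g j)⁻¹ - algebraMap kb M (algebraMap F kb a)) < 1 := by
    intro i
    refine st_res s hsec hFF hA hne hSt (E.mul_mem (hgE i) (E.inv_mem (hgE j))) ?_ ?_
    · intro σ
      rw [map_mul, map_inv₀, (hg i).2 σ, (hg j).2 σ]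
    · rw [← A.valuation_le_one_iff, map_mul, map_inv₀, ← div_eq_mul_inv]
      exact (div_le_one₀ hv0).2 (hj i (Finset.mem_univ _))
  choose a ha using hres
  have haj : a j ≠ 0 := by
    intro h
    have h1 := ha j
    rw [h, map_zero, map_zero, sub_zero, mul_inv_cancel₀ hgj, map_one] at h1
    exact lt_irrefl _ h1
  set C : kb := ∑ i, c i * algebraMap F kb (a i) with hC
  have hC0 : C ≠ 0 := by
    intro h
    apply haj
    have h1 := Fintype.linearIndependent_iff.1 hind a (by
      rw [← h, hC]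
      refine Finset.sum_congr rfl fun i _ => ?_
      rw [Algebra.smul_def, mul_comm])
    exact h1 j
  have hCv := g2_const hA hC0
  have h2 : A.valuation (f * (g j)⁻¹ - algebraMap kb M C) < 1 := by
    have h3 : f * (g j)⁻¹ - algebraMap kb M C = ∑ i, algebraMap kb M (c i) *
        (g i * (g j)⁻¹ - algebraMap kb M (algebraMap F kb (a i))) := by
      rw [hC, hsum, Finset.sum_mul, map_sum, ← Finset.sum_sub_distrib]
      refine Finset.sum_congr rfl fun i _ => ?_
      rw [map_mul]
      ring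
    rw [h3]
    refine A.valuation.map_sum_lt one_ne_zero fun i _ => ?_
    rw [map_mul]
    have h4 : A.valuation (algebraMap kb M (c i)) ≤ 1 := (A.valuation_le_one_iff _).2 (hA _)
    calc A.valuation (algebraMap kb M (c i)) *
          A.valuation (g i * (g j)⁻¹ - algebraMap kb M (algebraMap F kb (a i)))
        ≤ 1 * A.valuation (g i * (g j)⁻¹ - algebraMap kb M (algebraMap F kb (a i))) :=
          mul_le_mul_left h4 _
      _ < 1 := by rw [one_mul]; exact ha i
  have h5 : A.valuation (f * (g j)⁻¹) = 1 := by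
    have h6 : f * (g j)⁻¹ = algebraMap kb M C + (f * (g j)⁻¹ - algebraMap kb M C) := by ring
    rw [h6, A.valuation.map_add_eq_of_lt_left (by rw [hCv]; exact h2), hCv]
  refine ⟨g j, hgE j, hgj, (hg j).2, ?_⟩
  rw [map_mul, map_inv₀] at h5
  exact (mul_inv_eq_one₀ hv0.ne').1 h5

end Pool.Agent.Lib.MP_2f3286_ag.Pp
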