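import Pool.Agent.Lib.MP_2f3286_ag.Pp.C2
import Pool.Agent.Lib.MP_2f3286_ag.Full.ValExt

/-!
# A place of `E(z)` above a place of `E` is determined by the value of `z`   (module G3)

PROOF of `uq`. If `z ∈ E` then `Ex E z = E`. Let `z ∉ E`. `ex_gamma` (C2): `γ`, an automorphism of `Ex E z` over `C`, `γ z = ζ z`, of order `p`, with fixed field `E`. `Full.val_trans` (Full/ValExt.lean) for the (finite, discrete) group `G = Subgroup.zpowers γ` (or `Multiplicative (ZMod p)`, acting by powers of `γ`) on `Ex E z` over `E` (the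
algebra `E → Ex E z` from `IntermediateField.inclusion le_sup_left`), `𝒲 = A ∩ Ex E z`, `𝒲' = Q ∩ Ex E z` (`ValuationSubring.comap`): `g = γ ^ i` with `x ∈ 𝒲' ↔ g x ∈ 𝒲`. `z - d` is in the maximal ideal of `𝒲'` (`Q(z - d) < 1`), so `g (z - d) = ζ ^ i z - d` is in the maximal ideal of `𝒲`: `A(ζ ^ i z - d) < 1`.
`A(ζ ^ i z - ζ ^ i d) < 1`, so the constant `(ζ ^ i - 1) d` has valuation `< 1` at `A`, so it is zero, `ζ ^ i = 1`, `g = 1` (`p ∣ i`), `𝒲' = 𝒲`.
(Alternative without groups: for `f ∈ Ex E z` all `γ ^ i f`, and the valuation rings `γ ^ i 𝒲` are the only ones above `𝒲 ∩ E`.)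
-/

open Polynomial IntermediateField

namespace Pool.Agent.Lib.MP_2f3286_ag.Pp

variable {C M : Type*} [Field C] [IsAlgClosed C] [CharZero C] [Field M] [Algebra C M]
  {E : IntermediateField C M} {p : ℕ}

omit [IsAlgClosed C] [CharZero C] in
private theorem G3_const (A : ValuationSubring M) (hA : ∀ a : C, algebraMap C M a ∈ A) {c : C}
    (hc : c ≠ 0) : A.valuation (algebraMap C M c) = 1 := by
  refine le_antisymm ((A.valuation_le_one_iff _).2 (hA c)) ?_
  have h1 : A.valuation (algebraMap C M c⁻¹) ≤ 1 := (A.valuation_le_one_iff _).2 (hA c⁻¹)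
  have h0 : algebraMap C M c ≠ 0 := by
    rw [Ne, map_eq_zero_iff _ (algebraMap C M).injective]
    exact hc
  rw [map_inv₀, map_inv₀] at h1
  have h2 : A.valuation (algebraMap C M c) ≠ 0 := (Valuation.ne_zero_iff _).2 h0
  exact (inv_le_one₀ (zero_lt_iff.2 h2)).1 h1

private theorem G3_lt {K : Type*} [Field K] (A : ValuationSubring K) (y : K) :
    A.valuation y < 1 ↔ y ∈ A ∧ (y = 0 ∨ y⁻¹ ∉ A) := by
  by_cases hy : y = 0
  · subst hy
    simp only [map_zero, zero_lt_one, true_or, and_true, true_iff]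
    exact A.zero_mem
  · have h2 : A.valuation y ≠ 0 := (Valuation.ne_zero_iff _).2 hy
    have h3 : y⁻¹ ∉ A ↔ A.valuation y < 1 := by
      rw [← A.valuation_le_one_iff, map_inv₀, not_le]
      exact one_lt_inv₀ (zero_lt_iff.2 h2)
    constructor
    · intro h
      exact ⟨(A.valuation_le_one_iff y).1 h.le, Or.inr (h3.2 h)⟩
    · rintro ⟨_, h | h⟩
      · exact absurd h hy
      · exact h3.1 h

theorem uq (hp : p.Prime) {z : M} (hz : z ^ p ∈ E) {d : C} (hd : d ≠ 0)
    (A Q : ValuationSubring M) (hA : ∀ a : C, algebraMap C M a ∈ A)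
    (hQ : ∀ a : C, algebraMap C M a ∈ Q) (hE : ∀ f ∈ E, f ∈ Q ↔ f ∈ A)
    (hzA : A.valuation (z - algebraMap C M d) < 1) (hzQ : Q.valuation (z - algebraMap C M d) < 1)
    {f : M} (hf : f ∈ Ex E z) : f ∈ Q ↔ f ∈ A := by
  by_cases hzE : z ∈ E
  · have h1 : Ex E z = E := by
      refine sup_eq_left.2 ?_
      rw [IntermediateField.adjoin_simple_le_iff]
      exact hzE
    rw [h1] at hf
    exact hE f hf
  have hp0 : (p : C) ≠ 0 := Nat.cast_ne_zero.2 hp.ne_zero
  have : NeZero (p : C) := ⟨hp0⟩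
  obtain ⟨ζ, hζ⟩ := HasEnoughRootsOfUnity.exists_primitiveRoot C p
  obtain ⟨γ, hγE, hγz, hγp, hγf⟩ := ex_gamma hp hζ hz hzE
  have hzX : z ∈ Ex E z :=
    (le_sup_right : IntermediateField.adjoin C {z} ≤ Ex E z)
      (IntermediateField.mem_adjoin_simple_self C z)
  have hEX : E ≤ Ex E z := le_sup_left
  let _ : Algebra E (Ex E z) := (IntermediateField.inclusion hEX).toRingHom.toAlgebra
  have halg : ∀ x : E, ((algebraMap E (Ex E z) x : Ex E z) : M) = (x : M) := fun x => rfl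
  have hγpow : γ ^ p = 1 := by
    ext x
    rw [AlgEquiv.coe_pow, hγp x]
    rfl
  have hord : IsOfFinOrder γ := isOfFinOrder_iff_pow_eq_one.2 ⟨p, hp.pos, hγpow⟩
  have hfin : Finite (Subgroup.zpowers γ) := finite_zpowers.2 hord
  let _ : TopologicalSpace (Subgroup.zpowers γ) := ⊥
  have : DiscreteTopology (Subgroup.zpowers γ) := ⟨rfl⟩
  have hpowE : ∀ (i : ℕ) (x : Ex E z), (x : M) ∈ E → (γ ^ i) x = x := by
    intro i x hx
    induction i with
    | zero => rfl
    | succ i ih =>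
      rw [pow_succ', AlgEquiv.mul_apply, ih]
      exact hγE x hx
  have hpowz : ∀ i : ℕ, (((γ ^ i) ⟨z, hzX⟩ : Ex E z) : M) = algebraMap C M (ζ ^ i) * z := by
    intro i
    induction i with
    | zero => simp
    | succ i ih =>
      have e1 : (γ ^ i) ⟨z, hzX⟩ = algebraMap C (Ex E z) (ζ ^ i) * ⟨z, hzX⟩ := Subtype.ext ih
      rw [pow_succ', AlgEquiv.mul_apply, e1, map_mul, AlgEquiv.commutes]
      have e2 := hγz ⟨z, hzX⟩ rfl
      show algebraMap C M (ζ ^ i) * ((γ ⟨z, hzX⟩ : Ex E z) : M) = _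
      rw [e2, pow_succ ζ i, map_mul]
      ring
  have hgrp : ∀ g : Subgroup.zpowers γ, ∃ i : ℕ, γ ^ i = g := by
    intro g
    obtain ⟨i, hi⟩ := hord.mem_powers_iff_mem_zpowers.2 g.2
    exact ⟨i, hi⟩
  obtain ⟨g, hg⟩ := Full.val_trans (E := E) (M := Ex E z) (G := Subgroup.zpowers γ)
    (fun x => isOpen_discrete _)
    (fun g x => by
      obtain ⟨i, hi⟩ := hgrp g
      show (g : Ex E z ≃ₐ[C] Ex E z) (algebraMap E (Ex E z) x) = algebraMap E (Ex E z) x
      rw [← hi]
      exact hpowE i _ x.2)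
    (fun x hx => by
      have h1 : γ x = x := hx ⟨γ, Subgroup.mem_zpowers γ⟩
      exact ⟨⟨(x : M), hγf x h1⟩, Subtype.ext rfl⟩)
    (A.comap (algebraMap (Ex E z) M)) (Q.comap (algebraMap (Ex E z) M)) (by
      ext x
      rw [ValuationSubring.mem_comap, ValuationSubring.mem_comap, ValuationSubring.mem_comap,
        ValuationSubring.mem_comap]
      exact (hE x x.2).symm)
  obtain ⟨i, hi⟩ := hgrp g
  have hg' : ∀ x : Ex E z, (x : M) ∈ Q ↔ (((γ ^ i) x : Ex E z) : M) ∈ A := by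
    intro x
    rw [hi]
    exact hg x
  have hlt : ∀ x : Ex E z, Q.valuation (x : M) < 1 → A.valuation (((γ ^ i) x : Ex E z) : M) < 1 := by
    intro x hx
    rw [G3_lt] at hx ⊢
    refine ⟨(hg' x).1 hx.1, ?_⟩
    rcases hx.2 with h | h
    · left
      have h1 : x = 0 := Subtype.ext h
      rw [h1, map_zero]
      rfl
    · right
      intro h1
      apply h
      have h2 := (hg' x⁻¹).2
      rw [map_inv₀] at h2
      exact h2 h1
  have hone : ζ ^ i = 1 := by
    by_contra hne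
    have h1 := hlt (⟨z, hzX⟩ - algebraMap C (Ex E z) d) hzQ
    rw [map_sub, AlgEquiv.commutes] at h1
    have h2 : A.valuation (algebraMap C M (ζ ^ i) * z - algebraMap C M d) < 1 := by
      rw [← hpowz i]
      exact h1
    have h3 : A.valuation (algebraMap C M (ζ ^ i) * (z - algebraMap C M d)) < 1 := by
      have hζi : ζ ^ i ≠ 0 := pow_ne_zero _ (hζ.ne_zero hp.ne_zero)
      rw [map_mul, G3_const A hA hζi, one_mul]
      exact hzA
    have h4 : A.valuation (algebraMap C M ((ζ ^ i - 1) * d)) < 1 := by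
      have e : algebraMap C M ((ζ ^ i - 1) * d) =
          (algebraMap C M (ζ ^ i) * z - algebraMap C M d) -
            algebraMap C M (ζ ^ i) * (z - algebraMap C M d) := by
        rw [map_mul, map_sub, map_one]
        ring
      rw [e]
      exact (Valuation.map_sub _ _ _).trans_lt (max_lt h2 h3)
    rw [G3_const A hA (mul_ne_zero (sub_ne_zero.2 hne) hd)] at h4
    exact lt_irrefl _ h4
  have hgi : γ ^ i = 1 := by
    obtain ⟨k, hk⟩ := (hζ.pow_eq_one_iff_dvd i).1 hone
    rw [hk, pow_mul, hγpow, one_pow]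
  have h5 := hg' ⟨f, hf⟩
  rw [hgi] at h5
  exact h5

end Pool.Agent.Lib.MP_2f3286_ag.Pp
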