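import Pool.Agent.Lib.MP_2f3286_ag.Pp.SaOf
import Pool.Agent.Lib.MP_2f3286_ag.Gl.HX
import Pool.Agent.Lib.MP_2f3286_ag.Gl.SH

/-!
# The first field: the place at infinity is stable   (module G4)

PROOF of `st_base`. `L = adjoin kb {r, q}`, `r' q' : L`, `X = (r' + ζ ^ j)⁻¹`, `Y = q' X`: `IsSup p X Y (hpol ζ p j)` by `Gl.hx_sup` (Gl/HX.lean) (`adjoin kb {r', q'} = ⊤` in `L`). `A(r + ζ ^ j) < 1` and `r + ζ ^ j ≠ 0` (`r` transcendental), so `X ∉ A`. Let `Q = A.comap (algebraMap L M)` and `Q' = (A.comap (s σ)).comap (algebraMap L M)`: both contain the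
constants (`hsec`), `X ∉ Q`, and `X ∉ Q'` as `s σ X = X` (`r` and the image of `ζ ∈ F` are fixed). `IsSup.inf_unique` (Gl/SH.lean): `Q = Q'`.
-/

open Polynomial IntermediateField

namespace Pool.Agent.Lib.MP_2f3286_ag.Pp

private theorem g4_gen {kb M : Type*} [Field kb] [Field M] [Algebra kb M] (r q : M)
    (hr : r ∈ IntermediateField.adjoin kb {r, q}) (hq : q ∈ IntermediateField.adjoin kb {r, q}) :
    IntermediateField.adjoin kb {(⟨r, hr⟩ : IntermediateField.adjoin kb {r, q}), ⟨q, hq⟩} = ⊤ := by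
  apply IntermediateField.lift_injective (IntermediateField.adjoin kb {r, q})
  rw [IntermediateField.lift_adjoin, IntermediateField.lift_top, Set.image_pair]

theorem st_base {F kb K M : Type*} [Field F] [Field kb] [Algebra F kb] [Field K] [Field M]
    [Algebra K M] [Algebra kb M] (s : Gal(kb/F) →* Gal(M/K))
    (hsec : ∀ σ a, s σ (algebraMap kb M a) = algebraMap kb M (σ a)) {p : ℕ} (hp : p.Prime)
    (h2 : p ≠ 2) {ζ : F} (hζ : IsPrimitiveRoot ζ p) {r q : M} (hr : Transcendental kb r)
    (hrq : r ^ p + 1 = q ^ p) (hrs : r ∈ Fx s) (hqs : q ∈ Fx s) (A : ValuationSubring M)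
    (hA : ∀ a : kb, algebraMap kb M a ∈ A) {j : ℕ} (hj : j < p)
    (hA1 : A.valuation (r + algebraMap kb M (algebraMap F kb ζ ^ j)) < 1) :
    St s A (IntermediateField.adjoin kb {r, q}) := by
  intro σ f hf
  have hrm : r ∈ IntermediateField.adjoin kb {r, q} :=
    IntermediateField.subset_adjoin _ _ (Set.mem_insert _ _)
  have hqm : q ∈ IntermediateField.adjoin kb {r, q} :=
    IntermediateField.subset_adjoin _ _ (Set.mem_insert_of_mem _ (Set.mem_singleton _))
  have hζ' : IsPrimitiveRoot (algebraMap F kb ζ) p :=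
    hζ.map_of_injective (algebraMap F kb).injective
  have hr' : Transcendental kb (⟨r, hrm⟩ : IntermediateField.adjoin kb {r, q}) := by
    intro h
    exact hr (h.algebraMap (A := M))
  have hrq' : (⟨r, hrm⟩ : IntermediateField.adjoin kb {r, q}) ^ p + 1 =
      (⟨q, hqm⟩ : IntermediateField.adjoin kb {r, q}) ^ p := Subtype.ext hrq
  have H := Gl.hx_sup hp h2 hζ' hj hr' hrq' (g4_gen r q hrm hqm)
  have hw0 : r + algebraMap kb M (algebraMap F kb ζ ^ j) ≠ 0 := by
    intro h
    apply hr
    rw [eq_neg_of_add_eq_zero_left h]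
    exact (isAlgebraic_algebraMap _).neg
  have hX : (r + algebraMap kb M (algebraMap F kb ζ ^ j))⁻¹ ∉ A := by
    intro h
    rw [← A.valuation_le_one_iff, map_inv₀] at h
    have h6 : A.valuation (r + algebraMap kb M (algebraMap F kb ζ ^ j)) ≠ 0 :=
      (Valuation.ne_zero_iff _).2 hw0
    exact absurd ((inv_le_one₀ (zero_lt_iff.2 h6)).1 h) (not_le.2 hA1)
  have hfix : s σ (r + algebraMap kb M (algebraMap F kb ζ ^ j))⁻¹ =
      (r + algebraMap kb M (algebraMap F kb ζ ^ j))⁻¹ := by
    rw [map_inv₀, map_add, hrs σ, hsec, map_pow, AlgEquiv.commutes]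
  have hQ := H.inf_unique hp
    (Q := A.comap (algebraMap (IntermediateField.adjoin kb {r, q}) M))
    (Q' := (A.comap ((s σ : M ≃ₐ[K] M) : M →+* M)).comap
      (algebraMap (IntermediateField.adjoin kb {r, q}) M))
    (fun a => by
      rw [ValuationSubring.mem_comap]
      exact hA a)
    (fun a => by
      rw [ValuationSubring.mem_comap, ValuationSubring.mem_comap]
      have := hA (σ a)
      rw [← hsec] at this
      exact this)
    (by
      rw [ValuationSubring.mem_comap]
      exact hX)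
    (by
      rw [ValuationSubring.mem_comap, ValuationSubring.mem_comap]
      have := hX
      rw [← hfix] at this
      exact this)
  have h7 : ((⟨f, hf⟩ : IntermediateField.adjoin kb {r, q}) ∈
      A.comap (algebraMap (IntermediateField.adjoin kb {r, q}) M)) ↔
      ((⟨f, hf⟩ : IntermediateField.adjoin kb {r, q}) ∈
      (A.comap ((s σ : M ≃ₐ[K] M) : M →+* M)).comap
      (algebraMap (IntermediateField.adjoin kb {r, q}) M)) := by rw [hQ]
  rw [ValuationSubring.mem_comap, ValuationSubring.mem_comap, ValuationSubring.mem_comap] at h7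
  exact h7.symm

end Pool.Agent.Lib.MP_2f3286_ag.Pp
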