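import Pool.Agent.Lib.MP_2f3286_ag.Pp.G2
import Pool.Agent.Lib.MP_2f3286_ag.Pp.C1

/-!
# A fixed root is a fixed element times an element with a constant value   (module G5a)

`v` the valuation of `A`. PROOF of `st_root`. `DivE` at `Q = A`: `c ∈ E`, `c ≠ 0`, `v(β ^ p) = v(c) ^ p`; `st_val` (G2) for `c`: `t ∈ E`, `t ≠ 0`, fixed, `v(t) = v(c)`. `u = β ^ p / t ^ p ∈ E`, fixed, `v(u) = 1`. `st_res` (G2) for `u`: `a : F` with `v(u - a) < 1`, so `a ≠ 0`. `z = β / t`, `z ^ p = u`. `d₀ : kb` with `d₀ ^ p = a`: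
`v((z / d₀) ^ p - 1) < 1` (`v(a) = 1`), so by `unit_res` (C1) `v(z / d₀ - ξ) < 1` with `ξ ^ p = 1`; `d = ξ d₀`.
-/

open Polynomial IntermediateField

namespace Pool.Agent.Lib.MP_2f3286_ag.Pp

theorem st_root {F kb K M : Type*} [Field F] [Field kb] [Algebra F kb] [IsGalois F kb]
    [IsAlgClosed kb] [CharZero kb] [Field K] [Field M] [Algebra K M] [Algebra kb M]
    [Algebra.IsAlgebraic K M] (s : Gal(kb/F) →* Gal(M/K)) (hs : Continuous s)
    (hsec : ∀ σ a, s σ (algebraMap kb M a) = algebraMap kb M (σ a))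
    {E : IntermediateField kb M} {A : ValuationSubring M} (hFF : FF E)
    (hE : ∀ σ, ∀ f ∈ E, s σ f ∈ E) (hA : ∀ a : kb, algebraMap kb M a ∈ A)
    (hne : ∃ f ∈ E, f ∉ A) (hSt : St s A E) {p : ℕ} (hp : p.Prime) {β : M} (hβF : β ∈ Fx s)
    (hβ : β ^ p ∈ E) (hd : DivE p E (β ^ p)) :
    ∃ (t : M) (a : F) (d : kb), t ∈ E ∧ t ≠ 0 ∧ t ∈ Fx s ∧ a ≠ 0 ∧ d ^ p = algebraMap F kb a ∧
      A.valuation (β / t - algebraMap kb M d) < 1 := by
  obtain ⟨c, hcE, hc0, hc1⟩ := hd A hA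
  obtain ⟨t, htE, ht0, htF, hct⟩ := st_val s hs hsec hFF hE hA hne hSt hcE hc0
  have hvc : A.valuation c ≠ 0 := (Valuation.ne_zero_iff _).2 hc0
  have hvt : A.valuation t ≠ 0 := (Valuation.ne_zero_iff _).2 ht0
  have hu1 : A.valuation (β ^ p / t ^ p) = 1 := by
    rw [map_div₀, map_pow A.valuation t, ← hct, ← map_pow, ← map_div₀, div_eq_mul_inv]
    exact hc1
  have huE : β ^ p / t ^ p ∈ E := div_mem hβ (pow_mem htE p)
  have huF : β ^ p / t ^ p ∈ Fx s := by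
    intro σ
    rw [map_div₀, map_pow, map_pow, hβF σ, htF σ]
  have huA : β ^ p / t ^ p ∈ A := (A.valuation_le_one_iff _).1 hu1.le
  obtain ⟨a, ha⟩ := st_res s hsec hFF hA hne hSt huE huF huA
  have ha0 : a ≠ 0 := by
    rintro rfl
    rw [map_zero, map_zero, sub_zero, hu1] at ha
    exact lt_irrefl _ ha
  have hconst : ∀ b : kb, b ≠ 0 → A.valuation (algebraMap kb M b) = 1 := by
    intro b hb
    refine le_antisymm ((A.valuation_le_one_iff _).2 (hA b)) ?_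
    have h2 : A.valuation (algebraMap kb M b⁻¹) ≤ 1 := (A.valuation_le_one_iff _).2 (hA b⁻¹)
    rw [map_inv₀, map_inv₀] at h2
    have hb' : A.valuation (algebraMap kb M b) ≠ 0 :=
      (Valuation.ne_zero_iff _).2 ((map_ne_zero (algebraMap kb M)).2 hb)
    exact (inv_le_one₀ (zero_lt_iff.2 hb')).1 h2
  have ha1 : algebraMap F kb a ≠ 0 := (map_ne_zero (algebraMap F kb)).2 ha0
  obtain ⟨d₀, hd₀⟩ := IsAlgClosed.exists_pow_nat_eq (algebraMap F kb a) hp.pos
  have hd0 : d₀ ≠ 0 := by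
    rintro rfl
    rw [zero_pow hp.ne_zero] at hd₀
    exact ha1 hd₀.symm
  have hd0' : algebraMap kb M d₀ ≠ 0 := (map_ne_zero (algebraMap kb M)).2 hd0
  have haM : algebraMap kb M (algebraMap F kb a) ≠ 0 := (map_ne_zero (algebraMap kb M)).2 ha1
  have hz : A.valuation ((β / t / algebraMap kb M d₀) ^ p - 1) < 1 := by
    have e : (β / t / algebraMap kb M d₀) ^ p - 1 =
        (β ^ p / t ^ p - algebraMap kb M (algebraMap F kb a)) /
          algebraMap kb M (algebraMap F kb a) := by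
      rw [div_pow, div_pow, ← map_pow, hd₀, sub_div, div_self haM]
    rw [e, map_div₀, hconst _ ha1, div_one]
    exact ha
  obtain ⟨ξ, hξ, hξ'⟩ := unit_res (C := kb) (M := M) hp hz
  refine ⟨t, a, ξ * d₀, htE, ht0, htF, ha0, ?_, ?_⟩
  · rw [mul_pow, hξ, one_mul, hd₀]
  · have e : β / t - algebraMap kb M (ξ * d₀) =
        (β / t / algebraMap kb M d₀ - algebraMap kb M ξ) * algebraMap kb M d₀ := by
      rw [sub_mul, div_mul_cancel₀ _ hd0', map_mul]
    rw [e, map_mul, hconst _ hd0, mul_one]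
    exact hξ'

end Pool.Agent.Lib.MP_2f3286_ag.Pp
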