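import Pool.Agent.Lib.MP_2f3286_ag.Pp.F5
import Pool.Agent.Lib.MP_2f3286_ag.Fer.GKP
import Pool.Agent.Lib.MP_2f3286_ag.PD.Loc
import Pool.Agent.Lib.MP_2f3286_bir.Place

/-!
# The value of a fixed root is in the number field   (module G5b)

We write: `𝔽 = X.P.adicCompletion F`, `v` the valuation of `A`. PROOF of `fixed_const`. `v(z - d) < 1`, so `z ∈ A` and `φ(z) = ι(d)` (`hφ`: the elements of valuation `< 1` are in the kernel of `φ`: if the inverse of `x` is not in `A` then `φ x = 0`). (1) `PV p w a` for all `w ≠ X.P`: otherwise `t3` (F5) for `c = a`, `γ = d`, `X.away w`, `X.hζ`,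
`𝒪 = A`: `δ` with `δ d ≠ d` and `v(s δ z - δ d) < 1`; `s δ z = z`, so `v(d - δ d) < 1`, a constant, so `d = δ d`, contradiction. (2) `PD.fixed_value` (PD/Loc.lean): `φ(z)` is the image of `b : 𝔽`; so `ι(a) = φ(z) ^ p` is the image of `b ^ p`, and `algebraMap F 𝔽 a = b ^ p`, `b ≠ 0`. (3) `X.kummer` (Fer/GKP.lean) for `c = a`, `γ = b⁻¹`
(`a γ ^ p - 1 = 0`): `a = d₁ ^ p`, `d₁ : F`. So `d / d₁` is a `p`-th root of unity, a power of `ζ = X.ζ ∈ F`, and `d` is the image of an element of `F`, fixed by all `σ`.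
(`CharZero kb`: `F` is a number field.)
-/

open Polynomial IntermediateField IsDedekindDomain NumberField

namespace Pool.Agent.Lib.MP_2f3286_ag.Pp

open Pool.Agent.Lib.MP_2f3286_bir (IsPlaceOf)
open Pool.Agent.Lib.MP_2f3286_ag.Fer (Stp)

theorem fixed_const {p : ℕ} {F : Type*} [Field F] [NumberField F] (X : Stp p F) {kb K M : Type*}
    [Field kb] [Algebra F kb] [IsGalois F kb] [IsAlgClosed kb] [Field K] [Field M] [Algebra K M]
    [Algebra kb M] [Algebra.IsAlgebraic K M] (s : Gal(kb/F) →* Gal(M/K)) (hs : Continuous s)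
    (hsec : ∀ σ a, s σ (algebraMap kb M a) = algebraMap kb M (σ a)) (hRad : Rad p kb M) {r q : M}
    (hr : Transcendental kb r)
    (halg : ∀ y : M, IsAlgebraic (IntermediateField.adjoin kb {r}) y)
    (hrq : r ^ p + 1 = q ^ p) (hrs : r ∈ Fx s) (hqs : q ∈ Fx s)
    (ι : kb →ₐ[F] AlgebraicClosure (X.P.adicCompletion F)) (A : ValuationSubring M)
    (φ : A →+* AlgebraicClosure (X.P.adicCompletion F))
    (hφ : IsPlaceOf s (X.P.adicCompletion F)
      (ι : _ →+* AlgebraicClosure (X.P.adicCompletion F)) A φ) {E : IntermediateField kb M}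
    (hE : Tow p (Fx s) (IntermediateField.adjoin kb {r, q}) E) (hne : ∃ f ∈ E, f ∉ A)
    (hSt : St s A E) {z : M} (hz : z ∈ Fx s) (hJ : JE p E z) {a : F} (ha : a ≠ 0) {d : kb}
    (hd : d ^ p = algebraMap F kb a) (hzd : A.valuation (z - algebraMap kb M d) < 1)
    (σ : Gal(kb/F)) : σ d = d := by
  have hp0 : p ≠ 0 := X.hp.ne_zero
  have hA : ∀ c : kb, algebraMap kb M c ∈ A := fun c => (hφ.1 c).1
  have hd0 : d ≠ 0 := by
    rintro rfl
    rw [zero_pow hp0] at hd
    exact ha ((map_eq_zero (algebraMap F kb)).1 hd.symm)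
  have hconst : ∀ c : kb, A.valuation (algebraMap kb M c) < 1 → c = 0 := by
    intro c hc
    by_contra h0
    have h1 : A.valuation (algebraMap kb M c⁻¹) ≤ 1 := (A.valuation_le_one_iff _).2 (hA _)
    have h2 : A.valuation (algebraMap kb M c) * A.valuation (algebraMap kb M c⁻¹) = 1 := by
      rw [← map_mul, ← map_mul, mul_inv_cancel₀ h0, map_one, map_one]
    have h3 : A.valuation (algebraMap kb M c) * A.valuation (algebraMap kb M c⁻¹) < 1 :=
      mul_lt_one_of_lt_of_le hc h1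
    exact absurd h2 h3.ne
  have hker : ∀ x : A, A.valuation (x : M) < 1 → φ x = 0 := by
    intro x hx
    by_contra h0
    have h1 := hφ.2.1 x h0
    have h2 : A.valuation (x : M)⁻¹ ≤ 1 := (A.valuation_le_one_iff _).2 h1
    have hx0 : (x : M) ≠ 0 := by
      intro h3
      apply h0
      have : x = 0 := Subtype.ext h3
      rw [this, map_zero]
    have h3 : A.valuation (x : M) * A.valuation (x : M)⁻¹ = 1 := by
      rw [← map_mul, mul_inv_cancel₀ hx0, map_one]
    have h4 : A.valuation (x : M) * A.valuation (x : M)⁻¹ < 1 := mul_lt_one_of_lt_of_le hx h2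
    exact absurd h3 h4.ne
  have hdA := hA d
  have hzdA : z - algebraMap kb M d ∈ A := (A.valuation_le_one_iff _).1 hzd.le
  have hzA : z ∈ A := by
    have := A.add_mem _ _ hzdA hdA
    rwa [sub_add_cancel] at this
  have hφz : φ ⟨z, hzA⟩ = ι d := by
    have h1 : φ ⟨z - algebraMap kb M d, hzdA⟩ = 0 := hker _ hzd
    have h2 : (⟨z, hzA⟩ : A) = ⟨z - algebraMap kb M d, hzdA⟩ + ⟨algebraMap kb M d, hdA⟩ :=
      Subtype.ext (by simp)
    obtain ⟨h3, h4⟩ := hφ.1 d
    rw [h2, map_add, h1, zero_add]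
    exact h4
  have hPV : ∀ w : HeightOneSpectrum (𝓞 F), w ≠ X.P → Fer.PV p w a := by
    intro w hw
    by_contra hc
    obtain ⟨δ, hδ, h⟩ := t3 s hs hsec X.hp X.h2 hRad X.hζ w (X.away w hw) ha hc hd hr halg hrq
      hrs hqs
    have h1 := h E hE A hA hne hSt z hJ d hd0 hzd
    rw [hz δ] at h1
    have h2 : A.valuation (algebraMap kb M (δ d - d)) < 1 := by
      have h3 : algebraMap kb M (δ d - d) =
          (z - algebraMap kb M d) - (z - algebraMap kb M (δ d)) := by
        rw [map_sub]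
        ring
      rw [h3]
      exact A.valuation.map_sub_lt hzd h1
    exact hδ (sub_eq_zero.1 (hconst _ h2))
  haveI : CharZero (X.P.adicCompletion F) :=
    charZero_of_injective_algebraMap (algebraMap F (X.P.adicCompletion F)).injective
  obtain ⟨b, hb⟩ := PD.fixed_value hφ hz hzA
  have hb2 : b ^ p = algebraMap F (X.P.adicCompletion F) a := by
    apply (algebraMap (X.P.adicCompletion F) (AlgebraicClosure (X.P.adicCompletion F))).injective
    rw [map_pow, ← hb, hφz, ← map_pow, hd, AlgHom.commutes]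
    exact IsScalarTower.algebraMap_apply F (X.P.adicCompletion F)
      (AlgebraicClosure (X.P.adicCompletion F)) a
  have haF : algebraMap F (X.P.adicCompletion F) a ≠ 0 := by
    rwa [Ne, map_eq_zero]
  obtain ⟨d₁, hd₁⟩ := X.kummer ha hPV (γ := b⁻¹) (by
    rw [inv_pow, hb2, mul_inv_cancel₀ haF, sub_self, map_zero]
    exact zero_le)
  have hd₁0 : d₁ ≠ 0 := by
    rintro rfl
    rw [zero_pow hp0] at hd₁
    exact ha hd₁.symm
  have hd₁kb : algebraMap F kb d₁ ≠ 0 := by rwa [Ne, map_eq_zero]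
  have hprim : IsPrimitiveRoot (algebraMap F kb X.ζ) p :=
    X.hζ.map_of_injective (algebraMap F kb).injective
  have h1 : (d / algebraMap F kb d₁) ^ p = 1 := by
    rw [div_pow, hd, ← map_pow, hd₁]
    exact div_self (by rwa [Ne, map_eq_zero])
  haveI : NeZero p := ⟨hp0⟩
  obtain ⟨i, _, hi⟩ := hprim.eq_pow_of_pow_eq_one h1
  have h2 : d = algebraMap F kb (X.ζ ^ i * d₁) := by
    rw [map_mul, map_pow, hi, div_mul_cancel₀ _ hd₁kb]
  rw [h2]
  exact AlgEquiv.commutes σ _

end Pool.Agent.Lib.MP_2f3286_ag.Pp
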