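import Pool.Agent.Lib.MP_2f3286_ag.Pp.G3
import Pool.Agent.Lib.MP_2f3286_ag.Pp.G4
import Pool.Agent.Lib.MP_2f3286_ag.Pp.G5a
import Pool.Agent.Lib.MP_2f3286_ag.Pp.G5b
import Pool.Agent.Lib.MP_2f3286_ag.Pp.BR2
import Pool.Agent.Lib.MP_2f3286_ag.Pp.G1
import Pool.Agent.Lib.MP_2f3286_ag.Pp.E8

/-!
# The place is stable on the tower   (module G5)

PROOF of `st_all`. Induction on the tower. Base: `φ (-(r ^ p)) = 1`, so `r ^ p ∈ A`, `r ∈ A`, `φ (r) ^ p = -1`, `φ r = - ι (ζ ^ j)` for some `j < p`, `ζ = X.ζ` (`p` odd: `(- φ r) ^ p = 1`; a `p`-th root of unity in an overfield of `F` is a power of the image of `ζ`), so `r + ζ ^ j ∈ A` is in the kernel of `φ`, `A(r + ζ ^ j) < 1`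
(`hφ.2.1`... : if the valuation were one, the inverse `y` would be in `A` and `φ (r + ζ ^ j) φ(y) = 1`); `st_base` (G4). `(r + ζ ^ j)⁻¹ ∈ E` is not in `A` (`r` transcendental). Step: `Tow p (Fx s) B E`, `St s A E`, `β ∈ Fx s`, `β ^ p ∈ E`, `DivE p E (β ^ p)`. `FF E` (`Tow.ff` with `hB`); `s σ` maps `E` to `E` (`Tow.pre` with
`saOf s hsec σ`, `pre_adjoin` (E8)). `st_root` (G5a): `t`, `a`, `d`, and `z = β / t` is fixed, `z ^ p = β ^ p / t ^ p ∈ E`, `JE p E z` (`n = 1`: `DivE.mul`, `DivE.inv`, `divE_pow`), `d ≠ 0`. `fixed_const` (G5b): `σ d = d` for all `σ`. `Ex E β = Ex E z` (`t ∈ E`). Let `σ` be given, `Q = A.comap (s σ)` (`f ∈ Q ↔ s σ f ∈ A`):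
`Q` contains the constants; `f ∈ E`: `f ∈ Q ↔ f ∈ A` by `St s A E`; `Q(z - d) < 1`: `s σ (z - d) = z - d` (the element is zero or its inverse is not in `A`, so not in `Q`). `uq` (G3): `f ∈ Q ↔ f ∈ A` for `f ∈ Ex E z`.
-/

open Polynomial IntermediateField IsDedekindDomain NumberField

namespace Pool.Agent.Lib.MP_2f3286_ag.Pp

open Pool.Agent.Lib.MP_2f3286_bir (IsPlaceOf)
open Pool.Agent.Lib.MP_2f3286_ag.Fer (Stp)

private theorem g5_inv {M : Type*} [Field M] (A : ValuationSubring M) {x : M} (hx0 : x ≠ 0)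
    (hx : A.valuation x < 1) : x⁻¹ ∉ A := by
  intro h1
  have h2 : A.valuation x⁻¹ ≤ 1 := (A.valuation_le_one_iff _).2 h1
  have h3 : A.valuation x * A.valuation x⁻¹ = 1 := by
    rw [← map_mul, mul_inv_cancel₀ hx0, map_one]
  have h4 : A.valuation x * A.valuation x⁻¹ < 1 := mul_lt_one_of_lt_of_le hx h2
  exact absurd h3 h4.ne

private theorem g5_lt {M : Type*} [Field M] (A : ValuationSubring M) {x : M}
    (h : x ≠ 0 → x⁻¹ ∉ A) : A.valuation x < 1 := by
  by_contra h1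
  push Not at h1
  have hx0 : x ≠ 0 := by
    rintro rfl
    rw [map_zero] at h1
    exact absurd h1 (not_le.2 zero_lt_one)
  refine h hx0 ((A.valuation_le_one_iff _).1 ?_)
  rw [map_inv₀]
  exact inv_le_one_of_one_le₀ h1

theorem st_all {p : ℕ} {F : Type*} [Field F] [NumberField F] (X : Stp p F) {kb K M : Type*}
    [Field kb] [Algebra F kb] [IsGalois F kb] [IsAlgClosed kb] [Field K] [Field M] [Algebra K M]
    [Algebra kb M] [Algebra.IsAlgebraic K M] (s : Gal(kb/F) →* Gal(M/K)) (hs : Continuous s)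
    (hsec : ∀ σ a, s σ (algebraMap kb M a) = algebraMap kb M (σ a)) (hRad : Rad p kb M) {r q : M}
    (hr : Transcendental kb r)
    (halg : ∀ y : M, IsAlgebraic (IntermediateField.adjoin kb {r}) y)
    (hB : FF (IntermediateField.adjoin kb {r, q}))
    (hrq : r ^ p + 1 = q ^ p) (hrs : r ∈ Fx s) (hqs : q ∈ Fx s)
    (ι : kb →ₐ[F] AlgebraicClosure (X.P.adicCompletion F)) (A : ValuationSubring M)
    (φ : A →+* AlgebraicClosure (X.P.adicCompletion F))
    (hφ : IsPlaceOf s (X.P.adicCompletion F)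
      (ι : _ →+* AlgebraicClosure (X.P.adicCompletion F)) A φ)
    (hφr : ∃ h : -(r ^ p) ∈ A, φ ⟨_, h⟩ = 1) {E : IntermediateField kb M}
    (hE : Tow p (Fx s) (IntermediateField.adjoin kb {r, q}) E) :
    St s A E ∧ ∃ f ∈ E, f ∉ A := by
  have hp := X.hp
  have hp0 : p ≠ 0 := hp.ne_zero
  haveI : CharZero kb := charZero_of_injective_algebraMap (algebraMap F kb).injective
  have hA : ∀ c : kb, algebraMap kb M c ∈ A := fun c => (hφ.1 c).1
  -- the base
  obtain ⟨h0, h1⟩ := hφr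
  have hrp : r ^ p ∈ A := by
    have := A.neg_mem _ h0
    rwa [neg_neg] at this
  have hrA : r ∈ A := by
    rw [← A.valuation_le_one_iff] at hrp ⊢
    rw [map_pow] at hrp
    exact (pow_le_one_iff hp0).1 hrp
  have h2 : (φ ⟨r, hrA⟩) ^ p = -1 := by
    rw [← map_pow]
    have h3 : (⟨-(r ^ p), h0⟩ : A) = -(⟨r, hrA⟩ ^ p) := Subtype.ext (by simp)
    rw [h3, map_neg] at h1
    rw [← h1, neg_neg]
  have hodd : Odd p := hp.odd_of_ne_two X.h2
  have h4 : (-(φ ⟨r, hrA⟩)) ^ p = 1 := by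
    rw [hodd.neg_pow, h2, neg_neg]
  have hprim : IsPrimitiveRoot (ι (algebraMap F kb X.ζ)) p :=
    (X.hζ.map_of_injective (algebraMap F kb).injective).map_of_injective ι.injective
  haveI : NeZero p := ⟨hp0⟩
  obtain ⟨j, hj, hj1⟩ := hprim.eq_pow_of_pow_eq_one h4
  set x0 := r + algebraMap kb M (algebraMap F kb X.ζ ^ j) with hx0
  have hx0A : x0 ∈ A := A.add_mem _ _ hrA (hA _)
  have hφx0 : φ ⟨x0, hx0A⟩ = 0 := by
    obtain ⟨h5, h6⟩ := hφ.1 (algebraMap F kb X.ζ ^ j)
    have h7 : (⟨x0, hx0A⟩ : A) = ⟨r, hrA⟩ + ⟨_, h5⟩ := Subtype.ext rfl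
    rw [h7, map_add, h6]
    have h8 : (ι : kb →+* AlgebraicClosure (X.P.adicCompletion F)) (algebraMap F kb X.ζ ^ j) =
        ι (algebraMap F kb X.ζ) ^ j := by
      rw [map_pow]
      rfl
    rw [h8, hj1, add_neg_cancel]
  have hx0ne : x0 ≠ 0 := by
    intro h5
    apply hr
    have h6 : r = algebraMap kb M (-(algebraMap F kb X.ζ ^ j)) := by
      rw [map_neg]
      exact eq_neg_of_add_eq_zero_left h5
    rw [h6]
    exact isAlgebraic_algebraMap _
  have hx0v : A.valuation x0 < 1 := by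
    refine g5_lt A fun _ h5 => ?_
    have h6 : (⟨x0, hx0A⟩ : A) * ⟨x0⁻¹, h5⟩ = 1 := Subtype.ext (mul_inv_cancel₀ hx0ne)
    have h7 : φ ⟨x0, hx0A⟩ * φ ⟨x0⁻¹, h5⟩ = 1 := by
      rw [← map_mul, h6, map_one]
    rw [hφx0, zero_mul] at h7
    exact zero_ne_one h7
  have hbase : St s A (IntermediateField.adjoin kb {r, q}) :=
    st_base s hsec hp X.h2 X.hζ hr hrq hrs hqs A hA hj hx0v
  have hneB : ∃ f ∈ IntermediateField.adjoin kb {r, q}, f ∉ A := by
    refine ⟨x0⁻¹, ?_, g5_inv A hx0ne hx0v⟩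
    refine inv_mem (add_mem ?_ (IntermediateField.algebraMap_mem _ _))
    exact IntermediateField.subset_adjoin _ _ (by simp)
  have hneE : ∀ E, Tow p (Fx s) (IntermediateField.adjoin kb {r, q}) E → ∃ f ∈ E, f ∉ A := by
    intro E hE
    obtain ⟨f, hf, hfA⟩ := hneB
    exact ⟨f, hE.le hf, hfA⟩
  refine ⟨?_, hneE E hE⟩
  induction hE with
  | base => exact hbase
  | step E β hE hP hβ hd ih =>
    have hFF : FF E := hE.ff hp hB
    have hpre : ∀ σ, Pre (saOf s hsec σ) E := fun σ =>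
      Tow.pre (saOf s hsec σ) (pre_adjoin _ (hrs σ) (hqs σ)) (fun b (hb : b ∈ Fx s) => hb σ) hE
    have hEs : ∀ σ, ∀ f ∈ E, s σ f ∈ E := fun σ f hf => (hpre σ f).2 hf
    have hne := hneE E hE
    obtain ⟨t, a, d, ht, ht0, htF, ha, hda, hv⟩ :=
      st_root s hs hsec hFF hEs hA hne ih hp hP hβ hd
    set z := β / t with hz
    have hzF : z ∈ Fx s := by
      intro σ
      rw [hz, map_div₀, hP σ, htF σ]
    have hzp : z ^ p ∈ E := by
      rw [hz, div_pow]
      exact div_mem hβ (pow_mem ht p)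
    have hdz : DivE p E (z ^ p) := by
      rw [hz, div_pow, div_eq_mul_inv]
      exact hd.mul (divE_pow ht ht0).inv
    have hz0 : z ≠ 0 := by
      intro h5
      have := hdz.ne_zero
      rw [h5, zero_pow hp0] at this
      exact this rfl
    have hJ : JE p E z := by
      refine ⟨hz0, 1, ?_, ?_⟩
      · rw [pow_one]
        exact hzp
      · rw [pow_one]
        exact hdz
    have hd0 : d ≠ 0 := by
      rintro rfl
      rw [zero_pow hp0] at hda
      exact ha ((map_eq_zero (algebraMap F kb)).1 hda.symm)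
    have hfc := fixed_const X s hs hsec hRad hr halg hrq hrs hqs ι A φ hφ hE hne ih hzF hJ ha hda hv
    have hβz : β = z * t := by
      rw [hz, div_mul_cancel₀ _ ht0]
    have hEx : Ex E β = Ex E z := by
      apply le_antisymm
      · refine sup_le le_sup_left ?_
        rw [IntermediateField.adjoin_simple_le_iff, hβz]
        exact mul_mem ((le_sup_right : IntermediateField.adjoin kb {z} ≤ Ex E z)
          (IntermediateField.mem_adjoin_simple_self kb z)) ((le_sup_left : E ≤ Ex E z) ht)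
      · refine sup_le le_sup_left ?_
        rw [IntermediateField.adjoin_simple_le_iff, hz]
        exact div_mem ((le_sup_right : IntermediateField.adjoin kb {β} ≤ Ex E β)
          (IntermediateField.mem_adjoin_simple_self kb β)) ((le_sup_left : E ≤ Ex E β) ht)
    intro σ f hf
    rw [hEx] at hf
    set Q : ValuationSubring M := A.comap ((s σ : M ≃ₐ[K] M) : M →+* M) with hQ
    have hQm : ∀ y : M, y ∈ Q ↔ s σ y ∈ A := fun y => Iff.rfl
    have hQc : ∀ c : kb, algebraMap kb M c ∈ Q := by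
      intro c
      rw [hQm, hsec]
      exact hA _
    have hzQ : Q.valuation (z - algebraMap kb M d) < 1 := by
      refine g5_lt Q fun h5 h6 => ?_
      rw [hQm, map_inv₀, map_sub, hzF σ, hsec, hfc σ] at h6
      exact g5_inv A h5 hv h6
    exact uq hp hzp hd0 A Q hA hQc (fun y hy => ih σ y hy) hv hzQ hf

end Pool.Agent.Lib.MP_2f3286_ag.Pp
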