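import Pool.Agent.Lib.MP_2f3286_ag.Pp.Defs

/-!
# The automorphisms of a section; towers of unramified extensions
-/

open Polynomial IntermediateField

namespace Pool.Agent.Lib.MP_2f3286_ag.Pp

/-- `s σ` as an automorphism of `M` which preserves the constants -/
def saOf {F kb K M : Type*} [Field F] [Field kb] [Algebra F kb] [Field K] [Field M] [Algebra K M]
    [Algebra kb M] (s : Gal(kb/F) →* Gal(M/K))
    (hsec : ∀ σ a, s σ (algebraMap kb M a) = algebraMap kb M (σ a)) (σ : Gal(kb/F)) : SA kb M where
  g := ((s σ : M ≃ₐ[K] M) : M ≃+* M)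
  gC := ((σ : kb ≃ₐ[F] kb) : kb ≃+* kb)
  hC := fun c => hsec σ c

section
variable {F kb K M : Type*} [Field F] [Field kb] [Algebra F kb] [Field K] [Field M] [Algebra K M]
  [Algebra kb M] (s : Gal(kb/F) →* Gal(M/K))
  (hsec : ∀ σ a, s σ (algebraMap kb M a) = algebraMap kb M (σ a)) (σ : Gal(kb/F))

theorem saOf_g (z : M) : (saOf s hsec σ).g z = s σ z := rfl

theorem saOf_gC (c : kb) : (saOf s hsec σ).gC c = σ c := rfl

theorem saOf_coe : (⇑(saOf s hsec σ).g : M → M) = s σ := rfl

theorem saOf_coeC : (⇑(saOf s hsec σ).gC : kb → kb) = σ := rfl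

end

/-- the elements fixed by all `s σ` -/
def Fx {F kb K M : Type*} [Field F] [Field kb] [Algebra F kb] [Field K] [Field M] [Algebra K M]
    (s : Gal(kb/F) →* Gal(M/K)) : Set M := {β | ∀ σ, s σ β = β}

/-- the subfields which are generated over `B` by successive `p`-th roots, in `P`, of elements with
divisible orders -/
inductive Tow {C M : Type*} [Field C] [Field M] [Algebra C M] (p : ℕ) (P : Set M)
    (B : IntermediateField C M) : IntermediateField C M → Prop
  | base : Tow p P B B
  | step (E : IntermediateField C M) (β : M) (hE : Tow p P B E) (hP : β ∈ P) (hβ : β ^ p ∈ E)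
      (hd : DivE p E (β ^ p)) : Tow p P B (Ex E β)

/-- `N` contains the `p`-th roots of its elements whose orders, as elements of `N`, are divisible
by `p`. -/
def Cl {C M : Type*} [Field C] [Field M] [Algebra C M] (p : ℕ) (N : IntermediateField C M) : Prop :=
  ∀ f : M, f ^ p ∈ N → DivE p N (f ^ p) → f ∈ N

/-- All automorphisms `s σ` preserve the trace of `A` on `E`. -/
def St {F kb K M : Type*} [Field F] [Field kb] [Algebra F kb] [Field K] [Field M] [Algebra K M]
    [Algebra kb M] (s : Gal(kb/F) →* Gal(M/K)) (A : ValuationSubring M)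
    (E : IntermediateField kb M) : Prop :=
  ∀ σ, ∀ f ∈ E, s σ f ∈ A ↔ f ∈ A

/-- The action of `s` on the elements of `E` with divisible orders, modulo `p`-th powers, has orders
which are powers of `p`. -/
def PG {F kb K M : Type*} [Field F] [Field kb] [Algebra F kb] [Field K] [Field M] [Algebra K M]
    [Algebra kb M] (p : ℕ) (s : Gal(kb/F) →* Gal(M/K)) (E : IntermediateField kb M) : Prop :=
  ∀ f ∈ E, DivE p E f → ∀ σ, ∃ n : ℕ, ∃ u ∈ E, (s σ)^[p ^ n] f = f * u ^ p

end Pool.Agent.Lib.MP_2f3286_ag.Pp
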