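import Pool.Agent.Lib.MP_2f3286_ag.Pp.FIL
import Pool.Agent.Lib.MP_2f3286_ag.Pp.SaOf
import Pool.Agent.Lib.MP_2f3286_ag.Pp.BR2
import Pool.Agent.Lib.MP_2f3286_ag.Gl.HX
import Pool.Agent.Lib.MP_2f3286_ag.Gl.SG
import Pool.Agent.Lib.MP_2f3286_ag.Gl.SI
import Pool.Agent.Lib.MP_2f3286_ag.Gl.SB
import Pool.Agent.Lib.MP_2f3286_ag.Full.WVal

/-!
# The action on the classes with divisible orders: the first field   (module G6)

`B = adjoin kb {r, q}`, `X = (r + 1)⁻¹`, `Y = q X`, `h = hpol ζ p 0` with `ζ` the image of `ζ : F` in `kb`; `IsSup p X Y h` as elements of the field `B` (`Gl.hx_sup` with `l = 0`; `gen`: `adjoin kb {r, q} = ⊤` in `B`). All `s σ` preserve `B` (they fix `r`, `q`) and fix `X`, `Y`.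
PROOF of `pg_poly`. `P = c ∏ (X - α) ^ (m_α)` over the roots (`kb` algebraically closed), `m_α = rootMultiplicity α P`. If `h(α) ≠ 0` then `p ∣ m_α` (`IsSup.ratDiv`, Gl/SG.lean, `DivAt` from `DivE` by `divE_iff`). If `h(α) = 0` then `α` is the image of an element of `F` (`hpol_root`), so `σ α = α`. So `P = c P₁ P₂ ^ p` with `P₁` a product
of factors `X - α`, `h(α) = 0`, and `c ≠ 0`; `s σ (P(X)) = σ(c) P₁(X) (s σ (P₂(X))) ^ p`; `σ(c) / c = c' ^ p`, `c' : kb`; `u = c' s σ (P₂(X)) / P₂(X) ∈ B`.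
PROOF of `pg_base`. `fil` for `G = Bˣ` (units of the field `B`) or `G = Mˣ`, `A = {f ∈ B | f ≠ 0, DivE p B f}`, `N = {u ^ p | u ∈ B, u ≠ 0}`, `η` the automorphism of `B` with `η X = X`, `η Y = ζ Y` (`IsSup.exists_eta`, Gl/SB.lean; `η ^ p = 1`), `τ = s σ` (restricted to `B`; with `G = Bˣ`). `η` preserves `A`: `DivE p B f` means
`DivAt p f` at all places of `B` (`divE_iff`, BR1), and `η` permutes the places (`Q.comap η`). `τ` preserves `A`: `DivE.map` (`saOf`). `η τ = τ η` on `B`: both sides agree on the constants (`η` is the identity on the constants) and on `X`, `Y` (`s σ` fixes the image of `ζ : F`), so on `B` (a field generated by them: the set of the `f`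
with `η (τ f) = τ (η f)` is a subfield). `hfix`: `η f / f = g ^ p`, `f ∈ A`: `f = η f * (g⁻¹) ^ p`, `IsSup.gt` (Gl/SI.lean): `f = P(X) u ^ p`, so `DivE p B (P(X))` and by `pg_poly` `τ (P(X)) = P(X) u' ^ p`, so `τ f / f` is a `p`-th power: `n = 0`.
-/

open Polynomial IntermediateField

namespace Pool.Agent.Lib.MP_2f3286_ag.Pp

section

variable {F kb K M : Type*} [Field F] [Field kb] [Algebra F kb] [Field K] [Field M] [Algebra K M]
  [Algebra kb M]

private theorem G6_pres (s : Gal(kb/F) →* Gal(M/K))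
    (hsec : ∀ σ a, s σ (algebraMap kb M a) = algebraMap kb M (σ a)) {r q : M} (hrs : r ∈ Fx s)
    (hqs : q ∈ Fx s) (σ : Gal(kb/F)) {f : M} (hf : f ∈ IntermediateField.adjoin kb {r, q}) :
    s σ f ∈ IntermediateField.adjoin kb {r, q} := by
  induction hf using IntermediateField.adjoin_induction with
  | mem z hz =>
    rcases hz with rfl | hz
    · rw [hrs σ]
      exact IntermediateField.subset_adjoin _ _ (Set.mem_insert _ _)
    · rw [Set.mem_singleton_iff] at hz
      subst hz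
      rw [hqs σ]
      exact IntermediateField.subset_adjoin _ _ (Set.mem_insert_of_mem _ rfl)
  | algebraMap c =>
    rw [hsec]
    exact IntermediateField.algebraMap_mem _ _
  | add a b _ _ ha hb =>
    rw [map_add]
    exact add_mem ha hb
  | inv a _ ha =>
    rw [map_inv₀]
    exact inv_mem ha
  | mul a b _ _ ha hb =>
    rw [map_mul]
    exact mul_mem ha hb

private theorem G6_sup {p : ℕ} (hp : p.Prime) (h2 : p ≠ 2) {ζ : F} (hζ : IsPrimitiveRoot ζ p)
    {r q : M} (hr : Transcendental kb r) (hrq : r ^ p + 1 = q ^ p) :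
    ∃ X Y : IntermediateField.adjoin kb {r, q}, (X : M) = (r + 1)⁻¹ ∧ (Y : M) = q * (r + 1)⁻¹ ∧
      Gl.IsSup p X Y (Gl.hpol (algebraMap F kb ζ) p 0) := by
  have hrB : r ∈ IntermediateField.adjoin kb {r, q} :=
    IntermediateField.subset_adjoin _ _ (Set.mem_insert _ _)
  have hqB : q ∈ IntermediateField.adjoin kb {r, q} :=
    IntermediateField.subset_adjoin _ _ (Set.mem_insert_of_mem _ rfl)
  have hr' : Transcendental kb (⟨r, hrB⟩ : IntermediateField.adjoin kb {r, q}) := by
    intro h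
    exact hr (h.algebraMap (A := M))
  have hrq' : (⟨r, hrB⟩ : IntermediateField.adjoin kb {r, q}) ^ p + 1
      = (⟨q, hqB⟩ : IntermediateField.adjoin kb {r, q}) ^ p := Subtype.ext hrq
  have gen : IntermediateField.adjoin kb
      {(⟨r, hrB⟩ : IntermediateField.adjoin kb {r, q}), ⟨q, hqB⟩} = ⊤ := by
    apply IntermediateField.lift_injective
    rw [IntermediateField.lift_adjoin, IntermediateField.lift_top, Set.image_insert_eq,
      Set.image_singleton]
  have H := Gl.hx_sup hp h2 (C := kb) (hζ.map_of_injective (algebraMap F kb).injective) hp.pos hr'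
    hrq' gen
  refine ⟨_, _, ?_, ?_, H⟩
  · simp
  · simp

end

variable {F kb K M : Type*} [Field F] [Field kb] [Algebra F kb] [IsAlgClosed kb] [CharZero kb]
  [Field K] [Field M] [Algebra K M] [Algebra kb M] (s : Gal(kb/F) →* Gal(M/K))
  (hsec : ∀ σ a, s σ (algebraMap kb M a) = algebraMap kb M (σ a)) {p : ℕ} (hp : p.Prime)
  (h2 : p ≠ 2) {ζ : F} (hζ : IsPrimitiveRoot ζ p) {r q : M} (hr : Transcendental kb r)
  (hrq : r ^ p + 1 = q ^ p) (hrs : r ∈ Fx s) (hqs : q ∈ Fx s)

include hsec hp h2 hζ hr hrq hrs hqs in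
theorem pg_poly {P : kb[X]} (hP : P ≠ 0)
    (hd : DivE p (IntermediateField.adjoin kb {r, q}) (aeval (r + 1)⁻¹ P)) (σ : Gal(kb/F)) :
    ∃ u ∈ IntermediateField.adjoin kb {r, q},
      s σ (aeval (r + 1)⁻¹ P) = aeval (r + 1)⁻¹ P * u ^ p := by
  classical
  obtain ⟨X', Y', hX, hY, H⟩ := G6_sup hp h2 hζ hr hrq
  set x : M := (r + 1)⁻¹ with hx
  have hxs : s σ x = x := by
    rw [hx, map_inv₀, map_add, map_one, hrs σ]
  have hxB : x ∈ IntermediateField.adjoin kb {r, q} := hX ▸ X'.2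
  have hxtr : Transcendental kb x := by
    intro h
    apply H.tr
    rw [← hX] at h
    exact (isAlgebraic_algebraMap_iff
      (algebraMap (IntermediateField.adjoin kb {r, q}) M).injective).1 h
  have haev : ((aeval X' P : IntermediateField.adjoin kb {r, q}) : M) = aeval x P := by
    rw [← hX]
    exact (Polynomial.aeval_algebraMap_apply M X' P).symm
  have hdiv : ∀ Q : ValuationSubring (IntermediateField.adjoin kb {r, q}), Pt.IsPlc kb Q →
      Pt.DivAt p (aeval X' P) Q := by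
    rw [← haev] at hd
    have hne : aeval X' P ≠ 0 := fun h0 => hP ((transcendental_iff.1 H.tr) P h0)
    exact (divE_iff hne).1 hd
  have hζ' := hζ.map_of_injective (algebraMap F kb).injective
  have hm : ∀ α : kb, σ α ≠ α → p ∣ P.rootMultiplicity α := by
    intro α hα
    refine H.ratDiv hp (Nat.cast_ne_zero.2 hp.ne_zero) hP (fun Q hQ _ => hdiv Q hQ) ?_
    intro h0
    obtain ⟨m, hm, hm0, rfl⟩ := (Gl.hpol_root hp hζ' hp.pos).1 h0
    apply hα
    rw [← map_pow, ← map_pow, ← map_sub, ← map_inv₀, ← map_neg, AlgEquiv.commutes]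
  have hlc : P.leadingCoeff ≠ 0 := leadingCoeff_ne_zero.2 hP
  have hsplit : P = Polynomial.C P.leadingCoeff *
      ∏ α ∈ P.roots.toFinset, (X - Polynomial.C α) ^ P.rootMultiplicity α := by
    have h1 := (IsAlgClosed.splits P).eq_prod_roots
    rw [Finset.prod_multiset_map_count] at h1
    simpa only [count_roots] using h1
  obtain ⟨c', hc'⟩ : ∃ c' : kb, c' ^ p = σ P.leadingCoeff / P.leadingCoeff :=
    IsAlgClosed.exists_pow_nat_eq _ hp.pos
  set v : kb → M := fun α => if σ α = α then 1 else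
    ((x - algebraMap kb M (σ α)) / (x - algebraMap kb M α)) ^ (P.rootMultiplicity α / p) with hv
  have hne : ∀ α : kb, x - algebraMap kb M α ≠ 0 := by
    intro α h0
    apply hxtr
    rw [sub_eq_zero.1 h0]
    exact isAlgebraic_algebraMap α
  refine ⟨algebraMap kb M c' * ∏ α ∈ P.roots.toFinset, v α, ?_, ?_⟩
  · refine mul_mem (IntermediateField.algebraMap_mem _ _) (prod_mem fun α _ => ?_)
    simp only [hv]
    split_ifs
    · exact one_mem _
    · exact pow_mem (div_mem (sub_mem hxB (IntermediateField.algebraMap_mem _ _))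
        (sub_mem hxB (IntermediateField.algebraMap_mem _ _))) _
  · have e1 : aeval x P = algebraMap kb M P.leadingCoeff *
        ∏ α ∈ P.roots.toFinset, (x - algebraMap kb M α) ^ P.rootMultiplicity α := by
      conv_lhs => rw [hsplit]
      simp [map_prod]
    have e2 : s σ (aeval x P) = algebraMap kb M (σ P.leadingCoeff) *
        ∏ α ∈ P.roots.toFinset, (x - algebraMap kb M (σ α)) ^ P.rootMultiplicity α := by
      rw [e1, map_mul, hsec, map_prod]
      congr 1
      refine Finset.prod_congr rfl fun α _ => ?_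
      rw [map_pow, map_sub, hxs, hsec]
    have e3 : ∀ α, (x - algebraMap kb M (σ α)) ^ P.rootMultiplicity α =
        (x - algebraMap kb M α) ^ P.rootMultiplicity α * v α ^ p := by
      intro α
      by_cases h : σ α = α
      · simp [hv, h]
      · obtain ⟨k, hk⟩ := hm α h
        have hk' : P.rootMultiplicity α / p = k := by
          rw [hk]
          exact Nat.mul_div_cancel_left k hp.pos
        simp only [hv, if_neg h, hk']
        rw [hk, div_pow, div_pow, ← pow_mul, ← pow_mul, mul_comm k p, mul_div_cancel₀]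
        exact pow_ne_zero _ (hne α)
    have hlc' : algebraMap kb M P.leadingCoeff ≠ 0 := by
      rw [Ne, map_eq_zero]
      exact hlc
    rw [e2, e1, mul_pow, ← Finset.prod_pow, ← map_pow, hc', map_div₀,
      Finset.prod_congr rfl fun α _ => e3 α, Finset.prod_mul_distrib]
    field_simp

include hsec hp in
private theorem G6_core (B : IntermediateField kb M)
    (hpres : ∀ σ : Gal(kb/F), ∀ f ∈ B, s σ f ∈ B) {ζ' : kb} (hζ' : IsPrimitiveRoot ζ' p)
    (hζs : ∀ σ : Gal(kb/F), σ ζ' = ζ') {X' Y' : B} {h : kb[X]} (H : Gl.IsSup p X' Y' h)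
    (hXs : ∀ σ, s σ (X' : M) = X') (hYs : ∀ σ, s σ (Y' : M) = Y')
    (hpoly : ∀ P : kb[X], P ≠ 0 → DivE p B (aeval (X' : M) P) → ∀ σ, ∃ u ∈ B,
      s σ (aeval (X' : M) P) = aeval (X' : M) P * u ^ p) : PG p s B := by
  intro f hf hd σ
  obtain ⟨η, hηx, hηy, hηp⟩ := H.exists_eta hp hζ'
  have hPre : Pre (saOf s hsec σ) B := by
    intro f
    refine ⟨fun h => ?_, fun h => hpres σ f h⟩
    have h1 := hpres σ⁻¹ _ h
    rw [saOf_g, ← AlgEquiv.mul_apply, ← map_mul, inv_mul_cancel, map_one, AlgEquiv.one_apply] at h1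
    exact h1
  set τ₀ : B →+* B := RingHom.restrict ((s σ : M ≃ₐ[K] M) : M →+* M) B B
    (fun x hx => hpres σ x hx) with hτ₀def
  have hτ₀ : ∀ b : B, ((τ₀ b : B) : M) = s σ (b : M) := fun b => rfl
  have hτit : ∀ (n : ℕ) (b : B), ((τ₀^[n] b : B) : M) = (s σ)^[n] (b : M) := by
    intro n
    induction n with
    | zero => intro b; rfl
    | succ n ih =>
      intro b
      rw [Function.iterate_succ_apply, Function.iterate_succ_apply, ih, hτ₀]
  have hτx : τ₀ X' = X' := by
    apply Subtype.ext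
    rw [hτ₀, hXs]
  have hτy : τ₀ Y' = Y' := by
    apply Subtype.ext
    rw [hτ₀, hYs]
  have hτc : ∀ c : kb, τ₀ (algebraMap kb B c) = algebraMap kb B (σ c) := by
    intro c
    apply Subtype.ext
    exact hsec σ c
  have hcomm : ∀ b : B, η (τ₀ b) = τ₀ (η b) := by
    intro b
    have hb : b ∈ IntermediateField.adjoin kb {X', Y'} := by
      rw [H.gen]
      trivial
    induction hb using IntermediateField.adjoin_induction with
    | mem z hz =>
      rcases hz with rfl | hz
      · rw [hτx, hηx, hτx]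
      · rw [Set.mem_singleton_iff] at hz
        subst hz
        rw [hτy, hηy, map_mul, hτy, hτc, hζs]
    | algebraMap c => rw [hτc, AlgEquiv.commutes, AlgEquiv.commutes, hτc]
    | add a b _ _ ha hb => rw [map_add, map_add, ha, hb, map_add, map_add]
    | inv a _ ha => rw [map_inv₀, map_inv₀, ha, map_inv₀, map_inv₀]
    | mul a b _ _ ha hb => rw [map_mul, map_mul, ha, hb, map_mul, map_mul]
  -- the subgroups
  let A : Subgroup Bˣ :=
    { carrier := {u | DivE p B ((u : B) : M)}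
      mul_mem' := by
        intro a b ha hb
        change DivE p B (((a * b : Bˣ) : B) : M)
        rw [Units.val_mul]
        exact DivE.mul ha hb
      one_mem' := by
        change DivE p B (((1 : Bˣ) : B) : M)
        have h1 := divE_const (C := kb) (M := M) (E := B) (m := p) (c := 1) one_ne_zero
        rw [map_one] at h1
        exact h1
      inv_mem' := by
        intro a ha
        change DivE p B (((a⁻¹ : Bˣ) : B) : M)
        rw [Units.val_inv_eq_inv_val]
        exact DivE.inv ha }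
  have hAmem : ∀ u : Bˣ, u ∈ A ↔ DivE p B ((u : B) : M) := fun u => Iff.rfl
  let N : Subgroup Bˣ := (powMonoidHom p : Bˣ →* Bˣ).range
  have hNmem : ∀ u : Bˣ, u ∈ N ↔ ∃ w : Bˣ, w ^ p = u := fun u => Iff.rfl
  have hpN : ∀ a ∈ A, a ^ p ∈ N := fun a _ => (hNmem _).2 ⟨a, rfl⟩
  have hNA : N ≤ A := by
    intro u hu
    obtain ⟨w, rfl⟩ := (hNmem u).1 hu
    rw [hAmem]
    have h1 : (((w ^ p : Bˣ) : B) : M) = ((w : B) : M) ^ p := by
      rw [Units.val_pow_eq_pow_val]
      rfl
    rw [h1]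
    exact divE_pow (w : B).2 (fun h0 => w.ne_zero (Subtype.ext h0))
  have hcoe : ∀ u : Bˣ, ((u : B) : M) ≠ 0 := fun u h0 => u.ne_zero (Subtype.ext h0)
  set ηU : Bˣ →* Bˣ := Units.map ((η : B →+* B) : B →* B) with hηU
  set τU : Bˣ →* Bˣ := Units.map ((τ₀ : B →+* B) : B →* B) with hτU
  have hηv : ∀ u : Bˣ, ((ηU u : Bˣ) : B) = η (u : B) := fun u => rfl
  have hτv : ∀ u : Bˣ, ((τU u : Bˣ) : B) = τ₀ (u : B) := fun u => rfl
  have hηN : ∀ a ∈ N, ηU a ∈ N := by
    intro a ha
    obtain ⟨w, rfl⟩ := (hNmem a).1 ha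
    exact (hNmem _).2 ⟨ηU w, (map_pow ηU w p).symm⟩
  have hτN : ∀ a ∈ N, τU a ∈ N := by
    intro a ha
    obtain ⟨w, rfl⟩ := (hNmem a).1 ha
    exact (hNmem _).2 ⟨τU w, (map_pow τU w p).symm⟩
  have hτA : ∀ a ∈ A, τU a ∈ A := by
    intro a ha
    have h1 := DivE.map (saOf s hsec σ) hPre ((hAmem a).1 ha)
    exact h1
  have hηA : ∀ a ∈ A, ηU a ∈ A := by
    intro a ha
    rw [hAmem] at ha ⊢
    have ha' := (divE_iff (a.ne_zero)).1 ha
    refine (divE_iff (ηU a).ne_zero).2 fun Q hQ => ?_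
    have hpl : Pt.IsPlc kb (Q.comap (η : B →+* B)) := by
      refine ⟨fun c => ?_, ?_⟩
      · rw [ValuationSubring.mem_comap]
        change η (algebraMap kb B c) ∈ Q
        rw [AlgEquiv.commutes]
        exact hQ.1 c
      · intro h0
        apply hQ.2
        ext b
        have h1 : η.symm b ∈ Q.comap (η : B →+* B) := by
          rw [h0]
          trivial
        rw [ValuationSubring.mem_comap] at h1
        change η (η.symm b) ∈ Q at h1
        rw [AlgEquiv.apply_symm_apply] at h1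
        exact ⟨fun _ => trivial, fun _ => h1⟩
    obtain ⟨c, hc, hcv⟩ := ha' _ hpl
    refine ⟨η c, by rw [Ne, map_eq_zero_iff η η.injective]; exact hc, ?_⟩
    rw [Full.val_comap_eq_one] at hcv
    have e : (η : B →+* B) ((a : B) * (c ^ p)⁻¹) = η (a : B) * ((η c) ^ p)⁻¹ := by
      change η ((a : B) * (c ^ p)⁻¹) = _
      rw [map_mul, map_inv₀, map_pow]
    rw [e] at hcv
    exact hcv
  have hfix : ∀ a ∈ A, ηU a / a ∈ N → ∃ n : ℕ, τU^[p ^ n] a / a ∈ N := by
    intro a ha hN
    obtain ⟨g, hg⟩ := (hNmem _).1 hN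
    have hg1 : ηU a = a * g ^ p := by
      rw [hg, mul_div_cancel]
    have hg2 : (a : B) = η (a : B) * (((g⁻¹ : Bˣ) : B)) ^ p := by
      rw [← hηv, hg1, Units.val_mul, Units.val_pow_eq_pow_val, Units.val_inv_eq_inv_val, inv_pow,
        mul_assoc, mul_inv_cancel₀ (pow_ne_zero _ g.ne_zero), mul_one]
    obtain ⟨P, u, hP, hu, hPu⟩ := H.gt hp hζ' hηx hηy a.ne_zero ((divE_iff a.ne_zero).1 ha) hg2
    have haev : ((aeval X' P : B) : M) = aeval (X' : M) P :=
      (Polynomial.aeval_algebraMap_apply M X' P).symm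
    have huM : (u : M) ≠ 0 := fun h0 => hu (Subtype.ext h0)
    have hPd : DivE p B (aeval (X' : M) P) := by
      have h1 : aeval (X' : M) P = ((a : B) : M) * ((u : M)⁻¹) ^ p := by
        rw [← haev, hPu]
        change _ = ((aeval X' P : B) : M) * (u : M) ^ p * ((u : M)⁻¹) ^ p
        rw [inv_pow, mul_assoc, mul_inv_cancel₀ (pow_ne_zero _ huM), mul_one]
      rw [h1]
      exact DivE.mul ha (divE_pow (inv_mem u.2) (inv_ne_zero huM))
    obtain ⟨w, hwB, hw⟩ := hpoly P hP hPd σ
    have hxP : aeval (X' : M) P ≠ 0 := hPd.ne_zero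
    have hw0 : w ≠ 0 := by
      rintro rfl
      rw [zero_pow hp.ne_zero, mul_zero] at hw
      exact hxP ((map_eq_zero_iff (s σ) (s σ).injective).1 hw)
    refine ⟨0, ?_⟩
    rw [pow_zero, Function.iterate_one]
    have hτu : τ₀ u ≠ 0 := by
      rw [Ne, map_eq_zero]
      exact hu
    have hwB0 : (⟨w, hwB⟩ : B) ≠ 0 := fun h0 => hw0 (congrArg Subtype.val h0)
    refine (hNmem _).2 ⟨Units.mk0 ((⟨w, hwB⟩ : B) * (τ₀ u / u)) (mul_ne_zero hwB0
      (div_ne_zero hτu hu)), ?_⟩
    rw [eq_div_iff_mul_eq']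
    apply Units.ext
    rw [Units.val_mul, Units.val_pow_eq_pow_val, Units.val_mk0, hτv]
    have e1 : τ₀ (aeval X' P) = aeval X' P * (⟨w, hwB⟩ : B) ^ p := by
      apply Subtype.ext
      rw [hτ₀, haev, hw, ← haev]
      rfl
    rw [hPu, map_mul, map_pow, e1, mul_pow, div_pow]
    have hup := pow_ne_zero p hu
    field_simp
  have hηp' : ∀ a ∈ A, ηU^[p] a = a := by
    intro a _
    have h1 : ∀ n : ℕ, ((ηU^[n] a : Bˣ) : B) = (η ^ n) (a : B) := by
      intro n
      induction n with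
      | zero => rfl
      | succ n ih =>
        rw [Function.iterate_succ_apply', hηv, ih, pow_succ', AlgEquiv.mul_apply]
    apply Units.ext
    exact (h1 p).trans (hηp _)
  have hf0 : f ≠ 0 := hd.ne_zero
  have hfB0 : (⟨f, hf⟩ : B) ≠ 0 := fun h0 => hf0 (congrArg Subtype.val h0)
  obtain ⟨n, hn⟩ := fil hp A N hNA hpN ηU τU hηA hηN hτA hτN
    (fun a _ => Units.ext (hcomm (a : B))) hηp' hfix (a := Units.mk0 ⟨f, hf⟩ hfB0) hd
  obtain ⟨w, hw⟩ := (hNmem _).1 hn
  refine ⟨n, ((w : B) : M), (w : B).2, ?_⟩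
  have h1 : τU^[p ^ n] (Units.mk0 ⟨f, hf⟩ hfB0) = Units.mk0 ⟨f, hf⟩ hfB0 * w ^ p := by
    rw [hw, mul_div_cancel]
  have h2 : ∀ (m : ℕ) (b : Bˣ), ((τU^[m] b : Bˣ) : B) = τ₀^[m] (b : B) := by
    intro m
    induction m with
    | zero => intro b; rfl
    | succ m ih =>
      intro b
      rw [Function.iterate_succ_apply, Function.iterate_succ_apply, ih, hτv]
  have h3 := congrArg (fun t : Bˣ => ((t : B) : M)) h1
  rw [h2, hτit, Units.val_mk0, Units.val_mul, Units.val_pow_eq_pow_val, Units.val_mk0] at h3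
  exact h3

include hsec hp h2 hζ hr hrq hrs hqs in
theorem pg_base : PG p s (IntermediateField.adjoin kb {r, q}) := by
  obtain ⟨X', Y', hX, hY, H⟩ := G6_sup hp h2 hζ hr hrq
  refine G6_core s hsec hp _ (fun σ f hf => G6_pres s hsec hrs hqs σ hf)
    (hζ.map_of_injective (algebraMap F kb).injective) (fun σ => AlgEquiv.commutes _ _) H
    (fun σ => ?_) (fun σ => ?_) (fun P hP hd σ => ?_)
  · rw [hX, map_inv₀, map_add, map_one, hrs σ]
  · rw [hY, map_mul, map_inv₀, map_add, map_one, hrs σ, hqs σ]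
  · rw [hX] at hd ⊢
    exact pg_poly s hsec hp h2 hζ hr hrq hrs hqs hP hd σ

end Pool.Agent.Lib.MP_2f3286_ag.Pp
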