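import Pool.Agent.Lib.MP_2f3286_ag.Pp.FIL
import Pool.Agent.Lib.MP_2f3286_ag.Pp.G1
import Pool.Agent.Lib.MP_2f3286_ag.Pp.C2
import Pool.Agent.Lib.MP_2f3286_ag.Gl.SI
import Pool.Agent.Lib.MP_2f3286_ag.Kummer

/-!
# The action on the classes with divisible orders: the inductive step   (module G7)

`E' = Ex E β`, `β ∉ E` (otherwise `E' = E`), `γ` of `ex_gamma` (C2): an automorphism of `E'` over `kb` which is the identity on `E`, `γ β = ζ β`, `γ ^ p = 1`, and its fixed elements are in `E`. `τ = s σ`: it preserves `E'` (`pre_step` with `saOf`), and `γ τ = τ γ` on `E'` (both agree on `E`, as `γ` is the identity on `E` and `τ` preserves `E`,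
and on `β`: `γ (τ β) = γ β = ζ β = τ (ζ β)`, as `ζ ∈ F`).
PROOF of `pg_step`. `fil` (FIL) with `G = E'ˣ`, `A = {f | DivE p E' f}`, `N = {u ^ p}`, `η = γ`, `τ`. `γ` preserves `A`: `divE_iff` (BR1), `γ` permutes the places of `E'`. `hfix`: let `h ∈ A`, `γ h / h = g ^ p`, `g ∈ E'`. CLAIM 1: if `∏ i < p, γ ^ i g = 1` then `τ^[p ^ n] h / h` is a `p`-th power in `E'` for some `n`. PROOF. `Gl.h90` (Gl/SI.lean):
`u ≠ 0`, `g * γ u = u`; `e = u⁻¹`, `γ e = g e`; `h' = h / e ^ p` is fixed by `γ`, so in `E`; `DivE p E' h'`, so `DivE p E h'` (`desc`, B3). `PG p s E`: `τ^[p ^ n] h' = h' u' ^ p`, `u' ∈ E`, and `h = h' e ^ p`. CLAIM 2: `τ h / h =: h₁` satisfies the hypothesis of claim 1. `γ h₁ / h₁ = τ (g ^ p) / g ^ p = g₁ ^ p` with `g₁ = τ g / g`,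
and `∏ γ ^ i g₁ = τ (ξ) / ξ` with `ξ = ∏ γ ^ i g`, `ξ ^ p = ∏ γ ^ i (γ h / h) = 1` (telescoping, `γ ^ p = 1`), so `ξ` is a `p`-th root of unity, a power of `ζ` (`root_of_unity_mem`), fixed by `τ`. So `∏ γ ^ i g₁ = 1`. `h₁ ∈ A`. By claim 1 `τ^[p ^ n] h₁ / h₁` is a `p`-th power. In `V = A ⧸ N` (additive, exponent `p`): `(τ ^ (p ^ n) - 1) (τ - 1) h = 0`,
i.e. `(τ - 1) ^ (p ^ n + 1) h = 0`, so `(τ - 1) ^ (p ^ (n + 1)) h = 0`, i.e. `τ^[p ^ (n + 1)] h / h ∈ N` (as in `fil`; or apply the lemma `fil` once more with `η` replaced by `τ ...`; simplest: prove `tau_lift` first, which is this statement).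
-/

open Polynomial IntermediateField

namespace Pool.Agent.Lib.MP_2f3286_ag.Pp

private theorem G7_mem {L : Type*} [Field L] (Q : ValuationSubring L) (x : L) :
    Q.valuation x = 1 ↔ x ≠ 0 ∧ x ∈ Q ∧ x⁻¹ ∈ Q := by
  constructor
  · intro h
    refine ⟨?_, ?_, ?_⟩
    · rintro rfl
      rw [map_zero] at h
      exact zero_ne_one h
    · rw [← Q.valuation_le_one_iff, h]
    · rw [← Q.valuation_le_one_iff, map_inv₀, h, inv_one]
  · rintro ⟨h0, h1, h2⟩
    rw [← Q.valuation_le_one_iff] at h1 h2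
    rw [map_inv₀] at h2
    have h3 : Q.valuation x ≠ 0 := (Valuation.ne_zero_iff _).mpr h0
    refine le_antisymm h1 ?_
    by_contra h4
    push Not at h4
    have h5 := (one_lt_inv₀ (zero_lt_iff.mpr h3)).mpr h4
    exact absurd h2 (not_le.mpr h5)

private theorem G7_comap {L : Type*} [Field L] (Q : ValuationSubring L) (φ : L →+* L) (x : L) :
    (Q.comap φ).valuation x = 1 ↔ Q.valuation (φ x) = 1 := by
  rw [G7_mem, G7_mem, ValuationSubring.mem_comap, ValuationSubring.mem_comap, map_inv₀, Ne, Ne,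
    map_eq_zero]

private theorem G7_grp {G : Type*} [CommGroup G] {p : ℕ} (hp : p.Prime) (A N : Subgroup G)
    (hNA : N ≤ A) (hN : ∀ a, a ∈ N ↔ ∃ g, g ^ p = a) (η τ : G →* G) (hηA : ∀ a ∈ A, η a ∈ A)
    (hτA : ∀ a ∈ A, τ a ∈ A) (hcomm : ∀ a, η (τ a) = τ (η a)) (hηp : ∀ a, η^[p] a = a)
    (hroot : ∀ ξ : G, ξ ^ p = 1 → τ ξ = ξ)
    (h90 : ∀ g : G, ∏ i ∈ Finset.range p, η^[i] g = 1 → ∃ u : G, g * η u = u)
    (hfix : ∀ a ∈ A, η a = a → ∃ n : ℕ, τ^[p ^ n] a / a ∈ N)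
    {a : G} (ha : a ∈ A) : ∃ n : ℕ, τ^[p ^ n] a / a ∈ N := by
  have hpN : ∀ a ∈ A, a ^ p ∈ N := fun a _ => (hN _).2 ⟨a, rfl⟩
  have hηN : ∀ a ∈ N, η a ∈ N := by
    intro a ha
    obtain ⟨g, rfl⟩ := (hN a).1 ha
    exact (hN _).2 ⟨η g, (map_pow η g p).symm⟩
  have hτN : ∀ a ∈ N, τ a ∈ N := by
    intro a ha
    obtain ⟨g, rfl⟩ := (hN a).1 ha
    exact (hN _).2 ⟨τ g, (map_pow τ g p).symm⟩
  have claim1 : ∀ a ∈ A, ∀ g, g ^ p = η a / a → ∏ i ∈ Finset.range p, η^[i] g = 1 →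
      ∃ n : ℕ, τ^[p ^ n] a / a ∈ N := by
    intro a ha g hg hprod
    obtain ⟨u, hu⟩ := h90 g hprod
    have h1 : η a = g ^ p * a := by rw [hg, div_mul_cancel]
    have hfx : η (a * u ^ p) = a * u ^ p := by
      rw [map_mul, map_pow, h1, mul_right_comm, ← mul_pow, hu, mul_comm]
    have hA' : a * u ^ p ∈ A := A.mul_mem ha (hNA ((hN _).2 ⟨u, rfl⟩))
    obtain ⟨n, hn⟩ := hfix _ hA' hfx
    refine ⟨n, ?_⟩
    have h2 : τ^[p ^ n] a / a = (τ^[p ^ n] (a * u ^ p) / (a * u ^ p)) *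
        (u / τ^[p ^ n] u) ^ p := by
      rw [iterate_map_mul, iterate_map_pow, div_pow, mul_div_mul_comm, mul_assoc,
        div_mul_div_cancel, div_self', mul_one]
    rw [h2]
    exact N.mul_mem hn ((hN _).2 ⟨_, rfl⟩)
  have hcommit : ∀ (i : ℕ) (x : G), η^[i] (τ x) = τ (η^[i] x) := by
    intro i
    induction i with
    | zero => intro x; rfl
    | succ i ih => intro x; rw [Function.iterate_succ_apply, Function.iterate_succ_apply, hcomm, ih]
  refine fil hp A N hNA hpN η τ hηA hηN hτA hτN (fun a _ => hcomm a) (fun a _ => hηp a) ?_ ha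
  intro h hh hN'
  obtain ⟨g, hg⟩ := (hN _).1 hN'
  have hξp : (∏ i ∈ Finset.range p, η^[i] g) ^ p = 1 := by
    rw [← Finset.prod_pow]
    have h1 : ∀ i ∈ Finset.range p, η^[i] g ^ p = η^[i + 1] h / η^[i] h := by
      intro i _
      rw [← iterate_map_pow, hg, iterate_map_div, Function.iterate_succ_apply]
    rw [Finset.prod_congr rfl h1, Finset.prod_range_div (fun i => η^[i] h), hηp]
    exact div_self' h
  have hξ := hroot _ hξp
  have hA1 : τ h / h ∈ A := A.div_mem (hτA h hh) hh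
  obtain ⟨n, hn⟩ := claim1 (τ h / h) hA1 (τ g / g) (by
    rw [div_pow, ← map_pow, hg, _root_.map_div, _root_.map_div, hcomm]
    rw [div_div_div_comm]) (by
    have h1 : ∀ i ∈ Finset.range p, η^[i] (τ g / g) = τ (η^[i] g) / η^[i] g := by
      intro i _
      rw [iterate_map_div, hcommit]
    rw [Finset.prod_congr rfl h1, Finset.prod_div_distrib, ← map_prod, hξ]
    exact div_self' _)
  exact ⟨n + 1, tau_lift hp A N hNA hpN τ hτA hτN hh hn⟩

theorem pg_step {F kb K M : Type*} [Field F] [Field kb] [Algebra F kb] [IsAlgClosed kb]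
    [CharZero kb] [Field K] [Field M] [Algebra K M] [Algebra kb M] (s : Gal(kb/F) →* Gal(M/K))
    (hsec : ∀ σ a, s σ (algebraMap kb M a) = algebraMap kb M (σ a)) {p : ℕ} (hp : p.Prime)
    {ζ : F} (hζ : IsPrimitiveRoot ζ p) {E : IntermediateField kb M} (hFF : FF E)
    (hE : ∀ σ, Pre (saOf s hsec σ) E) (hPG : PG p s E) {β : M} (hβF : β ∈ Fx s)
    (hβ : β ^ p ∈ E) (hd : DivE p E (β ^ p)) : PG p s (Ex E β) := by
  by_cases hβE : β ∈ E
  · have h1 : Ex E β = E := by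
      refine sup_eq_left.2 ?_
      rw [IntermediateField.adjoin_le_iff]
      intro x hx
      rw [Set.mem_singleton_iff] at hx
      rw [hx]
      exact hβE
    rw [h1]
    exact hPG
  intro f hf hfd σ
  by_cases hf0 : f = 0
  · subst hf0
    refine ⟨0, 1, one_mem _, ?_⟩
    simp
  -- the data
  have hpre : Pre (saOf s hsec σ) (Ex E β) := pre_step _ (hE σ) (hβF σ)
  have hprem : ∀ x : Ex E β, s σ (x : M) ∈ Ex E β := fun x => (hpre x).2 x.2
  let τ : Ex E β →+* Ex E β :=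
    { toFun := fun x => ⟨s σ x, hprem x⟩
      map_one' := Subtype.ext (map_one (s σ))
      map_mul' := fun x y => Subtype.ext (map_mul (s σ) (x : M) (y : M))
      map_zero' := Subtype.ext (map_zero (s σ))
      map_add' := fun x y => Subtype.ext (map_add (s σ) (x : M) (y : M)) }
  have hτc : ∀ x : Ex E β, ((τ x : Ex E β) : M) = s σ x := fun x => rfl
  set z : kb := algebraMap F kb ζ with hzdef
  have hz : IsPrimitiveRoot z p := hζ.map_of_injective (algebraMap F kb).injective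
  have hσz : σ z = z := σ.commutes ζ
  obtain ⟨γ, hγE, hγβ, hγp, hγf⟩ := ex_gamma hp hz hβ hβE
  have hle : E ≤ Ex E β := le_sup_left
  have hβ' : β ∈ Ex E β :=
    (le_sup_right : IntermediateField.adjoin kb {β} ≤ Ex E β)
      (IntermediateField.mem_adjoin_simple_self kb β)
  set b : Ex E β := ⟨β, hβ'⟩ with hbdef
  have hγb : γ b = algebraMap kb (Ex E β) z * b := Subtype.ext (hγβ b rfl)
  have hb0 : b ≠ 0 := by
    intro h0
    apply hβE
    have h1 : β = 0 := congrArg Subtype.val h0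
    rw [h1]
    exact zero_mem _
  have hτb : τ b = b := Subtype.ext (hβF σ)
  have hτz : ∀ c : kb, σ c = c → τ (algebraMap kb (Ex E β) c) = algebraMap kb (Ex E β) c := by
    intro c hc
    refine Subtype.ext ?_
    have h1 := hsec σ c
    rw [hc] at h1
    exact h1
  have hγpow : ∀ (i : ℕ), (γ ^ i) b = algebraMap kb (Ex E β) z ^ i * b := by
    intro i
    induction i with
    | zero => simp
    | succ i ih => rw [pow_succ, AlgEquiv.mul_apply, hγb, map_mul, AlgEquiv.commutes, ih]; ring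
  have hzE : IsPrimitiveRoot (algebraMap kb (Ex E β) z) p :=
    hz.map_of_injective (algebraMap kb (Ex E β)).injective
  have hγinj : ∀ i < p, ∀ j < p, γ ^ i = γ ^ j → i = j := by
    intro i hi j hj hij
    have h1 : (γ ^ i) b = (γ ^ j) b := by rw [hij]
    rw [hγpow, hγpow] at h1
    exact hzE.pow_inj hi hj (mul_right_cancel₀ hb0 h1)
  have hγit : ∀ (i : ℕ) (x : Ex E β), (γ ^ i) x = γ^[i] x := by
    intro i x
    rw [AlgEquiv.coe_pow]
  have hcomm : ∀ x : Ex E β, γ (τ x) = τ (γ x) := by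
    intro x
    obtain ⟨a, ha, hx⟩ := ex_repr hp hβ x.2
    have hx' : x = ∑ i ∈ Finset.range p, (⟨a i, hle (ha i)⟩ : Ex E β) * b ^ i := by
      refine Subtype.ext ?_
      rw [hx]
      simp [hbdef]
    rw [hx', map_sum, map_sum, map_sum, map_sum]
    refine Finset.sum_congr rfl fun i _ => ?_
    have h1 : γ (⟨a i, hle (ha i)⟩ : Ex E β) = ⟨a i, hle (ha i)⟩ := hγE _ (ha i)
    have h2 : γ (τ (⟨a i, hle (ha i)⟩ : Ex E β)) = τ ⟨a i, hle (ha i)⟩ :=
      hγE _ (((hE σ) (a i)).2 (ha i))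
    rw [map_mul, map_mul, map_mul, map_mul, h1, h2, map_pow, map_pow, map_pow, map_pow, hτb,
      hγb, map_mul, hτb, hτz z hσz]
  -- the groups
  let A : Subgroup (Ex E β)ˣ :=
    { carrier := {a | DivE p (Ex E β) ((a : Ex E β) : M)}
      mul_mem' := fun {a c} ha hc => by
        have h1 := DivE.mul ha hc
        simpa using h1
      one_mem' := by
        have h1 : DivE p (Ex E β) ((1 : M) ^ p) := divE_pow (one_mem _) one_ne_zero
        simpa using h1
      inv_mem' := fun {a} ha => by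
        have h1 := DivE.inv ha
        simpa using h1 }
  let N : Subgroup (Ex E β)ˣ := (powMonoidHom p : (Ex E β)ˣ →* (Ex E β)ˣ).range
  have hNm : ∀ a, a ∈ N ↔ ∃ g, g ^ p = a := fun a => Iff.rfl
  have hAm : ∀ a : (Ex E β)ˣ, a ∈ A ↔ DivE p (Ex E β) ((a : Ex E β) : M) := fun a => Iff.rfl
  have hNA : N ≤ A := by
    intro a ha
    obtain ⟨g, rfl⟩ := (hNm a).1 ha
    rw [hAm]
    have h1 : DivE p (Ex E β) (((g : Ex E β) : M) ^ p) :=
      divE_pow (g : Ex E β).2 (fun h0 => g.ne_zero (Subtype.ext h0))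
    simpa using h1
  set η' : (Ex E β)ˣ →* (Ex E β)ˣ := Units.map ((γ : Ex E β →+* Ex E β) : Ex E β →* Ex E β)
    with hη'
  set τ' : (Ex E β)ˣ →* (Ex E β)ˣ := Units.map (τ : Ex E β →* Ex E β) with hτ'
  have hη'c : ∀ a : (Ex E β)ˣ, ((η' a : (Ex E β)ˣ) : Ex E β) = γ a := fun a => rfl
  have hτ'c : ∀ a : (Ex E β)ˣ, ((τ' a : (Ex E β)ˣ) : Ex E β) = τ a := fun a => rfl
  have hη'i : ∀ (i : ℕ) (a : (Ex E β)ˣ), ((η'^[i] a : (Ex E β)ˣ) : Ex E β) = γ^[i] a := by
    intro i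
    induction i with
    | zero => intro a; rfl
    | succ i ih => intro a; rw [Function.iterate_succ_apply, Function.iterate_succ_apply, ih, hη'c]
  have hτ'i : ∀ (i : ℕ) (a : (Ex E β)ˣ),
      (((τ'^[i] a : (Ex E β)ˣ) : Ex E β) : M) = (s σ)^[i] ((a : Ex E β) : M) := by
    intro i
    induction i with
    | zero => intro a; rfl
    | succ i ih =>
      intro a
      rw [Function.iterate_succ_apply, Function.iterate_succ_apply, ih, hτ'c, hτc]
  have hηA : ∀ a ∈ A, η' a ∈ A := by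
    intro a ha
    rw [hAm] at ha ⊢
    rw [hη'c]
    have ha0 : (a : Ex E β) ≠ 0 := a.ne_zero
    rw [divE_iff ((map_ne_zero γ).2 ha0)]
    rw [divE_iff ha0] at ha
    intro Q hQ
    have hQ' : Pt.IsPlc kb (Q.comap (γ : Ex E β →+* Ex E β)) := by
      refine ⟨fun c => ?_, fun htop => ?_⟩
      · rw [ValuationSubring.mem_comap]
        have h1 : (γ : Ex E β →+* Ex E β) (algebraMap kb (Ex E β) c) = algebraMap kb _ c :=
          γ.commutes c
        rw [h1]
        exact hQ.1 c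
      · apply hQ.2
        rw [eq_top_iff]
        intro x _
        have h1 : γ.symm x ∈ Q.comap (γ : Ex E β →+* Ex E β) := by
          rw [htop]
          exact ValuationSubring.mem_top _
        rw [ValuationSubring.mem_comap] at h1
        have h2 : (γ : Ex E β →+* Ex E β) (γ.symm x) = x := γ.apply_symm_apply x
        rw [h2] at h1
        exact h1
    obtain ⟨c, hc0, hc⟩ := ha _ hQ'
    rw [G7_comap] at hc
    refine ⟨γ c, (map_ne_zero γ).2 hc0, ?_⟩
    have h3 : (γ : Ex E β →+* Ex E β) ((a : Ex E β) * (c ^ p)⁻¹) = γ a * ((γ c) ^ p)⁻¹ := by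
      rw [map_mul, map_inv₀, map_pow]
      rfl
    rw [h3] at hc
    exact hc
  have hτA : ∀ a ∈ A, τ' a ∈ A := by
    intro a ha
    rw [hAm] at ha ⊢
    exact DivE.map (saOf s hsec σ) hpre ha
  have hroot : ∀ ξ : (Ex E β)ˣ, ξ ^ p = 1 → τ' ξ = ξ := by
    intro ξ hξ
    have h1 : (((ξ : (Ex E β)ˣ) : Ex E β) : M) ^ p = 1 := by
      have h2 := congrArg (fun x : (Ex E β)ˣ => ((x : Ex E β) : M)) hξ
      simpa using h2
    obtain ⟨c, hc⟩ := root_of_unity_mem kb M hp.pos h1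
    have hcp : c ^ p = 1 := by
      apply (algebraMap kb M).injective
      rw [map_pow, hc, h1, map_one]
    have : NeZero p := ⟨hp.ne_zero⟩
    obtain ⟨i, _, hi⟩ := hz.eq_pow_of_pow_eq_one hcp
    have hσc : σ c = c := by rw [← hi, map_pow, hσz]
    refine Units.ext (Subtype.ext ?_)
    rw [hτ'c, hτc, ← hc, hsec, hσc]
  have h90' : ∀ g : (Ex E β)ˣ, ∏ i ∈ Finset.range p, η'^[i] g = 1 →
      ∃ u : (Ex E β)ˣ, g * η' u = u := by
    intro g hg
    have h1 : ∏ i ∈ Finset.range p, (γ ^ i) (g : Ex E β) = 1 := by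
      have h2 := congrArg (fun x : (Ex E β)ˣ => (x : Ex E β)) hg
      simp only [Units.coe_prod, Units.val_one] at h2
      rw [← h2]
      refine Finset.prod_congr rfl fun i _ => ?_
      rw [hγit, hη'i]
    obtain ⟨u, hu0, hu⟩ := Gl.h90 hp.ne_zero hγinj (fun f => by rw [hγit, hγp]) h1
    refine ⟨Units.mk0 u hu0, Units.ext ?_⟩
    rw [Units.val_mul, hη'c, Units.val_mk0]
    exact hu
  have hfix : ∀ a ∈ A, η' a = a → ∃ n : ℕ, τ'^[p ^ n] a / a ∈ N := by
    intro a ha hfa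
    rw [hAm] at ha
    have h1 : γ (a : Ex E β) = a := by
      rw [← hη'c, hfa]
    have haE : ((a : Ex E β) : M) ∈ E := hγf _ h1
    obtain ⟨n, u, hu, hnu⟩ := hPG _ haE (desc hp hFF hβ hd ha) σ
    refine ⟨n, (hNm _).2 ?_⟩
    have hne : (((τ'^[p ^ n] a : (Ex E β)ˣ) : Ex E β) : M) ≠ 0 := by
      intro h0
      exact (τ'^[p ^ n] a).ne_zero (Subtype.ext h0)
    have hu0 : u ≠ 0 := by
      rintro rfl
      apply hne
      rw [hτ'i, hnu, zero_pow hp.ne_zero, mul_zero]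
    refine ⟨Units.mk0 ⟨u, hle hu⟩ (fun h0 => hu0 (congrArg Subtype.val h0)), ?_⟩
    rw [eq_div_iff_mul_eq', mul_comm]
    refine Units.ext (Subtype.ext ?_)
    rw [hτ'i, hnu]
    simp
  obtain ⟨n, hn⟩ := G7_grp hp A N hNA hNm η' τ' hηA hτA
    (fun a => Units.ext (hcomm a)) (fun a => Units.ext (by rw [hη'i, hγp])) hroot h90' hfix
    (a := Units.mk0 ⟨f, hf⟩ (fun h0 => hf0 (congrArg Subtype.val h0))) hfd
  obtain ⟨g, hg⟩ := (hNm _).1 hn
  refine ⟨n, ((g : Ex E β) : M), (g : Ex E β).2, ?_⟩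
  rw [eq_div_iff_mul_eq', mul_comm] at hg
  have h1 := congrArg (fun x : (Ex E β)ˣ => ((x : Ex E β) : M)) hg
  simp only [hτ'i] at h1
  simpa using h1.symm

end Pool.Agent.Lib.MP_2f3286_ag.Pp
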