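import Pool.Agent.Lib.MP_2f3286_ag.Pp.G2
import Pool.Agent.Lib.MP_2f3286_ag.Pp.G6
import Pool.Agent.Lib.MP_2f3286_ag.Pp.G7
import Pool.Agent.Lib.MP_2f3286_ag.Pp.FXV

/-!
# The union of the tower is closed under unramified `p`-th roots   (module G8)

`N = NN p (Fx s) B`. All `E` with `Tow p (Fx s) B E` satisfy: `FF E` (`Tow.ff`), `Pre (saOf s hsec σ) E` (`Tow.pre`), `PG p s E` (`pg_step`, G7, induction). So `s σ f ∈ N ↔ f ∈ N`. All orbits `{s σ f}` are finite (`M` algebraic over `K`: the elements `s σ f` are roots of the minimal polynomial of `f`).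
PROOF of `nn_fix`. For every `h'` in the finite orbit of `h` choose `u ∈ N` with `h' = h * u ^ p`; `NN.fin`: `E` in the tower which contains `h` and all these `u`. `DivE p E h` (`NN.div`). `hRad`: `β : M`, `β ^ p = h` (`DivE.rad`), `β ≠ 0`. `(s σ β) ^ p = s σ h = (β u) ^ p`, so `s σ β = β * (ξ u)` with a root of unity `ξ ∈ kb ⊆ E`
(`root_of_unity_mem`). `fixed_line` (G2): `e ∈ E`, `e ≠ 0`, `β e ∈ Fx s`; `(β e) ^ p = h e ^ p ∈ E`, `DivE p E` (`DivE.mul`, `divE_pow`). So `Tow p (Fx s) B (Ex E (β e))`, `β e ∈ N`, `β ∈ N`.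
PROOF of `nn_cl`. `fxv` (FXV) for `G = Mˣ`, `Γ = Gal(kb/F)`, `ρ σ` = `s σ` on `Mˣ` (`Units.mapEquiv`), `A = {f | f ∈ N, DivE p N f}`, `N' = {u ^ p | u ∈ N}`. `hA`: `DivE.map`. `hpow`: `f ∈ N`, `f ∈ E`, `NN.div`, `PG p s E`. `hfix`: `nn_fix`. So every `f ∈ N` with `DivE p N f` is `u ^ p`, `u ∈ N`. For `Cl`: `f ^ p = u ^ p`, so `f = ξ u ∈ N`.
-/

open Polynomial IntermediateField

namespace Pool.Agent.Lib.MP_2f3286_ag.Pp

variable {F kb K M : Type*} [Field F] [Field kb] [Algebra F kb] [IsGalois F kb] [IsAlgClosed kb]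
  [CharZero kb] [Field K] [Field M] [Algebra K M] [Algebra kb M] [Algebra.IsAlgebraic K M]
  (s : Gal(kb/F) →* Gal(M/K)) (hs : Continuous s)
  (hsec : ∀ σ a, s σ (algebraMap kb M a) = algebraMap kb M (σ a)) {p : ℕ} (hp : p.Prime)
  (hRad : Rad p kb M) {B : IntermediateField kb M} (hFF : FF B)
  (hB : ∀ σ, Pre (saOf s hsec σ) B)

omit [IsGalois F kb] [IsAlgClosed kb] [CharZero kb] [Algebra.IsAlgebraic K M] in
private theorem G8_pre (hB : ∀ σ, Pre (saOf s hsec σ) B) (σ : Gal(kb/F))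
    {E : IntermediateField kb M} (hE : Tow p (Fx s) B E) : Pre (saOf s hsec σ) E :=
  Tow.pre (P := Fx s) (saOf s hsec σ) (hB σ) (fun β hβ => by
    have h1 : ∀ σ, s σ β = β := hβ
    exact h1 σ) hE

omit [IsGalois F kb] [IsAlgClosed kb] [CharZero kb] [Algebra.IsAlgebraic K M] in
private theorem G8_preN (hB : ∀ σ, Pre (saOf s hsec σ) B) (σ : Gal(kb/F)) :
    Pre (saOf s hsec σ) (NN p (Fx s) B) := by
  intro f
  constructor
  · rintro ⟨E, hE, hf⟩
    exact ⟨E, hE, (G8_pre s hsec hB σ hE f).1 hf⟩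
  · rintro ⟨E, hE, hf⟩
    exact ⟨E, hE, (G8_pre s hsec hB σ hE f).2 hf⟩

omit [IsGalois F kb] [IsAlgClosed kb] [CharZero kb] [Algebra kb M] in
private theorem G8_orb (h : M) : {b : M | ∃ σ, s σ h = b}.Finite := by
  have h0 : minpoly K h ≠ 0 := minpoly.ne_zero (Algebra.IsIntegral.isIntegral h)
  refine ((minpoly K h).rootSet_finite M).subset ?_
  rintro b ⟨σ, rfl⟩
  rw [Polynomial.mem_rootSet]
  refine ⟨h0, ?_⟩
  have h1 := Polynomial.aeval_algHom_apply ((s σ : M ≃ₐ[K] M) : M →ₐ[K] M) h (minpoly K h)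
  rw [minpoly.aeval, map_zero] at h1
  exact h1

include hs hsec hp hRad hFF hB in
theorem nn_fix {h : M} (hh : h ∈ NN p (Fx s) B) (hd : DivE p (NN p (Fx s) B) h)
    (hfix : ∀ σ, ∃ u ∈ NN p (Fx s) B, s σ h = h * u ^ p) :
    ∃ u ∈ NN p (Fx s) B, h = u ^ p := by
  have h0 : h ≠ 0 := hd.ne_zero
  have hch : ∀ h' : M, ∃ u : M, (∃ σ, s σ h = h') → u ∈ NN p (Fx s) B ∧ h' = h * u ^ p := by
    intro h'
    by_cases h1 : ∃ σ, s σ h = h'
    · obtain ⟨σ, hσ⟩ := h1
      obtain ⟨u, hu, hu2⟩ := hfix σ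
      exact ⟨u, fun _ => ⟨hu, by rw [← hσ]; exact hu2⟩⟩
    · exact ⟨1, fun h2 => absurd h2 h1⟩
  choose U hU using hch
  have hTf : (insert h (U '' {b : M | ∃ σ, s σ h = b})).Finite :=
    ((G8_orb s h).image U).insert h
  obtain ⟨E, hE, hE2⟩ := NN.fin (p := p) (P := Fx s) (B := B) hTf (by
    intro f hf
    rcases Set.mem_insert_iff.1 hf with rfl | hf
    · exact hh
    · obtain ⟨b, hb, rfl⟩ := hf
      exact (hU b hb).1)
  have hhE : h ∈ E := hE2 h (Set.mem_insert _ _)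
  have hdE : DivE p E h := NN.div hp hFF hE hd
  obtain ⟨β, hβ⟩ := hdE.rad hRad
  have hβ0 : β ≠ 0 := by
    rintro rfl
    rw [zero_pow hp.ne_zero] at hβ
    exact h0 hβ.symm
  have hst : ∀ σ, ∀ f ∈ E, s σ f ∈ E := fun σ f hf => (G8_pre s hsec hB σ hE f).2 hf
  have hline : ∀ σ, ∃ u ∈ E, s σ β = β * u := by
    intro σ
    have hm : ∃ τ, s τ h = s σ h := ⟨σ, rfl⟩
    obtain ⟨-, hu2⟩ := hU (s σ h) hm
    have huE : U (s σ h) ∈ E := hE2 _ (Set.mem_insert_of_mem _ ⟨s σ h, hm, rfl⟩)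
    have hsh : s σ h ≠ 0 := (_root_.map_ne_zero (s σ)).2 h0
    have hu0 : U (s σ h) ≠ 0 := by
      intro h1
      rw [h1, zero_pow hp.ne_zero, mul_zero] at hu2
      exact hsh hu2
    have hpw : (s σ β / (β * U (s σ h))) ^ p = 1 := by
      rw [div_pow, mul_pow, ← map_pow, hβ, ← hu2]
      exact div_self hsh
    obtain ⟨c, hc⟩ := root_of_unity_mem kb M hp.pos hpw
    refine ⟨U (s σ h) * algebraMap kb M c, mul_mem huE (E.algebraMap_mem c), ?_⟩
    rw [hc]
    field_simp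
  obtain ⟨e, he, he0, hfx⟩ := fixed_line s hs hsec hst hβ0 hline
  have hpe : (β * e) ^ p = h * e ^ p := by rw [mul_pow, hβ]
  have hT : Tow p (Fx s) B (Ex E (β * e)) := by
    refine Tow.step E (β * e) hE hfx ?_ ?_
    · rw [hpe]
      exact mul_mem hhE (pow_mem he p)
    · rw [hpe]
      exact hdE.mul (divE_pow he he0)
  have h1 : β * e ∈ NN p (Fx s) B := ⟨_, hT,
    (le_sup_right : IntermediateField.adjoin kb {β * e} ≤ Ex E (β * e))
      (IntermediateField.mem_adjoin_simple_self kb (β * e))⟩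
  have h2 : e ∈ NN p (Fx s) B := ⟨E, hE, he⟩
  refine ⟨β, ?_, hβ.symm⟩
  have h3 : β = β * e / e := by field_simp
  rw [h3]
  exact div_mem h1 h2

include hs hsec hp hRad hFF hB in
theorem nn_cl {ζ : F} (hζ : IsPrimitiveRoot ζ p) (hPG : PG p s B) : Cl p (NN p (Fx s) B) := by
  intro f hf hd
  have hPGE : ∀ E, Tow p (Fx s) B E → PG p s E := by
    intro E hE
    induction hE with
    | base => exact hPG
    | step E β hE hβF hβ hdβ ih =>
      exact pg_step s hsec hp hζ (Tow.ff hp hFF hE) (fun σ => G8_pre s hsec hB σ hE) ih hβF hβ hdβ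
  -- the action on the units
  let ρ : Gal(kb/F) →* MulAut Mˣ :=
    { toFun := fun σ => Units.mapEquiv ((s σ : M ≃ₐ[K] M) : M ≃* M)
      map_one' := by
        ext a
        show s 1 (a : M) = (a : M)
        rw [map_one]
        rfl
      map_mul' := by
        intro σ τ
        ext a
        show s (σ * τ) (a : M) = s σ (s τ (a : M))
        rw [map_mul]
        rfl }
  have hρ : ∀ σ (a : Mˣ), ((ρ σ a : Mˣ) : M) = s σ (a : M) := fun σ a => rfl
  have hρi : ∀ σ (a : Mˣ) (k : ℕ), (((ρ σ)^[k] a : Mˣ) : M) = (s σ)^[k] (a : M) := by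
    intro σ a k
    induction k with
    | zero => rfl
    | succ k ih =>
      rw [Function.iterate_succ_apply', Function.iterate_succ_apply', hρ, ih]
  let A : Subgroup Mˣ :=
    { carrier := {u | (u : M) ∈ NN p (Fx s) B ∧ DivE p (NN p (Fx s) B) (u : M)}
      mul_mem' := by
        rintro a b ⟨h1, h2⟩ ⟨h3, h4⟩
        refine ⟨?_, ?_⟩
        · rw [Units.val_mul]
          exact mul_mem h1 h3
        · rw [Units.val_mul]
          exact h2.mul h4
      one_mem' := by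
        refine ⟨?_, ?_⟩
        · rw [Units.val_one]
          exact one_mem _
        · rw [Units.val_one]
          have := divE_pow (m := p) (one_mem (NN p (Fx s) B)) (one_ne_zero (α := M))
          rwa [one_pow] at this
      inv_mem' := by
        rintro a ⟨h1, h2⟩
        refine ⟨?_, ?_⟩
        · rw [Units.val_inv_eq_inv_val]
          exact inv_mem h1
        · rw [Units.val_inv_eq_inv_val]
          exact h2.inv }
  let N' : Subgroup Mˣ :=
    { carrier := {v | ∃ u : Mˣ, (u : M) ∈ NN p (Fx s) B ∧ u ^ p = v}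
      mul_mem' := by
        rintro a b ⟨u, h1, rfl⟩ ⟨v, h3, rfl⟩
        refine ⟨u * v, ?_, mul_pow u v p⟩
        rw [Units.val_mul]
        exact mul_mem h1 h3
      one_mem' := ⟨1, by rw [Units.val_one]; exact one_mem _, one_pow p⟩
      inv_mem' := by
        rintro a ⟨u, h1, rfl⟩
        refine ⟨u⁻¹, ?_, inv_pow u p⟩
        rw [Units.val_inv_eq_inv_val]
        exact inv_mem h1 }
  have hmA : ∀ u : Mˣ, u ∈ A ↔ (u : M) ∈ NN p (Fx s) B ∧ DivE p (NN p (Fx s) B) (u : M) :=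
    fun u => Iff.rfl
  have hmN : ∀ v : Mˣ, v ∈ N' ↔ ∃ u : Mˣ, (u : M) ∈ NN p (Fx s) B ∧ u ^ p = v :=
    fun v => Iff.rfl
  have hf0 : f ^ p ≠ 0 := hd.ne_zero
  have ha : Units.mk0 (f ^ p) hf0 ∈ A := by
    rw [hmA, Units.val_mk0]
    exact ⟨hf, hd⟩
  have key : Units.mk0 (f ^ p) hf0 ∈ N' := by
    refine fxv hp A N' ?_ ?_ ρ ?_ ?_ ?_ ?_ ?_ ha
    · rintro v ⟨u, hu, rfl⟩
      rw [hmA, Units.val_pow_eq_pow_val]
      exact ⟨pow_mem hu p, divE_pow hu u.ne_zero⟩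
    · intro a ha
      exact ⟨a, ((hmA a).1 ha).1, rfl⟩
    · intro σ a ha
      obtain ⟨h1, h2⟩ := (hmA a).1 ha
      rw [hmA, hρ]
      exact ⟨(G8_preN s hsec hB σ _).2 h1, DivE.map (saOf s hsec σ) (G8_preN s hsec hB σ) h2⟩
    · rintro σ v ⟨u, hu, rfl⟩
      refine ⟨ρ σ u, ?_, (map_pow (ρ σ) u p).symm⟩
      rw [hρ]
      exact (G8_preN s hsec hB σ _).2 hu
    · intro a _
      refine Set.Finite.of_finite_image (f := fun u : Mˣ => (u : M)) ?_ Units.val_injective.injOn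
      refine (G8_orb s (a : M)).subset ?_
      rintro _ ⟨b, ⟨σ, rfl⟩, rfl⟩
      exact ⟨σ, rfl⟩
    · intro σ a ha
      obtain ⟨⟨E, hE, h1⟩, h2⟩ := (hmA a).1 ha
      obtain ⟨n, u, hu, hu2⟩ := hPGE E hE (a : M) h1 (NN.div hp hFF hE h2) σ
      have hne : (s σ)^[p ^ n] (a : M) ≠ 0 := by
        rw [← hρi]
        exact Units.ne_zero _
      have hu0 : u ≠ 0 := by
        rintro rfl
        rw [zero_pow hp.ne_zero, mul_zero] at hu2
        exact hne hu2
      refine ⟨n, Units.mk0 u hu0, ⟨E, hE, hu⟩, ?_⟩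
      rw [eq_div_iff_mul_eq', Units.ext_iff, hρi, hu2, Units.val_mul,
        Units.val_pow_eq_pow_val, Units.val_mk0, mul_comm]
    · intro a ha h1
      obtain ⟨h2, h3⟩ := (hmA a).1 ha
      obtain ⟨u, hu, hu2⟩ := nn_fix s hs hsec hp hRad hFF hB h2 h3 (by
        intro σ
        obtain ⟨v, hv, hv2⟩ := h1 σ
        refine ⟨(v : M), hv, ?_⟩
        rw [eq_div_iff_mul_eq', Units.ext_iff, hρ, Units.val_mul,
          Units.val_pow_eq_pow_val, mul_comm] at hv2
        exact hv2.symm)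
      have hu0 : u ≠ 0 := by
        rintro rfl
        rw [zero_pow hp.ne_zero] at hu2
        exact a.ne_zero hu2
      refine ⟨Units.mk0 u hu0, hu, ?_⟩
      rw [Units.ext_iff, hu2]
      rfl
  obtain ⟨u, hu, hu2⟩ := key
  have hu3 : (u : M) ^ p = f ^ p := by
    have := congrArg Units.val hu2
    rwa [Units.val_pow_eq_pow_val, Units.val_mk0] at this
  have hpw : (f / (u : M)) ^ p = 1 := by
    rw [div_pow, hu3]
    exact div_self hf0
  obtain ⟨c, hc⟩ := root_of_unity_mem kb M hp.pos hpw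
  have h4 : f = algebraMap kb M c * (u : M) := by
    rw [hc, div_mul_cancel₀ _ u.ne_zero]
  rw [h4]
  exact mul_mem ((NN p (Fx s) B).algebraMap_mem c) hu

end Pool.Agent.Lib.MP_2f3286_ag.Pp
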