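import Pool.Agent.Lib.MP_2f3286_ag.Pp.G5
import Pool.Agent.Lib.MP_2f3286_ag.Pp.G8

/-!
# Sections over the cyclotomic field   (module G9)

PROOF of `f_level`. `B = adjoin kb {r, q}`. `hB : FF B`; `Pre (saOf s hsec σ) B`: `pre_adjoin` (E8). `pg_base` (G6), `nn_cl` (G8): `NN p (Fx s) B` is closed, so `NN p univ B ≤ NN p (Fx s) B` (`NN.le_of_cl`, `B ≤ NN`: `Tow.base.le_NN`). Let `f ∈ NN p univ B`, `f ∈ A`: `f ∈ E`, `Tow p (Fx s) B E`. `st_all` (G5): `St s A E`, and some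
`g ∈ E` is not in `A`. `ff_val` (B2) (`Tow.ff`): `c : kb` with `A(f - c) < 1`. For `σ`: `f - c ∈ E`, `St` for `f - c` and its inverse gives `A(s σ (f - c)) < 1`, `s σ (f - c) = s σ f - σ c`. So `s σ f ∈ A` and `φ (s σ f) = φ (σ c) = ι (σ c)` (elements of valuation `< 1` are in the kernel of `φ`: `hφ.2.1`).
-/

open Polynomial IntermediateField IsDedekindDomain NumberField

namespace Pool.Agent.Lib.MP_2f3286_ag.Pp

open Pool.Agent.Lib.MP_2f3286_bir (IsPlaceOf)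
open Pool.Agent.Lib.MP_2f3286_ag.Fer (Stp)

theorem f_level {p : ℕ} {F : Type*} [Field F] [NumberField F] (X : Stp p F) {kb K M : Type*}
    [Field kb] [Algebra F kb] [IsGalois F kb] [IsAlgClosed kb] [Field K] [Field M] [Algebra K M]
    [Algebra kb M] [Algebra.IsAlgebraic K M] (s : Gal(kb/F) →* Gal(M/K)) (hs : Continuous s)
    (hsec : ∀ σ a, s σ (algebraMap kb M a) = algebraMap kb M (σ a)) (hRad : Rad p kb M) {r q : M}
    (hr : Transcendental kb r)
    (halg : ∀ y : M, IsAlgebraic (IntermediateField.adjoin kb {r}) y)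
    (hB : FF (IntermediateField.adjoin kb {r, q}))
    (hrq : r ^ p + 1 = q ^ p) (hrs : r ∈ Fx s) (hqs : q ∈ Fx s)
    (ι : kb →ₐ[F] AlgebraicClosure (X.P.adicCompletion F)) (A : ValuationSubring M)
    (φ : A →+* AlgebraicClosure (X.P.adicCompletion F))
    (hφ : IsPlaceOf s (X.P.adicCompletion F)
      (ι : _ →+* AlgebraicClosure (X.P.adicCompletion F)) A φ)
    (hφr : ∃ h : -(r ^ p) ∈ A, φ ⟨_, h⟩ = 1) {f : M}
    (hf : f ∈ NN p Set.univ (IntermediateField.adjoin kb {r, q})) (hfA : f ∈ A) :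
    ∃ c : kb, ∀ σ, ∃ h : s σ f ∈ A, φ ⟨s σ f, h⟩ = ι (σ c) := by
  have hch : CharZero kb := charZero_of_injective_algebraMap (algebraMap F kb).injective
  have hpre : ∀ σ, Pre (saOf s hsec σ) (IntermediateField.adjoin kb {r, q}) := fun σ =>
    pre_adjoin (saOf s hsec σ) (hrs σ) (hqs σ)
  have hPG : PG p s (IntermediateField.adjoin kb {r, q}) :=
    pg_base s hsec X.hp X.h2 X.hζ hr hrq hrs hqs
  have hcl : Cl p (NN p (Fx s) (IntermediateField.adjoin kb {r, q})) :=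
    nn_cl s hs hsec X.hp hRad hB hpre X.hζ hPG
  have hle := NN.le_of_cl (Tow.base.le_NN) hcl
  obtain ⟨E, hE, hfE⟩ := hle hf
  obtain ⟨hSt, g, hgE, hgA⟩ := st_all X s hs hsec hRad hr halg hB hrq hrs hqs ι A φ hφ hφr hE
  have hA : ∀ a : kb, algebraMap kb M a ∈ A := fun a => (hφ.1 a).1
  obtain ⟨c, hc⟩ := (ff_val (Tow.ff X.hp hB hE) A hA ⟨g, hgE, hgA⟩).2 f hfE hfA
  refine ⟨c, fun σ => ?_⟩
  have hyE : f - algebraMap kb M c ∈ E := sub_mem hfE (E.algebraMap_mem c)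
  -- elements of valuation less than one
  have hlt : ∀ y : M, y ≠ 0 → (A.valuation y < 1 ↔ y⁻¹ ∉ A) := by
    intro y hy
    have h1 : A.valuation y ≠ 0 := by
      rw [Ne, map_eq_zero]
      exact hy
    rw [← A.valuation_le_one_iff, map_inv₀, inv_le_one₀ (zero_lt_iff.2 h1), not_le]
  have hs1 : A.valuation (s σ (f - algebraMap kb M c)) < 1 := by
    by_cases h0 : f - algebraMap kb M c = 0
    · rw [h0, map_zero, map_zero]
      exact zero_lt_one
    · have h1 := (hlt _ h0).1 hc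
      have h2 : s σ (f - algebraMap kb M c) ≠ 0 := (map_ne_zero (s σ)).2 h0
      rw [hlt _ h2, ← map_inv₀, hSt σ _ (inv_mem hyE)]
      exact h1
  have hmem : s σ (f - algebraMap kb M c) ∈ A := (A.valuation_le_one_iff _).1 hs1.le
  have hzero : φ ⟨s σ (f - algebraMap kb M c), hmem⟩ = 0 := by
    by_contra hne
    have h1 := hφ.2.1 ⟨s σ (f - algebraMap kb M c), hmem⟩ hne
    have h0 : s σ (f - algebraMap kb M c) ≠ 0 := by
      intro h0
      apply hne
      have h2 : (⟨s σ (f - algebraMap kb M c), hmem⟩ : A) = 0 := Subtype.ext h0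
      rw [h2, map_zero]
    exact ((hlt _ h0).1 hs1) h1
  obtain ⟨hcA, hcφ⟩ := hφ.1 (σ c)
  have hsum : s σ f = s σ (f - algebraMap kb M c) + algebraMap kb M (σ c) := by
    rw [map_sub, hsec, sub_add_cancel]
  have hfm : s σ f ∈ A := by
    rw [hsum]
    exact A.add_mem _ _ hmem hcA
  refine ⟨hfm, ?_⟩
  have h3 : (⟨s σ f, hfm⟩ : A) = ⟨s σ (f - algebraMap kb M c), hmem⟩ +
      ⟨algebraMap kb M (σ c), hcA⟩ := Subtype.ext hsum
  rw [h3, map_add, hzero, zero_add, hcφ]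
  rfl

end Pool.Agent.Lib.MP_2f3286_ag.Pp
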